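import Pool.Agent.P.MP_ab0431_ag.UB2.Base

/-! Statements at the boundaries of the blocks. -/

set_option autoImplicit false
set_option linter.unusedSectionVars false

namespace Pool.Agent.P.MP_ab0431_ag.UB.V2

open Polynomial Set Filter Topology

-- deps:
def S_AALG1 : Prop := ∀ (S : RS) (z τ : S.R → ℂ), S.Gen z τ → ∃ c, S.Img z τ c

-- deps:
def S_AALG2 : Prop := ∀ (S : RS) (z τ : S.R → ℂ) (c : Co S.inf.ncard 6 → ℂ), S.Gen z τ →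
  S.Img z τ c → S.Neg z (toP c) → ∃ w, w ≤ 10 * S.inf.ncard ∧ c ∈ Y0 S.inf.ncard w 6

-- deps:
def S_AMAIN : Prop := ∀ (Q : PM) (m : ℕ), 0 < m → ∃ C : ℕ, ∀ (y : ℕ) (X : DSurf),
  DAmple X m → KsqLe X.X y → ∃ (b w d : ℕ) (c : Co b 6 → ℂ), b ≤ C * y ∧ w ≤ C * y ∧
    d ≤ C * y ∧ c ∈ Y0 b w 6 ∧ Good c ∧ IsCov Q X c d

-- deps:
def S_BMAIN : Prop := ∀ b w m : ℕ, ∃ (I : Ideal (MvPolynomial (Co b m) ℂ)) (n : ℕ),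
  n ≤ w + b * (m + 1) ∧ (∀ κ, 1 ≤ κ → HF I κ ≤ Gam b w m * κ ^ n) ∧ ∀ c ∈ Y0 b w m,
    ∃ p : Ideal (MvPolynomial (Co b m) ℂ), p.IsPrime ∧ I ≤ p ∧ n ≤ dm p ∧
      c ∈ MvPolynomial.zeroLocus ℂ p

-- deps:
def S_CMAIN : Prop := ∀ (b m n Γ nn N : ℕ) (I : Ideal (MvPolynomial (Co b m) ℂ)) (ι : Type)
  [Fintype ι] (c : ι → Co b m → ℂ), (∀ κ, 1 ≤ κ → HF I κ ≤ Γ * κ ^ n) →
  (∀ i, ∃ p : Ideal (MvPolynomial (Co b m) ℂ), p.IsPrime ∧ I ≤ p ∧ n ≤ dm p ∧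
    c i ∈ MvPolynomial.zeroLocus ℂ p) → (∀ i, Good (c i) ∧ nr (c i) = nn) →
  (64 * n * (b + 1) ^ 4) ^ n * Γ * N < Fintype.card ι →
  ∃ (f : Fin (N + 1) → ι) (U : Set ℂ) (s : ℂ → Co b m → ℂ), Function.Injective f ∧
    Strip nn N U s ∧ ∀ j : Fin (N + 1), s j = c (f j)

-- deps:
def S_DMAIN : Prop := ∀ (Q : PM) (b m d nn N : ℕ) (U : Set ℂ) (s : ℂ → Co b m → ℂ)
  (X : Fin (N + 1) → DSurf), Strip nn N U s → (d ^ 2 + 1) ^ b ≤ N →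
  (∀ j : Fin (N + 1), IsCov Q (X j) (s j) d) → ∃ i j, i ≠ j ∧ DFamily (X i) (X j)

-- deps: AMAIN BMAIN CMAIN DMAIN
def S_MAIN : Prop := ∀ m : ℕ, 0 < m → ∃ C : ℕ, ∀ (y n : ℕ) (X : Fin n → DSurf),
  (y + 2) ^ (C * (y + 1)) < n → (∀ i, DAmple (X i) m ∧ KsqLe (X i).X y) →
  ∃ i j, i ≠ j ∧ DFamily (X i) (X j)

end Pool.Agent.P.MP_ab0431_ag.UB.V2
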