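import Pool.Agent.P.MP_ab0431_ag.UB2.IfaceA2
import Pool.Agent.P.MP_ab0431_ag.UB2.IfaceT

/-! Steps RFIN APROP ASH1 AGRO ACH0 ACHR ALIM AALG1 AREP EUL ANS1 ANS0 ALOW PINT APIN ANS2 ANSP AALG2. -/

set_option autoImplicit false
set_option linter.unusedSectionVars false
set_option linter.unusedVariables false

namespace Pool.Agent.P.MP_ab0431_ag.UB.V2

open Polynomial Set Filter Topology Asymptotics

theorem ne_rfin2 (S : RS) {r r' : S.R} (g : r ∉ S.bad) (h : r' ∈ (S.ψ r).source) (e : r' ≠ r) :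
    S.ψ r r' ≠ 0 :=
  fun k => e ((S.ψ r).injOn h (S.mem r g) (k.trans (S.zero r g).symm))

theorem src_rfin2 (S : RS) {r : S.R} (g : r ∉ S.bad) :
    ∀ᶠ r' in 𝓝[≠] r, r' ∈ (S.ψ r).source ∧ r' ≠ r :=
  Eventually.and (nhdsWithin_le_nhds (RS.src_ev g)) self_mem_nhdsWithin

theorem inj_rfin2 (S : RS) {r r' : S.R} (g : r ∉ S.bad) (h : r' ∈ (S.ψ r).source) (e : r' ≠ r) :
    ∃ W ∈ 𝓝 r', InjOn S.xx W := by
  have h1 := (S.ψ r).open_source.mem_nhds h
  by_cases hr : r ∈ S.inf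
  · refine ⟨_, inter_mem h1 (isOpen_ne.mem_nhds e), fun a ha b hb k => (S.ψ r).injOn ha.1 hb.1 ?_⟩
    have a1 := ((S.atinf r hr).2 a ha.1 ha.2).2
    have b1 := ((S.atinf r hr).2 b hb.1 hb.2).2
    linear_combination S.ψ r b * a1 - S.ψ r a * b1 - S.ψ r a * S.ψ r b * k
  · refine ⟨_, inter_mem h1 (((S.ψ r).continuousAt h).preimage_mem_nhds
      (Metric.ball_mem_nhds _ (norm_pos_iff.2 (ne_rfin2 S g h e)))), fun a ha b hb k =>
      (S.ψ r).injOn ha.1 hb.1 ?_⟩
    rw [(S.aff r hr a ha.1).2, (S.aff r hr b hb.1).2, add_right_inj] at k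
    rcases S.ν12 r with n | n <;> rw [n] at k
    · simpa using k
    · refine (sq_eq_sq_iff_eq_or_eq_neg.1 k).resolve_right fun k' => ?_
      have a1 := mem_ball_iff_norm.1 ha.2
      have b1 := mem_ball_iff_norm.1 hb.2
      have := norm_add_le (S.ψ r a - S.ψ r r') (S.ψ r b - S.ψ r r')
      rw [show S.ψ r a - S.ψ r r' + (S.ψ r b - S.ψ r r') = -(2 * S.ψ r r') by rw [k']; ring,
        norm_neg, norm_mul, Complex.norm_two] at this
      linarith

theorem one_rfin2 (S : RS) {r : S.R} (g : r ∉ S.bad) (hr : r ∉ S.inf) {W : Set S.R}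
    (hW : W ∈ 𝓝 r) (h : InjOn S.xx W) : S.ν r = 1 := by
  refine (S.ν12 r).resolve_right fun n => ?_
  have h1 : ∀ᶠ u in 𝓝 (0 : ℂ), u ∈ (S.ψ r).target ∧ (S.ψ r).symm u ∈ W :=
    Eventually.and (RS.tgt_ev g) (RS.tendsto_symm g hW)
  have h2 := (show Tendsto (fun u : ℂ => -u) (𝓝 0) (𝓝 0) from by
    simpa using continuous_neg.tendsto (0 : ℂ)).eventually h1
  obtain ⟨u, ⟨⟨a1, a2⟩, b1, b2⟩, u0⟩ := (((h1.and h2).filter_mono
    (nhdsWithin_le_nhds (s := {0}ᶜ))).and self_mem_nhdsWithin).exists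
  refine u0 (CharZero.eq_neg_self_iff.1 ((S.ψ r).symm.injOn a1 b1 (h a2 b2 ?_)))
  rw [(S.aff r hr _ ((S.ψ r).map_target a1)).2, (S.aff r hr _ ((S.ψ r).map_target b1)).2,
    (S.ψ r).right_inv a1, (S.ψ r).right_inv b1, n, neg_sq]

theorem p_RFIN :
    S_RFIN := by
  intro S
  have key : ∀ r ∉ S.bad, ∀ᶠ r' in 𝓝[≠] r, r' ∉ S.inf ∧ S.ν r' = 1 := fun r g =>
    (src_rfin2 S g).mono fun r' ⟨a, b⟩ => by
      have c : r' ∉ S.inf := by
        by_cases hr : r ∈ S.inf
        exacts [((S.atinf r hr).2 r' a b).1, (S.aff r hr r' a).1]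
      obtain ⟨W, w1, w2⟩ := inj_rfin2 S g a b
      exact ⟨c, one_rfin2 S (S.bo r r' a) c w1 w2⟩
  have hinf : S.inf.Finite := fin_rfin fun r => by
    by_cases g : r ∈ S.bad
    exacts [nhdsWithin_le_nhds (S.bx r g).2.1, (key r g).mono fun _ a => a.1]
  refine ⟨hinf, key, fun r hr => ?_, fun r g x => ?_, fun hF Z hZ r => ?_⟩
  · by_cases g : r ∈ S.bad
    · exact ⟨(S.bx r g).1, (S.bx r g).2.1⟩
    refine ⟨?_, (RS.src_ev g).mono fun r' a => (S.aff r hr r' a).1⟩
    have c := (((S.ψ r).continuousAt (S.mem r g)).pow (S.ν r)).const_add (S.xx r)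
    exact c.congr ((RS.src_ev g).mono fun r' a => (S.aff r hr r' a).2.symm)
  · have c := ((S.ψ r).continuousAt (S.mem r g)).continuousWithinAt (s := {r}ᶜ)
    have n : S.ν r ≠ 0 := RS.ν_ne r
    by_cases hr : r ∈ S.inf
    · filter_upwards [src_rfin2 S g,
        (c.const_mul x).eventually_ne (b₂ := 1) (by simp [S.zero r g])] with r' a b k
      exact b (k.2 ▸ ((S.atinf r hr).2 r' a.1 a.2).2)
    by_cases hx : S.xx r = x
    · filter_upwards [src_rfin2 S g] with r' a k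
      have := (S.aff r hr r' a.1).2
      rw [k.2, hx, left_eq_add] at this
      exact pow_ne_zero _ (ne_rfin2 S g a.1 a.2) this
    · filter_upwards [src_rfin2 S g, ((c.pow (S.ν r)).const_add (S.xx r)).eventually_ne (b₂ := x)
        (by simpa [S.zero r g, n] using hx)] with r' a b k
      exact b ((S.aff r hr r' a.1).2.symm.trans k.2)
  · have hA : (S.inf ∪ ⋃ x ∈ Z, S.fb x).Finite := hinf.union (hZ.biUnion fun x _ => hF.2 x)
    have h1 : ∀ᶠ r' in 𝓝 r, r' ∉ (S.inf ∪ ⋃ x ∈ Z, S.fb x) \ {r} :=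
      (hA.subset sdiff_subset).isClosed.isOpen_compl.mem_nhds fun h => h.2 rfl
    filter_upwards [nhdsWithin_le_nhds h1, self_mem_nhdsWithin] with r' a b
    have c : r' ∉ S.inf := fun h => a ⟨.inl h, b⟩
    exact ⟨c, fun h => a ⟨.inr (mem_biUnion h ⟨c, rfl⟩), b⟩⟩

end Pool.Agent.P.MP_ab0431_ag.UB.V2

namespace Pool.Agent.P.MP_ab0431_ag.UB.V2

open Polynomial Set Filter Topology Asymptotics

theorem p_APROP (hRFIN : S_RFIN) :
    S_APROP := by
  intro S
  have hx : ∀ (x : ℂ), ∀ r ∉ S.inf,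
      Tendsto (fun z : ℂ × S.R => S.xx z.2) (𝓝 (x, r)) (𝓝 (S.xx r)) := fun x r hr =>
    ((hRFIN S).2.2.1 r hr).1.tendsto.comp continuousAt_snd
  refine ⟨fun x₀ W hW h => ?_, fun W hW h => ?_⟩
  · refine (hW.isClosed_compl.isCompact.eventually_forall_of_forall_eventually
      (P := fun x r => r ∉ S.fb x) fun r hr => ?_).mono fun x hx r hr => by_contra (hx r · hr)
    have h1 : Tendsto (fun z : ℂ × S.R => z.1) (𝓝 (x₀, r)) (𝓝 x₀) := continuousAt_fst
    have h5 : Tendsto (fun z : ℂ × S.R => z.2) (𝓝 (x₀, r)) (𝓝 r) := continuousAt_snd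
    by_cases hi : r ∈ S.inf
    · filter_upwards [h5.eventually (RS.src_ev (RS.inf_good hi)),
        (h1.mul ((RS.tendsto_ψ (RS.inf_good hi)).comp h5)).eventually_ne
          (show x₀ * 0 ≠ 1 by simp)] with z h2 h3 h4
      by_cases e : z.2 = r
      · exact h4.1 (e ▸ hi)
      · exact h3 (h4.2 ▸ ((S.atinf r hi).2 _ h2 e).2)
    · have h0 : S.xx r - x₀ ≠ 0 := fun e => hr (h ⟨hi, sub_eq_zero.1 e⟩)
      filter_upwards [((hx x₀ r hi).sub h1).eventually_ne h0] with z h3 h4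
      exact h3 (by rw [h4.2, sub_self])
  · have := hW.isClosed_compl.isCompact.eventually_forall_of_forall_eventually (x₀ := (0 : ℂ))
      (P := fun u r => u ≠ 0 → r ∉ S.fb u⁻¹) fun r hr => ?_
    · filter_upwards [nhdsWithin_le_nhds this, self_mem_nhdsWithin] with u h1 h2 r hr
      exact by_contra (h1 r · h2 hr)
    have h1 : Tendsto (fun z : ℂ × S.R => z.1) (𝓝 (0, r)) (𝓝 0) := continuousAt_fst
    filter_upwards [(h1.mul (hx 0 r fun e => hr (h e))).eventually_ne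
      (show 0 * S.xx r ≠ 1 by simp)] with z h3 h4 h5
    exact h3 (by rw [h5.2, mul_inv_cancel₀ h4])

end Pool.Agent.P.MP_ab0431_ag.UB.V2

namespace Pool.Agent.P.MP_ab0431_ag.UB.V2

open Polynomial Set Filter Topology Asymptotics

theorem p_ASH1 (hAPROP : S_APROP) (hRFIN : S_RFIN) :
    S_ASH1 := by
  intro S hF
  have hi := (hRFIN S).1
  obtain ⟨h1, h2⟩ := hAPROP S
  have op : ∀ (A : Set S.R) (U : S.R → Set S.R), (∀ r ∈ A, r ∉ S.bad) →
      (∀ r, r ∈ U r ∧ IsOpen (U r)) →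
      IsOpen (⋃ r ∈ A, U r ∩ (S.ψ r).source) ∧ A ⊆ ⋃ r ∈ A, U r ∩ (S.ψ r).source :=
    fun A U g hU => ⟨isOpen_biUnion fun r _ => (hU r).2.inter (S.ψ r).open_source,
      fun r hr => mem_biUnion hr ⟨(hU r).1, S.mem r (g r hr)⟩⟩
  have ev : ∀ (U : S.R → Set S.R), (∀ r, r ∈ U r ∧ IsOpen (U r)) → ∀ r ∉ S.bad,
      ∀ᶠ v in 𝓝 (0 : ℂ), v ∈ (S.ψ r).target ∧ (S.ψ r).symm v ∈ U r :=
    fun U hU r g => (RS.tgt_ev g).and ((RS.tendsto_symm g).eventually ((hU r).2.mem_nhds (hU r).1))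
  have hb : ∀ x₀ ∉ S.cv, ∀ᶠ x in 𝓝 x₀,
      BijOn (fun r => (S.ψ r).symm (x - x₀)) (S.fb x₀) (S.fb x) := fun x₀ hx₀ => by
    obtain ⟨U, hU, hd⟩ := (hF.2 x₀).t2_separation
    have g : ∀ r ∈ S.fb x₀, r ∉ S.bad := fun r hr => RS.good_of_cv hx₀ hr
    filter_upwards [h1 x₀ _ (op _ U g hU).1 (op _ U g hU).2, (hF.2 x₀).eventually_all.2
      fun r hr => ashg_root (ν := 1) (ev U hU r (g r hr)) x₀] with x hx hv
    have hv := fun r hr => hv r hr (x - x₀) (pow_one _)
    refine ⟨fun p hp => ?_, fun p hp q hq e => ?_, fun r' hr' => ?_⟩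
    · have t := (hv _ hp).1
      have := S.aff _ hp.1 _ ((S.ψ p).map_target t)
      rw [(S.ψ p).right_inv t, RS.ν_one hx₀ hp, hp.2] at this
      exact ⟨this.1, by rw [this.2]; ring⟩
    · simp only at e
      exact hd.elim_set hp hq _ (hv p hp).2 (e ▸ (hv q hq).2)
    · obtain ⟨r, hr, -, s⟩ := mem_iUnion₂.1 (hx hr')
      have := (S.aff r hr.1 r' s).2
      rw [hr.2, hr'.2, RS.ν_one hx₀ hr, pow_one] at this
      exact ⟨r, hr, by
        rw [this, add_sub_cancel_left]; exact (S.ψ r).left_inv s⟩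
  have h3 : ∀ᶠ u in 𝓝[≠] (0 : ℂ), BijOn (fun r => (S.ψ r).symm u) S.inf (S.fb u⁻¹) := by
    obtain ⟨U, hU, hd⟩ := hi.t2_separation
    have g : ∀ r ∈ S.inf, r ∉ S.bad := fun r hr => RS.inf_good hr
    filter_upwards [h2 _ (op _ U g hU).1 (op _ U g hU).2, hi.eventually_all.2
      fun r hr => (RS.inf_ev hr).and (nhdsWithin_le_nhds (ev U hU r (g r hr))),
      self_mem_nhdsWithin] with u hx hv u0
    refine ⟨fun r hr => (hv r hr).1, fun p hp q hq e => ?_, fun r' hr' => ?_⟩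
    · simp only at e
      exact hd.elim_set hp hq _ (hv p hp).2.2 (e ▸ (hv q hq).2.2)
    · obtain ⟨r, hr, -, s⟩ := mem_iUnion₂.1 (hx hr')
      have := ((S.atinf r hr).2 r' s fun e => hr'.1 (e ▸ hr)).2
      rw [hr'.2, inv_mul_eq_one₀ u0] at this
      exact ⟨r, hr, by rw [this]; exact (S.ψ r).left_inv s⟩
  have hcv : S.cv.Finite := hF.1.image _
  have hconn : IsPreconnected S.cvᶜ :=
    (hcv.countable.isConnected_compl_of_one_lt_rank
      (by rw [Complex.rank_real_complex]; norm_num)).isPreconnected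
  have hcont : ContinuousOn (fun x => (S.fb x).ncard) S.cvᶜ := fun x₀ hx₀ => by
    refine ContinuousAt.continuousWithinAt ?_
    refine (continuousAt_const (y := (S.fb x₀).ncard)).congr ?_
    exact (hb x₀ hx₀).mono fun x hx => hx.ncard_eq
  obtain ⟨u, hu, hu'⟩ := (h3.and (UB.RS.ev_inv_notMem hcv)).exists
  have hcard : ∀ x₀ ∉ S.cv, (S.fb x₀).ncard = S.inf.ncard := fun x₀ hx₀ =>
    (hconn.constant hcont hx₀ hu').trans hu.ncard_eq.symm
  refine ⟨fun x₀ hx₀ => ?_, ?_⟩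
  · obtain ⟨e, he⟩ := exists_en (hF.2 x₀) (hcard x₀ hx₀)
    exact ⟨e, he, (hb x₀ hx₀).mono fun x hx => he.bij hx⟩
  · obtain ⟨e, he⟩ := exists_en hi rfl
    exact ⟨e, he, h3.mono fun x hx => he.bij hx⟩

end Pool.Agent.P.MP_ab0431_ag.UB.V2

namespace Pool.Agent.P.MP_ab0431_ag.UB.V2

open Polynomial Set Filter Topology Asymptotics

theorem p_AGRO :
    S_AGRO := by
  intro S n f τ hf hi
  have one : ∀ r : S.R, (1 : ℝ) ≤ (1 + ‖S.xx r‖) ^ n := fun r =>
    one_le_pow₀ (le_add_of_nonneg_right (norm_nonneg _))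
  have loc : ∀ r₀ : S.R, ∃ c : ℝ, 0 ≤ c ∧
      ∀ᶠ r in 𝓝 r₀, r ∉ S.inf → ‖f r‖ ≤ c * (1 + ‖S.xx r‖) ^ n := by
    intro r₀
    by_cases h₀ : r₀ ∈ S.inf
    · obtain ⟨C, hC, hb⟩ := ((hi r₀ h₀).isBigO_one ℝ).exists_nonneg
      refine ⟨C, hC, ?_⟩
      have hg := RS.inf_good h₀
      filter_upwards [eventually_nhdsWithin_iff.1 ((RS.tendsto_ψ_ne hg).eventually hb.bound),
        RS.src_ev hg] with r hr hs hn
      have hne : r ≠ r₀ := fun e => hn (e ▸ h₀)
      have h1 := hr hne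
      have h2 := ((S.atinf r₀ h₀).2 r hs hne).2
      simp only [RS.lc, Function.comp, (S.ψ r₀).left_inv hs, norm_one, mul_one] at h1
      have h3 : f r = f r * S.ψ r₀ r ^ n * S.xx r ^ n := by
        rw [mul_assoc, ← mul_pow, mul_comm (S.ψ r₀ r), h2, one_pow, mul_one]
      rw [h3, norm_mul, norm_pow]
      gcongr
      exact le_add_of_nonneg_left zero_le_one
    · obtain ⟨C, hC, hb⟩ := (hf r₀ h₀).exists_nonneg
      refine ⟨max C ‖f r₀‖, le_max_of_le_left hC, ?_⟩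
      filter_upwards [eventually_nhdsWithin_iff.1 hb.bound] with r hr _
      refine le_trans ?_ (le_mul_of_one_le_right (le_max_of_le_left hC) (one r))
      by_cases hne : r = r₀
      · rw [hne]; exact le_max_right _ _
      · have h1 := hr hne
        rw [norm_one, mul_one] at h1
        exact le_max_of_le_left h1
  have key := (isCompact_univ (X := S.R)).induction_on
    (p := fun A => ∃ c : ℝ, 0 ≤ c ∧ ∀ r ∈ A, r ∉ S.inf → ‖f r‖ ≤ c * (1 + ‖S.xx r‖) ^ n)
    ⟨0, le_rfl, by simp⟩ (fun _ _ hst ⟨c, hc, h⟩ => ⟨c, hc, fun r hr => h r (hst hr)⟩)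
    (fun _ _ ⟨c, hc, h⟩ ⟨c', _, h'⟩ => ⟨max c c', le_max_of_le_left hc, fun r hr hn => by
      have := zero_le_one.trans (one r)
      rcases hr with hr | hr
      · exact (h r hr hn).trans (by gcongr; exact le_max_left _ _)
      · exact (h' r hr hn).trans (by gcongr; exact le_max_right _ _)⟩)
    (fun r₀ _ => by
      obtain ⟨c, hc, h⟩ := loc r₀
      exact ⟨_, mem_nhdsWithin_of_mem_nhds h, c, hc, fun r hr => hr⟩)
  obtain ⟨c, hc, h⟩ := key
  exact ⟨c, hc, fun r hn => h r (mem_univ r) hn⟩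

end Pool.Agent.P.MP_ab0431_ag.UB.V2

namespace Pool.Agent.P.MP_ab0431_ag.UB.V2

open Polynomial Set Filter Topology Asymptotics

theorem p_ACH0 (hASH1 : S_ASH1) (hAGRO : S_AGRO) :
    S_ACH0 := by
  intro S Z n f τ hF hZ hcv ha hb hi
  obtain ⟨c, c0, hc⟩ := hAGRO S n f τ hb hi
  have key : ∀ j, ∃ p : ℂ[X], p.natDegree ≤ n * (S.inf.ncard - j) ∧
      ∀ x ∉ Z, (∏ᶠ r ∈ S.fb x, (X - C (f r))).coeff j = p.eval x := fun j => by
    refine t_POLY _ Z (2 ^ S.inf.ncard * c ^ (S.inf.ncard - j)) _ hZ (fun x hx => ?_) fun x hx => ?_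
    all_goals obtain ⟨e, he, hev⟩ := (hASH1 S hF).1 x fun h => hx (hcv h)
    · have := (t_ACF _ j).1 (fun i y => S.lc f (e i) (y - x)) x fun i =>
        (ha _ (he.mem i).1 (by rw [(he.mem i).2]; exact hx)).comp_of_eq (by fun_prop) (sub_self x)
      refine this.differentiableAt.congr_of_eventuallyEq (hev.mono fun y hy => ?_)
      beta_reduce
      rw [hy.finprod]; rfl
    · rw [he.finprod]
      refine ((t_ACF _ j).2 (fun i => f (e i)) (c * (1 + ‖x‖) ^ n) (by positivity) fun i => ?_).trans_eq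
        (by rw [mul_pow, ← pow_mul, mul_assoc])
      simpa only [(he.mem i).2] using hc _ (he.mem i).1
  choose p hp1 hp2 using key
  obtain ⟨G, hG⟩ : ∃ G : ℂ[X][X],
    G = X ^ S.inf.ncard + ∑ j ∈ Finset.range S.inf.ncard, C (p j) * X ^ j := ⟨_, rfl⟩
  have hd : (∑ j ∈ Finset.range S.inf.ncard, C (p j) * X ^ j : ℂ[X][X]).degree < S.inf.ncard := by
    rw [Finset.sum_range]; exact degree_sum_fin_lt _
  have g2 : G.natDegree = S.inf.ncard := by
    rw [hG, natDegree_add_eq_left_of_degree_lt (by rwa [degree_X_pow]), natDegree_X_pow]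
  have g3 : WD S.inf.ncard n G := fun j k h => by
    rw [hG, coeff_add, coeff_add, finsetSum_coeff, finsetSum_coeff, Finset.sum_eq_zero, add_zero,
      coeff_X_pow]
    · split_ifs with e
      · rw [coeff_one, if_neg (by omega)]
      · rfl
    · intro i _
      rw [coeff_C_mul_X_pow]
      split_ifs with e
      · exact coeff_eq_zero_of_natDegree_lt ((hp1 i).trans_lt (e ▸ h))
      · rfl
  have g4 : ∀ x ∉ Z, G.map (evalRingHom x) = ∏ᶠ r ∈ S.fb x, (X - C (f r)) := fun x hx => by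
    obtain ⟨e, he, -⟩ := (hASH1 S hF).1 x fun h => hx (hcv h)
    have h1 : (∏ᶠ r ∈ S.fb x, (X - C (f r))).Monic := by
      rw [he.finprod]; exact monic_prod_X_sub_C _ _
    have h2 : (∏ᶠ r ∈ S.fb x, (X - C (f r))).natDegree = S.inf.ncard := by
      rw [he.finprod, natDegree_finsetProd_X_sub_C_eq_card]; simp
    rw [h1.as_sum, h2, hG]
    simp [Polynomial.map_sum, hp2 _ x hx]
  refine ⟨G, hG ▸ monic_X_pow_add hd, g2, g3, g4, ?_⟩
  obtain ⟨e, he, hev⟩ := (hASH1 S hF).2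
  rw [he.finprod]
  refine t_ATOP _ n G (fun i => S.lc f (e i)) _ g2.le g3 ?_ fun i => hi _ (he.mem i)
  filter_upwards [hev, UB.RS.ev_inv_notMem hZ] with u h1 h2
  rw [g4 _ h2, h1.finprod]; rfl

end Pool.Agent.P.MP_ab0431_ag.UB.V2

namespace Pool.Agent.P.MP_ab0431_ag.UB.V2

open Polynomial Set Filter Topology Asymptotics

theorem p_ACHR (hACH0 : S_ACH0) :
    S_ACHR := by
  intro S n f τ hF h
  exact hACH0 S S.cv n f τ hF (hF.1.image _) subset_rfl
    (fun r hr hx => h.1.1 r hr (RS.good_of_cv hx ⟨hr, rfl⟩))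
    (fun r hr => ((h.contAt hr).tendsto.isBigO_one ℝ).mono nhdsWithin_le_nhds)
    fun r hr => by
      obtain ⟨g, a1, a2, a3⟩ := h.1.2 r hr
      exact ((a2 ▸ a1.continuousAt.tendsto).mono_left nhdsWithin_le_nhds).congr'
        (a3.mono fun u hu => hu.symm)

end Pool.Agent.P.MP_ab0431_ag.UB.V2

namespace Pool.Agent.P.MP_ab0431_ag.UB.V2

open Polynomial Set Filter Topology Asymptotics

theorem roots_alim2 (ν : ℕ) (hν : ν ≠ 0) (c : ℂ) :
    {v : ℂ | v ^ ν = c}.Finite ∧ {v : ℂ | v ^ ν = c}.ncard ≤ ν := by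
  classical
  have e : {v : ℂ | v ^ ν = c} = ↑(nthRoots ν c).toFinset := by
    ext v; simp [mem_nthRoots (Nat.pos_of_ne_zero hν)]
  rw [e, ncard_coe_finset]
  exact ⟨Finset.finite_toSet _, (Multiset.toFinset_card_le _).trans (card_nthRoots ν c)⟩

theorem cont_alim2 (G : ℂ[X][X]) : Continuous fun p : ℂ × ℂ => G.evalEval p.1 p.2 := by
  induction G using Polynomial.induction_on' with
  | add p q hp hq => simp only [evalEval_add]; exact hp.add hq
  | monomial n a =>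
    simp only [← C_mul_X_pow_eq_monomial, evalEval_mul, evalEval_C, evalEval_pow, evalEval_X]
    exact (a.continuous.comp continuous_fst).mul (continuous_snd.pow n)

theorem ev_alim2 {Z : Set ℂ} (hZ : Z.Finite) (x : ℂ) : ∀ᶠ y in 𝓝[≠] x, y ∉ Z := by
  filter_upwards [nhdsWithin_le_nhds
    ((hZ.subset (sdiff_subset (t := {x}))).isClosed.isOpen_compl.mem_nhds
    (show x ∈ (Z \ {x})ᶜ by simp)), self_mem_nhdsWithin] with y a b c using a ⟨c, b⟩

theorem p_ALIM (hASH1 : S_ASH1) (hAPROP : S_APROP) (hRFIN : S_RFIN) :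
    S_ALIM := by
  intro S x₀ hF
  have hcv : S.cv.Finite := hF.1.image _
  have hen : ∀ x, ∃ e : Fin S.inf.ncard → S.R, x ∉ S.cv → En e (S.fb x) := by
    intro x
    by_cases h : x ∈ S.cv
    · obtain ⟨e, -⟩ := (hASH1 S hF).2
      exact ⟨e, fun h' => absurd h h'⟩
    · obtain ⟨e, he, -⟩ := (hASH1 S hF).1 x h
      exact ⟨e, fun _ => he⟩
  choose en hen using hen
  let U : Ultrafilter ℂ := Ultrafilter.of (𝓝[≠] x₀)
  have hU : (U : Filter ℂ) ≤ 𝓝[≠] x₀ := Ultrafilter.of_le _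
  have hU' : (U : Filter ℂ) ≤ 𝓝 x₀ := hU.trans nhdsWithin_le_nhds
  have ev : ∀ᶠ x in (U : Filter ℂ), x ∉ S.cv := hU (ev_alim2 hcv x₀)
  have hρ : ∀ j, ∃ r : S.R, Tendsto (fun x => en x j) U (𝓝 r) := by
    intro j
    obtain ⟨r, -, hr⟩ := isCompact_univ.ultrafilter_le_nhds (U.map fun x => en x j) (by simp)
    exact ⟨r, hr⟩
  choose ρ hρ using hρ
  have hfb : ∀ j, ρ j ∈ S.fb x₀ := by
    intro j
    by_contra h
    obtain ⟨t, ht, htc, hts⟩ :=
      exists_mem_nhds_isClosed_subset ((hF.2 x₀).isClosed.isOpen_compl.mem_nhds h)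
    have h1 := (hAPROP S).1 x₀ tᶜ htc.isOpen_compl (subset_compl_comm.1 hts)
    obtain ⟨x, a, b, c⟩ := (ev.and ((h1.filter_mono hU').and ((hρ j).eventually ht))).exists
    exact b ((hen x a).mem j) c
  refine ⟨ρ, hfb, fun r hr => ?_, fun g G hg hG => ⟨Polynomial.funext fun t => ?_, fun r hr => ?_⟩⟩
  · by_cases h : r ∈ S.fb x₀
    · have h1 : ∀ᶠ x in (U : Filter ℂ), ∀ j, ρ j = r → en x j ∈ (S.ψ r).source := by
        refine eventually_all.2 fun j => ?_
        by_cases e : ρ j = r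
        · exact ((e ▸ hρ j).eventually (RS.src_ev hr)).mono fun x hx _ => hx
        · exact Eventually.of_forall fun x e' => absurd e' e
      obtain ⟨x, a, b⟩ := (ev.and h1).exists
      obtain ⟨f1, f2⟩ := roots_alim2 (S.ν r) (RS.ν_ne r) (x - x₀)
      refine le_trans (ncard_le_ncard_of_injOn (fun j => S.ψ r (en x j)) (fun j hj => ?_)
        (fun i hi j hj e => ?_) f1) f2
      · have h2 := (S.aff r h.1 _ (b j hj)).2
        rw [((hen x a).mem j).2, h.2] at h2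
        show S.ψ r (en x j) ^ S.ν r = x - x₀
        linear_combination -h2
      · exact (hen x a).1 ((S.ψ r).injOn (b i hi) (b j hj) e)
    · have e : {j | ρ j = r} = ∅ := eq_empty_of_forall_notMem fun j hj => h (hj ▸ hfb j)
      rw [e, ncard_empty]; exact Nat.zero_le _
  · rw [map_evalRingHom_eval, eval_prod]
    refine tendsto_nhds_unique_of_eventuallyEq (l := (U : Filter ℂ))
      (f := fun x => G.evalEval x t) (g := fun x => ∏ j, (t - g (en x j))) ?_
      (tendsto_finsetProd _ fun j _ => ?_) (ev.mono fun x hx => ?_)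
    · exact (((cont_alim2 G).comp (Continuous.prodMk_left t)).tendsto x₀).mono_left hU'
    · have := ((hg _ (hfb j).1).tendsto.comp (hρ j)).const_sub t
      simpa using this
    · beta_reduce
      rw [← map_evalRingHom_eval, hG x hx, (hen x hx).finprod, eval_prod]
      simp
  · have := RS.neBot r
    refine tendsto_nhds_unique_of_eventuallyEq (l := 𝓝[≠] r)
      (f := fun r' => G.evalEval (S.xx r') (g r')) (g := fun _ => 0) ?_ tendsto_const_nhds
      (((hRFIN S).2.2.2.2 hF S.cv hcv r).mono fun r' h' => ?_)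
    · have h1 := ((cont_alim2 G).tendsto (S.xx r, g r)).comp
        ((((hRFIN S).2.2.1 r hr.1).1.tendsto).prodMk_nhds (hg r hr.1).tendsto)
      rw [hr.2] at h1
      exact h1.mono_left nhdsWithin_le_nhds
    · beta_reduce
      have h1 : r' ∈ range (en (S.xx r')) := by
        rw [(hen _ h'.2).2]; exact ⟨h'.1, rfl⟩
      obtain ⟨j, hj⟩ := h1
      rw [← map_evalRingHom_eval, hG _ h'.2, (hen _ h'.2).finprod, eval_prod]
      exact Finset.prod_eq_zero (Finset.mem_univ j) (by simp [hj])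

end Pool.Agent.P.MP_ab0431_ag.UB.V2

namespace Pool.Agent.P.MP_ab0431_ag.UB.V2

open Polynomial Set Filter Topology

theorem three_aalg12 {b : ℕ} (a : Fin b → ℂ) (t : ℂ)
    (h : 2 < (∏ j, (X - C (a j))).rootMultiplicity t) :
    ∃ i j k, i ≠ j ∧ i ≠ k ∧ j ≠ k ∧ a i = t ∧ a j = t ∧ a k = t := by
  classical
  have e : (∏ j, (X - C (a j))).roots = Finset.univ.val.map a := by
    rw [← roots_multiset_prod_X_sub_C (Finset.univ.val.map a), Multiset.map_map]; rfl
  rw [← count_roots, e, Multiset.count_map] at h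
  obtain ⟨i, j, k, hi, hj, hk, a1, a2, a3⟩ :=
    (Finset.two_lt_card_iff (s := Finset.univ.filter fun j => t = a j)).1 h
  exact ⟨i, j, k, a1, a2, a3, (Finset.mem_filter.1 hi).2.symm, (Finset.mem_filter.1 hj).2.symm,
    (Finset.mem_filter.1 hk).2.symm⟩

theorem p_AALG1 (hACHR : S_ACHR) (hALIM : S_ALIM) (hASH1 : S_ASH1) :
    S_AALG1 := by
  intro S z τ hG
  obtain ⟨F, h1, h2, h3, h4, h5⟩ := hACHR S 1 z τ hG.fn hG.cl
  have e : toP (co S.inf.ncard 6 F) = F := toP_co h1 h2 fun j n h => h3 j n (by omega)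
  have hz : ∀ r ∉ S.inf, ContinuousAt z r := fun r h => hG.cl.contAt h
  refine ⟨co _ 6 F, ⟨e.symm ▸ h3, ?_⟩, e.symm ▸ h4, fun x t => ?_, fun x t ht => ?_, e.symm ▸ h5⟩
  · obtain ⟨en, he, -⟩ := (hASH1 S hG.fn).2
    rw [he.finprod] at h5
    have := (t_TOP ℂ _ 1 _ h1 h2 h3).2
    rw [one_mul] at this
    rw [e, this]
    refine (t_DSEP ℂ _ _ ?_ ?_).2 ?_ <;> rw [h5]
    · exact monic_prod_of_monic _ _ fun j _ => monic_X_sub_C _
    · rw [natDegree_prod_of_monic _ _ fun j _ => monic_X_sub_C _]; simp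
    · exact separable_prod_X_sub_C_iff.2 fun i j h => he.1 (hG.inj (he.mem i) (he.mem j) h)
  · obtain ⟨ρ, a1, -, a3⟩ := hALIM S x hG.fn
    obtain ⟨b1, b2⟩ := a3 z F hz h4
    rw [e]
    refine ⟨fun h => ?_, fun ⟨r, hr, h⟩ => h ▸ b2 r hr⟩
    rw [← map_evalRingHom_eval, b1, eval_prod, Finset.prod_eq_zero_iff] at h
    obtain ⟨j, -, hj⟩ := h
    rw [eval_sub, eval_X, eval_C, sub_eq_zero] at hj
    exact ⟨ρ j, a1 j, hj.symm⟩
  · obtain ⟨ρ, a1, a2, a3⟩ := hALIM S x hG.fn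
    rw [e, (a3 z F hz h4).1] at ht
    obtain ⟨i, j, k, hij, hik, hjk, hi, hj, hk⟩ := three_aalg12 (fun j => z (ρ j)) t ht
    by_contra hn
    have nb : ∀ j, z (ρ j) = t → ρ j ∈ S.fb x \ S.bad := fun j h =>
      ⟨a1 j, fun hb => hn ⟨_, hb, (a1 j).2, h⟩⟩
    have key : ∀ i j k, i ≠ j → i ≠ k → j ≠ k → z (ρ i) = t → z (ρ k) = t → ρ i ≠ ρ j :=
      fun i j k hij hik hjk hi hk e' => by
        have c := a2 _ (nb i hi).2
        have c2 : 1 < {l | ρ l = ρ i}.ncard :=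
          (one_lt_ncard_iff (toFinite _)).2 ⟨i, j, rfl, e'.symm, hij⟩
        have n2 : S.ν (ρ i) = 2 := by rcases S.ν12 (ρ i) with n | n <;> omega
        have c3 : 2 < {l | ρ l = ρ i}.ncard := (two_lt_ncard_iff (toFinite _)).2
          ⟨i, j, k, rfl, e'.symm,
            (hG.pair x _ (nb i hi) _ (nb k hk) n2 (hi.trans hk.symm)).symm, hij, hik, hjk⟩
        omega
    rcases hG.triple x _ (nb i hi) _ (nb j hj) _ (nb k hk) (hi.trans hj.symm) (hi.trans hk.symm)
      with h | h | h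
    · exact key i j k hij hik hjk hi hk h
    · exact key i k j hik hij hjk.symm hi hj h
    · exact key j k i hjk hij.symm hik.symm hj hi h

end Pool.Agent.P.MP_ab0431_ag.UB.V2

namespace Pool.Agent.P.MP_ab0431_ag.UB.V2

open Polynomial Set Filter Topology Asymptotics

theorem p_AREP (hASH1 : S_ASH1) (hRFIN : S_RFIN) :
    S_AREP := by
  intro S z D s hfn hz hN hch
  obtain ⟨f2, f3⟩ := id hfn
  have hh : (D.toStr.N s).det * D.P ≠ 0 := mul_ne_zero hN D.P_monic.ne_zero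
  let E : S.R → Fin S.inf.ncard → ℂ := fun r i =>
    (∑ k, ((D.toStr.N s).adjugate i k).eval (S.xx r) * z r ^ (k : ℕ)) /
      (D.toStr.N s).det.eval (S.xx r)
  have hZ : ∀ x ∉ S.cv ∪ {x | ((D.toStr.N s).det * D.P).IsRoot x},
      x ∉ S.cv ∧ (D.toStr.N s).det.eval x ≠ 0 ∧ (D.fib x).disc ≠ 0 := fun x hx => by
    simp only [mem_union, mem_ofPred_eq, IsRoot, eval_mul, mul_eq_zero, not_or] at hx
    refine ⟨hx.1, hx.2.1, ?_⟩
    rw [Str.disc_map, D.hd]
    simpa using hx.2.2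
  have key : ∀ x ∉ S.cv, (D.toStr.N s).det.eval x ≠ 0 → (D.fib x).disc ≠ 0 → ∀ r ∈ S.fb x,
      (D.fib x).IsPt (E r) ∧
        ((D.toStr.N s).map (evalRingHom x)).mulVec (E r) = (fun k => z r ^ k.val) ∧
        S.val E s r = z r := by
    intro x hx h1 h2 r hr
    obtain ⟨χ, hχ, hd⟩ := t_SPLIT ℂ _ _ h2
    have h3 := ((t_CHP ℂ _ _ χ hχ).2.1 hd.isUnit (D.toStr.mapA (evalRingHom x) s)).1
    rw [Str.ch_map, hch x hx, finprod_mem_eq_finite_toFinset_prod _ (f3 x)] at h3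
    have h4 := congrArg (eval (z r)) h3
    rw [eval_prod, eval_prod, Finset.prod_eq_zero ((f3 x).mem_toFinset.2 hr)
      (by simp), eq_comm, Finset.prod_eq_zero_iff] at h4
    obtain ⟨j, -, hj⟩ := h4
    rw [eval_sub, eval_X, eval_C, sub_eq_zero, ← (hχ j).hom_apply] at hj
    have h5 : ((D.toStr.N s).map (evalRingHom x)).mulVec (χ j) = fun k => z r ^ k.val := by
      funext k
      rw [hj, ← map_pow, ← Str.N_map]
      rfl
    have h6 : E r = χ j := funext fun i => by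
      rw [← AREP_solve _ x _ _ h1 h5 i, ← hr.2]
    have h7 : (D.fib x).IsPt (E r) := h6 ▸ hχ j
    refine ⟨h7, h6 ▸ h5, ?_⟩
    rw [RS.val_eq hr h7, hj, h7.hom_apply, (hχ j).hom_apply, h6]
  have loc : ∀ r ∉ S.inf, r ∉ S.bad → ∀ i, ∃ f g : ℂ → ℂ, AnalyticAt ℂ f 0 ∧ AnalyticAt ℂ g 0 ∧
      g 0 = (D.toStr.N s).det.eval (S.xx r) ∧
      (f / g) =ᶠ[𝓝 0] fun u => E ((S.ψ r).symm u) i := by
    intro r hr hb i
    have h1 : ∀ p : ℂ[X], AnalyticAt ℂ (fun u : ℂ => p.eval (S.xx r + u ^ S.ν r)) 0 := fun p =>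
      (p.differentiable.comp (by fun_prop)).analyticAt 0
    refine ⟨fun u => ∑ k, ((D.toStr.N s).adjugate i k).eval (S.xx r + u ^ S.ν r) *
      S.lc z r u ^ (k : ℕ), _, Finset.analyticAt_fun_sum _ fun k _ =>
        (h1 _).mul ((hz r hr hb).pow _), h1 (D.toStr.N s).det, by simp [RS.ν_ne r], ?_⟩
    filter_upwards [RS.aff_ev hr hb] with u hu
    simp only [E, hu.2, Pi.div_apply, RS.lc, Function.comp]
  refine ⟨_, E, ⟨hfn, (f2.image _).union (finite_setOfPred_isRoot hh), subset_union_left,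
    fun x hx r hr => ?_, fun x hx e he h0 => ?_⟩, fun x hx r hr => ?_⟩
  · obtain ⟨h3, h1, h2⟩ := hZ x hx
    refine ⟨(key x h3 h1 h2 r hr).1, analyticAt_pi_iff.2 fun i => ?_⟩
    obtain ⟨f, g, hf, hg, h0, h⟩ := loc r hr.1 (RS.good_of_cv h3 hr) i
    exact (hf.div hg (by rw [h0, hr.2]; exact h1)).congr h
  · obtain ⟨h3, h1, h2⟩ := hZ x hx
    have h4 : (Matrix.of fun j => E (e j)) * ((D.toStr.N s).map (evalRingHom x)).transpose =
        Matrix.vandermonde fun j => z (e j) := by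
      ext j k
      rw [Matrix.vandermonde_apply, ← congrFun (key x h3 h1 h2 _ (he.mem j)).2.1 k]
      simp [Matrix.mul_apply, Matrix.mulVec, dotProduct, mul_comm]
    have h5 := (t_DISC ℂ _).1 (D.fib x) (D.toStr.mapA (evalRingHom x) s)
    rw [Str.ch_map, hch x h3, he.finprod, (t_DISC ℂ _).2.2, ← h4, Matrix.det_mul, h0,
      Str.N_map, ← RingHom.mapMatrix_apply, ← RingHom.map_det] at h5
    exact mul_ne_zero (pow_ne_zero 2 h1) h2 (by simpa using h5.symm)
  · obtain ⟨h3, h1, h2⟩ := hZ x hx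
    exact (key x h3 h1 h2 r hr).2.2

end Pool.Agent.P.MP_ab0431_ag.UB.V2

namespace Pool.Agent.P.MP_ab0431_ag.UB.V2

open Polynomial Set Filter Topology Asymptotics

theorem p_EUL :
    S_EUL := by
  intro b D s l
  obtain ⟨β, hβ⟩ : X - C s ∣ (D.ch s).map (algebraMap ℂ[X] D.A) := by
    rw [dvd_iff_isRoot, IsRoot.def, eval_map_algebraMap]
    exact D.aeval_ch s
  refine ⟨C (D.c : ℂ) • ∑ i ∈ Finset.range (β.natDegree + 1), (s ^ i) l • β.coeff i, ?_⟩
  intro x χ h hd j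
  let f : Fin b → D.A →+* ℂ := fun k =>
    (h k).hom.toRingHom.comp (D.toStr.mapA (evalRingHom x))
  have hf : ∀ k (a : D.A), ∑ i, (a i).eval x * χ k i = f k a := fun _ _ => rfl
  have hs : ∀ k (g : ℂ[X]) (a : D.A), f k (g • a) = g.eval x * f k a := fun k g a => by
    simp only [← hf, Str.smul_apply, eval_mul, Finset.mul_sum, mul_assoc]
  have hc : ∀ k, (f k).comp (algebraMap ℂ[X] D.A) = evalRingHom x := fun k =>
    RingHom.ext fun g => by
      rw [RingHom.comp_apply, Algebra.algebraMap_eq_smul_one, hs, map_one, mul_one]; rfl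
  have hp := (t_CHP ℂ b (D.fib x) χ h).2.1 hd.isUnit
  have htr : ∀ a : D.A, (D.tr a).eval x = ∑ k, f k a := fun a =>
    (D.toStr.tr_map (evalRingHom x) a).symm.trans (hp _).2
  have hF : (D.ch s).map (evalRingHom x) = ∏ k, (X - C (f k s)) :=
    (D.toStr.ch_map (evalRingHom x) s).symm.trans (hp _).1
  have h1 : (D.ch s).map (evalRingHom x) = (X - C (f j s)) * β.map (f j) := by
    rw [← hc j, ← Polynomial.map_map, hβ]
    simp
  have h2 : β.map (f j) = ∏ k ∈ Finset.univ.erase j, (X - C (f k s)) := by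
    refine mul_left_cancel₀ (X_sub_C_ne_zero (f j s)) ?_
    rw [← h1, hF, Finset.mul_prod_erase _ (fun k => X - C (f k s)) (Finset.mem_univ j)]
  have h3 : (D.ch s).derivative.evalEval x (f j s) = (β.map (f j)).eval (f j s) := by
    rw [← map_evalRingHom_eval, ← derivative_map, h1]
    simp
  have h4 : ∀ k, k ≠ j → (β.map (f j)).eval (f k s) = 0 := fun k hk => by
    rw [h2, eval_prod]
    exact Finset.prod_eq_zero (i := k) (by simpa using hk) (by simp)
  have h5 : ∀ i, D.P.eval x * ((D.c : ℂ) * ((s ^ i) l).eval x) =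
      ∑ k, f k (D.du l) * f k s ^ i := fun i => by
    have e := congrArg (eval x) ((t_CHS ℂ[X] b D.toStr (s ^ i)).2.2.1 l)
    rw [htr, D.hd] at e
    simp only [map_mul, map_pow, eval_mul, eval_C] at e
    rw [e]; ring
  have h6 : ∀ z, (β.map (f j)).eval z =
      ∑ i ∈ Finset.range (β.natDegree + 1), f j (β.coeff i) * z ^ i := fun z => by
    rw [eval_map, eval₂_eq_sum_range]
  rw [hf, hf, hf, h3, hs, map_sum, eval_C]
  have h7 : ∀ i, D.P.eval x * ((D.c : ℂ) * f j ((s ^ i) l • β.coeff i)) =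
      ∑ k, f k (D.du l) * (f j (β.coeff i) * f k s ^ i) := fun i => by
    rw [hs, ← mul_assoc (D.c : ℂ), ← mul_assoc, h5, Finset.sum_mul]
    exact Finset.sum_congr rfl fun k _ => by ring
  rw [Finset.mul_sum, Finset.mul_sum, Finset.sum_congr rfl fun i _ => h7 i, Finset.sum_comm]
  simp only [← Finset.mul_sum, ← h6]
  rw [Finset.sum_eq_single j (fun k _ hk => by rw [h4 k hk, mul_zero]) (by simp), mul_comm]

end Pool.Agent.P.MP_ab0431_ag.UB.V2

namespace Pool.Agent.P.MP_ab0431_ag.UB.V2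

open Polynomial Set Filter Topology Asymptotics

theorem p_ANS1 (hRFIN : S_RFIN) :
    S_ANS1 := by
  intro S D Z E R
  have h1 : ∀ m (o : D.A), D.Deg m o → ∃ c : ℝ, 0 ≤ c ∧
      ∀ x ∉ Z, ∀ r ∈ S.fb x, ‖S.val E o r‖ ≤ c * (1 + ‖x‖) ^ m := by
    intro m o ho
    obtain ⟨Dt, -, -, -, -, h, -⟩ := t_TUP ℂ _ D
    obtain ⟨c, hc, H⟩ := t_ARB _ m (D.ch o) (Str.ch_monic _ o) (Str.ch_natDegree _ o) (h m o ho).1
    exact ⟨c, hc, fun x hx r hr => H x _ (RS.val_root hr (R.pt x hx r hr).1 o)⟩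
  refine ⟨h1, fun o r hr => ?_⟩
  obtain ⟨m, hm⟩ := D.exists_deg o
  obtain ⟨c, -, H⟩ := h1 m o hm
  have hx : Tendsto S.xx (𝓝[≠] r) (𝓝 (S.xx r)) :=
    ((hRFIN S).2.2.1 r hr).1.tendsto.mono_left nhdsWithin_le_nhds
  have t : Tendsto (fun r' => c * (1 + ‖S.xx r'‖) ^ m) (𝓝[≠] r)
      (𝓝 (c * (1 + ‖S.xx r‖) ^ m)) := ((hx.norm.const_add 1).pow m).const_mul c
  refine IsBigO.trans (IsBigO.of_bound' ?_) (t.isBigO_one ℝ)
  filter_upwards [(hRFIN S).2.2.2.2 R.fn Z R.fin r] with u hu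
  exact (H _ hu.2 _ ⟨hu.1, rfl⟩).trans (le_abs_self _)

end Pool.Agent.P.MP_ab0431_ag.UB.V2

namespace Pool.Agent.P.MP_ab0431_ag.UB.V2

open Polynomial Set Filter Topology Asymptotics

theorem p_ANS0 (hEUL : S_EUL) (hANS1 : S_ANS1) (hASH1 : S_ASH1) (hRFIN : S_RFIN) :
    S_ANS0 := by
  intro S D Z E s g l hR hg r hr
  obtain ⟨o, ho⟩ := hEUL _ D s l
  have h1 := (hANS1 S D Z E hR).2 o r hr
  have h2 : (fun r' => D.P.eval (S.xx r') * S.val E o r') =O[𝓝[≠] r]
      fun r' => D.P.eval (S.xx r') := by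
    have h0 : S.val E o =O[𝓝[≠] r] fun _ => (1 : ℂ) := h1.trans (isBigO_const_const _ one_ne_zero _)
    simpa using (isBigO_refl (fun r' => D.P.eval (S.xx r')) (𝓝[≠] r)).mul h0
  refine h2.congr' ?_ EventuallyEq.rfl
  filter_upwards [(hRFIN S).2.2.2.2 hR.fn Z hR.fin r] with r' hr'
  have hm : r' ∈ S.fb (S.xx r') := ⟨hr'.1, rfl⟩
  obtain ⟨e, he, -⟩ := (hASH1 S hR.fn).1 (S.xx r') fun h => hr'.2 (hR.cv h)
  obtain ⟨j, hj⟩ : ∃ j, e j = r' := by
    have : r' ∈ Set.range e := he.2 ▸ hm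
    exact this
  have h3 := ho (S.xx r') (fun j => E (e j))
    (fun j => (hR.pt _ hr'.2 _ (he.2 ▸ Set.mem_range_self j)).1) (hR.det _ hr'.2 e he) j
  rw [hj] at h3
  rw [← hg _ hr'.2 r' hm]
  exact h3.symm

end Pool.Agent.P.MP_ab0431_ag.UB.V2

namespace Pool.Agent.P.MP_ab0431_ag.UB.V2

open Polynomial Set Filter Topology Asymptotics

theorem der_alow2 (F : ℂ[X][X]) {a c : ℂ → ℂ} {a' c' u : ℂ} (ha : HasDerivAt a a' u)
    (hc : HasDerivAt c c' u) : ∃ e, HasDerivAt (fun v => F.evalEval (a v) (c v))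
      (F.derivative.evalEval (a u) (c u) * c' + e * a') u := by
  induction F using Polynomial.induction_on' with
  | add p q hp hq =>
    obtain ⟨e, he⟩ := hp
    obtain ⟨e', he'⟩ := hq
    refine ⟨e + e', ?_⟩
    simp only [derivative_add, evalEval_add]
    refine (he.add he').congr_deriv ?_
    ring
  | monomial n p =>
    refine ⟨p.derivative.eval (a u) * c u ^ n, ?_⟩
    simp only [derivative_monomial, evalEval, eval_monomial, eval_mul, eval_pow, eval_C,
      eval_natCast]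
    refine (((p.hasDerivAt (a u)).comp u ha).mul (hc.pow n)).congr_deriv ?_
    simp only [Function.comp_apply, Pi.pow_apply]
    ring

theorem mult_alow2 {n : ℕ} (f : Fin n → ℂ) (t : ℂ) :
    rootMultiplicity t (∏ j, (X - C (f j))) = {j | f j = t}.ncard := by
  classical
  have h : (∏ j, (X - C (f j)) : ℂ[X]) =
      ((Finset.univ.val.map f).map fun a => X - C a).prod := by
    rw [Multiset.map_map]; rfl
  rw [← count_roots, h, roots_multiset_prod_X_sub_C, Multiset.count_map,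
    Set.ncard_eq_toFinset_card']
  simp only [Finset.card, toFinset_ofPred, Finset.filter_val, eq_comm]

theorem one_alow2 {l : Filter ℂ} {h : ℂ → ℂ} {c : ℂ} (t : Tendsto h l (𝓝 c)) (hc : c ≠ 0) :
    (fun _ => (1 : ℂ)) =O[l] h :=
  (isBigO_const_const (1 : ℂ) hc l).trans ((isEquivalent_const_iff_tendsto hc).2 t).isBigO_symm

theorem p_ALOW (hALIM : S_ALIM) (hRFIN : S_RFIN) :
    S_ALOW := by
  intro S g G r hF hG hg hP hi hb ha hinj hd
  obtain ⟨ρ, h1, h2, h3⟩ := hALIM S (S.xx r) hF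
  obtain ⟨h4, h5⟩ := h3 g G hg hP
  have h0 : G.map (evalRingHom (S.xx r)) ≠ 0 := (hG.map _).ne_zero
  have hm : rootMultiplicity (g r) (G.map (evalRingHom (S.xx r))) ≤ S.ν r := by
    rw [h4, mult_alow2]
    refine le_trans (Set.ncard_le_ncard (fun j hj => hinj _ (h1 j) hj)) (h2 r hb)
  have hk : ¬∀ m ≤ S.ν r, (derivative^[m] G).evalEval (S.xx r) (g r) = 0 := fun h => by
    refine absurd hm (not_le.2 ((lt_rootMultiplicity_iff_isRoot_iterate_derivative h0).2
      fun m hm => ?_))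
    rw [iterate_derivative_map, IsRoot, map_evalRingHom_eval]
    exact h m hm
  have hr : G.evalEval (S.xx r) (g r) = 0 := h5 r ⟨hi, rfl⟩
  have hc := ha.differentiableAt.hasDerivAt
  have c0 : S.lc g r 0 = g r := RS.lc_zero hb g
  rcases S.ν12 r with e | e
  · rw [e] at hk ⊢
    have k0 : G.derivative.evalEval (S.xx r) (g r) ≠ 0 := fun h => hk fun m hm => by
      interval_cases m
      exacts [hr, h]
    obtain ⟨_, hk'⟩ := der_alow2 G.derivative
      ((hasDerivAt_pow 1 (0 : ℂ)).const_add (S.xx r)) hc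
    have := hk'.continuousAt.tendsto
    simp only [c0, pow_one, add_zero] at this
    simp only [Nat.sub_self, pow_zero, pow_one]
    exact (one_alow2 this k0).mono nhdsWithin_le_nhds
  · have hev := RS.aff_ev hi hb
    have hd' := hd e
    rw [e] at hk hev ⊢
    have ha2 : HasDerivAt (fun u : ℂ => S.xx r + u ^ 2) 0 0 := by
      simpa using (hasDerivAt_pow 2 (0 : ℂ)).const_add (S.xx r)
    have z : (fun u => G.evalEval (S.xx r + u ^ 2) (S.lc g r u)) =ᶠ[𝓝 0] fun _ => 0 :=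
      hev.mono fun u hu => by
        obtain ⟨ρ', -, -, h⟩ := hALIM S (S.xx r + u ^ 2) hF
        exact (h g G hg hP).2 _ hu
    obtain ⟨_, d1⟩ := der_alow2 G ha2 hc
    obtain ⟨_, d2⟩ := der_alow2 G.derivative ha2 hc
    have k0 : G.derivative.evalEval (S.xx r) (g r) = 0 := by
      have := d1.unique ((hasDerivAt_const (0 : ℂ) (0 : ℂ)).congr_of_eventuallyEq z)
      simpa [c0, hd'] using this
    have k1 : G.derivative.derivative.evalEval (S.xx r) (g r) ≠ 0 := fun h => hk fun m hm => by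
      interval_cases m
      exacts [hr, k0, h]
    have := (isBigO_refl (fun u : ℂ => u) _).mul
      (one_alow2 (hasDerivAt_iff_tendsto_slope_zero.1 d2) (by simpa [c0, hd'] using k1))
    refine this.congr' (.of_forall fun u => by simp) ?_
    filter_upwards [self_mem_nhdsWithin] with u hu
    have hu' : u ≠ 0 := hu
    simp [c0, k0, hu']

end Pool.Agent.P.MP_ab0431_ag.UB.V2

namespace Pool.Agent.P.MP_ab0431_ag.UB.V2

open Polynomial Set Filter Topology Asymptotics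

theorem p_PINT :
    S_PINT := by
  intro b D Z G f hM hZ H
  let t : Fin b → ℂ → ℂ := fun l x => ∑ᶠ p ∈ {p | (D.fib x).IsPt p}, f x p * p l
  have ht : ∀ x (χ : Fin b → Fin b → ℂ), (∀ j, (D.fib x).IsPt (χ j)) → (Matrix.of χ).det ≠ 0 →
      ∀ l, t l x = ∑ j, f x (χ j) * χ j l := fun x χ h1 h2 l => by
    have e : {p | (D.fib x).IsPt p} = range χ := Set.ext fun p => ⟨fun hp => by
      obtain ⟨j, hj⟩ := (t_CHP ℂ b _ χ h1).2.2 h2.isUnit inferInstance p hp
      exact ⟨j, hj.symm⟩, by rintro ⟨j, rfl⟩; exact h1 j⟩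
    have hi : Function.Injective χ := fun j k h =>
      by_contra fun hne => h2 (Matrix.det_zero_of_row_eq hne h)
    simp only [t]
    rw [e, finsum_mem_range hi, finsum_eq_sum_of_fintype]
  have hp : ∀ l, ∃ p : ℂ[X], ∀ x ∉ Z, t l x = p.eval x := fun l => by
    obtain ⟨c, n, hc, h⟩ := root_pint G
    obtain ⟨c', n', hc', h'⟩ := root_pint (D.ch (D.e l))
    obtain ⟨p, -, hp⟩ := t_POLY (t l) Z (b * (c * c')) (n + n') hZ (fun x hx => by
      obtain ⟨χ, a1, a2⟩ := H x hx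
      refine (Finset.analyticAt_fun_sum Finset.univ fun j _ =>
        (a1 j).2.mul (analyticAt_pi_iff.1 (a1 j).1 l)).differentiableAt.congr_of_eventuallyEq ?_
      exact a2.mono fun y hy => ht y _ hy.1 hy.2.1 l) fun x hx => by
        obtain ⟨χ, -, a2⟩ := H x hx
        obtain ⟨a2, a3, a4⟩ := a2.self_of_nhds
        rw [ht x _ a2 a3]
        refine (norm_sum_le _ _).trans ((Finset.sum_le_card_nsmul _ _
          (c * (1 + ‖x‖) ^ n * (c' * (1 + ‖x‖) ^ n')) fun j _ => ?_).trans_eq ?_)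
        · rw [norm_mul]
          refine mul_le_mul (h x _ ?_ ?_) (h' x _ ((D.ch_monic _).map _) ?_) (norm_nonneg _)
            (by positivity)
          · rw [a4]; exact monic_prod_of_monic _ _ fun _ _ => monic_X_sub_C _
          · rw [a4, IsRoot, eval_prod]
            exact Finset.prod_eq_zero (Finset.mem_univ j) (by simp)
          · have e : χ j x l = (a2 j).hom ((D.fib x).e l) := by
              simp [Str.IsPt.hom_apply, Str.e_apply]
            rw [← Str.ch_map, Str.mapA_e, e, IsRoot, ← coe_aeval_eq_eval, aeval_algHom_apply,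
              Str.aeval_ch, map_zero]
        · simp only [Finset.card_univ, Fintype.card_fin, nsmul_eq_mul]; ring
    exact ⟨p, hp⟩
  choose p hp using hp
  let y : D.A := ∑ l, p l • D.du l
  have key : ∀ x ∉ Z, ∃ (χ : Fin b → Fin b → ℂ) (o : (D.fib x).A), (∀ j, (D.fib x).IsPt (χ j)) ∧
      (Matrix.of χ).det ≠ 0 ∧ G.map (evalRingHom x) = ∏ j, (X - C (f x (χ j))) ∧
      (∀ j, ∑ i, o i * χ j i = f x (χ j)) ∧
      D.toStr.mapA (evalRingHom x) y = (D.fib x).disc • o := fun x hx => by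
    obtain ⟨χ, -, a2⟩ := H x hx
    obtain ⟨a2, a3, a4⟩ := a2.self_of_nhds
    let o : (D.fib x).A := (Matrix.of fun j => χ j x)⁻¹.mulVec fun j => f x (χ j x)
    have ho : ∀ j, ∑ i, o i * χ j x i = f x (χ j x) := fun j => by
      have : (Matrix.of fun j => χ j x).mulVec o = fun j => f x (χ j x) := by
        rw [Matrix.mulVec_mulVec, Matrix.mul_nonsing_inv _ a3.isUnit, Matrix.one_mulVec]
      rw [← congrFun this j]
      exact Finset.sum_congr rfl fun i _ => mul_comm _ _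
    have h1 := (t_CHP ℂ b _ _ a2).2.1 a3.isUnit
    refine ⟨fun j => χ j x, o, a2, a3, a4, ho, ?_⟩
    rw [← (t_CHS ℂ b _ o).2.2.2, map_sum]
    refine Finset.sum_congr rfl fun l _ => ?_
    rw [Str.mapA_smul]
    congr 1
    · rw [coe_evalRingHom, ← hp l x hx, ht x _ a2 a3, (h1 _).2]
      refine Finset.sum_congr rfl fun j _ => ?_
      rw [← (a2 j).hom_apply, map_mul, (a2 j).hom_apply, ho]
      simp [Str.IsPt.hom_apply, Str.e_apply]
    · ext i
      rw [Str.mapA_apply, Str.du, Str.du, Str.T_map]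
      exact congrFun₂ (RingHom.map_adjugate (evalRingHom x) D.toStr.T) l i
  have hy : ∀ j, (D.ch y).coeff j = D.disc ^ (b - j) * G.coeff j := fun j => by
    refine eq_of_infinite_eval_eq _ _ (hZ.infinite_compl.mono fun x hx => ?_)
    obtain ⟨χ, o, a2, a3, a4, ho, h2⟩ := key x hx
    have h1 := (t_CHP ℂ b _ _ a2).2.1 a3.isUnit
    have h3 := (t_CHS ℂ b _ o).1 (D.fib x).disc j
    rw [← h2, Str.ch_map, (h1 o).1] at h3
    simp only [ho] at h3
    rw [← a4, Str.disc_map] at h3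
    simpa using h3
  have hd : D.disc ≠ 0 := by
    rw [D.hd]
    exact mul_ne_zero (C_ne_zero.2 D.c.ne_zero) D.P_monic.ne_zero
  choose o ho using hM D.disc y hd fun j => ⟨_, hy j⟩
  refine ⟨o, Polynomial.ext fun j => mul_left_cancel₀ (pow_ne_zero (b - j) hd) ?_,
    fun x hx χ' hχ => ?_⟩
  · rw [← hy, ← (t_CHS ℂ[X] b D.toStr o).1]
    exact congrArg (fun z => (D.ch z).coeff j) (funext ho).symm
  · obtain ⟨χ, o', a2, a3, -, ho', h2⟩ := key x hx
    obtain ⟨j, rfl⟩ := (t_CHP ℂ b _ _ a2).2.2 a3.isUnit inferInstance χ' hχ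
    have hd' : (D.fib x).disc ≠ 0 := by
      rcases (t_CHP ℂ b _ _ a2).1 with h | h
      · rw [h]; exact pow_ne_zero _ a3
      · exact absurd a3.isUnit h
    rw [← ho' j]
    refine Finset.sum_congr rfl fun i _ => ?_
    congr 1
    have h3 := congrFun h2 i
    rw [Str.mapA_apply, Str.smul_apply, ho i, map_mul, ← Str.disc_map] at h3
    exact mul_left_cancel₀ hd' h3

end Pool.Agent.P.MP_ab0431_ag.UB.V2

namespace Pool.Agent.P.MP_ab0431_ag.UB.V2

open Polynomial Set Filter Topology Asymptotics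

theorem p_APIN (hPINT : S_PINT) (hASH1 : S_ASH1) :
    S_APIN := by
  intro S D Z E g G hR hM hg hG
  have key : ∀ x ∉ Z, ∀ e' : Fin S.inf.ncard → S.R, En e' (S.fb x) → ∀ j,
      ∑ᶠ r ∈ {r ∈ S.fb x | E r = E (e' j)}, g r = g (e' j) := fun x hx e' h j => by
    have h2 : {r ∈ S.fb x | E r = E (e' j)} = {e' j} := by
      refine eq_singleton_iff_unique_mem.2 ⟨⟨h.mem j, rfl⟩, fun r hr => ?_⟩
      obtain ⟨i, rfl⟩ : r ∈ range e' := h.2 ▸ hr.1
      by_contra h3
      exact hR.det x hx e' h (Matrix.det_zero_of_row_eq (i := i) (j := j)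
        (fun h4 => h3 (congrArg e' h4)) hr.2)
    rw [h2, finsum_mem_singleton]
  obtain ⟨o, ho, hv⟩ := hPINT _ D Z G (fun x χ => ∑ᶠ r ∈ {r ∈ S.fb x | E r = χ}, g r) hM hR.fin
    fun x₀ h0 => by
      have hc : x₀ ∉ S.cv := fun h => h0 (hR.cv h)
      obtain ⟨e, he, h1⟩ := (hASH1 S hR.fn).1 x₀ hc
      have h2 : ∀ᶠ x in 𝓝 x₀, x ∉ Z := hR.fin.isClosed.isOpen_compl.mem_nhds h0
      have h3 : AnalyticAt ℂ (fun x : ℂ => x - x₀) x₀ := by fun_prop
      refine ⟨fun j x => E ((S.ψ (e j)).symm (x - x₀)), fun j =>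
        ⟨(hR.pt x₀ h0 _ (he.mem j)).2.comp_of_eq h3 (sub_self _), ?_⟩, ?_⟩
      · refine ((hg _ (he.mem j).1 (S.good_of_cv hc (he.mem j))).comp_of_eq h3
          (sub_self _)).congr ?_
        filter_upwards [h1, h2] with x a b using (key x b _ a j).symm
      · filter_upwards [h1, h2] with x a b
        refine ⟨fun j => (hR.pt x b _ (a.mem j)).1, hR.det x b _ a, ?_⟩
        rw [hG x fun h => b (hR.cv h), a.finprod]
        exact Finset.prod_congr rfl fun j _ => congrArg (X - C ·) (key x b _ a j).symm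
  refine ⟨o, ho, fun x hx r hr => ?_⟩
  obtain ⟨e, he, -⟩ := (hASH1 S hR.fn).1 x fun h => hx (hR.cv h)
  obtain ⟨j, rfl⟩ : r ∈ range e := he.2 ▸ hr
  rw [RS.val, hr.2, hv x hx _ (hR.pt x hx _ hr).1, key x hx e he j]

end Pool.Agent.P.MP_ab0431_ag.UB.V2

namespace Pool.Agent.P.MP_ab0431_ag.UB.V2

open Polynomial Set Filter Topology Asymptotics

theorem p_ANS2 (hANS0 : S_ANS0) (hALOW : S_ALOW) (hACHR : S_ACHR) (hAPIN : S_APIN) :
    S_ANS2 := by
  intro S D Z E l hR hM hS r hi hb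
  obtain ⟨g, τ', hc, hsep, hd⟩ := hS r hi hb
  obtain ⟨G, hG, -, -, hGx, -⟩ := hACHR S 1 g τ' hR.fn hc
  obtain ⟨o, ho, hv⟩ := hAPIN S D Z E g G hR hM hc.1.1 hGx
  have h1 := (hANS0 S D Z E o g l hR hv r hi).comp_tendsto (RS.tendsto_symm_ne hb)
  rw [ho] at h1
  have h2 := hALOW S g G r hR.fn hG (fun r' h' => hc.contAt h') hGx hi hb (hc.1.1 r hi hb) hsep hd
  have ev : ∀ᶠ u in 𝓝[≠] (0 : ℂ), S.xx ((S.ψ r).symm u) = S.xx r + u ^ S.ν r :=
    nhdsWithin_le_nhds ((RS.aff_ev hi hb).mono fun u hu => hu.2)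
  refine (h2.mul (isBigO_refl (S.lc (S.val E (D.du l)) r) _)).trans (h1.congr' ?_ ?_)
  · filter_upwards [ev] with u hu
    simp only [Function.comp, RS.lc, hu]
  · filter_upwards [ev] with u hu
    simp only [Function.comp, hu]

end Pool.Agent.P.MP_ab0431_ag.UB.V2

namespace Pool.Agent.P.MP_ab0431_ag.UB.V2

open Polynomial Set Filter Topology Asymptotics

theorem bd_ansp2 {α : Type} {L : Filter α} {a y φ P : α → ℂ} {M : ℕ}
    (h1 : φ =O[L] fun u => a u ^ M) (h2 : (fun u => a u * y u) =O[L] P) :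
    (fun u => y u ^ M * φ u * (P u)⁻¹ ^ M) =O[L] fun _ => (1 : ℝ) := by
  have h3 : (fun u => y u ^ M * φ u) =O[L] fun u => P u ^ M :=
    (((isBigO_refl (fun u => y u ^ M) L).mul h1).congr_right fun u => by
      rw [← mul_pow, mul_comm]).trans (h2.pow M)
  refine (h3.mul (isBigO_refl (fun u => (P u)⁻¹ ^ M) L)).trans (.of_bound 1 (.of_forall fun u => ?_))
  rw [← mul_pow, norm_pow, norm_one, mul_one]
  refine pow_le_one₀ (norm_nonneg _) ?_
  by_cases h : P u = 0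
  · simp [h]
  · simp [h]

open ANSPa in
theorem p_ANSP (hANS0 : S_ANS0) (hANS1 : S_ANS1) (hANS2 : S_ANS2) (hACH0 : S_ACH0) (hASH1 : S_ASH1) (hRFIN : S_RFIN) :
    S_ANSP := by
  intro S D Z E s z hR hMx hSep hz hN l
  obtain ⟨M, n, φ, τ, hn, hφ, h1, h2, h3⟩ := hN
  by_contra hl
  have hM : M ≠ 0 := by omega
  obtain ⟨n1, -⟩ := hANS1 S D Z E hR
  obtain ⟨y, hy⟩ : ∃ y, y = S.val E (D.du l) := ⟨_, rfl⟩
  have hZ : (Z ∪ {x | D.P.IsRoot x}).Finite := hR.fin.union (finite_setOfPred_isRoot D.P_monic.ne_zero)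
  have ev : ∀ r ∉ S.inf, r ∉ S.bad →
      ∀ᶠ u in 𝓝 (0 : ℂ), S.xx ((S.ψ r).symm u) = S.xx r + u ^ S.ν r :=
    fun r hr hb => (RS.aff_ev hr hb).mono fun u hu => hu.2
  obtain ⟨G, -, g2, g3, g4, g5⟩ := hACH0 S _ 0
    (fun r => y r ^ M * φ r * (D.P.eval (S.xx r))⁻¹ ^ M) (fun _ => 0) hR.fn hZ
    (hR.cv.trans subset_union_left) (fun r hr hx => by
      have hb : r ∉ S.bad := RS.good_of_cv (fun h => hx (.inl (hR.cv h))) ⟨hr, rfl⟩
      have ax : ∀ p : ℂ[X], AnalyticAt ℂ (fun u => p.eval (S.xx ((S.ψ r).symm u))) 0 := fun p =>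
        (show AnalyticAt ℂ (fun u : ℂ => p.eval (S.xx r + u ^ S.ν r)) 0 from
          (p.differentiable.analyticAt _).comp (by fun_prop)).congr
          ((ev r hr hb).mono fun u hu => by simp only [hu])
      have ay : AnalyticAt ℂ (S.lc y r) 0 := by
        rw [hy]
        change AnalyticAt ℂ (fun u => ∑ i, (D.du l i).eval (S.xx ((S.ψ r).symm u)) *
          E ((S.ψ r).symm u) i) 0
        exact Finset.analyticAt_fun_sum _ fun i _ => (ax (D.du l i)).mul
          (analyticAt_pi_iff.1 (hR.pt _ (fun h => hx (.inl h)) r ⟨hr, rfl⟩).2 i)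
      exact ((ay.pow M).mul (hφ.1 r hr hb)).mul (((ax _).inv (by
        rw [RS.symm_zero hb]; exact fun h => hx (.inr h))).pow M))
    (fun r hr => by
      rw [hy]
      by_cases hb : r ∈ S.bad
      · exact bd_ansp2 (h3 r hb) (hANS0 S D Z E s z l hR hz r hr)
      refine RS.bigO_of_lc hb ((bd_ansp2 (M := M) (φ := S.lc φ r) ?_
        (hANS2 S D Z E l hR hMx hSep r hr hb)).congr' ?_ .rfl)
      · rcases S.ν12 r with e | e
        · simpa [e] using ((hφ.1 r hr hb).continuousAt.tendsto.isBigO_one ℂ).mono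
            (nhdsWithin_le_nhds (s := {0}ᶜ))
        · simpa [e] using (h2 r hb e).mono (nhdsWithin_le_nhds (s := {0}ᶜ))
      · exact ((ev r hr hb).filter_mono nhdsWithin_le_nhds).mono fun u hu => by
          simp only [RS.lc, Function.comp, hu])
    (fun r hr => by
      obtain ⟨c, -, hc⟩ := n1 _ _ ((t_TUP ℂ _ D).choose_spec.2.2.2.2.2 l)
      obtain ⟨g, a1, -, a3⟩ := hφ.2 r hr
      have b1 : S.lc y r =O[𝓝[≠] 0] fun u => u⁻¹ ^ (D.w - D.a l) := big (c := c) (by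
        filter_upwards [RS.inf_ev hr, UB.RS.ev_inv_notMem hR.fin] with u a b using hy ▸ hc _ b _ a)
      have b2 : S.lc φ r =O[𝓝[≠] 0] fun u => u⁻¹ ^ n := by
        refine (((a1.continuousAt.tendsto.isBigO_one ℂ).mono nhdsWithin_le_nhds).mul
          (isBigO_refl (fun u : ℂ => u⁻¹ ^ n) _)).congr' ?_ (.of_forall fun u => one_mul _)
        filter_upwards [a3, self_mem_nhdsWithin] with u a b
        rw [← a, mul_assoc, ← mul_pow, mul_inv_cancel₀ b, one_pow, mul_one]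
      obtain ⟨k, hk⟩ : ∃ k, D.w * M = (D.w - D.a l) * M + n + (k + 1) := by
        have : D.a l ≤ ∑ i, D.a i :=
          Finset.single_le_sum (fun _ _ => Nat.zero_le _) (Finset.mem_univ l)
        obtain ⟨t, ht⟩ : ∃ t, D.w = t + D.a l := ⟨D.w - D.a l, by unfold Dat.w; omega⟩
        have := Nat.mul_le_mul_right M (show 6 ≤ D.a l by omega)
        exact ⟨D.a l * M - n - 1, by rw [ht, Nat.add_sub_cancel, add_mul]; omega⟩
      refine ((((b1.pow M).mul b2).mul ((inv3 D.P_monic).pow M)).congr' ?_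
        (g₂ := fun u => u ^ (k + 1)) ?_).trans_tendsto (tendsto_nhdsWithin_of_tendsto_nhds
          (Continuous.tendsto' (by fun_prop) _ _ (by simp)))
      · filter_upwards [RS.inf_ev hr] with u a
        simp only [RS.lc, Function.comp, a.2, pow_zero, mul_one]
      · filter_upwards [self_mem_nhdsWithin] with u b
        rw [D.P_natDegree, ← pow_mul, ← pow_mul, hk, ← pow_add, pow_add u, ← mul_assoc, ← mul_pow,
          inv_mul_cancel₀ b, one_pow, one_mul])
  obtain ⟨x, hx⟩ := hZ.exists_notMem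
  have hx1 : x ∉ Z := fun h => hx (.inl h)
  have hx2 : D.P.eval x ≠ 0 := fun h => hx (.inr h)
  obtain ⟨e, he, -⟩ := (hASH1 S hR.fn).1 x fun h => hx1 (hR.cv h)
  obtain ⟨e', he', -⟩ := (hASH1 S hR.fn).2
  have hG : G.map (evalRingHom x) = top S.inf.ncard 0 G := by
    conv_lhs => rw [G.as_sum_range' _ (Nat.lt_succ_of_le g2.le), Polynomial.map_sum]
    refine Finset.sum_congr rfl fun j _ => ?_
    rw [map_monomial, zero_mul, eq_C_of_natDegree_le_zero (p := G.coeff j)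
      (natDegree_le_iff_coeff_eq_zero.2 fun k hk => g3 j k (by omega))]
    simp
  rw [g4 x hx, g5, he.finprod, he'.finprod] at hG
  have pt := fun j => (hR.pt x hx1 _ (he.mem j)).1
  have y0 : ∀ j, (pt j).hom (D.toStr.mapA (evalRingHom x) (D.du l)) = 0 := fun j => by
    have := congrArg (eval (y (e j) ^ M * φ (e j) * (D.P.eval (S.xx (e j)))⁻¹ ^ M)) hG
    rw [eval_prod, eval_prod, Finset.prod_eq_zero (Finset.mem_univ j) (by simp), eq_comm,
      Finset.prod_eq_zero_iff] at this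
    obtain ⟨-, -, this⟩ := this
    rw [← RS.val_eq (he.mem j), ← hy]
    simpa [hM, (he.mem j).2, hx2, h1 _ (he.mem j).1 (RS.ν_one (fun h => hx1 (hR.cv h)) (he.mem j))]
      using this
  have t := ((t_CHP ℂ _ (D.fib x) _ pt).2.1 (isUnit_iff_ne_zero.2 (hR.det x hx1 e he))
    (D.toStr.mapA (evalRingHom x) (D.du l * D.e l))).2
  rw [Str.tr_map, (t_CHS _ _ _ _).2.2.1, D.hd, Finset.sum_eq_zero fun j _ => by
    rw [← (pt j).hom_apply, map_mul, map_mul, y0, zero_mul]] at t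
  simp [Str.e_apply, hx2] at t

end Pool.Agent.P.MP_ab0431_ag.UB.V2

namespace Pool.Agent.P.MP_ab0431_ag.UB.V2

open Polynomial Set Filter Topology

theorem p_AALG2 (hAREP : S_AREP) (hANSP : S_ANSP) (hASH1 : S_ASH1) :
    S_AALG2 := by
  intro S z τ c hG hI hN
  obtain ⟨e, he, -⟩ := (hASH1 S hG.fn).2
  have hs : (top S.inf.ncard 1 (toP c)).Separable := by
    rw [hI.top, he.finprod]
    exact separable_prod_X_sub_C_iff.2 fun i j h => he.1 (hG.inj (he.mem i) (he.mem j) h)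
  obtain ⟨D, s, m1, m2, m3, m4⟩ :=
    t_NORM ℂ _ 1 (toP c) (toP_monic c) (toP_natDegree c) hI.good.1 hs
  obtain ⟨Z, E, hR, hv⟩ := hAREP S z D s hG.fn hG.cl.1.1 m4 (m3.symm ▸ hI.aff)
  have ha := hANSP S D Z E s z hR m1 hG.sep hv (m3.symm ▸ hN)
  refine ⟨D.w, ?_, D, rfl, m1, ha, s, fun i k h => m2 i k (by omega), by rw [m3, co_toP]⟩
  have : ∑ i, D.a i ≤ ∑ _i : Fin S.inf.ncard, 5 :=
    Finset.sum_le_sum fun i _ => by have := ha i; omega
  rw [Finset.sum_const, Finset.card_univ, Fintype.card_fin, smul_eq_mul] at this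
  unfold Dat.w
  omega

end Pool.Agent.P.MP_ab0431_ag.UB.V2
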