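import Pool.Agent.P.MP_ab0431_ag.UB2.BaseA

/-! Statements on generic triples of forms and on the local structure at the double points. -/

set_option autoImplicit false
set_option linter.unusedSectionVars false

namespace Pool.Agent.P.MP_ab0431_ag.UB.V2

open Polynomial Set Filter Topology Asymptotics MeasureTheory
open scoped Manifold ContDiff

/-! ### Generic triples -/

-- deps: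
def S_CH : Prop := ∀ X : DSurf, Nonempty (Ch X)

-- deps:
def S_DA : Prop := ∀ (X : DSurf) (m : ℕ), DAmple X m →
  ∃ (N : ℕ) (σ : Fin N → Sec X) (g : Fin N → Gm X), (∀ i, Gr m (σ i) (g i)) ∧ VA σ ∧
    ∀ q ∉ range X.ι, (∀ e ∈ atlas C2 X.X, ∀ p ∈ e.source, ∃ c : Fin N → ℂ,
      (∑ i, c i • σ i) e (e p) = 0 ∧ (∑ i, c i • g i) q 0 = 1) ∧
    (∀ q' ∉ range X.ι, q ≠ q' → ∃ c : Fin N → ℂ,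
      (∑ i, c i • g i) q 0 = 1 ∧ (∑ i, c i • g i) q' 0 = 0) ∧
    ∀ (a : ℂ) (L : C3 →L[ℂ] ℂ), ∃ c : Fin N → ℂ,
      (∑ i, c i • g i) q 0 = a ∧ fderiv ℂ ((∑ i, c i • g i) q) 0 = L

-- deps:
def S_JET1 : Prop := ∀ (X : DSurf) (m N : ℕ) (σ : Fin N → Sec X), (∀ i, IsForm X.X m (σ i)) →
  VA σ → JetS fun f : Fin 20 → Fin N => ∏ k, σ (f k)

-- deps: DA JET1
def S_JET2 : Prop := ∀ (X : DSurf) (m : ℕ), DAmple X m → VeryAmple X.X m ∧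
  ∃ (N : ℕ) (τ : (Fin 20 → Fin N) → Sec X) (Γ : (Fin 20 → Fin N) → Gm X), Sys (20 * m) τ Γ

-- deps:
def S_GENE0 : Prop := ∀ (X : DSurf) (h : Ch X) (M : ℕ) (ι : Type) [Fintype ι] (τ : ι → Sec X)
  (r : ℕ) (t : Fin r → Ty) (fc fg : Bool) (og : Fin r → Bool) (σ : Equiv.Perm (Fin 3)),
  (∀ i, IsForm X.X M (τ i)) → JetS τ → r ≤ 3 →
  (∀ j, (t j).nl ≤ 3 ∧ ∀ i, (t j).n₀ i ≤ 5 ∧ (t j).n₁ i ≤ 4) →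
  fc.toNat + fg.toNat + ∑ j, (2 + (t j).nl + (og j).toNat + (t j).bt.toNat) <
    ∑ j, ∑ i, ((t j).n₀ i + (t j).n₁ i) →
  volume {a : Fin 3 → ι → ℂ | ∃ (p : Fin r → X.X) (c g : ℂ) (γ : Fin r → ℂ),
    Function.Injective p ∧ (fc = false → c = 0) ∧ (fg = false → g = 0) ∧
    (∀ j, og j = false → γ j = 0) ∧
    ∀ j, h.Evt (fun i => ∑ l, a (σ i) l • τ l) (t j) (p j) c (g + γ j)} = 0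

-- deps: GENE0
def S_GENE : Prop := ∀ (X : DSurf) (h : Ch X) (M : ℕ) (ι : Type) [Fintype ι] (τ : ι → Sec X),
  2 < M → (∀ i, IsForm X.X M (τ i)) → JetS τ →
  ∀ᵐ a : Fin 3 → ι → ℂ, Tri M h fun i => ∑ l, a i l • τ l

-- deps:
def S_GMIX : Prop := ∀ (X : DSurf) (h : Ch X) (M : ℕ) (ι : Type) [Fintype ι] (τ : ι → Sec X)
  (Γ : ι → Gm X) (q : X.B), Sys M τ Γ → q ∉ range X.ι → ∀ᵐ a : Fin 3 → ι → ℂ, ∀ p c γ,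
    (∑ l, a 1 l • Γ l) q 0 = c * (∑ l, a 0 l • Γ l) q 0 →
    (∑ l, a 2 l • Γ l) q 0 = γ * (∑ l, a 0 l • Γ l) q 0 →
    ¬h.Evt (fun i => ∑ l, a i l • τ l) tR p c γ

-- deps:
def S_GOPN : Prop := ∀ (X : DSurf) (M : ℕ) (ι : Type) [Fintype ι] (τ : ι → Sec X)
  (Γ : ι → Gm X), Sys M τ Γ → ∃ O : Set (Fin 3 → ι → ℂ), IsOpen O ∧ O.Nonempty ∧
    ∀ a ∈ O, Opn fun i => ∑ l, a i l • Γ l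

-- deps: GENE GMIX GOPN
def S_GENE2 : Prop := ∀ (X : DSurf) (h : Ch X) (M : ℕ) (ι : Type) [Fintype ι] (τ : ι → Sec X)
  (Γ : ι → Gm X), 2 < M → Sys M τ Γ → ∃ s G, Tri2 M h s G

/-! ### The smooth points -/

-- deps:
def S_JFORM : Prop := ∀ (X : DSurf) (m₀ m₁ m₂ : ℕ) (s₀ s₁ s₂ : Sec X), IsForm X.X m₀ s₀ →
  IsForm X.X m₁ s₁ → IsForm X.X m₂ s₂ →
  IsForm X.X (m₀ + m₁ + m₂ + 1) fun e => wjf m₀ m₁ m₂ (s₀ e) (s₁ e) (s₂ e)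

-- deps:
def S_SEPF : Prop := ∀ (X : DSurf) (h : Ch X) (m : ℕ) (S : Finset X.X) (l : ℕ),
  VeryAmple X.X m → S.card ≤ l → ∀ p ∈ S, ∃ f : Sec X, IsForm X.X (l * m) f ∧ h.vl f p ≠ 0 ∧
    ∀ q ∈ S, q ≠ p → h.vl f q = 0

-- deps: SEPF
def S_BEZ : Prop := ∀ (X : DSurf) (h : Ch X) (m y α β : ℕ) (u v : Sec X) (S : Finset X.X),
  0 < m → VeryAmple X.X m → KsqLe X.X y → 0 < α → 0 < β → IsForm X.X α u → IsForm X.X β v →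
  (∀ p ∈ S, h.vl u p = 0 ∧ h.vl v p = 0 ∧ fderiv ℂ (u (h.e p)) (h.pt p) ≠ 0 ∧
    ∀ᶠ q in 𝓝[≠] p, ¬(h.vl u q = 0 ∧ h.vl v q = 0)) → S.card ≤ 8 * m ^ 2 * α * β * y

-- deps:
def S_PT1 : Prop := ∀ (X : DSurf) (M : ℕ) (h : Ch X) (s : Fin 3 → Sec X) (p : X.X), Tri M h s →
  ((fun i => h.vl (s i) p) ≠ 0) ∧ (h.vl (J1 M s) p = 0 →
    (h.vl (s 0) p = 0 → h.vl (s 1) p ≠ 0 ∧ h.vl (J2 M s) p ≠ 0) ∧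
    fderiv ℂ (J1 M s (h.e p)) (h.pt p) ≠ 0)

-- deps: PT1
def S_PT2 : Prop := ∀ (X : DSurf) (M : ℕ) (h : Ch X) (s : Fin 3 → Sec X) (p : X.X) (ψ : ℂ → C2),
  Tri M h s → Par (J1 M s (h.e p)) (h.pt p) ψ →
  (h.vl (s 0) p ≠ 0 → ∀ ν : ℕ, ν = 1 ∧ h.vl (J2 M s) p ≠ 0 ∨ ν = 2 ∧ h.vl (J2 M s) p = 0 →
    ((fun u => s 1 (h.e p) (ψ u) / s 0 (h.e p) (ψ u) - h.vl (s 1) p / h.vl (s 0) p) =O[𝓝 0]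
      fun u : ℂ => u ^ ν) ∧
    ¬(fun u => s 1 (h.e p) (ψ u) / s 0 (h.e p) (ψ u) - h.vl (s 1) p / h.vl (s 0) p) =O[𝓝 0]
      fun u : ℂ => u ^ (ν + 1)) ∧
  (h.vl (s 0) p = 0 →
    ((fun u => s 0 (h.e p) (ψ u) / s 1 (h.e p) (ψ u)) =O[𝓝 0] fun u : ℂ => u ^ 1) ∧
    ¬(fun u => s 0 (h.e p) (ψ u) / s 1 (h.e p) (ψ u)) =O[𝓝 0] fun u : ℂ => u ^ (1 + 1))

-- deps: PT1
def S_PT3 : Prop := ∀ (X : DSurf) (M : ℕ) (h : Ch X) (s : Fin 3 → Sec X) (x z : X.X → ℂ),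
  Tri M h s → (x = fun p => h.vl (s 1) p / h.vl (s 0) p) →
  (z = fun p => h.vl (s 2) p / h.vl (s 0) p) → ∀ p p', p ≠ p' → h.vl (J1 M s) p = 0 →
  h.vl (J1 M s) p' = 0 →
  (h.vl (s 0) p = 0 → h.vl (s 0) p' = 0 →
    h.vl (s 2) p / h.vl (s 1) p ≠ h.vl (s 2) p' / h.vl (s 1) p') ∧
  (h.vl (s 0) p ≠ 0 → h.vl (s 0) p' ≠ 0 → x p = x p' →
    (h.vl (J2 M s) p = 0 → h.vl (J2 M s) p' ≠ 0 ∧ z p ≠ z p') ∧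
    ∀ p'', p ≠ p'' → p' ≠ p'' → h.vl (J1 M s) p'' = 0 → h.vl (s 0) p'' ≠ 0 → x p = x p'' →
      z p = z p' → z p ≠ z p'')

-- deps: PT1
def S_PIH : Prop := ∀ (Q : PM) (X : DSurf) (M : ℕ) (h : Ch X) (s : Fin 3 → Sec X), Tri M h s →
  ∃ hπ : MDifferentiable 𝓘(ℂ, C2) 𝓘(ℂ, C2) (prj Q h s), ∀ p, h.vl (J1 M s) p ≠ 0 →
    (cvr X hπ).Loc p

-- deps: PT1 PIH
def S_PT4 : Prop := ∀ (Q : PM) (X : DSurf) (M : ℕ) (h : Ch X) (s : Fin 3 → Sec X) (p : X.X),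
  Tri M h s → (∀ᶠ p' in 𝓝[≠] p, prj Q h s p' ≠ prj Q h s p) ∧
  (h.vl (J1 M s) p = 0 → h.vl (s 0) p ≠ 0 → h.vl (J2 M s) p ≠ 0 → ∃ O ∈ 𝓝 p, ∀ y₁ ∈ O,
    ∀ y₂ ∈ O, ∀ y₃ ∈ O, prj Q h s y₁ = prj Q h s y₂ → prj Q h s y₁ = prj Q h s y₃ →
      y₁ = y₂ ∨ y₁ = y₃ ∨ y₂ = y₃)

-- deps: BEZ PT1 PT4
def S_DEGB : Prop := ∀ (Q : PM) (X : DSurf) (m y M : ℕ) (h : Ch X) (s : Fin 3 → Sec X) (x z : ℂ),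
  0 < m → VeryAmple X.X m → KsqLe X.X y → Tri M h s →
  (∀ p, prj Q h s p = Q.pp ![1, x, z] → h.vl (J1 M s) p ≠ 0) →
  (prj Q h s ⁻¹' {Q.pp ![1, x, z]}).ncard ≤ 8 * m ^ 2 * M * M * y

-- deps: PT1 PIH JFORM
def S_THIN : Prop := ∀ (Q : PM) (X : DSurf) (M : ℕ) (h : Ch X) (s : Fin 3 → Sec X) (b m : ℕ)
  (c : Co b m → ℂ), Tri M h s → WD b 1 (toP c) → ∀ p, p ∈ closure (prj Q h s ⁻¹' (Bc Q c)ᶜ)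

-- deps: PT1 PT2 JFORM
def S_RM0 : Prop := ∀ (X : DSurf) (M : ℕ) (h : Ch X) (s : Fin 3 → Sec X), Tri M h s →
  IsClosed {p | h.vl (J1 M s) p = 0} ∧ ∀ (r : {p // h.vl (J1 M s) p = 0}) (ν : ℕ),
    ν = 1 ∧ h.vl (J2 M s) r ≠ 0 ∨ ν = 2 ∧ h.vl (J2 M s) r = 0 →
    ∃ φ : OpenPartialHomeomorph {p // h.vl (J1 M s) p = 0} ℂ, r ∈ φ.source ∧ φ r = 0 ∧
      (h.vl (s 0) r ≠ 0 → ∀ r' ∈ φ.source, h.vl (s 0) r' ≠ 0 ∧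
        h.vl (s 1) r' / h.vl (s 0) r' = h.vl (s 1) r / h.vl (s 0) r + φ r' ^ ν) ∧
      (h.vl (s 0) r = 0 → ν = 1 ∧ ∀ r' ∈ φ.source, r' ≠ r → h.vl (s 0) r' ≠ 0 ∧
        h.vl (s 1) r' / h.vl (s 0) r' * φ r' = 1) ∧
      ∃ ψ : ℂ → C2, AnalyticAt ℂ ψ 0 ∧ ψ 0 = h.pt r ∧ deriv ψ 0 ≠ 0 ∧ ∀ᶠ u in 𝓝 0,
        (φ.symm u).1 ∈ (h.e r).source ∧ h.e r (φ.symm u).1 = ψ u

-- deps:
def S_CARD : Prop := ∀ (Q : PM) (F : Cv C2 Q.Y) (B Ω : Set Q.Y), F.G0 B Ω → IsOpen Ω → Bᶜ ⊆ Ω →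
  (∀ q, (F.π ⁻¹' {q}).Finite) →
  (IsPreconnected Bᶜ → ∃ d, ∀ q ∉ B, (F.π ⁻¹' {q}).ncard = d) ∧
  ∀ d, ∀ q ∈ Ω, ∀ p : F.Z, Dense Bᶜ → (∀ q ∉ B, (F.π ⁻¹' {q}).ncard = d) → F.π p = q →
    (∀ p', F.π p' = q → p' ≠ p → F.Loc p') → (∃ O ∈ 𝓝 p, ∀ y₁ ∈ O, ∀ y₂ ∈ O, ∀ y₃ ∈ O,
      F.π y₁ = F.π y₂ → F.π y₁ = F.π y₃ → y₁ = y₂ ∨ y₁ = y₃ ∨ y₂ = y₃) → F.Fold d q

/-! ### Analytic functions of two variables -/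

-- deps:
def S_ZACC : Prop := ∀ (D : C2 → ℂ) (a : C2), AnalyticAt ℂ D a → D a = 0 →
  ∃ᶠ p in 𝓝[≠] a, D p = 0

-- deps:
def S_HART : Prop := ∀ (f : C2 → ℂ) (a : C2), (∀ᶠ p in 𝓝[≠] a, DifferentiableAt ℂ f p) →
  ∃ f', AnalyticAt ℂ f' a ∧ ∀ᶠ p in 𝓝[≠] a, f' p = f p

-- deps:
def S_DIV1 : Prop := ∀ (F D : C2 → ℂ) (a : C2), AnalyticAt ℂ F a → AnalyticAt ℂ D a → D a = 0 →
  fderiv ℂ D a ≠ 0 → (∀ᶠ p in 𝓝 a, D p = 0 → F p = 0) →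
  ∃ u, AnalyticAt ℂ u a ∧ ∀ᶠ p in 𝓝 a, F p = u p * D p

-- deps: HART DIV1
def S_DIV2 : Prop := ∀ (F D : C2 → ℂ) (a : C2), AnalyticAt ℂ F a → AnalyticAt ℂ D a →
  (∀ᶠ p in 𝓝[≠] a, F p = 0 → fderiv ℂ F p ≠ 0) → (∀ᶠ p in 𝓝[≠] a, D p = 0 → fderiv ℂ D p ≠ 0) →
  (∀ᶠ p in 𝓝 a, F p = 0 ↔ D p = 0) →
  ∃ u, AnalyticAt ℂ u a ∧ u a ≠ 0 ∧ ∀ᶠ p in 𝓝 a, F p = u p * D p

/-! ### The double points -/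

-- deps:
def S_OM0 : Prop := ∀ (H : C3 → ℂ) (j : C2 → C3) (ζ : C2), AnalyticAt ℂ j ζ →
  Function.Injective (fderiv ℂ j ζ) → AnalyticAt ℂ H (j ζ) → fderiv ℂ H (j ζ) ≠ 0 →
  (∀ᶠ y in 𝓝 ζ, H (j y) = 0) → ∃ μ, Vol H j ζ μ

-- deps: OM0
def S_OM1 : Prop := ∀ (X : DSurf) (q : X.B), q ∉ range X.ι →
  ∀ᶠ x in comap X.ι (𝓝 q), ∀ e ∈ atlas C2 X.X, x ∈ e.source →
    AnalyticAt ℂ (fun y => X.co q (e.symm y)) (e x) ∧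
    Function.Injective (fderiv ℂ (fun y => X.co q (e.symm y)) (e x)) ∧
    ∃ μ, Vol (Hd (X.D q)) (fun y => X.co q (e.symm y)) (e x) μ

-- deps: OM1
def S_OM2 : Prop := ∀ (X : DSurf) (q : X.B) (n : ℕ) (t : Sec X) (G : Gm X), q ∉ range X.ι →
  Gr n t G → ∀ᶠ x in comap X.ι (𝓝 q), ∀ e ∈ atlas C2 X.X, x ∈ e.source →
    ∀ μ, Vol (Hd (X.D q)) (fun y => X.co q (e.symm y)) (e x) μ →
      ∀ᶠ y in 𝓝 (e x), t e y = G q (X.co q (e.symm y)) * (2 * μ y) ^ n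

-- deps: OM1 OM2
def S_GRAT : Prop := ∀ (X : DSurf) (h : Ch X) (q : X.B), q ∉ range X.ι → ∃ u : X.B → ℂ,
  (∀ᶠ b in 𝓝 q, u b ≠ 0) ∧ ∀ (n : ℕ) (t : Sec X) (G : Gm X), Gr n t G →
    ∀ᶠ b in 𝓝 q, h.vb t G b = G q (X.ψ q b).1 * u b ^ n

-- deps:
def S_AM0 : Prop := ∀ (D : C2 → ℂ) (x z : C3 → ℂ), Iso D 0 → AnalyticAt ℂ x 0 →
  AnalyticAt ℂ z 0 → hes D (crs (fderiv ℂ x 0) (fderiv ℂ z 0)) ≠ 0 → ∃ w D', Am0 D x z w D'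

-- deps:
def S_AM1 : Prop := ∀ (D D' : C2 → ℂ) (x z w : C3 → ℂ), Iso D 0 → Am0 D x z w D' →
  Iso D' ![x 0, z 0] ∧ ∃ Θ : OpenPartialHomeomorph C3 C3, 0 ∈ Θ.source ∧
    ∀ v, Θ v = (![x v, z v], w v)

-- deps:
def S_OM3 : Prop := ∀ (D D' : C2 → ℂ) (x z w : C3 → ℂ), Am0 D x z w D' → ∃ κ : C3 → ℂ,
  AnalyticAt ℂ κ 0 ∧ κ 0 ≠ 0 ∧ ∀ᶠ v in 𝓝 (0 : C3), ∀ (j : C2 → C3) (ζ : C2) (μ : C2 → ℂ),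
    j ζ = v → AnalyticAt ℂ j ζ → Vol (Hd D) j ζ μ → ∀ᶠ y in 𝓝 ζ,
      jac (x ∘ j) (z ∘ j) y = 2 * μ y * κ (j y) * w (j y) ∧
      jac (x ∘ j) (w ∘ j) y = μ y * κ (j y) * pd 1 D' ![x (j y), z (j y)]

-- deps:
def S_PUD0 : Prop := ∀ (M : ℕ) (f : Fin 3 → C2 → ℂ) (U W : C2 → ℂ) (ζ : C2), M ≠ 0 →
  (∀ i, AnalyticAt ℂ (f i) ζ) → f 0 ζ ≠ 0 → AnalyticAt ℂ U ζ → AnalyticAt ℂ W ζ → W ζ = 0 →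
  (∀ᶠ y in 𝓝 ζ, jac (f 1 / f 0) (f 2 / f 0) y = U y * W y) →
  wjf (3 * M + 1) M M (wjf M M M (f 0) (f 1) (f 2)) (f 0) (f 1) ζ =
    M ^ 2 * f 0 ζ ^ 5 * U ζ * jac (f 1 / f 0) W ζ

-- deps:
def S_PUA : Prop := ∀ (D D' : C2 → ℂ) (Θ : OpenPartialHomeomorph C3 C3) (v₀ : Dbl D),
  v₀.1 ∈ Θ.source → (∀ᶠ v in 𝓝 v₀.1, Hd D v = Hd D' (Θ v)) →
  ∃ θ : OpenPartialHomeomorph (Dbl D) (Dbl D'), v₀ ∈ θ.source ∧ ∀ v ∈ θ.source, (θ v).1 = Θ v.1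

-- deps: GRAT
def S_PUB : Prop := ∀ (X : DSurf) (M : ℕ) (h : Ch X) (s : Fin 3 → Sec X) (G : Fin 3 → Gm X)
  (q : X.B), Tri2 M h s G → q ∉ range X.ι →
  (∀ᶠ b in 𝓝 q, h.vv s G b 0 ≠ 0 ∧
    h.af s G b = ![(G 1 q / G 0 q) (X.ψ q b).1, (G 2 q / G 0 q) (X.ψ q b).1]) ∧
  ∀ (n : ℕ) (t : Sec X) (H : Gm X), Gr (n * M) t H →
    ContinuousAt (fun b => h.vb t H b / h.vv s G b 0 ^ n) q

-- deps: OM1 OM2 OM3 PUD0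
def S_PUC : Prop := ∀ (X : DSurf) (M : ℕ) (h : Ch X) (s : Fin 3 → Sec X) (G : Fin 3 → Gm X)
  (q : X.B) (w : C3 → ℂ) (D' : C2 → ℂ), Tri2 M h s G → q ∉ range X.ι →
  Am0 (X.D q) (G 1 q / G 0 q) (G 2 q / G 0 q) w D' → ∃ C : ℝ, ∀ᶠ p in comap X.ι (𝓝 q),
    (h.vl (J1 M s) p = 0 ↔ w (X.co q p) = 0) ∧ (h.vl (J1 M s) p = 0 →
      ‖h.vl (J2 M s) p ^ M / h.vl (s 0) p ^ (5 * M + 2)‖ ≤
        C * ‖pd 1 D' ![(G 1 q / G 0 q) (X.co q p), (G 2 q / G 0 q) (X.co q p)]‖ ^ M)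

-- deps: AM0 AM1 PUA PUB PUC
def S_PUN : Prop := ∀ (X : DSurf) (M : ℕ) (h : Ch X) (s : Fin 3 → Sec X) (G : Fin 3 → Gm X)
  (q : X.B), Tri2 M h s G → q ∉ range X.ι → ∃ D' χ, Pn M h s G q D' χ

-- deps:
def S_TB0 : Prop := ∀ (B Y E : Type) [TopologicalSpace B] [CompactSpace B] [T2Space B]
  [TopologicalSpace Y] [T2Space Y] [TopologicalSpace E] (π : B → Y)
  (c : OpenPartialHomeomorph Y E) (D : E → ℂ) (χ : OpenPartialHomeomorph B (Dbl D)) (q : B),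
  Continuous π → (π ⁻¹' {π q}).Finite → q ∈ χ.source → (χ q).1.2 = 0 →
  (∀ b ∈ χ.source, π b ∈ c.source ∧ (χ b).1.1 = c (π b)) → ContinuousAt D (c (π q)) →
  (∀ b, π b = π q → b ≠ q → LH π b) →
  ∃ k N φ, IsOpen N ∧ π q ∈ N ∧ Car (mpr (D ∘ c) k) π id N φ

end Pool.Agent.P.MP_ab0431_ag.UB.V2
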