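import Pool.Agent.P.MP_ab0431_ag.UB2.IfaceT

/-! Statements of the steps from the model of the ramification curve to the plane curve. -/

set_option autoImplicit false
set_option linter.unusedSectionVars false

namespace Pool.Agent.P.MP_ab0431_ag.UB.V2

open Polynomial Set Filter Topology Asymptotics

-- deps:
def S_RFIN : Prop := ∀ S : RS, S.inf.Finite ∧
  (∀ r ∉ S.bad, ∀ᶠ r' in 𝓝[≠] r, r' ∉ S.inf ∧ S.ν r' = 1) ∧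
  (∀ r ∉ S.inf, ContinuousAt S.xx r ∧ ∀ᶠ r' in 𝓝 r, r' ∉ S.inf) ∧
  (∀ r ∉ S.bad, ∀ x, ∀ᶠ r' in 𝓝[≠] r, r' ∉ S.fb x) ∧
  (S.Fn → ∀ Z : Set ℂ, Z.Finite → ∀ r, ∀ᶠ r' in 𝓝[≠] r, r' ∉ S.inf ∧ S.xx r' ∉ Z)

-- deps: RFIN
def S_APROP : Prop := ∀ S : RS,
  (∀ x₀ W, IsOpen W → S.fb x₀ ⊆ W → ∀ᶠ x in 𝓝 x₀, S.fb x ⊆ W) ∧
  ∀ W, IsOpen W → S.inf ⊆ W → ∀ᶠ u in 𝓝[≠] (0 : ℂ), S.fb u⁻¹ ⊆ W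

-- deps: APROP RFIN
def S_ASH1 : Prop := ∀ S : RS, S.Fn →
  (∀ x₀ ∉ S.cv, ∃ e : Fin S.inf.ncard → S.R, En e (S.fb x₀) ∧
    ∀ᶠ x in 𝓝 x₀, En (fun j => (S.ψ (e j)).symm (x - x₀)) (S.fb x)) ∧
  ∃ e : Fin S.inf.ncard → S.R, En e S.inf ∧
    ∀ᶠ u in 𝓝[≠] (0 : ℂ), En (fun j => (S.ψ (e j)).symm u) (S.fb u⁻¹)

-- deps:
def S_AGRO : Prop := ∀ (S : RS) (n : ℕ) (f τ : S.R → ℂ),
  (∀ r ∉ S.inf, f =O[𝓝[≠] r] fun _ => (1 : ℝ)) →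
  (∀ r ∈ S.inf, Tendsto (fun u => S.lc f r u * u ^ n) (𝓝[≠] 0) (𝓝 (τ r))) →
  ∃ c : ℝ, 0 ≤ c ∧ ∀ r ∉ S.inf, ‖f r‖ ≤ c * (1 + ‖S.xx r‖) ^ n

-- deps: ASH1 AGRO
def S_ACH0 : Prop := ∀ (S : RS) (Z : Set ℂ) (n : ℕ) (f τ : S.R → ℂ), S.Fn → Z.Finite →
  S.cv ⊆ Z → (∀ r ∉ S.inf, S.xx r ∉ Z → AnalyticAt ℂ (S.lc f r) 0) →
  (∀ r ∉ S.inf, f =O[𝓝[≠] r] fun _ => (1 : ℝ)) →
  (∀ r ∈ S.inf, Tendsto (fun u => S.lc f r u * u ^ n) (𝓝[≠] 0) (𝓝 (τ r))) →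
  ∃ G : ℂ[X][X], G.Monic ∧ G.natDegree = S.inf.ncard ∧ WD S.inf.ncard n G ∧
    (∀ x ∉ Z, G.map (evalRingHom x) = ∏ᶠ r ∈ S.fb x, (X - C (f r))) ∧
    top S.inf.ncard n G = ∏ᶠ r ∈ S.inf, (X - C (τ r))

-- deps: ACH0
def S_ACHR : Prop := ∀ (S : RS) (n : ℕ) (f τ : S.R → ℂ), S.Fn → S.Cl n f τ →
  ∃ G : ℂ[X][X], G.Monic ∧ G.natDegree = S.inf.ncard ∧ WD S.inf.ncard n G ∧
    (∀ x ∉ S.cv, G.map (evalRingHom x) = ∏ᶠ r ∈ S.fb x, (X - C (f r))) ∧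
    top S.inf.ncard n G = ∏ᶠ r ∈ S.inf, (X - C (τ r))

-- deps: ASH1 APROP RFIN
def S_ALIM : Prop := ∀ (S : RS) (x₀ : ℂ), S.Fn → ∃ ρ : Fin S.inf.ncard → S.R,
  (∀ j, ρ j ∈ S.fb x₀) ∧ (∀ r ∉ S.bad, {j | ρ j = r}.ncard ≤ S.ν r) ∧
  ∀ (g : S.R → ℂ) (G : ℂ[X][X]), (∀ r ∉ S.inf, ContinuousAt g r) →
    (∀ x ∉ S.cv, G.map (evalRingHom x) = ∏ᶠ r ∈ S.fb x, (X - C (g r))) →
    G.map (evalRingHom x₀) = ∏ j, (X - C (g (ρ j))) ∧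
      ∀ r ∈ S.fb x₀, G.evalEval x₀ (g r) = 0

-- deps: ASH1 RFIN
def S_AREP : Prop := ∀ (S : RS) (z : S.R → ℂ) (D : Dat ℂ S.inf.ncard) (s : D.A), S.Fn →
  (∀ r ∉ S.inf, r ∉ S.bad → AnalyticAt ℂ (S.lc z r) 0) → (D.toStr.N s).det ≠ 0 →
  (∀ x ∉ S.cv, (D.ch s).map (evalRingHom x) = ∏ᶠ r ∈ S.fb x, (X - C (z r))) →
  ∃ Z E, S.Rep D Z E ∧ ∀ x ∉ Z, ∀ r ∈ S.fb x, S.val E s r = z r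

-- deps:
def S_PINT : Prop := ∀ (b : ℕ) (D : Dat ℂ b) (Z : Set ℂ) (G : ℂ[X][X])
  (f : ℂ → (Fin b → ℂ) → ℂ), D.toStr.Max → Z.Finite →
  (∀ x₀ ∉ Z, ∃ χ : Fin b → ℂ → Fin b → ℂ,
    (∀ j, AnalyticAt ℂ (χ j) x₀ ∧ AnalyticAt ℂ (fun x => f x (χ j x)) x₀) ∧
    ∀ᶠ x in 𝓝 x₀, (∀ j, (D.fib x).IsPt (χ j x)) ∧ (Matrix.of fun j => χ j x).det ≠ 0 ∧
      G.map (evalRingHom x) = ∏ j, (X - C (f x (χ j x)))) →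
  ∃ o : D.A, D.ch o = G ∧
    ∀ x ∉ Z, ∀ χ, (D.fib x).IsPt χ → ∑ i, (o i).eval x * χ i = f x χ

-- deps: PINT ASH1
def S_APIN : Prop := ∀ (S : RS) (D : Dat ℂ S.inf.ncard) (Z : Set ℂ)
  (E : S.R → Fin S.inf.ncard → ℂ) (g : S.R → ℂ) (G : ℂ[X][X]), S.Rep D Z E → D.toStr.Max →
  (∀ r ∉ S.inf, r ∉ S.bad → AnalyticAt ℂ (S.lc g r) 0) →
  (∀ x ∉ S.cv, G.map (evalRingHom x) = ∏ᶠ r ∈ S.fb x, (X - C (g r))) →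
  ∃ o : D.A, D.ch o = G ∧ ∀ x ∉ Z, ∀ r ∈ S.fb x, S.val E o r = g r

-- deps:
def S_EUL : Prop := ∀ (b : ℕ) (D : Dat ℂ b) (s : D.A) (l : Fin b), ∃ o : D.A,
  ∀ (x : ℂ) (χ : Fin b → Fin b → ℂ), (∀ j, (D.fib x).IsPt (χ j)) → (Matrix.of χ).det ≠ 0 →
    ∀ j, (D.ch s).derivative.evalEval x (∑ i, (s i).eval x * χ j i) *
      ∑ i, (D.du l i).eval x * χ j i = D.P.eval x * ∑ i, (o i).eval x * χ j i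

-- deps: ALIM RFIN
def S_ALOW : Prop := ∀ (S : RS) (g : S.R → ℂ) (G : ℂ[X][X]) (r : S.R), S.Fn → G.Monic →
  (∀ r ∉ S.inf, ContinuousAt g r) →
  (∀ x ∉ S.cv, G.map (evalRingHom x) = ∏ᶠ r ∈ S.fb x, (X - C (g r))) → r ∉ S.inf → r ∉ S.bad →
  AnalyticAt ℂ (S.lc g r) 0 → (∀ r' ∈ S.fb (S.xx r), g r' = g r → r' = r) →
  (S.ν r = 2 → deriv (S.lc g r) 0 ≠ 0) →
  (fun u : ℂ => u ^ (S.ν r - 1)) =O[𝓝[≠] 0]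
    fun u => G.derivative.evalEval (S.xx r + u ^ S.ν r) (S.lc g r u)

-- deps: RFIN
def S_ANS1 : Prop := ∀ (S : RS) (D : Dat ℂ S.inf.ncard) (Z : Set ℂ)
  (E : S.R → Fin S.inf.ncard → ℂ), S.Rep D Z E →
  (∀ m (o : D.A), D.Deg m o → ∃ c : ℝ, 0 ≤ c ∧
    ∀ x ∉ Z, ∀ r ∈ S.fb x, ‖S.val E o r‖ ≤ c * (1 + ‖x‖) ^ m) ∧
  ∀ (o : D.A), ∀ r ∉ S.inf, S.val E o =O[𝓝[≠] r] fun _ => (1 : ℝ)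

-- deps: EUL ANS1 ASH1 RFIN
def S_ANS0 : Prop := ∀ (S : RS) (D : Dat ℂ S.inf.ncard) (Z : Set ℂ)
  (E : S.R → Fin S.inf.ncard → ℂ) (s : D.A) (g : S.R → ℂ) (l : Fin S.inf.ncard), S.Rep D Z E →
  (∀ x ∉ Z, ∀ r ∈ S.fb x, S.val E s r = g r) → ∀ r ∉ S.inf,
    (fun r' => (D.ch s).derivative.evalEval (S.xx r') (g r') * S.val E (D.du l) r') =O[𝓝[≠] r]
      fun r' => D.P.eval (S.xx r')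

-- deps: ANS0 ALOW ACHR APIN
def S_ANS2 : Prop := ∀ (S : RS) (D : Dat ℂ S.inf.ncard) (Z : Set ℂ)
  (E : S.R → Fin S.inf.ncard → ℂ) (l : Fin S.inf.ncard), S.Rep D Z E → D.toStr.Max → S.Sep →
  ∀ r ∉ S.inf, r ∉ S.bad → (fun u => u ^ (S.ν r - 1) * S.lc (S.val E (D.du l)) r u) =O[𝓝[≠] 0]
    fun u => D.P.eval (S.xx r + u ^ S.ν r)

-- deps: ANS0 ANS1 ANS2 ACH0 ASH1 RFIN
def S_ANSP : Prop := ∀ (S : RS) (D : Dat ℂ S.inf.ncard) (Z : Set ℂ)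
  (E : S.R → Fin S.inf.ncard → ℂ) (s : D.A) (z : S.R → ℂ), S.Rep D Z E → D.toStr.Max → S.Sep →
  (∀ x ∉ Z, ∀ r ∈ S.fb x, S.val E s r = z r) → S.Neg z (D.ch s) → ∀ l, D.a l + 1 ≤ 6

-- redeps: AALG1 ACHR ALIM ASH1
-- redeps: AALG2 AREP ANSP ASH1

end Pool.Agent.P.MP_ab0431_ag.UB.V2
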