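import Pool.Agent.P.MP_ab0431_ag.UB2.IfaceD2

/-! Statements on the continuation of covers with double points along a family of curves. -/

set_option autoImplicit false
set_option linter.unusedSectionVars false

namespace Pool.Agent.P.MP_ab0431_ag.UB.V2

open Polynomial Set Filter Topology
open scoped Manifold ContDiff

section
variable {E T : Type} [TopologicalSpace E]

/-- Near `z` the set `D` is dense and does not split. -/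
def Ub (D : Set E) (z : E) : Prop :=
  z ∈ closure D ∧ ∀ N ∈ 𝓝 z, ∃ N' ∈ 𝓝 z, N' ⊆ N ∧ IsPreconnected (N' ∩ D)

theorem UbAt.ub {p : E → T} {B : Set T} {z : E} (h : UbAt p B z) : Ub (p ⁻¹' Bᶜ) z := h

theorem Ub.inter {D O : Set E} {z : E} (h : Ub D z) (hO : O ∈ 𝓝 z) : Ub (O ∩ D) z := by
  refine ⟨mem_closure_iff_nhds.2 fun N hN => ?_, fun N hN => ?_⟩
  · rw [← inter_assoc]; exact mem_closure_iff_nhds.1 h.1 _ (inter_mem hN hO)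
  · obtain ⟨N', a, c, e⟩ := h.2 _ (inter_mem hN hO)
    refine ⟨N', a, c.trans inter_subset_left, ?_⟩
    rwa [← inter_assoc, inter_eq_left.2 (c.trans inter_subset_right)]

/-- Continuous, and over `Ω` proper with finite fibres. -/
structure Pf [TopologicalSpace T] (p : E → T) (Ω : Set T) : Prop where
  cont : Continuous p
  prop : ∀ K ⊆ Ω, IsCompact K → IsCompact (p ⁻¹' K)
  fin : ∀ q ∈ Ω, (p ⁻¹' {q}).Finite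

theorem Pf.mono [TopologicalSpace T] {p : E → T} {Ω Ω' : Set T} (h : Pf p Ω) (s : Ω' ⊆ Ω) :
    Pf p Ω' := ⟨h.cont, fun K hK => h.prop K (hK.trans s), fun q hq => h.fin q (s hq)⟩

end

theorem pf_of_g0 {E T : Type} [NormedAddCommGroup E] [NormedSpace ℂ E] [TopologicalSpace T]
    [ChartedSpace E T] {F : Cv E T} {B Ω : Set T} (h : F.G0 B Ω) : Pf F.π Ω :=
  ⟨F.cont, h.prop, h.fin⟩

theorem asm_mono {E M X Y : Type} [NormedAddCommGroup E] [NormedSpace ℂ E] [TopologicalSpace M]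
    [ChartedSpace E M] [TopologicalSpace X] {F G : Cv E M} {A B Ω : Set M} {q : X → Y}
    {r : M → Y} {R R' : OpenPartialHomeomorph M M → Prop} {κ : G.Z → X}
    (h : Asm F A B Ω q r R G κ) (e : ∀ Λ, R Λ → R' Λ) : Asm F A B Ω q r R' G κ :=
  ⟨h.1, fun w hw =>
    let ⟨Λ, φ, k, a, c⟩ := h.2 w hw
    ⟨Λ, φ, k, e Λ a, c⟩⟩

/-- `W` is glued from `Z` and the part of `E` over `N` along `e`. -/
structure Cpl {Z E W T : Type} [TopologicalSpace Z] [TopologicalSpace E] [TopologicalSpace W]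
    [TopologicalSpace T] (pZ : Z → T) (pE : E → T) (Ω N : Set T) (e : OpenPartialHomeomorph Z E)
    (κ : Z → W) (p : W → T) (ψ : OpenPartialHomeomorph W E) : Prop where
  t2 : T2Space W
  cont : Continuous p
  emb : IsOpenEmbedding κ
  rng : range κ = p ⁻¹' Ω
  mem : ∀ w, p w ∈ Ω ∪ N
  pκ : ∀ z, p (κ z) = pZ z
  src : ψ.source = p ⁻¹' N
  tgt : ψ.target = pE ⁻¹' N
  qψ : ∀ w ∈ ψ.source, pE (ψ w) = p w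
  ψκ : ∀ z ∈ e.source, ψ (κ z) = e z

/-- The transport to the level `t₀`. -/
def rr {Y : Type} (G : (Y × ℂ) × ℂ → Y × ℂ) (t₀ : ℂ) (w : Y × ℂ) : Y := (G (w, t₀)).1

/-- The points that are not transported to `S`. -/
def Omg {Y : Type} (V : Set ℂ) (r : Y × ℂ → Y) (S : Set Y) : Set (Y × ℂ) :=
  {w | w.2 ∈ V ∧ r w ∉ S}

/-- Charts that keep the level and have values over `O`. -/
def Rf {M : Type} [TopologicalSpace M] (O : Set M) (Λ : OpenPartialHomeomorph (M × ℂ) (M × ℂ)) :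
    Prop := Fs Λ ∧ Λ.target ⊆ Prod.fst ⁻¹' O

section
variable {Q : PM} {b m nn : ℕ} {V : Set ℂ} {s : ℂ → Co b m → ℂ}
  {G : (Q.Y × ℂ) × ℂ → Q.Y × ℂ} {t₀ : ℂ} {w : Q.Y × ℂ}

theorem Tra.good (H : Tra Q nn V s G) (h : t₀ ∈ V) : Good (s t₀) := (H.str.good _ h).1

theorem Tra.r_cont (H : Tra Q nn V s G) (t₀ : ℂ) : Continuous (rr G t₀) :=
  (H.tp.cont.comp (continuous_id.prodMk continuous_const)).fst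

theorem Tra.r_id (H : Tra Q nn V s G) (y : Q.Y) : rr G t₀ (y, t₀) = y :=
  congrArg Prod.fst (H.tp.id (y, t₀))

theorem Tra.eq (H : Tra Q nn V s G) (h : t₀ ∈ V) (hw : w.2 ∈ V) : G (w, t₀) = (rr G t₀ w, t₀) :=
  Prod.ext rfl (H.lev (w, t₀) hw h)

theorem Tra.mu_r (H : Tra Q nn V s G) (h : t₀ ∈ V) (hw : w.2 ∈ V) :
    mu Q (s t₀) (rr G t₀ w) = muF Q s w := by
  rw [← H.tp.mu (w, t₀), H.eq h hw]; rfl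

theorem Tra.mem_r (H : Tra Q nn V s G) (h : t₀ ∈ V) (hw : w.2 ∈ V) :
    rr G t₀ w ∈ Bc Q (s t₀) ↔ w ∈ Fam Q s := by
  rw [← mu_pos, H.mu_r h hw, muF_pos]

theorem Tra.nB (H : Tra Q nn V s G) (x : (Q.Y × ℂ) × ℂ) (h : x.1 ∉ Fam Q s) : G x ∉ Fam Q s := by
  rwa [← muF_pos, H.tp.mu, muF_pos]

end

section
variable (Q : PM) {b m : ℕ} (s : ℂ → Co b m → ℂ) (V : Set ℂ)

/-- Near the points transported to `S` the cover is the double cover model. -/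
structure Nb (t₀ : ℂ) (r : Q.Y × ℂ → Q.Y) {E : Type} [TopologicalSpace E] (F : E → Q.Y) (n : ℕ)
    (S N₀ : Set Q.Y) (φ₀ : Mo (Hc Q (s t₀)) n → E) (N : Set (Q.Y × ℂ))
    (φ : Mo (Hf Q s) n → E) : Prop where
  o₀ : IsOpen N₀
  src₀ : N₀ ⊆ (Q.ch 0).source
  car₀ : Car (mpr (Hc Q (s t₀)) n) F id (N₀ \ Bc Q (s t₀)) φ₀
  o : IsOpen N
  sub : N ⊆ Prod.snd ⁻¹' V ∩ (chF Q).source
  maps : MapsTo r N N₀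
  sig : ∀ w, w.2 ∈ V → r w ∈ S → w ∈ N
  mu1 : ∀ w ∈ N, r w ∉ S → muF Q s w ≤ 1
  car : Car (mpr (Hf Q s) n) F r (N \ Fam Q s) φ

/-- A cover of `Ω` that over `N` is identified with the double cover model. -/
structure Cme (n : ℕ) (Ω N : Set (Q.Y × ℂ)) (G : Cv (C2 × ℂ) (Q.Y × ℂ))
    (e : OpenPartialHomeomorph G.Z (Mo (Hf Q s) n)) : Prop where
  oΩ : IsOpen Ω
  oN : IsOpen N
  ΩV : Ω ⊆ Prod.snd ⁻¹' V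
  cov : ∀ w : Q.Y × ℂ, w.2 ∈ V → w ∉ N → w ∈ Ω
  nB : ∀ w : Q.Y × ℂ, w.2 ∈ V → w ∉ Fam Q s → w ∈ Ω
  fin : ∀ t ∈ V, {y | (y, t) ∉ Ω}.Finite
  sub : N ⊆ Prod.snd ⁻¹' V ∩ (chF Q).source
  mu1 : ∀ w ∈ N ∩ Ω, muF Q s w ≤ 1
  mem : ∀ z, G.π z ∈ Ω
  g0 : G.G0 (Fam Q s) Ω
  src : e.source = G.π ⁻¹' N
  tgt : e.target = mpr (Hf Q s) n ⁻¹' (N ∩ Ω)
  comm : ∀ z ∈ e.source, mpr (Hf Q s) n (e z) = G.π z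

end

/-! ### The double cover model -/

-- deps:
def S_MOS : Prop := ∀ (T T' : Type) [TopologicalSpace T] [TopologicalSpace T'] (H : T → ℂ)
  (H' : T' → ℂ) (n : ℕ) (k : T → T') (u : T → ℂ) (W : Set T), ContinuousOn k W →
  ContinuousOn u W → (∀ y ∈ W, u y ≠ 0 ∧ H' (k y) = u y ^ 2 * H y) →
  ∃ g, Car (mpr H n) (mpr H' n) k W g

-- deps:
def S_MOC : Prop := ∀ (T : Type) [TopologicalSpace T] (H : T → ℂ) (n : ℕ) (O : Set T), IsOpen O →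
  ContinuousOn H O → Pf (mpr H n) O ∧ IsCoveringMapOn (mpr H n) {y ∈ O | H y ≠ 0} ∧
    (∀ v, mpr H n v ∈ O → H (mpr H n v) ≠ 0 ∨ v.1.2.2 ≠ 0 → LH (mpr H n) v) ∧
    ∀ y, H y ≠ 0 → (mpr H n ⁻¹' {y}).ncard = n + 2

-- deps:
def S_MOCH : Prop := ∀ (T E : Type) [TopologicalSpace T] [TopologicalSpace E]
  (c : OpenPartialHomeomorph T E) (D D' : E → ℂ) (H : T → ℂ) (n : ℕ) (i : Fin (n + 1)),
  (∀ y, H y = D (c y)) → (D' = if i = 0 then D else 0) →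
  ∃ χ : OpenPartialHomeomorph (Mo H n) (Dbl D'),
    χ.source = {v | mpr H n v ∈ c.source ∧ v.1.2.2 = i} ∧ χ.target = {v | v.1.1 ∈ c.target} ∧
    ∀ v ∈ χ.source, (χ v).1 = (c (mpr H n v), v.1.2.1)

-- deps:
def S_UBT : Prop := ∀ (E E' T T' : Type) [TopologicalSpace E] [TopologicalSpace E'] (p : E → T)
  (p' : E' → T') (B : Set T) (B' : Set T') (i : E → E') (z : E),
  (∀ᶠ y in 𝓝 z, ContinuousAt i y ∧ (p y ∈ B ↔ p' (i y) ∈ B')) →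
  (∀ N ∈ 𝓝 z, i '' N ∪ p' ⁻¹' B' ∈ 𝓝 (i z)) → UbAt p B z → UbAt p' B' (i z)

-- deps:
def S_UNIB : Prop := ∀ (E : Type) [NormedAddCommGroup E] [NormedSpace ℂ E]
  [FiniteDimensional ℂ E] (D : E → ℂ) (v : Dbl D), AnalyticAt ℂ D v.1.1 → v.1.2 = 0 →
  (∃ᶠ u in 𝓝 v.1.1, D u = 0 ∧ fderiv ℂ D u ≠ 0) → UbAt (fun v : Dbl D => v.1.2) {0} v

-- deps: UNIB UBT MOCH MOC
def S_MOU : Prop := ∀ (T E : Type) [TopologicalSpace T] [NormedAddCommGroup E] [NormedSpace ℂ E]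
  [FiniteDimensional ℂ E] (c : OpenPartialHomeomorph T E) (D : E → ℂ) (H : T → ℂ) (n : ℕ)
  (B : Set T) (v : Mo H n), (∀ y, H y = D (c y)) → mpr H n v ∈ c.source →
  AnalyticAt ℂ D (c (mpr H n v)) → (∀ᶠ y in 𝓝 (mpr H n v), y ∈ B ↔ H y = 0) →
  (∃ᶠ u in 𝓝 (c (mpr H n v)), D u ≠ 0) →
  (D (c (mpr H n v)) = 0 → ∃ᶠ u in 𝓝 (c (mpr H n v)), D u = 0 ∧ fderiv ℂ D u ≠ 0) →
  UbAt (mpr H n) B v

-- deps: HCA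
def S_SMZ : Prop := ∀ (b m : ℕ) (c : Co b m → ℂ) (a : C2), Good c → Dc c a = 0 →
  ∃ᶠ u in 𝓝 a, Dc c u = 0 ∧ fderiv ℂ (Dc c) u ≠ 0

-- deps:
def S_UBX : Prop := ∀ (E T : Type) [NormedAddCommGroup E] [NormedSpace ℂ E] [TopologicalSpace T]
  [ChartedSpace E T] (F : Cv E T) (B O : Set T), IsOpen O → ZL E B O →
  (∀ z, F.π z ∈ O → z ∈ closure (F.π ⁻¹' Bᶜ)) → ∀ z, F.π z ∈ O → UbAt F.π B z

-- deps: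
def S_XTH1 : Prop := ∀ (M E T : Type) [TopologicalSpace M] [TopologicalSpace E] [T2Space E]
  [TopologicalSpace T] [T2Space T] [LocallyCompactSpace T] (p : E → T) (Ω : Set T) (C D : Set M)
  (h : M → T) (f : M → E), IsOpen Ω → Pf p Ω → D ⊆ C → ContinuousOn h C → MapsTo h C Ω →
  ContinuousOn f D → (∀ z ∈ D, p (f z) = h z) → (∀ z ∈ C, Ub D z) →
  ∃ g : M → E, ContinuousOn g C ∧ EqOn g f D ∧ ∀ z ∈ C, p (g z) = h z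

-- deps: XTH1
def S_XTH : Prop := ∀ (E E' T T' : Type) [TopologicalSpace E] [T2Space E] [TopologicalSpace E']
  [T2Space E'] [TopologicalSpace T] [T2Space T] [LocallyCompactSpace T] [TopologicalSpace T']
  [T2Space T'] [LocallyCompactSpace T'] (p : E → T) (p' : E' → T') (Ω : Set T) (Ω' : Set T')
  (C D : Set E) (C' D' : Set E') (h : E → T') (h' : E' → T) (f : E → E') (f' : E' → E),
  IsOpen Ω → IsOpen Ω' → Pf p Ω → Pf p' Ω' → D ⊆ C → D' ⊆ C' → ContinuousOn h C →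
  ContinuousOn h' C' → MapsTo h C Ω' → MapsTo h' C' Ω → ContinuousOn f D → ContinuousOn f' D' →
  (∀ z ∈ D, p' (f z) = h z ∧ f z ∈ D' ∧ f' (f z) = z) →
  (∀ z ∈ D', p (f' z) = h' z ∧ f' z ∈ D ∧ f (f' z) = z) →
  (∀ z ∈ C, Ub D z ∧ ∀ z', p' z' = h z → z' ∈ C') →
  (∀ z ∈ C', Ub D' z ∧ ∀ z', p z' = h' z → z' ∈ C) →
  ∃ (g : E → E') (g' : E' → E), ContinuousOn g C ∧ ContinuousOn g' C' ∧ EqOn g f D ∧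
    (∀ z ∈ C, p' (g z) = h z ∧ g z ∈ C' ∧ g' (g z) = z) ∧
    ∀ z ∈ C', p (g' z) = h' z ∧ g' z ∈ C ∧ g (g' z) = z

/-! ### Local models -/

-- deps:
def S_CVB : Prop := ∀ (Q : PM) (X : DSurf) (b m d : ℕ) (c : Co b m → ℂ) (F : X.X → Q.Y)
  (h : MDifferentiable 𝓘(ℂ, C2) 𝓘(ℂ, C2) F) (π : X.B → Q.Y) (S : Set Q.Y), Good c →
  Cov Q X c d h π S → S ⊆ Bc Q c ∧ Nonempty X.X ∧ 0 < d ∧ Sᶜ ⊆ range F ∧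
    IsCoveringMapOn F (Bc Q c)ᶜ ∧ (∀ x, F x ∉ Bc Q c → LH F x) ∧ Pf π univ ∧
    (∀ z, π z ∉ Bc Q c → LH π z) ∧ ∀ y, (F ⁻¹' {y}).Finite

-- deps: CVB MUL
def S_CVM : Prop := ∀ (Q : PM) (X : DSurf) (b m d : ℕ) (c : Co b m → ℂ) (F : X.X → Q.Y)
  (h : MDifferentiable 𝓘(ℂ, C2) 𝓘(ℂ, C2) F) (π : X.B → Q.Y) (S : Set Q.Y), Good c →
  Cov Q X c d h π S → ∃ N₀ φ₀, IsOpen N₀ ∧ S ⊆ N₀ ∧ N₀ ⊆ (Q.ch 0).source ∧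
    (∀ y ∈ N₀, y ∉ S → mu Q c y ≤ 1) ∧ Car (mpr (Hc Q c) (d - 2)) F id (N₀ \ Bc Q c) φ₀

-- deps: CVM MOS MOC MUL HFA
def S_WM : Prop := ∀ (Q : PM) (X : DSurf) (b m d nn : ℕ) (V : Set ℂ) (s : ℂ → Co b m → ℂ)
  (G : (Q.Y × ℂ) × ℂ → Q.Y × ℂ) (t₀ : ℂ) (F : X.X → Q.Y)
  (h : MDifferentiable 𝓘(ℂ, C2) 𝓘(ℂ, C2) F) (π : X.B → Q.Y) (S : Set Q.Y), Tra Q nn V s G →
  t₀ ∈ V → Cov Q X (s t₀) d h π S →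
  ∃ N₀ φ₀ N φ, Nb Q s V t₀ (rr G t₀) F (d - 2) S N₀ φ₀ N φ

-- deps: MUL HCA HFA
def S_SM0 : Prop := ∀ (Q : PM) (b m nn : ℕ) (V : Set ℂ) (s : ℂ → Co b m → ℂ) (c : Co b m → ℂ)
  (w : Q.Y × ℂ) (y : Q.Y) (N : Set (Q.Y × ℂ)) (N₀ : Set Q.Y), Strip nn 0 V s → Good c →
  w.2 ∈ V → w.1 ∈ (Q.ch 0).source → y ∈ (Q.ch 0).source → mu Q c y = muF Q s w →
  muF Q s w ≤ 1 → N ∈ 𝓝 w → N₀ ∈ 𝓝 y →
  ∃ (Λ : OpenPartialHomeomorph (Q.Y × ℂ) (Q.Y × ℂ)) (u : Q.Y × ℂ → ℂ), Bi (C2 × ℂ) Λ ∧ Fs Λ ∧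
    w ∈ Λ.source ∧ Λ.source ⊆ N ∧ Λ.target ⊆ Prod.fst ⁻¹' N₀ ∧ ContinuousOn u Λ.source ∧
    ∀ w' ∈ Λ.source, u w' ≠ 0 ∧ Hc Q c (Λ w').1 = u w' ^ 2 * Hf Q s w'

-- deps: SM0 MOS MOC MUL HFA
def S_SM : Prop := ∀ (Q : PM) (b m nn n : ℕ) (V : Set ℂ) (s : ℂ → Co b m → ℂ)
  (G : (Q.Y × ℂ) × ℂ → Q.Y × ℂ) (t₀ : ℂ) (F : Cv C2 Q.Y) (S N₀ : Set Q.Y)
  (φ₀ : Mo (Hc Q (s t₀)) n → F.Z) (N : Set (Q.Y × ℂ)) (φ : Mo (Hf Q s) n → F.Z),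
  Tra Q nn V s G → t₀ ∈ V → IsClosed S → (∀ x, F.π x ∉ Bc Q (s t₀) → LH F.π x) →
  Nb Q s V t₀ (rr G t₀) F.π n S N₀ φ₀ N φ → ∀ w ∈ Omg V (rr G t₀) S ∩ N, ∃ Λ φ', Rf Sᶜ Λ ∧
    Md F.prod (Prod.fst ⁻¹' Bc Q (s t₀)) (Fam Q s) F.π (rr G t₀) Λ φ' ∧ w ∈ Λ.source ∧
    Λ.source ⊆ Omg V (rr G t₀) S

-- deps:
def S_STEP : Prop := ∀ (M X Y : Type) [TopologicalSpace M] [ChartedSpace C2 M]
  [TopologicalSpace X] [TopologicalSpace Y] (F : Cv C2 M) (A : Set M) (B : Set (M × ℂ))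
  (q : X → Y) (W₀ : Set Y) (r : M × ℂ → Y) (μ : OpenPartialHomeomorph M M) (φ : F.Z → X)
  (Ψ : OpenPartialHomeomorph (M × ℂ) (M × ℂ)) (V : Set M) (D : Set ℂ) (τ : ℂ),
  IsCoveringMapOn q W₀ → Continuous r → (∀ w, w.2 ∈ D → w ∉ B → r w ∈ W₀) →
  Md F A {y | (y, τ) ∈ B} q (fun y => r (y, τ)) μ φ → Box B Ψ → IsOpen V → IsOpen D →
  Convex ℝ D → τ ∈ D → V ×ˢ D ⊆ Ψ.target →
  ∃ Λ φ', Rf μ.target Λ ∧ Md F.prod (Prod.fst ⁻¹' A) B q r Λ φ' ∧ ∀ w, w ∈ Λ.source ↔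
    w ∈ Ψ.source ∧ (Ψ w).1 ∈ V ∧ w.2 ∈ D ∧ (Ψ.symm ((Ψ w).1, τ)).1 ∈ μ.source

-- deps: STEP
def S_PROP : Prop := ∀ (M : Type) [TopologicalSpace M] [ChartedSpace C2 M] [CompactSpace M]
  (F : Cv C2 M) (A O : Set M) (B Ω N : Set (M × ℂ)) (r : M × ℂ → M) (U : Set ℂ) (t₀ : ℂ),
  IsCoveringMapOn F.π Aᶜ → Continuous r → (∀ w, w.2 ∈ U → w ∉ B → r w ∉ A) → IsOpen U →
  IsPreconnected U → IsOpen O → IsOpen Ω → IsOpen N → Ω ⊆ Prod.snd ⁻¹' U →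
  (∀ w : M × ℂ, w.2 ∈ U → w ∉ N → w ∈ Ω) → (∀ w ∈ Ω, ∃ Ψ, Box B Ψ ∧ w ∈ Ψ.source) →
  (∀ w ∈ Ω ∩ N, ∃ Λ φ, Rf O Λ ∧ Md F.prod (Prod.fst ⁻¹' A) B F.π r Λ φ ∧ w ∈ Λ.source ∧
    Λ.source ⊆ Ω) → t₀ ∈ U → (∀ y, (y, t₀) ∈ B ↔ y ∈ A) → (∀ y, r (y, t₀) = y) →
  (∀ y, (y, t₀) ∈ Ω → y ∈ O) → ∀ w ∈ Ω,
    ∃ Λ φ, Rf O Λ ∧ Md F.prod (Prod.fst ⁻¹' A) B F.π r Λ φ ∧ w ∈ Λ.source ∧ Λ.source ⊆ Ω

-- deps: WM SM PROP TBOX CVB MUL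
def S_CM0 : Prop := ∀ (Q : PM) (X : DSurf) (b m d nn : ℕ) (V : Set ℂ) (s : ℂ → Co b m → ℂ)
  (G : (Q.Y × ℂ) × ℂ → Q.Y × ℂ) (t₀ : ℂ) (F : X.X → Q.Y)
  (h : MDifferentiable 𝓘(ℂ, C2) 𝓘(ℂ, C2) F) (π : X.B → Q.Y) (S : Set Q.Y), Tra Q nn V s G →
  t₀ ∈ V → Cov Q X (s t₀) d h π S →
  (∃ N₀ φ₀ N φ, Nb Q s V t₀ (rr G t₀) F (d - 2) S N₀ φ₀ N φ) ∧ IsOpen (Omg V (rr G t₀) S) ∧
  (∀ t ∈ V, {y | (y, t) ∉ Omg V (rr G t₀) S}.Finite) ∧ ∀ w ∈ Omg V (rr G t₀) S, ∃ Λ φ',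
    Rf Sᶜ Λ ∧ Md (cvr X h).prod (Prod.fst ⁻¹' Bc Q (s t₀)) (Fam Q s) F (rr G t₀) Λ φ' ∧
    w ∈ Λ.source ∧ Λ.source ⊆ Omg V (rr G t₀) S

/-! ### Assembling the manifold part -/

-- deps:
def S_TRSN : Prop := ∀ (E M X Y : Type) [NormedAddCommGroup E] [NormedSpace ℂ E]
  [FiniteDimensional ℂ E] [TopologicalSpace M] [ChartedSpace E M] [T2Space M]
  [TopologicalSpace X] [TopologicalSpace Y] (F : Cv E M) (A O B : Set M) (q : X → Y) (r : M → Y)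
  (Λ Λ' : OpenPartialHomeomorph M M) (φ φ' : F.Z → X), IsOpen O → F.G0 A O → ZL E A univ →
  Λ.target ⊆ O → Λ'.target ⊆ O →
  (∀ w ∈ Λ'.source \ B, ∀ x, q x = r w → LH q x) → Md F A B q r Λ φ → Md F A B q r Λ' φ' →
  ∃ g : F.Z → F.Z, MDifferentiableOn 𝓘(ℂ, E) 𝓘(ℂ, E) g (F.π ⁻¹' (Λ.symm.trans Λ').source) ∧
    ∀ m ∈ F.π ⁻¹' (Λ.symm.trans Λ').source,
      F.π (g m) = Λ' (Λ.symm (F.π m)) ∧ (F.π m ∉ A → φ' (g m) = φ m)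

-- deps: TRSN
def S_ZCON : Prop := ∀ (E M X Y : Type) [NormedAddCommGroup E] [NormedSpace ℂ E]
  [FiniteDimensional ℂ E] [TopologicalSpace M] [ChartedSpace E M] [T2Space M]
  [TopologicalSpace X] [TopologicalSpace Y] (F : Cv E M) (A O B Ω : Set M) (q : X → Y)
  (r : M → Y) (R : OpenPartialHomeomorph M M → Prop), IsOpen O → F.G0 A O → ZL E A univ →
  (∀ Λ, R Λ → Λ.target ⊆ O) → O ⊆ range F.π → Ω.Nonempty →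
  (∀ w ∈ Ω \ B, ∀ x, q x = r w → LH q x) →
  (∀ w ∈ Ω, ∃ Λ φ, R Λ ∧ Md F A B q r Λ φ ∧ w ∈ Λ.source ∧ Λ.source ⊆ Ω) →
  ∃ G κ, Asm F A B Ω q r R G κ ∧ Nonempty G.Z

-- deps:
def S_ASMG : Prop := ∀ (E M X Y : Type) [NormedAddCommGroup E] [NormedSpace ℂ E]
  [FiniteDimensional ℂ E] [TopologicalSpace M] [ChartedSpace E M] [T2Space M]
  [TopologicalSpace X] (F : Cv E M) (A O B Ω : Set M) (q : X → Y) (r : M → Y)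
  (R : OpenPartialHomeomorph M M → Prop) (G : Cv E M) (κ : G.Z → X), F.G0 A O →
  (∀ Λ, R Λ → Λ.target ⊆ O) → Asm F A B Ω q r R G κ → G.G0 B Ω ∧ Car G.π q r (Ω \ B) κ ∧
    ∀ d, F.G1 A d (fun _ => 0) O → G.G1 B d (fun _ => 0) Ω

-- deps:
def S_PRODG : Prop := ∀ (M : Type) [TopologicalSpace M] [ChartedSpace C2 M] [T2Space M]
  (F : Cv C2 M) (A O : Set M), F.G0 A O → F.prod.G0 (Prod.fst ⁻¹' A) (Prod.fst ⁻¹' O)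

-- deps: ASMG PRODG
def S_FIB : Prop := ∀ (M : Type) [TopologicalSpace M] [ChartedSpace C2 M] [T2Space M]
  (F F' : Cv C2 M) (A O O' : Set M) (B Ω : Set (M × ℂ)) (r : M × ℂ → M) (t : ℂ)
  (G : Cv (C2 × ℂ) (M × ℂ)) (κ : G.Z → F.Z) (ψ : F'.Z → F.Z), IsOpen Ω → IsOpen O → IsOpen O' →
  Nonempty F'.Z → Nonempty G.Z → F.G0 A O → Aᶜ ⊆ O → ZL C2 A univ →
  F'.G0 {y | (y, t) ∈ B} O' → {y | (y, t) ∉ B} ⊆ O' → ZL C2 {y | (y, t) ∈ B} univ →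
  (∀ y ∈ O', (y, t) ∈ Ω) → (∀ w ∈ Ω, w ∉ B → r w ∉ A) →
  Asm F.prod (Prod.fst ⁻¹' A) B Ω F.π r (Rf O) G κ →
  Car F'.π F.π (fun y => r (y, t)) {y | (y, t) ∉ B} ψ →
  ∃ j : F'.Z → G.Z, HolImmOn C2 (C2 × ℂ) j (F'.π ⁻¹' O') ∧
    (∀ x, F'.π x ∈ O' → G.π (j x) = (F'.π x, t)) ∧
    Car F'.π G.π (fun y => (y, t)) {y | (y, t) ∉ B} j

-- deps: XTH UBX MOU MOC HFA HCA MUL
def S_CM2 : Prop := ∀ (Q : PM) (b m nn n : ℕ) (V : Set ℂ) (s : ℂ → Co b m → ℂ)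
  (Ω N : Set (Q.Y × ℂ)) (G : Cv (C2 × ℂ) (Q.Y × ℂ)) (X Y : Type) [TopologicalSpace X]
  [TopologicalSpace Y] (q : X → Y) (r : Q.Y × ℂ → Y) (κ : G.Z → X) (φ : Mo (Hf Q s) n → X),
  Strip nn 0 V s → IsOpen Ω → IsOpen N → N ⊆ Prod.snd ⁻¹' V ∩ (chF Q).source →
  (∀ w ∈ N ∩ Ω, muF Q s w ≤ 1) → (∀ z, G.π z ∈ Ω) → Nonempty G.Z → G.G0 (Fam Q s) Ω →
  Car G.π q r (Ω \ Fam Q s) κ → Car (mpr (Hf Q s) n) q r (N \ Fam Q s) φ →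
  (∀ w ∈ Ω \ Fam Q s, ∀ x, q x = r w → LH q x) →
  ∃ e : OpenPartialHomeomorph G.Z (Mo (Hf Q s) n), e.source = G.π ⁻¹' N ∧
    e.target = mpr (Hf Q s) n ⁻¹' (N ∩ Ω) ∧ ∀ z ∈ e.source, mpr (Hf Q s) n (e z) = G.π z

-- deps: CM0 CM2 ZCON ASMG PRODG CVB
def S_CM : Prop := ∀ (Q : PM) (X : DSurf) (b m d nn : ℕ) (V : Set ℂ) (s : ℂ → Co b m → ℂ)
  (G : (Q.Y × ℂ) × ℂ → Q.Y × ℂ) (t₀ : ℂ) (F : X.X → Q.Y)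
  (h : MDifferentiable 𝓘(ℂ, C2) 𝓘(ℂ, C2) F) (π : X.B → Q.Y) (S : Set Q.Y), Tra Q nn V s G →
  t₀ ∈ V → Cov Q X (s t₀) d h π S → ∃ N G₃ κ e, Nonempty G₃.Z ∧
    Asm (cvr X h).prod (Prod.fst ⁻¹' Bc Q (s t₀)) (Fam Q s) (Omg V (rr G t₀) S) F (rr G t₀)
      (Rf Sᶜ) G₃ κ ∧ Cme Q s V (d - 2) (Omg V (rr G t₀) S) N G₃ e

/-! ### The completion -/

-- deps:
def S_GL2 : Prop := ∀ (Z E T : Type) [TopologicalSpace Z] [T2Space Z] [TopologicalSpace E]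
  [T2Space E] [TopologicalSpace T] [T2Space T] (pZ : Z → T) (pE : E → T) (Ω N : Set T)
  (e : OpenPartialHomeomorph Z E), Continuous pZ → Continuous pE → IsOpen Ω → IsOpen N →
  (∀ z, pZ z ∈ Ω) → e.source = pZ ⁻¹' N → e.target = pE ⁻¹' (N ∩ Ω) →
  (∀ z ∈ e.source, pE (e z) = pZ z) →
  ∃ (W : Type) (_ : TopologicalSpace W) (κ : Z → W) (p : W → T) (ψ : OpenPartialHomeomorph W E),
    Cpl pZ pE Ω N e κ p ψ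

-- deps:
def S_CPP : Prop := ∀ (Z E W T : Type) [TopologicalSpace Z] [TopologicalSpace E]
  [TopologicalSpace W] [TopologicalSpace T] [T2Space T] (pZ : Z → T) (pE : E → T) (Ω N : Set T)
  (e : OpenPartialHomeomorph Z E) (κ : Z → W) (p : W → T) (ψ : OpenPartialHomeomorph W E),
  IsOpen Ω → IsOpen N → Cpl pZ pE Ω N e κ p ψ → Pf pZ Ω → Pf pE N →
  Pf p (Ω ∪ N) ∧ ∀ z, LH pZ z → LH p (κ z)

-- deps: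
def S_RETR : Prop := ∀ (D : C2 × ℂ → ℂ) (p₀ : C2 × ℂ), AnalyticAt ℂ D p₀ → D p₀ = 0 →
  fderiv ℂ D p₀ (Pi.single 1 1, 0) ≠ 0 → ∃ ρ : (C2 × ℂ) × ℂ → C2 × ℂ, AnalyticAt ℂ ρ (p₀, 0) ∧
    ρ (p₀, 0) = p₀ ∧ ∀ᶠ x in 𝓝 (p₀, (0 : ℂ)), D (ρ x) = x.2 ^ 2 ∧ (x.2 ^ 2 = D x.1 → ρ x = x.1)

-- deps: HFA MUL
def S_CHW1 : Prop := ∀ (Q : PM) (b m nn n : ℕ) (V : Set ℂ) (s : ℂ → Co b m → ℂ)
  (Ω N : Set (Q.Y × ℂ)) (G : Cv (C2 × ℂ) (Q.Y × ℂ))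
  (e : OpenPartialHomeomorph G.Z (Mo (Hf Q s) n)), Strip nn 0 V s → Cme Q s V n Ω N G e →
  ∀ z ∈ e.source, MDifferentiableAt 𝓘(ℂ, C2 × ℂ) 𝓘(ℂ, (C2 × ℂ) × ℂ)
    (fun z => (chF Q (G.π z), (e z).1.2.1)) z

-- deps: CHW1 RETR HFA HCA MUL
def S_CHW0 : Prop := ∀ (Q : PM) (b m nn n : ℕ) (V : Set ℂ) (s : ℂ → Co b m → ℂ)
  (Ω N : Set (Q.Y × ℂ)) (G : Cv (C2 × ℂ) (Q.Y × ℂ))
  (e : OpenPartialHomeomorph G.Z (Mo (Hf Q s) n)), Strip nn 0 V s → Cme Q s V n Ω N G e →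
  HolImmOn (C2 × ℂ) ((C2 × ℂ) × ℂ) (fun z => (chF Q (G.π z), (e z).1.2.1)) e.source

-- deps: CHW0 MOCH HFA
def S_CHW : Prop := ∀ (Q : PM) (b m nn n : ℕ) (V : Set ℂ) (s : ℂ → Co b m → ℂ)
  (Ω N : Set (Q.Y × ℂ)) (G : Cv (C2 × ℂ) (Q.Y × ℂ))
  (e : OpenPartialHomeomorph G.Z (Mo (Hf Q s) n)) (W : Type) [TopologicalSpace W] (κ : G.Z → W)
  (p : W → Q.Y × ℂ) (ψ : OpenPartialHomeomorph W (Mo (Hf Q s) n)), Strip nn 0 V s →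
  Cme Q s V n Ω N G e → Cpl G.π (mpr (Hf Q s) n) Ω N e κ p ψ → ∀ w ∉ range κ,
    ∃ (D : C2 × ℂ → ℂ) (ψ' : OpenPartialHomeomorph W (Dbl D)), DChart (C2 × ℂ) κ D ψ' ∧
      w ∈ ψ'.source ∧ ∀ w' ∈ ψ'.source, (p w').2 = (ψ' w').1.1.2

-- deps: MOU UBT SMZ HCA MUL
def S_UBW1 : Prop := ∀ (Q : PM) (b m nn n : ℕ) (V : Set ℂ) (s : ℂ → Co b m → ℂ)
  (N : Set (Q.Y × ℂ)) (W : Type) [TopologicalSpace W] (p : W → Q.Y × ℂ)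
  (ψ : OpenPartialHomeomorph W (Mo (Hf Q s) n)) (w : W), Strip nn 0 V s →
  N ⊆ Prod.snd ⁻¹' V ∩ (chF Q).source → ψ.source = p ⁻¹' N →
  (∀ w ∈ ψ.source, mpr (Hf Q s) n (ψ w) = p w) → p w ∈ N →
  UbAt p {y | y.2 = (p w).2 → y ∈ Fam Q s} w

-- deps: UBX UBT
def S_UBW2 : Prop := ∀ (M X Y : Type) [TopologicalSpace M] [ChartedSpace C2 M]
  [TopologicalSpace X] (F : Cv C2 M) (A O : Set M) (B Ω : Set (M × ℂ)) (q : X → Y)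
  (r : M × ℂ → Y) (G : Cv (C2 × ℂ) (M × ℂ)) (κ₀ : G.Z → X) (W : Type) [TopologicalSpace W]
  (κ : G.Z → W) (p : W → M × ℂ) (z : G.Z), IsOpen O → F.G0 A O → ZL C2 A univ →
  Asm F.prod (Prod.fst ⁻¹' A) B Ω q r (Rf O) G κ₀ → IsOpenEmbedding κ →
  (∀ z, p (κ z) = G.π z) → UbAt p {y | y.2 = (G.π z).2 → y ∈ B} (κ z)

-- deps: FIB XTH UBW1 UBW2 CPP MOC CVB HFA
def S_FIBW : Prop := ∀ (Q : PM) (b m nn n d : ℕ) (V : Set ℂ) (s : ℂ → Co b m → ℂ)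
  (F : Cv C2 Q.Y) (A O : Set Q.Y) (r : Q.Y × ℂ → Q.Y) (Ω N : Set (Q.Y × ℂ))
  (G : Cv (C2 × ℂ) (Q.Y × ℂ)) (κ₀ : G.Z → F.Z) (e : OpenPartialHomeomorph G.Z (Mo (Hf Q s) n))
  (W : Type) [TopologicalSpace W] (κ : G.Z → W) (p : W → Q.Y × ℂ)
  (ψ : OpenPartialHomeomorph W (Mo (Hf Q s) n)) (t : ℂ) (X : DSurf) (F' : X.X → Q.Y)
  (h : MDifferentiable 𝓘(ℂ, C2) 𝓘(ℂ, C2) F') (π : X.B → Q.Y) (S : Set Q.Y) (f : X.X → F.Z),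
  Strip nn 0 V s → IsOpen O → F.G0 A O → Aᶜ ⊆ O → ZL C2 A univ →
  (∀ w ∈ Ω, w ∉ Fam Q s → r w ∉ A) → Nonempty G.Z →
  Asm F.prod (Prod.fst ⁻¹' A) (Fam Q s) Ω F.π r (Rf O) G κ₀ → Cme Q s V n Ω N G e →
  Cpl G.π (mpr (Hf Q s) n) Ω N e κ p ψ → t ∈ V → Cov Q X (s t) d h π S →
  Car F' F.π (fun y => r (y, t)) (Bc Q (s t))ᶜ f → DFibre X κ fun w => (p w).2

-- deps: CM GL2 CPP CHW FIBW MOC HFA CVB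
def S_FAMW : Prop := ∀ (Q : PM) (X X' : DSurf) (b m d nn : ℕ) (V : Set ℂ) (s : ℂ → Co b m → ℂ)
  (G : (Q.Y × ℂ) × ℂ → Q.Y × ℂ) (t₀ t₁ : ℂ) (F : X.X → Q.Y) (F' : X'.X → Q.Y)
  (h : MDifferentiable 𝓘(ℂ, C2) 𝓘(ℂ, C2) F) (h' : MDifferentiable 𝓘(ℂ, C2) 𝓘(ℂ, C2) F')
  (π : X.B → Q.Y) (π' : X'.B → Q.Y) (S S' : Set Q.Y) (f : X'.X → X.X), Tra Q nn V s G →
  t₀ ∈ V → t₁ ∈ V → Cov Q X (s t₀) d h π S → Cov Q X' (s t₁) d h' π' S' →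
  Car F' F (fun y => rr G t₀ (y, t₁)) (Bc Q (s t₁))ᶜ f → DFamily X X'

/-! ### Counting -/

-- deps: CM0 ZCON ASMG CVB
def S_SLV : Prop := ∀ (Q : PM) (X : DSurf) (b m d nn : ℕ) (V : Set ℂ) (s : ℂ → Co b m → ℂ)
  (G : (Q.Y × ℂ) × ℂ → Q.Y × ℂ) (t₀ τ : ℂ) (F : X.X → Q.Y)
  (h : MDifferentiable 𝓘(ℂ, C2) 𝓘(ℂ, C2) F) (π : X.B → Q.Y) (S : Set Q.Y), Tra Q nn V s G →
  t₀ ∈ V → τ ∈ V → Cov Q X (s t₀) d h π S → ∃ (E : Cv C2 Q.Y) (κ : E.Z → X.X), Nonempty E.Z ∧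
    IsCoveringMapOn E.π (Bc Q (s τ))ᶜ ∧ (∀ z, E.π z ∉ Bc Q (s τ) → LH E.π z) ∧
    (∀ q ∉ Bc Q (s τ), (E.π ⁻¹' {q}).encard = d) ∧ {q | ¬E.Fold d q}.Countable ∧
    Car E.π F (fun y => rr G t₀ (y, τ)) (Bc Q (s τ))ᶜ κ

-- deps:
def S_CT1 : Prop := ∀ (Q : PM) (b m d n : ℕ) (c : Co b m → ℂ) (F : Fin n → Cv C2 Q.Y)
  (X₀ : Finset ℂ), WD b 1 (toP c) → 0 < d → (d ^ 2 + 1) ^ b < n →
  (∀ i, IsCoveringMapOn (F i).π (Bc Q c)ᶜ ∧ (∀ q ∉ Bc Q c, ((F i).π ⁻¹' {q}).encard = d) ∧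
    {q | ¬(F i).Fold d q}.Countable) →
  ∃ x₀ ∉ X₀, ∃ i j, i < j ∧ ∃ f, TI (F j).π (F i).π
    (Q.af '' {q | q.1 = x₀ ∧ (toP c).evalEval q.1 q.2 ≠ 0}) f

-- deps:
def S_CT2 : Prop := ∀ (Q : PM) (b m : ℕ) (c : Co b m → ℂ) (F F' : Cv C2 Q.Y) (X₀ : Finset ℂ)
  (x₀ : ℂ) (f : F.Z → F'.Z), WD b 1 (toP c) →
  (∀ x ∉ X₀, ((toP c).map (evalRingHom x)).Separable) → x₀ ∉ X₀ →
  IsCoveringMapOn F.π (Bc Q c)ᶜ → IsCoveringMapOn F'.π (Bc Q c)ᶜ →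
  (∀ q ∉ Bc Q c, (F'.π ⁻¹' {q}).Nonempty) →
  TI F.π F'.π (Q.af '' {q | q.1 = x₀ ∧ (toP c).evalEval q.1 q.2 ≠ 0}) f →
  ∃ g, TI F.π F'.π (Q.af '' {q | q.1 ∉ X₀ ∧ (toP c).evalEval q.1 q.2 ≠ 0}) g

-- deps: CT1 CT2
def S_COUNT : Prop := ∀ (Q : PM) (b m d n : ℕ) (c : Co b m → ℂ) (F : Fin n → Cv C2 Q.Y),
  Good c → 0 < d → (d ^ 2 + 1) ^ b < n →
  (∀ i, IsCoveringMapOn (F i).π (Bc Q c)ᶜ ∧ (∀ q ∉ Bc Q c, ((F i).π ⁻¹' {q}).encard = d) ∧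
    {q | ¬(F i).Fold d q}.Countable) → ∃ i j, i < j ∧ ∃ f, TI (F j).π (F i).π (Bc Q c)ᶜ f

-- redeps: DMAIN TBG SLV COUNT FAMW CVB

end Pool.Agent.P.MP_ab0431_ag.UB.V2
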