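import Pool.Agent.P.MP_ab0431_ag.UB2.IfaceT

/-! Statements on a continuous transport along a family of plane curves that keeps the vertical
multiplicities. -/

set_option autoImplicit false
set_option linter.unusedSectionVars false

namespace Pool.Agent.P.MP_ab0431_ag.UB.V2

open Polynomial Set Filter Topology
open scoped Manifold ContDiff

section
variable {Y : Type} [TopologicalSpace Y]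

/-- A transport that keeps the function `μ`. -/
structure Tp (μ : Y × ℂ → ℕ) (G : (Y × ℂ) × ℂ → Y × ℂ) : Prop where
  cont : Continuous G
  id : ∀ w, G (w, w.2) = w
  mu : ∀ x, μ (G x) = μ x.1

/-- A local transport near `w₀`. -/
def LocFlow (μ : Y × ℂ → ℕ) (w₀ : Y × ℂ) : Prop :=
  ∃ Φ : (Y × ℂ) × ℂ → Y × ℂ, (∀ᶠ x in 𝓝 (w₀, w₀.2),
    ContinuousAt Φ x ∧ μ (Φ x) = μ x.1 ∧ (Φ x).2 = x.2) ∧ ∀ᶠ w in 𝓝 w₀, Φ (w, w.2) = w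

end

/-- A family of good curves over a convex set with a transport. -/
structure Tra (Q : PM) {b m : ℕ} (nn : ℕ) (V : Set ℂ) (s : ℂ → Co b m → ℂ)
    (G : (Q.Y × ℂ) × ℂ → Q.Y × ℂ) : Prop where
  str : Strip nn 0 V s
  cvx : Convex ℝ V
  tp : Tp (muF Q s) G
  lev : ∀ x : (Q.Y × ℂ) × ℂ, x.1.2 ∈ V → x.2 ∈ V → (G x).2 = x.2

/-- A family of monic polynomials of degree `b` with coefficients holomorphic at `q₀`. -/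
def MonAt (b : ℕ) (P : ℂ × ℂ → ℂ[X]) (q₀ : ℂ × ℂ) : Prop :=
  (∀ j, AnalyticAt ℂ (fun q => (P q).coeff j) q₀) ∧
    ∀ᶠ q in 𝓝 q₀, (P q).Monic ∧ (P q).natDegree = b

-- deps:
def S_MUL : Prop := ∀ (Q : PM) (b m : ℕ) (c : Co b m → ℂ), WD b 1 (toP c) →
  (∀ y ∈ (Q.ch 0).source, (y ∈ Bc Q c ↔ Hc Q c y = 0) ∧
    mu Q c y = rootMultiplicity (Q.ch 0 y 1) ((toP c).map (evalRingHom (Q.ch 0 y 0))) ∧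
    (1 < mu Q c y ↔ Hc Q c y = 0 ∧
      (toP c).derivative.evalEval (Q.ch 0 y 0) (Q.ch 0 y 1) = 0)) ∧
  (Good c → {y | 1 < mu Q c y}.Finite)

-- deps:
def S_HCA : Prop := ∀ (Q : PM) (b m : ℕ) (c : Co b m → ℂ),
  (∀ u, AnalyticAt ℂ (Dc c) u ∧
    fderiv ℂ (Dc c) u (Pi.single 1 1) = (toP c).derivative.evalEval (u 0) (u 1)) ∧
  MDifferentiableOn 𝓘(ℂ, C2) 𝓘(ℂ, ℂ) (Hc Q c) (Q.ch 0).source ∧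
  (Good c → ∀ a : C2, (∃ᶠ u in 𝓝 a, Dc c u ≠ 0) ∧
    ∀ᶠ u in 𝓝[≠] a, Dc c u = 0 → fderiv ℂ (Dc c) u (Pi.single 1 1) ≠ 0)

-- deps:
def S_HFA : Prop := ∀ (Q : PM) (b m nn N : ℕ) (U : Set ℂ) (s : ℂ → Co b m → ℂ),
  Strip nn N U s → (∀ u : C2 × ℂ, u.2 ∈ U → AnalyticAt ℂ (Df s) u ∧
    fderiv ℂ (Df s) u (Pi.single 1 1, 0) = (toP (s u.2)).derivative.evalEval (u.1 0) (u.1 1)) ∧
  MDifferentiableOn 𝓘(ℂ, C2 × ℂ) 𝓘(ℂ, ℂ) (Hf Q s) ((chF Q).source ∩ Prod.snd ⁻¹' U) ∧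
  ZL (C2 × ℂ) (Fam Q s) (Prod.snd ⁻¹' U)

-- deps: MUL
def S_CRC : Prop := ∀ (Q : PM) (b m nn N : ℕ) (U : Set ℂ) (s : ℂ → Co b m → ℂ),
  Strip nn N U s → IsOpen {w : Q.Y × ℂ | w.2 ∈ U ∧ muF Q s w ≤ 1}

-- deps:
def S_TRX : Prop := ∀ (b m nn N : ℕ) (U : Set ℂ) (s : ℂ → Co b m → ℂ), Strip nn N U s →
  ∀ t₀ ∈ U, ∀ x₀ : ℂ, MonAt b (fun q => (toP (s q.2)).map (evalRingHom q.1)) (x₀, t₀) ∧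
    (¬((toP (s t₀)).map (evalRingHom x₀)).Separable → ∃ ξ : ℂ → ℂ, AnalyticAt ℂ ξ t₀ ∧
      ξ t₀ = x₀ ∧ ∀ᶠ q : ℂ × ℂ in 𝓝 (x₀, t₀), q.1 ≠ ξ q.2 →
        ((toP (s q.2)).map (evalRingHom q.1)).Separable)

-- deps: TRX
def S_TRA : Prop := ∀ (b m nn N : ℕ) (U : Set ℂ) (s : ℂ → Co b m → ℂ), Strip nn N U s →
  ∀ t₀ ∈ U, ∀ v : Fin 3 → ℂ, v ≠ 0 →
    (v 0 ≠ 0 → rootMultiplicity (v 2 / v 0) ((toP (s t₀)).map (evalRingHom (v 1 / v 0))) ≤ 2) →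
    ∃ (i : Fin 3) (w : C2) (a : ℂ), v = a • i.insertNth 1 w ∧
      Str3 (fun p => hom b (toP (s p.2)) (i.insertNth 1 p.1)) (w, t₀)

-- deps: TRA MUL
def S_TBOX : Prop := ∀ (Q : PM) (b m nn N : ℕ) (U : Set ℂ) (s : ℂ → Co b m → ℂ),
  Strip nn N U s → ∀ w : Q.Y × ℂ, w.2 ∈ U → muF Q s w ≤ 2 →
    ∃ Ψ, Box (Fam Q s) Ψ ∧ w ∈ Ψ.source

-- deps:
def S_PU1 : Prop := ∀ (b : ℕ) (P : ℂ × ℂ → ℂ[X]) (O : Set (ℂ × ℂ)), IsOpen O → Convex ℝ O →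
  (∀ q ∈ O, MonAt b P q ∧ (P q).Separable) → ∃ z : Fin b → ℂ × ℂ → ℂ,
    ∀ q ∈ O, (∀ i, AnalyticAt ℂ (z i) q) ∧ P q = ∏ i, (X - C (z i q))

-- deps:
def S_PERM : Prop := ∀ (T : Type) [TopologicalSpace T] (A : Set T) (b : ℕ) (f g : Fin b → T → ℂ),
  IsPreconnected A → (∀ i, ContinuousOn (f i) A ∧ ContinuousOn (g i) A) →
  (∀ q ∈ A, (∏ i, (X - C (f i q))).Separable ∧ ∏ i, (X - C (g i q)) = ∏ i, (X - C (f i q))) →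
  ∃ σ : Equiv.Perm (Fin b), ∀ q ∈ A, ∀ i, g i q = f (σ i) q

-- deps: PU1 PERM
def S_PU2 : Prop := ∀ (b : ℕ) (P : ℂ × ℂ → ℂ[X]) (t₀ : ℂ), MonAt b P (0, t₀) →
  (∀ᶠ q : ℂ × ℂ in 𝓝 (0, t₀), q.1 ≠ 0 → (P q).Separable) →
  ∃ (e : ℕ) (z : Fin b → ℂ × ℂ → ℂ), 0 < e ∧ ∀ᶠ q : ℂ × ℂ in 𝓝 (0, t₀), q.1 ≠ 0 →
    (∀ i, DifferentiableAt ℂ (z i) q) ∧ P (q.1 ^ e, q.2) = ∏ i, (X - C (z i q))

-- deps: PU2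
def S_PUISP : Prop := ∀ (b : ℕ) (P : ℂ × ℂ → ℂ[X]) (t₀ : ℂ), MonAt b P (0, t₀) →
  (∀ᶠ q : ℂ × ℂ in 𝓝 (0, t₀), q.1 ≠ 0 → (P q).Separable) →
  ∃ (e : ℕ) (z : Fin b → ℂ × ℂ → ℂ), 0 < e ∧ (∀ i, AnalyticAt ℂ (z i) (0, t₀)) ∧
    ∀ᶠ q : ℂ × ℂ in 𝓝 (0, t₀), P (q.1 ^ e, q.2) = ∏ i, (X - C (z i q))

-- deps:
def S_LIP : Prop := ∀ (a : ℂ × ℂ → ℂ) (t₀ : ℂ), AnalyticAt ℂ a (0, t₀) →
  (∀ᶠ q : ℂ × ℂ in 𝓝 (0, t₀), q.1 ≠ 0 → a q ≠ 0) →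
  ∀ᶠ y : ℂ × ℂ × ℂ in 𝓝 (0, t₀, t₀), ‖a (y.1, y.2.2) - a (y.1, y.2.1)‖ ≤ 1 / 4 * ‖a (y.1, y.2.1)‖

-- deps:
def S_MCS : Prop := ∀ b : ℕ, ∃ M : (Fin b → ℂ) × (Fin b → ℂ) × ℂ → ℂ, Continuous M ∧
  (∀ (σ : Equiv.Perm (Fin b)) p p' z, M (p ∘ σ, p' ∘ σ, z) = M (p, p', z)) ∧
  (∀ p z, M (p, p, z) = z) ∧ (∀ p p', Function.Injective fun z => M (p, p', z)) ∧
  ∀ p p', (∀ i j, ‖p' i - p' j - (p i - p j)‖ ≤ 1 / 4 * ‖p i - p j‖) →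
    ∀ i, M (p, p', p i) = p' i

-- deps:
def S_QUO : Prop := ∀ (T W : Type) [TopologicalSpace T] [TopologicalSpace W] (e : ℕ)
  (F : ℂ × T → W) (τ₀ : T), 0 < e →
  (∀ᶠ y in 𝓝 ((0 : ℂ), τ₀), ContinuousAt F y ∧ ∀ v, v ^ e = y.1 ^ e → F (v, y.2) = F y) →
  ∃ F' : ℂ × T → W, ∀ᶠ y in 𝓝 ((0 : ℂ), τ₀), ContinuousAt F' y ∧
    ∀ v, v ^ e = y.1 → F' y = F (v, y.2)

-- deps: PUISP PERM LIP MCS QUO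
def S_LFM0 : Prop := ∀ (b : ℕ) (P : ℂ × ℂ → ℂ[X]) (t₀ z₀ : ℂ), MonAt b P (0, t₀) →
  (∀ᶠ q : ℂ × ℂ in 𝓝 (0, t₀), q.1 ≠ 0 → (P q).Separable) →
  ∃ Φ : ℂ × ℂ × ℂ × ℂ → ℂ, ∀ᶠ y in 𝓝 ((0 : ℂ), t₀, t₀, z₀), ContinuousAt Φ y ∧
    rootMultiplicity (Φ y) (P (y.1, y.2.2.1)) = rootMultiplicity y.2.2.2 (P (y.1, y.2.1)) ∧
    (y.2.2.1 = y.2.1 → Φ y = y.2.2.2)

-- deps: LFM0 TRX MUL
def S_LFM : Prop := ∀ (Q : PM) (b m nn N : ℕ) (U : Set ℂ) (s : ℂ → Co b m → ℂ),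
  Strip nn N U s → ∀ w : Q.Y × ℂ, w.2 ∈ U → 1 < muF Q s w → LocFlow (muF Q s) w

-- deps: TBOX CRC
def S_LFB : Prop := ∀ (Q : PM) (b m nn N : ℕ) (U : Set ℂ) (s : ℂ → Co b m → ℂ),
  Strip nn N U s → ∀ w : Q.Y × ℂ, w.2 ∈ U → muF Q s w ≤ 1 → LocFlow (muF Q s) w

-- deps:
def S_TRN3 : Prop := ∀ (Y : Type) [MetricSpace Y] (μ : Y × ℂ → ℕ) (w₀ : Y × ℂ), LocFlow μ w₀ →
  ∃ G, Tp μ G ∧ ∀ᶠ x in 𝓝 (w₀, w₀.2), (G x).2 = x.2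

-- deps: TRN3
def S_TRANS : Prop := ∀ (Y : Type) [MetricSpace Y] [CompactSpace Y] (μ : Y × ℂ → ℕ) (K : Set ℂ),
  IsCompact K → Convex ℝ K → (∀ w : Y × ℂ, w.2 ∈ K → LocFlow μ w) →
  ∃ G, Tp μ G ∧ ∀ x : (Y × ℂ) × ℂ, x.1.2 ∈ K → x.2 ∈ K → (G x).2 = x.2

-- deps: TRANS LFM LFB
def S_TBG : Prop := ∀ (Q : PM) (b m nn N : ℕ) (U : Set ℂ) (s : ℂ → Co b m → ℂ),
  Strip nn N U s → ∃ V G, Tra Q nn V s G ∧ ∀ j : Fin (N + 1), (j : ℂ) ∈ V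

end Pool.Agent.P.MP_ab0431_ag.UB.V2
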