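import Pool.Agent.P.MP_ab0431_ag.UB2.IfaceA3
import Pool.Agent.P.MP_ab0431_ag.UB2.IfaceA
import Pool.Agent.P.MP_ab0431_ag.UB2.IfaceD2
import Pool.Agent.P.MP_ab0431_ag.UB2.IfaceA2
import Pool.Agent.P.MP_ab0431_ag.UB2.IfaceD
import Pool.Agent.P.MP_ab0431_ag.UB2.IfaceT

/-! Steps PUF NEG FINB COVB COV0 COV1 COVU COVC COVN COVM COV AMAIN. -/

set_option autoImplicit false
set_option linter.unusedSectionVars false
set_option linter.unusedVariables false

namespace Pool.Agent.P.MP_ab0431_ag.UB.V2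

open Polynomial Set Filter Topology Asymptotics MeasureTheory
open scoped Manifold ContDiff

theorem p_PUF (hPUF0 : S_PUF0) (hDIV2 : S_DIV2) (hHCA : S_HCA) :
    S_PUF := by
  intro Q X M h s G S i c q D' χ hA hq hP
  obtain ⟨h1, -, h3⟩ := hHCA Q _ _ c
  refine hDIV2 (Dc c) D' _ (h1 _).1 hP.iso.an ?_ hP.iso.iso
    (hPUF0 Q X M h s G S i c q D' χ hA hq hP)
  exact (h3 hA.img.good _).2.mono fun p hp h0 e => hp h0 (by rw [e]; rfl)

end Pool.Agent.P.MP_ab0431_ag.UB.V2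

namespace Pool.Agent.P.MP_ab0431_ag.UB.V2

open Polynomial Set Filter Topology Asymptotics MeasureTheory
open scoped Manifold ContDiff

theorem pd_le_neg2 {F D u : C2 → ℂ} {a : C2} (hu : AnalyticAt ℂ u a) (u0 : u a ≠ 0)
    (hD : AnalyticAt ℂ D a) (e : ∀ᶠ p in 𝓝 a, F p = u p * D p) :
    ∃ K : ℝ, ∀ᶠ p in 𝓝 a, D p = 0 → ‖pd 1 D p‖ ≤ K * ‖pd 1 F p‖ := by
  refine ⟨‖(u a)⁻¹‖ + 1, ?_⟩
  have h1 : ∀ᶠ p in 𝓝 a, ‖(u p)⁻¹‖ < ‖(u a)⁻¹‖ + 1 :=
    (hu.continuousAt.inv₀ u0).norm.tendsto.eventually (gt_mem_nhds (lt_add_one _))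
  filter_upwards [h1, hu.continuousAt.eventually_ne u0, hu.eventually_analyticAt,
    hD.eventually_analyticAt, e.eventually_nhds] with p a1 a2 a3 a4 a5 h0
  have a6 : F =ᶠ[𝓝 p] u * D := a5
  have : pd 1 F p = u p * pd 1 D p := by
    unfold pd
    rw [a6.fderiv_eq, fderiv_mul a3.differentiableAt a4.differentiableAt, h0]
    simp
  have e2 : pd 1 D p = (u p)⁻¹ * pd 1 F p := by rw [this, inv_mul_cancel_left₀ a2]
  rw [e2, norm_mul]
  exact mul_le_mul_of_nonneg_right a1.le (norm_nonneg _)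

theorem p_NEG (hRM2 : S_RM2) (hPUN : S_PUN) (hPUF : S_PUF) (hJFORM : S_JFORM) (hHCA : S_HCA) :
    S_NEG := by
  intro Q X M h s G S i c A
  have H := A.tri.tri
  have m := A.mdl
  have f1 : IsForm X.X (3 * M + 1) (J1 M s) := by
    have := hJFORM X M M M _ _ _ (H.form 0) (H.form 1) (H.form 2)
    rwa [show M + M + M + 1 = 3 * M + 1 by ring] at this
  have f2 : IsForm X.X (5 * M + 2) (J2 M s) := by
    have := hJFORM X (3 * M + 1) M M _ _ _ f1 (H.form 0) (H.form 1)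
    rwa [show 3 * M + 1 + M + M + 1 = 5 * M + 2 by ring] at this
  have f3 : IsForm X.X ((5 * M + 2) * M) (J2 M s ^ M) := mul_comm M _ ▸ isForm_pow f2 M
  have s0 : ∀ r ∉ S.inf, h.vv s G (i r) 0 ≠ 0 := fun r hr h0 => hr ((m.inf r).2 h0)
  have gp : ∀ r ∉ S.bad, ∃ p, X.ι p = i r := fun r hr => by
    by_contra hn
    exact hr ((m.bad r).2 hn)
  obtain ⟨c1, -, c2⟩ := hRM2 X M h s G S i (5 * M + 2) (J2 M s ^ M) 0 A.tri m f3
  refine ⟨M, 5 * M + 2, _, _, by have := H.pos; omega, c1, fun r hr h1 => ?_,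
    fun r hb h2 => ?_, fun r hb => ?_⟩
  · obtain ⟨p, hp⟩ := gp r fun e => by have := S.bν r e; omega
    refine div_ne_zero ?_ (pow_ne_zero _ (s0 r hr))
    rw [← hp, h.vb_ι]
    refine pow_ne_zero M fun h0 => ?_
    have := (m.nu r p hp).2 h0
    omega
  · obtain ⟨p, hp⟩ := gp r hb
    have ni : r ∉ S.inf := fun hr => by have := (S.atinf r hr).1; omega
    obtain ⟨ψ, a, z0, -, hψ⟩ := m.par r p hp
    have hp' : h.pt p ∈ (h.e p).target := (h.e p).map_source (h.src _)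
    have an : ∀ {k : ℕ} {t : Sec X}, IsForm X.X k t →
        AnalyticAt ℂ (fun u => t (h.e p) (ψ u)) 0 := fun ht =>
      AnalyticAt.comp_of_eq (isForm_analyticAt ht (h.mem _) hp') a z0
    refine IsBigO.congr' (big_rm3 (an f2) (an (H.form 0)) ?_ ?_ M (5 * M + 2))
      (EventuallyEq.symm (c2 r p ψ hψ)) EventuallyEq.rfl
    · rw [z0]; exact (m.nu r p hp).1 h2
    · have := s0 r ni
      rw [← hp, h.vv_ι] at this
      rw [z0]; exact this
  · have hq := (m.bad r).1 hb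
    obtain ⟨D', χ, P⟩ := hPUN X M h s G (i r) A.tri hq
    obtain ⟨u, u1, u2, u3⟩ := hPUF Q X M h s G S i c (i r) D' χ A hq P
    obtain ⟨K, hK⟩ := pd_le_neg2 u1 u2 P.iso.an u3
    obtain ⟨C, hC⟩ := P.bd
    have ev : ∀ᶠ b in 𝓝 (i r), b ∈ χ.source := χ.open_source.mem_nhds P.mem
    have T : Tendsto (h.af s G) (𝓝 (i r)) (𝓝 (h.af s G (i r))) := by
      have : Tendsto (fun b => (χ b).1.1) (𝓝 (i r)) (𝓝 (χ (i r)).1.1) :=
        ((continuous_fst.comp continuous_subtype_val).tendsto _).comp (χ.continuousAt P.mem)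
      rw [(P.base _ P.mem).2] at this
      exact this.congr' (ev.mono fun b hb => (P.base b hb).2)
    have Ti : Tendsto i (𝓝[≠] r) (𝓝 (i r)) := (m.cont.tendsto r).mono_left nhdsWithin_le_nhds
    refine IsBigO.of_bound (|C| * K ^ M) ?_
    filter_upwards [Ti.eventually ev, Ti.eventually (T.eventually hK), self_mem_nhdsWithin]
      with r' a1 a2 a3
    obtain ⟨p, hp⟩ := P.sm _ a1 fun e => a3 (m.inj e)
    have j1 : h.vl (J1 M s) p = 0 := (m.rng _).1 ⟨r', rfl⟩ p hp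
    have w0 := (P.ram p (hp ▸ a1)).1 j1
    have d0 : D' (h.af s G (i r')) = 0 := by
      have := (χ (i r')).2
      rw [(P.base _ a1).2, ← hp, w0] at this
      rw [← hp, ← this]; simp
    have ni : r' ∉ S.inf := fun e => (P.base _ a1).1 ((m.inf r').1 e)
    have e1 : pd 1 (Dc c) (h.af s G (i r')) =
        (toP c).derivative.evalEval (S.xx r') (h.rt s G i 0 r') := by
      rw [m.xx r' ni]
      exact ((hHCA Q _ _ c).1 _).2
    have b1 := hC p (hp ▸ a1) j1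
    have b2 := a2 d0
    rw [e1] at b2
    rw [hp] at b1
    have b3 := pow_le_pow_left₀ (norm_nonneg _) b2 M
    rw [← hp, h.vb_ι, h.vv_ι, norm_pow, mul_assoc, ← mul_pow]
    exact b1.trans ((mul_le_mul_of_nonneg_right (le_abs_self C) (by positivity)).trans
      (mul_le_mul_of_nonneg_left b3 (abs_nonneg C)))

end Pool.Agent.P.MP_ab0431_ag.UB.V2

namespace Pool.Agent.P.MP_ab0431_ag.UB.V2

open Polynomial Set Filter Topology Asymptotics MeasureTheory
open scoped Manifold ContDiff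

theorem p_FINB (hPIC : S_PIC) (hPT4 : S_PT4) (hPUN : S_PUN) :
    S_FINB := by
  intro Q X M h s G H y
  have hc : Continuous (prB h s G Q) := (hPIC Q X M h s G H).2
  refine ((isClosed_singleton.preimage hc).isCompact).finite ?_
  rw [isDiscrete_iff_nhdsNE]
  intro b hb
  rw [inf_principal_eq_bot]
  have key : ∀ᶠ b' in 𝓝 b, b' ≠ b → prB h s G Q b' ≠ prB h s G Q b := by
    by_cases hr : b ∈ range X.ι
    · obtain ⟨p, rfl⟩ := hr
      rw [← X.emb.map_nhds_eq p, eventually_map]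
      filter_upwards [eventually_nhdsWithin_iff.1 (hPT4 Q X M h s p H.tri).1] with p' hp' n
      rw [prB_ι, prB_ι]
      exact hp' fun e => n (congrArg X.ι e)
    · obtain ⟨D', χ, P⟩ := hPUN X M h s G b H hr
      filter_upwards [χ.open_source.mem_nhds P.mem] with b' hb' n e
      apply n
      have e1 : h.af s G b' = h.af s G b := by
        rw [← (prB_aff h s G Q (P.base b' hb').1).2, ← (prB_aff h s G Q (P.base b P.mem).1).2, e]
      have e2 : (χ b').1.1 = (χ b).1.1 := by rw [(P.base b' hb').2, (P.base b P.mem).2, e1]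
      have e3 : (χ b').1.2 = (χ b).1.2 := by
        have a := (χ b').2
        rw [(P.base b' hb').2, e1, P.iso.zero] at a
        rw [P.zero]
        exact pow_eq_zero_iff (two_ne_zero) |>.1 a
      exact χ.injOn hb' P.mem (Subtype.ext (Prod.ext e2 e3))
  filter_upwards [eventually_nhdsWithin_iff.2 key] with b' hb' h'
  exact hb' ((mem_singleton_iff.1 h').trans (mem_singleton_iff.1 hb).symm)

end Pool.Agent.P.MP_ab0431_ag.UB.V2

namespace Pool.Agent.P.MP_ab0431_ag.UB.V2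

open Polynomial Set Filter Topology Asymptotics MeasureTheory
open scoped Manifold ContDiff

theorem p_COVB (hPIC : S_PIC) (hRFIN : S_RFIN) :
    S_COVB := by
  intro Q X M h s G S i c H
  have hM := H.mdl
  have hI := H.img
  obtain ⟨b1, b2, b3, b4, -⟩ := t_BCF Q _ _ c hI.good.1
  have key : ∀ r, prB h s G Q (i r) ∈ Bc Q c := by
    intro r
    by_cases hr : r ∈ S.inf
    · have e0 := (hM.inf r).1 hr
      have e1 := hM.inf1 r hr
      have e : h.vv s G (i r) = h.vv s G (i r) 1 •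
          (![0, 1, h.rt s G i 1 r] : Fin 3 → ℂ) := by
        funext j; fin_cases j
        · simpa using e0
        · simp
        · simp [Ch.rt]; field_simp
      rw [prB, b1 _ fun e' => e1 (congrFun e' 1), e, b2, b4, hI.top,
        finprod_mem_eq_finite_toFinset_prod _ (hRFIN S).1, eval_prod,
        Finset.prod_eq_zero (i := r) (by simpa using hr) (by simp), mul_zero]
    · have e0 : h.vv s G (i r) 0 ≠ 0 := fun h0 => hr ((hM.inf r).2 h0)
      have e : h.vv s G (i r) = h.vv s G (i r) 0 •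
          (![1, S.xx r, h.rt s G i 0 r] : Fin 3 → ℂ) := by
        funext j; fin_cases j
        · simp
        · simp [hM.xx r hr]; field_simp
        · simp [Ch.rt]; field_simp
      rw [prB, b1 _ fun e' => e0 (congrFun e' 0), e, b2, b3,
        (hI.root _ _).2 ⟨r, ⟨hr, rfl⟩, rfl⟩, mul_zero]
  refine ⟨key, fun b hb => ?_⟩
  have : b ∉ range i := by
    rintro ⟨r, rfl⟩
    exact hb (key r)
  rw [hM.rng] at this
  push Not at this
  exact this

end Pool.Agent.P.MP_ab0431_ag.UB.V2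

namespace Pool.Agent.P.MP_ab0431_ag.UB.V2

open Polynomial Set Filter Topology Asymptotics MeasureTheory
open scoped Manifold ContDiff

theorem p_COV0 (hPIC : S_PIC) (hFINB : S_FINB) (hTHIN : S_THIN) (hCOVB : S_COVB) (hPIH : S_PIH) :
    S_COV0 := by
  intro Q X M h s G S i c hπ H
  have hc := (hPIC Q X M h s G H.tri).2
  have := X.cptB
  have e : prj Q h s = prB h s G Q ∘ X.ι := funext fun p => (prB_ι h s G Q p).symm
  obtain ⟨hπ', hloc⟩ := hPIH Q X M h s H.tri.tri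
  refine ⟨fun K hK hKc => ?_, fun q _ => ?_, fun z _ hz => ?_, fun z _ => ?_⟩
  · change IsCompact (prj Q h s ⁻¹' K)
    rw [e, preimage_comp]
    refine X.emb.isInducing.isCompact_preimage' (hKc.isClosed.preimage hc).isCompact ?_
    intro b hb
    by_contra hb'
    exact hK hb ⟨b, hb', rfl⟩
  · change (prj Q h s ⁻¹' {q}).Finite
    rw [e, preimage_comp]
    exact (hFINB Q X M h s G H.tri q).preimage X.emb.injective.injOn
  · obtain ⟨p, hp, hJ⟩ := (hCOVB Q X M h s G S i c H).2 (X.ι z) (by rw [prB_ι]; exact hz)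
    obtain rfl : p = z := X.emb.injective hp
    exact hloc p hJ
  · exact hTHIN Q X M h s _ _ c H.tri.tri H.img.good.1 z

end Pool.Agent.P.MP_ab0431_ag.UB.V2

namespace Pool.Agent.P.MP_ab0431_ag.UB.V2

open Polynomial Set Filter Topology Asymptotics MeasureTheory
open scoped Manifold ContDiff

theorem p_COV1 (hCOV0 : S_COV0) (hCARD : S_CARD) (hCOVB : S_COVB) (hPT1 : S_PT1) (hPT4 : S_PT4) (hPIH : S_PIH) (hFINB : S_FINB) :
    S_COV1 := by
  intro Q X M h s G S i c hπ d A hd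
  have ht := A.tri.tri
  have hm := A.mdl
  have him := A.img
  obtain ⟨_, hloc⟩ := hPIH Q X M h s ht
  have hG0 := hCOV0 Q X M h s G S i c hπ A
  obtain ⟨-, b2, b3, b4, b5, -, b7, -, -⟩ := t_BCF Q _ 6 c him.good.1
  have hS0 : (prB h s G Q '' (range X.ι)ᶜ).Finite := X.fin.image _
  have hfib : ∀ q, (prj Q h s ⁻¹' {q}).Finite := fun q =>
    ((hFINB Q X M h s G A.tri q).preimage X.emb.injective.injOn).subset fun p hp =>
      (prB_ι h s G Q p).trans hp
  have hsub : (Bc Q c)ᶜ ⊆ (prB h s G Q '' (range X.ι)ᶜ)ᶜ := by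
    rintro y hy ⟨b, hb, rfl⟩
    obtain ⟨p, rfl, -⟩ := (hCOVB Q X M h s G S i c A).2 b hy
    exact hb ⟨p, rfl⟩
  set E : Set Q.Y := (fun p : ℂ × ℂ => Q.pp ![1, p.1, p.2]) ''
    {p | ((Δ S.inf.ncard (toP c)).eval p.1 = 0 ∨ p.1 ∈ S.cv) ∧ (toP c).evalEval p.1 p.2 = 0} ∪
    (fun z => Q.pp ![0, 1, z]) '' {z | (UB.top S.inf.ncard 1 (toP c)).eval z = 0} with hE
  have hmon : ∀ x : ℂ, ((toP c).map (evalRingHom x)).Monic := fun x => (toP_monic c).map _
  have hfin : E.Finite := by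
    refine (Finite.image _ ?_).union (Finite.image _ ?_)
    · have hΔ : Δ S.inf.ncard (toP c) ≠ 0 := fun e => him.good.2 (by rw [e, coeff_zero])
      have hcv : S.cv.Finite := A.fn.1.image _
      refine (((finite_setOfPred_isRoot hΔ).union hcv).biUnion fun x _ =>
        (finite_setOfPred_isRoot (hmon x).ne_zero).image fun z => (x, z)).subset ?_
      rintro ⟨x, z⟩ ⟨h1, h2⟩
      exact mem_iUnion₂.2 ⟨x, h1, z, (map_evalRingHom_eval x z _).trans h2, rfl⟩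
    · have : (UB.top S.inf.ncard 1 (toP c)).Monic := by
        rw [him.top]
        exact finprod_mem_induction Monic monic_one (fun _ _ => Monic.mul)
          fun r _ => monic_X_sub_C _
      exact finite_setOfPred_isRoot this.ne_zero
  have main : ∀ q ∉ E, q ∉ prB h s G Q '' (range X.ι)ᶜ → (cvr X hπ).Fold d q := by
    intro q hq hq0
    by_cases hB : q ∈ Bc Q c
    swap
    · refine ⟨(hfib q).toFinset, ?_, fun p hp => ?_⟩
      · exact ((hd q hB).symm.trans (ncard_eq_toFinset_card _ (hfib q))).le.trans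
          (Nat.le_add_right _ _)
      · have e : prj Q h s p = q := (hfib q).mem_toFinset.1 hp
        exact ⟨e, hG0.loc p (fun e' => hq0 (e ▸ (e' : prj Q h s p ∈ _)))
          fun e' => hB (e ▸ (e' : prj Q h s p ∈ _))⟩
    obtain ⟨v, hv, rfl, hv0⟩ := hB
    have h0 : v 0 ≠ 0 := by
      intro h0
      by_cases h1 : v 1 = 0
      · have e : v = v 2 • ![0, 0, 1] := by ext j; fin_cases j <;> simp [h0, h1]
        rw [e, b2, b5, mul_one] at hv0
        exact hv (by rw [e, pow_eq_zero_iff'.1 hv0 |>.1, zero_smul])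
      · have e : v = v 1 • ![0, 1, v 2 / v 1] := by
          ext j; fin_cases j <;> simp [h0, mul_div_cancel₀ _ h1]
        refine hq (Or.inr ⟨v 2 / v 1, ?_, (Q.eq_iff _ _ (by simp) hv).2 ⟨_, e⟩⟩)
        rw [e, b2, b4] at hv0
        exact (mul_eq_zero.1 hv0).resolve_left (pow_ne_zero _ h1)
    obtain ⟨x, z, e⟩ : ∃ x z, v = v 0 • ![1, x, z] := ⟨v 1 / v 0, v 2 / v 0, by
      ext j; fin_cases j <;> simp [mul_div_cancel₀ _ h0]⟩
    have hne : (![1, x, z] : Fin 3 → ℂ) ≠ 0 := by simp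
    have hq' : Q.pp ![1, x, z] = Q.pp v := (Q.eq_iff _ _ hne hv).2 ⟨_, e⟩
    rw [e, b2, b3] at hv0
    have hz : (toP c).evalEval x z = 0 := (mul_eq_zero.1 hv0).resolve_left (pow_ne_zero _ h0)
    have hΔ : (Δ S.inf.ncard (toP c)).eval x ≠ 0 := fun e' =>
      hq (Or.inl ⟨(x, z), ⟨Or.inl e', hz⟩, hq'⟩)
    have hx : x ∉ S.cv := fun e' => hq (Or.inl ⟨(x, z), ⟨Or.inr e', hz⟩, hq'⟩)
    have hsep : ((toP c).map (evalRingHom x)).Separable :=
      (t_DSEP ℂ _ _ (hmon x) (((toP_monic c).natDegree_map _).trans (toP_natDegree c))).1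
        (by rw [Δ_map]; exact hΔ)
    have hf := A.fn.2 x
    rw [him.aff x hx, finprod_mem_eq_finite_toFinset_prod _ hf,
      separable_prod_X_sub_C_iff'] at hsep
    obtain ⟨r, hr, hz⟩ := (him.root x z).1 hz
    have n2 : S.ν r ≠ 2 := fun e' => hx ⟨r, e', hr.2⟩
    obtain ⟨p, hp⟩ : i r ∈ range X.ι := by
      by_contra e'
      exact n2 (S.bν r ((hm.bad r).2 e'))
    have a0 : h.vl (s 0) p ≠ 0 := fun e' =>
      hr.1 ((hm.inf r).2 (by rw [← hp, Ch.vv_ι]; exact e'))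
    have a1 : h.vl (J1 M s) p = 0 := (hm.rng (i r)).1 ⟨r, rfl⟩ p hp
    have a2 : h.vl (J2 M s) p ≠ 0 := fun e' => n2 ((hm.nu r p hp).2 e')
    have a3 : x = h.vl (s 1) p / h.vl (s 0) p := by
      rw [← hr.2, hm.xx r hr.1, ← hp, Ch.vv_ι, Ch.vv_ι]
    have a4 : z = h.vl (s 2) p / h.vl (s 0) p := by
      rw [← hz, Ch.rt, ← hp, Ch.vv_ι, Ch.vv_ι]
    rw [← hq'] at hq0 ⊢
    refine (hCARD Q _ _ _ hG0 hS0.isClosed.isOpen_compl hsub hfib).2 d _ hq0 p b7 hd ?_
      (fun p' e' hne' => hloc p' fun e'' => ?_) ((hPT4 Q X M h s p ht).2 a1 a0 a2)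
    · refine ((Q.eq_iff _ _ hne (hPT1 X M h s p ht).1).2 ⟨h.vl (s 0) p, ?_⟩).symm
      ext j; fin_cases j <;> simp [a3, a4, mul_div_cancel₀ _ a0]
    · obtain ⟨r', hp'⟩ := (hm.rng (X.ι p')).2 fun p'' k => X.emb.injective k ▸ e''
      have n0 := (hPT1 X M h s p' ht).1
      obtain ⟨a, ha⟩ := (Q.eq_iff _ _ hne n0).1 (Eq.symm e')
      have n1 : a ≠ 0 := fun e => n0 (by rw [ha, e, zero_smul])
      have c0 : h.vl (s 0) p' = a := by simpa using congrFun ha 0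
      have c1 : h.vl (s 1) p' = a * x := by simpa using congrFun ha 1
      have c2 : h.vl (s 2) p' = a * z := by simpa using congrFun ha 2
      have c3 : r' ∉ S.inf := fun e => n1 (by
        have := (hm.inf r').1 e
        rwa [hp', Ch.vv_ι, c0] at this)
      have c4 : r' = r := by
        refine hsep r' ((Finite.mem_toFinset _).2 ⟨c3, ?_⟩) r ((Finite.mem_toFinset _).2 hr) ?_
        · rw [hm.xx r' c3, hp', Ch.vv_ι, Ch.vv_ι, c0, c1, mul_div_cancel_left₀ _ n1]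
        · rw [hz, Ch.rt, hp', Ch.vv_ι, Ch.vv_ι, c0, c2, mul_div_cancel_left₀ _ n1]
      exact hne' (X.emb.injective (by rw [← hp', c4, hp]))
  refine ⟨fun q _ hq => hd q hq, fun q hq0 => ?_⟩
  filter_upwards [(hfin.subset (sdiff_subset (t := {q}))).isClosed.isOpen_compl.mem_nhds
    fun hq => hq.2 rfl, hS0.isClosed.isOpen_compl.mem_nhds hq0] with q' hq' hq1 _ hne
  exact main q' (fun e => hq' ⟨e, hne⟩) hq1

end Pool.Agent.P.MP_ab0431_ag.UB.V2

namespace Pool.Agent.P.MP_ab0431_ag.UB.V2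

open Polynomial Set Filter Topology Asymptotics MeasureTheory
open scoped Manifold ContDiff

theorem p_COVU (hUBX : S_UBX) (hUNIB : S_UNIB) (hUBT : S_UBT) (hPUF : S_PUF) (hPUN : S_PUN) (hZACC : S_ZACC) (hTHIN : S_THIN) (hPIH : S_PIH) (hMUL : S_MUL) :
    S_COVU := by
  intro Q X M h s G S i c hA z
  have hW : WD S.inf.ncard 1 (toP c) := hA.img.good.1
  by_cases hz : z ∈ range X.ι
  · obtain ⟨p, rfl⟩ := hz
    obtain ⟨hπ, -⟩ := hPIH Q X M h s hA.tri.tri
    have h1 : UbAt (prj Q h s) (Bc Q c) p :=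
      hUBX C2 Q.Y (cvr X hπ) (Bc Q c) univ isOpen_univ (t_ZLB Q _ _ c hW)
        (fun y _ => hTHIN Q X M h s _ _ c hA.tri.tri hW y) p (mem_univ _)
    refine hUBT _ _ _ _ (prj Q h s) (prB h s G Q) (Bc Q c) (Bc Q c) X.ι p ?_ ?_ h1
    · exact .of_forall fun y => ⟨X.emb.continuous.continuousAt, by rw [prB_ι]⟩
    · exact fun N hN => mem_of_superset (X.emb.isOpenMap.image_mem_nhds hN) subset_union_left
  · obtain ⟨D', χ, hP⟩ := hPUN X M h s G z hA.tri hz
    obtain ⟨u, hu, hu0, hD⟩ := hPUF Q X M h s G S i c z D' χ hA hz hP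
    have e1 : (χ z).1.1 = h.af s G z := (hP.base z hP.mem).2
    have h1 : UbAt (fun v : Dbl D' => v.1.2) {0} (χ z) := by
      refine hUNIB C2 D' (χ z) (e1 ▸ hP.iso.an) hP.zero ?_
      rw [e1]
      exact (((hZACC D' _ hP.iso.an hP.iso.zero).and_eventually hP.iso.iso).mono
        fun p hp => ⟨hp.1, hp.2 hp.1⟩).filter_mono nhdsWithin_le_nhds
    have ht : χ z ∈ χ.target := χ.map_source hP.mem
    have h2 := hUBT _ _ _ _ (fun v : Dbl D' => v.1.2) (prB h s G Q) {0} (Bc Q c) χ.symm (χ z)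
      ?_ ?_ h1
    · rwa [χ.left_inv hP.mem] at h2
    · have c1 : Tendsto (fun v : Dbl D' => v.1.1) (𝓝 (χ z)) (𝓝 (h.af s G z)) := by
        rw [← e1]
        exact (continuous_fst.comp continuous_subtype_val).continuousAt
      filter_upwards [χ.open_target.mem_nhds ht, c1.eventually hD,
        c1.eventually (hu.continuousAt.eventually_ne hu0)] with y a1 a2 a3
      refine ⟨χ.continuousAt_symm a1, ?_⟩
      obtain ⟨b1, b2⟩ := hP.base _ (χ.map_target a1)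
      obtain ⟨b3, b4⟩ := prB_aff h s G Q b1
      rw [χ.right_inv a1] at b2
      rw [((hMUL Q _ _ c hW).1 _ b3).1, Hc, b4, ← b2, a2, ← y.2, mem_singleton_iff]
      simp [a3]
    · exact fun N hN => mem_of_superset (χ.symm.image_mem_nhds ht hN) subset_union_left

end Pool.Agent.P.MP_ab0431_ag.UB.V2

namespace Pool.Agent.P.MP_ab0431_ag.UB.V2

open Polynomial Set Filter Topology Asymptotics MeasureTheory
open scoped Manifold ContDiff

theorem p_COVC (hPUF : S_PUF) (hPUN : S_PUN) (hMUL : S_MUL) (hHCA : S_HCA) :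
    S_COVC := by
  intro Q X M h s G S i c H
  have hM := (hMUL Q _ _ c H.img.good.1).1
  refine ⟨fun q hq => ?_, fun y hy => ?_⟩
  · obtain ⟨D', χ, hP⟩ := hPUN X M h s G q H.tri hq
    obtain ⟨u, hu, -, he⟩ := hPUF Q X M h s G S i c q D' χ H hq hP
    obtain ⟨a1, a2⟩ := prB_aff h s G Q (hP.base q hP.mem).1
    have e1 : Dc c (h.af s G q) = 0 := by rw [he.self_of_nhds, hP.iso.zero, mul_zero]
    have e2 : fderiv ℂ (Dc c) (h.af s G q) = 0 := by
      have he' : Dc c =ᶠ[𝓝 (h.af s G q)] u * D' := he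
      rw [he'.fderiv_eq, fderiv_mul hu.differentiableAt hP.iso.an.differentiableAt, hP.iso.zero,
        hP.iso.d0]
      ext v
      simp
    refine (hM _ a1).2.2.2 ⟨?_, ?_⟩
    · rw [Hc, a2, e1]
    · rw [a2, ← ((hHCA Q _ _ c).1 _).2, e2]
      rfl
  · have h1 := mu_src Q c (lt_trans one_lt_two hy)
    rw [(hM y h1).2.1] at hy
    obtain ⟨r, hr, e1, e2⟩ := H.img.tri _ _ hy
    have h2 := RS.bad_fin hr
    obtain ⟨a1, a2⟩ := prB_aff h s G Q (b := i r) fun e => h2 ((H.mdl.inf r).2 e)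
    refine ⟨i r, (H.mdl.bad r).1 hr, (Q.ch 0).injOn a1 h1 ?_⟩
    rw [a2]
    funext j
    fin_cases j
    · exact (H.mdl.xx r h2).symm.trans e1
    · exact e2

end Pool.Agent.P.MP_ab0431_ag.UB.V2

namespace Pool.Agent.P.MP_ab0431_ag.UB.V2

open Polynomial Set Filter Topology Asymptotics MeasureTheory
open scoped Manifold ContDiff

theorem p_COVN (hTB0 : S_TB0) (hMOS : S_MOS) (hPUF : S_PUF) (hPUN : S_PUN) (hFIBQ : S_FIBQ) (hPIH : S_PIH) (hPIC : S_PIC) (hFINB : S_FINB) :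
    S_COVN := by
  intro Q X M h s G S i c q hA hq
  obtain ⟨D', χ, hP⟩ := hPUN X M h s G q hA.tri hq
  obtain ⟨hπ, hL⟩ := hPIH Q X M h s hA.tri.tri
  obtain ⟨a1, a2⟩ := prB_aff h s G Q (hP.base q hP.mem).1
  obtain ⟨k, N, φ, hN, hqN, hC⟩ := hTB0 X.B Q.Y C2 (prB h s G Q) (Q.ch 0) D' χ q
    (hPIC Q X M h s G hA.tri).2 (hFINB Q X M h s G hA.tri _) hP.mem hP.zero
    (fun b hb => ⟨(prB_aff h s G Q (hP.base b hb).1).1,
      (hP.base b hb).2.trans (prB_aff h s G Q (hP.base b hb).1).2.symm⟩)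
    (a2 ▸ hP.iso.an.continuousAt) (fun b hb hne => by
      obtain ⟨p, rfl, hp⟩ := (hFIBQ Q X M h s G q hA.tri hq b hb).resolve_left hne
      obtain ⟨e, e1, e2, -⟩ := hL p hp
      have : Nonempty X.X := ⟨p⟩
      have l : ∀ x, (X.emb.toOpenPartialHomeomorph X.ι).symm (X.ι x) = x := fun x =>
        X.emb.toOpenPartialHomeomorph_left_inv X.ι
      refine ⟨(X.emb.toOpenPartialHomeomorph X.ι).symm.trans e, ⟨by simp, ?_⟩, fun y hy => ?_⟩
      · rw [mem_preimage]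
        exact (l p).symm ▸ e1
      · obtain ⟨x, rfl⟩ : y ∈ range X.ι := by simpa using hy.1
        have hx : x ∈ e.source := l x ▸ hy.2
        rw [prB_ι]
        change e ((X.emb.toOpenPartialHomeomorph X.ι).symm (X.ι x)) = _
        rw [l]
        exact e2 hx)
  obtain ⟨u, u1, u2, u3⟩ := hPUF Q X M h s G S i c q D' χ hA hq hP
  obtain ⟨v, v1, v2, v3⟩ := t_ROOTK C2 (fun p => (u p)⁻¹) _ 2 (u1.inv u2) (inv_ne_zero u2)
    two_ne_zero
  have t : Tendsto (Q.ch 0) (𝓝 (prB h s G Q q)) (𝓝 (h.af s G q)) :=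
    a2 ▸ (Q.ch 0).continuousAt a1
  have ev : ∀ᶠ y in 𝓝 (prB h s G Q q), y ∈ N ∧ y ∈ (Q.ch 0).source ∧
      ContinuousAt (v ∘ Q.ch 0) y ∧ v (Q.ch 0 y) ≠ 0 ∧
      D' (Q.ch 0 y) = v (Q.ch 0 y) ^ 2 * Hc Q c y := by
    filter_upwards [hN.mem_nhds hqN, (Q.ch 0).open_source.mem_nhds a1,
      t.eventually v1.eventually_analyticAt, t.eventually (v1.continuousAt.eventually_ne v2),
      t.eventually u3, t.eventually v3, t.eventually (u1.continuousAt.eventually_ne u2)]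
      with y b1 b2 b3 b4 b5 b6 b7
    refine ⟨b1, b2, b3.continuousAt.comp ((Q.ch 0).continuousAt b2), b4, ?_⟩
    rw [Hc, b5, b6, inv_mul_cancel_left₀ b7]
  obtain ⟨W, w1, w2, w3⟩ := eventually_nhds_iff.1 ev
  obtain ⟨g, hg⟩ := hMOS Q.Y Q.Y (Hc Q c) (D' ∘ Q.ch 0) k id (v ∘ Q.ch 0) W continuousOn_id
    (fun y hy => (w1 y hy).2.2.1.continuousWithinAt) fun y hy => (w1 y hy).2.2.2
  exact ⟨k, W, φ ∘ g, w2, w3, fun y hy => (w1 y hy).2.1, hC.comp hg fun y hy => (w1 y hy).1⟩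

end Pool.Agent.P.MP_ab0431_ag.UB.V2

namespace Pool.Agent.P.MP_ab0431_ag.UB.V2

open Polynomial Set Filter Topology Asymptotics MeasureTheory
open scoped Manifold ContDiff

theorem ncard_covm2 {E E' T : Type} [TopologicalSpace E] [TopologicalSpace E'] {p : E → T}
    {p' : E' → T} {W : Set T} {f : E → E'} (c : Car p p' id W f) {y : T} (hy : y ∈ W) :
    (p ⁻¹' {y}).ncard = (p' ⁻¹' {y}).ncard := by
  refine BijOn.ncard_eq (f := f) ⟨fun z hz => ?_, fun z hz z' hz' e => ?_, fun z hz => ?_⟩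
  · have e : p z = y := hz
    exact (c.comm z (e ▸ hy)).trans e
  · have e1 : p z = y := hz
    have e2 : p z' = y := hz'
    exact c.inj z' z (e2 ▸ hy) (e1.trans e2.symm) e
  · obtain ⟨w, h1, h2⟩ := c.surj y hy z hz
    exact ⟨w, h1, h2⟩

theorem p_COVM (hCOVN : S_COVN) (hCOVB : S_COVB) (hMOC : S_MOC) (hMUL : S_MUL) :
    S_COVM := by
  intro Q X M h s G S i c d q hA hd hq
  obtain ⟨k, N, φ, ho, hN, hs, hφ⟩ := hCOVN Q X M h s G S i c q hA hq
  have hB := (hCOVB Q X M h s G S i c hA).2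
  obtain ⟨y, y1, y2⟩ := (t_BCF Q _ _ c hA.img.good.1).2.2.2.2.2.2.1.inter_open_nonempty N ho
    ⟨_, hN⟩
  have hH : Hc Q c y ≠ 0 := fun e => y2 (((hMUL Q _ _ c hA.img.good.1).1 y (hs y1)).1.2 e)
  have ne : Nonempty X.X := by
    obtain ⟨v, hv⟩ := mpr_surj (Hc Q c) k y
    obtain ⟨p, -⟩ := hB (φ v) (by rw [hφ.comm v (hv ▸ y1), hv]; exact y2)
    exact ⟨p⟩
  let e := X.emb.toOpenPartialHomeomorph X.ι
  have e1 : ∀ p, e.symm (X.ι p) = p := fun p => X.emb.toOpenPartialHomeomorph_left_inv X.ι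
  have hg : Car (prB h s G Q) (prj Q h s) id (Bc Q c)ᶜ e.symm := by
    refine ⟨e.continuousOn_symm.mono fun b hb => ?_, fun b hb => ?_, fun b b' hb a1 a2 => ?_,
      fun w _ p hp => ⟨X.ι p, (prB_ι h s G Q p).trans hp, e1 p⟩⟩
    · obtain ⟨p, rfl, -⟩ := hB b hb
      exact e.map_source (x := p) (mem_univ p)
    · obtain ⟨p, rfl, -⟩ := hB b hb
      rw [e1, prB_ι, id]
    · obtain ⟨p', rfl, -⟩ := hB b' (by rw [a1]; exact hb)
      obtain ⟨p, rfl, -⟩ := hB b hb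
      rw [e1, e1] at a2
      rw [a2]
  have hc : Car (mpr (Hc Q c) k) (prj Q h s) id (N \ Bc Q c) (e.symm ∘ φ) :=
    hg.comp (hφ.mono sdiff_subset) fun w hw => hw.2
  have h1 := ncard_covm2 hc ⟨y1, y2⟩
  rw [hd y y2, (hMOC Q.Y (Hc Q c) k ∅ isOpen_empty (continuousOn_empty _)).2.2.2 y hH] at h1
  obtain rfl : k = d - 2 := by omega
  exact ⟨N, _, ho, hN, hc⟩

end Pool.Agent.P.MP_ab0431_ag.UB.V2

namespace Pool.Agent.P.MP_ab0431_ag.UB.V2

open Polynomial Set Filter Topology Asymptotics MeasureTheory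
open scoped Manifold ContDiff

theorem p_COV (hPIH : S_PIH) (hPIC : S_PIC) (hFINB : S_FINB) (hCOV0 : S_COV0) (hCOV1 : S_COV1) (hCOVU : S_COVU) (hCOVC : S_COVC) (hCOVM : S_COVM) (hCARD : S_CARD) (hCOVB : S_COVB) :
    S_COV := by
  intro Q X M h s G S i c hA
  obtain ⟨hπ, -⟩ := hPIH Q X M h s hA.tri.tri
  have h0 := hCOV0 Q X M h s G S i c hπ hA
  have h1 := hFINB Q X M h s G hA.tri
  have h2 := X.fin.image (prB h s G Q)
  obtain ⟨h3, h4⟩ := hCOVC Q X M h s G S i c hA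
  obtain ⟨d, hd⟩ := (hCARD Q _ _ _ h0 h2.isClosed.isOpen_compl
    (by
      rintro _ hy ⟨b, hb, rfl⟩
      obtain ⟨p, hp, -⟩ := (hCOVB Q X M h s G S i c hA).2 b hy
      exact hb ⟨p, hp⟩)
    fun y => ((h1 y).preimage X.emb.injective.injOn).subset fun p hp =>
      (prB_ι h s G Q p).trans hp).1 (t_BCF Q _ _ c hA.img.good.1).2.2.2.2.2.2.2.1
  refine ⟨d, hd, _, hπ, prB h s G Q, _, prB_ι h s G Q, (hPIC Q X M h s G hA.tri).2, h1,
    hCOVU Q X M h s G S i c hA, h2, h0, hCOV1 Q X M h s G S i c hπ d hA hd,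
    fun q hq => mem_image_of_mem _ hq, ?_, h4, ?_⟩ <;> rintro _ ⟨q, hq, rfl⟩
  exacts [h3 q hq, hCOVM Q X M h s G S i c d q hA hd hq]

end Pool.Agent.P.MP_ab0431_ag.UB.V2

namespace Pool.Agent.P.MP_ab0431_ag.UB.V2

open Polynomial Set Filter Topology

theorem p_AMAIN (hCH : S_CH) (hJET2 : S_JET2) (hGENE2 : S_GENE2) (hRM1 : S_RM1) (hRCF : S_RCF) (hRM3 : S_RM3) (hAALG1 : S_AALG1) (hAALG2 : S_AALG2) (hNEG : S_NEG) (hCOV : S_COV) (hCOVB : S_COVB) (hDEGB : S_DEGB) :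
    S_AMAIN := by
  intro Q m hm
  refine ⟨80 * m ^ 2 * (3 * (20 * m) + 1) * (20 * m), fun y Xs hD hK => ?_⟩
  obtain ⟨h⟩ := hCH Xs
  obtain ⟨hV, n, τ, Γ, hτ⟩ := hJET2 Xs m hD
  obtain ⟨s, G, hs⟩ := hGENE2 Xs h (20 * m) _ τ Γ (by omega) hτ
  obtain ⟨S, i, hS⟩ := hRM1 Xs _ h s G hs
  obtain ⟨hF, r1⟩ := hRCF Xs _ h s G S i m y hm hV hK hs hS
  have hG := hRM3 Xs _ h s G S i _ τ Γ hs hS hτ hF
  obtain ⟨c, hc⟩ := hAALG1 S _ _ hG
  have hA : All (20 * m) h s G S i c := ⟨hs, hS, hF, hc⟩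
  obtain ⟨w, hw, hY⟩ := hAALG2 S _ _ c hG hc (hNEG Q Xs _ h s G S i c hA)
  obtain ⟨d, hd, hC⟩ := hCOV Q Xs _ h s G S i c hA
  obtain ⟨-, -, -, -, -, -, -, -, x, z, b3⟩ := t_BCF Q _ 6 c hc.good.1
  refine ⟨_, w, d, c, r1.trans ?_, hw.trans ((Nat.mul_le_mul_left _ r1).trans_eq (by ring)), ?_,
    hY, hc.good, hC⟩
  · exact Nat.mul_le_mul_right _ (Nat.mul_le_mul_right _ (Nat.mul_le_mul_right _
      (Nat.mul_le_mul_right _ (by omega))))
  · refine (hd _ b3).ge.trans ((hDEGB Q Xs m y _ h s x z hm hV hK hs.tri fun p hp => ?_).trans ?_)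
    · obtain ⟨p', e, hp'⟩ := (hCOVB Q Xs _ h s G S i c hA).2 (Xs.ι p) (by rwa [prB_ι, hp])
      exact Xs.emb.injective e ▸ hp'
    · exact Nat.mul_le_mul_right _ (Nat.mul_le_mul_right _
        (Nat.mul_le_mul (Nat.mul_le_mul_right _ (by omega)) (by omega)))

end Pool.Agent.P.MP_ab0431_ag.UB.V2
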