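import Pool.Agent.P.MP_ab0431_ag.UB2.IfaceA

/-! Steps CH DA JET1 JET2 GENE0 GENE GMIX GOPN. -/

set_option autoImplicit false
set_option linter.unusedSectionVars false
set_option linter.unusedVariables false

namespace Pool.Agent.P.MP_ab0431_ag.UB.V2

open Polynomial Set Filter Topology Asymptotics MeasureTheory
open scoped Manifold ContDiff

theorem p_CH :
    S_CH := by
  intro X
  have h1 : ∀ q : X.B, ∃ U : Set X.B, IsOpen U ∧ q ∈ U ∧ SecondCountableTopology U := by
    intro q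
    by_cases hq : q ∈ range X.ι
    · obtain ⟨p, rfl⟩ := hq
      have := (chartAt C2 p).secondCountableTopology_source
      exact ⟨_, X.emb.isOpenMap _ (chartAt C2 p).open_source, ⟨p, mem_chart_source _ p, rfl⟩,
        (X.emb.isEmbedding.homeomorphImage _).symm.secondCountableTopology⟩
    · exact ⟨_, (X.ψ q).open_source, (X.dp q hq).2.1, (X.ψ q).secondCountableTopology_source⟩
  choose U h2 h3 h4 using h1
  obtain ⟨T, hT⟩ := isCompact_univ.elim_finite_subcover U h2 fun q _ => mem_iUnion.2 ⟨q, h3 q⟩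
  have : SecondCountableTopology X.B :=
    TopologicalSpace.secondCountableTopology_of_countable_cover (U := fun q : T => U q)
      (fun q => h2 q) (eq_univ_of_univ_subset (by simpa only [iUnion_subtype] using hT))
  have := X.emb.isEmbedding.secondCountableTopology
  obtain ⟨S, hS, hc⟩ := TopologicalSpace.countable_cover_nhds
    fun p : X.X => chart_source_mem_nhds C2 p
  have h : ∀ p : X.X, ∃ q ∈ S, p ∈ (chartAt C2 q).source := fun p => by
    simpa using hc.ge (mem_univ p)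
  choose q hq hq' using h
  exact ⟨⟨fun p => chartAt C2 (q p), fun p => chart_mem_atlas _ _, hq',
    (hS.image (chartAt C2)).mono (by rintro _ ⟨p, rfl⟩; exact ⟨_, hq p, rfl⟩)⟩⟩

end Pool.Agent.P.MP_ab0431_ag.UB.V2

namespace Pool.Agent.P.MP_ab0431_ag.UB.V2

open Polynomial Set Filter Topology Asymptotics MeasureTheory
open scoped Manifold ContDiff

theorem onto_da2 {N k : ℕ} (w : Fin N → Fin k → ℂ)
    (h : ∀ a : Fin k → ℂ, (∀ i, ∑ j, w i j * a j = 0) → a = 0) (t : Fin k → ℂ) :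
    ∃ c : Fin N → ℂ, ∀ j, ∑ i, c i * w i j = t j := by
  have hs : Submodule.span ℂ (range w) = ⊤ := by
    by_contra hne
    obtain ⟨f, hf, hle⟩ := Submodule.exists_le_ker_of_lt_top _ (lt_top_iff_ne_top.2 hne)
    have e := fun x => LinearMap.pi_apply_eq_sum_univ f x
    have h0 := h (fun j => f fun l => if j = l then 1 else 0) fun i => by
      have := hle (Submodule.subset_span ⟨i, rfl⟩)
      rw [LinearMap.mem_ker, e] at this
      simpa only [smul_eq_mul] using this
    refine hf (LinearMap.ext fun x => ?_)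
    rw [e]
    exact Finset.sum_eq_zero fun j _ => by
      have := congrFun h0 j
      simp only [Pi.zero_apply] at this
      rw [this, smul_zero]
  obtain ⟨c, hc⟩ := (Submodule.mem_span_range_iff_exists_fun ℂ).1 (hs ▸ Submodule.mem_top (x := t))
  refine ⟨c, fun j => ?_⟩
  rw [← hc, Finset.sum_apply]
  simp only [Pi.smul_apply, smul_eq_mul]

theorem sep_da2 {N : ℕ} (u v : Fin N → ℂ) (hv : v ≠ 0) (h : ∀ c : ℂ, u ≠ c • v) :
    ∃ c : Fin N → ℂ, ∑ i, c i * u i = 1 ∧ ∑ i, c i * v i = 0 := by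
  obtain ⟨c, hc⟩ := onto_da2 (fun i => ![u i, v i]) (fun a ha => by
    simp only [Fin.sum_univ_two, Matrix.cons_val_zero, Matrix.cons_val_one] at ha
    have h0 : a 0 = 0 := by
      by_contra h0
      refine h (-(a 1 / a 0)) (funext fun i => ?_)
      have := ha i
      simp only [Pi.smul_apply, smul_eq_mul]
      field_simp
      linear_combination this
    have h1 : a 1 = 0 := by
      by_contra h1
      refine hv (funext fun i => ?_)
      have := ha i
      rw [h0, mul_zero, zero_add] at this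
      exact (mul_eq_zero.1 this).resolve_right h1
    funext j; fin_cases j
    · exact h0
    · exact h1) ![1, 0]
  exact ⟨c, hc 0, hc 1⟩

theorem jet_da2 {N : ℕ} (g : Fin N → C3 → ℂ) (hg : ∀ i, AnalyticAt ℂ (g i) 0)
    (h0 : (fun i => g i 0) ≠ 0)
    (h : ∀ (v : C3) (c : ℂ), (∀ i, fderiv ℂ (g i) 0 v = c * g i 0) → v = 0) (a : ℂ)
    (L : C3 →L[ℂ] ℂ) :
    ∃ c : Fin N → ℂ, ∑ i, c i * g i 0 = a ∧ fderiv ℂ (∑ i, c i • g i) 0 = L := by
  obtain ⟨c, hc⟩ := onto_da2 (fun i => ![g i 0, fderiv ℂ (g i) 0 (e3 0), fderiv ℂ (g i) 0 (e3 1),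
    fderiv ℂ (g i) 0 (e3 2)]) (fun b hb => by
    simp only [Fin.sum_univ_four, Matrix.cons_val_zero, Matrix.cons_val_one, Matrix.cons_val] at hb
    have hv := h (![b 1, b 2], b 3) (-b 0) fun i => by
      rw [clm_e3]
      simp only [Matrix.cons_val_zero, Matrix.cons_val_one]
      linear_combination hb i
    have h1 : b 1 = 0 := congrFun (congrArg Prod.fst hv) 0
    have h2 : b 2 = 0 := congrFun (congrArg Prod.fst hv) 1
    have h3 : b 3 = 0 := congrArg Prod.snd hv
    have h4 : b 0 = 0 := by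
      by_contra h4
      refine h0 (funext fun i => ?_)
      have := hb i
      rw [h1, h2, h3, mul_zero, mul_zero, mul_zero, add_zero, add_zero, add_zero] at this
      exact (mul_eq_zero.1 this).resolve_right h4
    funext j; fin_cases j
    · exact h4
    · exact h1
    · exact h2
    · exact h3) ![a, L (e3 0), L (e3 1), L (e3 2)]
  refine ⟨c, hc 0, ?_⟩
  have hd : fderiv ℂ (∑ i, c i • g i) 0 = ∑ i, c i • fderiv ℂ (g i) 0 :=
    (HasFDerivAt.sum fun i _ => (hg i).differentiableAt.hasFDerivAt.const_smul (c i)).fderiv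
  have he : ∀ j, fderiv ℂ (∑ i, c i • g i) 0 (e3 j) = L (e3 j) := fun j => by
    rw [hd, _root_.sum_apply]
    fin_cases j
    · exact hc 1
    · exact hc 2
    · exact hc 3
  refine ContinuousLinearMap.ext fun v => ?_
  rw [clm_e3, clm_e3 L, he, he, he]

theorem p_DA :
    S_DA := by
  classical
  rintro X m ⟨N, σ, val, hf, hv, hs, hx, hq⟩
  choose! g hg hg' using hq
  refine ⟨N, σ, fun i q => g q i, fun i => ⟨hf i, fun q hq => (hg q hq i).1⟩, ?_, ?_⟩
  · intro e he x hxe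
    obtain ⟨⟨c, hc, hc'⟩, h2⟩ := hx e he x hxe
    refine ⟨?_, h2, fun e' he' y hy c₀ h => ?_⟩
    · by_contra hn
      push Not at hn
      refine hv (X.ι x) (funext fun i => ?_)
      exact (mul_eq_zero.1 ((hc' i).symm.trans (hn i))).resolve_left hc
    · obtain ⟨⟨d, -, hd⟩, -⟩ := hx e' he' y hy
      refine X.emb.injective (hs _ _ (c₀ * d / c) (funext fun i => ?_))
      have := h i
      rw [hc', hd] at this
      simp only [Pi.smul_apply, smul_eq_mul]
      field_simp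
      linear_combination this
  · intro q hq
    refine ⟨fun e he p hp => ?_, fun q' hq' hne => ?_, fun a L => ?_⟩
    · obtain ⟨⟨d, -, hd⟩, -⟩ := hx e he p hp
      obtain ⟨c, h1, h2⟩ := sep_da2 (val q) (val (X.ι p)) (hv _)
        fun c h => hq ⟨p, (hs _ _ c h).symm⟩
      refine ⟨c, ?_, ?_⟩
      · simp only [Finset.sum_apply, Pi.smul_apply, smul_eq_mul, hd]
        simp only [mul_left_comm _ d, ← Finset.mul_sum, h2, mul_zero]
      · simp only [Finset.sum_apply, Pi.smul_apply, smul_eq_mul, (hg q hq _).2, h1]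
    · obtain ⟨c, h1, h2⟩ := sep_da2 (val q) (val q') (hv _) fun c h => hne (hs _ _ c h)
      refine ⟨c, ?_, ?_⟩
      · simp only [Finset.sum_apply, Pi.smul_apply, smul_eq_mul, (hg q hq _).2, h1]
      · simp only [Finset.sum_apply, Pi.smul_apply, smul_eq_mul, (hg q' hq' _).2, h2]
    · obtain ⟨c, h1, h2⟩ := jet_da2 (g q) (fun i => (hg q hq i).1.1)
        (fun h => hv q ((funext fun i => (hg q hq i).2.symm).trans h)) (hg' q hq) a L
      refine ⟨c, ?_, ?_⟩
      · simp only [Finset.sum_apply, Pi.smul_apply, smul_eq_mul, h1]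
      · rw [← h2, Finset.sum_apply]; rfl

end Pool.Agent.P.MP_ab0431_ag.UB.V2

namespace Pool.Agent.P.MP_ab0431_ag.UB.V2

open Polynomial Set Filter Topology Asymptotics MeasureTheory
open scoped Manifold ContDiff

theorem p_JET1 :
    S_JET1 := by
  classical
  intro X m N σ hσ hv r p e T hr hp he hT
  let τ : (Fin 20 → Fin N) → Sec X := fun f => ∏ i, σ (f i)
  let P : Submodule ℂ (Sec X) := Submodule.span ℂ (range σ)
  have m0 : ∀ i, σ i ∈ P := fun i => Submodule.subset_span ⟨i, rfl⟩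
  have an1 : ∀ s ∈ P, ∀ j, AnalyticAt ℂ (s (e j)) (e j (p j)) := fun s hs j =>
    isForm_analyticAt (m := m) (Submodule.span_induction (p := fun s _ => IsForm X.X m s)
      (by rintro _ ⟨i, rfl⟩; exact hσ i) isForm_zero
      (fun _ _ _ _ => isForm_add) (fun c _ _ => isForm_smul c) hs) (he j).1
        ((e j).map_source (he j).2)
  have an : ∀ {k : ℕ} {s : Sec X}, s ∈ P ^ k → ∀ j, AnalyticAt ℂ (s (e j)) (e j (p j)) :=
    fun hs j => Submodule.pow_induction_on_left P
      (C := fun s => AnalyticAt ℂ (s (e j)) (e j (p j))) (fun _ => analyticAt_const)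
      (fun _ _ a b => a.add b) (fun s hs _ b => (an1 s hs j).mul b) hs
  have sep : ∀ j k, k ≠ j → ∃ w ∈ P, w (e j) (e j (p j)) ≠ 0 ∧ w (e k) (e k (p k)) = 0 := by
    intro j k hk
    obtain ⟨i1, h1⟩ := (hv _ (he k).1 _ (he k).2).1
    have h2 := mt ((hv _ (he j).1 _ (he j).2).2.2 _ (he k).1 _ (he k).2
      (σ i1 (e j) (e j (p j)) / σ i1 (e k) (e k (p k)))) fun h => hk (hp h).symm
    obtain ⟨i, hi⟩ := not_forall.1 h2
    refine ⟨σ i - (σ i (e k) (e k (p k)) / σ i1 (e k) (e k (p k))) • σ i1,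
      sub_mem (m0 i) (P.smul_mem _ (m0 i1)), fun h => hi ?_, ?_⟩
    · simp only [Pi.sub_apply, Pi.smul_apply, smul_eq_mul] at h
      linear_combination h
    · simp only [Pi.sub_apply, Pi.smul_apply, smul_eq_mul, div_mul_cancel₀ _ h1, sub_self]
  have one : ∀ j, ∃ s ∈ P ^ 20, ∀ k, (fun y => s (e k) y - if j = k then T k y else 0)
      =O[𝓝 (e k (p k))] fun y => ‖y - e k (p k)‖ ^ 5 := by
    intro j
    obtain ⟨⟨i0, z0⟩, him, -⟩ := hv _ (he j).1 _ (he j).2
    let φ : Fin N → Sec X := fun i =>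
      σ i - (σ i (e j) (e j (p j)) / σ i0 (e j) (e j (p j))) • σ i0
    have mφ : ∀ i, φ i ∈ P := fun i => sub_mem (m0 i) (P.smul_mem _ (m0 i0))
    have zφ : ∀ i, φ i (e j) (e j (p j)) = 0 := fun i => by
      simp only [φ, Pi.sub_apply, Pi.smul_apply, smul_eq_mul, div_mul_cancel₀ _ z0, sub_self]
    obtain ⟨i1, i2, hj⟩ := minor_jet (fun i => φ i (e j)) (e j (p j)) fun v h =>
      him v (fderiv ℂ (σ i0 (e j)) (e j (p j)) v / σ i0 (e j) (e j (p j))) fun i => by
        have := h i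
        simp only [φ, Pi.sub_apply, Pi.smul_apply] at this
        rw [fderiv_sub (an1 _ (m0 i) j).differentiableAt
          ((an1 _ (m0 i0) j).differentiableAt.const_smul _),
          fderiv_const_smul (an1 _ (m0 i0) j).differentiableAt] at this
        simp only [_root_.sub_apply, _root_.smul_apply, smul_eq_mul] at this
        linear_combination this
    have hw : ∀ k, ∃ w ∈ P, k ≠ j → w (e j) (e j (p j)) ≠ 0 ∧ w (e k) (e k (p k)) = 0 :=
      fun k => by
        by_cases hk : k = j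
        · exact ⟨0, zero_mem _, fun h => absurd hk h⟩
        · exact (sep j k hk).imp fun _ h => ⟨h.1, fun _ => h.2⟩
    choose w mw hw using hw
    have mW := prod_jet (Finset.univ.erase j) mw
    have hc : (Finset.univ.erase j).card ≤ 2 := by
      rw [Finset.card_erase_of_mem (Finset.mem_univ j), Finset.card_univ, Fintype.card_fin]
      omega
    have W0 : (∏ k ∈ Finset.univ.erase j, w k) (e j) (e j (p j)) ≠ 0 := by
      simp only [Finset.prod_apply]
      exact Finset.prod_ne_zero_iff.2 fun k hk => (hw k (Finset.ne_of_mem_erase hk)).1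
    have W1 : ∀ k, k ≠ j → (∏ k ∈ Finset.univ.erase j, w k) (e k) (e k (p k)) = 0 :=
      fun k hk => by
        simp only [Finset.prod_apply]
        exact Finset.prod_eq_zero (Finset.mem_erase.2 ⟨hk, Finset.mem_univ k⟩) (hw k hk).2
    generalize ∏ k ∈ Finset.univ.erase j, w k = W at mW W0 W1
    generalize (Finset.univ.erase j).card = c at mW hc
    have m1 := Submodule.pow_mem_pow _ mW 5
    have m2 := Submodule.pow_mem_pow _ (m0 i0) (12 - c * 5)
    rw [← pow_mul] at m1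
    obtain ⟨a, ha⟩ := loc_jet t_TAY (an (Submodule.mul_mem_mul m1 m2 |> (pow_add P _ _).ge) j)
      (an1 _ (m0 i0) j) (an1 _ (mφ i1) j) (an1 _ (mφ i2) j) (hT j)
      (mul_ne_zero (pow_ne_zero _ W0) (pow_ne_zero _ z0)) z0 (zφ i1) (zφ i2) hj
    have m3 : ∑ i : Fin 5, ∑ l : Fin 5, a i l •
        (φ i1 ^ (i : ℕ) * φ i2 ^ (l : ℕ) * σ i0 ^ (8 - (i + l : ℕ))) ∈ P ^ 8 :=
      sum_mem fun i _ => sum_mem fun l _ => Submodule.smul_mem _ _ (by
        have := Submodule.mul_mem_mul (Submodule.mul_mem_mul (Submodule.pow_mem_pow _ (mφ i1) i)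
          (Submodule.pow_mem_pow _ (mφ i2) l)) (Submodule.pow_mem_pow _ (m0 i0) (8 - (i + l)))
        rwa [← pow_add, ← pow_add, show (i + l : ℕ) + (8 - (i + l)) = 8 by
          have := i.2; have := l.2; omega] at this)
    have m4 := Submodule.mul_mem_mul m2 m3
    have m5 := Submodule.mul_mem_mul m1 m4
    rw [← pow_add] at m4
    rw [← pow_add, ← pow_add, show c * 5 + (12 - c * 5 + 8) = 20 by omega] at m5
    refine ⟨_, m5, fun k => ?_⟩
    by_cases hk : j = k
    · subst hk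
      refine ha.congr_left fun y => ?_
      simp [mul_assoc]
    · have b1 := ((an mW k).differentiableAt.isBigO_sub.norm_right.pow 5).mul
        ((an m4 k).continuousAt.tendsto.isBigO_one ℝ)
      refine b1.congr (fun y => ?_) fun y => mul_one _
      simp only [W1 k (Ne.symm hk), if_neg hk, sub_zero]
      rfl
  choose s ms hs using one
  have m6 : ∑ j, s j ∈ Submodule.span ℂ (range τ) := by
    refine (?_ : P ^ 20 ≤ _) (sum_mem fun j _ => ms j)
    rw [Submodule.span_pow]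
    refine Submodule.span_mono fun x hx => ?_
    obtain ⟨f, rfl⟩ := Set.mem_pow.1 hx
    choose g hg using fun i => (f i).2
    exact ⟨g, by simp only [τ, hg, List.prod_ofFn]⟩
  obtain ⟨a, ha⟩ := (Submodule.mem_span_range_iff_exists_fun ℂ).1 m6
  refine ⟨a, fun k => (IsBigO.sum (s := Finset.univ) fun j _ => hs j k).congr_left fun y => ?_⟩
  rw [ha]
  simp

end Pool.Agent.P.MP_ab0431_ag.UB.V2

namespace Pool.Agent.P.MP_ab0431_ag.UB.V2

open Polynomial Set Filter Topology Asymptotics MeasureTheory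
open scoped Manifold ContDiff

theorem key_jet22 {A : Type} [CommRing A] [Algebra ℂ A] {n N : ℕ} (c : Fin n → Fin N → ℂ)
    (y : Fin N → A) :
    ∑ f : Fin n → Fin N, (∏ k, c k (f k)) • ∏ k, y (f k) = ∏ k, ∑ i, c k i • y i := by
  rw [Finset.prod_univ_sum, Fintype.piFinset_univ]
  exact Finset.sum_congr rfl fun f _ => (Finset.prod_smul _ _ _).symm

theorem pow_jet22 {A : Type} [CommRing A] [Algebra ℂ A] {n N : ℕ} (c : Fin N → ℂ)
    (y : Fin N → A) :
    ∑ f : Fin n → Fin N, (∏ k, c (f k)) • ∏ k, y (f k) = (∑ i, c i • y i) ^ n := by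
  rw [key_jet22 fun _ => c, Fin.prod_const]

theorem p_JET2 (hDA : S_DA) (hJET1 : S_JET1) :
    S_JET2 := by
  intro X m h
  obtain ⟨N, σ, g, hg, va, hq⟩ := hDA X m h
  have lin : ∀ c : Fin N → ℂ, Gr m (∑ i, c i • σ i) (∑ i, c i • g i) := fun c =>
    gr_sum _ fun i _ => (hg i).smul _
  refine ⟨⟨N, σ, fun i => (hg i).1, va⟩, N, fun f => ∏ k, σ (f k), fun f => ∏ k, g (f k),
    fun f => ?_, hJET1 X m N σ (fun i => (hg i).1) va, fun q h0 e he p hp => ?_,
    fun q h0 q' h1 ne => ?_, fun q h0 a L => ?_⟩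
  · simpa using gr_prod Finset.univ fun k _ => hg (f k)
  · obtain ⟨c, c0, c1⟩ := (hq q h0).1 e he p hp
    refine ⟨fun f => ∏ k, c (f k), ?_, ?_⟩
    · rw [pow_jet22]
      have o := (isForm_analyticAt (lin c).1 he (e.map_source hp)).differentiableAt.isBigO_sub
      simp only [c0, sub_zero] at o
      exact (o.norm_right.pow 20).trans (isLittleO_pow_sub_pow_sub _ (by norm_num)).isBigO
    · rw [pow_jet22, Pi.pow_apply, Pi.pow_apply, c1, one_pow]
  · obtain ⟨c, c0, c1⟩ := (hq q h0).2.1 q' h1 ne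
    refine ⟨fun f => ∏ k, c (f k), ?_, ?_⟩
    · rw [pow_jet22, Pi.pow_apply, Pi.pow_apply, c0, one_pow]
    · rw [pow_jet22, Pi.pow_apply, Pi.pow_apply, c1, zero_pow (by norm_num)]
  · obtain ⟨c, c0, c1⟩ := (hq q h0).2.2 a L
    obtain ⟨d, d0, d1⟩ := (hq q h0).2.2 1 0
    have e : ∏ k : Fin 20, ∑ i, (Fin.cons c fun _ => d : Fin 20 → Fin N → ℂ) k i • g i =
        (∑ i, c i • g i) * (∑ i, d i • g i) ^ 19 := by
      rw [Fin.prod_univ_succ]
      simp only [Fin.cons_zero, Fin.cons_succ, Fin.prod_const]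
    have hc := ((lin c).2 q h0).1.differentiableAt.hasFDerivAt
    have hd := ((lin d).2 q h0).1.differentiableAt.hasFDerivAt
    refine ⟨fun f => ∏ k, (Fin.cons c fun _ => d : Fin 20 → Fin N → ℂ) k (f k), ?_, ?_⟩
    · rw [key_jet22, e, Pi.mul_apply, Pi.mul_apply, Pi.pow_apply, Pi.pow_apply, c0, d0, one_pow,
        mul_one]
    · rw [key_jet22, e]
      refine (hc.mul (hd.pow 19)).fderiv.trans ?_
      rw [c1, d1, d0]
      exact ContinuousLinearMap.ext fun v => by simp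

end Pool.Agent.P.MP_ab0431_ag.UB.V2

namespace Pool.Agent.P.MP_ab0431_ag.UB.V2

open Polynomial Set Filter Topology Asymptotics MeasureTheory
open scoped Manifold ContDiff

theorem core_gene02
    {X : DSurf} {M : ℕ} {ι : Type} [Fintype ι] {τ : ι → Sec X} {r : ℕ} {t : Fin r → Ty}
    (σ : Equiv.Perm (Fin 3)) (hτ : ∀ i, IsForm X.X M (τ i)) (hJ : JetS τ) (hr : r ≤ 3)
    (ht : ∀ j i, (t j).n₀ i ≤ 5 ∧ (t j).n₁ i ≤ 4) {E : Type} [NormedAddCommGroup E]
    [NormedSpace ℂ E] [FiniteDimensional ℂ E] {c : E → ℂ} {γ β : Fin r → E → ℂ}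
    {α : Fin r → E → Fin 3 → ℂ} {ζ : Fin r → E → C2} (hc : ∀ q, AnalyticAt ℂ c q)
    (hγ : ∀ j q, AnalyticAt ℂ (γ j) q) (hβ : ∀ j q, AnalyticAt ℂ (β j) q)
    (hα : ∀ j i q, AnalyticAt ℂ (fun q => α j q i) q) (hζ : ∀ j q, AnalyticAt ℂ (ζ j) q)
    (hd : Module.finrank ℂ E < ∑ j, ∑ i, ((t j).n₀ i + (t j).n₁ i))
    (e : Fin r → OpenPartialHomeomorph X.X C2) (he : ∀ j, e j ∈ atlas C2 X.X)
    (sw : Fin r → Bool) :
    volume {a : Fin 3 → ι → ℂ | ∃ q, (∀ j, ζ j q ∈ (e j).target) ∧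
      (Function.Injective fun j => (e j).symm (ζ j q)) ∧ ∀ j i,
        Vn (cb_gene0 (c q) (γ j q) (β j q) (fun i => (∑ l, a (σ i) l • τ l) (e j)) i)
          (ζ j q) (sw j) (α j q) ((t j).n₀ i) ((t j).n₁ i)} = 0 := by
  have := X.t2
  let κ := Σ (j : Fin r) (i : Fin 3) (u : Bool), Fin (nn_gene0 (t j) i u)
  let Ω := {q | (∀ j, ζ j q ∈ (e j).target) ∧ Function.Injective fun j => (e j).symm (ζ j q)}
  let L0 : E → (Fin 3 → ι → ℂ) → κ → ℂ := fun q a k => ∑ l,
    cb_gene0 (c q) (γ k.1 q) (β k.1 q) (fun i => a (σ i) l) k.2.1 *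
      jt_gene0 (ζ k.1 q) (sw k.1) (α k.1 q) k.2.2.1 k.2.2.2 (τ l (e k.1))
  let L : E → (Fin 3 → ι → ℂ) →L[ℂ] κ → ℂ := fun q => LinearMap.toContinuousLinearMap
    { toFun := L0 q
      map_add' := fun a a' => by
        funext ⟨j, i, k⟩
        simp only [L0, Pi.add_apply, ← Finset.sum_add_distrib]
        refine Finset.sum_congr rfl fun l _ => ?_
        fin_cases i <;> simp [cb_gene0] <;> ring
      map_smul' := fun s a => by
        funext ⟨j, i, k⟩
        simp only [L0, Pi.smul_apply, smul_eq_mul, RingHom.id_apply, Finset.mul_sum]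
        refine Finset.sum_congr rfl fun l _ => ?_
        fin_cases i <;> simp [cb_gene0] <;> ring }
  have han : ∀ q ∈ Ω, ∀ j l, AnalyticAt ℂ (τ l (e j)) (ζ j q) := fun q hq j l =>
    isForm_analyticAt (hτ l) (he j) (hq.1 j)
  have hsec : ∀ (b : ι → ℂ) j, (∑ l, b l • τ l) (e j) = ∑ l, b l • τ l (e j) := fun b j => by
    simp
  have han' : ∀ q ∈ Ω, ∀ j (a : Fin 3 → ι → ℂ) i, AnalyticAt ℂ (cb_gene0 (c q) (γ j q) (β j q)
      (fun i => (∑ l, a (σ i) l • τ l) (e j)) i) (ζ j q) := fun q hq j a =>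
    cb_mem_gene0 (an_gene0 (ζ j q)) _ _ _ fun i => by
      rw [hsec]
      exact Submodule.sum_mem _ fun l _ => Submodule.smul_mem _ _ (han q hq j l)
  have hL : ∀ q ∈ Ω, ∀ a (k : κ), L q a k = jt_gene0 (ζ k.1 q) (sw k.1) (α k.1 q) k.2.2.1 k.2.2.2
      (cb_gene0 (c q) (γ k.1 q) (β k.1 q) (fun i => (∑ l, a (σ i) l • τ l) (e k.1)) k.2.1) := by
    rintro q hq a ⟨j, i, u, k⟩
    refine (jt_sum_gene0 _ _ _ _ (han q hq j) _).symm.trans (congrArg _ ?_)
    have := cb_map_gene0 (Fintype.linearCombination ℂ fun l => τ l (e j)) (c q) (γ j q) (β j q)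
      (fun i => a (σ i)) i
    simp only [Fintype.linearCombination_apply] at this
    simp only [hsec, ← this]
    exact Finset.sum_congr rfl fun l _ => congrArg (· • _)
      (cb_map_gene0 (LinearMap.proj l) (c q) (γ j q) (β j q) (fun i => a (σ i)) i).symm
  have : (volume : Measure (ι → ℂ)).IsAddHaarMeasure := Measure.pi.isAddHaarMeasure _
  have : (volume : Measure (Fin 3 → ι → ℂ)).IsAddHaarMeasure := Measure.pi.isAddHaarMeasure _
  refine measure_mono_null ?_ (t_GEN0 E _ κ volume Ω L ?_ ?_ ?_ ?_)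
  · rintro a ⟨q, h1, h2, h3⟩
    refine ⟨q, ⟨h1, h2⟩, funext fun k => (hL q ⟨h1, h2⟩ a k).trans ?_⟩
    obtain ⟨j, i, u, k⟩ := k
    refine (t_ORDB _ _ (tr_cv_gene0 (sw j) u (α j q) (han' q ⟨h1, h2⟩ j a i))).1.1 ?_ k k.2
    cases u
    exacts [(h3 j i).1, (h3 j i).2]
  · refine isOpen_iff_mem_nhds.2 fun q hq => ?_
    have h1 : ∀ j, ContinuousAt (fun q => (e j).symm (ζ j q)) q := fun j =>
      ((e j).continuousAt_symm (hq.1 j)).comp (hζ j q).continuousAt
    have h2 : ∀ j j', ∀ᶠ q' in 𝓝 q, (e j).symm (ζ j q') = (e j').symm (ζ j' q') → j = j' := by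
      intro j j'
      by_cases hj : j = j'
      · exact Eventually.of_forall fun _ _ => hj
      · exact (((h1 j).ne_iff_eventually_ne (h1 j')).1 fun a => hj (hq.2 a)).mono
          fun _ a b => absurd b a
    filter_upwards [eventually_all.2 fun j => (hζ j q).continuousAt.eventually
      ((e j).open_target.mem_nhds (hq.1 j)), eventually_all.2 fun j => eventually_all.2 (h2 j)]
      with q' a1 a2
    exact ⟨a1, fun j j' => a2 j j'⟩
  · refine (contDiffOn_clm_apply.2 fun a => contDiffOn_pi.2 fun k q hq =>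
      (AnalyticAt.contDiffAt (n := 1) ?_).contDiffWithinAt).differentiableOn one_ne_zero
    obtain ⟨j, i, u, k⟩ := k
    refine Finset.analyticAt_fun_sum _ fun l _ => AnalyticAt.fun_mul ?_ ?_
    · have h1 := hc q
      have h2 := hγ j q
      have h3 := hβ j q
      fin_cases i <;> simp [cb_gene0] <;> fun_prop
    · refine t_HOLD E (fun z => tr_gene0 (sw j) u (τ l (e j)) (cv (ζ j z.1) (sw j) (α j z.1) z.2))
        q k ((tr_an_gene0 (sw j) u (han q hq j l)).fun_comp_of_eq ?_ (cv_zero _ _ _))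
      have h1 := (hζ j q).fun_comp_of_eq (analyticAt_fst (F := ℂ) (p := (q, 0))) rfl
      have h2 := fun i => (hα j i q).fun_comp_of_eq (analyticAt_fst (F := ℂ) (p := (q, 0))) rfl
      have h3 := analyticAt_snd (𝕜 := ℂ) (F := ℂ) (p := (q, 0))
      exact (h1.fun_add (h3.fun_smul analyticAt_const)).fun_add (((((h2 0).fun_mul h3).fun_add
        ((h2 1).fun_mul (h3.fun_pow 2))).fun_add ((h2 2).fun_mul (h3.fun_pow 3))).fun_smul
          analyticAt_const)
  · intro q hq w
    let A : (j : Fin r) → (i : Fin 3) → Bool → ℕ → ℂ := fun j i u k =>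
      if h : k < nn_gene0 (t j) i u then w ⟨j, i, u, k, h⟩ else 0
    choose T hT1 hT2 using fun j i => t_JETF (ζ j q) (sw j) (α j q) (A j i false) (A j i true)
    have hp : ∀ j, e j ((e j).symm (ζ j q)) = ζ j q := fun j => (e j).right_inv (hq.1 j)
    choose a ha using fun i => hJ r (fun j => (e j).symm (ζ j q)) e
      (fun j => cb_gene0 (-c q) (β j q * c q - γ j q) (-β j q) (T j) i) hr hq.2
      (fun j => ⟨he j, (e j).map_target (hq.1 j)⟩) fun j => by
        rw [hp]; exact cb_mem_gene0 (an_gene0 (ζ j q)) _ _ _ (hT1 j) i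
    simp only [hp] at ha
    refine ⟨fun i => a (σ.symm i), funext fun k => (hL q hq _ k).trans ?_⟩
    obtain ⟨j, i, u, k⟩ := k
    have h1 := hT2 j i _ (han' q hq j (fun i => a (σ.symm i)) i) (by
      have := cb_mem_gene0 (o5_gene0 (ζ j q)) (c q) (γ j q) (β j q)
        (f := (fun i => (∑ l, a i l • τ l) (e j)) -
          cb_gene0 (-c q) (β j q * c q - γ j q) (-β j q) (T j)) (fun i => ha i j) i
      rw [cb_inv_gene0] at this
      simp only [Equiv.symm_apply_apply]
      exact this)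
    cases u
    · exact (h1.1 k (k.2.trans_le (ht j i).1)).trans (dif_pos k.2)
    · exact (h1.2 k (k.2.trans_le (ht j i).2)).trans (dif_pos k.2)
  · refine hd.trans_eq ?_
    simp only [κ, Fintype.card_sigma, Fintype.card_fin, Fintype.sum_bool]
    simp only [nn_gene0, add_comm]

theorem p_GENE0 :
    S_GENE0 := by
  intro X h M ι _ τ r t fc fg og σ hτ hJ hr ht hd
  let E := (Fin fc.toNat → ℂ) × (Fin fg.toNat → ℂ) × ∀ j : Fin r,
    C2 × (Fin (t j).nl → ℂ) × (Fin (og j).toNat → ℂ) × (Fin (t j).bt.toNat → ℂ)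
  have := h.cnt.to_subtype
  have hP : ∀ j (q : E), AnalyticAt ℂ (fun q : E => q.2.2 j) q := fun j q =>
    analyticAt_pi_iff.1 (analyticAt_snd.fun_comp analyticAt_snd) j
  refine measure_mono_null ?_ (measure_iUnion_null fun e : Fin r → range h.e =>
    measure_iUnion_null fun sw : Fin r → Bool =>
      core_gene02 σ hτ hJ hr (fun j => (ht j).2) (E := E)
        (c := fun q => ∑ k, q.1 k) (γ := fun j q => ∑ k, q.2.1 k + ∑ k, (q.2.2 j).2.2.1 k)
        (β := fun j q => ∑ k, (q.2.2 j).2.2.2 k)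
        (α := fun j q i => if h : (i : ℕ) < (t j).nl then (q.2.2 j).2.1 ⟨i, h⟩ else 0)
        (ζ := fun j q => (q.2.2 j).1) (fun q => ?_) (fun j q => ?_) (fun j q => ?_)
        (fun j i q => ?_) (fun j q => ?_) ?_ (fun j => e j) (fun j => ?_) sw)
  · rintro a ⟨p, c, g, γ, h1, h2, h3, h4, h5⟩
    choose β sw α b1 b2 b3 using h5
    refine mem_iUnion.2 ⟨fun j => ⟨h.e (p j), p j, rfl⟩, mem_iUnion.2 ⟨sw,
      (fun _ => c, fun _ => g, fun j => (h.pt (p j), fun k => α j (k.castLE (ht j).1),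
        fun _ => γ j, fun _ => β j)), fun j => (h.e (p j)).map_source (h.src _), ?_, ?_⟩⟩
    · have : ∀ j, (h.e (p j)).symm (h.pt (p j)) = p j := fun j => (h.e (p j)).left_inv (h.src _)
      simpa only [this] using h1
    · intro j i
      have e1 : (fun i : Fin 3 => if h : (i : ℕ) < (t j).nl then
          α j ((⟨i, h⟩ : Fin (t j).nl).castLE (ht j).1) else 0) = α j := by
        funext i
        split_ifs with hi
        exacts [rfl, (b2 j i (not_lt.1 hi)).symm]
      simp only [sum_bool_gene0 _ h2, sum_bool_gene0 _ h3, sum_bool_gene0 _ (h4 j),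
        sum_bool_gene0 _ (b1 j), e1]
      fin_cases i
      exacts [(b3 j).1, (b3 j).2.1, (b3 j).2.2]
  · exact sum_an_gene0 analyticAt_fst
  · exact (sum_an_gene0 (analyticAt_fst.fun_comp analyticAt_snd)).fun_add (sum_an_gene0
      (analyticAt_fst.fun_comp (analyticAt_snd.fun_comp (analyticAt_snd.fun_comp (hP j q)))))
  · exact sum_an_gene0
      (analyticAt_snd.fun_comp (analyticAt_snd.fun_comp (analyticAt_snd.fun_comp (hP j q))))
  · split_ifs
    · exact analyticAt_pi_iff.1 (analyticAt_fst.fun_comp (analyticAt_snd.fun_comp (hP j q))) _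
    · exact analyticAt_const
  · exact analyticAt_fst.fun_comp (hP j q)
  · refine lt_of_eq_of_lt ?_ hd
    simp [E, Module.finrank_pi_fintype, add_assoc]
  · obtain ⟨p, hp⟩ := (e j).2
    exact hp ▸ h.mem p

end Pool.Agent.P.MP_ab0431_ag.UB.V2

namespace Pool.Agent.P.MP_ab0431_ag.UB.V2

open Polynomial Set Filter Topology Asymptotics MeasureTheory
open scoped Manifold ContDiff

theorem nice_gene2 {X : DSurf} {h : Ch X} {s : Fin 3 → Sec X}
    (H : ∀ (r : ℕ) (t : Fin r → Ty) (fc fg : Bool) (og : Fin r → Bool), r ≤ 3 →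
      (∀ j, (t j).nl ≤ 3 ∧ ∀ i, (t j).n₀ i ≤ 5 ∧ (t j).n₁ i ≤ 4) →
      fc.toNat + fg.toNat + ∑ j, (2 + (t j).nl + (og j).toNat + (t j).bt.toNat) <
        ∑ j, ∑ i, ((t j).n₀ i + (t j).n₁ i) →
      ¬∃ (p : Fin r → X.X) (c g : ℂ) (γ : Fin r → ℂ),
        Function.Injective p ∧ (fc = false → c = 0) ∧ (fg = false → g = 0) ∧
        (∀ j, og j = false → γ j = 0) ∧ ∀ j, h.Evt s (t j) (p j) c (g + γ j)) : Nice h s := by
  have i1 : ∀ p : X.X, Function.Injective ![p] := fun p => Function.injective_of_subsingleton _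
  refine ⟨fun p e => ?_, fun p e => ?_, fun p c γ e => ?_, fun p c γ e => ?_, fun p c e => ?_,
    fun p c γ e => ?_, fun p c γ e => ?_, fun t t' p p' c γ γ' a a' n e e' => ?_,
    fun t p p' c γ a n e e' => ?_, fun p p' p'' c γ n n' n'' e e' e'' => ?_, fun t p γ a e => ?_,
    fun p p' γ n e e' => ?_⟩
  · exact H 1 ![tN1] false false ![false] (by decide) (by decide) (by decide)
      ⟨![p], 0, 0, 0, i1 p, by simp, by simp, by simp, by simpa using e⟩
  · exact H 1 ![tN2] false false ![false] (by decide) (by decide) (by decide)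
      ⟨![p], 0, 0, 0, i1 p, by simp, by simp, by simp, by simpa using e⟩
  · exact H 1 ![tS] true true ![false] (by decide) (by decide) (by decide)
      ⟨![p], c, γ, 0, i1 p, by simp, by simp, by simp, by simpa using e⟩
  · exact H 1 ![tZ] true true ![false] (by decide) (by decide) (by decide)
      ⟨![p], c, γ, 0, i1 p, by simp, by simp, by simp, by simpa using e⟩
  · exact H 1 ![tT1] true false ![false] (by decide) (by decide) (by decide)
      ⟨![p], c, 0, 0, i1 p, by simp, by simp, by simp, by simpa using e⟩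
  · exact H 1 ![tT2] true true ![false] (by decide) (by decide) (by decide)
      ⟨![p], c, γ, 0, i1 p, by simp, by simp, by simp, by simpa using e⟩
  · exact H 1 ![tB4] true true ![false] (by decide) (by decide) (by decide)
      ⟨![p], c, γ, 0, i1 p, by simp, by simp, by simp, by simpa using e⟩
  · refine H 2 ![t, t'] true false ![true, true] (by decide) ?_ ?_
      ⟨![p, p'], c, 0, ![γ, γ'], inj_gene n, by simp, by simp, by simp, by simpa using ⟨e, e'⟩⟩ <;>
    rcases a with rfl | rfl <;> rcases a' with rfl | rfl <;> decide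
  · refine H 2 ![t, tR] true true ![false, false] (by decide) ?_ ?_
      ⟨![p, p'], c, γ, 0, inj_gene n, by simp, by simp, by simp, by simpa using ⟨e, e'⟩⟩ <;>
    rcases a with rfl | rfl <;> decide
  · exact H 3 ![tR, tR, tR] true true ![false, false, false] (by decide) (by decide) (by decide)
      ⟨![p, p', p''], c, γ, 0, inj3_gene n n' n'', by simp, by simp, by simp,
        by simpa [Fin.forall_fin_succ] using ⟨e, e', e''⟩⟩
  · refine H 1 ![t] false false ![true] (by decide) ?_ ?_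
      ⟨![p], 0, 0, ![γ], i1 p, by simp, by simp, by simp, by simpa using e⟩ <;>
    rcases a with rfl | rfl <;> decide
  · exact H 2 ![tR, tR] false true ![false, false] (by decide) (by decide) (by decide)
      ⟨![p, p'], 0, γ, 0, inj_gene n, by simp, by simp, by simp, by simpa using ⟨e, e'⟩⟩

theorem p_GENE (hGENE0 : S_GENE0) :
    S_GENE := by
  intro X h M ι _ τ hM hτ hJ
  have := cnt_gene
  have ha : ∀ᵐ a : Fin 3 → ι → ℂ, ∀ σ : Equiv.Perm (Fin 3),
      Nice h fun i => ∑ l, a (σ i) l • τ l := by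
    refine ae_all_iff.2 fun σ => ?_
    refine Eventually.mono ?_ fun a => nice_gene2
    simp only [ae_all_iff]
    exact fun r t fc fg og h1 h2 h3 =>
      measure_eq_zero_iff_ae_notMem.1 (hGENE0 X h M ι τ r t fc fg og σ hτ hJ h1 h2 h3)
  filter_upwards [ha] with a ha
  refine ⟨hM, fun i => isForm_sum _ fun l _ => isForm_smul _ (hτ l), ha 1, ?_⟩
  refine (congrArg (Nice h) ?_).mp (ha (Equiv.swap 0 1))
  funext i
  fin_cases i <;> rfl

end Pool.Agent.P.MP_ab0431_ag.UB.V2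

namespace Pool.Agent.P.MP_ab0431_ag.UB.V2

open Polynomial Set Filter Topology Asymptotics MeasureTheory
open scoped Manifold ContDiff

theorem core_gmix2 {X : DSurf} {M : ℕ} {ι : Type} [Fintype ι] {τ : ι → Sec X} {Γ : ι → Gm X}
    {q : X.B} (H : Sys M τ Γ) (hq : q ∉ range X.ι) {e : OpenPartialHomeomorph X.X C2}
    (he : e ∈ atlas C2 X.X) (sw : Bool) :
    volume {a : Fin 3 → ι → ℂ | ∃ x : C2 × ℂ × (Fin 2 → ℂ), x.1 ∈ e.target ∧ ∀ i : Fin 2,
      ∑ l, (a i.succ l - x.2.2 i * a 0 l) * Γ l q 0 = 0 ∧ ∀ k < 2, jt_gene0 x.1 sw ![x.2.1, 0, 0]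
        false k (∑ l, (a i.succ l - x.2.2 i * a 0 l) • τ l e) = 0} = 0 := by
  let w : C2 × ℂ × (Fin 2 → ℂ) → Option (Fin 2) → ι → ℂ := fun x k l =>
    k.elim (Γ l q 0) fun k => jt_gene0 x.1 sw ![x.2.1, 0, 0] false k (τ l e)
  let L : C2 × ℂ × (Fin 2 → ℂ) → (Fin 3 → ι → ℂ) →L[ℂ] Fin 2 × Option (Fin 2) → ℂ := fun x =>
    LinearMap.toContinuousLinearMap
    { toFun := fun a k => ∑ l, (a k.1.succ l - x.2.2 k.1 * a 0 l) * w x k.2 l
      map_add' := fun a a' => by
        funext k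
        simp only [Pi.add_apply, ← Finset.sum_add_distrib]
        exact Finset.sum_congr rfl fun l _ => by ring
      map_smul' := fun s a => by
        funext k
        simp only [Pi.smul_apply, smul_eq_mul, RingHom.id_apply, Finset.mul_sum]
        exact Finset.sum_congr rfl fun l _ => by ring }
  have han : ∀ ζ ∈ e.target, ∀ l, AnalyticAt ℂ (τ l e) ζ := fun ζ h l =>
    isForm_analyticAt (H.gr l).1 he h
  have : (volume : Measure (ι → ℂ)).IsAddHaarMeasure := Measure.pi.isAddHaarMeasure _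
  have : (volume : Measure (Fin 3 → ι → ℂ)).IsAddHaarMeasure := Measure.pi.isAddHaarMeasure _
  refine measure_mono_null ?_ (t_GEN0 _ _ _ volume (Prod.fst ⁻¹' e.target) L
    (e.open_target.preimage continuous_fst) ?_ ?_ (by simp))
  · rintro a ⟨x, h1, h2⟩
    refine ⟨x, h1, funext ?_⟩
    rintro ⟨i, _ | k⟩
    exacts [(h2 i).1, (jt_sum_gene0 _ _ _ _ (han _ h1) _).symm.trans ((h2 i).2 k k.2)]
  · refine (contDiffOn_clm_apply.2 fun a => contDiffOn_pi.2 fun k x hx =>
      (AnalyticAt.contDiffAt (n := 1) ?_).contDiffWithinAt).differentiableOn one_ne_zero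
    obtain ⟨i, k⟩ := k
    refine Finset.analyticAt_fun_sum _ fun l _ => AnalyticAt.fun_mul (analyticAt_const.fun_sub
      ((analyticAt_pi_iff.1 (analyticAt_snd.fun_comp analyticAt_snd) i).fun_mul
        analyticAt_const)) ?_
    obtain _ | k := k
    · exact analyticAt_const
    · refine t_HOLD _ (fun z => τ l e (cv z.1.1 sw ![z.1.2.1, 0, 0] z.2))
        x k ((han _ hx l).fun_comp_of_eq ?_ (cv_zero _ _ _))
      have h3 := analyticAt_snd (𝕜 := ℂ) (F := ℂ) (p := (x, 0))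
      exact ((analyticAt_fst.fun_comp analyticAt_fst).fun_add (h3.fun_smul analyticAt_const)).fun_add
        (((((analyticAt_fst.fun_comp (analyticAt_snd.fun_comp analyticAt_fst)).fun_mul h3).fun_add
        (analyticAt_const.fun_mul (h3.fun_pow 2))).fun_add
          (analyticAt_const.fun_mul (h3.fun_pow 3))).fun_smul analyticAt_const)
  · intro x hx v
    have hp : e (e.symm x.1) = x.1 := e.right_inv hx
    obtain ⟨b', b1, b2⟩ := H.pq q hq e he _ (e.map_target hx)
    choose T hT1 hT2 using fun i : Fin 2 => t_JETF x.1 sw ![x.2.1, 0, 0]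
      (fun k => if h : k < 2 then v (i, some ⟨k, h⟩) else 0) 0
    choose b hb using fun i => H.jet 1 (fun _ => e.symm x.1) (fun _ => e) (fun _ => T i)
      (by norm_num) (fun _ _ _ => Subsingleton.elim _ _) (fun _ => ⟨he, e.map_target hx⟩)
      fun _ => by rw [hp]; exact hT1 i
    simp only [hp] at hb b1
    simp only [Finset.sum_apply, Pi.smul_apply, smul_eq_mul] at b2
    let t : Fin 2 → ℂ := fun i => v (i, none) - ∑ l, b i l * Γ l q 0
    refine ⟨Fin.cons 0 fun i => b i + t i • b', funext ?_⟩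
    rintro ⟨i, k⟩
    change ∑ l, ((b i l + t i * b' l) - x.2.2 i * 0) * w x k l = _
    simp only [mul_zero, sub_zero]
    obtain _ | k := k
    · change ∑ l, (b i l + t i * b' l) * Γ l q 0 = _
      simp only [add_mul, mul_assoc, Finset.sum_add_distrib, ← Finset.mul_sum, b2, t]
      ring
    · refine (jt_sum_gene0 _ _ _ _ (han _ hx) _).symm.trans (((hT2 i _
        ((an_gene0 x.1).sum_mem fun l _ => Submodule.smul_mem _ _ (han _ hx l)) ?_).1 k
          (by omega)).trans (dif_pos k.2))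
      refine ((hb i 0).add (b1.const_mul_left (t i))).congr_left fun y => ?_
      simp only [Finset.sum_apply, Pi.smul_apply, smul_eq_mul, add_mul, mul_assoc,
        Finset.sum_add_distrib, ← Finset.mul_sum]
      ring

theorem p_GMIX :
    S_GMIX := by
  intro X h M ι _ τ Γ q H hq
  have := h.cnt.to_subtype
  refine measure_mono_null ?_ (measure_iUnion_null fun e : range h.e =>
    measure_iUnion_null fun sw : Bool => core_gmix2 H hq (e := e)
      (let ⟨p, hp⟩ := e.2; hp ▸ h.mem p) sw)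
  intro a ha
  simp only [mem_compl_iff, mem_ofPred_eq, not_forall, not_not] at ha
  obtain ⟨p, c, γ, h1, h2, β, sw, α, b1, b2, -, b3, b4⟩ := ha
  have hp : h.pt p ∈ (h.e p).target := (h.e p).map_source (h.src p)
  obtain rfl := b1 rfl
  have e1 : ![α 0, 0, 0] = α := by
    funext i
    fin_cases i
    exacts [rfl, (b2 1 (by decide)).symm, (b2 2 (by decide)).symm]
  have key : ∀ (i : Fin 3) (c : ℂ), (∑ l, a i l • Γ l) q 0 = c * (∑ l, a 0 l • Γ l) q 0 →
      ((fun v => ((∑ l, a i l • τ l) (h.e p) - c • (∑ l, a 0 l • τ l) (h.e p))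
        (cv (h.pt p) sw α v)) =O[𝓝 0] fun v : ℂ => v ^ 2) →
      ∑ l, (a i l - c * a 0 l) * Γ l q 0 = 0 ∧ ∀ k < 2, jt_gene0 (h.pt p) sw α false k
        (∑ l, (a i l - c * a 0 l) • τ l (h.e p)) = 0 := fun i c k1 k2 => by
    refine ⟨?_, (t_ORDB _ _ (tr_cv_gene0 sw false α ((an_gene0 _).sum_mem fun l _ =>
      Submodule.smul_mem _ _ (isForm_analyticAt (H.gr l).1 (h.mem p) hp)))).1.1
        (k2.congr_left fun v => ?_)⟩
    · simp only [Finset.sum_apply, Pi.smul_apply, smul_eq_mul] at k1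
      simp only [sub_mul, mul_assoc, Finset.sum_sub_distrib, ← Finset.mul_sum, k1, sub_self]
    · simp only [tr_gene0, Pi.sub_apply, Finset.sum_apply, Pi.smul_apply, smul_eq_mul, sub_mul,
        mul_assoc, Finset.sum_sub_distrib, ← Finset.mul_sum]
  refine mem_iUnion.2 ⟨⟨h.e p, p, rfl⟩, mem_iUnion.2 ⟨sw, (h.pt p, α 0, ![c, γ]), hp, fun i => ?_⟩⟩
  simp only [e1]
  fin_cases i
  · exact key 1 c h1 b3.1
  · rw [zero_smul, sub_zero] at b4
    exact key 2 γ h2 b4.1

end Pool.Agent.P.MP_ab0431_ag.UB.V2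

namespace Pool.Agent.P.MP_ab0431_ag.UB.V2

open Polynomial Set Filter Topology Asymptotics MeasureTheory
open scoped Manifold ContDiff

theorem od_gopn2 {W : Type} [NormedAddCommGroup W] [NormedSpace ℂ W] {f : W → ℂ}
    (hf : ∀ a, AnalyticAt ℂ f a) (h : ∃ a, f a ≠ 0) :
    IsOpen {a | f a ≠ 0} ∧ Dense {a | f a ≠ 0} := by
  have hc : Continuous f := continuous_iff_continuousAt.2 fun a => (hf a).continuousAt
  refine ⟨isOpen_ne_fun hc continuous_const, fun a => ?_⟩
  by_contra c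
  obtain ⟨b, hb⟩ := h
  rw [mem_closure_iff_frequently, not_frequently] at c
  exact hb (AnalyticOnNhd.eqOn_zero_of_preconnected_of_eventuallyEq_zero (U := univ)
    (fun a _ => hf a) isPreconnected_univ (mem_univ a) (c.mono fun y hy => not_not.1 hy)
    (mem_univ b))

theorem fin_gopn2 {W α : Type} [TopologicalSpace W] [BaireSpace W] {S : Set α} (hS : S.Finite)
    {P : α → W → Prop} (h : ∀ q ∈ S, IsOpen {a | P q a} ∧ Dense {a | P q a}) :
    IsOpen {a | ∀ q ∈ S, P q a} ∧ Dense {a | ∀ q ∈ S, P q a} := by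
  have e : {a | ∀ q ∈ S, P q a} = ⋂ q ∈ S, {a | P q a} := by ext a; simp
  rw [e]
  exact ⟨hS.isOpen_biInter fun q hq => (h q hq).1,
    dense_biInter_of_isOpen (fun q hq => (h q hq).1) hS.countable fun q hq => (h q hq).2⟩

theorem hes_gopn2 {D : C2 → ℂ} (hD : AnalyticAt ℂ D 0) : hes D (0, 1) = 2 := by
  have hD' : AnalyticAt ℂ (fun v : C3 => D v.1) 0 :=
    hD.comp_of_eq (f := fun v : C3 => v.1) analyticAt_fst rfl
  have hH : AnalyticAt ℂ (Hd D) 0 := (analyticAt_snd.pow 2).sub hD'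
  have h1 : (fun v : C3 => fderiv ℂ (Hd D) v (0, 1)) =ᶠ[𝓝 0] fun v => 2 * v.2 := by
    have : ∀ᶠ v : C3 in 𝓝 0, AnalyticAt ℂ D v.1 :=
      (continuous_fst.tendsto' (0 : C3) 0 rfl).eventually hD.eventually_analyticAt
    filter_upwards [this] with v hv
    have h2 : HasFDerivAt (Hd D) _ v := (hasFDerivAt_snd.pow 2).sub
      (hv.differentiableAt.hasFDerivAt.comp v hasFDerivAt_fst)
    rw [h2.fderiv]
    simp
  have h3 : HasFDerivAt (fun v : C3 => fderiv ℂ (Hd D) v (0, 1)) _ 0 :=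
    (ContinuousLinearMap.apply ℂ ℂ ((0, 1) : C3)).hasFDerivAt.comp 0
      hH.fderiv.differentiableAt.hasFDerivAt
  have h4 : HasFDerivAt (fun v : C3 => 2 * v.2) _ (0 : C3) :=
    (hasFDerivAt_snd (𝕜 := ℂ) (E := C2) (F := ℂ)).const_mul 2
  have h5 := congrArg (fun T => T ((0, 1) : C3)) (h3.unique (h4.congr_of_eventuallyEq h1))
  simpa [hes] using h5

theorem lin_gopn2 {ι : Type} [Fintype ι] (i : Fin 3) (c : ι → ℂ) (a₀ : Fin 3 → ι → ℂ) :
    AnalyticAt ℂ (fun a : Fin 3 → ι → ℂ => ∑ l, a i l * c l) a₀ :=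
  Finset.analyticAt_fun_sum _ fun l _ =>
    (((ContinuousLinearMap.proj l : (ι → ℂ) →L[ℂ] ℂ).comp
      (ContinuousLinearMap.proj i : (Fin 3 → ι → ℂ) →L[ℂ] ι → ℂ)).analyticAt a₀).mul
      analyticAt_const

theorem p_GOPN :
    S_GOPN := by
  intro X M ι _ τ Γ H
  have hv : ∀ (i : Fin 3) (q : X.B) (a₀ : Fin 3 → ι → ℂ),
      AnalyticAt ℂ (fun a : Fin 3 → ι → ℂ => (∑ l, a i l • Γ l) q 0) a₀ := fun i q a₀ => by
    simp only [Finset.sum_apply, Pi.smul_apply, smul_eq_mul]
    exact lin_gopn2 i _ a₀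
  have hd : ∀ (i : Fin 3), ∀ q ∉ range X.ι, ∀ (v : C3) (a₀ : Fin 3 → ι → ℂ),
      AnalyticAt ℂ (fun a : Fin 3 → ι → ℂ => fderiv ℂ ((∑ l, a i l • Γ l) q) 0 v) a₀ :=
    fun i q hq v a₀ => by
      have e : ∀ a : Fin 3 → ι → ℂ, fderiv ℂ ((∑ l, a i l • Γ l) q) 0 v =
          ∑ l, a i l * fderiv ℂ (Γ l q) 0 v := fun a => by
        have h1 : HasFDerivAt (∑ l, a i l • Γ l q) (∑ l, a i l • fderiv ℂ (Γ l q) 0) 0 :=
          HasFDerivAt.sum fun l _ =>
            ((H.gr l).2 q hq).1.differentiableAt.hasFDerivAt.const_smul (a i l)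
        rw [Finset.sum_apply]
        simp only [Pi.smul_apply]
        rw [h1.fderiv]
        simp
      simp only [e]
      exact lin_gopn2 i _ a₀
  have hl : ∀ (j : Fin 3), ∀ q ∉ range X.ι, ∀ (v : C3) (a₀ : Fin 3 → ι → ℂ),
      AnalyticAt ℂ (fun a : Fin 3 → ι → ℂ =>
        lin ((∑ l, a 0 l • Γ l) q) ((∑ l, a j l • Γ l) q) v) a₀ := fun j q hq v a₀ =>
    ((hv 0 q a₀).mul (hd j q hq v a₀)).sub ((hv j q a₀).mul (hd 0 q hq v a₀))
  have A := fin_gopn2 (W := Fin 3 → ι → ℂ) X.fin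
    (P := fun q a => (∑ l, a 0 l • Γ l) q 0 ≠ 0) fun q hq => od_gopn2 (hv 0 q) (by
      obtain ⟨a, h, -⟩ := H.q1 q hq 1 0
      exact ⟨fun _ => a, h ▸ one_ne_zero⟩)
  have B := fin_gopn2 (W := Fin 3 → ι → ℂ) X.fin
    (P := fun q a => hes (X.D q) (crs (lin ((∑ l, a 0 l • Γ l) q) ((∑ l, a 1 l • Γ l) q))
      (lin ((∑ l, a 0 l • Γ l) q) ((∑ l, a 2 l • Γ l) q))) ≠ 0) fun q hq => od_gopn2 (fun a₀ => by
      have hc : AnalyticAt ℂ (fun a : Fin 3 → ι → ℂ =>
          crs (lin ((∑ l, a 0 l • Γ l) q) ((∑ l, a 1 l • Γ l) q))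
            (lin ((∑ l, a 0 l • Γ l) q) ((∑ l, a 2 l • Γ l) q))) a₀ := by
        refine AnalyticAt.prod (analyticAt_pi_iff.2 fun k => ?_)
          (((hl 1 q hq _ a₀).mul (hl 2 q hq _ a₀)).sub ((hl 1 q hq _ a₀).mul (hl 2 q hq _ a₀)))
        fin_cases k <;>
          exact ((hl 1 q hq _ a₀).mul (hl 2 q hq _ a₀)).sub ((hl 1 q hq _ a₀).mul (hl 2 q hq _ a₀))
      exact ((fderiv ℂ (fderiv ℂ (Hd (X.D q))) 0).analyticAt_bilinear _).comp₂ hc hc) (by
      obtain ⟨a₀, a1, a2⟩ := H.q1 q hq 1 0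
      obtain ⟨a₁, b1, b2⟩ := H.q1 q hq 0
        ((ContinuousLinearMap.proj 0).comp (ContinuousLinearMap.fst ℂ C2 ℂ))
      obtain ⟨a₂, c1, c2⟩ := H.q1 q hq 0
        ((ContinuousLinearMap.proj 1).comp (ContinuousLinearMap.fst ℂ C2 ℂ))
      refine ⟨![a₀, a₁, a₂], ?_⟩
      show hes (X.D q) (crs (lin ((∑ l, a₀ l • Γ l) q) ((∑ l, a₁ l • Γ l) q))
        (lin ((∑ l, a₀ l • Γ l) q) ((∑ l, a₂ l • Γ l) q))) ≠ 0
      rw [lin, lin, a1, a2, b1, b2, c1, c2]
      have e : crs ((1 : ℂ) • (ContinuousLinearMap.proj 0).comp (ContinuousLinearMap.fst ℂ C2 ℂ) -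
          (0 : ℂ) • 0) ((1 : ℂ) • (ContinuousLinearMap.proj 1).comp
            (ContinuousLinearMap.fst ℂ C2 ℂ) - (0 : ℂ) • 0) = (0, 1) := by
        refine Prod.ext (funext fun k => ?_) ?_
        · fin_cases k <;> simp [crs, e3]
        · simp [crs, e3]
      rw [e, hes_gopn2 (iso_q X hq).an]
      exact two_ne_zero)
  have C := fin_gopn2 (W := Fin 3 → ι → ℂ) X.fin
    (P := fun q a => ∀ q' ∈ (range X.ι)ᶜ \ {q},
      (∑ l, a 1 l • Γ l) q 0 * (∑ l, a 0 l • Γ l) q' 0 -
        (∑ l, a 1 l • Γ l) q' 0 * (∑ l, a 0 l • Γ l) q 0 ≠ 0) fun q hq =>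
    fin_gopn2 (X.fin.subset sdiff_subset) fun q' hq' => od_gopn2
      (fun a₀ => ((hv 1 q a₀).mul (hv 0 q' a₀)).sub ((hv 1 q' a₀).mul (hv 0 q a₀))) (by
      obtain ⟨a₁, b1, b2⟩ := H.qq q hq q' hq'.1 fun e => hq'.2 e.symm
      obtain ⟨a₀, a1, a2⟩ := H.qq q' hq'.1 q hq hq'.2
      refine ⟨![a₀, a₁, a₁], ?_⟩
      show (∑ l, a₁ l • Γ l) q 0 * (∑ l, a₀ l • Γ l) q' 0 -
        (∑ l, a₁ l • Γ l) q' 0 * (∑ l, a₀ l • Γ l) q 0 ≠ 0
      rw [a1, a2, b1, b2]
      simp)
  refine ⟨_, (A.1.inter B.1).inter C.1,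
    ((A.2.inter_of_isOpen_left B.2 A.1).inter_of_isOpen_left C.2 (A.1.inter B.1)).nonempty,
    fun a ⟨⟨h1, h2⟩, h3⟩ => ⟨h1, h2, fun q hq q' hq' e => ?_⟩⟩
  by_contra c
  exact h3 q hq q' ⟨hq', fun e' => c (Eq.symm e')⟩ (sub_eq_zero.2 e)

end Pool.Agent.P.MP_ab0431_ag.UB.V2
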