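import Pool.Agent.P.MP_ab0431_ag.UB2.IfaceA

/-! Steps GENE2 PT1 PT2 JFORM RM0 AM0 AM1 PUA OM0. -/

set_option autoImplicit false
set_option linter.unusedSectionVars false
set_option linter.unusedVariables false

namespace Pool.Agent.P.MP_ab0431_ag.UB.V2

open Polynomial Set Filter Topology Asymptotics MeasureTheory
open scoped Manifold ContDiff

theorem p_GENE2 (hGENE : S_GENE) (hGMIX : S_GMIX) (hGOPN : S_GOPN) :
    S_GENE2 := by
  intro X h M ι _ τ Γ hM hS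
  obtain ⟨O, hO, hne, hopn⟩ := hGOPN X M ι τ Γ hS
  have : (volume : Measure (ι → ℂ)).IsOpenPosMeasure := Measure.pi.isOpenPosMeasure _
  have : (volume : Measure (Fin 3 → ι → ℂ)).IsOpenPosMeasure := Measure.pi.isOpenPosMeasure _
  have h1 := hGENE X h M ι τ hM (fun l => (hS.gr l).1) hS.jet
  have h2 := (ae_ball_iff X.fin.countable).2 fun q hq => hGMIX X h M ι τ Γ q hS hq
  obtain ⟨a, ha, k1, k2⟩ := Measure.exists_mem_of_measure_ne_zero_of_ae
    (hO.measure_pos (volume : Measure (Fin 3 → ι → ℂ)) hne).ne' (ae_restrict_of_ae (h1.and h2))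
  refine ⟨_, fun i => ∑ l, a i l • Γ l, k1,
    fun i => gr_sum _ fun l _ => (hS.gr l).smul _, hopn a ha, fun q hq p => ?_⟩
  have h0 := (hopn a ha).g0 q hq
  exact k2 q hq p _ _ (div_mul_cancel₀ _ h0).symm (div_mul_cancel₀ _ h0).symm

end Pool.Agent.P.MP_ab0431_ag.UB.V2

namespace Pool.Agent.P.MP_ab0431_ag.UB.V2

open Polynomial Set Filter Topology Asymptotics MeasureTheory
open scoped Manifold ContDiff

theorem an_pt12 {X : DSurf} {M : ℕ} {h : Ch X} {s : Fin 3 → Sec X} (H : Tri M h s) (p : X.X)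
    (i : Fin 3) : AnalyticAt ℂ (s i (h.e p)) (h.pt p) :=
  isForm_analyticAt (H.form i) (h.mem p) ((h.e p).map_source (h.src p))

theorem key_pt12 (hLC : S_LC) (hLTU : S_LTU) (hWJ : S_WJ) {X : DSurf} {M : ℕ} {h : Ch X}
    {s : Fin 3 → Sec X} (H : Tri M h s) (p : X.X) (h0 : h.vl (s 0) p ≠ 0)
    (hJ : h.vl (J1 M s) p = 0) : fderiv ℂ (J1 M s (h.e p)) (h.pt p) ≠ 0 ∧
      (h.vl (s 1) p = 0 → h.vl (J2 M s) p ≠ 0) := by
  have an := an_pt12 H p
  have M0 : M ≠ 0 := by have := H.pos; omega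
  obtain ⟨-, w2, w3⟩ := hWJ M (fun i => s i (h.e p)) (h.pt p) M0 an h0
  obtain ⟨w3, w4⟩ := w3 hJ
  have hj : jac (s 1 (h.e p) / s 0 (h.e p)) (s 2 (h.e p) / s 0 (h.e p)) (h.pt p) = 0 :=
    (mul_eq_zero.1 (w2.self_of_nhds.symm.trans hJ)).resolve_left
      (mul_ne_zero (Nat.cast_ne_zero.2 M0) (pow_ne_zero 3 h0))
  obtain ⟨c1, c2⟩ := hLC _ _ _ ((an 1).div (an 0) h0) ((an 2).div (an 0) h0) hj
  have tu := fun t c γ => hLTU t (fun i => s i (h.e p)) (h.pt p) c γ an h0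
  refine ⟨fun e => ?_, fun e1 e => ?_⟩
  · rcases c2 (w3.1 e) with a | a | a
    · exact H.nice.sg p _ _ (tu _ _ _ (by decide) rfl a)
    · exact H.nice.zz p _ _ (tu _ _ _ (by decide) rfl a)
    · exact H.nice.t2 p _ _ (tu _ _ _ (by decide) rfl a)
  · have z : (s 1 (h.e p) / s 0 (h.e p)) (h.pt p) = 0 := div_eq_zero_iff.2 (.inl e1)
    rcases c1 (w4.1 e) with a | a <;> rw [z] at a
    · exact H.nice.inf1 _ p _ (.inl rfl) (tu _ _ _ (by decide) rfl a)
    · exact H.nice.inf1 _ p _ (.inr rfl) (tu _ _ _ (by decide) rfl a)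

theorem p_PT1 :
    S_PT1 := by
  have hLR := t_LR
  have hLC := t_LC
  have hLTU := t_LTU
  have hWJ := t_WJ
  intro X M h s p H
  have an := an_pt12 H p
  have e3 : (fun i => s i (h.e p)) = ![s 0 (h.e p), s 1 (h.e p), s 2 (h.e p)] := by
    funext i; fin_cases i <;> rfl
  have lr := (hLR _ _ _ (an 0) (an 1)).2.2.2 _ (an 2)
  have n1 : h.vl (s 0) p = 0 → h.vl (s 1) p = 0 → h.vl (s 2) p ≠ 0 := fun a b c =>
    H.nice.n1 p (by rw [Ch.Evt, e3]; exact (lr a b).1 c)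
  refine ⟨fun e => n1 (congrFun e 0) (congrFun e 1) (congrFun e 2), fun hJ => ?_⟩
  by_cases h0 : h.vl (s 0) p = 0
  · have h1 : h.vl (s 1) p ≠ 0 := fun h1 => by
      have M0 : (M : ℂ) ≠ 0 := Nat.cast_ne_zero.2 (by have := H.pos; omega)
      have e : h.vl (J1 M s) p = M * h.vl (s 0) p * jac (s 1 (h.e p)) (s 2 (h.e p)) (h.pt p) -
          M * h.vl (s 1) p * jac (s 0 (h.e p)) (s 2 (h.e p)) (h.pt p) +
          M * h.vl (s 2) p * jac (s 0 (h.e p)) (s 1 (h.e p)) (h.pt p) := rfl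
      rw [hJ, h0, h1, mul_zero, zero_mul, zero_mul, sub_zero, zero_add] at e
      exact H.nice.n2 p (by
        rw [Ch.Evt, e3]
        exact (lr h0 h1).2 ((mul_eq_zero.1 e.symm).resolve_left (mul_ne_zero M0 (n1 h0 h1))))
    obtain ⟨k1, k2⟩ := key_pt12 hLC hLTU hWJ H.swap p h1
      (by rw [J1_swap]; exact neg_eq_zero.2 hJ)
    rw [J2_swap] at k2
    rw [J1_swap, Pi.neg_apply, fderiv_neg] at k1
    exact ⟨fun _ => ⟨h1, k2 h0⟩, neg_ne_zero.1 k1⟩
  · exact ⟨fun a => absurd a h0, (key_pt12 hLC hLTU hWJ H p h0 hJ).1⟩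

end Pool.Agent.P.MP_ab0431_ag.UB.V2

namespace Pool.Agent.P.MP_ab0431_ag.UB.V2

open Polynomial Set Filter Topology Asymptotics MeasureTheory
open scoped Manifold ContDiff

theorem one_pt22 (hPT1 : S_PT1)
    (X : DSurf) (M : ℕ) (h : Ch X) (s : Fin 3 → Sec X) (p : X.X) (ψ : ℂ → C2)
    (H : Tri M h s) (hP : Par (J1 M s (h.e p)) (h.pt p) ψ) (h0 : h.vl (s 0) p ≠ 0) (ν : ℕ)
    (hν : ν = 1 ∧ h.vl (J2 M s) p ≠ 0 ∨ ν = 2 ∧ h.vl (J2 M s) p = 0) :
    ((fun u => s 1 (h.e p) (ψ u) / s 0 (h.e p) (ψ u) - h.vl (s 1) p / h.vl (s 0) p) =O[𝓝 0]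
      fun u : ℂ => u ^ ν) ∧
    ¬(fun u => s 1 (h.e p) (ψ u) / s 0 (h.e p) (ψ u) - h.vl (s 1) p / h.vl (s 0) p) =O[𝓝 0]
      fun u : ℂ => u ^ (ν + 1) := by
  obtain ⟨hψ, hψ0, hψ1, hψ2⟩ := hP
  set f : Fin 3 → C2 → ℂ := fun i => s i (h.e p) with hf
  have hfa : ∀ i, AnalyticAt ℂ (f i) (h.pt p) := fun i =>
    isForm_analyticAt (H.form i) (h.mem p) ((h.e p).map_source (h.src p))
  have hf0 : f 0 (h.pt p) ≠ 0 := h0
  have hM : M ≠ 0 := by have := H.pos; omega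
  obtain ⟨-, hev, hW⟩ := t_WJ M f (h.pt p) hM hfa hf0
  have hJ0 : wjf M M M (f 0) (f 1) (f 2) (h.pt p) = 0 := by
    have := hψ2.self_of_nhds
    rw [hψ0] at this
    exact this
  obtain ⟨hW1, hW2⟩ := hW hJ0
  have hfd : fderiv ℂ (jac (f 1 / f 0) (f 2 / f 0)) (h.pt p) ≠ 0 := fun h' =>
    ((hPT1 X M h s p H).2 hJ0).2 (hW1.2 h')
  have hx : AnalyticAt ℂ (f 1 / f 0) (h.pt p) := (hfa 1).div (hfa 0) hf0
  have hz : AnalyticAt ℂ (f 2 / f 0) (h.pt p) := (hfa 2).div (hfa 0) hf0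
  have ht : Tendsto ψ (𝓝 0) (𝓝 (h.pt p)) := hψ0 ▸ hψ.continuousAt.tendsto
  have hPar : Par (jac (f 1 / f 0) (f 2 / f 0)) (h.pt p) ψ := by
    refine ⟨hψ, hψ0, hψ1, ?_⟩
    filter_upwards [hψ2, ht.eventually hev,
      ht.eventually ((hfa 0).continuousAt.eventually_ne hf0)] with u h1 h2 h3
    have h4 : (M : ℂ) * f 0 (ψ u) ^ 3 * jac (f 1 / f 0) (f 2 / f 0) (ψ u) = 0 := h2.symm.trans h1
    exact (mul_eq_zero.1 h4).resolve_left
      (mul_ne_zero (Nat.cast_ne_zero.2 hM) (pow_ne_zero _ h3))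
  obtain ⟨hL1, hL2⟩ := t_LO _ _ _ ψ hx hz hfd hPar
  have hxψ : AnalyticAt ℂ (fun u => (f 1 / f 0) (ψ u)) 0 := AnalyticAt.comp (hψ0 ▸ hx) hψ
  have hg : AnalyticAt ℂ (fun u => (f 1 / f 0) (ψ u) - (f 1 / f 0) (h.pt p)) 0 :=
    hxψ.sub analyticAt_const
  have hg0 : iteratedDeriv 0 (fun u => (f 1 / f 0) (ψ u) - (f 1 / f 0) (h.pt p)) 0 = 0 := by
    rw [iteratedDeriv_zero, hψ0, sub_self]
  have hg1 : iteratedDeriv 1 (fun u => (f 1 / f 0) (ψ u) - (f 1 / f 0) (h.pt p)) 0 = 0 ↔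
      h.vl (J2 M s) p = 0 := by
    rw [iteratedDeriv_one, deriv_sub_const, hL1]
    exact hW2.symm
  change ((fun u => (f 1 / f 0) (ψ u) - (f 1 / f 0) (h.pt p)) =O[𝓝 0] fun u : ℂ => u ^ ν) ∧
    ¬(fun u => (f 1 / f 0) (ψ u) - (f 1 / f 0) (h.pt p)) =O[𝓝 0] fun u : ℂ => u ^ (ν + 1)
  rcases hν with ⟨rfl, h2⟩ | ⟨rfl, h2⟩
  · refine ⟨(t_ORDB _ 1 hg).1.2 fun i hi => ?_, fun h3 => h2 (hg1.1 ?_)⟩
    · obtain rfl : i = 0 := by omega
      exact hg0
    · exact (t_ORDB _ 2 hg).1.1 h3 1 (by omega)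
  · refine ⟨(t_ORDB _ 2 hg).1.2 fun i hi => ?_, fun h3 => ?_⟩
    · obtain rfl | rfl : i = 0 ∨ i = 1 := by omega
      · exact hg0
      · exact hg1.2 h2
    · rcases hL2 h3 with h4 | h4 | h4 | h4
      · exact H.nice.b4 p _ _ (t_LTU _ f _ _ _ hfa hf0 (by decide) rfl h4)
      · exact H.nice.zz p _ _ (t_LTU _ f _ _ _ hfa hf0 (by decide) rfl h4)
      · exact H.nice.t1 p _ (t_LTU _ f _ _ _ hfa hf0 (by decide) rfl h4)
      · exact H.nice.t2 p _ _ (t_LTU _ f _ _ _ hfa hf0 (by decide) rfl h4)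

theorem p_PT2 (hPT1 : S_PT1) :
    S_PT2 := by
  intro X M h s p ψ H hP
  refine ⟨one_pt22 hPT1 X M h s p ψ H hP, fun h0 => ?_⟩
  have hJ0 : h.vl (J1 M s) p = 0 := by
    have := hP.2.2.2.self_of_nhds
    rw [hP.2.1] at this
    exact this
  obtain ⟨h1, h2⟩ := ((hPT1 X M h s p H).2 hJ0).1 h0
  have hP' : Par (J1 M ![s 1, s 0, s 2] (h.e p)) (h.pt p) ψ := by
    refine ⟨hP.1, hP.2.1, hP.2.2.1, ?_⟩
    filter_upwards [hP.2.2.2] with u hu
    rw [J1_swap]
    exact neg_eq_zero.2 hu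
  have := one_pt22 hPT1 X M h ![s 1, s 0, s 2] p ψ H.swap hP' h1 1
    (Or.inl ⟨rfl, by rw [J2_swap]; exact h2⟩)
  change ((fun u => s 0 (h.e p) (ψ u) / s 1 (h.e p) (ψ u) - h.vl (s 0) p / h.vl (s 1) p) =O[𝓝 0]
      fun u : ℂ => u ^ 1) ∧
    ¬(fun u => s 0 (h.e p) (ψ u) / s 1 (h.e p) (ψ u) - h.vl (s 0) p / h.vl (s 1) p) =O[𝓝 0]
      fun u : ℂ => u ^ (1 + 1) at this
  simpa only [h0, zero_div, sub_zero] using this

end Pool.Agent.P.MP_ab0431_ag.UB.V2

namespace Pool.Agent.P.MP_ab0431_ag.UB.V2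

open Polynomial Set Filter Topology Asymptotics MeasureTheory
open scoped Manifold ContDiff

theorem p_JFORM :
    S_JFORM := by
  intro X m₀ m₁ m₂ s₀ s₁ s₂ h₀ h₁ h₂
  refine ⟨fun e he ζ hζ => ?_, fun e he e' he' x hx => ?_⟩
  · have a₀ := isForm_analyticAt h₀ he hζ
    have a₁ := isForm_analyticAt h₁ he hζ
    have a₂ := isForm_analyticAt h₂ he hζ
    exact ((((analyticAt_const.mul a₀).mul (analyticAt_jac a₁ a₂)).sub
      ((analyticAt_const.mul a₁).mul (analyticAt_jac a₀ a₂))).add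
      ((analyticAt_const.mul a₂).mul
        (analyticAt_jac a₀ a₁))).differentiableAt.differentiableWithinAt
  · have hφ := trans_analyticAt he he' hx.1 hx.2
    have h0 := trans_det_ne he he' hx.1 hx.2
    have h3 : (e' ∘ e.symm) (e x) = e' x := by simp [hx.1]
    have key : ∀ (m : ℕ) (s : Sec X), IsForm X.X m s → ∀ k : Fin 2, pd k (s e) (e x) =
        (fderiv ℂ (e' ∘ e.symm) (e x)).det ^ m *
          (fderiv ℂ (e' ∘ e.symm) (e x) (Pi.single k 1) 0 * pd 0 (s e') (e' x) +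
          fderiv ℂ (e' ∘ e.symm) (e x) (Pi.single k 1) 1 * pd 1 (s e') (e' x) + m * s e' (e' x) *
            (pd k (fun y => (fderiv ℂ (e' ∘ e.symm) y).det) (e x) /
              (fderiv ℂ (e' ∘ e.symm) (e x)).det)) := by
      intro m s hs k
      have hf : s e =ᶠ[𝓝 (e x)] fun y => s e' ((e' ∘ e.symm) y) *
          (fun y => (fderiv ℂ (e' ∘ e.symm) y).det) y ^ m := by
        filter_upwards [(e.symm ≫ₕ e').open_source.mem_nhds
          (show e x ∈ _ by simp [hx.1, hx.2])] with y hy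
        simp only [OpenPartialHomeomorph.trans_source, OpenPartialHomeomorph.symm_source,
          mem_inter_iff, mem_preimage] at hy
        have := hs.2 e he e' he' (e.symm y) ⟨e.map_target hy.1, hy.2⟩
        rwa [e.right_inv hy.1] at this
      have hg : DifferentiableAt ℂ (s e') ((e' ∘ e.symm) (e x)) :=
        h3 ▸ (isForm_analyticAt hs he' (e'.map_source hx.2)).differentiableAt
      have := pd_jform hf hg hφ.differentiableAt (diffdet_jform hφ) h0 k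
      rwa [h3] at this
    simp only [wjf, jac]
    rw [key m₀ s₀ h₀ 0, key m₀ s₀ h₀ 1, key m₁ s₁ h₁ 0, key m₁ s₁ h₁ 1, key m₂ s₂ h₂ 0,
      key m₂ s₂ h₂ 1, h₀.2 e he e' he' x hx, h₁.2 e he e' he' x hx, h₂.2 e he e' he' x hx]
    generalize pd 0 (fun y => (fderiv ℂ (e' ∘ e.symm) y).det) (e x) /
      (fderiv ℂ (e' ∘ e.symm) (e x)).det = L₀
    generalize pd 1 (fun y => (fderiv ℂ (e' ∘ e.symm) y).det) (e x) /
      (fderiv ℂ (e' ∘ e.symm) (e x)).det = L₁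
    rw [pow_succ, pow_add, pow_add]
    generalize (fderiv ℂ (e' ∘ e.symm) (e x)).det ^ m₀ = P₀
    generalize (fderiv ℂ (e' ∘ e.symm) (e x)).det ^ m₁ = P₁
    generalize (fderiv ℂ (e' ∘ e.symm) (e x)).det ^ m₂ = P₂
    rw [det_jform]
    ring

end Pool.Agent.P.MP_ab0431_ag.UB.V2

namespace Pool.Agent.P.MP_ab0431_ag.UB.V2

open Polynomial Set Filter Topology Asymptotics MeasureTheory
open scoped Manifold ContDiff

section
variable {X : DSurf} (h : Ch X) {n M : ℕ} {j a b : Sec X} {e : OpenPartialHomeomorph X.X C2}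
  {x : X.X}

theorem zero_rm02 (hj : IsForm X.X n j) (he : e ∈ atlas C2 X.X) (hx : x ∈ e.source) :
    h.vl j x = 0 ↔ j e (e x) = 0 := by
  obtain ⟨u, u0, hu⟩ := exists_unit (h.mem x) he (h.src x) hx
  rw [Ch.vl, hu n j hj, mul_eq_zero, or_iff_left (pow_ne_zero _ u0)]

theorem ratio_rm02 (ha : IsForm X.X M a) (hb : IsForm X.X M b) (he : e ∈ atlas C2 X.X)
    (hx : x ∈ e.source) : h.vl a x / h.vl b x = a e (e x) / b e (e x) := by
  obtain ⟨u, u0, hu⟩ := exists_unit (h.mem x) he (h.src x) hx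
  rw [Ch.vl, Ch.vl, hu M a ha, hu M b hb, mul_div_mul_right _ _ (pow_ne_zero _ u0)]

theorem closed_rm02 (hj : IsForm X.X n j) : IsClosed {p | h.vl j p = 0} := by
  refine isOpen_compl_iff.1 (isOpen_iff_mem_nhds.2 fun p hp => ?_)
  have h1 := ((isForm_analyticAt hj (h.mem p) ((h.e p).map_source (h.src p))).continuousAt.comp
    ((h.e p).continuousAt (h.src p))).eventually_ne hp
  filter_upwards [h1, (h.e p).open_source.mem_nhds (h.src p)] with q a1 a2 a3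
  exact a1 ((zero_rm02 h hj (h.mem p) a2).1 a3)

theorem chart_rm02 (hj : IsForm X.X n j) (ha : IsForm X.X M a) (hb : IsForm X.X M b)
    (r : {p // h.vl j p = 0}) (c : ℂ) {ν : ℕ} (hν : 0 < ν)
    (hd : fderiv ℂ (j (h.e r)) (h.pt r) ≠ 0) (hb0 : h.vl b r ≠ 0)
    (ho : ∀ ψ, Par (j (h.e r)) (h.pt r) ψ →
      ((fun u => a (h.e r) (ψ u) / b (h.e r) (ψ u) - c) =O[𝓝 0] fun u : ℂ => u ^ ν) ∧
      ¬(fun u => a (h.e r) (ψ u) / b (h.e r) (ψ u) - c) =O[𝓝 0] fun u : ℂ => u ^ (ν + 1)) :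
    ∃ φ : OpenPartialHomeomorph {p // h.vl j p = 0} ℂ, r ∈ φ.source ∧ φ r = 0 ∧
      (∀ r' ∈ φ.source, h.vl b r' ≠ 0 ∧ h.vl a r' / h.vl b r' - c = φ r' ^ ν) ∧
      ∃ ψ : ℂ → C2, AnalyticAt ℂ ψ 0 ∧ ψ 0 = h.pt r ∧ deriv ψ 0 ≠ 0 ∧ ∀ᶠ u in 𝓝 0,
        (φ.symm u).1 ∈ (h.e r).source ∧ h.e r (φ.symm u).1 = ψ u := by
  classical
  have he := h.mem r
  have ht : h.pt r ∈ (h.e r).target := (h.e r).map_source (h.src r)
  have ab := isForm_analyticAt hb he ht
  obtain ⟨ε, ψ, θ, O, ε0, oO, mO, sO, aψ, cθ, ψ0, dψ, h1, h2⟩ := t_RCH (j (h.e r))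
    (fun y => a (h.e r) y / b (h.e r) y - c) (h.pt r) ((h.e r).target ∩ {y | b (h.e r) y ≠ 0}) ν
    (isForm_analyticAt hj he ht) (((isForm_analyticAt ha he ht).div ab hb0).sub analyticAt_const)
    r.2 hd (inter_mem ((h.e r).open_target.mem_nhds ht) (ab.continuousAt.eventually_ne hb0)) hν ho
  have src := h.src r
  unfold Ch.pt at *
  generalize h.e r = e at *
  have tg : ∀ u ∈ Metric.ball (0 : ℂ) ε, ψ u ∈ e.target := fun u hu => (sO (h1 u hu).1).1
  have key : ∀ u ∈ Metric.ball (0 : ℂ) ε, h.vl j (e.symm (ψ u)) = 0 := fun u hu =>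
    (zero_rm02 h hj he (e.map_target (tg u hu))).2 (by rw [e.right_inv (tg u hu)]; exact (h1 u hu).2.1)
  have h3 : ∀ r' : {p // h.vl j p = 0}, r'.1 ∈ e.source ∩ e ⁻¹' O →
      θ (e r') ∈ Metric.ball 0 ε ∧ ψ (θ (e r')) = e r' := fun r' hr =>
    h2 _ hr.2 ((zero_rm02 h hj he hr.1).1 r'.2)
  refine ⟨{ toFun := fun r' => θ (e r')
            invFun := fun u => if hu : u ∈ Metric.ball 0 ε then ⟨e.symm (ψ u), key u hu⟩ else r
            source := Subtype.val ⁻¹' (e.source ∩ e ⁻¹' O)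
            target := Metric.ball 0 ε
            map_source' := fun r' hr => (h3 r' hr).1
            map_target' := fun u hu => ?_
            left_inv' := fun r' hr => ?_
            right_inv' := fun u hu => ?_
            open_source := (e.isOpen_inter_preimage oO).preimage continuous_subtype_val
            open_target := Metric.isOpen_ball
            continuousOn_toFun := cθ.comp (e.continuousOn.comp continuous_subtype_val.continuousOn
              fun _ hr => hr.1) fun _ hr => hr.2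
            continuousOn_invFun := IsInducing.subtypeVal.continuousOn_iff.2
              ((e.continuousOn_symm.comp aψ.continuousOn tg).congr fun u hu => ?_) },
    ⟨src, mO⟩, ?_, fun r' hr => ⟨fun h0 => ?_, ?_⟩, ψ, aψ 0 (Metric.mem_ball_self ε0), ψ0, dψ, ?_⟩
  · rw [dif_pos hu]
    exact ⟨e.map_target (tg u hu), by rw [mem_preimage, e.right_inv (tg u hu)]; exact (h1 u hu).1⟩
  · rw [dif_pos (h3 r' hr).1]
    exact Subtype.ext (by simp only [(h3 r' hr).2, e.left_inv hr.1])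
  · simp only [dif_pos hu, e.right_inv (tg u hu), (h1 u hu).2.2.1]
  · simp only [Function.comp, dif_pos hu]
  · change θ (e r) = 0
    rw [← ψ0, (h1 0 (Metric.mem_ball_self ε0)).2.2.1]
  · exact (sO hr.2).2 ((zero_rm02 h hb he hr.1).1 h0)
  · have := (h1 _ (h3 r' hr).1).2.2.2
    rw [(h3 r' hr).2] at this
    rw [ratio_rm02 h ha hb he hr.1]
    exact this
  · filter_upwards [Metric.ball_mem_nhds (0 : ℂ) ε0] with u hu
    change (dite _ _ _ : {p // h.vl j p = 0}).1 ∈ _ ∧ e (dite _ _ _ : {p // h.vl j p = 0}).1 = _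
    rw [dif_pos hu]
    exact ⟨e.map_target (tg u hu), e.right_inv (tg u hu)⟩

end

theorem p_RM0 (hPT1 : S_PT1) (hPT2 : S_PT2) (hJFORM : S_JFORM) :
    S_RM0 := by
  classical
  intro X M h s H
  have hj : IsForm X.X _ (J1 M s) := hJFORM X M M M _ _ _ (H.form 0) (H.form 1) (H.form 2)
  refine ⟨closed_rm02 h hj, fun r ν hν => ?_⟩
  obtain ⟨p1, p2⟩ := (hPT1 X M h s r H).2 r.2
  by_cases e : h.vl (s 0) r = 0
  · obtain ⟨φ, a1, a2, a3, a4⟩ := chart_rm02 h hj (H.form 0) (H.form 1) r 0 one_pos p2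
      (p1 e).1 fun ψ hψ => by simpa only [sub_zero] using (hPT2 X M h s r ψ H hψ).2 e
    refine ⟨φ, a1, a2, fun e' => absurd e e', fun _ =>
      ⟨hν.elim And.left fun a => absurd a.2 (p1 e).2, fun r' hr hn => ?_⟩, a4⟩
    obtain ⟨b1, b2⟩ := a3 r' hr
    rw [sub_zero, pow_one] at b2
    have b3 : h.vl (s 0) r' ≠ 0 := fun b3 =>
      hn (φ.injOn hr a1 (by rw [a2, ← b2, b3, zero_div]))
    exact ⟨b3, by rw [← b2]; field_simp⟩
  · obtain ⟨φ, a1, a2, a3, a4⟩ := chart_rm02 h hj (H.form 1) (H.form 0) r _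
      (show 0 < ν by rcases hν with a | a <;> omega) p2 e
      fun ψ hψ => (hPT2 X M h s r ψ H hψ).1 e _ hν
    exact ⟨φ, a1, a2, fun _ r' hr => ⟨(a3 r' hr).1, eq_add_of_sub_eq' (a3 r' hr).2⟩,
      fun e' => absurd e' e, a4⟩

end Pool.Agent.P.MP_ab0431_ag.UB.V2

namespace Pool.Agent.P.MP_ab0431_ag.UB.V2

open Polynomial Set Filter Topology Asymptotics MeasureTheory
open scoped Manifold ContDiff

/-- First and second derivative of a composition at a critical point. -/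
theorem second_am02 {E F : Type} [NormedAddCommGroup E] [NormedSpace ℂ E] [CompleteSpace E]
    [NormedAddCommGroup F] [NormedSpace ℂ F] {H : E → ℂ} {G : F → E} {q₀ : F}
    (hH : AnalyticAt ℂ H (G q₀)) (h0 : fderiv ℂ H (G q₀) = 0) (hG : AnalyticAt ℂ G q₀) (u : F) :
    fderiv ℂ (H ∘ G) q₀ u = 0 ∧ fderiv ℂ (fun q => fderiv ℂ (H ∘ G) q u) q₀ u =
      fderiv ℂ (fderiv ℂ H) (G q₀) (fderiv ℂ G q₀ u) (fderiv ℂ G q₀ u) := by
  have e1 : (fun q => fderiv ℂ (H ∘ G) q u) =ᶠ[𝓝 q₀]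
      fun q => fderiv ℂ H (G q) (fderiv ℂ G q u) := by
    filter_upwards [hG.eventually_analyticAt,
      hG.continuousAt.eventually hH.eventually_analyticAt] with q a b
    rw [fderiv_comp q b.differentiableAt a.differentiableAt]
    rfl
  refine ⟨by rw [e1.eq_of_nhds, h0]; rfl, ?_⟩
  have c1 : HasFDerivAt (fun q => fderiv ℂ H (G q))
      ((fderiv ℂ (fderiv ℂ H) (G q₀)).comp (fderiv ℂ G q₀)) q₀ :=
    hH.fderiv.differentiableAt.hasFDerivAt.comp q₀ hG.differentiableAt.hasFDerivAt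
  have c2 : DifferentiableAt ℂ (fun q => fderiv ℂ G q u) q₀ :=
    hG.fderiv.differentiableAt.clm_apply (differentiableAt_const u)
  rw [e1.fderiv_eq, (c1.clm_apply c2.hasFDerivAt).fderiv]
  simp [h0]

theorem inj_am02 (α β l : C3 →L[ℂ] ℂ) (h1 : l (crs α β) = 1) (ξ : C3) (ha : α ξ = 0)
    (hb : β ξ = 0) (hl : l ξ = 0) : ξ = 0 := by
  rw [clm_crs] at h1
  rw [clm_e3] at ha hb hl
  have a0 : ξ.1 0 = 0 := by
    linear_combination (-ξ.1 0) * h1 + (β (e3 1) * l (e3 2) - β (e3 2) * l (e3 1)) * ha +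
      (l (e3 1) * α (e3 2) - l (e3 2) * α (e3 1)) * hb +
      (α (e3 1) * β (e3 2) - α (e3 2) * β (e3 1)) * hl
  have a1 : ξ.1 1 = 0 := by
    linear_combination (-ξ.1 1) * h1 + (β (e3 2) * l (e3 0) - β (e3 0) * l (e3 2)) * ha +
      (l (e3 2) * α (e3 0) - l (e3 0) * α (e3 2)) * hb +
      (α (e3 2) * β (e3 0) - α (e3 0) * β (e3 2)) * hl
  have a2 : ξ.2 = 0 := by
    linear_combination (-ξ.2) * h1 + (β (e3 0) * l (e3 1) - β (e3 1) * l (e3 0)) * ha +
      (l (e3 0) * α (e3 1) - l (e3 1) * α (e3 0)) * hb +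
      (α (e3 0) * β (e3 1) - α (e3 1) * β (e3 0)) * hl
  refine Prod.ext (funext fun i => ?_) a2
  fin_cases i
  exacts [a0, a1]

theorem hd_am02 {D : C2 → ℂ} (h : Iso D 0) :
    AnalyticAt ℂ (Hd D) 0 ∧ fderiv ℂ (Hd D) 0 = 0 := by
  have a1 : AnalyticAt ℂ (fun v : C3 => D v.1) 0 :=
    AnalyticAt.comp (g := D) (f := fun v : C3 => v.1) h.an analyticAt_fst
  refine ⟨(analyticAt_snd.pow 2).sub a1, ?_⟩
  have b1 : HasFDerivAt (fun v : C3 => D v.1)
      ((fderiv ℂ D 0).comp (ContinuousLinearMap.fst ℂ C2 ℂ)) 0 :=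
    HasFDerivAt.comp (g := D) (f := fun v : C3 => v.1) 0 h.an.differentiableAt.hasFDerivAt
      hasFDerivAt_fst
  have b2 := ((hasFDerivAt_snd (𝕜 := ℂ) (p := (0 : C3))).pow 2).sub b1
  have b3 : HasFDerivAt (Hd D) _ 0 := b2
  rw [b3.fderiv, h.d0]
  ext <;> simp

theorem p_AM0 :
    S_AM0 := by
  intro D x z hD hx hz hh
  obtain ⟨hH, hH0⟩ := hd_am02 hD
  set α := fderiv ℂ x 0 with hα
  set β := fderiv ℂ z 0 with hβ
  have hv : crs α β ≠ 0 := fun e => hh (by rw [e]; simp [hes])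
  obtain ⟨l, hl⟩ := SeparatingDual.exists_eq_one (R := ℂ) hv
  have hαv : α (crs α β) = 0 := by rw [clm_crs]; ring
  have hβv : β (crs α β) = 0 := by rw [clm_crs]; ring
  let P : C3 → C2 := fun v => ![x v, z v]
  have hPa : AnalyticAt ℂ P 0 := analyticAt_pi_iff.2 fun i => by
    fin_cases i
    exacts [hx, hz]
  have hPd : HasFDerivAt P (ContinuousLinearMap.pi ![α, β]) 0 := hasFDerivAt_pi.2 fun i => by
    fin_cases i
    exacts [hx.differentiableAt.hasFDerivAt, hz.differentiableAt.hasFDerivAt]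
  have hPv : (ContinuousLinearMap.pi ![α, β] : C3 →L[ℂ] C2) (crs α β) = 0 := by
    funext i
    fin_cases i
    exacts [hαv, hβv]
  let T : C3 → C3 := fun v => (P v, l v)
  have hTa : AnalyticAt ℂ T 0 := hPa.prod (l.analyticAt 0)
  have hTd : HasFDerivAt T ((ContinuousLinearMap.pi ![α, β]).prod l) 0 := hPd.prodMk l.hasFDerivAt
  have hTi : Function.Injective (fderiv ℂ T 0) := by
    rw [hTd.fderiv, injective_iff_map_eq_zero]
    intro ξ e
    have e1 := congrArg Prod.fst e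
    exact inj_am02 α β l hl ξ (congrFun e1 0) (congrFun e1 1) (congrArg Prod.snd e)
  obtain ⟨g, hg, hs, hΓ⟩ := ift_an hTa hTi
  have hT0 : T 0 = (P 0, 0) := Prod.ext rfl (map_zero l)
  have hinv : ∀ᶠ v in 𝓝 (0 : C3), g.symm (T v) = v := by
    filter_upwards [g.open_source.mem_nhds hs] with v hv
    rw [← hg]; exact g.left_inv hv
  have hΓv : fderiv ℂ g.symm (T 0) (0, 1) = crs α β := by
    have e1 : (g.symm ∘ T) =ᶠ[𝓝 0] id := hinv
    have e2 := fderiv_comp 0 hΓ.differentiableAt hTa.differentiableAt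
    rw [e1.fderiv_eq, fderiv_id, hTd.fderiv] at e2
    have e3 := congrArg (fun L : C3 →L[ℂ] C3 => L (crs α β)) e2
    simp only [ContinuousLinearMap.id_apply, ContinuousLinearMap.comp_apply,
      ContinuousLinearMap.prod_apply, hPv, hl] at e3
    exact e3.symm
  let S : ℂ × C2 →L[ℂ] C3 := (ContinuousLinearMap.snd ℂ ℂ C2).prod (ContinuousLinearMap.fst ℂ ℂ C2)
  let G : ℂ × C2 → C3 := g.symm ∘ S
  have hS0 : S (0, P 0) = T 0 := hT0.symm
  have hGa : AnalyticAt ℂ G (0, P 0) := (hS0 ▸ hΓ).comp (S.analyticAt _)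
  have hG0 : G (0, P 0) = 0 := by
    change g.symm (S (0, P 0)) = 0
    rw [hS0]; exact hinv.self_of_nhds
  have hGv : fderiv ℂ G (0, P 0) (1, 0) = crs α β := by
    rw [fderiv_comp _ (hS0 ▸ hΓ).differentiableAt S.differentiableAt, S.fderiv, hS0]
    exact hΓv
  have hH' : AnalyticAt ℂ (Hd D) (G (0, P 0)) := by rw [hG0]; exact hH
  obtain ⟨d1, d2⟩ := second_am02 (H := Hd D) (G := G) (q₀ := (0, P 0)) hH'
    (by rw [hG0]; exact hH0) hGa (1, 0)
  rw [hGv, hG0] at d2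
  have hH1 : AnalyticAt ℂ (Hd D ∘ G) (0, P 0) := hH'.comp hGa
  obtain ⟨ζ, w₁, hζ, hζ0, hw, hwz, -, heq⟩ := t_MORSE C2 (Hd D ∘ G) 0 (P 0) hH1 d1
    (fun e => hh (d2.symm.trans e))
  let R : C3 → ℂ × C2 := fun v => (l v, P v)
  have hRa : AnalyticAt ℂ R 0 := (l.analyticAt 0).prod hPa
  have hRd : HasFDerivAt R (l.prod (ContinuousLinearMap.pi ![α, β])) 0 := l.hasFDerivAt.prodMk hPd
  have hR0 : R 0 = (0, P 0) := Prod.ext (map_zero l) rfl
  refine ⟨w₁ ∘ R, fun p => -(Hd D ∘ G) (ζ p, p), hx, hz, (hR0 ▸ hw).comp hRa, ?_, ?_, ?_, ?_⟩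
  · have e := heq.self_of_nhds
    rw [hζ0] at e
    change w₁ (R 0) = 0
    rw [hR0]
    exact pow_eq_zero_iff (two_ne_zero) |>.1 (by linear_combination -e)
  · have e : (fun p => (ζ p, p)) (P 0) = (0, P 0) := Prod.ext hζ0 rfl
    exact (AnalyticAt.comp (f := fun p => (ζ p, p)) (e ▸ hH1) (hζ.prod analyticAt_id)).neg
  · filter_upwards [hinv, hRa.continuousAt.eventually (hR0 ▸ heq)] with v a b
    have e : (Hd D ∘ G) (R v) = Hd D v := congrArg (Hd D) a
    rw [← e, b]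
    change _ = w₁ (R v) ^ 2 - -(Hd D ∘ G) (ζ (P v), P v)
    ring
  · rw [fderiv_comp _ (hR0 ▸ hw).differentiableAt hRa.differentiableAt, hRd.fderiv, hR0]
    simp only [ContinuousLinearMap.comp_apply, ContinuousLinearMap.prod_apply]
    rw [← hα, ← hβ, hPv, hl]
    exact hwz

end Pool.Agent.P.MP_ab0431_ag.UB.V2

namespace Pool.Agent.P.MP_ab0431_ag.UB.V2

open Polynomial Set Filter Topology Asymptotics MeasureTheory
open scoped Manifold ContDiff

theorem hd_has_am12 {D : C2 → ℂ} {v : C3} (h : DifferentiableAt ℂ D v.1) :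
    HasFDerivAt (Hd D) ((2 * v.2) • ContinuousLinearMap.snd ℂ C2 ℂ -
      (fderiv ℂ D v.1).comp (ContinuousLinearMap.fst ℂ C2 ℂ)) v := by
  have h1 : HasFDerivAt (fun u : C3 => u.2 ^ 2) ((2 * v.2) • ContinuousLinearMap.snd ℂ C2 ℂ) v := by
    have := (hasFDerivAt_snd (𝕜 := ℂ) (p := v)).pow 2
    simpa using this
  exact h1.sub (h.hasFDerivAt.comp v hasFDerivAt_fst)

theorem hd_zero_am12 {D : C2 → ℂ} {v : C3} (h : DifferentiableAt ℂ D v.1) :
    fderiv ℂ (Hd D) v = 0 ↔ v.2 = 0 ∧ fderiv ℂ D v.1 = 0 := by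
  rw [(hd_has_am12 h).fderiv]
  constructor
  · intro e
    refine ⟨?_, ContinuousLinearMap.ext fun ξ => ?_⟩
    · simpa using congrArg (fun L => L ((0, 1) : C3)) e
    · simpa using congrArg (fun L => L ((ξ, 0) : C3)) e
  · rintro ⟨h1, h2⟩
    exact ContinuousLinearMap.ext fun ξ => by simp [h1, h2]

theorem p_AM1 :
    S_AM1 := by
  intro D D' x z w hI hA
  let T : C3 → C3 := fun v => (![x v, z v], w v)
  have hT : AnalyticAt ℂ T 0 := by
    refine AnalyticAt.prod (analyticAt_pi_iff.2 fun i => ?_) hA.wan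
    fin_cases i
    exacts [hA.xan, hA.zan]
  have hc : ∀ (L : C3 →L[ℂ] ℂ) (ξ : C3), fderiv ℂ (L ∘ T) 0 ξ = L (fderiv ℂ T 0 ξ) := fun L ξ => by
    rw [(L.hasFDerivAt.comp 0 hT.differentiableAt.hasFDerivAt).fderiv]; rfl
  have hi : Function.Injective (fderiv ℂ T 0) := by
    rw [injective_iff_map_eq_zero]
    intro ξ e
    have h1 : fderiv ℂ x 0 ξ = 0 := (hc ((ContinuousLinearMap.proj 0).comp
      (ContinuousLinearMap.fst ℂ C2 ℂ)) ξ).trans (by rw [e, map_zero])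
    have h2 : fderiv ℂ z 0 ξ = 0 := (hc ((ContinuousLinearMap.proj 1).comp
      (ContinuousLinearMap.fst ℂ C2 ℂ)) ξ).trans (by rw [e, map_zero])
    have h3 : fderiv ℂ w 0 ξ = 0 := (hc (ContinuousLinearMap.snd ℂ C2 ℂ) ξ).trans
      (by rw [e, map_zero])
    have hk := hA.kap
    rw [clm_crs] at hk
    rw [clm_e3] at h1 h2 h3
    generalize fderiv ℂ x 0 = α at *
    generalize fderiv ℂ z 0 = β at *
    generalize fderiv ℂ w 0 = γ at *
    have a0 : ξ.1 0 = 0 := mul_left_cancel₀ hk (by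
      linear_combination (β (e3 1) * γ (e3 2) - β (e3 2) * γ (e3 1)) * h1 +
        (γ (e3 1) * α (e3 2) - γ (e3 2) * α (e3 1)) * h2 +
        (α (e3 1) * β (e3 2) - α (e3 2) * β (e3 1)) * h3)
    have a1 : ξ.1 1 = 0 := mul_left_cancel₀ hk (by
      linear_combination (β (e3 2) * γ (e3 0) - β (e3 0) * γ (e3 2)) * h1 +
        (γ (e3 2) * α (e3 0) - γ (e3 0) * α (e3 2)) * h2 +
        (α (e3 2) * β (e3 0) - α (e3 0) * β (e3 2)) * h3)
    have a2 : ξ.2 = 0 := mul_left_cancel₀ hk (by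
      linear_combination (β (e3 0) * γ (e3 1) - β (e3 1) * γ (e3 0)) * h1 +
        (γ (e3 0) * α (e3 1) - γ (e3 1) * α (e3 0)) * h2 +
        (α (e3 0) * β (e3 1) - α (e3 1) * β (e3 0)) * h3)
    refine Prod.ext (funext fun i => ?_) a2
    fin_cases i
    exacts [a0, a1]
  obtain ⟨g, hg, h0, ha⟩ := ift_an hT hi
  have heq : Hd D =ᶠ[𝓝 0] Hd D' ∘ T := hA.eq
  have T0 : T 0 = (![x 0, z 0], 0) := Prod.ext rfl hA.w0
  have s0 : g.symm (T 0) = 0 := by rw [← hg]; exact g.left_inv h0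
  have ts : Tendsto g.symm (𝓝 (T 0)) (𝓝 0) := by
    simpa only [ContinuousAt, s0] using ha.continuousAt
  have tg : ∀ᶠ q in 𝓝 (T 0), T (g.symm q) = q := by
    filter_upwards [g.open_target.mem_nhds (hg ▸ g.map_source h0)] with q hq
    rw [← hg]; exact g.right_inv hq
  have dD : DifferentiableAt ℂ D (0 : C3).1 := hI.an.differentiableAt
  refine ⟨⟨hA.an, ?_, ?_, ?_⟩, g, h0, fun v => by rw [hg]⟩
  · have := hA.eq.self_of_nhds
    simpa [Hd, hI.zero, hA.w0] using this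
  · have h1 : Hd D' =ᶠ[𝓝 (T 0)] Hd D ∘ g.symm := by
      filter_upwards [ts.eventually heq, tg] with q h2 h3
      rw [Function.comp_apply, h2, Function.comp_apply, h3]
    have h2 : fderiv ℂ (Hd D') (T 0) = 0 := by
      rw [h1.fderiv_eq, fderiv_comp _ (by rw [s0]; exact (hd_has_am12 dD).differentiableAt)
        ha.differentiableAt, s0, (hd_zero_am12 dD).2 ⟨rfl, hI.d0⟩, ContinuousLinearMap.zero_comp]
    exact ((hd_zero_am12 (v := T 0) hA.an.differentiableAt).1 h2).2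
  · have tp : Tendsto (fun p : C2 => ((p, 0) : C3)) (𝓝 ![x 0, z 0]) (𝓝 (T 0)) := by
      rw [T0]; exact (continuous_id.prodMk continuous_const).tendsto _
    have t1 : Tendsto (fun v : C3 => v.1) (𝓝 0) (𝓝 0) := continuous_fst.tendsto _
    rw [eventually_nhdsWithin_iff]
    filter_upwards [tp.eventually tg, hA.an.eventually_analyticAt,
      (ts.comp tp).eventually (heq.eventuallyEq_nhds.and (hT.eventually_analyticAt.and
        ((t1.eventually hI.an.eventually_analyticAt).and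
          (t1.eventually (eventually_nhdsWithin_iff.1 hI.iso)))))] with p h1 h2 h3 hp e1 e2
    obtain ⟨h3, h4, h5, h6⟩ := h3
    simp only [Function.comp_apply] at h3 h4 h5 h6
    generalize g.symm (p, 0) = v at *
    have d1 : DifferentiableAt ℂ D' (T v).1 := by rw [h1]; exact h2.differentiableAt
    have h7 : fderiv ℂ (Hd D) v = 0 := by
      rw [h3.fderiv_eq, fderiv_comp _ (hd_has_am12 d1).differentiableAt h4.differentiableAt,
        (hd_zero_am12 d1).2 (by rw [h1]; exact ⟨rfl, e2⟩), ContinuousLinearMap.zero_comp]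
    obtain ⟨h8, h9⟩ := (hd_zero_am12 h5.differentiableAt).1 h7
    have h10 : D v.1 = 0 := by
      have := h3.self_of_nhds
      rw [Function.comp_apply, h1] at this
      simpa [Hd, h8, e1] using this
    have h11 : v = 0 := Prod.ext (by_contra fun h => h6 h h10 h9) h8
    rw [h11, T0] at h1
    exact hp (congrArg Prod.fst h1).symm

end Pool.Agent.P.MP_ab0431_ag.UB.V2

namespace Pool.Agent.P.MP_ab0431_ag.UB.V2

open Polynomial Set Filter Topology Asymptotics MeasureTheory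
open scoped Manifold ContDiff

theorem sub_pua2 {A B : Type} [TopologicalSpace A] [TopologicalSpace B] {P : A → Prop}
    {P' : B → Prop} (Θ : OpenPartialHomeomorph A B) (v₀ : {v // P v}) (h0 : v₀.1 ∈ Θ.source)
    (h : ∀ v ∈ Θ.source, P v ↔ P' (Θ v)) :
    ∃ θ : OpenPartialHomeomorph {v // P v} {w // P' w}, v₀ ∈ θ.source ∧
      ∀ v ∈ θ.source, (θ v).1 = Θ v.1 := by
  classical
  have h' : ∀ w : {w // P' w}, w.1 ∈ Θ.target → P (Θ.symm w.1) := fun w hw =>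
    (h _ (Θ.map_target hw)).2 (by rw [Θ.right_inv hw]; exact w.2)
  let f : {v // P v} → {w // P' w} := fun v =>
    if hv : v.1 ∈ Θ.source then ⟨Θ v.1, (h _ hv).1 v.2⟩ else ⟨Θ v₀.1, (h _ h0).1 v₀.2⟩
  let g : {w // P' w} → {v // P v} := fun w =>
    if hw : w.1 ∈ Θ.target then ⟨Θ.symm w.1, h' w hw⟩ else v₀
  have hf : ∀ v : {v // P v}, v.1 ∈ Θ.source → (f v).1 = Θ v.1 := fun v hv => by
    simp only [f, dif_pos hv]
  have hg : ∀ w : {w // P' w}, w.1 ∈ Θ.target → (g w).1 = Θ.symm w.1 := fun w hw => by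
    simp only [g, dif_pos hw]
  refine ⟨{ toFun := f
            invFun := g
            source := Subtype.val ⁻¹' Θ.source
            target := Subtype.val ⁻¹' Θ.target
            map_source' := fun v hv => ?_
            map_target' := fun w hw => ?_
            left_inv' := fun v hv => Subtype.ext ?_
            right_inv' := fun w hw => Subtype.ext ?_
            open_source := Θ.open_source.preimage continuous_subtype_val
            open_target := Θ.open_target.preimage continuous_subtype_val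
            continuousOn_toFun := ?_
            continuousOn_invFun := ?_ }, h0, hf⟩
  · rw [mem_preimage, hf v hv]
    exact Θ.map_source hv
  · rw [mem_preimage, hg w hw]
    exact Θ.map_target hw
  · rw [hg _ (by rw [hf v hv]; exact Θ.map_source hv), hf v hv]
    exact Θ.left_inv hv
  · rw [hf _ (by rw [hg w hw]; exact Θ.map_target hw), hg w hw]
    exact Θ.right_inv hw
  · exact (IsInducing.subtypeVal (t := {w | P' w})).continuousOn_iff.2
      ((Θ.continuousOn.comp continuous_subtype_val.continuousOn fun _ hv => hv).congr hf)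
  · exact (IsInducing.subtypeVal (t := {v | P v})).continuousOn_iff.2
      ((Θ.continuousOn_symm.comp continuous_subtype_val.continuousOn fun _ hv => hv).congr hg)

theorem p_PUA :
    S_PUA := by
  intro D D' Θ v₀ h0 hev
  obtain ⟨O, hO, oO, mO⟩ := eventually_nhds_iff.1 hev
  obtain ⟨θ, a, b⟩ := sub_pua2 (P := fun v : C3 => v.2 ^ 2 = D v.1)
    (P' := fun v : C3 => v.2 ^ 2 = D' v.1) (Θ.restrOpen O oO) v₀ ⟨h0, mO⟩ fun v hv => by
      have := hO v hv.2
      unfold Hd at this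
      rw [← sub_eq_zero, this, sub_eq_zero]
      rfl
  exact ⟨θ, a, b⟩

end Pool.Agent.P.MP_ab0431_ag.UB.V2

namespace Pool.Agent.P.MP_ab0431_ag.UB.V2

open Polynomial Set Filter Topology Asymptotics MeasureTheory
open scoped Manifold ContDiff

/-- The cross product of two vectors. -/
def nn_om02 (a b : C3) : Fin 3 → ℂ :=
  ![a.1 1 * b.2 - a.2 * b.1 1, a.2 * b.1 0 - a.1 0 * b.2, a.1 0 * b.1 1 - a.1 1 * b.1 0]

theorem alg_om02 (a b : C3) (η : C3 →L[ℂ] ℂ) (ha : η a = 0) (hb : η b = 0) (k : Fin 3)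
    (α β : C3 →L[ℂ] ℂ) :
    (α a * β b - α b * β a) * η (e3 k) = nn_om02 a b k * η (crs α β) := by
  rw [clm_e3] at ha hb
  rw [clm_e3 α a, clm_e3 α b, clm_e3 β a, clm_e3 β b, clm_crs]
  set c0 := α (e3 1) * β (e3 2) - α (e3 2) * β (e3 1) with hc0
  set c1 := α (e3 2) * β (e3 0) - α (e3 0) * β (e3 2) with hc1
  set c2 := α (e3 0) * β (e3 1) - α (e3 1) * β (e3 0) with hc2
  fin_cases k
  · show _ * η (e3 0) = (a.1 1 * b.2 - a.2 * b.1 1) * _
    linear_combination (c2 * b.1 1 - c1 * b.2) * ha + (c1 * a.2 - c2 * a.1 1) * hb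
  · show _ * η (e3 1) = (a.2 * b.1 0 - a.1 0 * b.2) * _
    linear_combination (c0 * b.2 - c2 * b.1 0) * ha + (c2 * a.1 0 - c0 * a.2) * hb
  · show _ * η (e3 2) = (a.1 0 * b.1 1 - a.1 1 * b.1 0) * _
    linear_combination (c1 * b.1 0 - c0 * b.1 1) * ha + (c0 * a.1 1 - c1 * a.1 0) * hb

theorem an1_om02 {a : C2 → C3} {ζ : C2} (ha : AnalyticAt ℂ a ζ) (i : Fin 2) :
    AnalyticAt ℂ (fun y => (a y).1 i) ζ :=
  (((ContinuousLinearMap.proj (R := ℂ) (φ := fun _ : Fin 2 => ℂ) i).comp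
    (ContinuousLinearMap.fst ℂ C2 ℂ)).analyticAt _).comp ha

theorem an2_om02 {a : C2 → C3} {ζ : C2} (ha : AnalyticAt ℂ a ζ) :
    AnalyticAt ℂ (fun y => (a y).2) ζ :=
  ((ContinuousLinearMap.snd ℂ C2 ℂ).analyticAt _).comp ha

theorem ann_om02 {a b : C2 → C3} {ζ : C2} (ha : AnalyticAt ℂ a ζ) (hb : AnalyticAt ℂ b ζ)
    (k : Fin 3) : AnalyticAt ℂ (fun y => nn_om02 (a y) (b y) k) ζ := by
  fin_cases k
  · exact ((an1_om02 ha 1).mul (an2_om02 hb)).sub ((an2_om02 ha).mul (an1_om02 hb 1))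
  · exact ((an2_om02 ha).mul (an1_om02 hb 0)).sub ((an1_om02 ha 0).mul (an2_om02 hb))
  · exact ((an1_om02 ha 0).mul (an1_om02 hb 1)).sub ((an1_om02 ha 1).mul (an1_om02 hb 0))

theorem app_om02 {F : Type} [NormedAddCommGroup F] [NormedSpace ℂ F] {G : Type}
    [NormedAddCommGroup G] [NormedSpace ℂ G] {f : C2 → F →L[ℂ] G} {ζ : C2}
    (hf : AnalyticAt ℂ f ζ) (v : F) : AnalyticAt ℂ (fun y => f y v) ζ :=
  ((ContinuousLinearMap.apply ℂ G v).analyticAt _).comp hf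

theorem ind_om02 (L : C2 →L[ℂ] C3) (hL : Function.Injective L) :
    ∃ α β : C3 →L[ℂ] ℂ, α (L (Pi.single 0 1)) * β (L (Pi.single 1 1)) -
      α (L (Pi.single 1 1)) * β (L (Pi.single 0 1)) ≠ 0 := by
  obtain ⟨g, hg⟩ := (L : C2 →ₗ[ℂ] C3).exists_leftInverse_of_injective (LinearMap.ker_eq_bot.2 hL)
  have h : ∀ v, g (L v) = v := fun v => LinearMap.congr_fun hg v
  refine ⟨LinearMap.toContinuousLinearMap ((LinearMap.proj 0).comp g),
    LinearMap.toContinuousLinearMap ((LinearMap.proj 1).comp g), ?_⟩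
  simp [h]

theorem p_OM0 :
    S_OM0 := by
  intro H j ζ hj hinj hH hne h0
  obtain ⟨k, hk⟩ : ∃ k, fderiv ℂ H (j ζ) (e3 k) ≠ 0 := by
    by_contra hc
    push Not at hc
    apply hne
    refine ContinuousLinearMap.ext fun v => ?_
    rw [clm_e3, hc, hc, hc]
    simp
  have ha := app_om02 hj.fderiv (Pi.single 0 1)
  have hb := app_om02 hj.fderiv (Pi.single 1 1)
  have hh : AnalyticAt ℂ (fun y => fderiv ℂ H (j y) (e3 k)) ζ :=
    app_om02 (hH.fderiv.comp hj) (e3 k)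
  have hz : ∀ᶠ y in 𝓝 ζ, ∀ v, fderiv ℂ H (j y) (fderiv ℂ j y v) = 0 := by
    filter_upwards [h0.eventually_nhds, hj.eventually_analyticAt,
      hj.continuousAt.eventually hH.eventually_analyticAt] with y h1 h2 h3 v
    have h4 : fderiv ℂ (H ∘ j) y = 0 := by
      have : H ∘ j =ᶠ[𝓝 y] fun _ => 0 := h1
      rw [this.fderiv_eq]
      simp
    rw [fderiv_comp y h3.differentiableAt h2.differentiableAt] at h4
    exact DFunLike.congr_fun h4 v
  have heq : ∀ᶠ y in 𝓝 ζ, ∀ α β : C3 →L[ℂ] ℂ,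
      α (fderiv ℂ j y (Pi.single 0 1)) * β (fderiv ℂ j y (Pi.single 1 1)) -
        α (fderiv ℂ j y (Pi.single 1 1)) * β (fderiv ℂ j y (Pi.single 0 1)) =
        nn_om02 (fderiv ℂ j y (Pi.single 0 1)) (fderiv ℂ j y (Pi.single 1 1)) k /
          fderiv ℂ H (j y) (e3 k) * fderiv ℂ H (j y) (crs α β) := by
    filter_upwards [hz, hh.continuousAt.eventually_ne hk] with y h1 h2 α β
    rw [div_mul_eq_mul_div, eq_div_iff h2]
    exact alg_om02 _ _ _ (h1 _) (h1 _) k α β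
  refine ⟨_, (ann_om02 ha hb k).div hh hk, ?_, heq⟩
  intro hμ
  obtain ⟨α, β, h⟩ := ind_om02 _ hinj
  apply h
  rw [heq.self_of_nhds α β]
  exact mul_eq_zero_of_left hμ _

end Pool.Agent.P.MP_ab0431_ag.UB.V2
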