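import Pool.Agent.P.MP_ab0431_ag.UB2.IfaceA

/-! Steps OM1 OM2 GRAT PUB OM3 PUD0 PUC PUN ZACC SEPF BEZ PT3. -/

set_option autoImplicit false
set_option linter.unusedSectionVars false
set_option linter.unusedVariables false

namespace Pool.Agent.P.MP_ab0431_ag.UB.V2

open Polynomial Set Filter Topology Asymptotics MeasureTheory
open scoped Manifold ContDiff

theorem an_om12 {D : C2 → ℂ} {v : C3} (h : AnalyticAt ℂ D v.1) : AnalyticAt ℂ (Hd D) v :=
  (analyticAt_snd.pow 2).sub (h.comp analyticAt_fst)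

theorem ne_om12 {D : C2 → ℂ} {v : C3} (h : AnalyticAt ℂ D v.1) (h0 : v ≠ 0)
    (h1 : v.2 ^ 2 = D v.1) (h2 : v.1 ≠ 0 → D v.1 = 0 → fderiv ℂ D v.1 ≠ 0) :
    fderiv ℂ (Hd D) v ≠ 0 := by
  intro hz
  have a : HasFDerivAt (Hd D) (((2 : ℕ) • v.2 ^ (2 - 1)) • ContinuousLinearMap.snd ℂ C2 ℂ -
      (fderiv ℂ D v.1).comp (ContinuousLinearMap.fst ℂ C2 ℂ)) v :=
    (hasFDerivAt_snd.pow 2).sub (h.differentiableAt.hasFDerivAt.comp v hasFDerivAt_fst)
  rw [a.fderiv] at hz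
  have b : v.2 = 0 := by simpa using congrArg (fun T => T ((0 : C2), (1 : ℂ))) hz
  refine h2 (fun e => h0 (Prod.ext e b)) (by rw [← h1, b]; simp) (ContinuousLinearMap.ext fun u => ?_)
  simpa using congrArg (fun T => T (u, (0 : ℂ))) hz

theorem p_OM1 (hOM0 : S_OM0) :
    S_OM1 := by
  intro X q hq
  obtain ⟨⟨h1, h1'⟩, h2, h3, -, -⟩ := X.dp q hq
  have a : ∀ᶠ x in comap X.ι (𝓝 q), X.ι x ∈ (X.ψ q).source :=
    tendsto_comap.eventually ((X.ψ q).open_source.mem_nhds h2)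
  have b := ((continuous_fst.tendsto (0 : C3)).comp (tendsto_co X hq)).eventually
    (eventually_nhdsWithin_iff.1 (iso_q X hq).iso)
  filter_upwards [a, b] with x hx hb e he hxe
  have he' : e.MDifferentiable 𝓘(ℂ, C2) 𝓘(ℂ, C2) := mdifferentiable_of_mem_atlas he
  have hU : IsOpen (e.target ∩ e.symm ⁻¹' (X.ι ⁻¹' (X.ψ q).source)) :=
    e.isOpen_inter_preimage_symm ((X.ψ q).open_source.preimage X.emb.continuous)
  have hl : e.symm (e x) = x := e.left_inv hxe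
  have hm : e x ∈ e.target ∩ e.symm ⁻¹' (X.ι ⁻¹' (X.ψ q).source) :=
    ⟨e.map_source hxe, by rw [mem_preimage, hl]; exact hx⟩
  have c : AnalyticAt ℂ (fun y => X.co q (e.symm y)) (e x) :=
    MP_f17f76_ag.E.analyticOnNhd_of_diffOn hU (fun y hy =>
      (mdifferentiableAt_iff_differentiableAt.1
        ((h1' _ hy.2).1.comp y (he'.mdifferentiableAt_symm hy.1))).differentiableWithinAt) _ hm
  have d : Function.Injective (fderiv ℂ (fun y => X.co q (e.symm y)) (e x)) := by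
    have d1 := mfderiv_comp (e x) (h1' _ hm.2).1 (he'.mdifferentiableAt_symm hm.1)
    rw [mfderiv_eq_fderiv] at d1
    have d2 := (h1' _ hm.2).2.comp (he'.symm.mfderiv_injective hm.1)
    exact fun u v huv => d2 (by
      have d3 := congrArg (fun T => T u) d1
      have d4 := congrArg (fun T => T v) d1
      exact d3.symm.trans (huv.trans d4))
  have f : AnalyticAt ℂ (X.D q) (X.co q x).1 := h1 _ ((X.ψ q).map_source hx)
  refine ⟨c, d, hOM0 _ _ _ c d ?_ ?_ (Eventually.of_forall fun y => sub_eq_zero.2 (X.ψ q _).2)⟩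
  · rw [hl]; exact an_om12 f
  · rw [hl]
    refine ne_om12 f (fun e0 => hq ⟨x, (X.ψ q).injOn hx h2 (Subtype.ext (e0.trans h3.symm))⟩)
      (X.ψ q _).2 hb

end Pool.Agent.P.MP_ab0431_ag.UB.V2

namespace Pool.Agent.P.MP_ab0431_ag.UB.V2

open Polynomial Set Filter Topology Asymptotics MeasureTheory
open scoped Manifold ContDiff

theorem det_om22 {D : C2 → ℂ} {j : C2 → C3} {y : C2} {m : ℂ} (hj : DifferentiableAt ℂ j y)
    (hD : DifferentiableAt ℂ D (j y).1) (h : ∀ α β : C3 →L[ℂ] ℂ,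
      α (fderiv ℂ j y (Pi.single 0 1)) * β (fderiv ℂ j y (Pi.single 1 1)) -
        α (fderiv ℂ j y (Pi.single 1 1)) * β (fderiv ℂ j y (Pi.single 0 1)) =
        m * fderiv ℂ (Hd D) (j y) (crs α β)) :
    (fderiv ℂ (fun y => (j y).1) y).det = 2 * m * (j y).2 := by
  have h1 := h ((ContinuousLinearMap.proj 0).comp (ContinuousLinearMap.fst ℂ C2 ℂ))
    ((ContinuousLinearMap.proj 1).comp (ContinuousLinearMap.fst ℂ C2 ℂ))
  have h2 := ((hasFDerivAt_snd (𝕜 := ℂ) (p := j y)).pow 2).sub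
    (hD.hasFDerivAt.comp (j y) hasFDerivAt_fst)
  rw [show fderiv ℂ (Hd D) (j y) = _ from h2.fderiv] at h1
  have h3 : (![0, 0] : C2) = 0 := by ext i; fin_cases i <;> rfl
  rw [det_jform, fderiv.fst hj]
  simpa [crs, e3, h3, mul_left_comm, mul_assoc] using h1

theorem ne_om22 {j : C2 → C3} {y : C2} (hj : DifferentiableAt ℂ j y)
    (hi : Function.Injective (fderiv ℂ j y)) (h : ∀ᶠ y' in 𝓝 y, (j y').2 = 0) :
    (fderiv ℂ (fun y => (j y).1) y).det ≠ 0 := fun h0 => by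
  obtain ⟨v, h1, h2⟩ := (Submodule.ne_bot_iff _).1 (LinearMap.det_eq_zero_iff_ker_ne_bot.1 h0)
  have h3 : fderiv ℂ (fun y => (j y).2) y = fderiv ℂ (fun _ => 0) y := EventuallyEq.fderiv_eq h
  rw [fderiv.snd hj, fderiv_fun_const] at h3
  rw [fderiv.fst hj] at h1
  have h4 : fderiv ℂ j y v = 0 := Prod.ext h1 (congrArg (fun L => L v) h3)
  exact h2 (hi (h4.trans (map_zero _).symm))

theorem p_OM2 (hOM1 : S_OM1) :
    S_OM2 := by
  intro X q n t G hq hG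
  have h1 := eventually_comap.1 ((hG.2 q hq).2.and ((hOM1 X q hq).and
    (((tendsto_co X hq).eventually (hG.2 q hq).1.eventually_analyticAt).and
      (((continuous_fst.tendsto' 0 0 rfl).comp (tendsto_co X hq)).eventually
        (iso_q X hq).an.eventually_analyticAt))))
  filter_upwards [tendsto_comap.eventually h1.eventually_nhds] with x hx e he hxe μ hμ
  have h2 := (e.tendsto_symm hxe).eventually ((X.emb.continuous.tendsto x).eventually hx)
  have h3 : ∀ᶠ y in 𝓝 (e x), (AnalyticAt ℂ (fun y => X.co q (e.symm y)) y ∧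
      Function.Injective (fderiv ℂ (fun y => X.co q (e.symm y)) y) ∧ ContinuousAt
        (fun y => t e y - G q (X.co q (e.symm y)) * (2 * μ y) ^ n) y) ∧
      (fderiv ℂ (fun y => (X.co q (e.symm y)).1) y).det = 2 * μ y * (X.co q (e.symm y)).2 ∧
      (t e y - G q (X.co q (e.symm y)) * (2 * μ y) ^ n) * (X.co q (e.symm y)).2 ^ n = 0 := by
    filter_upwards [h2, e.open_target.mem_nhds (e.map_source hxe), hμ.eq,
      hμ.an.eventually_analyticAt] with y a b c d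
    obtain ⟨a1, a2, a3, a4⟩ := a _ rfl
    have a5 := a1 e he (e.map_target b)
    obtain ⟨a6, a7, -⟩ := a2 e he (e.map_target b)
    rw [e.right_inv b] at a5 a6 a7
    have a8 := det_om22 a6.differentiableAt a4.differentiableAt c
    refine ⟨⟨a6, a7, (isForm_analyticAt hG.1 he b).continuousAt.sub
      ((a3.continuousAt.comp_of_eq a6.continuousAt rfl).mul
        ((continuousAt_const.mul d.continuousAt).pow n))⟩, a8, ?_⟩
    rw [sub_mul, a5, a8]
    ring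
  filter_upwards [h3.eventually_nhds] with y hy
  obtain ⟨⟨a1, a2, a3⟩, a4, -⟩ := hy.self_of_nhds
  by_contra hc
  have h4 : ∀ᶠ y' in 𝓝 y, (X.co q (e.symm y')).2 = 0 := by
    filter_upwards [hy, a3.eventually_ne (sub_ne_zero.2 hc)] with y' a b
    exact eq_zero_of_pow_eq_zero ((mul_eq_zero.1 a.2.2).resolve_left b)
  exact ne_om22 a1.differentiableAt a2 h4 (by rw [a4, h4.self_of_nhds, mul_zero])

end Pool.Agent.P.MP_ab0431_ag.UB.V2

namespace Pool.Agent.P.MP_ab0431_ag.UB.V2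

open Polynomial Set Filter Topology Asymptotics MeasureTheory
open scoped Manifold ContDiff

theorem p_GRAT (hOM1 : S_OM1) (hOM2 : S_OM2) :
    S_GRAT := by
  classical
  intro X h q hq
  have hm : ∀ x : X.X, ∃ c : ℂ,
      (∃ μ, Vol (Hd (X.D q)) (fun y => X.co q ((h.e x).symm y)) (h.e x x) μ) →
        ∃ μ, Vol (Hd (X.D q)) (fun y => X.co q ((h.e x).symm y)) (h.e x x) μ ∧
          c = 2 * μ (h.e x x) := by
    intro x
    by_cases hx : ∃ μ, Vol (Hd (X.D q)) (fun y => X.co q ((h.e x).symm y)) (h.e x x) μ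
    · obtain ⟨μ, hμ⟩ := hx
      exact ⟨2 * μ (h.e x x), fun _ => ⟨μ, hμ, rfl⟩⟩
    · exact ⟨1, fun a => (hx a).elim⟩
  choose m hm using hm
  have e1 : ∀ x, Function.extend X.ι m (fun _ => (1 : ℂ)) (X.ι x) = m x := fun x =>
    X.emb.injective.extend_apply _ _ x
  have e2 : Function.extend X.ι m (fun _ => (1 : ℂ)) q = 1 := Function.extend_apply' _ _ q hq
  refine ⟨Function.extend X.ι m fun _ => 1, ?_, fun n t G hG => ?_⟩
  · refine ev_of_comap (by rw [e2]; exact one_ne_zero) ?_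
    filter_upwards [hOM1 X q hq] with x hx
    obtain ⟨μ, hμ, e⟩ := hm x (hx _ (h.mem x) (h.src x)).2.2
    rw [e1, e]
    exact mul_ne_zero two_ne_zero hμ.ne
  · refine ev_of_comap (P := fun b => h.vb t G b =
      G q (X.ψ q b).1 * Function.extend X.ι m (fun _ => (1 : ℂ)) b ^ n) ?_ ?_
    · rw [e2, h.vb_q _ _ hq, (X.dp q hq).2.2.1, one_pow, mul_one]
    · filter_upwards [hOM1 X q hq, hOM2 X q n t G hq hG] with x hx hy
      obtain ⟨μ, hμ, e⟩ := hm x (hx _ (h.mem x) (h.src x)).2.2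
      have a := (hy _ (h.mem x) (h.src x) μ hμ).self_of_nhds
      rw [(h.e x).left_inv (h.src x)] at a
      rw [e1, e, h.vb_ι]
      exact a

end Pool.Agent.P.MP_ab0431_ag.UB.V2

namespace Pool.Agent.P.MP_ab0431_ag.UB.V2

open Polynomial Set Filter Topology Asymptotics MeasureTheory
open scoped Manifold ContDiff

theorem cont_pub2 (X : DSurf) {q : X.B} (hq : q ∉ range X.ι) {g : C3 → ℂ}
    (hg : AnalyticAt ℂ g 0) : ContinuousAt (fun b => g (X.ψ q b).1) q := by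
  obtain ⟨-, h1, h2, -⟩ := X.dp q hq
  have h3 : ContinuousAt (fun b => (X.ψ q b).1) q :=
    continuous_subtype_val.continuousAt.comp ((X.ψ q).continuousAt h1)
  exact ContinuousAt.comp_of_eq hg.continuousAt h3 h2

theorem p_PUB (hGRAT : S_GRAT) :
    S_PUB := by
  intro X M h s G q hT hq
  obtain ⟨u, hu, hG⟩ := hGRAT X h q hq
  have h2 : (X.ψ q q).1 = 0 := (X.dp q hq).2.2.1
  have c0 := cont_pub2 X hq ((hT.gr 0).2 q hq).1
  have n0 : G 0 q (X.ψ q q).1 ≠ 0 := by rw [h2]; exact hT.opn.g0 q hq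
  have e0 : ∀ᶠ b in 𝓝 q, G 0 q (X.ψ q b).1 ≠ 0 := c0.eventually_ne n0
  refine ⟨?_, fun n t H hH => ?_⟩
  · filter_upwards [hu, e0, hG M _ _ (hT.gr 0), hG M _ _ (hT.gr 1), hG M _ _ (hT.gr 2)] with
      b a1 a2 a3 a4 a5
    have a6 : u b ^ M ≠ 0 := pow_ne_zero _ a1
    refine ⟨?_, ?_⟩
    · rw [Ch.vv, a3]; exact mul_ne_zero a2 a6
    · simp only [Ch.af, Ch.vv, a3, a4, a5, Pi.div_apply, mul_div_mul_right _ _ a6]
  · have c1 := cont_pub2 X hq (hH.2 q hq).1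
    refine (c1.div (c0.pow n) (pow_ne_zero _ n0)).congr ?_
    filter_upwards [hu, hG M _ _ (hT.gr 0), hG _ _ _ hH] with b a1 a3 a4
    have a6 : u b ^ (n * M) ≠ 0 := pow_ne_zero _ a1
    simp only [Ch.vv, a3, a4, Pi.div_apply, Pi.pow_apply]
    rw [mul_pow, ← pow_mul, mul_comm M n, mul_div_mul_right _ _ a6]

end Pool.Agent.P.MP_ab0431_ag.UB.V2

namespace Pool.Agent.P.MP_ab0431_ag.UB.V2

open Polynomial Set Filter Topology Asymptotics MeasureTheory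
open scoped Manifold ContDiff

theorem pair_an_om32 {x z : C3 → ℂ} {v : C3} (hx : AnalyticAt ℂ x v) (hz : AnalyticAt ℂ z v) :
    AnalyticAt ℂ (fun v => (![x v, z v] : C2)) v :=
  analyticAt_pi_iff.2 fun i => by fin_cases i <;> assumption

theorem ap_an_om32 {x : C3 → ℂ} {v : C3} (hx : AnalyticAt ℂ x v) (ξ : C3) :
    AnalyticAt ℂ (fun v => fderiv ℂ x v ξ) v :=
  ((ContinuousLinearMap.apply ℂ ℂ ξ).analyticAt _).comp hx.fderiv

theorem dH_om32 {H x z w : C3 → ℂ} {D' : C2 → ℂ} {v : C3} (hx : AnalyticAt ℂ x v)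
    (hz : AnalyticAt ℂ z v) (hw : AnalyticAt ℂ w v) (hD : AnalyticAt ℂ D' ![x v, z v])
    (h : ∀ᶠ u in 𝓝 v, H u = w u ^ 2 - D' ![x u, z u]) (ξ : C3) :
    fderiv ℂ H v ξ = 2 * w v * fderiv ℂ w v ξ - (fderiv ℂ x v ξ * pd 0 D' ![x v, z v] +
      fderiv ℂ z v ξ * pd 1 D' ![x v, z v]) := by
  have h1 : HasFDerivAt (fun u => (![x u, z u] : C2))
      (ContinuousLinearMap.pi ![fderiv ℂ x v, fderiv ℂ z v]) v :=
    hasFDerivAt_pi.2 fun i => by
      fin_cases i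
      exacts [hx.differentiableAt.hasFDerivAt, hz.differentiableAt.hasFDerivAt]
  have h2 := (hw.differentiableAt.hasFDerivAt.pow 2).sub
    (hD.differentiableAt.hasFDerivAt.comp v h1)
  have h3 : H =ᶠ[𝓝 v] _ := h
  rw [(h2.congr_of_eventuallyEq h3).fderiv]
  simp only [sub_apply, smul_apply,
    ContinuousLinearMap.comp_apply, fderiv_apply_pd D']
  simp

theorem jac_om32 {f g : C3 → ℂ} {j : C2 → C3} {y : C2} (hj : AnalyticAt ℂ j y)
    (hf : AnalyticAt ℂ f (j y)) (hg : AnalyticAt ℂ g (j y)) :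
    jac (f ∘ j) (g ∘ j) y =
      fderiv ℂ f (j y) (fderiv ℂ j y (Pi.single 0 1)) *
          fderiv ℂ g (j y) (fderiv ℂ j y (Pi.single 1 1)) -
        fderiv ℂ f (j y) (fderiv ℂ j y (Pi.single 1 1)) *
          fderiv ℂ g (j y) (fderiv ℂ j y (Pi.single 0 1)) := by
  unfold jac pd
  rw [fderiv_comp y hf.differentiableAt hj.differentiableAt,
    fderiv_comp y hg.differentiableAt hj.differentiableAt]
  rfl

theorem p_OM3 :
    S_OM3 := by
  intro D D' x z w h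
  refine ⟨fun v => fderiv ℂ w v (crs (fderiv ℂ x v) (fderiv ℂ z v)), ?_, h.kap, ?_⟩
  · simp only [clm_crs]
    have a := ap_an_om32 h.xan
    have b := ap_an_om32 h.zan
    have c := ap_an_om32 h.wan
    exact (((((a _).mul (b _)).sub ((a _).mul (b _))).mul (c _)).add
      ((((a _).mul (b _)).sub ((a _).mul (b _))).mul (c _))).add
      ((((a _).mul (b _)).sub ((a _).mul (b _))).mul (c _))
  have e : ∀ᶠ v in 𝓝 (0 : C3), AnalyticAt ℂ x v ∧ AnalyticAt ℂ z v ∧ AnalyticAt ℂ w v ∧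
      AnalyticAt ℂ D' ![x v, z v] ∧ ∀ᶠ u in 𝓝 v, Hd D u = w u ^ 2 - D' ![x u, z u] :=
    h.xan.eventually_analyticAt.and (h.zan.eventually_analyticAt.and
      (h.wan.eventually_analyticAt.and (((pair_an_om32 h.xan h.zan).continuousAt.eventually
        h.an.eventually_analyticAt).and h.eq.eventually_nhds)))
  filter_upwards [e.eventually_nhds] with v hv j ζ μ hζ hj hV
  subst hζ
  filter_upwards [hj.continuousAt.eventually hv, hj.eventually_analyticAt, hV.eq] with y a b c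
  obtain ⟨a1, a2, a3, a4, a5⟩ := a
  rw [jac_om32 b a1 a2, jac_om32 b a1 a3, c, c, dH_om32 a1 a2 a3 a4 a5, dH_om32 a1 a2 a3 a4 a5]
  simp only [clm_crs]
  constructor <;> ring

end Pool.Agent.P.MP_ab0431_ag.UB.V2

namespace Pool.Agent.P.MP_ab0431_ag.UB.V2

open Polynomial Set Filter Topology Asymptotics MeasureTheory
open scoped Manifold ContDiff

theorem p_PUD0 :
    S_PUD0 := by
  intro M f U W ζ hM hf h0 hU hW hW0 hj
  have h1 : ∀ᶠ y in 𝓝 ζ, wjf M M M (f 0) (f 1) (f 2) y = (M * f 0 y ^ 3 * U y) * W y := by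
    filter_upwards [(t_WJ M f ζ hM hf h0).2.1, hj] with y a b
    rw [a, b, mul_assoc _ (U y)]
  have hJ : wjf M M M (f 0) (f 1) (f 2) ζ = 0 := by rw [h1.self_of_nhds, hW0, mul_zero]
  have h2 := mul_wj (u := fun y => (M : ℂ) * f 0 y ^ 3 * U y)
    ((analyticAt_const.mul ((hf 0).pow 3)).mul hU) hW h1
  have h3 : ∀ i, pd i (wjf M M M (f 0) (f 1) (f 2)) ζ =
      (M : ℂ) * f 0 ζ ^ 3 * U ζ * pd i W ζ := fun i => by
    rw [pd, h2, hW0]; simp [pd]
  obtain ⟨b1, c1⟩ := num_wj (hf 1) (hf 0) h0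
  rw [wjf, hJ, jac, jac, jac, jac, h3 0, h3 1, c1 0, c1 1]
  generalize (f 1 / f 0) ζ = p at b1 ⊢
  rw [b1]
  ring

end Pool.Agent.P.MP_ab0431_ag.UB.V2

namespace Pool.Agent.P.MP_ab0431_ag.UB.V2

open Polynomial Set Filter Topology Asymptotics MeasureTheory
open scoped Manifold ContDiff

theorem jac_congr_puc2 {f f' g g' : C2 → ℂ} {ζ : C2} (hf : f =ᶠ[𝓝 ζ] f') (hg : g =ᶠ[𝓝 ζ] g') :
    ∀ᶠ y in 𝓝 ζ, jac f g y = jac f' g' y := by
  filter_upwards [hf.fderiv (𝕜 := ℂ), hg.fderiv (𝕜 := ℂ)] with y a b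
  simp only [jac, pd, a, b]

theorem loc_puc2 (hPUD0 : S_PUD0) {M : ℕ} (hM : M ≠ 0) {f : Fin 3 → C2 → ℂ} {ζ : C2}
    {j : C2 → C3} {μ : C2 → ℂ} {g : Fin 3 → C3 → ℂ} {κ w : C3 → ℂ} {P : ℂ}
    (hfa : ∀ i, AnalyticAt ℂ (f i) ζ) (hj : AnalyticAt ℂ j ζ) (hμ : AnalyticAt ℂ μ ζ)
    (hμ0 : μ ζ ≠ 0) (hg0 : g 0 (j ζ) ≠ 0) (hκ : AnalyticAt ℂ κ (j ζ)) (hκ0 : κ (j ζ) ≠ 0)
    (hw : AnalyticAt ℂ w (j ζ)) (hf : ∀ i, ∀ᶠ y in 𝓝 ζ, f i y = g i (j y) * (2 * μ y) ^ M)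
    (h1 : ∀ᶠ y in 𝓝 ζ, jac ((g 1 / g 0) ∘ j) ((g 2 / g 0) ∘ j) y = 2 * μ y * κ (j y) * w (j y))
    (h2 : jac ((g 1 / g 0) ∘ j) (w ∘ j) ζ = μ ζ * κ (j ζ) * P) :
    (wjf M M M (f 0) (f 1) (f 2) ζ = 0 ↔ w (j ζ) = 0) ∧ (w (j ζ) = 0 →
      wjf (3 * M + 1) M M (wjf M M M (f 0) (f 1) (f 2)) (f 0) (f 1) ζ ^ M / f 0 ζ ^ (5 * M + 2) =
        (M ^ 2 / 2 * κ (j ζ) ^ 2) ^ M / g 0 (j ζ) ^ 2 * P ^ M) := by
  have hM' : (M : ℂ) ≠ 0 := Nat.cast_ne_zero.2 hM
  have e0 := (hf 0).self_of_nhds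
  have hf0 : f 0 ζ ≠ 0 := by
    rw [e0]; exact mul_ne_zero hg0 (pow_ne_zero _ (mul_ne_zero two_ne_zero hμ0))
  have hr : ∀ i, f i / f 0 =ᶠ[𝓝 ζ] (g i / g 0) ∘ j := fun i => by
    filter_upwards [hf i, hf 0, hμ.continuousAt.eventually_ne hμ0] with y a b c
    simp only [Pi.div_apply, Function.comp_apply, a, b]
    exact mul_div_mul_right _ _ (pow_ne_zero _ (mul_ne_zero two_ne_zero c))
  have h3 : ∀ᶠ y in 𝓝 ζ, jac (f 1 / f 0) (f 2 / f 0) y =
      (fun y => 2 * μ y * κ (j y)) y * (w ∘ j) y := by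
    filter_upwards [jac_congr_puc2 (hr 1) (hr 2), h1] with y a b
    rw [a, b]; rfl
  have h4 : jac (f 1 / f 0) (w ∘ j) ζ = μ ζ * κ (j ζ) * P :=
    (jac_congr_puc2 (hr 1) EventuallyEq.rfl).self_of_nhds.trans h2
  have h5 := t_WJ M f ζ hM hfa hf0
  have h6 := h5.2.1.self_of_nhds
  rw [h3.self_of_nhds] at h6
  refine ⟨?_, fun hw0 => ?_⟩
  · rw [h6]
    simp [hM, hf0, hμ0, hκ0]
  · have h7 := hPUD0 M f (fun y => 2 * μ y * κ (j y)) (w ∘ j) ζ hM hfa hf0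
      ((analyticAt_const.mul hμ).mul (hκ.comp hj)) (hw.comp hj) hw0 h3
    rw [h7, h4]
    have h8 : (M : ℂ) ^ 2 * f 0 ζ ^ 5 * (2 * μ ζ * κ (j ζ)) * (μ ζ * κ (j ζ) * P) =
        f 0 ζ ^ 5 * (2 * μ ζ) ^ 2 * ((M ^ 2 / 2 * κ (j ζ) ^ 2) * P) := by ring
    have h9 : f 0 ζ ^ (5 * M + 2) = (f 0 ζ ^ 5 * (2 * μ ζ) ^ 2) ^ M * g 0 (j ζ) ^ 2 := by
      rw [pow_add, pow_mul, mul_pow (f 0 ζ ^ 5), mul_assoc, ← pow_mul (2 * μ ζ), mul_comm 2 M,
        pow_mul (2 * μ ζ), ← mul_pow, mul_comm _ (g 0 (j ζ)), ← e0]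
    have h10 : (f 0 ζ ^ 5 * (2 * μ ζ) ^ 2) ^ M ≠ 0 :=
      pow_ne_zero _ (mul_ne_zero (pow_ne_zero _ hf0)
        (pow_ne_zero _ (mul_ne_zero two_ne_zero hμ0)))
    rw [h8, h9, mul_pow, mul_div_mul_left _ _ h10, mul_pow _ P, mul_div_right_comm]

theorem p_PUC (hOM1 : S_OM1) (hOM2 : S_OM2) (hOM3 : S_OM3) (hPUD0 : S_PUD0) :
    S_PUC := by
  intro X M h s G q w D' H hq A
  have hM : M ≠ 0 := by have := H.tri.pos; omega
  obtain ⟨κ, hκ, hκ0, h3⟩ := hOM3 _ _ _ _ _ A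
  have hG : AnalyticAt ℂ (G 0 q) 0 := ((H.gr 0).2 q hq).1
  have hG0 := H.opn.g0 q hq
  have hc : ContinuousAt (fun v => ‖((M : ℂ) ^ 2 / 2 * κ v ^ 2) ^ M / G 0 q v ^ 2‖) 0 :=
    (((continuousAt_const.mul (hκ.continuousAt.pow 2)).pow M).div (hG.continuousAt.pow 2)
      (pow_ne_zero 2 hG0)).norm
  refine ⟨‖((M : ℂ) ^ 2 / 2 * κ 0 ^ 2) ^ M / G 0 q 0 ^ 2‖ + 1, ?_⟩
  have hb := hc.eventually (gt_mem_nhds (lt_add_one _))
  have T := tendsto_co X hq
  filter_upwards [hOM1 X q hq, hOM2 X q M _ _ hq (H.gr 0), hOM2 X q M _ _ hq (H.gr 1),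
    hOM2 X q M _ _ hq (H.gr 2), T.eventually h3, T.eventually hb,
    T.eventually hκ.eventually_analyticAt, T.eventually A.wan.eventually_analyticAt,
    T.eventually (hκ.continuousAt.eventually_ne hκ0),
    T.eventually (hG.continuousAt.eventually_ne hG0)] with p a1 a20 a21 a22 a3 ab aκ aw bκ bG
  obtain ⟨ja, -, μ, hV⟩ := a1 _ (h.mem p) (h.src p)
  obtain ⟨j, hj⟩ : ∃ j : C2 → C3, j = fun y => X.co q ((h.e p).symm y) := ⟨_, rfl⟩
  have hζ : j (h.e p p) = X.co q p := by rw [hj]; simp only [(h.e p).left_inv (h.src p)]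
  have b0 := a20 _ (h.mem p) (h.src p) μ hV
  have b1 := a21 _ (h.mem p) (h.src p) μ hV
  have b2 := a22 _ (h.mem p) (h.src p) μ hV
  have hf : ∀ i : Fin 3, ∀ᶠ y in 𝓝 (h.e p p), s i (h.e p) y = G i q (j y) * (2 * μ y) ^ M := by
    intro i; rw [hj]; fin_cases i
    exacts [b0, b1, b2]
  rw [← hj] at ja hV
  have c3 := a3 j _ μ hζ ja hV
  have L := loc_puc2 hPUD0 hM (f := fun i => s i (h.e p)) (g := fun i => G i q) (κ := κ) (w := w)
    (fun i => isForm_analyticAt (H.gr i).1 (h.mem p) ((h.e p).map_source (h.src p))) ja hV.an hV.ne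
    (hζ ▸ bG) (hζ ▸ aκ) (hζ ▸ bκ) (hζ ▸ aw) hf (c3.mono fun _ a => a.1) c3.self_of_nhds.2
  rw [hζ] at L
  refine ⟨L.1, fun h0 => ?_⟩
  have L2 := L.2 (L.1.1 h0)
  have : h.vl (J2 M s) p ^ M / h.vl (s 0) p ^ (5 * M + 2) = _ := L2
  rw [this, norm_mul, norm_pow]
  exact mul_le_mul_of_nonneg_right ab.le (pow_nonneg (norm_nonneg _) _)

end Pool.Agent.P.MP_ab0431_ag.UB.V2

namespace Pool.Agent.P.MP_ab0431_ag.UB.V2

open Polynomial Set Filter Topology Asymptotics MeasureTheory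
open scoped Manifold ContDiff

theorem fderiv_div_pun2 {f g : C3 → ℂ} (hf : AnalyticAt ℂ f 0) (hg : AnalyticAt ℂ g 0)
    (h0 : f 0 ≠ 0) : fderiv ℂ (g / f) 0 = (f 0 ^ 2)⁻¹ • lin f g := by
  have h1 := hg.differentiableAt.hasFDerivAt
  have h2 := hf.differentiableAt.hasFDerivAt
  have h3 := h1.mul ((hasDerivAt_inv h0).comp_hasFDerivAt 0 h2)
  have e : g / f = g * ((fun y : ℂ => y⁻¹) ∘ f) := by
    funext v; simp [div_eq_mul_inv]
  rw [e, h3.fderiv]
  ext v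
  · simp [lin]; field_simp; ring
  · simp [lin]; field_simp; ring

theorem crs_smul_pun2 (a : ℂ) (α β : C3 →L[ℂ] ℂ) : crs (a • α) (a • β) = (a * a) • crs α β := by
  ext i
  · fin_cases i <;> simp [crs] <;> ring
  · simp [crs]; ring

theorem hes_smul_pun2 (D : C2 → ℂ) (a : ℂ) (v : C3) : hes D (a • v) = a * a * hes D v := by
  simp [hes, mul_assoc]

theorem p_PUN (hAM0 : S_AM0) (hAM1 : S_AM1) (hPUA : S_PUA) (hPUB : S_PUB) (hPUC : S_PUC) :
    S_PUN := by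
  intro X M h s G q hT hq
  have an : ∀ i, AnalyticAt ℂ (G i q) 0 := fun i => ((hT.gr i).2 q hq).1
  have g0 := hT.opn.g0 q hq
  have hx : AnalyticAt ℂ (G 1 q / G 0 q) 0 := (an 1).div (an 0) g0
  have hz : AnalyticAt ℂ (G 2 q / G 0 q) 0 := (an 2).div (an 0) g0
  have hc : hes (X.D q) (crs (fderiv ℂ (G 1 q / G 0 q) 0) (fderiv ℂ (G 2 q / G 0 q) 0)) ≠ 0 := by
    rw [fderiv_div_pun2 (an 0) (an 1) g0, fderiv_div_pun2 (an 0) (an 2) g0, crs_smul_pun2,
      hes_smul_pun2]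
    have : (G 0 q 0 ^ 2)⁻¹ ≠ 0 := inv_ne_zero (pow_ne_zero _ g0)
    exact mul_ne_zero (mul_ne_zero (mul_ne_zero this this) (mul_ne_zero this this))
      (hT.opn.cone q hq)
  obtain ⟨w, D', hA⟩ := hAM0 _ _ _ (iso_q X hq) hx hz hc
  obtain ⟨hI, Θ, h0, hΘ⟩ := hAM1 _ _ _ _ _ (iso_q X hq) hA
  obtain ⟨-, h2, h3, -⟩ := X.dp q hq
  obtain ⟨θ, hθ0, hθ⟩ := hPUA (X.D q) D' Θ (X.ψ q q) (by rw [h3]; exact h0) (by
    rw [h3]
    filter_upwards [hA.eq] with v hv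
    rw [hv, hΘ]; rfl)
  obtain ⟨C, hC⟩ := hPUC X M h s G q w D' hT hq hA
  obtain ⟨V, hV, Vo, Vq⟩ := mem_nhds_iff.1
    (((hPUB X M h s G q hT hq).1.and (ev_smooth q)).and (eventually_comap.1 hC))
  have hs : ∀ b ∈ (((X.ψ q).trans θ).restrOpen V Vo).source, b ∈ V ∧
      ((((X.ψ q).trans θ).restrOpen V Vo) b).1 = (![(G 1 q / G 0 q) (X.ψ q b).1,
        (G 2 q / G 0 q) (X.ψ q b).1], w (X.ψ q b).1) := fun b hb =>
    ⟨hb.2, (hθ _ hb.1.2).trans (hΘ _)⟩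
  have hm : q ∈ (((X.ψ q).trans θ).restrOpen V Vo).source := ⟨⟨h2, hθ0⟩, Vq⟩
  refine ⟨D', ((X.ψ q).trans θ).restrOpen V Vo, hm, fun b hb => ?_, ?_, ?_, fun b hb => ?_,
    fun p hp => ?_, C, fun p hp hJ => ?_⟩
  · have a := (hV (hs b hb).1).1.1
    exact ⟨a.1, by rw [(hs b hb).2, a.2]⟩
  · rw [(hs q hm).2, h3]; exact hA.w0
  · rw [(hV Vq).1.1.2, h3]; exact hI
  · exact (hV (hs b hb).1).1.2
  · rw [(hs _ hp).2]; exact ((hV (hs _ hp).1).2 p rfl).1
  · rw [(hV (hs _ hp).1).1.1.2]; exact ((hV (hs _ hp).1).2 p rfl).2 hJ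

end Pool.Agent.P.MP_ab0431_ag.UB.V2

namespace Pool.Agent.P.MP_ab0431_ag.UB.V2

open Polynomial Set Filter Topology Asymptotics MeasureTheory
open scoped Manifold ContDiff

theorem p_ZACC :
    S_ZACC := by
  intro D a hD h0 hc
  let φ : ℂ × ℂ → C2 := fun q => ![q.2, q.1]
  have e : φ (a 1, a 0) = a := by ext i; fin_cases i <;> rfl
  have hφ : AnalyticAt ℂ φ (a 1, a 0) := analyticAt_pi_iff.2 fun i => by
    fin_cases i
    exacts [analyticAt_snd, analyticAt_fst]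
  have h1 : ∀ᶠ q in 𝓝 (a 1, a 0), φ q ≠ a → D (φ q) ≠ 0 :=
    (e ▸ hφ.continuousAt.tendsto : Tendsto φ _ (𝓝 a)).eventually (eventually_nhdsWithin_iff.1 hc)
  rw [nhds_prod_eq, eventually_prod_iff] at h1
  obtain ⟨pa, ha, pb, hb, h1⟩ := h1
  have h2 := t_MINM ℂ (fun q => D (φ q)) (a 1) (a 0) ((e ▸ hD : AnalyticAt ℂ D (φ _)).comp hφ)
    (by rw [e, h0]) (eventually_nhdsWithin_iff.2 (ha.mono fun x hx hne =>
      h1 hx hb.self_of_nhds fun h => hne (congrFun h 1))) _ ha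
  obtain ⟨p, ⟨⟨x, hx, h3⟩, h4⟩, h5⟩ :=
    (((h2.and hb).filter_mono (nhdsWithin_le_nhds (s := {a 0}ᶜ))).and self_mem_nhdsWithin).exists
  exact h1 hx h4 (fun h => h5 (congrFun h 0)) h3

end Pool.Agent.P.MP_ab0431_ag.UB.V2

namespace Pool.Agent.P.MP_ab0431_ag.UB.V2

open Polynomial Set Filter Topology Asymptotics MeasureTheory
open scoped Manifold ContDiff

theorem p_SEPF :
    S_SEPF := by
  intro X h m S l ⟨N, σ, hσ, hv⟩ hl p hp
  have key : ∀ q, ∃ f : Sec X, IsForm X.X m f ∧ h.vl f p ≠ 0 ∧ (q ≠ p → h.vl f q = 0) := by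
    intro q
    by_cases hq : q = p
    · obtain ⟨i, hi⟩ := (hv _ (h.mem p) p (h.src p)).1
      exact ⟨σ i, hσ i, hi, fun a => (a hq).elim⟩
    obtain ⟨j, hj⟩ := (hv _ (h.mem q) q (h.src q)).1
    obtain ⟨i, hi⟩ := not_forall.1 fun a => hq ((hv _ (h.mem p) p (h.src p)).2.2 _ (h.mem q) q
      (h.src q) (h.vl (σ j) p / h.vl (σ j) q) a).symm
    refine ⟨h.vl (σ j) q • σ i - h.vl (σ i) q • σ j,
      isForm_sub (isForm_smul _ (hσ i)) (isForm_smul _ (hσ j)), fun a => hi ?_, fun _ => ?_⟩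
    · change h.vl (σ j) q * h.vl (σ i) p - h.vl (σ i) q * h.vl (σ j) p = 0 at a
      change h.vl (σ i) p = _ * h.vl (σ i) q
      change h.vl (σ j) q ≠ 0 at hj
      field_simp
      linear_combination a
    · change h.vl (σ j) q * h.vl (σ i) q - h.vl (σ i) q * h.vl (σ j) q = 0
      ring
  choose f hf h1 h2 using key
  have e : ∀ x, h.vl ((∏ q ∈ S, f q) * f p ^ (l - S.card)) x =
      (∏ q ∈ S, h.vl (f q) x) * h.vl (f p) x ^ (l - S.card) := fun x => by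
    simp only [Ch.vl, Pi.mul_apply, Pi.pow_apply, Finset.prod_apply]
  refine ⟨(∏ q ∈ S, f q) * f p ^ (l - S.card), ?_, ?_, fun q hq hn => ?_⟩
  · have := isForm_mul (isForm_prod S fun q _ => hf q) (isForm_pow (hf p) (l - S.card))
    rwa [← add_mul, Nat.add_sub_cancel' hl] at this
  · rw [e]
    exact mul_ne_zero (Finset.prod_ne_zero_iff.2 fun q _ => h1 q) (pow_ne_zero _ (h1 p))
  · rw [e, Finset.prod_eq_zero (f := fun x => h.vl (f x) q) hq (h2 q hn), zero_mul]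

end Pool.Agent.P.MP_ab0431_ag.UB.V2

namespace Pool.Agent.P.MP_ab0431_ag.UB.V2

open Polynomial Set Filter Topology Asymptotics MeasureTheory
open scoped Manifold ContDiff

theorem fin_bez2 {X : DSurf} {ι : Type} {n b : ℕ} (T : Finset ι) (F : ι → Sec X)
    (H : ∀ (r : ℕ) (σ : Fin r → Sec X), (∀ i, IsForm X.X n (σ i)) → (∀ c : Fin r → ℂ,
      (∀ e ∈ atlas C2 X.X, ∀ x ∈ e.source, ∑ i, c i * σ i e (e x) = 0) → c = 0) → 2 * r ≤ b)
    (h1 : ∀ t ∈ T, IsForm X.X n (F t)) (h2 : ∀ c : ι → ℂ, (∀ e ∈ atlas C2 X.X, ∀ x ∈ e.source,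
      ∑ t ∈ T, c t * F t e (e x) = 0) → ∀ t ∈ T, c t = 0) : 2 * T.card ≤ b := by
  classical
  refine H _ (fun i => F (T.equivFin.symm i)) (fun i => h1 _ (T.equivFin.symm i).2) fun c hc => ?_
  have := h2 (fun t => if h : t ∈ T then c (T.equivFin ⟨t, h⟩) else 0) fun e he x hx => by
    rw [← Finset.sum_coe_sort T, ← T.equivFin.symm.sum_comp, ← hc e he x hx]
    exact Finset.sum_congr rfl fun i _ => by simp
  funext i
  simpa using this _ (T.equivFin.symm i).2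

theorem p_BEZ (hSEPF : S_SEPF) :
    S_BEZ := by
  intro X h m y α β u v S hm hva hK hα hβ hu hv hS
  obtain ⟨n0, hn0⟩ := eventually_atTop.1 hK
  obtain ⟨k, k0, k1, k2⟩ : ∃ k, 0 < k ∧ n0 ≤ k ∧ S.card ≤ k := ⟨n0 + S.card + 1, by omega⟩
  have k3 : k ≤ α * β * k := Nat.le_mul_of_pos_left _ (Nat.mul_pos hα hβ)
  have : ∀ l p, ∃ f : Sec X, S.card ≤ l → p ∈ S → IsForm X.X (l * m) f ∧ h.vl f p ≠ 0 ∧
      ∀ q ∈ S, q ≠ p → h.vl f q = 0 := fun l p => by
    by_cases a : S.card ≤ l ∧ p ∈ S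
    · exact (hSEPF X h m S l hva a.1 p a.2).imp fun f hf _ _ => hf
    · exact ⟨0, fun a1 a2 => absurd ⟨a1, a2⟩ a⟩
  choose g hg using this
  let B := Finset.range (β * k) ×ˢ Finset.range (α * k)
  let l : ℕ × ℕ → ℕ := fun q => 4 * (α * β * k) - (q.1 * α + q.2 * β)
  have hl : ∀ q ∈ B, S.card ≤ l q ∧ l q + (q.1 * α + q.2 * β) = 4 * (α * β * k) := fun q hq => by
    simp only [B, Finset.mem_product, Finset.mem_range] at hq
    have a1 : q.1 * α ≤ α * β * k := (Nat.mul_le_mul_right _ hq.1.le).trans_eq (by ring)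
    have a2 : q.2 * β ≤ α * β * k := (Nat.mul_le_mul_right _ hq.2.le).trans_eq (by ring)
    simp only [l]
    omega
  have key := fin_bez2 (S ×ˢ B) (fun t => g (l t.2) t.1 * u ^ (m * t.2.1) * v ^ (m * t.2.2))
    (hn0 (4 * (α * β * k) * m) ((k1.trans (by omega)).trans (Nat.le_mul_of_pos_right _ hm)))
    (fun t ht => by
      rw [Finset.mem_product] at ht
      have := isForm_mul (isForm_mul (hg _ _ (hl _ ht.2).1 ht.1).1 (isForm_pow hu (m * t.2.1)))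
        (isForm_pow hv (m * t.2.2))
      rwa [show l t.2 * m + m * t.2.1 * α + m * t.2.2 * β = 4 * (α * β * k) * m by
        rw [← (hl _ ht.2).2]; ring] at this) fun c hc => by
    suffices H : ∀ N, ∀ p ∈ S, ∀ q ∈ B, q.1 + q.2 = N → c (p, q) = 0 from fun t ht =>
      H _ _ (Finset.mem_product.1 ht).1 _ (Finset.mem_product.1 ht).2 rfl
    intro N
    induction N using Nat.strong_induction_on with
    | _ N ih =>
    intro p hp q hq hN
    obtain ⟨u0, v0, du, iso⟩ := hS p hp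
    have tg : h.pt p ∈ (h.e p).target := (h.e p).map_source (h.src p)
    have tn := (h.e p).open_target.mem_nhds tg
    have := qreg_bez t_QREG (N := N) B (fun q y => ∑ p' ∈ S, c (p', q) * g (l q) p' (h.e p) y) hm
      (isForm_analyticAt hu (h.mem p) tg) (isForm_analyticAt hv (h.mem p) tg) u0 v0 du (by
        rw [eventually_nhdsWithin_iff] at iso ⊢
        filter_upwards [((h.e p).tendsto_symm (h.src p)).eventually iso, tn] with y a1 a2 a3 a4
        obtain ⟨w, -, hw⟩ := exists_unit (h.mem _) (h.mem p) (h.src _) ((h.e p).map_target a2)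
        refine a1 (fun e => a3 ?_) ⟨?_, ?_⟩
        · exact ((h.e p).right_inv a2).symm.trans (congrArg (h.e p) e)
        · rw [Ch.vl, hw _ _ hu, (h.e p).right_inv a2, a4.1, zero_mul]
        · rw [Ch.vl, hw _ _ hv, (h.e p).right_inv a2, a4.2, zero_mul])
      (fun q hq => Finset.analyticAt_fun_sum _ fun p' hp' => analyticAt_const.mul
        (isForm_analyticAt (hg _ _ (hl q hq).1 hp').1 (h.mem p) tg))
      (fun q hq a y => Finset.sum_eq_zero fun p' hp' => by rw [ih _ a p' hp' q hq rfl, zero_mul])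
      (by
        filter_upwards [tn] with y a2
        have := hc _ (h.mem p) _ ((h.e p).map_target a2)
        rw [(h.e p).right_inv a2, Finset.sum_product_right] at this
        simpa only [Finset.sum_mul, Pi.mul_apply, Pi.pow_apply, mul_assoc] using this) q hq hN
    exact (mul_eq_zero.1 ((Finset.sum_eq_single_of_mem p hp fun p' hp' a => mul_eq_zero_of_right _
      ((hg _ _ (hl q hq).1 hp').2.2 p hp a.symm)).symm.trans this)).resolve_right
      (hg _ _ (hl q hq).1 hp).2.1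
  simp only [B, Finset.card_product, Finset.card_range] at key
  refine Nat.le_of_mul_le_mul_left ?_ (show 0 < 2 * (β * k * (α * k)) by positivity)
  calc _ = 2 * (S.card * (β * k * (α * k))) := by ring
    _ ≤ _ := key
    _ = _ := by ring

end Pool.Agent.P.MP_ab0431_ag.UB.V2

namespace Pool.Agent.P.MP_ab0431_ag.UB.V2

open Polynomial Set Filter Topology Asymptotics MeasureTheory
open scoped Manifold ContDiff

theorem evt_pt32 {X : DSurf} {M : ℕ}
    {h : Ch X} {s : Fin 3 → Sec X} (H : Tri M h s) {p : X.X} (h0 : h.vl (s 0) p ≠ 0)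
    (h1 : h.vl (J1 M s) p = 0) :
    h.Evt s tR p (h.vl (s 1) p / h.vl (s 0) p) (h.vl (s 2) p / h.vl (s 0) p) ∧
    (h.vl (J2 M s) p = 0 → ∃ t, (t = tA ∨ t = tB) ∧
      h.Evt s t p (h.vl (s 1) p / h.vl (s 0) p) (h.vl (s 2) p / h.vl (s 0) p)) := by
  have hM : M ≠ 0 := by have := H.pos; omega
  set f : Fin 3 → C2 → ℂ := fun i => s i (h.e p) with hf
  have an : ∀ i, AnalyticAt ℂ (f i) (h.pt p) := fun i =>
    isForm_analyticAt (H.form i) (h.mem p) ((h.e p).map_source (h.src p))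
  have h0' : f 0 (h.pt p) ≠ 0 := h0
  obtain ⟨-, w2, w3⟩ := t_WJ M f (h.pt p) hM an h0'
  have ax := (an 1).div (an 0) h0'
  have az := (an 2).div (an 0) h0'
  have h1' : wjf M M M (f 0) (f 1) (f 2) (h.pt p) = 0 := h1
  have hj : jac (f 1 / f 0) (f 2 / f 0) (h.pt p) = 0 := by
    have := w2.self_of_nhds
    rw [h1'] at this
    exact (mul_eq_zero.1 this.symm).resolve_left
      (mul_ne_zero (Nat.cast_ne_zero.2 hM) (pow_ne_zero _ h0'))
  refine ⟨t_LTU tR f _ _ _ an h0' (by decide) rfl ((t_LR _ _ _ ax az).1 hj), fun h2 => ?_⟩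
  rcases (t_LC _ _ _ ax az hj).1 ((w3 h1').2.1 h2) with e | e
  · exact ⟨tA, .inl rfl, t_LTU tA f _ _ _ an h0' (by decide) rfl e⟩
  · exact ⟨tB, .inr rfl, t_LTU tB f _ _ _ an h0' (by decide) rfl e⟩

theorem p_PT3 (hPT1 : S_PT1) :
    S_PT3 := by
  intro X M h s x z H hx hz p p' hne j j'
  subst hx hz
  refine ⟨fun a a' e => ?_, fun a a' e => ?_⟩
  · have b := (((hPT1 X M h s p H).2 j).1 a).1
    have b' := (((hPT1 X M h s p' H).2 j').1 a').1
    have k : ∀ q, h.vl (J1 M s) q = 0 → h.vl (J1 M ![s 1, s 0, s 2]) q = 0 := fun q hq => by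
      rw [J1_swap]
      exact neg_eq_zero.2 hq
    have e1 : h.Evt ![s 1, s 0, s 2] tR p (h.vl (s 0) p / h.vl (s 1) p)
        (h.vl (s 2) p / h.vl (s 1) p) := (evt_pt32 H.swap (p := p) b (k p j)).1
    have e2 : h.Evt ![s 1, s 0, s 2] tR p' (h.vl (s 0) p' / h.vl (s 1) p')
        (h.vl (s 2) p' / h.vl (s 1) p') := (evt_pt32 H.swap (p := p') b' (k p' j')).1
    rw [a, zero_div, e] at e1
    rw [a', zero_div] at e2
    exact H.nice'.inf2 p p' _ hne e1 e2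
  · obtain ⟨r, q⟩ := evt_pt32 H a j
    obtain ⟨r', q'⟩ := evt_pt32 H a' j'
    dsimp only at e ⊢
    rw [← e] at r' q'
    refine ⟨fun c => ?_, fun p'' n n' j'' a'' e' e1 e2 => ?_⟩
    · obtain ⟨t, ht, et⟩ := q c
      refine ⟨fun c' => ?_, fun e1 => ?_⟩
      · obtain ⟨t', ht', et'⟩ := q' c'
        exact H.nice.two t t' p p' _ _ _ ht ht' hne et et'
      · rw [← e1] at r'
        exact H.nice.pair t p p' _ _ ht hne et r'
    · obtain ⟨r'', -⟩ := evt_pt32 H a'' j''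
      rw [← e1] at r'
      rw [← e', ← e2] at r''
      exact H.nice.tri p p' p'' _ _ hne n n' r r' r''

end Pool.Agent.P.MP_ab0431_ag.UB.V2
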