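import Pool.Agent.P.MP_ab0431_ag.UB2.IfaceA

/-! Steps PIH HART DIV1 DIV2 PT4 THIN CARD TB0 DEGB. -/

set_option autoImplicit false
set_option linter.unusedSectionVars false
set_option linter.unusedVariables false

namespace Pool.Agent.P.MP_ab0431_ag.UB.V2

open Polynomial Set Filter Topology Asymptotics MeasureTheory
open scoped Manifold ContDiff

theorem loc_pih2 (hPT1 : S_PT1) (Q : PM) {X : DSurf} {M : ℕ} {h : Ch X} {s : Fin 3 → Sec X}
    (H : Tri M h s) (p : X.X) {i : Fin 3} (hi : h.vl (s i) p ≠ 0) :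
    prj Q h s =ᶠ[𝓝 p] (Q.ch i).symm ∘ rat_pih (fun k => s k (h.e p)) i ∘ h.e p := by
  have hc : ContinuousAt (fun x => s i (h.e p) (h.e p x)) p :=
    (isForm_analyticAt (H.form i) (h.mem p) ((h.e p).map_source (h.src p))).continuousAt.comp
      ((h.e p).continuousAt (h.src p))
  filter_upwards [(h.e p).open_source.mem_nhds (h.src p), hc.eventually_ne hi] with x hx hx'
  obtain ⟨u, -, hu⟩ := exists_unit (h.mem p) (h.mem x) hx (h.src x)
  have hw : (fun k => s k (h.e p) (h.e p x)) ≠ 0 := fun e => hx' (congrFun e i)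
  have h1 : prj Q h s x = Q.pp fun k => s k (h.e p) (h.e p x) :=
    (Q.eq_iff _ _ (hPT1 X M h s x H).1 hw).2
      ⟨u ^ M, funext fun k => (hu M _ (H.form k)).trans (mul_comm _ _)⟩
  rw [h1, ← (Q.ch i).left_inv ((Q.ch_src i _ hw).2 hx'), Q.ch_app i _ hx']
  rfl

theorem p_PIH (hPT1 : S_PT1) :
    S_PIH := by
  intro Q X M h s H
  have hex : ∀ p, ∃ i, h.vl (s i) p ≠ 0 := fun p => Function.ne_iff.1 (hPT1 X M h s p H).1
  have han : ∀ p k, AnalyticAt ℂ (s k (h.e p)) (h.e p p) := fun p k =>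
    isForm_analyticAt (H.form k) (h.mem p) ((h.e p).map_source (h.src p))
  have hT : ∀ i y, y ∈ (Q.ch i).target := fun i y => by rw [Q.ch_tgt]; trivial
  refine ⟨fun p => ?_, fun p hJ => ?_⟩
  · obtain ⟨i, hi⟩ := hex p
    refine MDifferentiableAt.congr_of_eventuallyEq ?_ (loc_pih2 hPT1 Q H p hi)
    exact (mdifferentiableAt_atlas_symm (Q.ch_mem i) (hT i _)).comp p
      ((an_pih (han p) hi).differentiableAt.mdifferentiableAt.comp p
        (mdifferentiableAt_atlas (h.mem p) (h.src p)))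
  · obtain ⟨i, hi⟩ := hex p
    obtain ⟨g, hg, hζ, hs⟩ := ift_pih (an_pih (han p) hi) (inj_pih (han p) hi hJ)
    let E : OpenPartialHomeomorph X.X Q.Y := h.e p ≫ₕ g ≫ₕ (Q.ch i).symm
    have hp : p ∈ E.source := ⟨h.src p, hζ, hT i _⟩
    have hc : ContinuousAt (fun x => g (h.e p x)) p :=
      (g.continuousAt hζ).comp ((h.e p).continuousAt (h.src p))
    have h1 : ∀ᶠ x in 𝓝 p, E x = prj Q h s x ∧ AnalyticAt ℂ g.symm (g (h.e p x)) := by
      rw [← hg] at hs
      filter_upwards [loc_pih2 hPT1 Q H p hi, hc.eventually hs.eventually_analyticAt] with x a b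
      refine ⟨?_, b⟩
      rw [a, ← hg]
      rfl
    obtain ⟨S, hS, hSo, hpS⟩ := eventually_nhds_iff.1 h1
    refine ⟨E.restrOpen S hSo, ⟨hp, hpS⟩, fun x hx => (hS x hx.2).1, fun y hy => ?_⟩
    obtain ⟨⟨⟨y1, y2⟩, y3⟩, y4⟩ := hy
    have y5 := (hS _ y4).2
    change AnalyticAt ℂ g.symm (g (h.e p ((h.e p).symm (g.symm (Q.ch i y))))) at y5
    change g.symm (Q.ch i y) ∈ (h.e p).target at y3
    change Q.ch i y ∈ g.target at y2
    rw [(h.e p).right_inv y3, g.right_inv y2] at y5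
    exact ((mdifferentiableAt_atlas_symm (h.mem p) y3).comp y
      (y5.differentiableAt.mdifferentiableAt.comp y
        (mdifferentiableAt_atlas (Q.ch_mem i) y1))).mdifferentiableWithinAt

end Pool.Agent.P.MP_ab0431_ag.UB.V2

namespace Pool.Agent.P.MP_ab0431_ag.UB.V2

open Polynomial Set Filter Topology Asymptotics MeasureTheory
open scoped Manifold ContDiff

theorem freq_hart2 (a p : C2) : ∃ᶠ z in 𝓝 p, z 0 - a 0 ≠ 0 := by
  have hc : Continuous fun t : ℂ => Function.update p 0 t := by fun_prop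
  have ht : Tendsto (fun t : ℂ => Function.update p 0 t) (𝓝 (p 0)) (𝓝 p) := by
    simpa using hc.tendsto (p 0)
  refine ht.frequently ?_
  simp only [Function.update_self, sub_ne_zero]
  by_cases h : p 0 = a 0
  · rw [h]
    exact (frequently_nhdsWithin_iff.1 (Eventually.frequently
      (self_mem_nhdsWithin (a := a 0) (s := {a 0}ᶜ)))).mono fun _ h => h.1
  · exact (eventually_ne_nhds h).frequently

theorem p_HART :
    S_HART := by
  intro f a hf
  rw [eventually_nhdsWithin_iff, Metric.eventually_nhds_iff] at hf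
  obtain ⟨ε, hε, hd⟩ := hf
  have hK : IsCompact (Metric.closedBall a (ε / 2) ∩ {p : C2 | dist (p 1) (a 1) = ε / 2}) :=
    (isCompact_closedBall a _).inter_right (isClosed_eq (by fun_prop) continuous_const)
  obtain ⟨C, hC⟩ := hK.exists_bound_of_continuousOn (f := f) fun p hp => by
    refine (hd (lt_of_le_of_lt hp.1 (by linarith)) ?_).continuousAt.continuousWithinAt
    rintro rfl
    have := hp.2
    simp only [mem_ofPred_eq, dist_self] at this
    linarith
  have key : ∀ p : C2, dist p a < ε / 2 → p 0 - a 0 ≠ 0 → DifferentiableAt ℂ f p ∧ ‖f p‖ ≤ C := by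
    intro p hp h0
    have hne : ∀ t : ℂ, Function.update p 1 t ≠ a := fun t e => h0 (by
      rw [← e, Function.update_of_ne (by decide), sub_self])
    have hin : ∀ t ∈ Metric.closedBall (a 1) (ε / 2), dist (Function.update p 1 t) a ≤ ε / 2 := by
      intro t ht
      rw [dist_pi_le_iff (by linarith)]
      intro i
      by_cases hi : i = 1
      · subst hi
        rw [Function.update_self]; exact ht
      · rw [Function.update_of_ne hi]
        exact (dist_le_pi_dist p a i).trans hp.le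
    refine ⟨hd (by linarith) fun e => h0 (by rw [mem_singleton_iff.1 e, sub_self]), ?_⟩
    have hdc : DiffContOnCl ℂ (fun t : ℂ => f (Function.update p 1 t))
        (Metric.ball (a 1) (ε / 2)) := by
      refine DifferentiableOn.diffContOnCl fun t ht => DifferentiableAt.differentiableWithinAt ?_
      rw [closure_ball _ (by linarith)] at ht
      exact (hd (lt_of_le_of_lt (hin t ht) (by linarith)) (hne t)).comp t
        (hasDerivAt_update p 1 t).differentiableAt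
    have h1 := Complex.norm_le_of_forall_mem_frontier_norm_le Metric.isBounded_ball hdc (C := C)
      (z := p 1) (fun t ht => by
        rw [frontier_ball _ (by linarith)] at ht
        exact hC _ ⟨hin t (Metric.sphere_subset_closedBall ht), by simpa [dist_eq_norm] using ht⟩)
      (subset_closure ((dist_le_pi_dist p a 1).trans_lt hp))
    simpa using h1
  obtain ⟨f', h1, h2⟩ := t_RIEM C2 ℂ (fun p => p 0 - a 0) f a C
    (((ContinuousLinearMap.proj (R := ℂ) (φ := fun _ : Fin 2 => ℂ) 0).analyticAt a).sub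
      analyticAt_const) (freq_hart2 a a)
    (by
      filter_upwards [Metric.ball_mem_nhds a (half_pos hε)] with p hp using key p hp)
  refine ⟨f', h1, ?_⟩
  rw [eventually_nhdsWithin_iff]
  filter_upwards [h2.eventually_nhds, h1.eventually_analyticAt, Metric.ball_mem_nhds a hε]
    with p q1 q2 q3 q4
  exact tendsto_nhds_unique_of_frequently_eq q2.continuousAt (hd q3 q4).continuousAt
    (((freq_hart2 a p).and_eventually q1).mono fun z hz => hz.2 hz.1)

end Pool.Agent.P.MP_ab0431_ag.UB.V2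

namespace Pool.Agent.P.MP_ab0431_ag.UB.V2

open Polynomial Set Filter Topology Asymptotics MeasureTheory
open scoped Manifold ContDiff

theorem core_div12 (F D : ℂ × ℂ → ℂ) (x₀ p₀ : ℂ) (hF : AnalyticAt ℂ F (x₀, p₀))
    (hD : AnalyticAt ℂ D (x₀, p₀)) (h0 : D (x₀, p₀) = 0) (hz : dz D (x₀, p₀) ≠ 0)
    (hFD : ∀ᶠ p in 𝓝 (x₀, p₀), D p = 0 → F p = 0) :
    ∃ u, AnalyticAt ℂ u (x₀, p₀) ∧ ∀ᶠ p in 𝓝 (x₀, p₀), F p = u p * D p := by
  obtain ⟨ξ, hξ, hξ0, hDξ, -⟩ := t_IFT1 ℂ D x₀ p₀ hD h0 hz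
  subst hξ0
  have hten : Tendsto (fun p => (ξ p, p)) (𝓝 p₀) (𝓝 (ξ p₀, p₀)) :=
    hξ.continuousAt.prodMk continuousAt_id
  have hFξ : ∀ᶠ p in 𝓝 p₀, F (ξ p, p) = 0 := by
    filter_upwards [hten.eventually hFD, hDξ] with p h1 h2 using h1 h2
  obtain ⟨d, hd, hDd⟩ := t_DIVA ℂ D ξ p₀ hD hξ hDξ
  obtain ⟨f, hf, hFf⟩ := t_DIVA ℂ F ξ p₀ hF hξ hFξ
  have hd0 : d (ξ p₀, p₀) ≠ 0 := by
    have h1 := hasDerivAt_dz hD.differentiableAt
    have h2 := hasDerivAt_dz hd.differentiableAt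
    have h3 := ((hasDerivAt_id (ξ p₀)).sub_const (ξ p₀)).mul h2
    have hl : Tendsto (fun x : ℂ => (x, p₀)) (𝓝 (ξ p₀)) (𝓝 (ξ p₀, p₀)) :=
      continuousAt_id.prodMk continuousAt_const
    have h4 : (fun x => D (x, p₀)) =ᶠ[𝓝 (ξ p₀)] fun x => (id x - ξ p₀) * d (x, p₀) := by
      filter_upwards [hl.eventually hDd] with x hx using hx
    have h5 := (h3.congr_of_eventuallyEq h4).unique h1
    intro h
    apply hz
    rw [← h5, h]
    simp
  refine ⟨fun q => f q / d q, hf.div hd hd0, ?_⟩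
  filter_upwards [hDd, hFf, hd.continuousAt.eventually_ne hd0] with q h1 h2 h3
  rw [h1, h2]
  field_simp

theorem tr_div12 (L : (ℂ × ℂ) ≃L[ℂ] C2) (F D : C2 → ℂ) (a : C2) (hF : AnalyticAt ℂ F a)
    (hD : AnalyticAt ℂ D a) (h0 : D a = 0) (hz : fderiv ℂ D a (L (1, 0)) ≠ 0)
    (hFD : ∀ᶠ p in 𝓝 a, D p = 0 → F p = 0) :
    ∃ u, AnalyticAt ℂ u a ∧ ∀ᶠ p in 𝓝 a, F p = u p * D p := by
  obtain ⟨b, rfl⟩ := L.surjective a
  obtain ⟨x₀, p₀⟩ := b
  have hL : AnalyticAt ℂ L (x₀, p₀) := L.toContinuousLinearMap.analyticAt _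
  have hz' : dz (D ∘ L) (x₀, p₀) ≠ 0 := by
    have := (hD.differentiableAt.hasFDerivAt.comp (x₀, p₀) L.hasFDerivAt).fderiv
    rw [dz, this]
    exact hz
  obtain ⟨u, hu, hFu⟩ := core_div12 (F ∘ L) (D ∘ L) x₀ p₀ (hF.comp hL) (hD.comp hL) h0 hz'
    (L.continuous.continuousAt.tendsto.eventually hFD)
  have hs : L.symm (L (x₀, p₀)) = (x₀, p₀) := L.symm_apply_apply _
  have hLs : AnalyticAt ℂ L.symm (L (x₀, p₀)) := L.symm.toContinuousLinearMap.analyticAt _
  refine ⟨u ∘ L.symm, AnalyticAt.comp (by rw [hs]; exact hu) hLs, ?_⟩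
  have ht : Tendsto L.symm (𝓝 (L (x₀, p₀))) (𝓝 (x₀, p₀)) := by
    have := (L.symm.continuous.continuousAt (x := L (x₀, p₀))).tendsto
    rwa [hs] at this
  filter_upwards [ht.eventually hFu] with p hp
  simpa using hp

theorem p_DIV1 :
    S_DIV1 := by
  intro F D a hF hD h0 hz hFD
  by_cases h : pd 0 D a = 0
  · have h1 : pd 1 D a ≠ 0 := by
      intro h1
      apply hz
      ext1 ξ
      rw [fderiv_apply_pd, h, h1]
      simp
    refine tr_div12 ((ContinuousLinearEquiv.prodComm ℂ ℂ ℂ).trans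
      (ContinuousLinearEquiv.finTwoArrow ℂ ℂ).symm) F D a hF hD h0 ?_ hFD
    rw [fderiv_apply_pd]
    simpa using h1
  · refine tr_div12 (ContinuousLinearEquiv.finTwoArrow ℂ ℂ).symm F D a hF hD h0 ?_ hFD
    rw [fderiv_apply_pd]
    simpa using h

end Pool.Agent.P.MP_ab0431_ag.UB.V2

namespace Pool.Agent.P.MP_ab0431_ag.UB.V2

open Polynomial Set Filter Topology Asymptotics MeasureTheory
open scoped Manifold ContDiff

theorem freq_div22 {D : C2 → ℂ} {p : C2} (h : D p = 0 → fderiv ℂ D p ≠ 0) :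
    ∃ᶠ x in 𝓝 p, D x ≠ 0 := by
  intro h0
  have h1 : D =ᶠ[𝓝 p] fun _ => 0 := h0.mono fun x hx => not_not.1 hx
  exact h h1.eq_of_nhds (by rw [h1.fderiv_eq]; simp)

theorem main_div22 (hHART : S_HART) (hDIV1 : S_DIV1) {F D : C2 → ℂ} {a : C2}
    (hF : AnalyticAt ℂ F a) (hD : AnalyticAt ℂ D a)
    (h1 : ∀ᶠ p in 𝓝[≠] a, D p = 0 → fderiv ℂ D p ≠ 0) (h2 : ∀ᶠ p in 𝓝 a, D p = 0 → F p = 0) :
    ∃ u, AnalyticAt ℂ u a ∧ ∀ᶠ p in 𝓝 a, F p = u p * D p := by
  have key : ∀ p : C2, ∃ u : C2 → ℂ, (∃ u', AnalyticAt ℂ u' p ∧ ∀ᶠ x in 𝓝 p, F x = u' x * D x) →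
      AnalyticAt ℂ u p ∧ ∀ᶠ x in 𝓝 p, F x = u x * D x := fun p => by
    by_cases h : ∃ u', AnalyticAt ℂ u' p ∧ ∀ᶠ x in 𝓝 p, F x = u' x * D x
    · exact h.imp fun _ h _ => h
    · exact ⟨0, fun h' => absurd h' h⟩
  choose U hU using key
  have h3 : ∀ᶠ p in 𝓝[≠] a, AnalyticAt ℂ (U p) p ∧ ∀ᶠ x in 𝓝 p, F x = U p x * D x := by
    filter_upwards [h1, nhdsWithin_le_nhds hF.eventually_analyticAt,
      nhdsWithin_le_nhds hD.eventually_analyticAt, nhdsWithin_le_nhds h2.eventually_nhds]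
      with p a1 a2 a3 a4
    refine hU p ?_
    by_cases h0 : D p = 0
    · exact hDIV1 F D p a2 a3 h0 (a1 h0) a4
    · exact ⟨F / D, a2.div a3 h0, (a3.continuousAt.eventually_ne h0).mono fun x hx =>
        (div_mul_cancel₀ _ hx).symm⟩
  have h4 : ∀ᶠ p in 𝓝[≠] a, DifferentiableAt ℂ (fun x => U x x) p := by
    filter_upwards [h3, self_mem_nhdsWithin,
      nhdsWithin_le_nhds (eventually_nhdsWithin_iff.1 h1).eventually_nhds] with p a1 a2 a3
    refine a1.1.differentiableAt.congr_of_eventuallyEq ?_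
    filter_upwards [a1.1.eventually_analyticAt, a1.2.eventually_nhds, a3,
      isOpen_compl_singleton.mem_nhds a2] with x b1 b2 b3 b4
    obtain ⟨c1, c2⟩ := hU x ⟨_, b1, b2⟩
    refine tendsto_nhds_unique_of_frequently_eq c1.continuousAt b1.continuousAt
      (((freq_div22 (b3 b4)).and_eventually (c2.and b2)).mono fun y hy => ?_)
    exact mul_right_cancel₀ hy.1 (hy.2.1.symm.trans hy.2.2)
  obtain ⟨u, hu, h5⟩ := hHART _ a h4
  have h6 : ∀ᶠ p in 𝓝[≠] a, F p = u p * D p := by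
    filter_upwards [h3, h5] with p a1 a2
    rw [a2]; exact a1.2.self_of_nhds
  refine ⟨u, hu, eventually_nhdsWithin_iff.1 h6 |>.mono fun p hp => ?_⟩
  by_cases h : p = a
  · rw [h]
    exact tendsto_nhds_unique_of_frequently_eq hF.continuousAt (hu.mul hD).continuousAt
      (h6.frequently.filter_mono nhdsWithin_le_nhds)
  · exact hp h

theorem p_DIV2 (hHART : S_HART) (hDIV1 : S_DIV1) :
    S_DIV2 := by
  intro F D a hF hD h1 h2 h3
  obtain ⟨u, hu, e1⟩ := main_div22 hHART hDIV1 hF hD h2 (h3.mono fun p hp => hp.2)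
  obtain ⟨v, hv, e2⟩ := main_div22 hHART hDIV1 hD hF h1 (h3.mono fun p hp => hp.1)
  have h4 : ∃ᶠ x in 𝓝 a, F x ≠ 0 :=
    frequently_frequently_nhds.1
      ((h1.mono fun p hp => freq_div22 hp).frequently.filter_mono nhdsWithin_le_nhds)
  have h5 : u a * v a = 1 :=
    tendsto_nhds_unique_of_frequently_eq (hu.mul hv).continuousAt
      (tendsto_const_nhds (x := (1 : ℂ))) ((h4.and_eventually (e1.and e2)).mono fun y hy => by
        refine mul_right_cancel₀ hy.1 ?_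
        rw [Pi.mul_apply, mul_assoc, ← hy.2.2, ← hy.2.1, one_mul])
  exact ⟨u, hu, left_ne_zero_of_mul_eq_one h5, e1⟩

end Pool.Agent.P.MP_ab0431_ag.UB.V2

namespace Pool.Agent.P.MP_ab0431_ag.UB.V2

open Polynomial Set Filter Topology Asymptotics MeasureTheory
open scoped Manifold ContDiff

theorem ratio_pt42 (hPT1 : S_PT1) {Q : PM} {X : DSurf} {M : ℕ} {h : Ch X} {s : Fin 3 → Sec X}
    (H : Tri M h s) {e : OpenPartialHomeomorph X.X C2} (he : e ∈ atlas C2 X.X) {y y' : X.X}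
    (hy : y ∈ e.source) (hy' : y' ∈ e.source) (hp : prj Q h s y = prj Q h s y') (i j : Fin 3) :
    (s i e / s j e) (e y) = (s i e / s j e) (e y') := by
  obtain ⟨c, hc⟩ := (Q.eq_iff _ _ (hPT1 X M h s y H).1 (hPT1 X M h s y' H).1).1 hp
  have c0 : c ≠ 0 := by
    rintro rfl
    exact (hPT1 X M h s y' H).1 (hc.trans (zero_smul _ _))
  obtain ⟨u, u0, hu⟩ := exists_unit (h.mem y) he (h.src y) hy
  obtain ⟨v, v0, hv⟩ := exists_unit (h.mem y') he (h.src y') hy'
  have k : ∀ i, s i e (e y') * v ^ M = s i e (e y) * (c * u ^ M) := fun i => by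
    have h1 : s i (h.e y') (h.e y' y') = c * s i (h.e y) (h.e y y) := congrFun hc i
    rw [hu M _ (H.form i), hv M _ (H.form i)] at h1
    rw [h1]; ring
  rw [Pi.div_apply, Pi.div_apply,
    ← mul_div_mul_right (s i e (e y')) _ (pow_ne_zero M v0), k, k,
    mul_div_mul_right _ _ (mul_ne_zero c0 (pow_ne_zero M u0))]

theorem an_pt42 {X : DSurf} {M : ℕ} {h : Ch X} {s : Fin 3 → Sec X} (H : Tri M h s) (p : X.X)
    (i : Fin 3) : AnalyticAt ℂ (s i (h.e p)) (h.pt p) :=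
  isForm_analyticAt (H.form i) (h.mem p) ((h.e p).map_source (h.src p))

theorem lf_pt42 (hLF : UB.S_LF) (hLTU : UB.S_LTU) {X : DSurf} {M : ℕ} {h : Ch X} {s : Fin 3 → Sec X}
    (H : Tri M h s) (p : X.X) (h0 : h.vl (s 0) p ≠ 0) :
    ∀ᶠ p' in 𝓝[≠] p, p' ∈ (h.e p).source ∧
      ¬((s 1 (h.e p) / s 0 (h.e p)) (h.e p p') = (s 1 (h.e p) / s 0 (h.e p)) (h.e p p) ∧
        (s 2 (h.e p) / s 0 (h.e p)) (h.e p p') = (s 2 (h.e p) / s 0 (h.e p)) (h.e p p)) := by
  have an := an_pt42 H p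
  have k := fun t c γ => hLTU t (fun i => s i (h.e p)) (h.pt p) c γ an h0
  have h1 := hLF _ _ (h.pt p) ((an 1).div (an 0) h0) ((an 2).div (an 0) h0)
    (fun E => H.nice.b4 p _ _ (k tB4 _ _ (by decide) rfl E))
    (fun E => H.nice.zz p _ _ (k tZ _ _ (by decide) rfl E))
    (fun E => H.nice.t2 p _ _ (k tT2 _ _ (by decide) rfl E))
  have h2 : ∀ᶠ p' in 𝓝[≠] p, p' ∈ (h.e p).source :=
    mem_nhdsWithin_of_mem_nhds ((h.e p).open_source.mem_nhds (h.src p))
  have h3 : Tendsto (h.e p) (𝓝[≠] p) (𝓝[≠] (h.pt p)) := by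
    refine tendsto_nhdsWithin_iff.2
      ⟨((h.e p).continuousAt (h.src p)).tendsto.mono_left nhdsWithin_le_nhds, ?_⟩
    filter_upwards [h2, self_mem_nhdsWithin] with y hy hne
    exact fun E => hne ((h.e p).injOn hy (h.src p) E)
  exact h2.and (h3.eventually h1)

theorem p_PT4 (hPT1 : S_PT1) (hPIH : S_PIH) :
    S_PT4 := by
  have hLF := t_LF
  have hL2 := t_L2
  have hLTU := t_LTU
  have hWJ := t_WJ
  intro Q X M h s p H
  constructor
  · by_cases hJ : h.vl (J1 M s) p = 0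
    · by_cases h0 : h.vl (s 0) p = 0
      · filter_upwards [lf_pt42 hLF hLTU H.swap p (((hPT1 X M h s p H).2 hJ).1 h0).1] with y hy E
        exact hy.2 ⟨ratio_pt42 hPT1 H (h.mem p) hy.1 (h.src p) E 0 1,
          ratio_pt42 hPT1 H (h.mem p) hy.1 (h.src p) E 2 1⟩
      · filter_upwards [lf_pt42 hLF hLTU H p h0] with y hy E
        exact hy.2 ⟨ratio_pt42 hPT1 H (h.mem p) hy.1 (h.src p) E 1 0,
          ratio_pt42 hPT1 H (h.mem p) hy.1 (h.src p) E 2 0⟩
    · obtain ⟨hπ, hl⟩ := hPIH Q X M h s H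
      obtain ⟨e, he, heq, -⟩ := hl p hJ
      filter_upwards [mem_nhdsWithin_of_mem_nhds (e.open_source.mem_nhds he),
        self_mem_nhdsWithin] with y hy hne E
      exact hne (e.injOn hy he ((heq hy).trans (E.trans (heq he).symm)))
  · intro hJ h0 hJ2
    have an := an_pt42 H p
    have M0 : M ≠ 0 := by have := H.pos; omega
    obtain ⟨-, w1, w2⟩ := hWJ M (fun i => s i (h.e p)) (h.pt p) M0 an h0
    have w3 : jac (s 1 (h.e p) / s 0 (h.e p)) (s 2 (h.e p) / s 0 (h.e p)) (h.pt p) = 0 := by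
      have := w1.self_of_nhds.symm.trans hJ
      exact (mul_eq_zero.1 this).resolve_left
        (mul_ne_zero (Nat.cast_ne_zero.2 M0) (pow_ne_zero 3 h0))
    obtain ⟨O, hO, k⟩ := hL2 _ _ (h.pt p) ((an 1).div (an 0) h0) ((an 2).div (an 0) h0) w3
      fun E => hJ2 ((w2 hJ).2.2 E)
    refine ⟨(h.e p).source ∩ h.e p ⁻¹' O, inter_mem ((h.e p).open_source.mem_nhds (h.src p))
      ((h.e p).continuousAt (h.src p) hO), fun y₁ h₁ y₂ h₂ y₃ h₃ E E' => ?_⟩
    have r := ratio_pt42 hPT1 H (h.mem p) h₁.1 h₂.1 E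
    have r' := ratio_pt42 hPT1 H (h.mem p) h₁.1 h₃.1 E'
    exact (k _ h₁.2 _ h₂.2 _ h₃.2 (r 1 0) (r' 1 0) (r 2 0) (r' 2 0)).imp
      ((h.e p).injOn h₁.1 h₂.1) (Or.imp ((h.e p).injOn h₁.1 h₃.1) ((h.e p).injOn h₂.1 h₃.1))

end Pool.Agent.P.MP_ab0431_ag.UB.V2

namespace Pool.Agent.P.MP_ab0431_ag.UB.V2

open Polynomial Set Filter Topology Asymptotics MeasureTheory
open scoped Manifold ContDiff

theorem dense_thin2 (hPT1 : S_PT1) (hJFORM : S_JFORM) {X : DSurf} {M : ℕ} {h : Ch X}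
    {s : Fin 3 → Sec X} (H : Tri M h s) (p : X.X) :
    p ∈ closure {p | h.vl (J1 M s) p ≠ 0} := by
  by_cases hp : h.vl (J1 M s) p = 0
  swap
  · exact subset_closure hp
  have hd := ((hPT1 X M h s p H).2 hp).2
  have hF : IsForm X.X (M + M + M + 1) (J1 M s) :=
    hJFORM X M M M (s 0) (s 1) (s 2) (H.form 0) (H.form 1) (H.form 2)
  rw [mem_closure_iff_frequently]
  intro hev
  apply hd
  have h1 : ∀ᶠ y in 𝓝 (h.pt p), J1 M s (h.e p) y = 0 := by
    rw [Ch.pt, ← (h.e p).map_nhds_eq (h.src p), eventually_map]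
    filter_upwards [hev, (h.e p).open_source.mem_nhds (h.src p)] with x hx hx'
    obtain ⟨u, -, hu⟩ := exists_unit (h.mem p) (h.mem x) hx' (h.src x)
    have h0 : J1 M s (h.e x) (h.e x x) = 0 := not_not.1 hx
    rw [hu _ _ hF, h0, zero_mul]
  have h2 : J1 M s (h.e p) =ᶠ[𝓝 (h.pt p)] fun _ => 0 := h1
  rw [h2.fderiv_eq]
  simp

theorem p_THIN (hPT1 : S_PT1) (hPIH : S_PIH) (hJFORM : S_JFORM) :
    S_THIN := by
  intro Q X M h s b m c H hW z
  obtain ⟨-, -, -, -, -, -, b7, -⟩ := t_BCF Q _ _ c hW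
  obtain ⟨hπ, hloc⟩ := hPIH Q X M h s H
  rw [← closure_closure]
  refine closure_mono (fun p hp => ?_) (dense_thin2 hPT1 hJFORM H z)
  obtain ⟨e, he, heq, -⟩ := hloc p hp
  have h1 := mem_closure_iff_frequently.1 (b7 (e p))
  rw [← e.map_nhds_eq he, frequently_map] at h1
  rw [mem_closure_iff_frequently]
  refine (h1.and_eventually (e.open_source.mem_nhds he)).mono fun x hx => ?_
  have h2 : e x = prj Q h s x := heq hx.2
  rw [mem_preimage, ← h2]
  exact hx.1

end Pool.Agent.P.MP_ab0431_ag.UB.V2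

namespace Pool.Agent.P.MP_ab0431_ag.UB.V2

open Polynomial Set Filter Topology Asymptotics MeasureTheory
open scoped Manifold ContDiff

theorem fib_card2 {Z Y : Type} [TopologicalSpace Z] [TopologicalSpace Y] [T2Space Y]
    {π : Z → Y} (hc : Continuous π) {q : Y} {K : Set Y} (hK : K ∈ 𝓝 q)
    (hp : IsCompact (π ⁻¹' K)) {p : Z → Prop} (H : ∀ z, π z = q → ∀ᶠ x in 𝓝 z, p x) :
    ∀ᶠ y in 𝓝 q, ∀ x, π x = y → p x := by
  have h1 : IsClosed (π '' (π ⁻¹' K \ interior {x | p x})) :=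
    ((hp.diff isOpen_interior).image hc).isClosed
  have h2 : q ∉ π '' (π ⁻¹' K \ interior {x | p x}) := by
    rintro ⟨z, hz, e⟩
    exact hz.2 (mem_interior_iff_mem_nhds.2 (H z e))
  filter_upwards [hK, h1.isOpen_compl.mem_nhds h2] with y hy hy' x hx
  by_contra hn
  exact hy' ⟨x, ⟨by rw [mem_preimage, hx]; exact hy, fun h => hn (interior_subset h)⟩, hx⟩

theorem up_card2 {Z Y : Type} [TopologicalSpace Z] [TopologicalSpace Y] [T2Space Y]
    {π : Z → Y} (hc : Continuous π) {q : Y} {K : Set Y} (hK : K ∈ 𝓝 q)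
    (hp : IsCompact (π ⁻¹' K)) (hq : (π ⁻¹' {q}).Finite) (n : Z → ℕ)
    (h : ∀ p, π p = q → ∃ O ∈ 𝓝 p, ∀ q', (O ∩ π ⁻¹' {q'}).ncard ≤ n p) :
    ∀ᶠ q' in 𝓝 q, (π ⁻¹' {q'}).Finite → (π ⁻¹' {q'}).ncard ≤ ∑ p ∈ hq.toFinset, n p := by
  classical
  choose! O hO hn using h
  have := fib_card2 hc hK hp (p := fun z => ∃ p, π p = q ∧ z ∈ O p) fun p hp =>
    mem_of_superset (hO p hp) fun z hz => ⟨p, hp, hz⟩
  filter_upwards [this] with q' h1 h2
  have e : h2.toFinset ⊆ hq.toFinset.biUnion fun p => (h2.inter_of_right (O p)).toFinset := by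
    intro z hz
    rw [Finite.mem_toFinset] at hz
    obtain ⟨p, hp, hz'⟩ := h1 z hz
    simp only [Finset.mem_biUnion, Finite.mem_toFinset]
    exact ⟨p, hp, hz', hz⟩
  rw [ncard_eq_toFinset_card _ h2]
  refine (Finset.card_le_card e).trans (Finset.card_biUnion_le.trans (Finset.sum_le_sum ?_))
  intro p hp
  rw [← ncard_eq_toFinset_card _ (h2.inter_of_right (O p))]
  exact hn p ((Finite.mem_toFinset hq).1 hp) q'

theorem p_CARD :
    S_CARD := by
  classical
  intro Q F B Ω hG ho hs hf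
  have hc : Continuous F.π := F.hol.continuous
  have hK : ∀ q ∈ Ω, ∃ K ∈ 𝓝 q, IsCompact (F.π ⁻¹' K) := fun q hq => by
    obtain ⟨K, h1, h2, h3⟩ := local_compact_nhds (ho.mem_nhds hq)
    exact ⟨K, h1, hG.prop K h2 h3⟩
  refine ⟨fun hB => ?_, fun d q hq p hD hd hp hl ⟨O, hO, h3⟩ => ?_⟩
  · by_cases h0 : ∃ q0, q0 ∉ B
    · obtain ⟨q0, h0⟩ := h0
      refine ⟨_, fun q hq => hB.constant (f := fun q => (F.π ⁻¹' {q}).ncard) (fun q hq => ?_) hq h0⟩
      have hl : ∀ p, F.π p = q → F.Loc p := fun p hp => hG.loc p (hp ▸ hs hq) (hp ▸ hq)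
      obtain ⟨K, k1, k2⟩ := hK q (hs hq)
      refine (ContinuousAt.congr (f := fun _ => (F.π ⁻¹' {q}).ncard) continuousAt_const
        ?_).continuousWithinAt
      filter_upwards [low_card F hf q hl,
        up_card2 hc k1 k2 (hf q) (fun _ => 1) fun p hp => one_card F hf (hl p hp)] with q' a b
      have b' := b (hf q')
      rw [Finset.sum_const, smul_eq_mul, mul_one, ← ncard_eq_toFinset_card _ (hf q)] at b'
      exact le_antisymm a b'
    · exact ⟨0, fun q hq => (h0 ⟨q, hq⟩).elim⟩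
  · obtain ⟨K, k1, k2⟩ := hK q hq
    have h1 := up_card2 hc k1 k2 (hf q) (fun z => if z = p then 2 else 1) fun z hz => by
      by_cases e : z = p
      · subst e
        refine ⟨O, hO, fun q' => ?_⟩
        rw [if_pos rfl]
        by_contra hne
        obtain ⟨a, ha, b, hb, c, hc, ab, ac, bc⟩ :=
          (two_lt_ncard ((hf q').inter_of_right O)).1 (not_le.1 hne)
        rcases h3 a ha.1 b hb.1 c hc.1 (ha.2.trans hb.2.symm) (ha.2.trans hc.2.symm) with k | k | k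
        exacts [ab k, ac k, bc k]
      · rw [if_neg e]
        exact one_card F hf (hl z hz e)
    obtain ⟨q', a, b⟩ := mem_closure_iff_nhds.1 (hD q) _ h1
    have a' := a (hf q')
    rw [hd q' b, ← Finset.sum_erase_add _ _ ((Finite.mem_toFinset (hf q)).2 hp), if_pos rfl,
      Finset.sum_congr rfl fun z hz => if_neg (Finset.ne_of_mem_erase hz), Finset.sum_const,
      smul_eq_mul, mul_one] at a'
    refine ⟨_, a', fun z hz => ?_⟩
    have hz' : F.π z = q := (Finite.mem_toFinset (hf q)).1 (Finset.mem_of_mem_erase hz)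
    exact ⟨hz', hl z hz' (Finset.ne_of_mem_erase hz)⟩

end Pool.Agent.P.MP_ab0431_ag.UB.V2

namespace Pool.Agent.P.MP_ab0431_ag.UB.V2

open Polynomial Set Filter Topology Asymptotics MeasureTheory
open scoped Manifold ContDiff

theorem near_tb02 {B Y E : Type} [TopologicalSpace B] [TopologicalSpace Y] [TopologicalSpace E]
    (c : OpenPartialHomeomorph Y E) (D : E → ℂ) (χ : OpenPartialHomeomorph B (Dbl D)) (q : B)
    (y : Y) (hq : q ∈ χ.source) (h0 : (χ q).1.2 = 0) (hy : y ∈ c.source)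
    (h1 : (χ q).1.1 = c y) (hD : ContinuousAt D (c y)) (U : Set B) (hU : U ∈ 𝓝 q) :
    ∀ᶠ y' in 𝓝 y, ∀ w : Dbl D, w.1.1 = c y' → w ∈ χ.target ∧ χ.symm w ∈ U := by
  have hS : χ.target ∩ χ.symm ⁻¹' U ∈ 𝓝 (χ q) := by
    refine inter_mem (χ.open_target.mem_nhds (χ.map_source hq)) ?_
    have := χ.continuousAt_symm (χ.map_source hq)
    apply this.preimage_mem_nhds
    rwa [χ.left_inv hq]
  obtain ⟨S', hS', hsub⟩ := (mem_nhds_subtype _ _ _).1 hS
  have e : (χ q).1 = (c y, 0) := Prod.ext h1 h0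
  rw [e] at hS'
  obtain ⟨A, hA, A', hA', hAA⟩ := mem_nhds_prod_iff.1 hS'
  obtain ⟨ε, hε, hb⟩ := Metric.mem_nhds_iff.1 hA'
  have hD0 : D (c y) = 0 := by
    have := (χ q).2
    rw [h0, h1] at this
    simpa using this.symm
  have hc : ContinuousAt c y := c.continuousAt hy
  have e1 : ∀ᶠ y' in 𝓝 y, c y' ∈ A := hc hA
  have e2 : ∀ᶠ y' in 𝓝 y, D (c y') ∈ Metric.ball (0 : ℂ) (ε ^ 2) := by
    have : ContinuousAt (D ∘ c) y := hD.comp hc
    apply this
    show Metric.ball (0 : ℂ) (ε ^ 2) ∈ 𝓝 (D (c y))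
    rw [hD0]
    exact Metric.ball_mem_nhds _ (by positivity)
  filter_upwards [e1, e2] with y' a1 a2 w hw
  apply hsub
  apply hAA
  refine ⟨hw ▸ a1, hb ?_⟩
  have h2 := w.2
  rw [hw] at h2
  rw [← h2, mem_ball_zero_iff, norm_pow] at a2
  rw [mem_ball_zero_iff]
  exact lt_of_pow_lt_pow_left₀ 2 hε.le a2

theorem p_TB0 :
    S_TB0 := by
  intro B Y E _ _ _ _ _ _ π c D χ q hπ hF hq h0 hχ hD hL
  classical
  obtain ⟨k, b, hbi, hbr⟩ := (hF.subset (sdiff_subset (t := {q}))).fin_param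
  have hb : ∀ l, π (b l) = π q ∧ b l ≠ q := fun l => by
    have : b l ∈ π ⁻¹' {π q} \ {q} := hbr ▸ mem_range_self l
    exact ⟨this.1, this.2⟩
  choose e he heq using fun l => hL (b l) (hb l).1 (hb l).2
  obtain ⟨U, hU, hd⟩ := hF.t2_separation
  have hUn : ∀ x, U x ∈ 𝓝 x := fun x => (hU x).2.mem_nhds (hU x).1
  have hdis : ∀ x x' z, π x = π q → π x' = π q → z ∈ U x → z ∈ U x' → x = x' := by
    intro x x' z hx hx' a a'
    by_contra hne
    exact Set.disjoint_left.1 (hd hx hx' hne) a a'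
  have e0 : ∀ᶠ y' in 𝓝 (π q), y' ∈ c.source := c.open_source.mem_nhds (hχ q hq).1
  have e1 : ∀ᶠ y' in 𝓝 (π q), ∀ x ∈ π ⁻¹' {y'}, x ∈ χ.source ∨ ∃ l, x ∈ (e l).source := by
    refine hπ.isClosedMap.eventually_nhds_fiber (π q) fun x hx => ?_
    by_cases hxq : x = q
    · subst hxq
      filter_upwards [χ.open_source.mem_nhds hq] with z hz using .inl hz
    · have : x ∈ range b := hbr ▸ ⟨hx, hxq⟩
      obtain ⟨l, rfl⟩ := this
      filter_upwards [(e l).open_source.mem_nhds (he l)] with z hz using .inr ⟨l, hz⟩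
  have e2 : ∀ᶠ y' in 𝓝 (π q), ∀ l, y' ∈ (e l).target ∧ (e l).symm y' ∈ U (b l) := by
    refine eventually_all.2 fun l => ?_
    have a : e l (b l) = π q := (heq l (he l)).trans (hb l).1
    have a1 : π q ∈ (e l).target := a ▸ (e l).map_source (he l)
    refine Eventually.and ((e l).open_target.mem_nhds a1) ?_
    apply ((e l).continuousAt_symm a1).preimage_mem_nhds
    rw [← a, (e l).left_inv (he l)]
    exact hUn _
  have e3 := near_tb02 c D χ q (π q) hq h0 (hχ q hq).1 (hχ q hq).2 hD (U q) (hUn q)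
  obtain ⟨N, hN, hNo, hNq⟩ := mem_nhds_iff.1 (e0.and (e1.and (e2.and e3)))
  have n0 := fun y (h : y ∈ N) => (hN h).1
  have n1 := fun y (h : y ∈ N) => (hN h).2.1
  have n2 := fun y (h : y ∈ N) => (hN h).2.2.1
  have n3 := fun y (h : y ∈ N) => (hN h).2.2.2
  clear hN e0 e1 e2 e3
  obtain ⟨ψ, hψ⟩ : ∃ ψ : Mo (D ∘ c) k → Dbl D, ∀ v, v.1.2.2 = 0 → (ψ v).1 = (c v.1.1, v.1.2.1) :=
    ⟨fun v => if h : v.1.2.2 = 0 then
      ⟨(c v.1.1, v.1.2.1), v.2.elim (fun a => a.2) fun a => (a.1 h).elim⟩ else χ q,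
      fun v h => by simp only [dif_pos h]⟩
  obtain ⟨φ, f0, f1⟩ : ∃ φ : Mo (D ∘ c) k → B, (∀ v, v.1.2.2 = 0 → φ v = χ.symm (ψ v)) ∧
      ∀ v l, v.1.2.2 = Fin.succ l → φ v = (e l).symm v.1.1 :=
    ⟨fun v => Fin.cons (α := fun _ => B) (χ.symm (ψ v)) (fun l => (e l).symm v.1.1) v.1.2.2,
      fun v h => by simp only [h, Fin.cons_zero], fun v l h => by simp only [h, Fin.cons_succ]⟩
  have p0 : ∀ v : Mo (D ∘ c) k, v.1.1 ∈ N → v.1.2.2 = 0 →
      ψ v ∈ χ.target ∧ χ.symm (ψ v) ∈ U q := fun v hv h =>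
    n3 _ hv (ψ v) (by rw [hψ v h])
  have hz : ∀ (v : Mo (D ∘ c) k) l, v.1.2.2 = Fin.succ l → v.1.2.1 = 0 := fun v l h =>
    v.2.elim (fun a => (Fin.succ_ne_zero l (h ▸ a.1)).elim) fun a => a.2
  refine ⟨k, N, φ, hNo, hNq, ?_, ?_, ?_, ?_⟩
  · intro v hv
    have hv : v.1.1 ∈ N := hv
    apply ContinuousAt.continuousWithinAt
    have c1 : Continuous fun u : Mo (D ∘ c) k => u.1.1 := by fun_prop
    have c2 : Continuous fun u : Mo (D ∘ c) k => u.1.2.1 := by fun_prop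
    have c3 : Continuous fun u : Mo (D ∘ c) k => u.1.2.2 := by fun_prop
    have hl : ∀ᶠ u in 𝓝 v, u.1.2.2 = v.1.2.2 :=
      c3.continuousAt.preimage_mem_nhds ((isOpen_discrete {v.1.2.2}).mem_nhds rfl)
    rcases Fin.eq_zero_or_eq_succ v.1.2.2 with h | ⟨l, h⟩
    · have a : ContinuousAt ψ v := by
        refine Topology.IsInducing.subtypeVal.continuousAt_iff.2 ?_
        have a0 : ContinuousAt (fun u : Mo (D ∘ c) k => (c u.1.1, u.1.2.1)) v :=
          (ContinuousAt.comp (f := fun u : Mo (D ∘ c) k => u.1.1) (c.continuousAt (n0 _ hv))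
            c1.continuousAt).prodMk c2.continuousAt
        refine a0.congr ?_
        filter_upwards [hl] with u hu using (hψ u (hu.trans h)).symm
      refine (ContinuousAt.comp (χ.continuousAt_symm (p0 v hv h).1) a).congr ?_
      filter_upwards [hl] with u hu using (f0 u (hu.trans h)).symm
    · refine (ContinuousAt.comp (f := fun u : Mo (D ∘ c) k => u.1.1)
        ((e l).continuousAt_symm (n2 _ hv l).1) c1.continuousAt).congr ?_
      filter_upwards [hl] with u hu using (f1 u l (hu.trans h)).symm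
  · intro v hv
    have hv : v.1.1 ∈ N := hv
    show π (φ v) = v.1.1
    rcases Fin.eq_zero_or_eq_succ v.1.2.2 with h | ⟨l, h⟩
    · rw [f0 v h]
      have a := (p0 v hv h).1
      have a1 := hχ _ (χ.map_target a)
      rw [χ.right_inv a, hψ v h] at a1
      exact c.injOn a1.1 (n0 _ hv) a1.2.symm
    · rw [f1 v l h, ← heq l ((e l).map_target (n2 _ hv l).1), (e l).right_inv (n2 _ hv l).1]
  · intro v v' hv hvv hφ
    have hv : v.1.1 ∈ N := hv
    have hvv : v'.1.1 = v.1.1 := hvv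
    have hv' : v'.1.1 ∈ N := hvv ▸ hv
    rcases Fin.eq_zero_or_eq_succ v.1.2.2 with h | ⟨l, h⟩ <;>
      rcases Fin.eq_zero_or_eq_succ v'.1.2.2 with h' | ⟨l', h'⟩
    · rw [f0 v h, f0 v' h'] at hφ
      have a := congrArg Subtype.val (χ.symm.injOn (p0 v' hv' h').1 (p0 v hv h).1 hφ)
      rw [hψ v h, hψ v' h'] at a
      exact Subtype.ext (Prod.ext hvv (Prod.ext (congrArg Prod.snd a) (h'.trans h.symm)))
    · rw [f0 v h, f1 v' l' h'] at hφ
      exact ((hb l').2 (hdis _ _ _ (hb l').1 rfl (n2 _ hv' l').2 (hφ ▸ (p0 v hv h).2))).elim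
    · rw [f1 v l h, f0 v' h'] at hφ
      exact ((hb l).2 (hdis _ _ _ (hb l).1 rfl (n2 _ hv l).2 (hφ ▸ (p0 v' hv' h').2))).elim
    · rw [f1 v l h, f1 v' l' h'] at hφ
      have a := hbi (hdis _ _ _ (hb l').1 (hb l).1 (n2 _ hv' l').2 (hφ ▸ (n2 _ hv l).2))
      subst a
      exact Subtype.ext (Prod.ext hvv (Prod.ext ((hz v' _ h').trans (hz v _ h).symm)
        (h'.trans h.symm)))
  · intro w hw z hzw
    have hzw : π z = w := hzw
    rcases n1 w hw z hzw with a | ⟨l, a⟩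
    · have a1 := (hχ z a).2
      rw [hzw] at a1
      refine ⟨⟨(w, (χ z).1.2, 0), .inl ⟨rfl, ?_⟩⟩, rfl, ?_⟩
      · exact (χ z).2.trans (congrArg D a1)
      · rw [f0 _ rfl]
        refine (congrArg χ.symm ?_).trans (χ.left_inv a)
        apply Subtype.ext
        rw [hψ _ rfl]
        exact Prod.ext a1.symm rfl
    · refine ⟨⟨(w, 0, l.succ), .inr ⟨Fin.succ_ne_zero l, rfl⟩⟩, rfl, ?_⟩
      rw [f1 _ l rfl]
      show (e l).symm w = z
      rw [← hzw, ← heq l a, (e l).left_inv a]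

end Pool.Agent.P.MP_ab0431_ag.UB.V2

namespace Pool.Agent.P.MP_ab0431_ag.UB.V2

open Polynomial Set Filter Topology Asymptotics MeasureTheory
open scoped Manifold ContDiff

theorem p_DEGB (hBEZ : S_BEZ) (hPT1 : S_PT1) (hPT4 : S_PT4) :
    S_DEGB := by
  intro Q X m y M h s x z hm hva hk hT hJ
  have hM := hT.pos
  have h1 : (![1, x, z] : Fin 3 → ℂ) ≠ 0 := fun e => by simpa using congrFun e 0
  have key : ∀ p, (prj Q h s p = Q.pp ![1, x, z] ↔
      h.vl (s 1 - x • s 0) p = 0 ∧ h.vl (s 2 - z • s 0) p = 0) ∧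
      (prj Q h s p = Q.pp ![1, x, z] → h.vl (s 0) p ≠ 0) := by
    intro p
    have h2 := (hPT1 X M h s p hT).1
    have e1 : h.vl (s 1 - x • s 0) p = h.vl (s 1) p - x * h.vl (s 0) p := rfl
    have e2 : h.vl (s 2 - z • s 0) p = h.vl (s 2) p - z * h.vl (s 0) p := rfl
    rw [prj, Q.eq_iff _ _ h2 h1, e1, e2]
    refine ⟨⟨?_, ?_⟩, ?_⟩
    · rintro ⟨c, hc⟩
      have a0 : 1 = c * h.vl (s 0) p := congrFun hc 0
      have a1 : x = c * h.vl (s 1) p := congrFun hc 1
      have a2 : z = c * h.vl (s 2) p := congrFun hc 2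
      exact ⟨by linear_combination h.vl (s 1) p * a0 - h.vl (s 0) p * a1,
        by linear_combination h.vl (s 2) p * a0 - h.vl (s 0) p * a2⟩
    · rintro ⟨a1, a2⟩
      have a0 : h.vl (s 0) p ≠ 0 := by
        intro a0
        apply h2
        rw [a0, mul_zero, sub_zero] at a1 a2
        funext i
        fin_cases i
        exacts [a0, a1, a2]
      refine ⟨(h.vl (s 0) p)⁻¹, funext fun i => ?_⟩
      fin_cases i
      · exact (inv_mul_cancel₀ a0).symm
      · change x = (h.vl (s 0) p)⁻¹ * h.vl (s 1) p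
        rw [eq_inv_mul_iff_mul_eq₀ a0]
        linear_combination -a1
      · change z = (h.vl (s 0) p)⁻¹ * h.vl (s 2) p
        rw [eq_inv_mul_iff_mul_eq₀ a0]
        linear_combination -a2
    · rintro ⟨c, hc⟩
      have a0 : 1 = c * h.vl (s 0) p := congrFun hc 0
      exact right_ne_zero_of_mul_eq_one a0.symm
  rcases (prj Q h s ⁻¹' {Q.pp ![1, x, z]}).finite_or_infinite with hf | hf
  swap
  · rw [hf.ncard]; exact Nat.zero_le _
  rw [Set.ncard_eq_toFinset_card _ hf]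
  have hu := isForm_sub (hT.form 1) (isForm_smul x (hT.form 0))
  refine hBEZ X h m y M M _ _ _ hm hva hk (by omega) (by omega) hu
    (isForm_sub (hT.form 2) (isForm_smul z (hT.form 0))) fun p hp => ?_
  have hp' : prj Q h s p = Q.pp ![1, x, z] := by simpa using hp
  obtain ⟨a1, a2⟩ := (key p).1.1 hp'
  have a0 := (key p).2 hp'
  refine ⟨a1, a2, fun hd => hJ p hp' ?_, (hPT4 Q X M h s p hT).1.mono fun q hq hq' =>
    hq (((key q).1.2 hq').trans hp'.symm)⟩
  have hζ : h.pt p ∈ (h.e p).target := (h.e p).map_source (h.src p)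
  have an : ∀ i, AnalyticAt ℂ (s i (h.e p)) (h.pt p) := fun i =>
    isForm_analyticAt (hT.form i) (h.mem p) hζ
  have e1 := (t_WJ M (fun i => s i (h.e p)) (h.pt p) (by omega) an a0).2.1.self_of_nhds
  have d1 : HasFDerivAt ((s 1 - x • s 0) (h.e p)) (0 : C2 →L[ℂ] ℂ) (h.pt p) :=
    hd ▸ (isForm_analyticAt hu (h.mem p) hζ).differentiableAt.hasFDerivAt
  have d2 := (d1.mul ((an 0).inv a0).differentiableAt.hasFDerivAt).add_const x
  have a1' : (s 1 - x • s 0) (h.e p) (h.pt p) = 0 := a1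
  rw [a1'] at d2
  have d3 : fderiv ℂ (s 1 (h.e p) / s 0 (h.e p)) (h.pt p) = 0 := by
    refine (d2.congr_of_eventuallyEq ?_).fderiv.trans (by ext w; simp)
    filter_upwards [(an 0).continuousAt.eventually_ne a0] with w hw
    simp only [Pi.div_apply, Pi.mul_apply, Pi.sub_apply, Pi.smul_apply, Pi.inv_apply, smul_eq_mul]
    field_simp
    ring
  change wjf M M M (s 0 (h.e p)) (s 1 (h.e p)) (s 2 (h.e p)) (h.pt p) = 0
  rw [e1]
  simp [jac, pd, d3]

end Pool.Agent.P.MP_ab0431_ag.UB.V2
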