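import Pool.Agent.P.MP_ab0431_ag.UB2.IfaceB

/-! Steps MON1 MON2 NOD2 MAXG MAXB NOD NOPEN SMAX. -/

set_option autoImplicit false
set_option linter.unusedSectionVars false
set_option linter.unusedVariables false

namespace Pool.Agent.P.MP_ab0431_ag.UB.V2

open Polynomial Set Filter Topology

section

variable {K A : Type} [Field K] [IsAlgClosed K] [CommRing A] [Algebra K A] [Module.Finite K A]

theorem kermax_mon12 (f : A →ₐ[K] K) : (RingHom.ker f).IsMaximal :=
  RingHom.ker_isMaximal_of_surjective f fun c => ⟨algebraMap K A c, by simp⟩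

theorem exhom_mon12 (M : Ideal A) (hM : M.IsMaximal) : ∃ f : A →ₐ[K] K, RingHom.ker f = M := by
  let g : (A ⧸ M) →ₐ[K] K := IsAlgClosed.lift
  refine ⟨g.comp (Ideal.Quotient.mkₐ K M), (hM.eq_of_le (kermax_mon12 _).ne_top fun x hx => ?_).symm⟩
  rw [RingHom.mem_ker, AlgHom.comp_apply, Ideal.Quotient.mkₐ_eq_mk,
    Ideal.Quotient.eq_zero_iff_mem.2 hx, map_zero]

theorem submem_mon12 (f : A →ₐ[K] K) (a : A) : a - algebraMap K A (f a) ∈ RingHom.ker f := by
  simp [RingHom.mem_ker]

theorem kerinj_mon12 {f g : A →ₐ[K] K} (h : RingHom.ker f = RingHom.ker g) : f = g := by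
  ext a
  have h1 := submem_mon12 f a
  rw [h, RingHom.mem_ker, map_sub, sub_eq_zero, AlgHom.commutes] at h1
  exact h1.symm

theorem gen_mon12 (h : ∀ f : A →ₐ[K] K, ∃ t ∈ RingHom.ker f,
    RingHom.ker f ≤ Ideal.span {t} ⊔ RingHom.ker f ^ 2) :
    ∃ s : A, ∀ a, ∃ P : K[X], aeval s P = a := by
  classical
  have : IsArtinianRing A := IsArtinianRing.of_finite K A
  have : IsNoetherianRing A := Algebra.FiniteType.isNoetherianRing K A
  have : Fintype (A →ₐ[K] K) := Fintype.ofFinite _
  choose t ht h using h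
  obtain ⟨c0, hc0⟩ := exists_injective_nat (A →ₐ[K] K)
  obtain ⟨c, hc⟩ : ∃ c : (A →ₐ[K] K) → K, Function.Injective c :=
    ⟨_, (Infinite.natEmbedding K).injective.comp hc0⟩
  obtain ⟨s, hs⟩ := Ideal.exists_forall_sub_mem_ideal
    (I := fun f : A →ₐ[K] K => RingHom.ker f ^ 2) (fun f g hfg => by
      have h1 := kermax_mon12 f
      have h2 := kermax_mon12 g
      exact (Ideal.isCoprime_iff_sup_eq.2
        (h1.coprime_of_ne h2 fun e => hfg (kerinj_mon12 e))).pow)
    fun f => algebraMap K A (c f) + t f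
  have h1 : ∀ f : A →ₐ[K] K, s - algebraMap K A (c f) ∈ RingHom.ker f := fun f => by
    rw [show s - algebraMap K A (c f) = s - (algebraMap K A (c f) + t f) + t f by ring]
    exact add_mem (Ideal.pow_le_self two_ne_zero (hs f)) (ht f)
  have h2 : ∀ f : A →ₐ[K] K, RingHom.ker f ≤ Ideal.span {s - algebraMap K A (c f)} := fun f => by
    have h3 : RingHom.ker f ≤ (Ideal.span {s - algebraMap K A (c f)}).jacobson := by
      refine le_sInf fun M hM => ?_
      obtain ⟨g, rfl⟩ := exhom_mon12 (K := K) M hM.2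
      have h4 := sub_mem (hM.1 (Ideal.mem_span_singleton_self _)) (h1 g)
      rw [RingHom.mem_ker] at h4
      have h5 : c g = c f := by simpa [sub_eq_zero] using h4
      rw [hc h5]
    have h4 : RingHom.ker f ≤ Ideal.span {s - algebraMap K A (c f)} ⊔
        RingHom.ker f • RingHom.ker f := by
      rw [smul_eq_mul, ← sq]
      refine (h f).trans (sup_le ((Ideal.span_singleton_le_iff_mem _).2 ?_) le_sup_right)
      rw [show t f = s - algebraMap K A (c f) - (s - (algebraMap K A (c f) + t f)) by ring]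
      exact sub_mem (Ideal.mem_sup_left (Ideal.mem_span_singleton_self _))
        (Ideal.mem_sup_right (hs f))
    have h5 := Submodule.sup_eq_sup_smul_of_le_smul_of_le_jacobson
      (IsNoetherian.noetherian (RingHom.ker f)) h3 h4
    refine le_sup_right.trans (h5.le.trans (sup_le le_rfl ?_))
    exact Submodule.smul_le.2 fun r hr x _ => Ideal.mul_mem_right x _ hr
  let G : A → Prop := fun x => (∃ Q : K[X], aeval s Q = x) ∧
    ∀ a, ∃ (P : K[X]) (y : A), a = aeval s P + x * y
  have g1 : G 1 := ⟨⟨1, map_one _⟩, fun a => ⟨0, a, by simp⟩⟩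
  have gm : ∀ x y, G x → G y → G (x * y) := by
    rintro x y ⟨⟨Q, rfl⟩, hx⟩ ⟨⟨R, rfl⟩, hy⟩
    refine ⟨⟨Q * R, map_mul _ _ _⟩, fun a => ?_⟩
    obtain ⟨P, z, rfl⟩ := hx a
    obtain ⟨P', z', rfl⟩ := hy z
    exact ⟨P + Q * P', z', by rw [map_add, map_mul]; ring⟩
  have gf : ∀ f : A →ₐ[K] K, G (s - algebraMap K A (c f)) := fun f => by
    refine ⟨⟨X - C (c f), by simp⟩, fun a => ?_⟩
    obtain ⟨y, hy⟩ := Ideal.mem_span_singleton'.1 (h2 f (submem_mon12 f a))
    exact ⟨C (f a), y, by rw [aeval_C, mul_comm, hy]; ring⟩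
  have gq : G (∏ f : A →ₐ[K] K, (s - algebraMap K A (c f))) :=
    Finset.prod_induction _ G gm g1 fun f _ => gf f
  have hq : ∏ f : A →ₐ[K] K, (s - algebraMap K A (c f)) ∈ (⊥ : Ideal A).jacobson := by
    refine Ideal.mem_sInf.2 fun {M} hM => ?_
    obtain ⟨g, rfl⟩ := exhom_mon12 (K := K) M hM.2
    exact Ideal.mem_of_dvd _ (Finset.dvd_prod_of_mem _ (Finset.mem_univ g)) (h1 g)
  obtain ⟨n, hn⟩ := IsArtinianRing.isNilpotent_jacobson_bot (R := A)
  have h0 := Ideal.pow_mem_pow hq n
  rw [hn, Ideal.zero_eq_bot, Ideal.mem_bot] at h0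
  have gn : ∀ k : ℕ, G ((∏ f : A →ₐ[K] K, (s - algebraMap K A (c f))) ^ k) := fun k => by
    induction k with
    | zero => rw [pow_zero]; exact g1
    | succ k ih => rw [pow_succ]; exact gm _ _ ih gq
  refine ⟨s, fun a => ?_⟩
  obtain ⟨P, y, e⟩ := (gn n).2 a
  exact ⟨P, by rw [e, h0, zero_mul, add_zero]⟩

end

theorem p_MON1 :
    S_MON1 := by
  intro K _ _ b B h
  obtain ⟨s, hs⟩ := gen_mon12 h
  refine ⟨s, ?_⟩
  rcases Nat.eq_zero_or_pos b with rfl | hb
  · simp
  refine ((Matrix.isUnit_iff_isUnit_det _).1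
    (Matrix.vecMul_surjective_iff_isUnit.1 fun v => ?_)).ne_zero
  obtain ⟨P, hP⟩ := hs v
  have h1 : B.ch s ≠ 1 := fun e => by
    have := B.ch_natDegree s
    rw [e, natDegree_one] at this
    omega
  have h2 := natDegree_modByMonic_lt P (B.ch_monic s) h1
  rw [B.ch_natDegree] at h2
  rw [← aeval_modByMonic_eq_self_of_root (B.aeval_ch s), aeval_eq_sum_range' h2,
    Finset.sum_range] at hP
  refine ⟨fun j => (P %ₘ B.ch s).coeff j, funext fun i => ?_⟩
  have h3 := congrFun hP i
  rw [B.sum_apply] at h3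
  exact h3

end Pool.Agent.P.MP_ab0431_ag.UB.V2

namespace Pool.Agent.P.MP_ab0431_ag.UB.V2

open Polynomial Set Filter Topology

theorem soc_mon22 {B : Type} [CommRing B] [IsArtinianRing B] {I : Ideal B} (hI : I ≠ ⊤) :
    ∃ o : B, o ≠ 0 ∧ ∀ m ∈ I, o * m = 0 := by
  obtain ⟨N, hN⟩ := IsArtinian.monotone_stabilizes (R := B) (M := B)
    ⟨(I ^ ·), @Ideal.pow_le_pow_right _ _ _⟩
  have h1 : I ^ N = I ^ (N + 1) := hN _ N.le_succ
  obtain ⟨r, r1, r2⟩ := Submodule.exists_sub_one_mem_and_smul_eq_zero_of_fg_of_le_smul I (I ^ N)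
    (IsNoetherian.noetherian _) (by rw [smul_eq_mul, ← pow_succ', ← h1])
  clear hN h1
  induction N with
  | zero =>
    have := r2 1 (by simp)
    rw [smul_eq_mul, mul_one] at this
    exact (hI ((Ideal.eq_top_iff_one I).2 (by simpa [this] using I.neg_mem r1))).elim
  | succ n ih =>
    by_cases h : ∀ x ∈ I ^ n, r • x = 0
    · exact ih h
    · push Not at h
      obtain ⟨x, h1, h2⟩ := h
      exact ⟨r • x, h2, fun m hm => by
        rw [smul_mul_assoc]; exact r2 _ (pow_succ I n ▸ Ideal.mul_mem_mul h1 hm)⟩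

theorem int_mon22 {A : Type} [CommRing A] [IsNoetherianRing A] {M : Ideal A} {π o : A}
    (hπ : ∀ x, π * x = 0 → x = 0) (hM : π ∈ M) (h : ∀ m ∈ M, ∃ w ∈ M, o * m = π * w) :
    ∃ (n : ℕ) (α : ℕ → A), o ^ n + ∑ j ∈ Finset.range n, π ^ (n - j) * (α j * o ^ j) = 0 := by
  have c : ∀ x y, π * x = π * y → x = y := fun x y e =>
    sub_eq_zero.1 (hπ _ (by rw [mul_sub, e, sub_self]))
  choose! w w1 w2 using h
  let φ : M →ₗ[A] M :=
    { toFun := fun m => ⟨w m, w1 m m.2⟩
      map_add' := fun x y => Subtype.ext (c _ _ (by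
        change π * w (x + y : M) = π * (w x + w y)
        rw [mul_add, ← w2 _ x.2, ← w2 _ y.2, ← w2 _ (x + y).2, ← mul_add]; rfl))
      map_smul' := fun a x => Subtype.ext (c _ _ (by
        change π * w (a • x : M) = π * (a * w x)
        rw [mul_left_comm, ← w2 _ x.2, ← w2 _ (a • x).2, mul_left_comm]; rfl)) }
  have k : ∀ (j : ℕ) (m : M), π ^ j * ((φ ^ j) m : A) = o ^ j * m := fun j => by
    induction j with
    | zero => simp
    | succ j ih =>
      intro m
      rw [pow_succ φ, Module.End.mul_apply, pow_succ', mul_assoc, ih, mul_left_comm]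
      change _ * (π * w m) = _
      rw [← w2 _ m.2, pow_succ, mul_assoc]
  obtain ⟨p, p1, p2⟩ := LinearMap.exists_monic_and_aeval_eq_zero A φ
  refine ⟨p.natDegree, p.coeff, hπ _ ?_⟩
  rw [aeval_eq_sum_range, Finset.sum_range_succ, p1.coeff_natDegree, one_smul] at p2
  have := congrArg (fun T : Module.End A M => π ^ p.natDegree * (T ⟨π, hM⟩ : A)) p2
  simp only [LinearMap.add_apply, LinearMap.sum_apply, LinearMap.smul_apply, Submodule.coe_add,
    Submodule.coe_sum, Submodule.coe_smul, LinearMap.zero_apply, Submodule.coe_zero, mul_zero,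
    mul_add, k, Finset.mul_sum, smul_eq_mul] at this
  rw [← this, mul_add, add_comm, Finset.mul_sum, mul_comm π (o ^ _)]
  congr 1
  refine Finset.sum_congr rfl fun j hj => ?_
  obtain ⟨i, hi⟩ := Nat.exists_eq_add_of_le (Finset.mem_range.1 hj).le
  have := k j ⟨π, hM⟩
  rw [hi, Nat.add_sub_cancel_left, pow_add]
  linear_combination (-π ^ i * p.coeff j) * this

theorem gen_mon22 {A : Type} [CommRing A] {M : Ideal A} (hm : M.IsMaximal) {π o t v : A}
    (hπ : ∀ x, π * x = 0 → x = 0) (h : ∀ m ∈ M, ∃ w, o * m = π * w) (e : o * t = π * v)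
    (hv : v ∉ M) (m : A) (h1 : m ∈ M) : ∃ y, ∃ c ∈ M, m = y * t + c * m := by
  obtain ⟨y, c, c1, c2⟩ := hm.exists_inv hv
  obtain ⟨w, hw⟩ := h m h1
  have : m * v - w * t = 0 := hπ _ (by linear_combination t * hw - m * e)
  exact ⟨y * w, c, c1, by linear_combination y * this - m * c2⟩

theorem p_MON2 :
    S_MON2 := by
  intro K _ b D a f hD
  have : IsArtinianRing (D.map (evalRingHom a)).A := .of_finite K _
  have : IsNoetherianRing D.A := .of_finite K[X] _
  have fs : Function.Surjective f := fun c => ⟨algebraMap _ _ c, f.commutes c⟩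
  have mx : (RingHom.ker f).IsMaximal := RingHom.ker_isMaximal_of_surjective f fs
  set r := D.mapA (evalRingHom a) with hr
  have rs : Function.Surjective r := fun y =>
    ⟨fun i => C (y i), Str.ext _ fun i => eval_C⟩
  have g0 : X - C a ≠ 0 := X_sub_C_ne_zero a
  set π : D.A := algebraMap _ _ (X - C a) with hπ
  have πm : ∀ x : D.A, π * x = (X - C a) • x := fun x => (Algebra.smul_def _ _).symm
  have π0 : ∀ x, π * x = 0 → x = 0 := fun x e => Str.ext _ fun i =>
    (mul_eq_zero.1 (congrFun ((πm x).symm.trans e) i)).resolve_left g0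
  have rk : ∀ x, r x = 0 ↔ ∀ i, X - C a ∣ x i := fun x =>
    funext_iff.trans (forall_congr' fun i => dvd_iff_isRoot.symm)
  have rπ : r π = 0 := by
    rw [← mul_one π, πm, hr, Str.mapA_smul]; simp
  obtain ⟨o', o1, o2⟩ := soc_mon22 mx.ne_top
  obtain ⟨o, rfl⟩ := rs o'
  have mx' : ((RingHom.ker f).comap r).IsMaximal := Ideal.comap_isMaximal_of_surjective r rs
  have h1 : ∀ m ∈ (RingHom.ker f).comap r, ∃ w, o * m = π * w := fun m hm => by
    choose w hw using (rk (o * m)).1 (by rw [map_mul]; exact o2 _ hm)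
    exact ⟨w, (Str.ext _ hw).trans (πm w).symm⟩
  obtain ⟨t, t1, v, e, hv⟩ : ∃ t ∈ (RingHom.ker f).comap r, ∃ v, o * t = π * v ∧
      v ∉ (RingHom.ker f).comap r := by
    by_contra c
    push Not at c
    obtain ⟨n, α, h⟩ := int_mon22 (o := o) π0 (M := (RingHom.ker f).comap r)
      (by rw [Ideal.mem_comap, rπ]; exact zero_mem _)
      fun m hm => (h1 m hm).imp fun w hw => ⟨c m hm w hw, hw⟩
    refine o1 ((rk o).2 (hD _ o g0 (t_MAXI K b D _ o n α g0 ?_)))
    simpa only [Algebra.smul_def, map_pow] using h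
  refine ⟨r t, t1, fun m' hm => ?_⟩
  obtain ⟨m, rfl⟩ := rs m'
  obtain ⟨y, c, c1, c2⟩ := gen_mon22 mx' π0 h1 e hv m hm
  rw [c2, map_add, map_mul, map_mul, pow_two]
  exact Submodule.add_mem_sup (Ideal.mul_mem_left _ _ (Ideal.mem_span_singleton_self _))
    (Ideal.mul_mem_mul c1 hm)

end Pool.Agent.P.MP_ab0431_ag.UB.V2

namespace Pool.Agent.P.MP_ab0431_ag.UB.V2

open Polynomial Set Filter Topology

theorem p_NOD2 (hMON1 : S_MON1) (hMON2 : S_MON2) :
    S_NOD2 := by
  classical
  intro k K _ _ _ _ b m D l x hP ha hl h0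
  obtain ⟨s, hs⟩ := hMON1 k b (D.fib x) fun f => hMON2 k b D.toStr x f hP
  have e1 := comp_nod2 D (MvPolynomial.C : k →+* MvPolynomial (J D.a m) k)
    (MvPolynomial.aeval l : MvPolynomial (J D.a m) k →ₐ[k] K).toRingHom (algebraMap k K)
    (by ext; simp) MvPolynomial.X l (by ext; simp) x
  rw [h0] at e1
  have e3 := (injective_iff_map_eq_zero _).1 hl _ e1.symm
  have hd : D.Deg m fun i => C (s i) := fun i n hn => by
    have := ha i
    exact coeff_C_of_ne_zero (by omega)
  have e4 := comp_nod2 D (MvPolynomial.C : k →+* MvPolynomial (J D.a m) k)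
    (MvPolynomial.eval fun p : J D.a m => (C (s p.1.1)).coeff p.1.2) (RingHom.id k)
    (by ext; simp) MvPolynomial.X (fun p : J D.a m => (C (s p.1.1)).coeff p.1.2) (by ext; simp) x
  rw [e3, map_zero] at e4
  have e5 := (congr_nod2 (D.map (RingHom.id k)).toStr D.toStr _ (fun i => C (s i)) (by
      change D.toStr.map (mapRingHom (RingHom.id k)) = D.toStr
      rw [mapRingHom_id]; rfl) hd.eq_el.symm _).symm.trans e4
  have e6 : s = D.toStr.mapA (evalRingHom x) fun i => C (s i) := by
    funext i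
    exact (eval_C).symm
  have e7 := D.toStr.N_map (evalRingHom x) fun i => C (s i)
  rw [← RingHom.mapMatrix_apply] at e7
  exact hs ((congrArg (fun y => ((D.fib x).N y).det) e6).trans ((congrArg Matrix.det e7).trans
    (((evalRingHom x).map_det _).symm.trans e5)))

end Pool.Agent.P.MP_ab0431_ag.UB.V2

namespace Pool.Agent.P.MP_ab0431_ag.UB.V2

open Polynomial Set Filter Topology

theorem p_MAXG :
    S_MAXG := by
  intro K _ _ b D h
  have key : ∀ n, ∀ (g : K[X]) (o : D.A), g.natDegree = n → g ≠ 0 →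
      (∀ j, g ^ (b - j) ∣ (D.ch o).coeff j) → ∀ i, g ∣ o i := by
    intro n
    induction n with
    | zero =>
      intro g o hg h0 _ i
      rw [eq_C_of_natDegree_eq_zero hg] at h0 ⊢
      exact (isUnit_C.2 (IsUnit.mk0 _ fun h1 => h0 (by rw [h1, C_0]))).dvd
    | succ n ih =>
      intro g o hg h0 hd i
      obtain ⟨a, ha⟩ := IsAlgClosed.exists_root g (by
        rw [degree_eq_natDegree h0, hg]; exact_mod_cast Nat.succ_ne_zero n)
      obtain ⟨g', rfl⟩ := dvd_iff_isRoot.2 ha
      have hπ : (X - C a : K[X]) ≠ 0 := X_sub_C_ne_zero a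
      have hg' : g' ≠ 0 := right_ne_zero_of_mul h0
      have h1 := h a o fun j => (pow_dvd_pow_of_dvd (dvd_mul_right _ _) _).trans (hd j)
      choose o' ho' using h1
      have h2 : o = (X - C a : K[X]) • (show D.A from o') := Str.ext D ho'
      rw [ho' i]
      refine mul_dvd_mul_left _ (ih g' o' ?_ hg' (fun j => ?_) i)
      · rw [natDegree_mul hπ hg', natDegree_X_sub_C] at hg; omega
      · have h3 := hd j
        rw [h2, (t_CHS K[X] b D o').1, mul_pow] at h3
        exact (mul_dvd_mul_iff_left (pow_ne_zero _ hπ)).1 h3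
  exact fun g o h0 hd => key _ g o rfl h0 hd

end Pool.Agent.P.MP_ab0431_ag.UB.V2

namespace Pool.Agent.P.MP_ab0431_ag.UB.V2

open Polynomial Set Filter Topology

theorem hom_maxb2 (k R : Type) [Field k] [IsAlgClosed k] [CommRing R] [IsDomain R] [Algebra k R]
    [Algebra.FiniteType k R] (r : R) (h : ∀ ψ : R →ₐ[k] k, ψ r = 0) : r = 0 := by
  have : IsJacobsonRing R := isJacobsonRing_of_finiteType (A := k)
  have h1 : (⊥ : Ideal R).jacobson = ⊥ := IsJacobsonRing.out' _ Ideal.isRadical_bot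
  rw [← Ideal.mem_bot, ← h1, Ideal.jacobson, Ideal.mem_sInf]
  rintro m ⟨-, hm⟩
  let _ := Ideal.Quotient.field m
  have : Module.Finite k (R ⧸ m) := finite_of_finite_type_of_isJacobsonRing k (R ⧸ m)
  let e := AlgEquiv.ofBijective (Algebra.ofId k (R ⧸ m))
    IsAlgClosed.algebraMap_bijective_of_isIntegral
  have h2 := h (e.symm.toAlgHom.comp (Ideal.Quotient.mkₐ k m))
  exact Ideal.Quotient.eq_zero_iff_mem.1 (e.symm.injective (h2.trans (map_zero _).symm))

theorem ch_maxb2 {S S' S'' : Type} [CommRing S] [CommRing S'] [CommRing S''] {b : ℕ} (D : Str S b)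
    (f : S →+* S') (g : S' →+* S'') (h : S →+* S'') (e : g.comp f = h) (x : (D.map f).A) :
    (D.map h).ch (fun i => g (x i)) = ((D.map f).ch x).map g := by
  subst e
  exact (D.map f).ch_map g x

theorem p_MAXB (hMAXG : S_MAXG) :
    S_MAXB := by
  intro k K _ _ _ _ φ b D hD
  refine hMAXG K b _ fun a o ho i => ?_
  rw [dvd_iff_isRoot]
  by_cases ha : a ∈ range φ
  · obtain ⟨a0, rfl⟩ := ha
    classical
    let _ := φ.toAlgebra
    choose q hq using ho
    let s : Finset K := Finset.univ.biUnion (fun i => (o i).coeffs) ∪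
      (Finset.range (b + 1)).biUnion fun j => (q j).coeffs
    let R := Algebra.adjoin k (s : Set K)
    have : Algebra.FiniteType k R := (Subalgebra.fg_iff_finiteType _).1 (Subalgebra.fg_adjoin_finset s)
    have lift : ∀ p : K[X], p.coeffs ⊆ s → ∃ p' : R[X], p'.map R.val.toRingHom = p := fun p hp => by
      rw [← mem_lifts, lifts_iff_coeff_lifts]
      intro n
      by_cases h0 : p.coeff n = 0
      · exact ⟨0, by simp [h0]⟩
      · exact ⟨⟨p.coeff n, Algebra.subset_adjoin (hp (coeff_mem_coeffs h0))⟩, rfl⟩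
    choose o' ho' using fun i => lift (o i) fun x hx =>
      Finset.mem_union_left _ (Finset.mem_biUnion.2 ⟨i, Finset.mem_univ _, hx⟩)
    have inj : Function.Injective R.val.toRingHom := Subtype.val_injective
    have e1 : (mapRingHom R.val.toRingHom).comp (mapRingHom (algebraMap k R)) = mapRingHom φ := by
      rw [mapRingHom_comp]; rfl
    have c1 := ch_maxb2 D.toStr _ _ _ e1 o'
    have eo : (fun i => mapRingHom R.val.toRingHom (o' i)) = o := funext ho'
    rw [eo] at c1
    have hv : ∀ j, (X - C (algebraMap k R a0)) ^ (b - j) ∣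
        ((D.toStr.map (mapRingHom (algebraMap k R))).ch o').coeff j := fun j => by
      by_cases hj : j ≤ b
      · obtain ⟨q', hq'⟩ := lift (q j) fun x hx => Finset.mem_union_right _
          (Finset.mem_biUnion.2 ⟨j, Finset.mem_range.2 (by omega), hx⟩)
        refine ⟨q', map_injective _ inj ?_⟩
        have c2 := congrArg (fun p => coeff p j) c1
        simp only [coeff_map, coe_mapRingHom] at c2
        rw [← c2, Polynomial.map_mul, Polynomial.map_pow, Polynomial.map_sub, map_X, map_C, hq']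
        exact hq j
      · rw [Nat.sub_eq_zero_of_le (by omega), pow_zero]
        exact one_dvd _
    have hz : (o' i).eval (algebraMap k R a0) = 0 := hom_maxb2 k R _ fun ψ => by
      have e2 : (mapRingHom ψ.toRingHom).comp (mapRingHom (algebraMap k R)) = RingHom.id _ := by
        rw [mapRingHom_comp, show ψ.toRingHom.comp (algebraMap k R) = RingHom.id k from
          ψ.comp_algebraMap, mapRingHom_id]
      have c2 := ch_maxb2 D.toStr _ _ _ e2 o'
      have h3 := hD (X - C a0) (fun i => mapRingHom ψ.toRingHom (o' i)) (X_sub_C_ne_zero a0)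
        (fun j => by
          have h4 := map_dvd (mapRingHom ψ.toRingHom) (hv j)
          rw [← coeff_map, ← c2] at h4
          have h5 : mapRingHom ψ.toRingHom ((X - C (algebraMap k R a0)) ^ (b - j)) =
              (X - C a0) ^ (b - j) := by simp
          rw [h5] at h4
          exact h4) i
      rw [dvd_iff_isRoot, IsRoot, coe_mapRingHom] at h3
      rw [← h3, show a0 = ψ.toRingHom (algebraMap k R a0) from (ψ.commutes a0).symm, eval_map,
        eval₂_hom]
      simp
    rw [IsRoot, ← ho' i, show φ a0 = R.val.toRingHom (algebraMap k R a0) from rfl, eval_map,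
      eval₂_hom, hz, map_zero]
  · have hP : D.P ≠ 0 := fun e => by simpa [e] using D.P1
    have h1 : (D.P.map φ).eval a ≠ 0 := fun e => ha (by
      have := (IsAlgClosed.splits D.P).roots_map φ
      have h2 : a ∈ (D.P.map φ).roots := (mem_roots (map_ne_zero hP)).2 e
      rw [this, Multiset.mem_map] at h2
      obtain ⟨x, -, hx⟩ := h2
      exact ⟨x, hx⟩)
    have h2 : ((D.map φ).fib a).disc ≠ 0 := by
      rw [Str.disc_map, (D.map φ).hd, map_mul, coe_evalRingHom, eval_C]
      exact mul_ne_zero (D.map φ).c.ne_zero h1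
    have h3 : ((D.map φ).fib a).ch ((D.map φ).toStr.mapA (evalRingHom a) o) = X ^ b := by
      rw [Str.ch_map]
      ext j
      rw [coeff_map, coeff_X_pow]
      rcases lt_trichotomy j b with h | h | h
      · rw [if_neg h.ne]
        exact dvd_iff_isRoot.1 ((dvd_pow_self _ (by omega)).trans (ho j))
      · rw [if_pos h, h]
        have := ((D.map φ).toStr.ch_monic o).coeff_natDegree
        rw [Str.ch_natDegree] at this
        rw [this, map_one]
      · rw [if_neg h.ne', coeff_eq_zero_of_natDegree_lt (by rwa [Str.ch_natDegree]), map_zero]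
    have h4 := ((D.map φ).fib a).aeval_ch ((D.map φ).toStr.mapA (evalRingHom a) o)
    rw [h3, map_pow, aeval_X] at h4
    exact congrFun ((t_NIL K b _ h2).2 _ ⟨b, h4⟩) i

end Pool.Agent.P.MP_ab0431_ag.UB.V2

namespace Pool.Agent.P.MP_ab0431_ag.UB.V2

open Polynomial Set Filter Topology

theorem p_NOD (hNOD2 : S_NOD2) (hMAXB : S_MAXB) :
    S_NOD := by
  intro k K _ _ _ _ _ b m D l c hP ha hl hc
  have ha' : ∀ i, D.a i ≤ m := fun i => (Nat.le_succ _).trans (ha i)
  have n1 := t_NOD1 k K b m D l ha' hl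
  have n2 := fun x => hNOD2 k K b m D l x hP ha' hl
  have n3 := fun x hx => t_NOD3 k K b m D l x _ _ ha hl hx rfl rfl
  have n4 : ∀ x z, Sing ((D.map (algebraMap k K)).toStr.ch ((D.map (algebraMap k K)).el m l)) x z →
      ((D.map (algebraMap k K)).toStr.N ((D.map (algebraMap k K)).el m l)).det.eval x = 0 :=
    fun x z hs => dvd_iff_isRoot.1 (dvd_det_kma _ _ x z hs.1
      (t_NODE K b _ _ x z (hMAXB k K (algebraMap k K) b D hP) hs))
  have n5 : ∀ x, (D.map (algebraMap k K)).P.eval x = aeval x D.P := fun x =>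
    eval_map_algebraMap D.P x
  obtain ⟨Dt, -, -, -, -, hT, -⟩ := t_TUP K b (D.map (algebraMap k K))
  have hW := (hT m _ ((D.map (algebraMap k K)).el_deg m l)).1
  have hΔ := (t_DISC K[X] b).1 (D.map (algebraMap k K)).toStr ((D.map (algebraMap k K)).el m l)
  rw [(D.map (algebraMap k K)).hd] at hΔ
  have hM := (D.map (algebraMap k K)).toStr.ch_monic ((D.map (algebraMap k K)).el m l)
  have hd := (D.map (algebraMap k K)).toStr.ch_natDegree ((D.map (algebraMap k K)).el m l)
  have hPm := (D.map (algebraMap k K)).P_monic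
  have hPd : (D.map (algebraMap k K)).P.natDegree = D.w := (D.map (algebraMap k K)).P_natDegree
  have hc0 : ((D.map (algebraMap k K)).c : K) ≠ 0 := Units.ne_zero _
  have hF := toP_co hM hd hW
  rw [← hc] at hF
  generalize (D.map (algebraMap k K)).toStr.ch ((D.map (algebraMap k K)).el m l) = F at *
  generalize ((D.map (algebraMap k K)).toStr.N ((D.map (algebraMap k K)).el m l)).det = h at *
  generalize (D.map (algebraMap k K)).P = P at *
  generalize ((D.map (algebraMap k K)).c : K) = γ at *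
  have h0 : h ≠ 0 := fun e => n2 0 (by rw [e, eval_zero])
  have key0 : ∀ x, h.eval x = 0 → aeval x D.P ≠ 0 := fun x hx e => by
    obtain ⟨y, rfl⟩ := minpoly.mem_range_of_degree_eq_one k x
      (IsAlgClosed.degree_eq_one_of_irreducible k (minpoly.irreducible ⟨_, D.P_monic, e⟩))
    exact n2 y hx
  have key : ∀ x, h.eval x = 0 →
      h.derivative.eval x ≠ 0 ∧ ∃ z, Sing F x z ∧ (nq F x z).Separable := fun x hx =>
    n3 x (key0 x hx) hx
  obtain ⟨n, x, u, hx, hr, hu, rfl⟩ := split_nod h0 fun x hx => (key x hx).1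
  choose z hz hz' using fun i => (key (x i) (hr i)).2
  have hH : (nH x).Monic := monic_prod_of_monic _ _ fun i _ => monic_X_sub_C _
  have hHd : (nH x).natDegree = n := by
    rw [nH, natDegree_prod_of_monic _ _ fun i _ => monic_X_sub_C _]; simp
  have hu' : u ^ 2 * γ ≠ 0 := mul_ne_zero (pow_ne_zero _ hu) hc0
  have e1 : Δ b F = nH x ^ 2 * (C (u ^ 2 * γ) * P) := by
    rw [hΔ, map_mul, map_pow]; ring
  have e2 : nP c x = C (u ^ 2 * γ) * P := by
    rw [nP, hF, e1, mul_divByMonic_cancel_left _ (hH.pow 2)]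
  have e3 : (C (u ^ 2 * γ) * P).natDegree = D.w := by rw [natDegree_C_mul hu', hPd]
  have e4 : C (u ^ 2 * γ) * P ≠ 0 := mul_ne_zero (C_ne_zero.2 hu') hPm.ne_zero
  refine ⟨n, x, z, ?_, ⟨by rwa [hF], by rwa [hF]⟩, ?_, ?_⟩
  · rw [← natDegree_eq_of_le_of_coeff_ne_zero
      (natDegree_le_iff_coeff_eq_zero.2 (t_TOP K b m F hM hd hW).1) n1, e1,
      natDegree_mul (hH.pow 2).ne_zero e4, e3, hH.natDegree_pow, hHd, add_comm]
  · rw [nV, hF]
    refine mul_ne_zero (mul_ne_zero (Matrix.det_vandermonde_ne_zero_iff.2 hx) n1)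
      (Finset.prod_ne_zero_iff.2 fun i _ => ?_)
    exact (t_DSEP K _ _ (nq_nod hM hd (hz i).1).1 (nq_nod hM hd (hz i).1).2).2 (hz' i)
  · intro a y hs
    rw [hF] at hs
    rw [e2, eval_mul, eval_C, n5]
    exact mul_ne_zero hu' (key0 a (n4 a y hs))

end Pool.Agent.P.MP_ab0431_ag.UB.V2

namespace Pool.Agent.P.MP_ab0431_ag.UB.V2

open Polynomial Set Filter Topology

theorem ext_nopen2 {A B K : Type} [CommRing A] [CommRing B] [Field K] [IsAlgClosed K]
    [Algebra A B] [Algebra.IsIntegral A B] (ψ : A →+* K)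
    (h : ∀ a, algebraMap A B a = 0 → ψ a = 0) :
    ∃ χ : B →+* K, ∀ a, χ (algebraMap A B a) = ψ a := by
  have : (RingHom.ker ψ).IsPrime := RingHom.ker_isPrime ψ
  obtain ⟨Q, -, hQ, hc⟩ := Ideal.exists_ideal_over_prime_of_isIntegral (S := B) (RingHom.ker ψ) ⊥
    fun a ha => h a (by simpa using ha)
  let g : A ⧸ Q.comap (algebraMap A B) →+* K :=
    Ideal.Quotient.lift _ ψ fun a ha => by rw [hc] at ha; exact ha
  have hg : Function.Injective g := by
    rw [injective_iff_map_eq_zero]
    intro y hy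
    obtain ⟨a, rfl⟩ := Ideal.Quotient.mk_surjective y
    rw [Ideal.Quotient.eq_zero_iff_mem, hc]
    exact hy
  let : Algebra (A ⧸ Q.comap (algebraMap A B)) K := g.toAlgebra
  have : Module.IsTorsionFree (A ⧸ Q.comap (algebraMap A B)) K :=
    Module.isTorsionFree_iff_algebraMap_injective.2 hg
  have : Module.IsTorsionFree (A ⧸ Q.comap (algebraMap A B)) (B ⧸ Q) :=
    Module.isTorsionFree_iff_algebraMap_injective.2 Ideal.algebraMap_quotient_injective
  let f : (B ⧸ Q) →ₐ[A ⧸ Q.comap (algebraMap A B)] K := IsAlgClosed.lift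
  refine ⟨(f : B ⧸ Q →+* K).comp (Ideal.Quotient.mk Q), fun a => ?_⟩
  exact f.commutes (Ideal.Quotient.mk _ a)

section
variable {S S' : Type} [CommRing S] [CommRing S'] (τ : S →+* S') {b m : ℕ}

theorem sing3_nopen2 (F : S[X][X]) (a z : S) :
    ((F.map (mapRingHom τ)).eval (C (τ z))).derivative.eval (τ a) =
      τ ((F.eval (C z)).derivative.eval a) := by
  rw [← map_C, map_mapRingHom_eval_map, derivative_map, eval_map_apply]

theorem sing_iff_nopen2 (c : Co b m → S) (a z : S) :
    Sing (toP (τ ∘ c)) (τ a) (τ z) ↔ τ ((toP c).evalEval a z) = 0 ∧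
      τ ((toP c).derivative.evalEval a z) = 0 ∧ τ (((toP c).eval (C z)).derivative.eval a) = 0 := by
  rw [Sing, toP_map, derivative_map, map_mapRingHom_evalEval, map_mapRingHom_evalEval,
    sing3_nopen2]

end

theorem p_NOPEN :
    S_NOPEN := by
  intro R K _ _ _ φ ψ b m n c x hker hW hψ hn hS a z hs ha
  set l := (Δ b (toP c)).coeff (m * (b * (b - 1))) with hl
  have hψl : ψ l ≠ 0 := by rwa [del_nmap, coeff_map] at hψ
  have hφl : φ l ≠ 0 := fun e => hψl (hker l e)
  have hc : (Δ b (toP (φ ∘ c))).coeff (m * (b * (b - 1))) = φ l := by rw [del_nmap, coeff_map]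
  have hd : (Δ b (toP (φ ∘ c))).natDegree = m * (b * (b - 1)) :=
    le_antisymm (natDegree_le_iff_coeff_eq_zero.2
      (t_TOP K b m _ (toP_monic _) (toP_natDegree _) hW).1) (le_natDegree_of_ne_zero (hc ▸ hφl))
  have h0 : Δ b (toP (φ ∘ c)) ≠ 0 := fun e => hφl (by rw [← hc, e, coeff_zero])
  have hH : (nH (φ ∘ x) ^ 2).Monic := (monic_prod_X_sub_C _ _).pow 2
  have hHd : (nH (φ ∘ x) ^ 2).natDegree = 2 * n := by
    rw [natDegree_pow, nH, natDegree_finsetProd_X_sub_C_eq_card]; simp
  have hlc : (nP (φ ∘ c) (φ ∘ x)).leadingCoeff = φ l := by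
    rw [nP, leadingCoeff_divByMonic_of_monic hH, leadingCoeff, hd, hc]
    rw [degree_eq_natDegree hH.ne_zero, degree_eq_natDegree h0, hHd, hd]
    exact_mod_cast hn
  have hP0 : nP (φ ∘ c) (φ ∘ x) ≠ 0 := fun e => hφl (by rw [← hlc, e, leadingCoeff_zero])
  let A := Localization.Away l
  let φ1 : A →+* K := IsLocalization.Away.lift l hφl.isUnit
  let ψ1 : A →+* K := IsLocalization.Away.lift l hψl.isUnit
  have e1 : ∀ r, φ1 (algebraMap R A r) = φ r := IsLocalization.Away.lift_eq l _
  have e2 : ∀ r, ψ1 (algebraMap R A r) = ψ r := IsLocalization.Away.lift_eq l _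
  have hk : ∀ y, φ1 y = 0 → ψ1 y = 0 := by
    intro y hy
    obtain ⟨k, r, h⟩ := IsLocalization.Away.surj l y
    have h1 := congrArg φ1 h
    have h2 := congrArg ψ1 h
    rw [map_mul, hy, zero_mul, e1] at h1
    rw [map_mul, map_pow, e2, e2, hker r h1.symm] at h2
    exact (mul_eq_zero.1 h2).resolve_right (pow_ne_zero _ hψl)
  let : Algebra A K := φ1.toAlgebra
  have hai : IsIntegral A a := by
    have hm := monic_mul_leadingCoeff_inv hP0
    have hu : φ1 (IsLocalization.Away.invSelf l) = (φ l)⁻¹ := by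
      refine eq_inv_of_mul_eq_one_right ?_
      rw [← e1, ← map_mul, IsLocalization.Away.mul_invSelf, map_one]
    have hli : nP (φ ∘ c) (φ ∘ x) * C (nP (φ ∘ c) (φ ∘ x)).leadingCoeff⁻¹ ∈ lifts φ1 :=
      ⟨(nP c x).map (algebraMap R A) * C (IsLocalization.Away.invSelf l), by
        rw [hlc, nP_nmap, coe_mapRingHom, Polynomial.map_mul, map_C, hu, Polynomial.map_map]
        congr 2
        exact RingHom.ext e1⟩
    obtain ⟨q, hq, -, hq'⟩ := lifts_and_natDegree_eq_and_monic hli hm
    refine ⟨q, hq', ?_⟩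
    change eval₂ φ1 a q = 0
    rw [← eval_map, hq, eval_mul, ha, zero_mul]
  let B := integralClosure A K
  let ρ : R →+* B := (algebraMap A B).comp (algebraMap R A)
  let ι : B →+* K := algebraMap B K
  have hι : Function.Injective ι := Subtype.val_injective
  have hρ : ∀ r, ι (ρ r) = φ r := e1
  have hρc : ι ∘ (ρ ∘ c) = φ ∘ c := funext fun _ => hρ _
  let a' : B := ⟨a, hai⟩
  have hzi : IsIntegral A z := by
    refine isIntegral_trans (A := B) z ⟨(toP (ρ ∘ c)).map (evalRingHom a'),
      (toP_monic _).map _, ?_⟩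
    have h1 := hs.1
    rw [← hρc, toP_map, ← map_evalRingHom_eval, Polynomial.map_map] at h1
    rw [← eval_map, Polynomial.map_map, ← h1]
    congr 2
    ext <;> simp [ι, a']
  let z' : B := ⟨z, hzi⟩
  obtain ⟨χ, hχ⟩ := ext_nopen2 (B := B) ψ1 fun y hy => hk y (congrArg ι hy)
  have hχρ : ∀ r, χ (ρ r) = ψ r := fun r => (hχ _).trans (e2 r)
  have hχc : χ ∘ (ρ ∘ c) = ψ ∘ c := funext fun _ => hχρ _
  have hχx : χ ∘ (ρ ∘ x) = ψ ∘ x := funext fun _ => hχρ _
  have hρx : ι ∘ (ρ ∘ x) = φ ∘ x := funext fun _ => hρ _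
  have hs' : Sing (toP (ι ∘ (ρ ∘ c))) (ι a') (ι z') := by rw [hρc]; exact hs
  simp only [sing_iff_nopen2, map_eq_zero_iff ι hι] at hs'
  refine hS (χ a') (χ z') ?_ ?_
  · rw [← hχc, sing_iff_nopen2, hs'.1, hs'.2.1, hs'.2.2, map_zero]
    exact ⟨rfl, rfl, rfl⟩
  · have h1 : ι ((nP (ρ ∘ c) (ρ ∘ x)).eval a') = 0 := by
      rw [← eval_map_apply, ← nP_nmap, hρc, hρx]; exact ha
    rw [← hχc, ← hχx, nP_nmap, eval_map_apply, (map_eq_zero_iff ι hι).1 h1, map_zero]

end Pool.Agent.P.MP_ab0431_ag.UB.V2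

namespace Pool.Agent.P.MP_ab0431_ag.UB.V2

open Polynomial Set Filter Topology

theorem eig_smax2 {K A : Type} [Field K] [CommRing A] [Algebra K A] {s w : A} {z : K}
    (h : s * w = z • w) (p : K[X]) : aeval s p * w = p.eval z • w := by
  have hp : ∀ n : ℕ, s ^ n * w = z ^ n • w := fun n => by
    induction n with
    | zero => simp
    | succ n ih => rw [pow_succ', mul_assoc, ih, mul_smul_comm, h, smul_smul, pow_succ]
  induction p using Polynomial.induction_on' with
  | add p q hp' hq => rw [map_add, add_mul, hp', hq, eval_add, add_smul]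
  | monomial n c =>
    rw [aeval_monomial, mul_assoc, hp, eval_monomial, ← Algebra.smul_def, smul_smul]

theorem mapA_aeval_smax2 {S S' : Type} [CommRing S] [CommRing S'] {b : ℕ} (D : Str S b)
    (φ : S →+* S') (s : D.A) (p : S[X]) :
    D.mapA φ (aeval s p) = aeval (D.mapA φ s) (p.map φ) := by
  induction p using Polynomial.induction_on' with
  | add p q hp hq => rw [map_add, map_add, hp, hq, Polynomial.map_add, map_add]
  | monomial n c =>
    rw [aeval_monomial, Polynomial.map_monomial, aeval_monomial, ← Algebra.smul_def,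
      ← Algebra.smul_def, Str.mapA_smul, map_pow]

theorem root_smax2 {K : Type} [Field K] {b : ℕ} (B : Str K b) (s : B.A) {z : K}
    (h : (B.ch s).IsRoot z) : ∃ w : B.A, w ≠ 0 ∧ s * w = z • w := by
  have h1 : (Algebra.lmul K B.A s : Module.End K B.A).charpoly = B.ch s :=
    (LinearMap.charpoly_toMatrix _ B.bas).symm
  rw [← h1, ← Module.End.hasEigenvalue_iff_isRoot_charpoly] at h
  obtain ⟨w, hw⟩ := h.exists_hasEigenvector
  exact ⟨w, hw.2, hw.apply_eq_smul⟩

theorem dep_smax2 {K : Type} [Field K] {b : ℕ} (B : Str K b) (s : B.A)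
    (h : (B.N s).det = 0) : (minpoly K s).natDegree < b := by
  obtain ⟨v, hv, h1⟩ := Matrix.exists_vecMul_eq_zero_iff.2 h
  let q : K[X] := ∑ j : Fin b, monomial (j : ℕ) (v j)
  have hc : ∀ j : Fin b, q.coeff j = v j := fun j => by
    simp only [q, finsetSum_coeff, coeff_monomial]
    rw [Finset.sum_eq_single j, if_pos rfl]
    · exact fun i _ hi => if_neg fun h2 => hi (Fin.ext h2)
    · simp
  have hq : q ≠ 0 := fun h2 => hv (funext fun j => by rw [← hc j, h2]; simp)
  have hd : q.degree < b :=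
    (degree_sum_le _ _).trans_lt <| (Finset.sup_lt_iff (WithBot.bot_lt_coe b)).2 fun p _ =>
      (degree_monomial_le _ _).trans_lt (Nat.cast_lt.2 p.2)
  have h0 : aeval s q = 0 := by
    ext l
    have h2 := congrFun h1 l
    simp only [q, map_sum, aeval_monomial, ← Algebra.smul_def, Str.sum_apply, Str.smul_apply]
    exact h2
  exact (natDegree_le_of_dvd (minpoly.dvd K s h0) hq).trans_lt
    ((natDegree_lt_iff_degree_lt hq).2 hd)

theorem p_SMAX :
    S_SMAX := by
  intro K _ _ b D s a h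
  have hdet : ((D.map (evalRingHom a)).N (D.mapA (evalRingHom a) s)).det = 0 := by
    rw [Str.N_map, ← h]
    exact ((evalRingHom a).map_det (D.N s)).symm
  have hlt := dep_smax2 _ _ hdet
  set sb := D.mapA (evalRingHom a) s with hsb
  set q := minpoly K sb with hq
  obtain ⟨r, hr⟩ : q ∣ (D.map (evalRingHom a)).ch sb := minpoly.dvd K sb (Str.aeval_ch _ _)
  have hne : q * r ≠ 0 := hr ▸ (Str.ch_monic _ _).ne_zero
  have hr0 : r ≠ 0 := right_ne_zero_of_mul hne
  have hdeg := Str.ch_natDegree (D.map (evalRingHom a)) sb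
  rw [hr, natDegree_mul (left_ne_zero_of_mul hne) hr0] at hdeg
  obtain ⟨z, hz⟩ := IsAlgClosed.exists_root r (by
    rw [degree_eq_natDegree hr0]; exact_mod_cast (show r.natDegree ≠ 0 by omega))
  obtain ⟨w, hw, hsw⟩ := root_smax2 (D.map (evalRingHom a)) sb (z := z) (by
    rw [hr]; exact hz.dvd (dvd_mul_left _ _))
  have hz' : r.eval z = 0 := hz
  have hqz : q.eval z = 0 := by
    have := eig_smax2 hsw q
    rw [hq, minpoly.aeval, zero_mul] at this
    exact (smul_eq_zero.1 this.symm).resolve_right hw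
  have hF : (D.ch s).map (evalRingHom a) = q * r := by rw [← hr, hsb, Str.ch_map]
  have hmm : ∀ p : K[X], (p.map (C : K →+* K[X])).map (evalRingHom a) = p := fun p => by
    ext n; simp
  obtain ⟨G, hG⟩ : C (X - C a : K[X]) ∣ D.ch s - (q * r).map C := by
    rw [C_dvd_iff_dvd_coeff]
    intro n
    rw [dvd_iff_isRoot]
    have : ((D.ch s - (q * r).map C).map (evalRingHom a)).coeff n = 0 := by
      rw [Polynomial.map_sub, hF, hmm, sub_self, coeff_zero]
    rwa [coeff_map] at this
  have hG' : D.ch s = (q * r).map C + C (X - C a : K[X]) * G := by rw [← hG]; ring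
  have ho : ∀ i, (X - C a : K[X]) ∣ (aeval s (q.map (C : K →+* K[X])) : D.A) i := fun i => by
    rw [dvd_iff_isRoot]
    have h1 := mapA_aeval_smax2 D (evalRingHom a) s (q.map C)
    rw [hmm, ← hsb, hq, minpoly.aeval] at h1
    exact congrFun h1 i
  obtain ⟨o, h2⟩ : ∃ o : D.A, aeval s (q.map (C : K →+* K[X])) = (X - C a : K[X]) • o := by
    choose o ho using ho
    exact ⟨o, Str.ext D ho⟩
  have h3 : o * aeval s (r.map (C : K →+* K[X])) + aeval s G = 0 := by
    have h4 := D.aeval_ch s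
    rw [hG', map_add, Polynomial.map_mul, map_mul, map_mul, h2, aeval_C, ← Algebra.smul_def,
      smul_mul_assoc, ← smul_add] at h4
    refine Str.ext D fun l => ?_
    exact (mul_eq_zero.1 (congrFun h4 l)).resolve_left (X_sub_C_ne_zero a)
  have h5 : (G.map (evalRingHom a)).eval z = 0 := by
    have h6 := congrArg (fun y => D.mapA (evalRingHom a) y * w) h3
    simp only [map_add, map_mul, mapA_aeval_smax2, hmm, map_zero, zero_mul, add_mul,
      mul_assoc, ← hsb, eig_smax2 hsw, hz', zero_smul, mul_zero, zero_add] at h6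
    exact (smul_eq_zero.1 h6).resolve_right hw
  refine ⟨z, ?_, ?_, ?_⟩
  · rw [← map_evalRingHom_eval, hF, eval_mul, hz', mul_zero]
  · rw [← map_evalRingHom_eval, ← derivative_map, hF, derivative_mul, eval_add, eval_mul,
      eval_mul, hz', hqz]
    simp
  · rw [map_evalRingHom_eval] at h5
    rw [hG', eval_add, eval_mul, eval_C, eval_map, eval₂_at_apply]
    simpa [derivative_mul] using h5

end Pool.Agent.P.MP_ab0431_ag.UB.V2
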