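import Pool.Agent.P.MP_ab0431_ag.UB2.IfaceB
import Pool.Agent.P.MP_ab0431_ag.UB2.IfaceT

/-! Steps KMA KM1 KM2 INC SL4 HINC HTI HURO AUT HTRD BMAIN CEQS COPEN CMAIN. -/

set_option autoImplicit false
set_option linter.unusedSectionVars false
set_option linter.unusedVariables false

namespace Pool.Agent.P.MP_ab0431_ag.UB.V2

open Polynomial Set Filter Topology

theorem p_KMA (hSMAX : S_SMAX) :
    S_KMA := by
  intro K _ _ b m n w D s x z hM hs hw hN hU hS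
  obtain ⟨Dt, -, -, -, -, hW, -⟩ := t_TUP K b D
  have hWD := (hW m s hs).1
  have hF : toP (co b m (D.ch s)) = D.ch s := toP_co (D.ch_monic s) (D.ch_natDegree s) hWD
  rw [NodE, hF] at hN
  rw [nV, hF] at hU
  rw [SmA, nP, hF] at hS
  obtain ⟨hU1, hU2⟩ := mul_ne_zero_iff.1 (mul_ne_zero_iff.1 hU).1
  have hx : Function.Injective x := Matrix.det_vandermonde_ne_zero_iff.1 hU1
  obtain ⟨g, hg⟩ : nH x ∣ (D.toStr.N s).det :=
    Finset.prod_dvd_of_coprime ((pairwise_coprime_X_sub_C hx).set_pairwise _) fun i _ =>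
      dvd_det_kma D.toStr s (x i) (z i) (hN.2 i).1 (t_NODE K b D.toStr s (x i) (z i) hM (hN.2 i))
  have hH : (nH x).Monic := monic_prod_of_monic _ _ fun i _ => monic_X_sub_C _
  have hHd : (nH x).natDegree = n := by
    rw [nH, natDegree_prod_of_monic _ _ fun i _ => monic_X_sub_C _]
    simp
  have hΔ : Δ b (D.ch s) = nH x ^ 2 * (g * g * (C (D.c : K) * D.P)) := by
    rw [(t_DISC K[X] b).1 D.toStr s, hg, D.hd]; ring
  have hΔd : (Δ b (D.ch s)).natDegree = m * (b * (b - 1)) :=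
    natDegree_eq_of_le_of_coeff_ne_zero (natDegree_le_iff_coeff_eq_zero.2
      (t_TOP K b m _ (D.ch_monic s) (D.ch_natDegree s) hWD).1) hU2
  have h0 : g * g * (C (D.c : K) * D.P) ≠ 0 := fun e => hU2 (by rw [hΔ, e, mul_zero, coeff_zero])
  have hd : (g * g * (C (D.c : K) * D.P)).natDegree = w := by
    rw [hΔ, (hH.pow 2).natDegree_mul' h0, hH.natDegree_pow, hHd] at hΔd
    omega
  rw [hΔ, mul_divByMonic_cancel_left _ (hH.pow 2)] at hS
  have hg0 : g ≠ 0 := fun e => h0 (by rw [e, zero_mul, zero_mul])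
  have hgd : g.degree = 0 := by
    by_contra hne
    obtain ⟨a, ha⟩ := IsAlgClosed.exists_root g hne
    rw [IsRoot] at ha
    obtain ⟨y, hy⟩ := hSMAX K b D.toStr s a (by rw [hg, eval_mul, ha, mul_zero])
    exact hS a y hy (by rw [eval_mul, eval_mul, ha, zero_mul, zero_mul])
  obtain ⟨u, hu, rfl⟩ := Polynomial.isUnit_iff.1 (isUnit_iff_degree_eq_zero.2 hgd)
  refine ⟨?_, u, hu.ne_zero, hg.trans (mul_comm _ _)⟩
  rw [← hd, ← C_mul, natDegree_C_mul (mul_ne_zero hu.ne_zero hu.ne_zero),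
    natDegree_C_mul D.c.ne_zero, D.P_natDegree]

end Pool.Agent.P.MP_ab0431_ag.UB.V2

namespace Pool.Agent.P.MP_ab0431_ag.UB.V2

open Polynomial Set Filter Topology

theorem p_KM1 (hKMA : S_KMA) :
    S_KM1 := by
  intro K _ _ b m n w D s x z hM hs hw hN hU hS
  obtain ⟨-, u, u0, hu⟩ := hKMA K b m n w D s x z hM hs hw hN hU hS
  obtain ⟨_, -, -, -, -, T, -⟩ := t_TUP K b D
  have hF := toP_co (D.ch_monic s) (D.ch_natDegree s) (T m s hs).1
  simp only [nV, hF, mul_ne_zero_iff, Finset.prod_ne_zero_iff] at hU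
  have Hm : (nH x).Monic := monic_prod_X_sub_C _ _
  have Hd : (nH x).natDegree = n := by simp [nH, natDegree_finsetProd_X_sub_C_eq_card]
  let E : (J D.a m → K) →ₗ[K] Fin b → K[X] := .pi fun i =>
    ∑ p : J D.a m, if p.1.1 = i then monomial p.1.2 ∘ₗ .proj p else 0
  have hE : ∀ l, E l = D.el m l := fun l => funext fun i => by
    simp [E, Dat.el, apply_ite fun f : (J D.a m → K) →ₗ[K] K[X] => f l]
  let Y := u⁻¹ • (D.toStr.N s).adjugate.vecMulLinear.restrictScalars K ∘ₗ E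
  have hY : ∀ l, ∑ j, Y l j • s ^ (j : ℕ) = nH x • D.el m l := fun l => by
    ext1 i
    have : Matrix.vecMul (Y l) (D.toStr.N s) = nH x • E l := by
      simp only [Y, LinearMap.comp_apply, LinearMap.smul_apply, LinearMap.restrictScalars_apply,
        Matrix.vecMulLinear_apply, Matrix.smul_vecMul, Matrix.vecMul_vecMul, Matrix.adjugate_mul,
        Matrix.vecMul_smul, Matrix.vecMul_one, hu]
      rw [← smul_assoc, smul_eq_C_mul, ← mul_assoc, ← C_mul, inv_mul_cancel₀ u0, C_1, one_mul]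
    rw [Str.sum_apply, ← hE]
    exact congrFun this i
  have hD : ∀ l (j : Fin b) k, m + n < k + m * j → (Y l j).coeff k = 0 := fun l =>
    (t_LVY K b m _ D s _ hs hU.1.2).1 fun i k c => by
      rw [hY, Str.smul_apply, coeff_mul]
      refine Finset.sum_eq_zero fun p hp => ?_
      replace hp := Finset.HasAntidiagonal.mem_antidiagonal.1 hp
      by_cases e : n < p.1
      · rw [coeff_eq_zero_of_natDegree_lt (Hd.trans_lt e), zero_mul]
      · rw [D.el_deg m l i _ (by omega), mul_zero]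
  let G : (J D.a m → K) →ₗ[K] J (fun j : Fin b => m * j) (m + n) → K :=
    .pi fun p => lcoeff K p.1.2 ∘ₗ .proj p.1.1 ∘ₗ Y
  have inj : Function.Injective G := (injective_iff_map_eq_zero _).2 fun l e => by
    have y0 : ∀ j, Y l j = 0 := fun j => Polynomial.ext fun k => by
      by_cases c : k + m * j ≤ m + n
      · exact congrFun e ⟨(j, ⟨k, by omega⟩), c⟩
      · exact hD l j k (by omega)
    have := hY l
    simp only [y0, zero_smul, Finset.sum_const_zero] at this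
    funext p
    rw [← D.el_coeff m l p, show D.el m l p.1.1 = 0 from
      (mul_eq_zero.1 (congrFun this p.1.1).symm).resolve_left Hm.ne_zero]
    rfl
  rw [← Module.finrank_fintype_fun_eq_card K, ← LinearMap.finrank_range_of_inj inj]
  refine (Submodule.finrank_mono ?_).trans
    (Submodule.finrank_map_le (LinearMap.funLeft K K Sum.inl) _)
  rintro _ ⟨l, rfl⟩
  have k := fun i => node_km1 t_DSEP (D.fib (x i)) (D.toStr.mapA _ s) (fun j => (Y l j).eval (x i))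
    (z := z i) (by
      have := congrArg (D.toStr.mapA (evalRingHom (x i))) (hY l)
      rw [Str.mapA_smul, show evalRingHom (x i) (nH x) = 0 by
        simpa [nH, eval_prod] using Finset.prod_eq_zero (Finset.mem_univ i) (sub_self _),
        zero_smul, map_sum] at this
      simpa only [Str.mapA_smul, map_pow, coe_evalRingHom] using this)
    (by rw [Str.ch_map, map_evalRingHom_eval, ← hF]; exact (hN.2 i).1)
    (by rw [Str.ch_map]; exact hU.2 i (Finset.mem_univ i))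
  choose β hβ using k
  refine ⟨Sum.elim (G l) β, funext fun r => ?_, rfl⟩
  have := hβ r.1 r.2
  rw [Str.ch_map] at this
  rw [Matrix.mulVecLin_apply, Matrix.mulVec, dotProduct, Fintype.sum_sum_type]
  refine (congrArg (· + _) ((ev_km1 (hD l) r.2 (x r.1)).trans this)).trans ?_
  simp [KMat, hF, nq, mul_comm]

end Pool.Agent.P.MP_ab0431_ag.UB.V2

namespace Pool.Agent.P.MP_ab0431_ag.UB.V2

open Polynomial Set Filter Topology

theorem p_KM2 (hKMA : S_KMA) :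
    S_KM2 := by
  intro K _ _ b m n w D s x z hM hs hw hN hU hA
  obtain ⟨-, u, u0, hd⟩ := hKMA K b m n w D s x z hM hs hw hN hU hA
  obtain ⟨Dt, -, -, -, -, h5, -⟩ := t_TUP K b D
  have hF := toP_co (D.ch_monic s) (D.ch_natDegree s) (h5 m s hs).1
  simp only [nV, hF, ne_eq, mul_eq_zero, not_or] at hU
  have hS := hF ▸ hN.2
  let y : Fin b → (J (fun j : Fin b => m * j) (m + n) ⊕ Fin n → K) →ₗ[K] K[X] := fun j =>
    ∑ p, if p.1.1 = j then monomial p.1.2 ∘ₗ LinearMap.proj (Sum.inl p) else 0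
  have hy : ∀ j v, y j v = ∑ p, if p.1.1 = j then monomial p.1.2 (v (Sum.inl p)) else 0 :=
    fun j v => by
      simp only [y, LinearMap.sum_apply]
      exact Finset.sum_congr rfl fun p _ => by split_ifs <;> rfl
  let Φ : (J (fun j : Fin b => m * j) (m + n) ⊕ Fin n → K) →ₗ[K] (J D.a m → K) :=
    LinearMap.pi fun p => lcoeff K (n + p.1.2) ∘ₗ
      ∑ j : Fin b, LinearMap.mulRight K ((s ^ (j : ℕ)) p.1.1) ∘ₗ y j
  rw [← Module.finrank_fintype_fun_eq_card K]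
  refine LinearMap.finrank_le_finrank_of_injective (f := Φ.domRestrict _)
    ((injective_iff_map_eq_zero _).2 fun ⟨v, hv⟩ h0 => Subtype.ext ?_)
  have hY : ∀ k, (∑ j : Fin b, y j v • s ^ (j : ℕ)) k = ∑ j : Fin b, y j v * (s ^ (j : ℕ)) k :=
    fun k => D.sum_apply _ _ k
  have h1 : ∀ p : J D.a m, (∑ j : Fin b, y j v * (s ^ (j : ℕ)) p.1.1).coeff (n + p.1.2) = 0 :=
    fun p => by simpa [Φ, LinearMap.sum_apply] using congrFun h0 p
  have h2 : D.Deg (m + n) (∑ j : Fin b, y j v • s ^ (j : ℕ)) :=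
    (t_LVY K b m (m + n) D s (fun j => y j v) hs hU.1.2).2 fun j l hl => by
      rw [hy, coeff_km2]
      exact Finset.sum_eq_zero fun p _ => if_neg fun h => by
        have := p.2
        rw [h.1, h.2] at this
        exact hl.not_ge this
  have h3 : ∀ i j, (y j v).eval (x i) = v (.inr i) * (nq (D.ch s) (x i) (z i)).coeff j :=
    fun i j => by
      have := congrFun (LinearMap.mem_ker.1 hv) (i, j)
      simp only [Matrix.mulVecLin_apply, Matrix.mulVec, dotProduct, KMat, Matrix.of_apply, hF,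
        Fintype.sum_sum_type, Sum.elim_inl, Sum.elim_inr, ite_mul, zero_mul, Finset.sum_ite_eq',
        Finset.mem_univ, if_true, Pi.zero_apply] at this
      rw [hy, eval_finsetSum, ← sub_eq_zero, ← this, sub_eq_add_neg, neg_mul, mul_comm]
      congr 1
      exact Finset.sum_congr rfl fun p _ => by split_ifs <;> simp [mul_comm]
  have h4 : ∀ k, ∑ j : Fin b, y j v * (s ^ (j : ℕ)) k = 0 := fun k => by
    refine eq_zero_of_degree_lt_of_eval_index_eq_zero Finset.univ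
      (Matrix.det_vandermonde_ne_zero_iff.1 hU.1.1).injOn
      ((degree_lt_iff_coeff_zero _ _).2 fun l hl => ?_) fun i _ => ?_
    · rw [Finset.card_univ, Fintype.card_fin] at hl
      obtain ⟨l, rfl⟩ := Nat.exists_eq_add_of_le hl
      by_cases e : l + D.a k ≤ m
      · exact h1 ⟨(k, ⟨l, by omega⟩), e⟩
      · rw [← hY]; exact h2 k _ (by omega)
    · have := dvd_iff_isRoot.1 (t_NODE K b D.toStr s (x i) (z i) hM (hS i) k)
      rw [IsRoot, aeval_eq_sum_range' (natDegree_map_le.trans_lt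
        (nq_km2 (D.ch_monic s) (D.ch_natDegree s) (hS i).1).2), Finset.sum_range, D.sum_apply] at this
      simp only [Str.smul_apply, coeff_map, eval_finsetSum, eval_mul, eval_C] at this
      simp only [eval_finsetSum, eval_mul, h3, mul_assoc, ← Finset.mul_sum, this, mul_zero]
  have h6 : (fun j => y j v) = 0 := Matrix.eq_zero_of_vecMul_eq_zero (M := D.toStr.N s)
    (hd ▸ mul_ne_zero (C_ne_zero.2 u0) (monic_prod_X_sub_C x _).ne_zero) (funext h4)
  funext r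
  rcases r with p | i
  · have := congrArg (coeff · p.1.2) (congrFun h6 p.1.1)
    simp only [hy, coeff_km2, Pi.zero_apply, coeff_zero] at this
    rwa [Finset.sum_eq_single p (fun q _ h => if_neg fun e =>
      h (Subtype.ext (Prod.ext e.1 (Fin.ext e.2)))) (by simp), if_pos ⟨rfl, rfl⟩] at this
  · obtain ⟨a1, a2⟩ := nq_km2 (D.ch_monic s) (D.ch_natDegree s) (hS i).1
    have := h3 i ⟨_, a2⟩
    rw [congrFun h6, Pi.zero_apply, eval_zero, eq_comm, mul_eq_zero] at this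
    exact this.resolve_right (leadingCoeff_ne_zero.2 a1)

end Pool.Agent.P.MP_ab0431_ag.UB.V2

namespace Pool.Agent.P.MP_ab0431_ag.UB.V2

open Polynomial Set Filter Topology

theorem nV_inc2 {R R' : Type} [CommRing R] [CommRing R'] (φ : R →+* R') {b m n : ℕ}
    (c : Co b m → R) (x z : Fin n → R) : nV (φ ∘ c) (φ ∘ x) (φ ∘ z) = φ (nV c x z) := by
  have h1 : (Matrix.vandermonde (φ ∘ x)).det = φ (Matrix.vandermonde x).det := by
    rw [RingHom.map_det]
    congr 1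
    ext i j
    simp
  simp only [nV, map_mul, map_prod]
  rw [h1, del_nmap, coeff_map]
  congr 1
  exact Finset.prod_congr rfl fun i _ => by
    rw [Function.comp_apply, Function.comp_apply, nq_nmap, Δ_map]

theorem p_INC (hNOD : S_NOD) (hNOPEN : S_NOPEN) (hKMA : S_KMA) (hKM1 : S_KM1) (hKM2 : S_KM2) (hMAXB : S_MAXB) :
    S_INC := by
  intro b m D₀ hsep ha
  obtain ⟨l, hl0⟩ := t_EMB (J D₀.a m) ⊥ Ideal.isPrime_bot
  have hl : AlgebraicIndependent ℂ l := algebraicIndependent_iff.2 fun G hG =>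
    Ideal.mem_bot.1 (hl0 ▸ (van_inc l G).2 hG)
  obtain ⟨c1, hc1⟩ : ∃ c1, c1 = co b m ((D₀.map (algebraMap ℂ Om)).ch
    ((D₀.map (algebraMap ℂ Om)).el m l)) := ⟨_, rfl⟩
  obtain ⟨n, x, z, hw, hN1, hU1, hS1⟩ := hNOD ℂ Om b m D₀ l c1 hsep ha hl hc1
  obtain ⟨ι, _, f, hcard, hf⟩ := t_NEQ ℂ b m n
  obtain ⟨p1, e1, e2, e3⟩ : ∃ p1 : Co b m ⊕ Fin n ⊕ Fin n → Om, p1 ∘ Sum.inl = c1 ∧
    p1 ∘ Sum.inr ∘ Sum.inl = x ∧ p1 ∘ Sum.inr ∘ Sum.inr = z :=
    ⟨Sum.elim c1 (Sum.elim x z), rfl, rfl, rfl⟩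
  subst e1 e2 e3
  have hpr : (MvPolynomial.vanishingIdeal ℂ {p1}).IsPrime := inferInstance
  obtain ⟨q, hq, hqp, hfq, hdim⟩ := t_KR ℂ _ ι f _ hpr fun i =>
    (van_inc p1 _).2 ((hf Om p1).2 hN1 i)
  obtain ⟨p2, rfl⟩ := t_EMB _ q hq
  have hN2 := (hf Om p2).1 fun i => (van_inc p2 _).1 (hfq i)
  have hker : ∀ r, MvPolynomial.aeval p2 r = 0 → MvPolynomial.aeval p1 r = 0 := fun r hr =>
    (van_inc p1 r).1 (hqp ((van_inc p2 r).2 hr))
  have e : ∀ p : Co b m ⊕ Fin n ⊕ Fin n → Om,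
      (MvPolynomial.aeval (R := ℂ) p).toRingHom ∘ MvPolynomial.X = p :=
    fun p => funext fun i => MvPolynomial.aeval_X p i
  have huniv : ∀ p : Co b m ⊕ Fin n ⊕ Fin n → Om, _ := fun p => by
    have h := And.intro (nV_inc2 (MvPolynomial.aeval (R := ℂ) p).toRingHom
      (MvPolynomial.X ∘ Sum.inl) (MvPolynomial.X ∘ Sum.inr ∘ Sum.inl)
      (MvPolynomial.X ∘ Sum.inr ∘ Sum.inr)) (t_NMAP (MvPolynomial (Co b m ⊕ Fin n ⊕ Fin n) ℂ) Om
      (MvPolynomial.aeval (R := ℂ) p).toRingHom b m n 0 (MvPolynomial.X ∘ Sum.inl)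
      (MvPolynomial.X ∘ Sum.inr ∘ Sum.inl) (MvPolynomial.X ∘ Sum.inr ∘ Sum.inr)).2
    rw [← Function.comp_assoc, ← Function.comp_assoc _ MvPolynomial.X,
      ← Function.comp_assoc _ MvPolynomial.X, e] at h
    exact h
  have hU2 : nV (p2 ∘ Sum.inl) (p2 ∘ Sum.inr ∘ Sum.inl) (p2 ∘ Sum.inr ∘ Sum.inr) ≠ 0 :=
    fun h => hU1 ((huniv p1).1.trans (hker _ ((huniv p2).1.symm.trans h)))
  have hS2 := hNOPEN _ Om (MvPolynomial.aeval (R := ℂ) p2).toRingHom
    (MvPolynomial.aeval (R := ℂ) p1).toRingHom b m n (MvPolynomial.X ∘ Sum.inl)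
    (MvPolynomial.X ∘ Sum.inr ∘ Sum.inl) hker
  simp only [← Function.comp_assoc _ MvPolynomial.X, e] at hS2
  replace hS2 := hS2 hN2.1 (right_ne_zero_of_mul (left_ne_zero_of_mul hU1)) (by omega) hS1
  have hrk := t_RK _ Om Om _ _ (MvPolynomial.aeval (R := ℂ) p2).toRingHom
    (MvPolynomial.aeval (R := ℂ) p1).toRingHom (KMat (b := b) (m := m)
      (MvPolynomial.X ∘ Sum.inl) (MvPolynomial.X ∘ Sum.inr ∘ Sum.inl)
      (MvPolynomial.X ∘ Sum.inr ∘ Sum.inr)) hker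
  rw [← (huniv p1).2, ← (huniv p2).2] at hrk
  have hΔ : (Δ b (toP (p2 ∘ Sum.inl))).coeff (m * (b * (b - 1))) ≠ 0 :=
    right_ne_zero_of_mul (left_ne_zero_of_mul hU2)
  obtain ⟨D, s, hmax, hdeg, hch, -⟩ := t_NORM Om b m _ (toP_monic (p2 ∘ Sum.inl))
    (toP_natDegree _) hN2.1 ((t_DSEP Om b _ (top_inc _).1 (top_inc _).2).1
      ((t_TOP Om b m _ (toP_monic _) (toP_natDegree _) hN2.1).2 ▸ hΔ))
  have hco : co b m (D.ch s) = p2 ∘ Sum.inl := by rw [hch, co_toP]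
  obtain ⟨k2, -⟩ := hKMA Om b m n D₀.w D s _ _ hmax hdeg hw (hco ▸ hN2) (hco ▸ hU2) (hco ▸ hS2)
  have k3 := hKM1 Om b m n D₀.w D s _ _ hmax hdeg hw (hco ▸ hN2) (hco ▸ hU2) (hco ▸ hS2)
  have k4 := hKM2 Om b m n D₀.w (D₀.map (algebraMap ℂ Om)) _ _ _ (hMAXB ℂ Om _ b _ hsep)
    (Dat.el_deg _ m l) hw (hc1 ▸ hN1) (hc1 ▸ hU1) (hc1 ▸ hS1)
  rw [hco] at k3
  rw [← hc1] at k4
  have k5 : Fintype.card (J D.a m) ≤ Fintype.card (J D₀.a m) := k3.trans (hrk.trans k4)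
  have j0 := (t_JC b m D₀.a).2.2 fun i => by have := ha i; omega
  have j1 := (t_JC b m D.a).1
  have w0 : D₀.w = 2 * ∑ i, D₀.a i := rfl
  have w1 : D.w = 2 * ∑ i, D.a i := rfl
  refine ⟨D, p2 ∘ Sum.inl, k2, hmax, (t_JC b m D.a).2.1 (by omega), ⟨s, hdeg, hco.symm⟩, ?_, ?_⟩
  · have hne : Δ b (toP (p2 ∘ Sum.inl)) ≠ 0 := fun h => hΔ (by rw [h, coeff_zero])
    have h1 := t_TDA ℂ Om _ _ p2 fun j => by
      cases j with
      | inl i => exact (t_NALG ℂ Om b m _ _ _ hne (hN2.2 i)).1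
      | inr i => exact (t_NALG ℂ Om b m _ _ _ hne (hN2.2 i)).2
    have h2 := arith_inc b m
    have h3 : b * (m + 1) = b * m + b := rfl
    rw [Fintype.card_sum, Fintype.card_sum, Fintype.card_fin] at hdim
    omega
  · rintro _ ⟨o, ho, rfl⟩ G hG
    have h1 := hker (MvPolynomial.rename Sum.inl G)
      (by rw [MvPolynomial.aeval_rename]; exact (van_inc _ G).1 hG)
    have h2 := (t_PHI Om b m (D₀.map (algebraMap ℂ Om)) (G.map (algebraMap ℂ Om))).1 l
    rw [(t_PHI ℂ b m D₀ G).2.1, ← hc1, MvPolynomial.eval_map, ← MvPolynomial.aeval_def,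
      ← MvPolynomial.aeval_rename, h1] at h2
    have h3 : MvPolynomial.aeval l (D₀.Phi m G) = 0 :=
      (MvPolynomial.eval_map (algebraMap ℂ Om) l (D₀.Phi m G)).symm.trans h2
    rw [ho.eq_el, MvPolynomial.aeval_eq_eval, ← (t_PHI ℂ b m D₀ G).1,
      algebraicIndependent_iff.1 hl _ h3, map_zero]

end Pool.Agent.P.MP_ab0431_ag.UB.V2

namespace Pool.Agent.P.MP_ab0431_ag.UB.V2

open Polynomial Set Filter Topology

theorem code_sl42 (Z : Finset ℂ) (R : Rays Z) (d : ℕ) (E : Type) [TopologicalSpace E]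
    (p : E → ℂ) (hp : IsCoveringMapOn p (Z : Set ℂ)ᶜ)
    (hd : ∀ x ∉ Z, (p ⁻¹' {x}).encard = d) : ∃ σ : ℂ → Equiv.Perm (Fin d), R.Code p σ := by
  have uni : ∀ (S O O' : Set ℂ) (g g' : ℂ → E) (a : ℂ), IsPreconnected S → S ⊆ O → S ⊆ O' →
      O ⊆ (Z : Set ℂ)ᶜ → ContinuousOn g O → ContinuousOn g' O' → (∀ x ∈ O, p (g x) = x) →
      (∀ x ∈ O', p (g' x) = x) → a ∈ S → g a = g' a → EqOn g g' S :=
    fun S O O' g g' a c u u' w t t' e e' =>
      t_TUNI E ℂ ℂ p _ S g g' a hp c (t.mono u) (t'.mono u') fun x hx => by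
        rw [e x (u hx), e' x (u' hx)]
        exact ⟨w (u hx), rfl⟩
  obtain ⟨u, hu⟩ := R.scU.nonempty
  have h1 := hd u (R.UZ hu)
  have := (finite_of_encard_eq_coe h1).to_subtype
  let a := (Finite.equivFinOfCardEq (α := p ⁻¹' {u}) (n := d) (by
    rw [Nat.card_coe_set_eq, ncard, h1, ENat.toNat_natCast])).symm
  obtain ⟨s, hs, -⟩ := t_SECS E ℂ (Fin d) p R.U u (fun l => a l) (hp.mono R.UZ) R.oU R.scU hu
    (fun l => (a l).2) (Subtype.val_injective.comp a.injective)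
    fun e he => ⟨a.symm ⟨e, he⟩, by simp⟩
  have key : ∀ z ∈ Z, ∃ (σ : Equiv.Perm (Fin d)) (τ : Fin d → ℂ → E), Secs p (R.V z) τ ∧
      ∀ l, EqOn (τ l) (s l) (R.Vp z) ∧ EqOn (τ l) (s (σ l)) (R.Vm z) := fun z hz => by
    have vp : R.Vp z ⊆ R.V z ∩ R.U := R.VU z hz ▸ subset_union_left
    have vm : R.Vm z ⊆ R.V z ∩ R.U := R.VU z hz ▸ subset_union_right
    obtain ⟨A, A', -, -, -, -, ⟨y, -, yc⟩, x, -, xc⟩ := R.near z hz 1 one_pos
    obtain ⟨b1, b2, b3⟩ := hs.2 y (vp yc).2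
    obtain ⟨τ, ht, e⟩ := t_SECS E ℂ (Fin d) p (R.V z) y (fun l => s l y) (hp.mono (R.VZ z hz))
      (R.oV z hz) (R.scV z hz) (vp yc).1 b1 b2 b3
    choose f hf using fun l => (hs.2 x (vm xc).2).2.2 (τ l x) ((ht.2 x (vm xc).1).1 l)
    have fi : Function.Injective f := fun l l' e => (ht.2 x (vm xc).1).2.1 (by
      simp only [← hf, e])
    refine ⟨Equiv.ofBijective f (Finite.injective_iff_bijective.1 fi), τ, ht, fun l => ⟨?_, ?_⟩⟩
    · exact uni _ _ _ _ _ y (R.cp z hz) (vp.trans inter_subset_left) (vp.trans inter_subset_right)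
        (R.VZ z hz) (ht.1 l) (hs.1 l) (fun x h => (ht.2 x h).1 l) (fun x h => (hs.2 x h).1 l) yc (e l)
    · exact uni _ _ _ _ _ x (R.cm z hz) (vm.trans inter_subset_left) (vm.trans inter_subset_right)
        (R.VZ z hz) (ht.1 l) (hs.1 _) (fun x h => (ht.2 x h).1 l) (fun x h => (hs.2 x h).1 _) xc
        (hf l).symm
  choose σ τ h2 using key
  classical
  refine ⟨fun z => if h : z ∈ Z then σ z h else 1,
    s, fun z => if h : z ∈ Z then τ z h else s, hs, fun z hz => ?_⟩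
  simpa only [dif_pos hz] using h2 z hz

theorem p_SL4 :
    S_SL4 := by
  intro Z d n E _ p hn hc hd
  obtain ⟨R⟩ := t_RAYS Z
  choose σ hσ using fun i => code_sl42 Z R d (E i) (p i) (hc i) (hd i)
  classical
  obtain ⟨i, j, hij, he⟩ := Fintype.exists_ne_map_eq_of_card_lt (fun i (z : Z) => σ i z)
    (by simpa [Fintype.card_perm] using hn)
  have key : ∀ i j, ((fun z : Z => σ i z) = fun z : Z => σ j z) → Nonempty (E i → E j) →
      ∃ f, TI (p i) (p j) (Z : Set ℂ)ᶜ f :=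
    fun i j he => t_SL2 Z R d (E i) (E j) (p i) (p j) (σ i) (σ j) (hc i) (hσ i) (hσ j)
      fun z hz => congrFun he ⟨z, hz⟩
  rcases isEmpty_or_nonempty (E j) with h | ⟨⟨x⟩⟩
  · exact ⟨j, i, hij.symm, key j i he.symm ⟨isEmptyElim⟩⟩
  · exact ⟨i, j, hij, key i j he ⟨fun _ => x⟩⟩

end Pool.Agent.P.MP_ab0431_ag.UB.V2

namespace Pool.Agent.P.MP_ab0431_ag.UB.V2

open Polynomial Set Filter Topology

theorem p_HINC :
    S_HINC := by
  intro b m D D' Z F hP hZ h c hc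
  obtain ⟨o', ho', hc⟩ := hc
  have key : ∃ o : D.A, D.ch o = D'.ch o' := by
    refine t_PINT b D Z (D'.ch o') (fun x χ => ∑ i, (o' i).eval x * F x χ i)
      hP hZ fun x₀ hx => ?_
    obtain ⟨χ, χ', h1, h2, h3⟩ := h x₀ hx
    refine ⟨χ, fun j => ⟨h1.1 j, ?_⟩, ?_⟩
    · have : AnalyticAt ℂ (fun x => ∑ i, (o' i).eval x * χ' j x i) x₀ :=
        Finset.analyticAt_fun_sum _ fun i _ => ((o' i).differentiable.analyticAt x₀).mul
          (analyticAt_pi_iff.1 (h2.1 j) i)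
      refine this.congr ?_
      filter_upwards [h3] with x hx'
      rw [hx' j]
    · filter_upwards [h1.2, h2.2, h3] with x a1 a2 a3
      refine ⟨a1.1, a1.2, (D'.toStr.ch_map (evalRingHom x) o').symm.trans
        (((t_CHP ℂ b (D'.fib x) (fun j => χ' j x) a2.1).2.1 a2.2.isUnit _).1.trans ?_)⟩
      refine Finset.prod_congr rfl fun j _ => ?_
      rw [a3 j]
      simp only [Str.mapA_apply, coe_evalRingHom]
  obtain ⟨o, ho⟩ := key
  obtain ⟨Dt, -, -, -, -, h5, -⟩ := t_TUP ℂ b D'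
  refine ⟨o, t_LV ℂ b m D o ?_, ?_⟩
  · rw [ho]; exact (h5 m o' ho').1
  · rw [ho]; exact hc

end Pool.Agent.P.MP_ab0431_ag.UB.V2

namespace Pool.Agent.P.MP_ab0431_ag.UB.V2

open Polynomial Set Filter Topology

theorem p_HTI (hHINC : S_HINC) :
    S_HTI := by
  intro b m D D' Z f hP hP' hZ hne hf
  classical
  have loc := fun x₀ (hx : x₀ ∉ Z) =>
    t_HLOC b D D' Zᶜ f x₀ hZ.isClosed.isOpen_compl hf hx (hne x₀ hx).1 (hne x₀ hx).2
  apply Subset.antisymm
  · refine hHINC b m D' D Z (fun x χ' =>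
      if h : ∃ e : D.E, e.1.1 = x ∧ (f e).1 = (x, χ') then h.choose.1.2 else 0) hP' hZ
      fun x₀ hx => ?_
    obtain ⟨χ, χ', s, s', h⟩ := loc x₀ hx
    refine ⟨χ', χ, s', s, ?_⟩
    filter_upwards [h, s.2, hZ.isClosed.isOpen_compl.mem_nhds hx] with x h1 h2 h3 j
    have ex : ∃ e : D.E, e.1.1 = x ∧ (f e).1 = (x, χ' j x) :=
      ⟨⟨(x, χ j x), h2.1 j⟩, rfl, h1 j _ rfl⟩
    have h4 : ex.choose ∈ D.pr ⁻¹' Zᶜ := by
      change ex.choose.1.1 ∈ Zᶜ
      rw [ex.choose_spec.1]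
      exact h3
    have h5 : ex.choose = ⟨(x, χ j x), h2.1 j⟩ :=
      hf.2.2.injOn h4 h3 (Subtype.ext (ex.choose_spec.2.trans (h1 j _ rfl).symm))
    rw [dif_pos ex, h5]
  · refine hHINC b m D D' Z (fun x χ =>
      if h : (D.fib x).IsPt χ then (f ⟨(x, χ), h⟩).1.2 else 0) hP hZ fun x₀ hx => ?_
    obtain ⟨χ, χ', s, s', h⟩ := loc x₀ hx
    refine ⟨χ, χ', s, s', ?_⟩
    filter_upwards [h, s.2] with x h1 h2 j
    rw [dif_pos (h2.1 j), h1 j _ rfl]

end Pool.Agent.P.MP_ab0431_ag.UB.V2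

namespace Pool.Agent.P.MP_ab0431_ag.UB.V2

open Polynomial Set Filter Topology

theorem fin_huro2 (hSL4 : S_SL4) (hHTI : S_HTI) (b m : ℕ) (P : ℂ[X]) :
    {T | ∃ D : Dat ℂ b, D.P = P ∧ D.toStr.Max ∧ T = D.Tset m}.Finite := by
  classical
  by_contra h
  have hi : {T | ∃ D : Dat ℂ b, D.P = P ∧ D.toStr.Max ∧ T = D.Tset m}.Infinite := h
  obtain ⟨T₀, D₀, d₀, -⟩ := hi.nonempty
  have hP : P ≠ 0 := d₀ ▸ D₀.P_monic.ne_zero
  obtain ⟨t, t1, e⟩ := hi.exists_subset_card_eq (b.factorial ^ P.roots.toFinset.card + 1)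
  choose D d1 d2 d3 using fun i : Fin t.card => t1 (t.equivFin.symm i).2
  have hz : ∀ i, ∀ x ∉ P.roots.toFinset, (D i).P.eval x ≠ 0 := fun i x hx k =>
    hx (Multiset.mem_toFinset.2 ((mem_roots hP).2 (d1 i ▸ k)))
  obtain ⟨i, j, hij, f, hT⟩ := hSL4 P.roots.toFinset b _ (fun i => (D i).E) (fun i => (D i).pr)
    (by rw [e]; omega)
    (fun i x hx => (t_HCOV b _ x (hz i x hx)).1) (fun i x hx => (t_HCOV b _ x (hz i x hx)).2)
  exact hij (t.equivFin.symm.injective (Subtype.ext ((d3 i).trans ((hHTI b m _ _ _ f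
    (d2 i) (d2 j) (Finset.finite_toSet _) (fun x hx => ⟨hz i x hx, hz j x hx⟩) hT).trans
      (d3 j).symm))))

theorem p_HURO (hSL4 : S_SL4) (hHTI : S_HTI) (hMAXB : S_MAXB) :
    S_HURO := by
  intro b m P
  obtain ⟨e⟩ := iso_huro
  refine Set.Finite.of_injOn (f := fun T => (fun c => e ∘ c) '' T) ?_ ?_
    (fin_huro2 hSL4 hHTI b m (P.map (e : Om →+* ℂ)))
  · rintro _ ⟨D, hD, hM, rfl⟩
    exact ⟨D.map (e : Om →+* ℂ), by rw [← hD]; rfl, hMAXB _ _ _ b D hM,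
      (tset_huro e D m).symm⟩
  · intro T _ T' _ hT
    exact (Set.image_injective.2 (e.injective.comp_left)) hT

end Pool.Agent.P.MP_ab0431_ag.UB.V2

namespace Pool.Agent.P.MP_ab0431_ag.UB.V2

open Polynomial Set Filter Topology

/-- translation of the variables -/
noncomputable def shift_aut2 {k σ : Type} [Field k] (a : σ → k) :
    MvPolynomial σ k ≃ₐ[k] MvPolynomial σ k :=
  AlgEquiv.ofAlgHom (MvPolynomial.aeval fun v => MvPolynomial.X v + MvPolynomial.C (a v))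
    (MvPolynomial.aeval fun v => MvPolynomial.X v - MvPolynomial.C (a v))
    (MvPolynomial.algHom_ext fun v => by simp) (MvPolynomial.algHom_ext fun v => by simp)

theorem shift_X_aut2 {k σ : Type} [Field k] (a : σ → k) (v : σ) :
    shift_aut2 a (MvPolynomial.X v) = MvPolynomial.X v + MvPolynomial.C (a v) := by
  simp [shift_aut2]

theorem basis_aut2 {k K σ : Type} [Field k] [Field K] [IsAlgClosed K] [Algebra k K] (x : σ → K)
    (hx : IsTranscendenceBasis k x) (a : σ → k) :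
    ∃ f : K →ₐ[k] K, ∀ i, f (x i) = x i + algebraMap k K (a i) := by
  have := IsAlgClosed.isAlgClosure_of_transcendence_basis x hx
  let e : Algebra.adjoin k (range x) ≃ₐ[k] Algebra.adjoin k (range x) :=
    (hx.1.aevalEquiv.symm.trans (shift_aut2 a)).trans hx.1.aevalEquiv
  let f := IsAlgClosure.equivOfEquiv K K e.toRingEquiv
  have hf : ∀ p, f (MvPolynomial.aeval x p) = MvPolynomial.aeval x (shift_aut2 a p) := fun p => by
    have h := IsAlgClosure.equivOfEquiv_algebraMap K K e.toRingEquiv (hx.1.aevalEquiv p)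
    rw [hx.1.algebraMap_aevalEquiv] at h
    refine h.trans ?_
    rw [← hx.1.algebraMap_aevalEquiv]
    congr 1
    simp [e]
  refine ⟨{ f.toRingHom with commutes' := fun c => ?_ }, fun i => ?_⟩
  · have h := hf (algebraMap k _ c)
    rw [AlgEquiv.commutes, AlgHom.commutes] at h
    exact h
  · have h := hf (MvPolynomial.X i)
    rw [shift_X_aut2, map_add, MvPolynomial.aeval_X, MvPolynomial.aeval_C] at h
    exact h

theorem p_AUT :
    S_AUT := by
  intro k K ι _ _ _ _ u a hu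
  obtain ⟨t, ht, hb⟩ := exists_isTranscendenceBasis_superset (R := k) (s := range u)
    hu.to_subtype_range
  obtain ⟨f, hf⟩ := basis_aut2 _ hb fun v => Function.extend u a 0 (v : K)
  refine ⟨f, fun i => ?_⟩
  have h := hf ⟨u i, ht (mem_range_self i)⟩
  rw [hu.injective.extend_apply] at h
  exact h

end Pool.Agent.P.MP_ab0431_ag.UB.V2

namespace Pool.Agent.P.MP_ab0431_ag.UB.V2

open Polynomial Set Filter Topology

theorem p_HTRD (hHURO : S_HURO) (hAUT : S_AUT) (hMAXB : S_MAXB) :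
    S_HTRD := by
  intro k _ _ _ b m n D P c f hP hS hc hn hi
  classical
  have hf := hHURO b m D.P
  have h1 : ∀ T : Set (Co b m → Om), ∃ H : MvPolynomial (Fin n) Om, H ≠ 0 ∧ ∀ D' : Dat Om b,
      D'.a = D.a → T = D'.Tset m → ∀ c' ∈ T, MvPolynomial.eval (c' ∘ f) H = 0 := fun T => by
    by_cases h : ∃ D' : Dat Om b, D'.a = D.a ∧ T = D'.Tset m
    · obtain ⟨D', h2, rfl⟩ := h
      obtain ⟨H, h3, h4⟩ := dep_htrd (K := Om) t_PHI D' f (h2 ▸ hn)
      exact ⟨H, h3, fun _ _ _ c' hc' => h4 _ (D'.Tset_map (algebraMap Om Om) hc')⟩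
    · exact ⟨1, one_ne_zero, fun D' h2 h3 => absurd ⟨D', h2, h3⟩ h⟩
  choose H h2 h3 using h1
  refine Finset.prod_ne_zero_iff.2 (fun T (_ : T ∈ hf.toFinset) => h2 T) ?_
  refine MvPolynomial.funext_set (fun i => range fun a : k => c (f i) + algebraMap k Om a)
    (fun i => infinite_range_of_injective fun a a' e =>
      (algebraMap k Om).injective (add_left_cancel e)) fun x hx => ?_
  choose a ha using fun i => hx i trivial
  obtain ⟨σ, hσ⟩ := hAUT k Om (Fin n) (c ∘ f) a hi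
  have hx' : x = ((σ : Om →+* Om) ∘ c) ∘ f := funext fun i => ((hσ i).trans (ha i)).symm
  have hP' : (D.map (σ : Om →+* Om)).P = D.P := by
    change D.P.map _ = _
    rw [hP, Polynomial.map_map, AlgHom.comp_algebraMap]
  rw [map_zero, map_prod, hx']
  exact Finset.prod_eq_zero (i := (D.map (σ : Om →+* Om)).Tset m)
    (hf.mem_toFinset.2 ⟨_, hP', hMAXB Om Om _ b D hS, rfl⟩)
    (h3 _ (D.map (σ : Om →+* Om)) rfl rfl _ (D.Tset_map _ hc))

end Pool.Agent.P.MP_ab0431_ag.UB.V2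

namespace Pool.Agent.P.MP_ab0431_ag.UB.V2

open Polynomial Set Filter Topology

theorem tr_bmain2 (hHTRD : S_HTRD) (b m : ℕ) (D : Dat Om b) (c : Co b m → Om) (t : Fin D.w → Om)
    (hsep : D.toStr.Max) (ha : ∀ i, D.a i ≤ m + 1) (hP : D.P = ∏ j, (X - C (t j)))
    (hc : c ∈ D.Tset m)
    (hdm : D.w + (b * (m + 1) - D.w / 2) ≤ dm (MvPolynomial.vanishingIdeal ℂ {c})) :
    AlgebraicIndependent ℂ t := by
  by_contra hind
  obtain ⟨L, f, hL, ht, hf⟩ := t_HTRK ℂ Om (Co b m) c D.w _ t hind hdm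
  have hcard := (t_JC b m D.a).2.2 ha
  have hw : D.w / 2 = ∑ i, D.a i := by rw [Dat.w]; omega
  refine hHTRD L b m _ D (∏ j, (X - C (⟨t j, ht j⟩ : L))) c f ?_ hsep hc (by omega) hf
  rw [hP, Polynomial.map_prod]
  simp

theorem p_BMAIN (hINC : S_INC) (hHTRD : S_HTRD) :
    S_BMAIN := by
  intro b w m
  refine ⟨MvPolynomial.vanishingIdeal ℂ (GenT b w m), w + (b * (m + 1) - w / 2), by omega,
    t_HFB b w m, ?_⟩
  rintro c ⟨D₀, rfl, h1, h2, h3⟩
  obtain ⟨D, c', e, a1, a2, a3, a4, a5⟩ := hINC b m D₀ h1 h2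
  rw [← e] at a4 ⊢
  obtain ⟨t, ht⟩ := roots_bmain D.w D.P D.P_monic D.P_natDegree
  refine ⟨MvPolynomial.vanishingIdeal ℂ {c'}, inferInstance,
    MvPolynomial.vanishingIdeal_anti_mono (singleton_subset_iff.2 ?_), a4, a5 c h3⟩
  exact ⟨D, t, a2, tr_bmain2 hHTRD b m D c' t a1 a2 ht a3 a4, ht, a3⟩

end Pool.Agent.P.MP_ab0431_ag.UB.V2

namespace Pool.Agent.P.MP_ab0431_ag.UB.V2

open Polynomial Set Filter Topology
open Pool.Agent.P.MP_ab0431_ag.UB.Cc

theorem p_CEQS :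
    S_CEQS := by
  have hCMIN := t_CMIN
  have hCNRL := t_CNRL
  have hCDEG := t_CDEG
  intro b m nn hn
  have key : ∀ c : Co b m → ℂ, Δ b (toP c) ≠ 0 →
      ((∃ w, Cc.ev c (Mu b m (nn + 1) w) ≠ 0) ↔ nn + 1 ≤ nr c) := fun c hc => by
    simp only [Mu_ev]
    exact (hCMIN _ _ _ (fam_deg' _ c)).trans (hCNRL _ _ hc)
  refine ⟨{f | ∃ j n, 1 * (b - j) < n ∧ f = ((Fu b m).coeff j).coeff n} ∪ range (Mu b m (nn + 1)),
    ?_, ?_, fun c h => ⟨fun j n hj => ?_, fun hc => ?_⟩⟩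
  · rintro f (⟨j, n, -, rfl⟩ | ⟨w, rfl⟩)
    · exact ((hCDEG b m).1 j n).trans (Nat.one_le_iff_ne_zero.2 (by positivity))
    · refine ((hCDEG b m).2.2 _ w).trans ?_
      have h1 : nn + 1 ≤ (b + 1) ^ 2 := by
        have := Nat.mul_le_mul_left b (Nat.sub_le b 1)
        nlinarith
      have h2 := Nat.mul_le_mul h1 (Nat.pow_le_pow_left (Nat.le_succ b) 2)
      calc 2 * (nn + 1) * (2 * b ^ 2) = 4 * ((nn + 1) * b ^ 2) := by ring
        _ ≤ 64 * ((b + 1) ^ 2 * (b + 1) ^ 2) := Nat.mul_le_mul (by norm_num) h2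
        _ = _ := by ring
  · rintro c hc e f (⟨j, n, hj, rfl⟩ | ⟨w, rfl⟩)
    · rw [ceqs_ev]; exact hc.1 j n hj
    · by_contra h
      have := (key c fun h0 => hc.2 (by rw [h0, coeff_zero])).1 ⟨w, h⟩
      omega
  · rw [← ceqs_ev]; exact h _ (Or.inl ⟨j, n, hj, rfl⟩)
  · by_contra h1
    obtain ⟨w, hw⟩ := (key c hc).2 (by omega)
    exact hw (h _ (Or.inr ⟨w, rfl⟩))

end Pool.Agent.P.MP_ab0431_ag.UB.V2

namespace Pool.Agent.P.MP_ab0431_ag.UB.V2

open Polynomial Set Filter Topology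

open Pool.Agent.P.MP_ab0431_ag.UB.Cc in
theorem p_COPEN :
    S_COPEN := by
  intro b m c₀ h0
  have ne : ∀ c : Co b m → ℂ, Good c → Δ b (toP c) ≠ 0 := fun c h e => h.2 (by rw [e, coeff_zero])
  have he : ∀ c : Co b m → ℂ, Cc.ev c ((Du b m).coeff (b * (b - 1))) =
      (Δ b (toP c)).coeff (b * (b - 1)) := fun c => by rw [← coeff_map, Du_map]
  obtain ⟨w, hw⟩ := (t_CMIN _ _ _ (fam_deg' (nr c₀) c₀)).2 ((t_CNRL _ _ (ne _ h0)).2 le_rfl)
  refine ⟨(Du b m).coeff (b * (b - 1)) * Mu b m (nr c₀) w, by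
    rw [map_mul, Mu_ev, he]; exact mul_ne_zero h0.2 hw, fun c hc e => ?_⟩
  rw [map_mul, Mu_ev, mul_ne_zero_iff, he] at e
  have g : Good c := ⟨hc, e.1⟩
  exact ⟨g, (t_CNRL _ _ (ne _ g)).1 ((t_CMIN _ _ _ (fam_deg' (nr c₀) c)).1 ⟨w, e.2⟩)⟩

end Pool.Agent.P.MP_ab0431_ag.UB.V2

namespace Pool.Agent.P.MP_ab0431_ag.UB.V2

open Polynomial Set Filter Topology

theorem p_CMAIN (hCEQS : S_CEQS) (hCOPEN : S_COPEN) :
    S_CMAIN := by
  intro b m n Γ nn N I ι _ c hI hp hg hc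
  classical
  have hb : ∀ i, nn ≤ b * (b - 1) := fun i => by
    rw [← (hg i).2]
    refine (Multiset.toFinset_card_le _).trans ((card_roots' _).trans ?_)
    have := (t_TOP ℂ b 1 _ (toP_monic (c i)) (toP_natDegree _) (hg i).1.1).1
    rw [one_mul] at this
    exact natDegree_le_iff_coeff_eq_zero.2 this
  obtain ⟨i₁⟩ := Fintype.card_pos_iff.1 (Nat.zero_lt_of_lt hc)
  obtain ⟨E, e1, e2, e3⟩ := hCEQS b m nn (hb i₁)
  obtain ⟨κ, _, q, ρ, h1, h2, h3⟩ := t_CBEZ _ E I _ n Γ (Nat.succ_le_of_lt (by positivity)) e1 hI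
  choose k hk using fun i => h3 (c i) (hp i) (e2 _ (hg i).1 (hg i).2)
  obtain ⟨j, hj⟩ : ∃ j, ρ j * N < Fintype.card {i // k i = j} := by
    by_contra! h
    refine hc.not_ge ?_
    rw [← Fintype.card_congr (Equiv.sigmaFiberEquiv k), Fintype.card_sigma]
    refine (Finset.sum_le_sum fun j _ => h j).trans ?_
    rw [← Finset.sum_mul, mul_right_comm 64 n]
    exact Nat.mul_le_mul_right _ h1
  obtain ⟨i₀⟩ := Fintype.card_pos_iff.1 (Nat.zero_lt_of_lt hj)
  obtain ⟨h, g1, g2⟩ := hCOPEN b m _ (hg i₀).1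
  have hv : ∀ i : {i // k i = j}, c i ∈ Cc.V (q j) := fun i => by
    have := hk i
    rwa [i.2] at this
  have hq : h ∉ q j := fun hh => g1 (hv i₀ h hh)
  have hcc := t_CCURV _ (q j) (ρ j) N h _ (fun i : {i // k i = j} => c i.1) (h2 j).1 hq hv hj
  obtain ⟨f, U, s, f1, f2, f3, f4, f5, f6⟩ := hcc
  refine ⟨fun l => f l, U, s, Subtype.val_injective.comp f1,
    ⟨f2, fun x a a' => f3 x ⟨a, a'⟩, f4, fun w hw => ?_⟩, f5⟩
  by_cases hw' : ∃ l : Fin (N + 1), w = l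
  · obtain ⟨l, rfl⟩ := hw'
    rw [f5]
    exact hg _
  obtain ⟨a1, a2⟩ := f6 w hw fun l hl => hw' ⟨l, hl⟩
  obtain ⟨a3, a4⟩ := e3 _ fun p hp => a1 p ((h2 j).2 p hp)
  obtain ⟨a5, a6⟩ := g2 _ a3 a2
  exact ⟨a5, (a4 fun h0 => a5.2 (by rw [h0, coeff_zero])).antisymm ((hg i₀).2 ▸ a6)⟩

end Pool.Agent.P.MP_ab0431_ag.UB.V2
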