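import Pool.Agent.P.MP_ab0431_ag.UB2.IfaceD2

/-! Steps HCA MUL TRN3 TRANS PU1 PERM PU2 PUISP LIP MCS. -/

set_option autoImplicit false
set_option linter.unusedSectionVars false
set_option linter.unusedVariables false

namespace Pool.Agent.P.MP_ab0431_ag.UB.V2

open Polynomial Set Filter Topology
open scoped Manifold ContDiff

theorem ev_hca2 (p : ℂ[X]) (u : C2) : AnalyticAt ℂ (fun u : C2 => p.eval (u 0)) u := by
  have h0 : AnalyticAt ℂ (fun u : C2 => u 0) u :=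
    (ContinuousLinearMap.proj (R := ℂ) (φ := fun _ : Fin 2 => ℂ) 0).analyticAt u
  induction p using Polynomial.induction_on' with
  | add p q hp hq => simpa only [eval_add] using hp.fun_add hq
  | monomial n a => simpa only [eval_monomial] using analyticAt_const.fun_mul (h0.fun_pow n)

theorem an_hca2 (F : ℂ[X][X]) (u : C2) :
    AnalyticAt ℂ (fun u : C2 => F.evalEval (u 0) (u 1)) u := by
  have h1 : AnalyticAt ℂ (fun u : C2 => u 1) u :=
    (ContinuousLinearMap.proj (R := ℂ) (φ := fun _ : Fin 2 => ℂ) 1).analyticAt u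
  induction F using Polynomial.induction_on' with
  | add p q hp hq => simpa only [evalEval_add] using hp.fun_add hq
  | monomial n a =>
    simpa only [← C_mul_X_pow_eq_monomial, evalEval_mul, evalEval_C, evalEval_pow, evalEval_X]
      using (ev_hca2 a u).fun_mul (h1.fun_pow n)

theorem line_hca2 (F : ℂ[X][X]) (u : C2) (τ : ℂ) :
    F.evalEval ((u + τ • (Pi.single 1 1 : C2)) 0) ((u + τ • (Pi.single 1 1 : C2)) 1) =
      (F.map (evalRingHom (u 0))).eval (u 1 + τ) := by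
  rw [map_evalRingHom_eval]; simp

theorem der_hca2 (F : ℂ[X][X]) (u : C2) :
    fderiv ℂ (fun u : C2 => F.evalEval (u 0) (u 1)) u (Pi.single 1 1) =
      F.derivative.evalEval (u 0) (u 1) := by
  have h1 : HasDerivAt (fun τ : ℂ => u + τ • (Pi.single 1 1 : C2)) (Pi.single 1 1) 0 := by
    simpa using ((hasDerivAt_id (0 : ℂ)).smul_const (Pi.single 1 1 : C2)).const_add u
  have h2 := (an_hca2 F u).differentiableAt.hasFDerivAt.comp_hasDerivAt_of_eq (0 : ℂ) h1
    (by simp)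
  have h3 : HasDerivAt (fun τ : ℂ => (F.map (evalRingHom (u 0))).eval (u 1 + τ))
      ((F.map (evalRingHom (u 0))).derivative.eval (u 1 + 0)) 0 :=
    ((F.map (evalRingHom (u 0))).hasDerivAt (u 1 + 0)).comp_const_add (u 1) 0
  rw [add_zero, derivative_map, map_evalRingHom_eval] at h3
  refine h2.unique ?_
  have e : ((fun u : C2 => F.evalEval (u 0) (u 1)) ∘
      fun τ : ℂ => u + τ • (Pi.single 1 1 : C2)) =
      fun τ : ℂ => (F.map (evalRingHom (u 0))).eval (u 1 + τ) :=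
    funext fun τ => line_hca2 F u τ
  rw [e]
  exact h3

theorem freq_hca2 {F : ℂ[X][X]} (hF : F.Monic) (a : C2) :
    ∃ᶠ u in 𝓝 a, F.evalEval (u 0) (u 1) ≠ 0 := by
  have hc : Tendsto (fun τ : ℂ => a + τ • (Pi.single 1 1 : C2)) (𝓝[≠] 0) (𝓝 a) := by
    have : Continuous fun τ : ℂ => a + τ • (Pi.single 1 1 : C2) := by fun_prop
    simpa using (this.tendsto 0).mono_left (nhdsWithin_le_nhds (s := {0}ᶜ))
  refine hc.frequently (Eventually.frequently ?_)
  have hf : {τ : ℂ | (F.map (evalRingHom (a 0))).eval (a 1 + τ) = 0}.Finite :=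
    (finite_setOfPred_isRoot (hF.map (evalRingHom (a 0))).ne_zero).preimage
      (add_right_injective (a 1)).injOn
  filter_upwards [nhdsNE_le_cofinite (0 : ℂ) hf.compl_mem_cofinite] with τ hτ
  rw [line_hca2]
  exact hτ

theorem fin_hca2 {b m : ℕ} {c : Co b m → ℂ} (hc : Good c) :
    {u : C2 | (toP c).evalEval (u 0) (u 1) = 0 ∧
      (toP c).derivative.evalEval (u 0) (u 1) = 0}.Finite := by
  have hΔ : Δ b (toP c) ≠ 0 := fun h => hc.2 (by rw [h, coeff_zero])
  have h1 := (finite_setOfPred_isRoot hΔ).biUnion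
    (t := fun x => (fun z => (![x, z] : C2)) '' {z | ((toP c).map (evalRingHom x)).IsRoot z})
    fun x _ => (finite_setOfPred_isRoot ((toP_monic c).map (evalRingHom x)).ne_zero).image _
  refine h1.subset fun u hu => mem_biUnion (TRD0a.root t_DSEP c hu.1 hu.2) ⟨u 1, ?_, ?_⟩
  · rw [mem_ofPred_eq, IsRoot.def, map_evalRingHom_eval]; exact hu.1
  · ext i; fin_cases i <;> rfl

theorem p_HCA :
    S_HCA := by
  intro Q b m c
  refine ⟨fun u => ⟨an_hca2 _ u, der_hca2 _ u⟩, ?_, fun hc a => ⟨freq_hca2 (toP_monic c) a, ?_⟩⟩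
  · have := Q.mfd
    have h1 : MDifferentiable 𝓘(ℂ, C2) 𝓘(ℂ, ℂ) (Dc c) :=
      fun u => (an_hca2 (toP c) u).differentiableAt.mdifferentiableAt
    exact h1.comp_mdifferentiableOn (mdifferentiableOn_atlas (I := 𝓘(ℂ, C2)) (Q.ch_mem 0))
  · filter_upwards [nhdsNE_le_cofinite a (fin_hca2 hc).compl_mem_cofinite] with u hu h0 h1
    exact hu ⟨h0, (der_hca2 _ u).symm.trans h1⟩

end Pool.Agent.P.MP_ab0431_ag.UB.V2

namespace Pool.Agent.P.MP_ab0431_ag.UB.V2

open Polynomial Set Filter Topology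
open scoped Manifold ContDiff

theorem p_MUL :
    S_MUL := by
  intro Q b m c hW
  have hne : ∀ x : ℂ, (toP c).map (evalRingHom x) ≠ 0 := fun x => ((toP_monic c).map _).ne_zero
  have h1 : ∀ y ∈ (Q.ch 0).source, (y ∈ Bc Q c ↔ Hc Q c y = 0) := fun y hy => by
    obtain ⟨h2, -, h3, -⟩ := t_BCF Q b m c hW
    have h4 : y = Q.pp ![1, Q.ch 0 y 0, Q.ch 0 y 1] := by
      rw [← TRAa.ins0, ← Q.ch_symm, (Q.ch 0).left_inv hy]
    conv_lhs => rw [h4]
    rw [h2 _ fun h => one_ne_zero (congrFun h 0), h3]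
    rfl
  have h2 : ∀ y ∈ (Q.ch 0).source,
      mu Q c y = rootMultiplicity (Q.ch 0 y 1) ((toP c).map (evalRingHom (Q.ch 0 y 0))) := by
    intro y hy
    have h3 : ((toP c).map (evalRingHom (Q.ch 0 y 0))).IsRoot (Q.ch 0 y 1) ↔ y ∈ Bc Q c := by
      rw [h1 y hy, IsRoot, map_evalRingHom_eval]
      rfl
    unfold mu
    split_ifs with h4
    · exact max_eq_right ((rootMultiplicity_pos (hne _)).2 (h3.2 h4))
    · exact (rootMultiplicity_eq_zero (mt h3.1 h4)).symm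
  have h3 : ∀ y ∈ (Q.ch 0).source, (1 < mu Q c y ↔ Hc Q c y = 0 ∧
      (toP c).derivative.evalEval (Q.ch 0 y 0) (Q.ch 0 y 1) = 0) := fun y hy => by
    rw [h2 y hy, one_lt_rootMultiplicity_iff_isRoot (hne _), derivative_map, IsRoot, IsRoot,
      map_evalRingHom_eval, map_evalRingHom_eval]
    rfl
  refine ⟨fun y hy => ⟨h1 y hy, h2 y hy, h3 y hy⟩, fun hG => ?_⟩
  have hΔ : Δ b (toP c) ≠ 0 := fun h => hG.2 (by rw [h, coeff_zero])
  refine Finite.of_finite_image (f := Q.ch 0) ?_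
    ((Q.ch 0).injOn.mono fun y hy => mu_src Q c hy)
  refine (((finite_setOfPred_isRoot hΔ).biUnion fun x _ =>
    (finite_setOfPred_isRoot (hne x)).image fun z => (![x, z] : C2)).subset ?_)
  rintro _ ⟨y, hy, rfl⟩
  obtain ⟨h4, h5⟩ := (h3 y (mu_src Q c hy)).1 hy
  refine mem_biUnion (TRD0a.root t_DSEP c h4 h5) ⟨Q.ch 0 y 1, ?_, ?_⟩
  · rw [mem_ofPred_eq, IsRoot, map_evalRingHom_eval]
    exact h4
  · ext i; fin_cases i <;> rfl

end Pool.Agent.P.MP_ab0431_ag.UB.V2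

namespace Pool.Agent.P.MP_ab0431_ag.UB.V2

open Polynomial Set Filter Topology
open scoped Manifold ContDiff

theorem p_TRN3 :
    S_TRN3 := by
  intro Y _ μ w₀ ⟨Φ, h0, h2⟩
  let x₀ : (Y × ℂ) × ℂ := (w₀, w₀.2)
  let k : ((Y × ℂ) × ℂ) × ℝ → (Y × ℂ) × ℂ := fun p =>
    (p.1.1, p.1.1.2 + p.2 * (p.1.2 - p.1.1.2))
  have hk : Continuous k := by fun_prop
  have hd : ∀ w s, k ((w, w.2), s) = (w, w.2) := fun w s => Prod.ext rfl (by simp [k])
  have h1 : ∀ᶠ x in 𝓝 x₀, Φ (x.1, x.1.2) = x.1 ∧ ∀ s ∈ Icc (0 : ℝ) 1,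
      ContinuousAt Φ (k (x, s)) ∧ μ (Φ (k (x, s))) = μ x.1 ∧ (Φ (k (x, s))).2 = (k (x, s)).2 := by
    refine ((continuousAt_fst (p := x₀)).eventually h2).and
      (isCompact_Icc.eventually_forall_of_forall_eventually fun s _ => ?_)
    have := hk.continuousAt (x := (x₀, s))
    rw [ContinuousAt, hd w₀ s] at this
    exact this.eventually h0
  obtain ⟨ε, hε, h3⟩ := Metric.eventually_nhds_iff.1 h1
  let c : (Y × ℂ) × ℂ → ℝ := fun x => max 0 (min 1 (2 - 3 * dist x x₀ / ε))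
  have hc : Continuous c := by fun_prop
  have hc1 : ∀ x, c x ∈ Icc (0 : ℝ) 1 := fun x =>
    ⟨le_max_left _ _, max_le zero_le_one (min_le_left _ _)⟩
  let G : (Y × ℂ) × ℂ → Y × ℂ := fun x => if dist x x₀ < ε then Φ (k (x, c x)) else x.1
  have hG : ∀ x, dist x x₀ < ε → G x = Φ (k (x, c x)) := fun x hx => if_pos hx
  have hG' : ∀ x, ¬dist x x₀ < ε → G x = x.1 := fun x hx => if_neg hx
  have hb : ∀ r, IsOpen {x | dist x x₀ < r} := fun r => Metric.isOpen_ball
  refine ⟨G, ⟨continuous_iff_continuousAt.2 fun x => ?_, fun w => ?_, fun x => ?_⟩, ?_⟩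
  · by_cases hx : dist x x₀ < ε
    · refine ContinuousAt.congr (((h3 hx).2 _ (hc1 x)).1.comp_of_eq
        (f := fun x => k (x, c x)) (by fun_prop) rfl) ?_
      filter_upwards [(hb ε).mem_nhds hx] with y hy using (hG y hy).symm
    · refine continuousAt_fst.congr ?_
      have h4 : IsOpen {y | 2 * ε / 3 < dist y x₀} := isOpen_lt continuous_const (by fun_prop)
      filter_upwards [h4.mem_nhds (show 2 * ε / 3 < dist x x₀ by linarith [not_lt.1 hx])] with y hy
      by_cases h5 : dist y x₀ < ε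
      · have : c y = 0 := max_eq_left (min_le_of_right_le (by
          rw [sub_nonpos, le_div_iff₀ hε]; linarith))
        rw [hG y h5, this, ← (h3 h5).1]
        exact congrArg _ (Prod.ext rfl (by simp [k]))
      · exact (hG' y h5).symm
  · by_cases hx : dist (w, w.2) x₀ < ε
    · rw [hG _ hx, hd w, (h3 hx).1]
    · exact hG' _ hx
  · by_cases h5 : dist x x₀ < ε
    · rw [hG x h5, ((h3 h5).2 _ (hc1 x)).2.1]
    · rw [hG' x h5]
  · filter_upwards [(hb (ε / 3)).mem_nhds (show dist x₀ x₀ < ε / 3 by rw [dist_self]; positivity)]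
      with x hx
    have h5 : dist x x₀ < ε := by linarith
    have : c x = 1 := by
      rw [show c x = max 0 1 from congrArg _ (min_eq_left (by
        rw [le_sub_comm, div_le_iff₀ hε]; linarith)), max_eq_right zero_le_one]
    rw [hG x h5, ((h3 h5).2 _ (hc1 x)).2.2, this]
    simp [k]

end Pool.Agent.P.MP_ab0431_ag.UB.V2

namespace Pool.Agent.P.MP_ab0431_ag.UB.V2

open Polynomial Set Filter Topology
open scoped Manifold ContDiff

theorem loc_trans2 (hTRN3 : S_TRN3) {Y : Type} [MetricSpace Y] [CompactSpace Y] {μ : Y × ℂ → ℕ}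
    {K : Set ℂ} (hK : IsCompact K) (h : ∀ w : Y × ℂ, w.2 ∈ K → LocFlow μ w) :
    ∃ G, Tp μ G ∧ ∀ w ∈ (univ : Set Y) ×ˢ K, ∀ᶠ x in 𝓝 (w, w.2), (G x).2 = x.2 := by
  refine (isCompact_univ.prod hK).induction_on (p := fun S => ∃ G, Tp μ G ∧
      ∀ w ∈ S, ∀ᶠ x in 𝓝 (w, w.2), (G x).2 = x.2) ?_ ?_ ?_ ?_
  · exact ⟨Prod.fst, ⟨continuous_fst, fun _ => rfl, fun _ => rfl⟩, fun _ h => h.elim⟩
  · rintro S T hST ⟨G, a, d⟩
    exact ⟨G, a, fun w hw => d w (hST hw)⟩
  · rintro S T ⟨G, ⟨a, b, c⟩, d⟩ ⟨G', ⟨a', b', c'⟩, d'⟩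
    have m : Continuous fun x : (Y × ℂ) × ℂ => (G x, x.2) := a.prodMk continuous_snd
    refine ⟨fun x => G' (G x, x.2), ⟨a'.comp m, fun w => by simp only [b, b'],
      fun x => (c' _).trans (c x)⟩, fun w hw => hw.elim (fun hw => ?_) fun hw => ?_⟩
    · filter_upwards [d w hw] with x hx
      rw [← hx, b']
    · exact (m.tendsto' (w, w.2) (w, w.2) (by simp only [b])).eventually (d' w hw)
  · intro w hw
    obtain ⟨G, g1, g4⟩ := hTRN3 Y μ w (h w hw.2)
    exact ⟨_, nhdsWithin_le_nhds (((continuous_id.prodMk continuous_snd).tendsto w).eventually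
      g4.eventually_nhds), G, g1, fun _ hw => hw⟩

theorem p_TRANS (hTRN3 : S_TRN3) :
    S_TRANS := by
  intro Y _ _ μ K hK hc h
  obtain ⟨G, ⟨g1, g2, g3⟩, g4⟩ := loc_trans2 hTRN3 hK h
  have hC : IsCompact ((fun w : Y × ℂ => (w, w.2)) '' (univ ×ˢ K)) :=
    (isCompact_univ.prod hK).image (continuous_id.prodMk continuous_snd)
  obtain ⟨δ, δ0, hδ⟩ := hC.exists_thickening_subset_open
    (isOpen_interior (s := {x | (G x).2 = x.2}))
    (by rintro _ ⟨w, hw, rfl⟩; exact mem_interior_iff_mem_nhds.2 (g4 w hw))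
  have g5 : ∀ (w : Y × ℂ) (t : ℂ), w.2 ∈ K → dist t w.2 < δ → (G (w, t)).2 = t := fun w t hw ht =>
    interior_subset (s := {x | (G x).2 = x.2}) (hδ (a := (w, t)) (Metric.mem_thickening_iff.2
      ⟨(w, w.2), ⟨w, ⟨trivial, hw⟩, rfl⟩, by
        rwa [Prod.dist_eq, dist_self, max_eq_right dist_nonneg]⟩))
  obtain ⟨R, hR⟩ := Metric.isBounded_iff.1 hK.isBounded
  obtain ⟨n, hn⟩ := exists_nat_gt (max (R / δ) 0)
  have n0 : (0 : ℝ) < n := (le_max_right _ _).trans_lt hn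
  have n1 : R < n * δ := (div_lt_iff₀ δ0).1 ((le_max_left _ _).trans_lt hn)
  have key : ∀ k : ℕ, ∃ H, Tp μ H ∧ (k ≤ n → ∀ x : (Y × ℂ) × ℂ, x.1.2 ∈ K → x.2 ∈ K →
        (H x).2 = x.1.2 + ((k : ℝ) / n) • (x.2 - x.1.2)) := by
    intro k
    induction k with
    | zero => exact ⟨Prod.fst, ⟨continuous_fst, fun _ => rfl, fun _ => rfl⟩, fun _ x _ _ => by simp⟩
    | succ k ih =>
      obtain ⟨H, ⟨a, b, c⟩, d⟩ := ih
      refine ⟨fun x => G (H x, x.1.2 + (((k + 1 : ℕ) : ℝ) / n) • (x.2 - x.1.2)),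
        ⟨g1.comp (a.prodMk (by fun_prop)),
        fun w => by simp only [b, sub_self, smul_zero, add_zero, g2],
        fun x => (g3 _).trans (c x)⟩, fun hk x h1 h2 => g5 _ _ ?_ ?_⟩
      · rw [d (by omega) x h1 h2]
        exact hc.add_smul_sub_mem h1 h2 ⟨by positivity,
          (div_le_one n0).2 (by exact_mod_cast (by omega : k ≤ n))⟩
      · rw [d (by omega) x h1 h2, dist_add_left, dist_eq_norm, ← sub_smul, norm_smul,
          ← dist_eq_norm x.2, Nat.cast_succ, ← sub_div, add_sub_cancel_left, Real.norm_eq_abs,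
          abs_of_pos (by positivity), one_div, inv_mul_lt_iff₀ n0]
        exact (hR h2 h1).trans_lt n1
  obtain ⟨H, a, d⟩ := key n
  refine ⟨H, a, fun x h1 h2 => ?_⟩
  rw [d le_rfl x h1 h2, div_self n0.ne', one_smul, add_sub_cancel]

end Pool.Agent.P.MP_ab0431_ag.UB.V2

namespace Pool.Agent.P.MP_ab0431_ag.UB.V2

open Polynomial Set Filter Topology
open scoped Manifold ContDiff

theorem prod_pu12 {b : ℕ} {f : ℂ[X]} (h1 : f.Monic) (h2 : f.natDegree = b) {r : Fin b → ℂ}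
    (hr : Function.Injective r) (h0 : ∀ j, f.eval (r j) = 0) : f = ∏ j, (X - C (r j)) := by
  have hd : ∏ j, (X - C (r j)) ∣ f :=
    Finset.prod_dvd_of_coprime
      (fun i _ j _ hij => pairwise_coprime_X_sub_C hr hij) fun j _ => dvd_iff_isRoot.2 (h0 j)
  refine eq_of_monic_of_dvd_of_natDegree_le (monic_prod_X_sub_C r _) h1 hd ?_
  rw [natDegree_finsetProd_X_sub_C_eq_card, Finset.card_univ, Fintype.card_fin, h2]

theorem roots_pu12 {b : ℕ} {f : ℂ[X]} (h1 : f.Monic) (h2 : f.natDegree = b) (hs : f.Separable) :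
    ∃ r : Fin b → ℂ, Function.Injective r ∧ ∀ j, f.eval (r j) = 0 := by
  classical
  have hc : f.roots.toFinset.card = b := by
    rw [Multiset.toFinset_card_of_nodup (nodup_roots hs), ← h2]
    exact IsAlgClosed.card_roots_eq_natDegree
  let e := (Finset.equivFinOfCardEq hc).symm
  refine ⟨fun j => (e j).1, fun i j h => e.injective (Subtype.ext h), fun j => ?_⟩
  exact (mem_roots h1.ne_zero).1 (Multiset.mem_toFinset.1 (e j).2)

theorem ana_pu12 {b : ℕ} {P : ℂ × ℂ → ℂ[X]} {q₀ : ℂ × ℂ} (hP : MonAt b P q₀) (x : ℂ) :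
    AnalyticAt ℂ (fun y : ℂ × ℂ × ℂ => (P y.2).eval y.1) (x, q₀) := by
  have h1 : AnalyticAt ℂ (fun y : ℂ × ℂ × ℂ =>
      ∑ j ∈ Finset.range (b + 1), (P y.2).coeff j * y.1 ^ j) (x, q₀) :=
    Finset.analyticAt_fun_sum _ fun j _ =>
      ((hP.1 j).comp (f := fun y : ℂ × ℂ × ℂ => y.2) (x := (x, q₀)) analyticAt_snd).mul
        (analyticAt_fst.pow j)
  refine h1.congr ?_
  have h2 : ∀ᶠ y : ℂ × ℂ × ℂ in 𝓝 (x, q₀), (P y.2).Monic ∧ (P y.2).natDegree = b :=
    (continuous_snd.tendsto (x, q₀)).eventually hP.2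
  filter_upwards [h2] with y hy
  rw [eval_eq_sum_range' (n := b + 1) (by omega)]

theorem loc_pu12 {b : ℕ} {P : ℂ × ℂ → ℂ[X]} {q₀ : ℂ × ℂ} (hP : MonAt b P q₀)
    (hs : (P q₀).Separable) : ∃ ξ : Fin b → ℂ × ℂ → ℂ, (∀ j, AnalyticAt ℂ (ξ j) q₀) ∧
      ∀ᶠ q in 𝓝 q₀, (Function.Injective fun j => ξ j q) ∧
        ∀ y, (P q).eval y = 0 ↔ ∃ j, y = ξ j q := by
  obtain ⟨m1, m2⟩ := hP.2.self_of_nhds
  obtain ⟨r, hr, h0⟩ := roots_pu12 m1 m2 hs
  have key : ∀ j, ∃ ξ : ℂ × ℂ → ℂ, AnalyticAt ℂ ξ q₀ ∧ ξ q₀ = r j ∧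
      ∀ᶠ q in 𝓝 q₀, (P q).eval (ξ q) = 0 := fun j => by
    have hd : dz (fun y : ℂ × ℂ × ℂ => (P y.2).eval y.1) (r j, q₀) ≠ 0 := by
      rw [TRAa.dz_poly (ana_pu12 hP (r j)) (f := P q₀) fun _ => rfl]
      have := hs.eval₂_derivative_ne_zero (RingHom.id ℂ) (x := r j) (by simpa using h0 j)
      simpa using this
    obtain ⟨ξ, a1, a2, a3, -⟩ := t_IFT1 (ℂ × ℂ) _ (r j) q₀ (ana_pu12 hP (r j)) (h0 j) hd
    exact ⟨ξ, a1, a2, a3⟩
  choose ξ a1 a2 a3 using key
  refine ⟨ξ, a1, ?_⟩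
  have hne : ∀ᶠ q in 𝓝 q₀, ∀ i j, i ≠ j → ξ i q ≠ ξ j q :=
    eventually_all.2 fun i => eventually_all.2 fun j => by
      by_cases hij : i = j
      · exact Eventually.of_forall fun q h => absurd hij h
      · have : ξ i q₀ ≠ ξ j q₀ := by rw [a2, a2]; exact fun h => hij (hr h)
        exact (((a1 i).continuousAt.ne_iff_eventually_ne (a1 j).continuousAt).1 this).mono
          fun q h _ => h
  filter_upwards [hne, eventually_all.2 a3, hP.2] with q b1 b2 b3
  have hi : Function.Injective fun j => ξ j q := fun i j h => by_contra fun hij => b1 i j hij h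
  refine ⟨hi, fun y => ⟨fun hy => ?_, fun ⟨j, e⟩ => e ▸ b2 j⟩⟩
  rw [prod_pu12 b3.1 b3.2 hi b2, eval_prod, Finset.prod_eq_zero_iff] at hy
  obtain ⟨j, -, hj⟩ := hy
  exact ⟨j, by simpa [sub_eq_zero] using hj⟩

theorem p_PU1 :
    S_PU1 := by
  intro b P O hO hc h
  rcases O.eq_empty_or_nonempty with rfl | ⟨q₁, hq₁⟩
  · exact ⟨fun _ _ => 0, fun q hq => absurd hq (notMem_empty q)⟩
  let E : (ℂ × ℂ) × ℂ → Prop := fun y => (P y.1).eval y.2 = 0
  let p : {y // E y} → ℂ × ℂ := fun e => e.1.1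
  have hcov : IsCoveringMapOn p O := fun q hq => by
    obtain ⟨ξ, a1, a2⟩ := loc_pu12 (h q hq).1 (h q hq).2
    exact (t_HCOVS (ℂ × ℂ) ℂ E b ξ q _
      (a2.and (eventually_all.2 fun j => (a1 j).eventually_analyticAt))
      (fun j y hy => (hy.2 j).continuousAt.continuousWithinAt)
      fun y hy => hy.1).to_isEvenlyCovered_preimage
  have hsc : IsSimplyConnected O := by
    have := hc.contractibleSpace ⟨q₁, hq₁⟩
    exact SimplyConnectedSpace.ofContractible O
  obtain ⟨ξ₁, -, c2⟩ := loc_pu12 (h q₁ hq₁).1 (h q₁ hq₁).2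
  obtain ⟨c3, c4⟩ := c2.self_of_nhds
  obtain ⟨s, ⟨s1, s2⟩, -⟩ := t_SECS {y // E y} (ℂ × ℂ) (Fin b) p O q₁
    (fun j => ⟨(q₁, ξ₁ j q₁), (c4 _).2 ⟨j, rfl⟩⟩) hcov hO hsc hq₁ (fun _ => rfl)
    (fun i j e => c3 (congrArg (fun y : {y // E y} => y.1.2) e))
    (fun e he => by
      have h1 : (P q₁).eval e.1.2 = 0 := by rw [← he]; exact e.2
      obtain ⟨j, hj⟩ := (c4 _).1 h1
      exact ⟨j, Subtype.ext (Prod.ext he.symm hj.symm)⟩)
  have hz : ∀ q ∈ O, ∀ l, (P q).eval (s l q).1.2 = 0 := fun q hq l => by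
    have h1 : (P (s l q).1.1).eval (s l q).1.2 = 0 := (s l q).2
    rwa [show (s l q).1.1 = q from (s2 q hq).1 l] at h1
  refine ⟨fun l q => (s l q).1.2, fun q hq => ⟨fun l => ?_, ?_⟩⟩
  · obtain ⟨ξ, a1, a2⟩ := loc_pu12 (h q hq).1 (h q hq).2
    obtain ⟨a3, a4⟩ := a2.self_of_nhds
    obtain ⟨j, hj⟩ := (a4 _).1 (hz q hq l)
    have hcont : ContinuousAt (fun q => (s l q).1.2) q :=
      (continuous_snd.comp continuous_subtype_val).continuousAt.comp
        ((s1 l).continuousAt (hO.mem_nhds hq))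
    have hne : ∀ᶠ y in 𝓝 q, ∀ i, i ≠ j → (s l y).1.2 ≠ ξ i y :=
      eventually_all.2 fun i => by
        by_cases hij : i = j
        · exact Eventually.of_forall fun y h => absurd hij h
        · have : (s l q).1.2 ≠ ξ i q := by rw [hj]; exact fun h => hij (a3 h).symm
          exact ((hcont.ne_iff_eventually_ne (a1 i).continuousAt).1 this).mono fun y h _ => h
    refine (a1 j).congr ?_
    filter_upwards [hne, a2, hO.mem_nhds hq] with y b1 b2 b3
    obtain ⟨i, hi⟩ := (b2.2 _).1 (hz y b3 l)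
    by_cases hij : i = j
    · rw [hi, hij]
    · exact absurd hi (b1 i hij)
  · obtain ⟨m1, m2⟩ := (h q hq).1.2.self_of_nhds
    refine prod_pu12 m1 m2 (fun i j e => (s2 q hq).2.1 (Subtype.ext (Prod.ext ?_ e))) (hz q hq)
    exact ((s2 q hq).1 i).trans ((s2 q hq).1 j).symm

end Pool.Agent.P.MP_ab0431_ag.UB.V2

namespace Pool.Agent.P.MP_ab0431_ag.UB.V2

open Polynomial Set Filter Topology
open scoped Manifold ContDiff

theorem p_PERM :
    S_PERM := by
  classical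
  intro T _ A b f g hA hc h
  rcases A.eq_empty_or_nonempty with rfl | ⟨q0, hq0⟩
  · exact ⟨1, fun q hq => absurd hq (Set.notMem_empty q)⟩
  have hfi : ∀ q ∈ A, Function.Injective fun j => f j q := fun q hq =>
    separable_prod_X_sub_C_iff.1 (h q hq).1
  have hgi : ∀ q ∈ A, Function.Injective fun j => g j q := fun q hq =>
    separable_prod_X_sub_C_iff.1 ((h q hq).2 ▸ (h q hq).1)
  have hex : ∀ q ∈ A, ∀ i, ∃ j, g i q = f j q := fun q hq i => by
    have h1 : (∏ j, (X - C (g j q))).eval (g i q) = 0 := by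
      rw [eval_prod]
      exact Finset.prod_eq_zero (Finset.mem_univ i) (by simp)
    rw [(h q hq).2, eval_prod, Finset.prod_eq_zero_iff] at h1
    obtain ⟨j, -, hj⟩ := h1
    exact ⟨j, by simpa [sub_eq_zero] using hj⟩
  choose s hs using hex q0 hq0
  have hsi : Function.Injective s := fun i j e => hgi q0 hq0 (by
    show g i q0 = g j q0
    rw [hs i, hs j, e])
  haveI : PreconnectedSpace A := isPreconnected_iff_preconnectedSpace.1 hA
  have hcl : ∀ i j, IsClosed {q : A | g i q = f j q} := fun i j =>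
    isClosed_eq (hc i).2.restrict (hc j).1.restrict
  refine ⟨Equiv.ofBijective s (Finite.injective_iff_bijective.1 hsi), fun q hq i => ?_⟩
  have hco : {q : A | g i q = f (s i) q}ᶜ = ⋃ j : {j // j ≠ s i}, {q : A | g i q = f j q} := by
    ext p
    simp only [Set.mem_compl_iff, Set.mem_setOf_eq, Set.mem_iUnion]
    constructor
    · intro hp
      obtain ⟨j, hj⟩ := hex p p.2 i
      exact ⟨⟨j, fun e => hp (e ▸ hj)⟩, hj⟩
    · rintro ⟨j, hj⟩ hp
      exact j.2 (hfi p p.2 (hj.symm.trans hp))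
  have hclop : IsClopen {q : A | g i q = f (s i) q} :=
    ⟨hcl _ _, by
      rw [← isClosed_compl_iff, hco]
      exact isClosed_iUnion_of_finite fun j => hcl _ _⟩
  have hu := hclop.eq_univ ⟨⟨q0, hq0⟩, hs i⟩
  have : (⟨q, hq⟩ : A) ∈ {q : A | g i q = f (s i) q} := by rw [hu]; trivial
  exact this

end Pool.Agent.P.MP_ab0431_ag.UB.V2

namespace Pool.Agent.P.MP_ab0431_ag.UB.V2

open Polynomial Set Filter Topology
open scoped Manifold ContDiff

theorem ev_pu22 {b : ℕ} {P : ℂ × ℂ → ℂ[X]} {q₀ : ℂ × ℂ} (h : MonAt b P q₀) :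
    ∀ᶠ q in 𝓝 q₀, MonAt b P q := by
  filter_upwards [(eventually_all_finset (Finset.range (b + 1))).2 fun j _ =>
    (h.1 j).eventually_analyticAt, h.2.eventually_nhds] with q h1 h2
  refine ⟨fun j => ?_, h2⟩
  by_cases hj : j < b + 1
  · exact h1 j (Finset.mem_range.2 hj)
  · exact (analyticAt_const (v := 0)).congr
      (h2.mono fun q h3 => (coeff_eq_zero_of_natDegree_lt (by omega)).symm)

theorem p_PU2 (hPU1 : S_PU1) (hPERM : S_PERM) :
    S_PU2 := by
  intro b P t₀ hP hs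
  obtain ⟨δ, hδ, h⟩ := Metric.eventually_nhds_iff.1 ((ev_pu22 hP).and hs)
  set O : Set (ℂ × ℂ) := {u : ℂ | u.re < Real.log δ} ×ˢ Metric.ball t₀ δ
  have hO : ∀ u t, (u, t) ∈ O ↔ ‖Complex.exp u‖ < δ ∧ dist t t₀ < δ := fun u t => by
    rw [Complex.norm_exp, ← Real.lt_log_iff_exp_lt hδ]; rfl
  have hc : Convex ℝ O := (convex_halfSpace_re_lt _).prod (convex_ball _ _)
  have h1 : ∀ q ∈ O, MonAt b (fun q => P (Complex.exp q.1, q.2)) q ∧
      (P (Complex.exp q.1, q.2)).Separable := fun q hq => by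
    obtain ⟨⟨h2, h3⟩, h4⟩ := @h (Complex.exp q.1, q.2) (by simpa [Prod.dist_eq] using (hO _ _).1 hq)
    have h5 : AnalyticAt ℂ (fun q : ℂ × ℂ => (Complex.exp q.1, q.2)) q :=
      analyticAt_fst.cexp'.prod analyticAt_snd
    exact ⟨⟨fun j => (h2 j).comp_of_eq h5 rfl, h5.continuousAt.eventually h3⟩,
      h4 (Complex.exp_ne_zero _)⟩
  obtain ⟨ζ, hζ⟩ := hPU1 b _ O ((isOpen_lt Complex.continuous_re continuous_const).prod
    Metric.isOpen_ball) hc h1
  have h2 : ∀ (k : ℤ) u t, (u, t) ∈ O → (u + k * (2 * Real.pi * Complex.I), t) ∈ O :=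
    fun k u t hq => by rwa [hO, Complex.exp_periodic.int_mul k, ← hO]
  have h3 : ∀ i, ContinuousOn (ζ i) O := fun i q hq =>
    ((hζ q hq).1 i).continuousAt.continuousWithinAt
  obtain ⟨σ, hσ⟩ := hPERM _ O b ζ (fun i q => ζ i (q.1 + 2 * Real.pi * Complex.I, q.2))
    hc.isPreconnected (fun i => ⟨h3 i, (h3 i).comp (by fun_prop)
      fun q hq => by simpa using h2 1 _ _ hq⟩) fun q hq => by
      rw [← (hζ q hq).2, ← (hζ _ (by simpa using h2 1 _ _ hq)).2, Complex.exp_periodic]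
      exact ⟨(h1 q hq).2, rfl⟩
  have h4 : ∀ (n : ℕ) i u t, (u, t) ∈ O →
      ζ i (u + n * (2 * Real.pi * Complex.I), t) = ζ ((σ ^ n) i) (u, t) := fun n => by
    induction n with
    | zero => simp
    | succ n ih =>
      intro i u t hq
      rw [pow_succ, Equiv.Perm.mul_apply, ← ih _ _ _ hq, ← hσ _ (by simpa using h2 n _ _ hq)]
      congr 2
      push_cast
      ring
  obtain ⟨e, he, h5⟩ : ∃ e, 0 < e ∧ σ ^ e = 1 := ⟨_, orderOf_pos σ, pow_orderOf_eq_one σ⟩
  have h6 : ∀ i a a' t, Complex.exp a' = Complex.exp a → (e * a, t) ∈ O →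
      ζ i (e * a', t) = ζ i (e * a, t) := fun i a a' t ha hq => by
    obtain ⟨k, rfl⟩ := Complex.exp_eq_exp_iff_exists_int.1 ha
    have h7 : Function.Periodic
        (fun k : ℤ => ζ i (e * (a + k * (2 * Real.pi * Complex.I)), t)) 1 := fun k => by
      have h8 := h4 e i _ _ (h2 (e * k) _ _ hq)
      rw [h5] at h8
      refine Eq.trans ?_ (h8.trans ?_) <;> push_cast <;> ring_nf
      rfl
    simpa using h7.int_mul k 0
  have h7 : ∀ᶠ q : ℂ × ℂ in 𝓝 (0, t₀), ‖q.1 ^ e‖ < δ ∧ dist q.2 t₀ < δ :=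
    (ContinuousAt.eventually_lt (by fun_prop) continuousAt_const (by simpa [he.ne'])).and
      (ContinuousAt.eventually_lt (by fun_prop) continuousAt_const (by simpa))
  refine ⟨e, fun i q => ζ i (e * Complex.log q.1, q.2), he, ?_⟩
  filter_upwards [h7.eventually_nhds] with q hq h0
  have h8 : ∀ q : ℂ × ℂ, q.1 ≠ 0 → Complex.exp (e * Complex.log q.1) = q.1 ^ e := fun q h0 => by
    rw [Complex.exp_nat_mul, Complex.exp_log h0]
  have h9 := (hO _ _).2 (h8 q h0 ▸ hq.self_of_nhds)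
  refine ⟨fun i => ?_, by rw [← (hζ _ h9).2, h8 q h0]⟩
  have h10 : DifferentiableAt ℂ
      (fun p : ℂ × ℂ => (e * (Complex.log (p.1 * q.1⁻¹) + Complex.log q.1), p.2)) q :=
    ((((differentiableAt_fst.mul_const _).clog (by simp [h0])).add_const _).const_mul _).prodMk
      differentiableAt_snd
  refine (DifferentiableAt.comp q (by simpa [h0] using ((hζ _ h9).1 i).differentiableAt)
    h10).congr_of_eventuallyEq ?_
  filter_upwards [hq, continuousAt_fst.eventually_ne h0] with p hp h11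
  exact (h6 i _ _ _ (by rw [Complex.exp_add, Complex.exp_log (mul_ne_zero h11 (inv_ne_zero h0)),
    Complex.exp_log h0, Complex.exp_log h11, inv_mul_cancel_right₀ h0])
    ((hO _ _).2 (h8 p h11 ▸ hp))).symm

end Pool.Agent.P.MP_ab0431_ag.UB.V2

namespace Pool.Agent.P.MP_ab0431_ag.UB.V2

open Polynomial Set Filter Topology
open scoped Manifold ContDiff

theorem freq_puisp2 (q : ℂ × ℂ) : ∃ᶠ q' in 𝓝 q, q'.1 ≠ 0 := by
  have h : Tendsto (fun x : ℂ => (x, q.2)) (𝓝 q.1) (𝓝 q) :=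
    (continuous_id.prodMk continuous_const).tendsto' _ _ rfl
  exact h.frequently (mem_closure_iff_frequently.1 ((dense_compl_singleton (0 : ℂ)) q.1))

theorem root_puisp2 {p : ℂ[X]} {b : ℕ} {K : ℝ} {z : ℂ} (h1 : p.Monic) (h2 : p.natDegree = b)
    (hK : 0 ≤ K) (h3 : ∀ j ∈ Finset.range b, ‖p.coeff j‖ ≤ K) (h4 : p.IsRoot z) :
    ‖z‖ ≤ K + 1 := by
  have h := (h4.norm_lt_cauchyBound h1.ne_zero).le
  rw [cauchyBound, h1.leadingCoeff, nnnorm_one, div_one, h2] at h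
  lift K to NNReal using hK
  have h5 : (Finset.range b).sup (‖p.coeff ·‖₊) ≤ K := Finset.sup_le fun j hj => h3 j hj
  exact_mod_cast h.trans (add_le_add_left h5 1)

theorem p_PUISP (hPU2 : S_PU2) :
    S_PUISP := by
  intro b P t₀ hP hs
  obtain ⟨e, z, he, hz⟩ := hPU2 b P t₀ hP hs
  have hφ : AnalyticAt ℂ (fun q : ℂ × ℂ => (q.1 ^ e, q.2)) (0, t₀) :=
    (analyticAt_fst.pow e).prod analyticAt_snd
  have h0 : (fun q : ℂ × ℂ => (q.1 ^ e, q.2)) (0, t₀) = (0, t₀) := by simp [he.ne']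
  have hc : ∀ j, AnalyticAt ℂ (fun q : ℂ × ℂ => (P (q.1 ^ e, q.2)).coeff j) (0, t₀) := fun j =>
    (hP.1 j).comp_of_eq hφ h0
  have hm : ∀ᶠ q : ℂ × ℂ in 𝓝 (0, t₀), (P (q.1 ^ e, q.2)).Monic ∧
      (P (q.1 ^ e, q.2)).natDegree = b := by
    have := hφ.continuousAt.tendsto
    simp only [zero_pow he.ne'] at this
    exact this.eventually hP.2
  set K := ∑ j ∈ Finset.range b, ‖(P ((0 : ℂ) ^ e, t₀)).coeff j‖ + 1 with hK
  have hb : ∀ᶠ q : ℂ × ℂ in 𝓝 (0, t₀), ∀ j ∈ Finset.range b,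
      ‖(P (q.1 ^ e, q.2)).coeff j‖ ≤ K := (eventually_all_finset _).2 fun j hj =>
    (hc j).continuousAt.norm.eventually_le_const (lt_add_one _ |>.trans_le (add_le_add_left
      (Finset.single_le_sum (f := fun j => ‖(P ((0 : ℂ) ^ e, t₀)).coeff j‖)
        (fun _ _ => norm_nonneg _) hj) 1))
  choose z' h1 h2 using fun i => t_RIEM (ℂ × ℂ) ℂ Prod.fst (z i) (0, t₀) (K + 1) analyticAt_fst
    (freq_puisp2 _) (by
      filter_upwards [hz, hm, hb] with q a1 a2 a3 hq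
      refine ⟨(a1 hq).1 i, root_puisp2 a2.1 a2.2 (by positivity) a3 ?_⟩
      rw [(a1 hq).2, IsRoot, eval_prod]
      exact Finset.prod_eq_zero (Finset.mem_univ i) (by simp))
  refine ⟨e, z', he, h1, ?_⟩
  have h3 : ∀ᶠ q : ℂ × ℂ in 𝓝 (0, t₀), q.1 ≠ 0 → P (q.1 ^ e, q.2) = ∏ i, (X - C (z' i q)) := by
    filter_upwards [hz, eventually_all.2 h2] with q a1 a2 hq
    rw [(a1 hq).2]
    exact Finset.prod_congr rfl fun i _ => by rw [a2 i hq]
  have h4 : ∀ j, AnalyticAt ℂ (fun q : ℂ × ℂ => (∏ i, (X - C (z' i q))).coeff j) (0, t₀) :=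
    fun j => by
    simp only [coeff_acf]
    split_ifs
    · exact Finset.analyticAt_fun_sum _ fun t _ =>
        Finset.analyticAt_fun_prod _ fun i _ => (h1 i).neg
    · exact analyticAt_const
  have h5 : ∀ᶠ q : ℂ × ℂ in 𝓝 (0, t₀), ∀ j ∈ Finset.range (b + 1),
      (P (q.1 ^ e, q.2)).coeff j = (∏ i, (X - C (z' i q))).coeff j :=
    (eventually_all_finset _).2 fun j _ => by
      filter_upwards [h3.eventually_nhds, (hc j).eventually_analyticAt,
        (h4 j).eventually_analyticAt] with q a1 a2 a3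
      exact tendsto_nhds_unique_of_frequently_eq a2.continuousAt a3.continuousAt
        (((freq_puisp2 q).and_eventually a1).mono fun q' h => by rw [h.2 h.1])
  filter_upwards [h5, hm] with q a1 a2
  refine (ext_iff_natDegree_le a2.2.le ?_).2 fun j hj => a1 j (Finset.mem_range.2 (by omega))
  rw [natDegree_finsetProd_X_sub_C_eq_card]
  simp

end Pool.Agent.P.MP_ab0431_ag.UB.V2

namespace Pool.Agent.P.MP_ab0431_ag.UB.V2

open Polynomial Set Filter Topology
open scoped Manifold ContDiff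

theorem p_LIP :
    S_LIP := by
  intro a t₀ ha h0
  obtain ⟨k, b, hb, hb0, hab⟩ := t_AFORM ℂ a (fun _ => 0) t₀ ha analyticAt_const
    (h0.mono fun q hq h => by_contra fun h1 => hq h1 h)
  have c1 : Tendsto (fun y : ℂ × ℂ × ℂ => (y.1, y.2.1)) (𝓝 (0, t₀, t₀)) (𝓝 (0, t₀)) :=
    Continuous.tendsto' (by fun_prop) _ _ rfl
  have c2 : Tendsto (fun y : ℂ × ℂ × ℂ => (y.1, y.2.2)) (𝓝 (0, t₀, t₀)) (𝓝 (0, t₀)) :=
    Continuous.tendsto' (by fun_prop) _ _ rfl
  have b1 := hb.continuousAt.tendsto.comp c1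
  have b2 := hb.continuousAt.tendsto.comp c2
  have h1 := ((b2.sub b1).norm).eventually_lt (b1.norm.const_mul (1 / 4 : ℝ)) (by
    have := norm_pos_iff.2 hb0
    rw [sub_self, norm_zero]; positivity)
  filter_upwards [h1, c1.eventually hab, c2.eventually hab] with y y1 y2 y3
  rw [y2, y3, ← mul_sub, norm_mul, norm_mul, mul_left_comm]
  exact mul_le_mul_of_nonneg_left y1.le (norm_nonneg _)

end Pool.Agent.P.MP_ab0431_ag.UB.V2

namespace Pool.Agent.P.MP_ab0431_ag.UB.V2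

open Polynomial Set Filter Topology
open scoped Manifold ContDiff

/-- The upper Lipschitz extension. -/
noncomputable def lo_mcs2 {b : ℕ} (a : Fin b → ℝ) (p : Fin b → ℂ) (z : ℂ) : ℝ :=
  ⨅ i, (a i + 1 / 4 * ‖z - p i‖)

/-- The symmetric Lipschitz extension. -/
noncomputable def ext_mcs2 {b : ℕ} (a : Fin b → ℝ) (p : Fin b → ℂ) (z : ℂ) : ℝ :=
  (lo_mcs2 a p z - lo_mcs2 (fun i => -a i) p z) / 2

theorem cont_mcs2 {X : Type} [TopologicalSpace X] {b : ℕ} {a : X → Fin b → ℝ}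
    {p : X → Fin b → ℂ} {z : X → ℂ} (ha : ∀ i, Continuous fun x => a x i)
    (hp : ∀ i, Continuous fun x => p x i) (hz : Continuous z) :
    Continuous fun x => lo_mcs2 (a x) (p x) (z x) := by
  unfold lo_mcs2
  rcases isEmpty_or_nonempty (Fin b) with h | h
  · simp only [Real.iInf_of_isEmpty]; exact continuous_const
  · simp only [← Finset.inf'_univ_eq_ciInf]
    exact Continuous.finset_inf'_apply _ fun i _ =>
      (ha i).add (continuous_const.mul (hz.sub (hp i)).norm)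

theorem lip_mcs2 {b : ℕ} (a : Fin b → ℝ) (p : Fin b → ℂ) (z w : ℂ) :
    lo_mcs2 a p z ≤ lo_mcs2 a p w + 1 / 4 * ‖z - w‖ := by
  unfold lo_mcs2
  rcases isEmpty_or_nonempty (Fin b) with h | h
  · simp only [Real.iInf_of_isEmpty]; positivity
  · obtain ⟨i, hi⟩ := exists_eq_ciInf_of_finite (f := fun i => a i + 1 / 4 * ‖w - p i‖)
    have h1 := ciInf_le (f := fun i => a i + 1 / 4 * ‖z - p i‖) (finite_range _).bddBelow i
    have h2 := norm_sub_le_norm_sub_add_norm_sub z w (p i)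
    rw [← hi]
    linarith

theorem lipe_mcs2 {b : ℕ} (a : Fin b → ℝ) (p : Fin b → ℂ) (z w : ℂ) :
    |ext_mcs2 a p z - ext_mcs2 a p w| ≤ 1 / 4 * ‖z - w‖ := by
  have h1 := lip_mcs2 a p z w
  have h2 := lip_mcs2 a p w z
  have h3 := lip_mcs2 (fun i => -a i) p z w
  have h4 := lip_mcs2 (fun i => -a i) p w z
  rw [norm_sub_rev] at h2 h4
  unfold ext_mcs2
  rw [abs_le]
  constructor <;> linarith

theorem at_mcs2 {b : ℕ} {a : Fin b → ℝ} {p : Fin b → ℂ} {i : Fin b}
    (h : ∀ j, a i - a j ≤ 1 / 4 * ‖p i - p j‖) : lo_mcs2 a p (p i) = a i := by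
  have : Nonempty (Fin b) := ⟨i⟩
  refine le_antisymm ((ciInf_le (finite_range _).bddBelow i).trans (by simp)) ?_
  exact le_ciInf fun j => by linarith [h j]

theorem ate_mcs2 {b : ℕ} {a : Fin b → ℝ} {p : Fin b → ℂ} {i : Fin b}
    (h : ∀ j, |a i - a j| ≤ 1 / 4 * ‖p i - p j‖) : ext_mcs2 a p (p i) = a i := by
  rw [ext_mcs2, at_mcs2 fun j => (abs_le.1 (h j)).2,
    at_mcs2 (a := fun i => -a i) fun j => by linarith [(abs_le.1 (h j)).1]]
  ring

theorem p_MCS :
    S_MCS := by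
  intro b
  refine ⟨fun y => y.2.2 + ext_mcs2 (fun i => (y.2.1 i - y.1 i).re) y.1 y.2.2 +
    ext_mcs2 (fun i => (y.2.1 i - y.1 i).im) y.1 y.2.2 * Complex.I, ?_, fun σ p p' z => ?_,
    fun p z => by simp [ext_mcs2], fun p p' z w h => ?_, fun p p' h i => ?_⟩
  · unfold ext_mcs2
    refine ((by fun_prop : Continuous fun y : (Fin b → ℂ) × (Fin b → ℂ) × ℂ => y.2.2).add
      (Complex.continuous_ofReal.comp ?_)).add
      ((Complex.continuous_ofReal.comp ?_).mul continuous_const) <;>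
    exact ((cont_mcs2 (by fun_prop) (by fun_prop) (by fun_prop)).sub
      (cont_mcs2 (by fun_prop) (by fun_prop) (by fun_prop))).div_const 2
  · have e : ∀ a : Fin b → ℝ, lo_mcs2 (fun i => a (σ i)) (p ∘ σ) z = lo_mcs2 a p z := fun a =>
      σ.iInf_comp (g := fun i => a i + 1 / 4 * ‖z - p i‖)
    simp only [ext_mcs2, Function.comp_apply]
    rw [e fun i => (p' i - p i).re, e fun i => (p' i - p i).im, e fun i => -(p' i - p i).re,
      e fun i => -(p' i - p i).im]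
  · have h1 := lipe_mcs2 (fun i => (p' i - p i).re) p z w
    have h2 := lipe_mcs2 (fun i => (p' i - p i).im) p z w
    have h3 := congrArg Complex.re h
    have h4 := congrArg Complex.im h
    have h5 := Complex.norm_le_abs_re_add_abs_im (z - w)
    simp only [Complex.add_re, Complex.add_im, Complex.ofReal_re, Complex.ofReal_im,
      Complex.mul_re, Complex.mul_im, Complex.I_re, Complex.I_im, mul_zero, mul_one, add_zero,
      sub_zero] at h3 h4
    rw [← abs_neg, show -(_ - _ : ℝ) = (z - w).re by rw [Complex.sub_re]; linarith] at h1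
    rw [← abs_neg, show -(_ - _ : ℝ) = (z - w).im by rw [Complex.sub_im]; linarith] at h2
    exact sub_eq_zero.1 (norm_le_zero_iff.1 (by linarith))
  · have e : ∀ j, p' i - p i - (p' j - p j) = p' i - p' j - (p i - p j) := fun j => by ring
    simp only
    rw [ate_mcs2 fun j => ?_, ate_mcs2 fun j => ?_, add_assoc, Complex.re_add_im]
    · ring
    · rw [← Complex.sub_im, e]; exact (Complex.abs_im_le_norm _).trans (h i j)
    · rw [← Complex.sub_re, e]; exact (Complex.abs_re_le_norm _).trans (h i j)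

end Pool.Agent.P.MP_ab0431_ag.UB.V2
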