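import Pool.Agent.P.MP_ab0431_ag.UB2.IfaceD2

/-! Steps QUO LFM0 TRX LFM TRA TBOX CRC LFB TBG HFA. -/

set_option autoImplicit false
set_option linter.unusedSectionVars false
set_option linter.unusedVariables false

namespace Pool.Agent.P.MP_ab0431_ag.UB.V2

open Polynomial Set Filter Topology
open scoped Manifold ContDiff

theorem pull_quo2 {T : Type} [TopologicalSpace T] {e : ℕ} {τ₀ : T}
    {Q : ℂ × T → Prop} (h : ∀ᶠ y in 𝓝 ((0 : ℂ), τ₀), Q y) :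
    ∀ᶠ y in 𝓝 ((0 : ℂ), τ₀), ∀ v, v ^ e = y.1 → Q (v, y.2) := by
  obtain ⟨u, hu, w, hw, huw⟩ := mem_nhds_prod_iff.1 h
  obtain ⟨ε, hε, hb⟩ := Metric.mem_nhds_iff.1 hu
  have h1 : Metric.ball (0 : ℂ) (ε ^ e) ×ˢ w ∈ 𝓝 ((0 : ℂ), τ₀) :=
    prod_mem_nhds (Metric.ball_mem_nhds _ (pow_pos hε e)) hw
  filter_upwards [h1] with y hy v hv
  refine huw (mk_mem_prod (hb ?_) hy.2)
  have h2 := hy.1
  rw [mem_ball_zero_iff] at h2 ⊢
  rw [← hv, norm_pow] at h2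
  exact lt_of_pow_lt_pow_left₀ e hε.le h2

theorem p_QUO :
    S_QUO := by
  intro T W _ _ e F τ₀ he h
  have : NeZero e := ⟨he.ne'⟩
  choose root hroot using fun x : ℂ => IsAlgClosed.exists_pow_nat_eq x he
  let π : ℂ × T → ℂ × T := Prod.map (fun v => v ^ e) id
  have hπo : IsOpenMap π := (Complex.isOpenQuotientMap_pow e).isOpenMap.prodMap IsOpenMap.id
  have hπc : Continuous π := (continuous_pow e).prodMap continuous_id
  refine ⟨fun y => F (root y.1, y.2), ?_⟩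
  filter_upwards [pull_quo2 (e := e) (eventually_eventually_nhds.2 h)] with y hy
  have h0 := hy (root y.1) (hroot y.1)
  refine ⟨?_, fun v hv => ?_⟩
  · have e1 : π (root y.1, y.2) = y := Prod.ext (hroot y.1) rfl
    have e2 : 𝓝 y = map π (𝓝 (root y.1, y.2)) := by
      rw [hπo.map_nhds_eq hπc.continuousAt, e1]
    show Tendsto _ (𝓝 y) (𝓝 (F (root y.1, y.2)))
    rw [e2, tendsto_map'_iff]
    refine Tendsto.congr' ?_ h0.self_of_nhds.1
    filter_upwards [h0] with z hz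
    exact (hz.2 (root (z.1 ^ e)) (hroot _)).symm
  · exact (h0.self_of_nhds.2 v (hv.trans (hroot y.1).symm)).symm

end Pool.Agent.P.MP_ab0431_ag.UB.V2

namespace Pool.Agent.P.MP_ab0431_ag.UB.V2

open Polynomial Set Filter Topology
open scoped Manifold ContDiff

theorem rm_lfm02 {b : ℕ} (p p' : Fin b → ℂ) (a a' : ℂ) (h : ∀ i, a' = p' i ↔ a = p i) :
    rootMultiplicity a' (∏ i, (X - C (p' i))) = rootMultiplicity a (∏ i, (X - C (p i))) := by
  classical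
  have key : ∀ (p : Fin b → ℂ) (a : ℂ), rootMultiplicity a (∏ i, (X - C (p i))) =
      (Multiset.filter (fun i => a = p i) Finset.univ.val).card := by
    intro p a
    rw [← count_roots, ← Multiset.count_map]
    congr 1
    rw [← roots_multiset_prod_X_sub_C (Finset.univ.val.map p), Multiset.map_map]
    rfl
  rw [key, key, Multiset.filter_congr fun i _ => h i]

theorem p_LFM0 (hPUISP : S_PUISP) (hPERM : S_PERM) (hLIP : S_LIP) (hMCS : S_MCS) (hQUO : S_QUO) :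
    S_LFM0 := by
  intro b P t₀ z₀ hmon hsep
  obtain ⟨e, z, he, hz, hP⟩ := hPUISP b P t₀ hmon hsep
  obtain ⟨M, m1, m2, m3, m4, m5⟩ := hMCS b
  have hc : Tendsto (fun q : ℂ × ℂ => (q.1 ^ e, q.2)) (𝓝 (0, t₀)) (𝓝 (0, t₀)) := by
    have : Continuous fun q : ℂ × ℂ => (q.1 ^ e, q.2) := by fun_prop
    simpa [he.ne'] using this.tendsto (0, t₀)
  have hall : ∀ᶠ q : ℂ × ℂ in 𝓝 (0, t₀), (∀ i, ContinuousAt (z i) q) ∧
      P (q.1 ^ e, q.2) = ∏ i, (X - C (z i q)) ∧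
      (q.1 ≠ 0 → (∏ i, (X - C (z i q))).Separable) := by
    filter_upwards [eventually_all.2 fun i => (hz i).eventually_continuousAt, hP,
      hc.eventually hsep] with q h1 h2 h3
    exact ⟨h1, h2, fun h => h2 ▸ h3 (pow_ne_zero _ h)⟩
  obtain ⟨δ, hδ, hb⟩ := Metric.eventually_nhds_iff.1 hall
  have hd : ∀ v t : ℂ, ‖v‖ < δ → dist t t₀ < δ → dist (v, t) ((0 : ℂ), t₀) < δ := by
    intro v t h1 h2
    rw [Prod.dist_eq, max_lt_iff, dist_zero_right]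
    exact ⟨h1, h2⟩
  have hd' : ∀ q : ℂ × ℂ, dist q ((0 : ℂ), t₀) < δ → ‖q.1‖ < δ ∧ dist q.2 t₀ < δ := by
    intro q h
    rwa [Prod.dist_eq, max_lt_iff, dist_zero_right] at h
  let F : ℂ × ℂ × ℂ × ℂ → ℂ := fun y =>
    M (fun i => z i (y.1, y.2.1), fun i => z i (y.1, y.2.2.1), y.2.2.2)
  have t1 : Tendsto (fun y : ℂ × ℂ × ℂ × ℂ => (y.1, y.2.1)) (𝓝 (0, t₀, t₀, z₀)) (𝓝 (0, t₀)) :=
    (show Continuous fun y : ℂ × ℂ × ℂ × ℂ => (y.1, y.2.1) by fun_prop).tendsto _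
  have t2 : Tendsto (fun y : ℂ × ℂ × ℂ × ℂ => (y.1, y.2.2.1)) (𝓝 (0, t₀, t₀, z₀)) (𝓝 (0, t₀)) :=
    (show Continuous fun y : ℂ × ℂ × ℂ × ℂ => (y.1, y.2.2.1) by fun_prop).tendsto _
  have t3 : Tendsto (fun y : ℂ × ℂ × ℂ × ℂ => (y.1, y.2.1, y.2.2.1)) (𝓝 (0, t₀, t₀, z₀))
      (𝓝 (0, t₀, t₀)) :=
    (show Continuous fun y : ℂ × ℂ × ℂ × ℂ => (y.1, y.2.1, y.2.2.1) by fun_prop).tendsto _
  have hball : ∀ᶠ q : ℂ × ℂ in 𝓝 (0, t₀), dist q ((0 : ℂ), t₀) < δ := Metric.ball_mem_nhds _ hδ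
  have hconn := (t_CONN (ℂ × ℂ) (Metric.ball (0, t₀) δ) Prod.fst Metric.isOpen_ball
    (convex_ball _ _) differentiableOn_fst ⟨(((δ / 2 : ℝ) : ℂ), t₀), hd _ _ (by
      rw [Complex.norm_real, Real.norm_of_nonneg (by positivity)]; linarith) (by simpa using hδ),
      Complex.ofReal_ne_zero.2 (by positivity)⟩).1
  obtain ⟨Φ, hΦ⟩ := hQUO (ℂ × ℂ × ℂ) ℂ e F (t₀, t₀, z₀) he (by
    filter_upwards [t1.eventually hball, t2.eventually hball] with y h1 h2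
    refine ⟨m1.continuousAt.comp (ContinuousAt.prodMk (continuousAt_pi.2 fun i => ?_)
      (ContinuousAt.prodMk (continuousAt_pi.2 fun i => ?_) (by fun_prop))), fun v hv => ?_⟩
    · exact ContinuousAt.comp (f := fun y : ℂ × ℂ × ℂ × ℂ => (y.1, y.2.1)) ((hb h1).1 i)
        (by fun_prop)
    · exact ContinuousAt.comp (f := fun y : ℂ × ℂ × ℂ × ℂ => (y.1, y.2.2.1)) ((hb h2).1 i)
        (by fun_prop)
    by_cases h0 : y.1 = 0
    · rw [h0, zero_pow he.ne', pow_eq_zero_iff he.ne'] at hv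
      simp only [F, hv, h0]
    have hω : (v / y.1) ^ e = 1 := by rw [div_pow, hv, div_self (pow_ne_zero _ h0)]
    have hn : ‖v / y.1‖ = 1 := Complex.norm_eq_one_of_pow_eq_one hω he.ne'
    have hin : ∀ q : ℂ × ℂ, dist q ((0 : ℂ), t₀) < δ →
        dist (v / y.1 * q.1, q.2) ((0 : ℂ), t₀) < δ := fun q hq =>
      hd _ _ (by rw [norm_mul, hn, one_mul]; exact (hd' q hq).1) (hd' q hq).2
    obtain ⟨σ, hσ⟩ := hPERM (ℂ × ℂ) _ b z (fun i q => z i (v / y.1 * q.1, q.2)) hconn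
      (fun i => ⟨fun q hq => ((hb hq.1).1 i).continuousWithinAt, fun q hq =>
        (ContinuousAt.comp (f := fun q : ℂ × ℂ => (v / y.1 * q.1, q.2)) ((hb (hin q hq.1)).1 i)
          (by fun_prop)).continuousWithinAt⟩)
      (fun q hq => ⟨(hb hq.1).2.2 hq.2, by
        rw [← (hb hq.1).2.1, ← (hb (hin q hq.1)).2.1, mul_pow, hω, one_mul]⟩)
    have e1 := hσ (y.1, y.2.1) ⟨h1, h0⟩
    have e2 := hσ (y.1, y.2.2.1) ⟨h2, h0⟩
    simp only [div_mul_cancel₀ v h0] at e1 e2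
    simp only [F, e1, e2]
    exact m2 σ (fun i => z i (y.1, y.2.1)) (fun i => z i (y.1, y.2.2.1)) _)
  have hlip : ∀ i j, ∀ᶠ y : ℂ × ℂ × ℂ in 𝓝 (0, t₀, t₀),
      ‖z i (y.1, y.2.2) - z j (y.1, y.2.2) - (z i (y.1, y.2.1) - z j (y.1, y.2.1))‖ ≤
        1 / 4 * ‖z i (y.1, y.2.1) - z j (y.1, y.2.1)‖ := by
    intro i j
    by_cases hij : i = j
    · simp [hij]
    refine hLIP (fun q => z i q - z j q) t₀ ((hz i).sub (hz j)) ?_
    filter_upwards [hall] with q hq h0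
    exact sub_ne_zero.2 fun h => hij (separable_prod_X_sub_C_iff.1 (hq.2.2 h0) h)
  have hQ : ∀ᶠ y : ℂ × ℂ × ℂ × ℂ in 𝓝 (0, t₀, t₀, z₀),
      rootMultiplicity (F y) (P (y.1 ^ e, y.2.2.1)) =
        rootMultiplicity y.2.2.2 (P (y.1 ^ e, y.2.1)) := by
    filter_upwards [t1.eventually hP, t2.eventually hP,
      t3.eventually (eventually_all.2 fun i => eventually_all.2 fun j => hlip i j)] with y h1 h2 h3
    rw [h1, h2]
    refine rm_lfm02 _ _ _ _ fun i => ?_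
    rw [← m5 (fun i => z i (y.1, y.2.1)) (fun i => z i (y.1, y.2.2.1)) h3 i]
    exact (m4 _ _).eq_iff
  obtain ⟨η, hη, hq⟩ := Metric.eventually_nhds_iff.1 hQ
  refine ⟨Φ, ?_⟩
  have s1 : ∀ᶠ y : ℂ × ℂ × ℂ × ℂ in 𝓝 (0, t₀, t₀, z₀), dist y.1 0 < η ^ e :=
    continuous_fst.continuousAt.eventually (Metric.ball_mem_nhds _ (pow_pos hη e))
  have s2 : ∀ᶠ y : ℂ × ℂ × ℂ × ℂ in 𝓝 (0, t₀, t₀, z₀), dist y.2 (t₀, t₀, z₀) < η :=
    continuous_snd.continuousAt.eventually (Metric.ball_mem_nhds _ hη)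
  filter_upwards [hΦ, s1, s2] with y h1 h2 h3
  obtain ⟨v, hv⟩ := IsAlgClosed.exists_pow_nat_eq y.1 he
  have h4 := hq (y := (v, y.2)) (by
    rw [Prod.dist_eq, max_lt_iff]
    refine ⟨lt_of_pow_lt_pow_left₀ e hη.le ?_, h3⟩
    rwa [dist_zero_right, ← norm_pow, hv, ← dist_zero_right])
  rw [h1.2 v hv]
  refine ⟨h1.1, by simpa only [hv] using h4, fun h => ?_⟩
  simp only [F, h]
  exact m3 _ _

end Pool.Agent.P.MP_ab0431_ag.UB.V2

namespace Pool.Agent.P.MP_ab0431_ag.UB.V2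

open Polynomial Set Filter Topology
open scoped Manifold ContDiff

theorem coeff_trx2 {b m : ℕ} (c : Co b m → ℂ) (x : ℂ) (j : ℕ) :
    ((toP c).map (evalRingHom x)).coeff j = (if j = b then 1 else 0) +
      ∑ p : Co b m, if (p.1 : ℕ) = j then c p * x ^ (p.2 : ℕ) else 0 := by
  simp only [toP, Polynomial.map_add, Polynomial.map_pow, map_X, Polynomial.map_sum,
    Polynomial.map_monomial, coeff_add, finsetSum_coeff, coeff_monomial, coeff_X_pow,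
    coe_evalRingHom, eval_monomial]

theorem sep_trx2 {b m : ℕ} (c : Co b m → ℂ) (x : ℂ) :
    (Δ b (toP c)).eval x ≠ 0 ↔ ((toP c).map (evalRingHom x)).Separable := by
  have hm := toP_monic c
  rw [← t_DSEP ℂ b ((toP c).map (evalRingHom x)) (hm.map _)
    (by rw [hm.natDegree_map, toP_natDegree]), Δ_map, coe_evalRingHom]

theorem p_TRX :
    S_TRX := by
  intro b m nn N U s H t₀ ht x₀
  have hU := H.isOpen.mem_nhds ht
  have hs : ∀ i, AnalyticAt ℂ (fun t => s t i) t₀ := fun i =>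
    (differentiableOn_pi.1 H.hol i).analyticAt hU
  refine ⟨⟨fun j => ?_, Eventually.of_forall fun q => ⟨(toP_monic _).map _, by
    rw [(toP_monic _).natDegree_map, toP_natDegree]⟩⟩, fun hn => ?_⟩
  · simp only [coeff_trx2]
    refine analyticAt_const.add (Finset.analyticAt_fun_sum _ fun p _ => ?_)
    split_ifs
    · exact ((hs p).comp_of_eq analyticAt_snd rfl).mul (analyticAt_fst.pow _)
    · exact analyticAt_const
  · obtain ⟨ξ, a1, a2, a3⟩ := t_ROOT1 (b * (b - 1)) nn (fun t => Δ b (toP (s t))) t₀ x₀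
      (fun j => by
        simp only [TRD0a.coeff_eq]
        exact AnalyticAt.aeval_mvPolynomial hs _)
      (by
        filter_upwards [hU] with t ht
        obtain ⟨⟨g1, g2⟩, g3⟩ := H.good t ht
        refine ⟨fun e => g2 (by rw [e, coeff_zero]), natDegree_eq_of_le_of_coeff_ne_zero
          (natDegree_le_iff_coeff_eq_zero.2 fun n hn => ?_) g2, g3⟩
        exact (t_TOP ℂ b 1 _ (toP_monic _) (toP_natDegree _) g1).1 n (by rwa [one_mul]))
      (by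
        by_contra h
        exact hn ((sep_trx2 _ _).1 h))
    refine ⟨ξ, a1, a2, ?_⟩
    filter_upwards [a3] with q hq hne
    exact (sep_trx2 _ _).1 fun h => hne (hq h)

end Pool.Agent.P.MP_ab0431_ag.UB.V2

namespace Pool.Agent.P.MP_ab0431_ag.UB.V2

open Polynomial Set Filter Topology
open scoped Manifold ContDiff

theorem shift_lfm2 {b : ℕ} {P : ℂ × ℂ → ℂ[X]} {x₀ t₀ : ℂ} {ξ : ℂ → ℂ} (hP : MonAt b P (x₀, t₀))
    (hξ : AnalyticAt ℂ ξ t₀) (h0 : ξ t₀ = x₀)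
    (hs : ∀ᶠ q : ℂ × ℂ in 𝓝 (x₀, t₀), q.1 ≠ ξ q.2 → (P q).Separable) :
    MonAt b (fun q => P (q.1 + ξ q.2, q.2)) (0, t₀) ∧
      ∀ᶠ q : ℂ × ℂ in 𝓝 (0, t₀), q.1 ≠ 0 → (P (q.1 + ξ q.2, q.2)).Separable := by
  have hξ' : AnalyticAt ℂ (fun q : ℂ × ℂ => ξ q.2) (0, t₀) :=
    AnalyticAt.comp_of_eq hξ analyticAt_snd rfl
  have hm : AnalyticAt ℂ (fun q : ℂ × ℂ => (q.1 + ξ q.2, q.2)) (0, t₀) :=
    (analyticAt_fst.add hξ').prod analyticAt_snd
  have he : (fun q : ℂ × ℂ => (q.1 + ξ q.2, q.2)) (0, t₀) = (x₀, t₀) := by simp [h0]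
  have ht : Tendsto (fun q : ℂ × ℂ => (q.1 + ξ q.2, q.2)) (𝓝 (0, t₀)) (𝓝 (x₀, t₀)) := by
    have := hm.continuousAt.tendsto
    simpa [h0] using this
  refine ⟨⟨fun j => AnalyticAt.comp_of_eq (hP.1 j) hm he, ht.eventually hP.2⟩, ?_⟩
  filter_upwards [ht.eventually hs] with q hq h1
  exact hq (by simpa using h1)

theorem cont_lfm2 (Q : PM) (ξ : ℂ → ℂ) (x : (Q.Y × ℂ) × ℂ) (hx : x.1.1 ∈ (Q.ch 0).source)
    (hξ : ContinuousAt ξ x.1.2) :
    ContinuousAt (fun x : (Q.Y × ℂ) × ℂ =>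
      (Q.ch 0 x.1.1 0 - ξ x.1.2, x.1.2, x.2, Q.ch 0 x.1.1 1)) x := by
  have h1 : ContinuousAt (fun x : (Q.Y × ℂ) × ℂ => Q.ch 0 x.1.1) x :=
    ContinuousAt.comp_of_eq ((Q.ch 0).continuousAt hx) (f := fun x : (Q.Y × ℂ) × ℂ => x.1.1)
      (continuous_fst.comp continuous_fst).continuousAt rfl
  have h2 : ContinuousAt (fun x : (Q.Y × ℂ) × ℂ => x.1.2) x :=
    (continuous_snd.comp continuous_fst).continuousAt
  have h3 : ContinuousAt (fun x : (Q.Y × ℂ) × ℂ => ξ x.1.2) x :=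
    ContinuousAt.comp_of_eq hξ h2 rfl
  exact ((continuousAt_pi.1 h1 0).sub h3).prodMk
    (h2.prodMk (continuous_snd.continuousAt.prodMk (continuousAt_pi.1 h1 1)))

theorem p_LFM (hLFM0 : S_LFM0) (hTRX : S_TRX) (hMUL : S_MUL) :
    S_LFM := by
  intro Q b m nn N U s hS w hw hmu
  obtain ⟨y₀, t₀⟩ := w
  have hWD : ∀ u ∈ U, WD b 1 (toP (s u)) := fun u hu => (hS.good u hu).1.1
  have hy₀ : y₀ ∈ (Q.ch 0).source := mu_src Q _ hmu
  have hm : ∀ u ∈ U, ∀ y ∈ (Q.ch 0).source, muF Q s (y, u) =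
      rootMultiplicity (Q.ch 0 y 1) ((toP (s u)).map (evalRingHom (Q.ch 0 y 0))) :=
    fun u hu y hy => ((hMUL Q b m (s u) (hWD u hu)).1 y hy).2.1
  obtain ⟨hP, hx⟩ := hTRX b m nn N U s hS t₀ hw (Q.ch 0 y₀ 0)
  obtain ⟨ξ, hξ, h0, hs⟩ := hx (fun hsep => by
    have := rootMultiplicity_le_one_of_separable hsep (Q.ch 0 y₀ 1)
    rw [← hm t₀ hw y₀ hy₀] at this
    omega)
  obtain ⟨hP', hs'⟩ := shift_lfm2 hP hξ h0 hs
  obtain ⟨Φ, hΦ⟩ := hLFM0 b _ t₀ (Q.ch 0 y₀ 1) hP' hs'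
  have ht : Tendsto (fun x : (Q.Y × ℂ) × ℂ =>
      (Q.ch 0 x.1.1 0 - ξ x.1.2, x.1.2, x.2, Q.ch 0 x.1.1 1)) (𝓝 ((y₀, t₀), t₀))
      (𝓝 ((0 : ℂ), t₀, t₀, Q.ch 0 y₀ 1)) := by
    have := (cont_lfm2 Q ξ ((y₀, t₀), t₀) hy₀ hξ.continuousAt).tendsto
    simpa [h0] using this
  have e1 : ∀ᶠ x : (Q.Y × ℂ) × ℂ in 𝓝 ((y₀, t₀), t₀), x.1.1 ∈ (Q.ch 0).source :=
    (continuous_fst.comp continuous_fst).continuousAt.eventually
      ((Q.ch 0).open_source.mem_nhds hy₀)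
  have e0 : ∀ᶠ t in 𝓝 t₀, t ∈ U ∧ ContinuousAt ξ t :=
    (show ∀ᶠ t in 𝓝 t₀, t ∈ U from hS.isOpen.mem_nhds hw).and
      (hξ.eventually_analyticAt.mono fun _ h => h.continuousAt)
  have e2 : ∀ᶠ x : (Q.Y × ℂ) × ℂ in 𝓝 ((y₀, t₀), t₀), x.1.2 ∈ U ∧ ContinuousAt ξ x.1.2 :=
    (show Tendsto (fun x : (Q.Y × ℂ) × ℂ => x.1.2) (𝓝 ((y₀, t₀), t₀)) (𝓝 t₀) from
      (continuous_snd.comp continuous_fst).continuousAt).eventually e0
  have e3 : ∀ᶠ x : (Q.Y × ℂ) × ℂ in 𝓝 ((y₀, t₀), t₀), x.2 ∈ U ∧ ContinuousAt ξ x.2 :=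
    (show Tendsto (fun x : (Q.Y × ℂ) × ℂ => x.2) (𝓝 ((y₀, t₀), t₀)) (𝓝 t₀) from
      continuous_snd.continuousAt).eventually e0
  have htg : ∀ v : C2, v ∈ (Q.ch 0).target := fun v => by rw [Q.ch_tgt]; trivial
  have main : ∀ᶠ x : (Q.Y × ℂ) × ℂ in 𝓝 ((y₀, t₀), t₀),
      (ContinuousAt (fun x : (Q.Y × ℂ) × ℂ => ((Q.ch 0).symm
        ![Q.ch 0 x.1.1 0 - ξ x.1.2 + ξ x.2,
          Φ (Q.ch 0 x.1.1 0 - ξ x.1.2, x.1.2, x.2, Q.ch 0 x.1.1 1)], x.2)) x ∧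
      muF Q s ((Q.ch 0).symm ![Q.ch 0 x.1.1 0 - ξ x.1.2 + ξ x.2,
          Φ (Q.ch 0 x.1.1 0 - ξ x.1.2, x.1.2, x.2, Q.ch 0 x.1.1 1)], x.2) = muF Q s x.1) ∧
      (x.2 = x.1.2 → (Q.ch 0).symm ![Q.ch 0 x.1.1 0 - ξ x.1.2 + ξ x.2,
          Φ (Q.ch 0 x.1.1 0 - ξ x.1.2, x.1.2, x.2, Q.ch 0 x.1.1 1)] = x.1.1) := by
    filter_upwards [e1, e2, e3, ht.eventually hΦ] with x h1 h2 h3 h4
    obtain ⟨c1, c2, c3⟩ := h4
    have g := cont_lfm2 Q ξ x h1 h2.2
    refine ⟨⟨?_, ?_⟩, fun h => ?_⟩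
    · refine ContinuousAt.prodMk ?_ continuous_snd.continuousAt
      refine ContinuousAt.comp_of_eq ((Q.ch 0).continuousAt_symm (htg _)) ?_ rfl
      refine continuousAt_pi.2 fun i => ?_
      fin_cases i
      · exact (continuousAt_fst.comp g).add
          (ContinuousAt.comp_of_eq h3.2 continuous_snd.continuousAt rfl)
      · have c5 := ContinuousAt.comp_of_eq c1 g rfl
        exact c5
    · rw [hm _ h3.1 _ ((Q.ch 0).map_target (htg _)), (Q.ch 0).right_inv (htg _),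
        show x.1 = (x.1.1, x.1.2) from rfl, hm _ h2.1 _ h1]
      simpa using c2
    · have c4 := c3 h
      rw [c4, h, sub_add_cancel]
      have : ![Q.ch 0 x.1.1 0, Q.ch 0 x.1.1 1] = Q.ch 0 x.1.1 := by
        funext i; fin_cases i <;> rfl
      rw [this, (Q.ch 0).left_inv h1]
  refine ⟨fun x => ((Q.ch 0).symm ![Q.ch 0 x.1.1 0 - ξ x.1.2 + ξ x.2,
          Φ (Q.ch 0 x.1.1 0 - ξ x.1.2, x.1.2, x.2, Q.ch 0 x.1.1 1)], x.2), ?_, ?_⟩
  · filter_upwards [main] with x hx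
    exact ⟨hx.1.1, hx.1.2, rfl⟩
  · have hd : Tendsto (fun w : Q.Y × ℂ => (w, w.2)) (𝓝 (y₀, t₀)) (𝓝 ((y₀, t₀), t₀)) :=
      (continuous_id.prodMk continuous_snd).continuousAt
    filter_upwards [hd.eventually main] with w hw'
    exact Prod.ext (hw'.2 rfl) rfl

end Pool.Agent.P.MP_ab0431_ag.UB.V2

namespace Pool.Agent.P.MP_ab0431_ag.UB.V2

open Polynomial Set Filter Topology
open scoped Manifold ContDiff

theorem nsep_tra2 {F : ℂ[X][X]} {x z : ℂ} (e1 : F.evalEval x z = 0)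
    (e2 : F.derivative.evalEval x z = 0) : ¬(F.map (evalRingHom x)).Separable := fun h =>
  h.aeval_derivative_ne_zero (x := z) (by simpa [map_evalRingHom_eval] using e1)
    (by simpa [derivative_map, map_evalRingHom_eval] using e2)

theorem mult_tra2 {F : ℂ[X][X]} {x z : ℂ} (hF : F.Monic) (e1 : F.evalEval x z = 0)
    (e2 : F.derivative.evalEval x z = 0) (e3 : F.derivative.derivative.evalEval x z = 0) :
    2 < rootMultiplicity z (F.map (evalRingHom x)) := by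
  refine (lt_rootMultiplicity_iff_isRoot_iterate_derivative (hF.map _).ne_zero).2 fun k hk => ?_
  rw [iterate_derivative_map, IsRoot, map_evalRingHom_eval]
  obtain rfl | rfl | rfl : k = 0 ∨ k = 1 ∨ k = 2 := by omega
  exacts [e1, e2, e3]

open TRAa in
theorem p_TRA (hTRX : S_TRX) :
    S_TRA := by
  intro b m nn N U s H t₀ ht v hv hm
  obtain ⟨Q⟩ := t_PMEX
  have hB := fun t (h : t ∈ U) => (t_BCF Q b m (s t) (H.good t h).1.1).2.2
  obtain ⟨g1, g2⟩ := (H.good t₀ ht).1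
  by_cases h0 : v 0 = 0
  · by_cases h1 : v 1 = 0
    · refine ⟨2, ![0, 0], v 2, ?_, ?_⟩
      · rw [ins2]; ext i; fin_cases i <;> simp [h0, h1]
      simp only [ins2]
      exact t_TRIV0 (fun q => hom b (toP (s q.2.2)) ![q.2.1, q.1, 1]) (![0, 0], t₀)
        (ana H.isOpen H.hol ht fun i => by
          fin_cases i; exacts [an21, analyticAt_fst, analyticAt_const])
        (.inl ((hB t₀ ht).2.2.1.trans_ne one_ne_zero))
    refine ⟨1, ![0, v 2 / v 1], v 1, ?_, ?_⟩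
    · rw [ins1]; ext i; fin_cases i <;> simp [h0, mul_div_cancel₀ _ h1]
    simp only [ins1]
    have ha : AnalyticAt ℂ (fun q : ℂ × ℂ × ℂ => hom b (toP (s q.2.2)) ![q.2.1, 1, q.1])
        (v 2 / v 1, 0, t₀) := ana H.isOpen H.hol ht fun i => by
      fin_cases i; exacts [an21, analyticAt_const, analyticAt_fst]
    refine t_TRIV0 _ (![0, v 2 / v 1], t₀) ha ?_
    have a1 : (top b 1 (toP (s t₀))).natDegree ≤ b :=
      natDegree_le_iff_coeff_eq_zero.2 fun j hj => by rw [top_coeff, if_neg (by omega)]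
    have a2 : (top b 1 (toP (s t₀))).coeff b = 1 := by
      have := (toP_monic (s t₀)).coeff_natDegree
      rw [toP_natDegree] at this
      simp [top_coeff, this]
    have a3 := (t_TOP ℂ b 1 _ (toP_monic _) (toP_natDegree _) g1).2
    rw [one_mul] at a3
    obtain ⟨f, g, e⟩ := (t_DSEP ℂ b _ (monic_of_natDegree_le_of_coeff_eq_one _ a1 a2)
      (natDegree_eq_of_le_of_coeff_ne_zero a1 (a2.trans_ne one_ne_zero))).1 (a3 ▸ g2)
    by_contra! h
    have := congrArg (eval (v 2 / v 1)) e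
    rw [eval_add, eval_mul, eval_mul, ← dz_poly ha (hB t₀ ht).2.1, ← (hB t₀ ht).2.1] at this
    erw [h.1, h.2.1] at this
    simp at this
  refine ⟨0, ![v 1 / v 0, v 2 / v 0], v 0, ?_, ?_⟩
  · rw [ins0]; ext i; fin_cases i <;> simp [mul_div_cancel₀ _ h0]
  simp only [ins0]
  have ha : ∀ q : ℂ × ℂ × ℂ, q.2.2 ∈ U →
      AnalyticAt ℂ (fun q : ℂ × ℂ × ℂ => hom b (toP (s q.2.2)) ![1, q.2.1, q.1]) q := fun q hq =>
    ana H.isOpen H.hol hq fun i => by fin_cases i; exacts [analyticAt_const, an21, analyticAt_fst]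
  have d1 : ∀ z x t, t ∈ U → dz (fun q : ℂ × ℂ × ℂ => hom b (toP (s q.2.2)) ![1, q.2.1, q.1])
      (z, x, t) = ((toP (s t)).derivative.map (evalRingHom x)).eval z := fun z x t h => by
    rw [dz_poly (ha (z, x, t) h) (f := (toP (s t)).map (evalRingHom x))
      fun y => ((hB t h).1 x y).trans (map_evalRingHom_eval _ _ _).symm, derivative_map]
  refine t_TRIV0 _ (![v 1 / v 0, v 2 / v 0], t₀) (ha _ ht) ?_
  change _ ≠ 0 ∨ dz _ (v 2 / v 0, v 1 / v 0, t₀) ≠ 0 ∨ dz _ (v 2 / v 0, v 1 / v 0, t₀) ≠ 0 ∧ _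
  rw [dz_poly (analyticAt_dz (ha (_, _, t₀) ht)) fun y => d1 y _ t₀ ht, d1 _ _ _ ht, derivative_map,
    map_evalRingHom_eval, map_evalRingHom_eval]
  refine or_iff_not_imp_left.2 fun e1 => or_iff_not_imp_left.2 fun e2 => ?_
  replace e1 := ((hB t₀ ht).1 _ _).symm.trans (not_not.1 e1)
  replace e2 := not_not.1 e2
  obtain ⟨ξ, b1, b2, b3⟩ := (hTRX b m nn N U s H t₀ ht (v 1 / v 0)).2 (nsep_tra2 e1 e2)
  refine ⟨fun e3 => absurd (hm h0) (not_le.2 (mult_tra2 (toP_monic _) e1 e2 e3)), ξ, b1, b2, ?_⟩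
  filter_upwards [continuous_snd.continuousAt.eventually b3,
    (continuous_snd.comp continuous_snd).continuousAt.eventually
    (H.isOpen.mem_nhds ht)] with q c1 c2 c3 c4
  by_contra c5
  exact nsep_tra2 (((hB _ c2).1 _ _).symm.trans c3)
    ((map_evalRingHom_eval _ _ _).symm.trans ((d1 _ _ _ c2).symm.trans c4)) (c1 c5)

end Pool.Agent.P.MP_ab0431_ag.UB.V2

namespace Pool.Agent.P.MP_ab0431_ag.UB.V2

open Polynomial Set Filter Topology
open scoped Manifold ContDiff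

theorem p_TBOX (hTRA : S_TRA) (hMUL : S_MUL) :
    S_TBOX := by
  intro Q b m nn N U s hS w hw hmu
  obtain ⟨v, v0, hv⟩ := Q.surj w.1
  obtain ⟨i, x, a, e, h⟩ := hTRA b m nn N U s hS w.2 hw v v0 fun h0 => by
    have g1 : w.1 ∈ (Q.ch 0).source := hv ▸ (Q.ch_src 0 v v0).2 h0
    have g2 := (((hMUL Q b m _ (hS.good _ hw).1.1).1 w.1 g1).2.1).symm.trans_le hmu
    rw [← hv, Q.ch_app 0 v h0] at g2
    exact g2
  have n0 : ∀ x : C2, (i.insertNth 1 x : Fin 3 → ℂ) ≠ 0 := fun x e => by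
    simpa using congrFun e i
  have h1 : (Q.ch i).symm x = w.1 := by
    rw [Q.ch_symm, ← hv]
    exact (Q.eq_iff _ _ (n0 x) v0).2 ⟨a, e⟩
  have h2 : x ∈ (Q.ch i).target := Q.ch_tgt i ▸ mem_univ _
  refine TBOXa.box (Q.ch_mem i) (Q.ch_tgt i) hS.isOpen (fun y y1 y2 => ?_)
    (h1 ▸ (Q.ch i).map_target h2) hw (by rwa [← h1, (Q.ch i).right_inv h2])
  rw [← (t_BCF Q b m _ (hS.good _ y2).1.1).1 _ (n0 _), ← Q.ch_symm, (Q.ch i).left_inv y1]
  rfl

end Pool.Agent.P.MP_ab0431_ag.UB.V2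

namespace Pool.Agent.P.MP_ab0431_ag.UB.V2

open Polynomial Set Filter Topology
open scoped Manifold ContDiff

theorem rb_crc2 {T : Type} (l : Filter T) (P : T → ℂ[X]) (d : ℕ) {δ : ℝ} (hδ : 0 < δ)
    (hd : ∀ᶠ t in l, (P t).natDegree = d ∧ δ ≤ ‖(P t).coeff d‖)
    (hA : ∀ j, ∃ A, ∀ᶠ t in l, ‖(P t).coeff j‖ ≤ A) :
    ∃ R, ∀ᶠ t in l, ∀ x, (P t).eval x = 0 → ‖x‖ ≤ R := by
  choose A hA using hA
  refine ⟨(∑ j ∈ Finset.range d, |A j|) / δ + 1, ?_⟩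
  filter_upwards [hd, (Finset.range d).eventually_all.2 fun j _ => hA j] with t h1 h2 x hx
  have h0 : P t ≠ 0 := fun e => by
    rw [e, coeff_zero, norm_zero] at h1
    exact absurd h1.2 (not_le.2 hδ)
  have h3 : ‖x‖ < ((P t).cauchyBound : ℝ) := IsRoot.norm_lt_cauchyBound h0 hx
  refine h3.le.trans ?_
  have hs : 0 ≤ ∑ j ∈ Finset.range d, |A j| := Finset.sum_nonneg fun j _ => abs_nonneg _
  rw [cauchyBound, leadingCoeff, h1.1]
  push_cast
  refine add_le_add_left (div_le_div₀ hs ?_ hδ h1.2) _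
  refine (NNReal.coe_le_coe (r₂ := ⟨_, hs⟩)).2 (Finset.sup_le fun j hj => ?_)
  exact ((h2 j hj).trans (le_abs_self _)).trans
    (Finset.single_le_sum (f := fun j => |A j|) (fun j _ => abs_nonneg _) hj)

theorem cf_crc2 {b m : ℕ} (j : ℕ) :
    Continuous fun q : (Co b m → ℂ) × ℂ => ((toP q.1).coeff j).eval q.2 := by
  simp only [toP, coeff_add, finsetSum_coeff, coeff_monomial, coeff_X_pow, eval_add,
    eval_finsetSum, apply_ite (eval _), eval_monomial, eval_one, eval_zero]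
  refine continuous_const.add (continuous_finsetSum _ fun p _ => ?_)
  split_ifs <;> fun_prop

theorem ev_crc2 {b m : ℕ} :
    Continuous fun q : (Co b m → ℂ) × C2 => (toP q.1).evalEval (q.2 0) (q.2 1) := by
  simp only [toP, evalEval, eval_add, eval_finsetSum, eval_monomial, eval_pow, eval_X, eval_C,
    eval_mul]
  fun_prop

theorem dv_crc2 {b m : ℕ} :
    Continuous fun q : (Co b m → ℂ) × C2 => (toP q.1).derivative.evalEval (q.2 0) (q.2 1) := by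
  simp only [toP, evalEval, derivative_add, derivative_sum, derivative_X_pow, derivative_monomial,
    eval_add, eval_finsetSum, eval_monomial, eval_pow, eval_X, eval_C, eval_mul, eval_natCast]
  fun_prop

theorem bd_crc2 {b m nn N : ℕ} {U : Set ℂ} {s : ℂ → Co b m → ℂ} (H : Strip nn N U s) {t₀ : ℂ}
    (ht : t₀ ∈ U) : ∃ R, ∀ᶠ t in 𝓝 t₀, ∀ u : C2, (toP (s t)).evalEval (u 0) (u 1) = 0 →
      (toP (s t)).derivative.evalEval (u 0) (u 1) = 0 → ‖u‖ ≤ R := by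
  have hU := H.isOpen.mem_nhds ht
  have hs : ContinuousAt s t₀ := H.hol.continuousOn.continuousAt hU
  have hc : ∀ j, ContinuousAt (fun t => ‖(Δ b (toP (s t))).coeff j‖) t₀ := fun j => by
    simp only [TRD0a.coeff_eq, MvPolynomial.aeval_eq_eval]
    exact ((MvPolynomial.continuous_eval _).continuousAt.comp hs).norm
  have h0 : 0 < ‖(Δ b (toP (s t₀))).coeff (b * (b - 1))‖ := norm_pos_iff.2 (H.good t₀ ht).1.2
  obtain ⟨R, hR⟩ := rb_crc2 (𝓝 t₀) (fun t => Δ b (toP (s t))) (b * (b - 1)) (half_pos h0) (by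
      filter_upwards [hU, (hc _).eventually (le_mem_nhds (half_lt_self h0))] with t h1 h2
      obtain ⟨⟨g1, g2⟩, -⟩ := H.good t h1
      exact ⟨natDegree_eq_of_le_of_coeff_ne_zero (natDegree_le_iff_coeff_eq_zero.2 fun n hn =>
        (t_TOP ℂ b 1 _ (toP_monic _) (toP_natDegree _) g1).1 n (by rwa [one_mul])) g2, h2⟩)
    fun j => ⟨_, (hc j).eventually (ge_mem_nhds (lt_add_one _))⟩
  have hK : IsCompact (Metric.closedBall (s t₀) 1 ×ˢ Metric.closedBall (0 : ℂ) R) :=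
    (isCompact_closedBall _ _).prod (isCompact_closedBall _ _)
  obtain ⟨R', hR'⟩ := rb_crc2 (𝓟 (Metric.closedBall (s t₀) 1 ×ˢ Metric.closedBall (0 : ℂ) R))
    (fun q => (toP q.1).map (evalRingHom q.2)) b one_pos
    (Eventually.of_forall fun q => by
      have h1 := (toP_monic q.1).map (evalRingHom q.2)
      have h2 := ((toP_monic q.1).natDegree_map (evalRingHom q.2)).trans (toP_natDegree q.1)
      have h3 := h1.coeff_natDegree
      rw [h2] at h3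
      exact ⟨h2, by rw [h3, norm_one]⟩)
    fun j => by
      simp only [coeff_map, coe_evalRingHom]
      exact hK.exists_bound_of_continuousOn (cf_crc2 j).continuousOn
  refine ⟨max (max R R') 0, ?_⟩
  filter_upwards [hR, hs.eventually (Metric.closedBall_mem_nhds _ one_pos)] with t h1 h2 u a1 a2
  have b1 := h1 _ (TRD0a.root t_DSEP _ a1 a2)
  have b2 := eventually_principal.1 hR' (s t, u 0) ⟨h2, mem_closedBall_zero_iff.2 b1⟩ (u 1)
    ((map_evalRingHom_eval _ _ _).trans a1)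
  refine (pi_norm_le_iff_of_nonneg (le_max_right _ _)).2 (Fin.forall_fin_two.2 ⟨?_, ?_⟩)
  · exact b1.trans ((le_max_left _ _).trans (le_max_left _ _))
  · exact b2.trans ((le_max_right _ _).trans (le_max_left _ _))

theorem p_CRC (hMUL : S_MUL) :
    S_CRC := by
  intro Q b m nn N U s H
  rw [isOpen_iff_mem_nhds]
  rintro w₀ ⟨hU, hμ⟩
  have hU' : ∀ᶠ w : Q.Y × ℂ in 𝓝 w₀, w.2 ∈ U :=
    continuous_snd.continuousAt.eventually (H.isOpen.mem_nhds hU)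
  have key : ∀ w : Q.Y × ℂ, w.2 ∈ U → w.1 ∈ (Q.ch 0).source → (1 < muF Q s w ↔
      (toP (s w.2)).evalEval (Q.ch 0 w.1 0) (Q.ch 0 w.1 1) = 0 ∧
      (toP (s w.2)).derivative.evalEval (Q.ch 0 w.1 0) (Q.ch 0 w.1 1) = 0) := fun w h1 h2 =>
    ((hMUL Q b m (s w.2) (H.good _ h1).1.1).1 w.1 h2).2.2
  suffices h : ∀ᶠ w : Q.Y × ℂ in 𝓝 w₀, w.1 ∈ (Q.ch 0).source →
      ¬((toP (s w.2)).evalEval (Q.ch 0 w.1 0) (Q.ch 0 w.1 1) = 0 ∧
      (toP (s w.2)).derivative.evalEval (Q.ch 0 w.1 0) (Q.ch 0 w.1 1) = 0) by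
    filter_upwards [h, hU'] with w h1 h2
    refine ⟨h2, not_lt.1 fun h3 => ?_⟩
    have h4 := mu_src Q _ h3
    exact h1 h4 ((key w h2 h4).1 h3)
  by_cases h0 : w₀.1 ∈ (Q.ch 0).source
  · have hc : ContinuousAt (fun w : Q.Y × ℂ => (s w.2, Q.ch 0 w.1)) w₀ :=
      ((H.hol.continuousOn.continuousAt (H.isOpen.mem_nhds hU)).comp
        continuous_snd.continuousAt).prodMk
        (((Q.ch 0).continuousAt h0).comp continuous_fst.continuousAt)
    rcases not_and_or.1 (mt (key w₀ hU h0).2 (not_lt.2 hμ)) with h | h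
    · exact ((ev_crc2.continuousAt.comp hc).eventually_ne h).mono fun w a _ e => a e.1
    · exact ((dv_crc2.continuousAt.comp hc).eventually_ne h).mono fun w a _ e => a e.2
  · obtain ⟨R, hR⟩ := bd_crc2 H hU
    have hK : IsClosed ((Q.ch 0).symm '' Metric.closedBall 0 R) :=
      ((isCompact_closedBall _ _).image_of_continuousOn ((Q.ch 0).continuousOn_symm.mono
        (Q.ch_tgt 0 ▸ subset_univ _))).isClosed
    have hn : w₀.1 ∈ ((Q.ch 0).symm '' Metric.closedBall 0 R)ᶜ := by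
      rintro ⟨u, -, e⟩
      exact h0 (e ▸ (Q.ch 0).map_target (Q.ch_tgt 0 ▸ mem_univ u))
    filter_upwards [continuous_fst.continuousAt.eventually (hK.isOpen_compl.mem_nhds hn),
      continuous_snd.continuousAt.eventually hR] with w a1 a2 a3 a4
    exact a1 ⟨_, mem_closedBall_zero_iff.2 (a2 _ a4.1 a4.2), (Q.ch 0).left_inv a3⟩

end Pool.Agent.P.MP_ab0431_ag.UB.V2

namespace Pool.Agent.P.MP_ab0431_ag.UB.V2

open Polynomial Set Filter Topology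
open scoped Manifold ContDiff

theorem gen_lfb2 {Y : Type} [TopologicalSpace Y] (μ : Y × ℂ → ℕ) (B O : Set (Y × ℂ)) (A : Set Y)
    (Ψ : OpenPartialHomeomorph (Y × ℂ) (Y × ℂ)) (hO : IsOpen O) (h1 : ∀ w ∈ O, μ w ≤ 1)
    (hp : ∀ w, 0 < μ w ↔ w ∈ B) (hf : ∀ w ∈ Ψ.source, (Ψ w).2 = w.2)
    (hb : ∀ w ∈ Ψ.source, (w ∈ B ↔ (Ψ w).1 ∈ A)) (w : Y × ℂ) (hw : w ∈ Ψ.source) (hwO : w ∈ O) :
    LocFlow μ w := by
  let g : (Y × ℂ) × ℂ → Y × ℂ := fun x => ((Ψ x.1).1, x.2)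
  have hg : ∀ x : (Y × ℂ) × ℂ, x.1 ∈ Ψ.source → ContinuousAt g x := fun x hx =>
    (continuousAt_fst.comp ((Ψ.continuousAt hx).comp continuousAt_fst)).prodMk continuousAt_snd
  have hg0 : ∀ v ∈ Ψ.source, g (v, v.2) = Ψ v := fun v hv => Prod.ext rfl (hf v hv).symm
  have hc : ∀ x : (Y × ℂ) × ℂ, x.1 ∈ Ψ.source → g x ∈ Ψ.target →
      ContinuousAt (fun x => Ψ.symm (g x)) x := fun x hx hx' =>
    ContinuousAt.comp (f := g) (Ψ.continuousAt_symm hx') (hg x hx)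
  have ht : g (w, w.2) ∈ Ψ.target := by rw [hg0 w hw]; exact Ψ.map_source hw
  have e1 : ∀ᶠ x : (Y × ℂ) × ℂ in 𝓝 (w, w.2), x.1 ∈ Ψ.source ∩ O :=
    continuousAt_fst.eventually ((Ψ.open_source.inter hO).mem_nhds ⟨hw, hwO⟩)
  have e2 : ∀ᶠ x : (Y × ℂ) × ℂ in 𝓝 (w, w.2), g x ∈ Ψ.target :=
    (hg _ hw).eventually (Ψ.open_target.mem_nhds ht)
  have e3 : ∀ᶠ x : (Y × ℂ) × ℂ in 𝓝 (w, w.2), Ψ.symm (g x) ∈ O :=
    (hc _ hw ht).eventually (hO.mem_nhds (by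
      show Ψ.symm (g (w, w.2)) ∈ O
      rw [hg0 w hw, Ψ.left_inv hw]; exact hwO))
  refine ⟨fun x => Ψ.symm (g x), ?_, ?_⟩
  · filter_upwards [e1, e2, e3] with x hx hx' hx''
    have hs := Ψ.map_target hx'
    have hr := Ψ.right_inv hx'
    refine ⟨hc x hx.1 hx', ?_, ?_⟩
    · have a1 := hb _ hs
      rw [hr, ← hp] at a1
      have a2 := hb _ hx.1
      rw [← hp] at a2
      have a3 : 0 < μ (Ψ.symm (g x)) ↔ 0 < μ x.1 := a1.trans a2.symm
      have a4 := h1 _ hx''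
      have a5 := h1 _ hx.2
      omega
    · rw [← hf _ hs, hr]
  · filter_upwards [Ψ.open_source.mem_nhds hw] with v hv
    rw [hg0 v hv, Ψ.left_inv hv]

theorem p_LFB (hTBOX : S_TBOX) (hCRC : S_CRC) :
    S_LFB := by
  intro Q b m nn N U s hS w hw hμ
  obtain ⟨Ψ, hΨ, hs⟩ := hTBOX Q b m nn N U s hS w hw (by omega)
  obtain ⟨A, hA⟩ := hΨ.bb
  exact gen_lfb2 (muF Q s) (Fam Q s) _ A Ψ (hCRC Q b m nn N U s hS) (fun _ h => h.2)
    (muF_pos Q s) hΨ.fs hA w hs ⟨hw, hμ⟩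

end Pool.Agent.P.MP_ab0431_ag.UB.V2

namespace Pool.Agent.P.MP_ab0431_ag.UB.V2

open Polynomial Set Filter Topology
open scoped Manifold ContDiff

theorem p_TBG (hTRANS : S_TRANS) (hLFM : S_LFM) (hLFB : S_LFB) :
    S_TBG := by
  intro Q b m nn N U s hS
  obtain ⟨K, V, k1, k2, k3, v1, v2, v3, v4⟩ := DMAINa.strip hS.isOpen hS.seg
  obtain ⟨G, g1, g2⟩ := hTRANS Q.Y (muF Q s) K k1 k2 fun w hw =>
    (le_or_gt (muF Q s w) 1).elim (hLFB Q b m nn N U s hS w (k3 hw))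
      (hLFM Q b m nn N U s hS w (k3 hw))
  refine ⟨V, G, ⟨⟨v1, fun x h0 h1 => ?_, hS.hol.mono (v3.trans k3),
    fun u hu => hS.good u (k3 (v3 hu))⟩, v2, g1, fun x a c => g2 x (v3 a) (v3 c)⟩, v4⟩
  have hx : x = 0 := le_antisymm (by simpa using h1) h0
  subst hx
  simpa using v4 0

end Pool.Agent.P.MP_ab0431_ag.UB.V2

namespace Pool.Agent.P.MP_ab0431_ag.UB.V2

open Polynomial Set Filter Topology
open scoped Manifold ContDiff

theorem ana_hfa2 {b m : ℕ} {U : Set ℂ} {s : ℂ → Co b m → ℂ} (hU : IsOpen U)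
    (hs : DifferentiableOn ℂ s U) {V : C2 × ℂ → Fin 3 → ℂ} {q : C2 × ℂ} (hq : q.2 ∈ U)
    (hV : ∀ i, AnalyticAt ℂ (fun y => V y i) q) :
    AnalyticAt ℂ (fun y => hom b (toP (s y.2)) (V y)) q := by
  have h1 : ∀ p, AnalyticAt ℂ (fun y : C2 × ℂ => s y.2 p) q := fun p =>
    (analyticAt_pi_iff.1 (hs.analyticAt (hU.mem_nhds hq)) p).comp (f := fun y : C2 × ℂ => y.2)
      analyticAt_snd
  simp only [hom, toP_coeff]
  refine Finset.analyticAt_fun_sum _ fun j _ => Finset.analyticAt_fun_sum _ fun l _ =>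
    ((AnalyticAt.mul (analyticAt_const.add (Finset.analyticAt_fun_sum _ fun p _ => ?_))
      ((hV 0).pow _)).mul ((hV 1).pow _)).mul ((hV 2).pow _)
  split_ifs
  exacts [h1 p, analyticAt_const]

theorem ins_hfa2 (i j : Fin 3) (q : C2 × ℂ) :
    AnalyticAt ℂ (fun y : C2 × ℂ => (i.insertNth 1 y.1 : Fin 3 → ℂ) j) q := by
  induction j using Fin.succAboveCases i with
  | x => simp only [Fin.insertNth_apply_same]; exact analyticAt_const
  | p j =>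
    simp only [Fin.insertNth_apply_succAbove]
    exact analyticAt_pi_iff.1 analyticAt_fst j

theorem md_hfa2 (Q : PM) (i : Fin 3) {U : Set ℂ} {H : C2 × ℂ → ℂ}
    (h : ∀ u : C2 × ℂ, u.2 ∈ U → AnalyticAt ℂ H u) :
    MDifferentiableOn 𝓘(ℂ, C2 × ℂ) 𝓘(ℂ, ℂ) (fun w : Q.Y × ℂ => H (Q.ch i w.1, w.2))
      (((Q.ch i).prod (OpenPartialHomeomorph.refl ℂ)).source ∩ Prod.snd ⁻¹' U) := by
  have h1 : DifferentiableOn ℂ H (Prod.snd ⁻¹' U) := fun u hu =>
    (h u hu).differentiableAt.differentiableWithinAt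
  exact h1.mdifferentiableOn.comp ((TBOXa.bi (Q.ch_mem i)).hol.mono inter_subset_left)
    fun w hw => hw.2

theorem p_HFA :
    S_HFA := by
  intro Q b m nn N U s H
  have hB := fun t (h : t ∈ U) => t_BCF Q b m (s t) (H.good t h).1.1
  have hA : ∀ u : C2 × ℂ, u.2 ∈ U → AnalyticAt ℂ (Df s) u := by
    intro u hu
    refine (ana_hfa2 H.isOpen H.hol hu (ins_hfa2 0 · u)).congr ?_
    filter_upwards [continuous_snd.continuousAt.eventually (H.isOpen.mem_nhds hu)] with y hy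
    rw [TRAa.ins0]
    exact (hB _ hy).2.2.1 _ _
  refine ⟨fun u hu => ⟨hA u hu, ?_⟩, md_hfa2 Q 0 hA, fun w hw => ?_⟩
  · have h1 : HasDerivAt (fun z : ℂ => ((Function.update u.1 1 z, u.2) : C2 × ℂ))
        (Pi.single 1 1, 0) (u.1 1) :=
      (hasDerivAt_update u.1 1 (u.1 1)).prodMk (hasDerivAt_const _ _)
    have h2 := (hA u hu).differentiableAt.hasFDerivAt.comp_hasDerivAt_of_eq (u.1 1) h1 (by simp)
    have h3 : (Df s ∘ fun z : ℂ => ((Function.update u.1 1 z, u.2) : C2 × ℂ)) =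
        fun z => ((toP (s u.2)).map (evalRingHom (u.1 0))).eval z := by
      funext z
      simp [Df, Dc, map_evalRingHom_eval]
    rw [h3] at h2
    rw [h2.unique (Polynomial.hasDerivAt _ _), derivative_map, map_evalRingHom_eval]
  · obtain ⟨v, hv, e⟩ := Q.surj w.1
    obtain ⟨i, hi⟩ := Function.ne_iff.1 hv
    refine ⟨((Q.ch i).prod (OpenPartialHomeomorph.refl ℂ)).source ∩ Prod.snd ⁻¹' U,
      fun w => hom b (toP (s w.2)) (i.insertNth 1 (Q.ch i w.1)),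
      (OpenPartialHomeomorph.open_source _).inter (H.isOpen.preimage continuous_snd),
      ⟨⟨e ▸ (Q.ch_src i v hv).2 hi, trivial⟩, hw⟩,
      md_hfa2 Q i (H := fun y => hom b (toP (s y.2)) (i.insertNth 1 y.1)) fun u hu =>
        ana_hfa2 H.isOpen H.hol hu (ins_hfa2 i · u), fun y hy => ?_⟩
    have h1 : (i.insertNth 1 (Q.ch i y.1) : Fin 3 → ℂ) ≠ 0 := fun e => by
      simpa using congrFun e i
    have h2 := (hB _ hy.2).1 _ h1
    rwa [← Q.ch_symm, (Q.ch i).left_inv hy.1.1] at h2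

end Pool.Agent.P.MP_ab0431_ag.UB.V2
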