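import Pool.Agent.P.MP_ab0431_ag.UB2.IfaceD
import Pool.Agent.P.MP_ab0431_ag.UB2.IfaceD2

/-! Steps UBX UNIB UBT MOS MOC CVB CVM WM SM0. -/

set_option autoImplicit false
set_option linter.unusedSectionVars false
set_option linter.unusedVariables false

namespace Pool.Agent.P.MP_ab0431_ag.UB.V2

open Polynomial Set Filter Topology
open scoped Manifold ContDiff

theorem p_UBX :
    S_UBX := by
  intro E T _ _ _ _ F B O hO hZ hc z hz
  have ho : IsOpen (F.π ⁻¹' O) := hO.preimage F.hol.continuous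
  refine ⟨hc z hz, (t_XT0 E ℂ F.Z (F.π ⁻¹' O) (F.π ⁻¹' B) z ho hz
    (hZ.pull ho F.hol.mdifferentiableOn fun _ h => h) fun w hw => ?_).1⟩
  exact ho.inter_closure ⟨hw, hc w hw⟩

end Pool.Agent.P.MP_ab0431_ag.UB.V2

namespace Pool.Agent.P.MP_ab0431_ag.UB.V2

open Polynomial Set Filter Topology
open scoped Manifold ContDiff

section
variable {E : Type} [NormedAddCommGroup E] [NormedSpace ℂ E] {D : E → ℂ}

/-- The sheet exchange. -/
def neg_unib2 (v : Dbl D) : Dbl D := ⟨(v.1.1, -v.1.2), by rw [neg_sq]; exact v.2⟩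

theorem neg_cont_unib2 : Continuous (neg_unib2 : Dbl D → Dbl D) :=
  ((continuous_fst.comp continuous_subtype_val).prodMk
    (continuous_snd.comp continuous_subtype_val).neg).subtype_mk _

theorem neg_neg_unib2 (v : Dbl D) : neg_unib2 (neg_unib2 v) = v :=
  Subtype.ext (Prod.ext rfl (neg_neg _))

theorem two_unib2 {v v' : Dbl D} (h : v'.1.1 = v.1.1) : v' = v ∨ v' = neg_unib2 v := by
  have h1 : v'.1.2 ^ 2 = v.1.2 ^ 2 := by rw [v'.2, v.2, h]
  rcases sq_eq_sq_iff_eq_or_eq_neg.1 h1 with e | e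
  · exact .inl (Subtype.ext (Prod.ext h e))
  · exact .inr (Subtype.ext (Prod.ext h e))

theorem sec_unib2 (v : Dbl D) (hc : ContinuousAt D v.1.1) (h : v.1.2 ≠ 0) :
    ∃ s : E → Dbl D, ContinuousAt s v.1.1 ∧ s v.1.1 = v ∧ ∀ u, (s u).1.1 = u := by
  have h0 : D v.1.1 ≠ 0 := by rw [← v.2]; exact pow_ne_zero _ h
  refine ⟨fun u => ⟨(u, v.1.2 * (D u / D v.1.1) ^ ((2 : ℕ) : ℂ)⁻¹), ?_⟩, ?_, ?_, fun _ => rfl⟩
  · show (_ * _) ^ 2 = D u
    rw [mul_pow, Complex.cpow_nat_inv_pow _ two_ne_zero, v.2, mul_div_cancel₀ _ h0]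
  · rw [Topology.IsInducing.subtypeVal.continuousAt_iff]
    refine continuousAt_id.prodMk (continuousAt_const.mul
      ((hc.div_const _).cpow continuousAt_const ?_))
    rw [div_self h0]
    exact Complex.one_mem_slitPlane
  · refine Subtype.ext (Prod.ext rfl ?_)
    show _ * _ = _
    rw [div_self h0, Complex.one_cpow, mul_one]

theorem circ_unib2 {O : Set E} (hO : IsOpen O) {u : E} (hu : u ∈ O) (ha : AnalyticAt ℂ D u)
    (h0 : D u = 0) (hd : fderiv ℂ D u ≠ 0) :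
    ∃ (δ : ℝ) (Γ : Metric.sphere (0 : ℂ) δ → Dbl D), 0 < δ ∧ Continuous Γ ∧
      (∀ t, (Γ t).1.1 ∈ O ∧ (Γ t).1.2 = t) ∧
      ∀ t t' : Metric.sphere (0 : ℂ) δ, (t' : ℂ) = -t → (Γ t').1.1 = (Γ t).1.1 := by
  obtain ⟨w, hw⟩ : ∃ w, fderiv ℂ D u w ≠ 0 := by
    by_contra hc
    push Not at hc
    exact hd (ContinuousLinearMap.ext hc)
  have l0 : u + (0 : ℂ) • w = u := by simp
  have hl : HasDerivAt (fun l : ℂ => u + l • w) w 0 := by
    simpa using ((hasDerivAt_id (0 : ℂ)).smul_const w).const_add u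
  have ha' : AnalyticAt ℂ D (u + (0 : ℂ) • w) := by rwa [l0]
  have hφ : AnalyticAt ℂ (fun l : ℂ => D (u + l • w)) 0 :=
    AnalyticAt.comp (f := fun l : ℂ => u + l • w) ha'
      (analyticAt_const.add (analyticAt_id.smul analyticAt_const))
  have hφ' : HasDerivAt (fun l : ℂ => D (u + l • w)) (fderiv ℂ D u w) 0 := by
    have := ha'.differentiableAt.hasFDerivAt.comp_hasDerivAt (0 : ℂ) hl
    rwa [l0] at this
  obtain ⟨g, hg, hs, -⟩ := ift_an hφ (by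
    rw [hφ'.hasFDerivAt.fderiv]
    intro a b e
    simpa [hw] using e)
  have g0 : g 0 = 0 := by rw [hg]; simpa using h0
  have ht : (0 : ℂ) ∈ g.target := g0 ▸ g.map_source hs
  have gs : g.symm 0 = 0 := by
    have := g.left_inv hs
    rwa [g0] at this
  have sq0 : Tendsto (fun t : ℂ => t ^ 2) (𝓝 0) (𝓝 0) := by
    simpa using (continuous_pow 2).tendsto (0 : ℂ)
  have e1 : ∀ᶠ σ in 𝓝 (0 : ℂ), σ ∈ g.target ∧ u + g.symm σ • w ∈ O := by
    refine (g.open_target.eventually_mem ht).and ?_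
    refine (continuousAt_const.add ((g.continuousAt_symm ht).smul continuousAt_const)).eventually
      (hO.mem_nhds ?_)
    show u + g.symm 0 • w ∈ O
    rwa [gs, l0]
  obtain ⟨ε, ε0, hε⟩ := Metric.eventually_nhds_iff.1 (sq0.eventually e1)
  have hm : ∀ t : Metric.sphere (0 : ℂ) (ε / 2),
      (t : ℂ) ^ 2 ∈ g.target ∧ u + g.symm ((t : ℂ) ^ 2) • w ∈ O := fun t =>
    hε (by rw [Metric.mem_sphere.1 t.2]; linarith)
  refine ⟨ε / 2, fun t => ⟨(u + g.symm ((t : ℂ) ^ 2) • w, t), ?_⟩, by linarith, ?_,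
    fun t => ⟨(hm t).2, rfl⟩, fun t t' e => ?_⟩
  · have := g.right_inv (hm t).1
    rw [hg] at this
    exact this.symm
  · refine Continuous.subtype_mk (Continuous.prodMk (continuous_const.add
      (Continuous.smul ?_ continuous_const)) continuous_subtype_val) _
    exact g.continuousOn_symm.comp_continuous (continuous_subtype_val.pow 2) fun t => (hm t).1
  · show u + _ • w = u + _ • w
    rw [e, neg_sq]

theorem conn_unib2 {O : Set E} (hO : IsOpen O) (hc : ∀ u ∈ O, ContinuousAt D u)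
    (hZ : IsPreconnected {u ∈ O | D u ≠ 0}) {δ : ℝ} (Γ : Metric.sphere (0 : ℂ) δ → Dbl D)
    (hδ : 0 < δ) (hΓ : Continuous Γ) (h1 : ∀ t, (Γ t).1.1 ∈ O ∧ (Γ t).1.2 = t)
    (h2 : ∀ t t' : Metric.sphere (0 : ℂ) δ, (t' : ℂ) = -t → (Γ t').1.1 = (Γ t).1.1) :
    IsPreconnected {v : Dbl D | v.1.1 ∈ O ∧ v.1.2 ≠ 0} := by
  set M : Set (Dbl D) := {v | v.1.1 ∈ O ∧ v.1.2 ≠ 0} with hM
  have oM : IsOpen M := (hO.preimage (continuous_fst.comp continuous_subtype_val)).inter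
    (isOpen_ne.preimage (continuous_snd.comp continuous_subtype_val))
  have nM : ∀ v ∈ M, neg_unib2 v ∈ M := fun v hv => ⟨hv.1, neg_ne_zero.2 hv.2⟩
  have zM : ∀ v ∈ M, v.1.1 ∈ {u ∈ O | D u ≠ 0} := fun v hv =>
    ⟨hv.1, by rw [← v.2]; exact pow_ne_zero _ hv.2⟩
  refine isPreconnected_of_forall_constant fun f hf => ?_
  let g : Dbl D → Bool × Bool := fun v => (f v && f (neg_unib2 v), f v || f (neg_unib2 v))
  have gn : ∀ v, g (neg_unib2 v) = g v := fun v => by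
    simp only [g, neg_neg_unib2, Bool.and_comm, Bool.or_comm]
  have gc : ∀ v ∈ M, ContinuousAt g v := fun v hv => by
    have a1 := hf.continuousAt (oM.mem_nhds hv)
    have a2 := ContinuousAt.comp (f := neg_unib2) (hf.continuousAt (oM.mem_nhds (nM v hv)))
      neg_cont_unib2.continuousAt
    exact (continuous_of_discreteTopology (f := fun p : Bool × Bool =>
      (p.1 && p.2, p.1 || p.2))).continuousAt.comp (a1.prodMk a2)
  let rt : E → Dbl D := fun u =>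
    ⟨(u, D u ^ ((2 : ℕ) : ℂ)⁻¹), Complex.cpow_nat_inv_pow _ two_ne_zero⟩
  have gr : ∀ v : Dbl D, g (rt v.1.1) = g v := fun v => by
    rcases two_unib2 (v := v) (v' := rt v.1.1) rfl with e | e <;> rw [e]
    exact gn v
  have Gc : ContinuousOn (fun u => g (rt u)) {u ∈ O | D u ≠ 0} := fun u hu => by
    have hm : rt u ∈ M := ⟨hu.1, fun e => hu.2 (by
      have := (rt u).2
      rw [e] at this
      simpa using this.symm)⟩
    obtain ⟨s, s1, s2, s3⟩ := sec_unib2 (rt u) (hc u hu.1) hm.2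
    have e : (fun u => g (rt u)) = g ∘ s := funext fun u' => by
      have := gr (s u')
      rwa [s3] at this
    rw [e]
    exact (ContinuousAt.comp (f := s) (x := u) (by
      have : s u = rt u := s2
      rw [this]; exact gc _ hm) s1).continuousWithinAt
  have ΓM : ∀ t, Γ t ∈ M := fun t => ⟨(h1 t).1, by
    rw [(h1 t).2]
    intro e
    have := Metric.mem_sphere.1 t.2
    rw [e, dist_self] at this
    exact hδ.ne this⟩
  have pc : PreconnectedSpace (Metric.sphere (0 : ℂ) δ) := Subtype.preconnectedSpace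
    (isConnected_sphere (by simp) _ hδ.le).isPreconnected
  let t : Metric.sphere (0 : ℂ) δ := ⟨δ, by simp [hδ.le]⟩
  let t' : Metric.sphere (0 : ℂ) δ := ⟨-δ, by simp [hδ.le]⟩
  have e1 : f (Γ t') = f (Γ t) := pc.constant (hf.comp_continuous hΓ ΓM)
  have e2 : Γ t' = neg_unib2 (Γ t) := Subtype.ext (Prod.ext (h2 t t' rfl) (by
    show _ = -_
    rw [(h1 t).2, (h1 t').2]))
  have key : ∀ v ∈ M, f v = f (Γ t) := fun v hv => by
    have := hZ.constant Gc (zM v hv) (zM _ (ΓM t))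
    simp only [gr] at this
    simp only [g, ← e2, e1, Bool.and_self, Bool.or_self, Prod.mk.injEq] at this
    revert this
    cases f v <;> cases f (neg_unib2 v) <;> cases f (Γ t) <;> simp
  exact fun x hx y hy => (key x hx).trans (key y hy).symm

end

theorem p_UNIB :
    S_UNIB := by
  intro E _ _ _ D v ha hv hfr
  have h0 : D v.1.1 = 0 := by rw [← v.2, hv]; simp
  have main : ∀ N ∈ 𝓝 v, ∃ N' ∈ 𝓝 v, N' ⊆ N ∧ (N' \ (fun v : Dbl D => v.1.2) ⁻¹' {0}).Nonempty ∧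
      IsPreconnected (N' \ (fun v : Dbl D => v.1.2) ⁻¹' {0}) := by
    intro N hN
    obtain ⟨ε, ε0, hε⟩ := Metric.mem_nhds_iff.1 hN
    have e1 : ∀ᶠ u in 𝓝 v.1.1, ‖D u‖ < ε ^ 2 :=
      ha.continuousAt.norm.eventually (gt_mem_nhds (by
        show ‖D v.1.1‖ < ε ^ 2
        rw [h0, norm_zero]; positivity))
    obtain ⟨r, r0, hr⟩ := Metric.eventually_nhds_iff_ball.1
      ((ha.eventually_analyticAt.and e1).and (Metric.ball_mem_nhds _ ε0))
    obtain ⟨u, ⟨u1, u2⟩, hu⟩ := (hfr.and_eventually (Metric.ball_mem_nhds _ r0)).exists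
    obtain ⟨δ, Γ, δ0, hΓ, h1, h2⟩ := circ_unib2 Metric.isOpen_ball hu (hr u hu).1.1 u1 u2
    let t : Metric.sphere (0 : ℂ) δ := ⟨δ, by simp [δ0.le]⟩
    have t0 : (Γ t).1.2 ≠ 0 := by
      rw [(h1 t).2]
      exact Complex.ofReal_ne_zero.2 δ0.ne'
    let _ : NormedSpace ℝ E := .restrictScalars ℝ ℂ E
    have : IsScalarTower ℝ ℂ E := .of_algebraMap_smul fun _ _ => rfl
    have hZ := (t_CONN E _ D Metric.isOpen_ball (convex_ball _ r)
      (fun u hu => (hr u hu).1.1.differentiableAt.differentiableWithinAt)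
      ⟨_, (h1 t).1, by rw [← (Γ t).2]; exact pow_ne_zero _ t0⟩).1
    refine ⟨{v' | v'.1.1 ∈ Metric.ball v.1.1 r}, (continuous_fst.comp
      continuous_subtype_val).continuousAt.preimage_mem_nhds (Metric.ball_mem_nhds _ r0),
      fun v' hv' => hε ?_, ⟨Γ t, (h1 t).1, t0⟩,
      conn_unib2 Metric.isOpen_ball (fun u hu => (hr u hu).1.1.continuousAt) hZ Γ δ0 hΓ h1 h2⟩
    rw [Metric.mem_ball, Subtype.dist_eq, Prod.dist_eq, max_lt_iff]
    refine ⟨(hr _ hv').2, ?_⟩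
    have := (hr _ hv').1.2
    rw [← v'.2, norm_pow] at this
    rw [hv, dist_zero_right]
    exact lt_of_pow_lt_pow_left₀ 2 ε0.le this
  refine ⟨mem_closure_iff_nhds.2 fun N hN => ?_, fun N hN => ?_⟩
  · obtain ⟨N', -, h1, ⟨x, h2, h3⟩, -⟩ := main N hN
    exact ⟨x, h1 h2, h3⟩
  · obtain ⟨N', h0, h1, -, h2⟩ := main N hN
    exact ⟨N', h0, h1, h2⟩

end Pool.Agent.P.MP_ab0431_ag.UB.V2

namespace Pool.Agent.P.MP_ab0431_ag.UB.V2

open Polynomial Set Filter Topology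
open scoped Manifold ContDiff

theorem p_UBT :
    S_UBT := by
  intro E E' T T' _ _ p p' B B' i z hg hop h
  have hc : ContinuousAt i z := hg.self_of_nhds.1
  refine ⟨mem_closure_iff_nhds.2 fun N hN => ?_, fun N hN => ?_⟩
  · obtain ⟨y, ⟨h1, h2⟩, h3⟩ := mem_closure_iff_nhds.1 h.1 _ (inter_mem (hc hN) hg)
    exact ⟨i y, h1, fun hb => h3 (h2.2.2 hb)⟩
  · obtain ⟨N', a, c, e⟩ := h.2 _ (inter_mem (hc hN) hg)
    refine ⟨(i '' N' ∪ p' ⁻¹' B') ∩ N, inter_mem (hop N' a) hN, inter_subset_right, ?_⟩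
    have he : ((i '' N' ∪ p' ⁻¹' B') ∩ N) \ p' ⁻¹' B' = i '' (N' \ p ⁻¹' B) := by
      ext w
      constructor
      · rintro ⟨⟨h1 | h1, -⟩, h3⟩
        · obtain ⟨y, hy, rfl⟩ := h1
          exact ⟨y, ⟨hy, fun hb => h3 ((c hy).2.2.1 hb)⟩, rfl⟩
        · exact absurd h1 h3
      · rintro ⟨y, ⟨hy, hb⟩, rfl⟩
        exact ⟨⟨Or.inl ⟨y, hy, rfl⟩, (c hy).1⟩, fun hb' => hb ((c hy).2.2.2 hb')⟩
    rw [he]
    exact e.image i fun y hy => (c hy.1).2.1.continuousWithinAt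

end Pool.Agent.P.MP_ab0431_ag.UB.V2

namespace Pool.Agent.P.MP_ab0431_ag.UB.V2

open Polynomial Set Filter Topology
open scoped Manifold ContDiff

theorem p_MOS :
    S_MOS := by
  intro T T' _ _ H H' n k u W hk hu h
  have h1 : ∀ v : Mo H n, ∃ v' : Mo H' n,
      v.1.1 ∈ W → v'.1 = (k v.1.1, u v.1.1 * v.1.2.1, v.1.2.2) := fun v => by
    by_cases hv : v.1.1 ∈ W
    · refine ⟨⟨(k v.1.1, u v.1.1 * v.1.2.1, v.1.2.2), ?_⟩, fun _ => rfl⟩
      rcases v.2 with h2 | h2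
      · exact .inl ⟨h2.1, by simp only; rw [(h _ hv).2, ← h2.2]; ring⟩
      · exact .inr ⟨h2.1, by simp only; rw [h2.2, mul_zero]⟩
    · exact ⟨(mpr_surj H' n (k v.1.1)).choose, fun h2 => absurd h2 hv⟩
  choose g hg using h1
  refine ⟨g, ?_, fun z hz => ?_, fun z z' hz e e' => ?_, fun w hw z' hz => ?_⟩
  · refine IsInducing.subtypeVal.continuousOn_iff.2 ?_
    have c1 := continuous_mpr H n
    refine ContinuousOn.congr (f := fun v : Mo H n => (k v.1.1, u v.1.1 * v.1.2.1, v.1.2.2)) ?_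
      fun v hv => hg v hv
    refine (hk.comp c1.continuousOn fun _ hv => hv).prodMk (ContinuousOn.prodMk ?_ ?_)
    · exact (hu.comp c1.continuousOn fun _ hv => hv).mul (by fun_prop)
    · fun_prop
  · exact congrArg Prod.fst (hg z hz)
  · have e1 : z'.1.1 = z.1.1 := e
    have h2 := hg z hz
    have h3 := hg z' (e1 ▸ hz)
    rw [e', h2, e1] at h3
    simp only [Prod.mk.injEq, true_and] at h3
    exact Subtype.ext (Prod.ext e1 (Prod.ext (mul_left_cancel₀ (h _ hz).1 h3.1).symm h3.2.symm))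
  · have e1 : z'.1.1 = k w := hz
    have h0 := (h w hw).1
    refine ⟨⟨(w, z'.1.2.1 / u w, z'.1.2.2), ?_⟩, rfl, Subtype.ext ?_⟩
    · rcases z'.2 with h2 | h2
      · refine .inl ⟨h2.1, ?_⟩
        simp only
        rw [div_pow, h2.2, e1, (h w hw).2]
        field_simp
      · exact .inr ⟨h2.1, by simp only; rw [h2.2, zero_div]⟩
    · rw [hg _ hw]
      refine Prod.ext e1.symm (Prod.ext ?_ rfl)
      simp only
      field_simp

end Pool.Agent.P.MP_ab0431_ag.UB.V2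

namespace Pool.Agent.P.MP_ab0431_ag.UB.V2

open Polynomial Set Filter Topology
open scoped Manifold ContDiff

/-- The sections of the model over a point with square root `c`. -/
def sec_moc2 (n : ℕ) (c : ℂ) (j : Fin (n + 2)) : ℂ × Fin (n + 1) :=
  Fin.cases (c, 0) (fun i : Fin (n + 1) => (if i = 0 then -c else 0, i)) j

theorem cont_moc2 (n : ℕ) (j : Fin (n + 2)) : Continuous fun c => sec_moc2 n c j := by
  refine Fin.cases ?_ (fun i => ?_) j
  · simp only [sec_moc2, Fin.cases_zero]; fun_prop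
  · simp only [sec_moc2, Fin.cases_succ]; split_ifs <;> fun_prop

theorem inj_moc2 (n : ℕ) {c : ℂ} (hc : c ≠ 0) : Function.Injective (sec_moc2 n c) := by
  have k : ∀ i : Fin (n + 1), sec_moc2 n c 0 ≠ sec_moc2 n c i.succ := by
    intro i e
    simp only [sec_moc2, Fin.cases_zero, Fin.cases_succ, Prod.mk.injEq] at e
    obtain ⟨e, rfl⟩ := e
    rw [if_pos rfl] at e
    exact hc (by linear_combination (1 / 2 : ℂ) * e)
  intro j j'
  refine Fin.cases ?_ (fun i => ?_) j <;> refine Fin.cases ?_ (fun i' => ?_) j' <;> intro e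
  · rfl
  · exact (k _ e).elim
  · exact (k _ e.symm).elim
  · simp only [sec_moc2, Fin.cases_succ, Prod.mk.injEq] at e
    rw [e.2]

theorem iff_moc2 (n : ℕ) {c h : ℂ} (hc : c ^ 2 = h) (y : ℂ × Fin (n + 1)) :
    (y.2 = 0 ∧ y.1 ^ 2 = h ∨ y.2 ≠ 0 ∧ y.1 = 0) ↔ ∃ j, y = sec_moc2 n c j := by
  obtain ⟨η, i⟩ := y
  constructor
  · rintro (⟨e, e'⟩ | ⟨e, e'⟩)
    · dsimp only at e e'
      subst e
      rcases sq_eq_sq_iff_eq_or_eq_neg.1 (e'.trans hc.symm) with rfl | rfl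
      · exact ⟨0, rfl⟩
      · exact ⟨Fin.succ 0, by simp only [sec_moc2, Fin.cases_succ, if_true]⟩
    · dsimp only at e e'
      subst e'
      exact ⟨i.succ, by simp only [sec_moc2, Fin.cases_succ, if_neg e]⟩
  · rintro ⟨j, e⟩
    revert e
    refine Fin.cases ?_ (fun i' => ?_) j <;> intro e
    · simp only [sec_moc2, Fin.cases_zero, Prod.mk.injEq] at e
      exact .inl ⟨e.2, e.1 ▸ hc⟩
    · simp only [sec_moc2, Fin.cases_succ, Prod.mk.injEq] at e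
      obtain ⟨e, rfl⟩ := e
      by_cases hi : i = 0
      · rw [if_pos hi] at e
        exact .inl ⟨hi, by rw [← hc]; dsimp only; rw [e]; ring⟩
      · rw [if_neg hi] at e
        exact .inr ⟨hi, e⟩

theorem fib_moc2 {T : Type} (H : T → ℂ) (n : ℕ) (y : T) {c : ℂ} (hc : c ^ 2 = H y) :
    mpr H n ⁻¹' {y} = range fun j : Fin (n + 2) =>
      (⟨(y, sec_moc2 n c j), (iff_moc2 n hc _).2 ⟨j, rfl⟩⟩ : Mo H n) := by
  ext ⟨⟨x, w⟩, hv⟩
  constructor
  · rintro (rfl : x = y)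
    obtain ⟨j, rfl⟩ := (iff_moc2 n hc w).1 hv
    exact ⟨j, rfl⟩
  · rintro ⟨j, e⟩
    rw [← e]; rfl

theorem cpt_moc2 {T : Type} [TopologicalSpace T] (H : T → ℂ) (n : ℕ) (K : Set T)
    (hK : IsCompact K) (hH : ContinuousOn H K) : IsCompact (mpr H n ⁻¹' K) := by
  have : CompactSpace K := isCompact_iff_compactSpace.1 hK
  have hc : Continuous fun x : K => H x := hH.domRestrict
  obtain ⟨R, hR⟩ := hK.exists_bound_of_continuousOn hH
  let S : Set (K × ℂ × Fin (n + 1)) :=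
    {v | v.2.2 = 0 ∧ v.2.1 ^ 2 = H v.1 ∨ v.2.2 ≠ 0 ∧ v.2.1 = 0}
  have hS : IsClosed S := by
    refine IsClosed.union (IsClosed.inter ?_ ?_) (IsClosed.inter ?_ ?_)
    · exact isClosed_eq (by fun_prop) continuous_const
    · exact isClosed_eq (by fun_prop) (hc.comp continuous_fst)
    · exact (isClosed_discrete {i : Fin (n + 1) | i ≠ 0}).preimage
        (continuous_snd.comp continuous_snd)
    · exact isClosed_eq (by fun_prop) continuous_const
  have hS' : IsCompact S := by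
    refine (isCompact_univ.prod ((isCompact_closedBall (0 : ℂ) (|R| + 1)).prod
      isCompact_univ)).of_isClosed_subset hS ?_
    rintro v (⟨-, e⟩ | ⟨-, e⟩)
    · refine ⟨trivial, ?_, trivial⟩
      have h1 := hR _ v.1.2
      rw [← e, norm_pow] at h1
      rw [mem_closedBall_zero_iff]
      nlinarith [le_abs_self R, norm_nonneg v.2.1, sq_nonneg (‖v.2.1‖ - 1), abs_nonneg R]
    · refine ⟨trivial, ?_, trivial⟩
      rw [e, mem_closedBall_zero_iff, norm_zero]; positivity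
  rw [Subtype.isCompact_iff]
  convert hS'.image (f := fun v => ((v.1 : T), v.2)) (by fun_prop) using 1
  ext ⟨x, w⟩
  constructor
  · rintro ⟨v, hv, e⟩
    have hx : x ∈ K := by
      have : mpr H n v = x := congrArg Prod.fst e
      rw [← this]; exact hv
    exact ⟨(⟨x, hx⟩, w), by have := v.2; rw [e] at this; exact this, rfl⟩
  · rintro ⟨v, hv, e⟩
    exact ⟨⟨((v.1 : T), v.2), hv⟩, v.1.2, e⟩

theorem cov_moc2 {T : Type} [TopologicalSpace T] (H : T → ℂ) (n : ℕ) (O : Set T) (hO : IsOpen O)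
    (hH : ContinuousOn H O) : IsCoveringMapOn (mpr H n) {y ∈ O | H y ≠ 0} := by
  rintro y ⟨hy, h0⟩
  obtain ⟨c, ha, hc, he⟩ := t_ROOTK ℂ id (H y) 2 analyticAt_id h0 two_ne_zero
  have hU : {x | x ∈ O ∧ (AnalyticAt ℂ c (H x) ∧ c (H x) ≠ 0) ∧ c (H x) ^ 2 = H x} ∈ 𝓝 y :=
    inter_mem (hO.mem_nhds hy) ((hH.continuousAt (hO.mem_nhds hy)).eventually
      ((ha.eventually_analyticAt.and (ha.continuousAt.eventually_ne hc)).and he))
  exact (t_HCOVS T (ℂ × Fin (n + 1))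
    (fun v => v.2.2 = 0 ∧ v.2.1 ^ 2 = H v.1 ∨ v.2.2 ≠ 0 ∧ v.2.1 = 0) (n + 2)
    (fun j x => sec_moc2 n (c (H x)) j) y _ hU
    (fun j x hx => ((cont_moc2 n j).continuousAt.comp (hx.2.1.1.continuousAt.comp
      (hH.continuousAt (hO.mem_nhds hx.1)))).continuousWithinAt)
    (fun x hx => ⟨inj_moc2 n hx.2.1.2, iff_moc2 n hx.2.2⟩)).to_isEvenlyCovered_preimage

theorem lh_moc2 {T : Type} [TopologicalSpace T] (H : T → ℂ) (n : ℕ) (v : Mo H n)
    (hv : v.1.2.2 ≠ 0) : LH (mpr H n) v :=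
  ⟨{ toFun := mpr H n
     invFun := fun y => ⟨(y, 0, v.1.2.2), .inr ⟨hv, rfl⟩⟩
     source := {w | w.1.2.2 = v.1.2.2}
     target := univ
     map_source' := fun _ _ => trivial
     map_target' := fun _ _ => rfl
     left_inv' := fun w hw => Subtype.ext (Prod.ext rfl (Prod.ext
       ((w.2.resolve_left fun e => hv (hw.symm.trans e.1)).2).symm hw.symm))
     right_inv' := fun _ _ => rfl
     open_source := (isOpen_discrete {v.1.2.2}).preimage
       (continuous_snd.comp (continuous_snd.comp continuous_subtype_val))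
     open_target := isOpen_univ
     continuousOn_toFun := (continuous_mpr H n).continuousOn
     continuousOn_invFun := (Continuous.subtype_mk (by fun_prop) _).continuousOn },
    rfl, fun _ _ => rfl⟩

theorem p_MOC :
    S_MOC := by
  intro T _ H n O hO hH
  have hcov := cov_moc2 H n O hO hH
  refine ⟨⟨continuous_mpr H n, fun K hK hK' => cpt_moc2 H n K hK' (hH.mono hK), fun q _ => ?_⟩,
    hcov, fun v hv h => ?_, fun y hy => ?_⟩
  · obtain ⟨c, hc⟩ := IsAlgClosed.exists_pow_nat_eq (H q) two_pos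
    rw [fib_moc2 H n q hc]
    exact finite_range _
  · rcases h with h | h
    · obtain ⟨e, he, he'⟩ := hcov.isLocalHomeomorphOn v ⟨hv, h⟩
      exact ⟨e, he, fun x _ => (congrFun he' x).symm⟩
    · exact lh_moc2 H n v h
  · obtain ⟨c, hc⟩ := IsAlgClosed.exists_pow_nat_eq (H y) two_pos
    have h0 : c ≠ 0 := fun e => hy (by rw [← hc, e]; ring)
    rw [fib_moc2 H n y hc, ← image_univ, ncard_image_of_injective _ fun j j' e =>
      inj_moc2 n h0 (congrArg (fun v : Mo H n => v.1.2) e), ncard_univ, Nat.card_eq_fintype_card,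
      Fintype.card_fin]

end Pool.Agent.P.MP_ab0431_ag.UB.V2

namespace Pool.Agent.P.MP_ab0431_ag.UB.V2

open Polynomial Set Filter Topology
open scoped Manifold ContDiff

theorem p_CVB :
    S_CVB := by
  intro Q X b m d c F h π S hg H
  have hden := (t_BCF Q b m c hg.1).2.2.2.2.2.2.1
  have hS : S ⊆ Bc Q c := fun y hy => (mu_pos Q c y).1 (lt_trans one_pos (H.cr y hy))
  have hr : ∀ z, π z ∉ S → ∃ x, X.ι x = z := fun z hz => by
    by_contra hn
    exact hz (H.pun z hn)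
  have hB : ∀ y, y ∉ Bc Q c → y ∈ Sᶜ := fun y hy hs => hy (hS hs)
  have hfin : ∀ y, (F ⁻¹' {y}).Finite := fun y =>
    ((H.fin y).preimage X.emb.injective.injOn).subset fun x hx => (H.eq x).trans hx
  obtain ⟨z₀⟩ : Nonempty X.B := inferInstance
  obtain ⟨z, hz⟩ := closure_nonempty_iff.1 ⟨z₀, (H.ub z₀).1⟩
  obtain ⟨x₀, rfl⟩ := hr z (hB _ hz)
  have hx₀ : F x₀ ∉ Bc Q c := H.eq x₀ ▸ hz
  have hd : 0 < d := by
    rw [← H.g1.card _ (hB _ hx₀) hx₀, ncard_pos (hfin _)]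
    exact ⟨x₀, rfl⟩
  have hsurj : range π = univ := by
    refine eq_univ_of_univ_subset ?_
    rw [← hden.closure_eq]
    refine closure_minimal (fun y hy => ?_) (isCompact_range H.cont).isClosed
    obtain ⟨x, hx⟩ := nonempty_of_ncard_ne_zero (s := F ⁻¹' {y})
      (by have := H.g1.card _ (hB _ hy) hy; exact fun e => hd.ne' (this.symm.trans e))
    exact ⟨X.ι x, (H.eq x).trans hx⟩
  have hL : ∀ x, F x ∉ Bc Q c → LH F x := fun x hx =>
    let ⟨e, h1, h2, _⟩ := H.g0.loc x (hB _ hx) hx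
    ⟨e, h1, h2⟩
  have : Nonempty X.X := ⟨x₀⟩
  refine ⟨hS, this, hd, fun y hy => ?_, ?_, hL,
    ⟨H.cont, fun K _ hK => (hK.isClosed.preimage H.cont).isCompact, fun q _ => H.fin q⟩,
    fun z hz => ?_, hfin⟩
  · obtain ⟨z, rfl⟩ : y ∈ range π := hsurj ▸ mem_univ y
    obtain ⟨x, rfl⟩ := hr z hy
    exact ⟨x, (H.eq x).symm⟩
  · exact (t_COVG C2 Q.Y (cvr X h) _ _ H.finS.isClosed.isOpen_compl H.g0).mono
      fun y hy => ⟨hB y hy, hy⟩
  · obtain ⟨x, rfl⟩ := hr z (hB _ hz)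
    obtain ⟨e, h1, h2⟩ := hL x (H.eq x ▸ hz)
    have hi : ∀ x, (X.emb.toOpenPartialHomeomorph X.ι).symm (X.ι x) = x := fun x =>
      X.emb.toOpenPartialHomeomorph_left_inv
    refine ⟨(X.emb.toOpenPartialHomeomorph X.ι).symm.trans e, ⟨by simp, ?_⟩, ?_⟩
    · simpa [hi] using h1
    · rintro w ⟨hw, hw'⟩
      obtain ⟨x', rfl⟩ : w ∈ range X.ι := by simpa using hw
      have h3 : x' ∈ e.source := by simpa [hi] using hw'
      simp only [OpenPartialHomeomorph.coe_trans, Function.comp, hi]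
      exact (h2 h3).trans (H.eq x').symm

end Pool.Agent.P.MP_ab0431_ag.UB.V2

namespace Pool.Agent.P.MP_ab0431_ag.UB.V2

open Polynomial Set Filter Topology
open scoped Manifold ContDiff

theorem glue_cvm2 {E E' T : Type} [TopologicalSpace E] [TopologicalSpace E'] [TopologicalSpace T]
    [Nonempty E'] {p : E → T} {p' : E' → T} (hp : Continuous p) {S B : Set T} {U : T → Set T}
    (hU : ∀ y ∈ S, IsOpen (U y)) (hd : S.PairwiseDisjoint U) {φ : ∀ y ∈ S, E → E'}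
    (hφ : ∀ y hy, Car p p' id (U y \ B) (φ y hy)) :
    ∃ φ₀, Car p p' id ((⋃ y ∈ S, U y) \ B) φ₀ := by
  have key : ∀ z : E, ∃ v : E', ∀ y hy, p z ∈ U y → v = φ y hy z := by
    intro z
    by_cases h : ∃ y ∈ S, p z ∈ U y
    · obtain ⟨y, hy, h1⟩ := h
      refine ⟨φ y hy z, fun y' hy' h2 => ?_⟩
      obtain rfl : y = y' := hd.elim_set hy hy' _ h1 h2
      rfl
    · exact ⟨Classical.arbitrary _, fun y hy h1 => absurd ⟨y, hy, h1⟩ h⟩
  choose φ₀ h0 using key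
  have hm : ∀ w ∈ (⋃ y ∈ S, U y) \ B, ∃ y ∈ S, w ∈ U y \ B := fun w hw =>
    let ⟨y, hy, h1⟩ := mem_iUnion₂.1 hw.1
    ⟨y, hy, h1, hw.2⟩
  refine ⟨φ₀, fun z hz => ?_, fun z hz => ?_, fun z z' hz e e' => ?_, fun w hw z' hz' => ?_⟩
  · obtain ⟨y, hy, h1⟩ := hm _ hz
    have h2 : p ⁻¹' U y ∈ 𝓝 z := ((hU y hy).preimage hp).mem_nhds h1.1
    rw [← continuousWithinAt_inter h2]
    refine (((hφ y hy).cont z h1).mono fun x hx => ⟨hx.2, hx.1.2⟩).congr
      (fun x hx => h0 x y hy hx.2) (h0 z y hy h1.1)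
  · obtain ⟨y, hy, h1⟩ := hm _ hz
    rw [h0 z y hy h1.1]
    exact (hφ y hy).comm z h1
  · obtain ⟨y, hy, h1⟩ := hm _ hz
    rw [h0 z y hy h1.1, h0 z' y hy (e ▸ h1.1)] at e'
    exact (hφ y hy).inj z z' h1 e e'
  · obtain ⟨y, hy, h1⟩ := hm _ hw
    obtain ⟨z, h2, h3⟩ := (hφ y hy).surj w h1 z' hz'
    exact ⟨z, h2, (h0 z y hy (h2 ▸ h1.1)).trans h3⟩

theorem p_CVM (hCVB : S_CVB) (hMUL : S_MUL) :
    S_CVM := by
  intro Q X b m d c F h π S hg hc
  have hne := (hCVB Q X b m d c F h π S hg hc).2.1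
  have hfin : ({y | 1 < mu Q c y} \ S).Finite := ((hMUL Q b m c hg.1).2 hg).sdiff
  choose N φ hN using hc.mdl
  obtain ⟨V, hV, hd⟩ := hc.finS.t2_separation
  let U : Q.Y → Set Q.Y := fun y =>
    V y ∩ ((Q.ch 0).source ∩ ({y | 1 < mu Q c y} \ S)ᶜ) ∩ ⋃ hy : y ∈ S, N y hy
  have hU : ∀ y ∈ S, IsOpen (U y) := fun y _ =>
    ((hV y).2.inter ((Q.ch 0).open_source.inter hfin.isClosed.isOpen_compl)).inter
      (isOpen_iUnion fun hy => (hN y hy).1)
  obtain ⟨φ₀, h0⟩ := glue_cvm2 (continuous_mpr (Hc Q c) (d - 2)) (B := Bc Q c) hU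
    (hd.mono fun y x hx => hx.1.1) (φ := φ) fun y hy => (hN y hy).2.2.mono fun x hx =>
      ⟨(mem_iUnion.1 hx.1.2).elim fun _ h => h, hx.2⟩
  refine ⟨_, φ₀, isOpen_biUnion hU, fun y hy => mem_biUnion hy ⟨⟨(hV y).1,
    mu_src Q c (hc.cr y hy), fun h1 => h1.2 hy⟩, mem_iUnion.2 ⟨hy, (hN y hy).2.1⟩⟩,
    iUnion₂_subset fun y _ x hx => hx.1.2.1, fun x hx hS => ?_, h0⟩
  obtain ⟨y, -, h1⟩ := mem_iUnion₂.1 hx
  exact not_lt.1 fun h2 => h1.1.2.2 ⟨h2, hS⟩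

end Pool.Agent.P.MP_ab0431_ag.UB.V2

namespace Pool.Agent.P.MP_ab0431_ag.UB.V2

open Polynomial Set Filter Topology
open scoped Manifold ContDiff

theorem p_WM (hCVM : S_CVM) (hMOS : S_MOS) (hMOC : S_MOC) (hMUL : S_MUL) (hHFA : S_HFA) :
    S_WM := by
  intro Q X b m d nn V s G t₀ F h π S H ht hC
  obtain ⟨N₀, φ₀, o₀, hS, src₀, mu0, car₀⟩ := hCVM Q X b m d (s t₀) F h π S (H.good ht) hC
  let K : (Q.Y × ℂ) × ℝ → Q.Y × ℂ := fun x => G (x.1, x.1.2 + x.2 • (t₀ - x.1.2))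
  have hK : Continuous K := H.tp.cont.comp (by fun_prop)
  have K0 : ∀ w, K (w, 0) = w := fun w => by
    simp only [K, zero_smul, add_zero]; exact H.tp.id w
  have K1 : ∀ w, K (w, 1) = G (w, t₀) := fun w => by
    simp only [K, one_smul, add_sub_cancel]
  have KV : ∀ w : Q.Y × ℂ, w.2 ∈ V → ∀ σ ∈ Icc (0 : ℝ) 1, (K (w, σ)).2 ∈ V := fun w hw σ hσ => by
    have := H.cvx.add_smul_sub_mem hw ht hσ
    rw [H.lev (w, w.2 + σ • (t₀ - w.2)) hw this]; exact this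
  let N : Set (Q.Y × ℂ) :=
    {w | w.2 ∈ V ∧ rr G t₀ w ∈ N₀ ∧ ∀ σ ∈ Icc (0 : ℝ) 1, K (w, σ) ∈ (chF Q).source}
  have oV : IsOpen (Prod.snd ⁻¹' V : Set (Q.Y × ℂ)) := H.str.isOpen.preimage continuous_snd
  have oN : IsOpen N := by
    refine oV.inter ((o₀.preimage (H.r_cont t₀)).inter (isOpen_iff_mem_nhds.2 fun w hw => ?_))
    exact isCompact_Icc.eventually_forall_of_forall_eventually
      (P := fun w σ => K (w, σ) ∈ (chF Q).source) fun σ hσ =>
        hK.continuousAt.eventually_mem ((chF Q).open_source.mem_nhds (hw σ hσ))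
  obtain ⟨-, cov, -⟩ := hMOC _ (Hf Q s) (d - 2) _ ((chF Q).open_source.inter oV)
    (hHFA Q b m nn 0 V s H.str).2.1.continuousOn
  have KB : ∀ w ∈ N \ Fam Q s, ∀ σ ∈ Icc (0 : ℝ) 1, Hf Q s (K (w, σ)) ≠ 0 := fun w hw σ hσ e => by
    have a : K (w, σ) ∉ Fam Q s := H.nB (w, w.2 + σ • (t₀ - w.2)) hw.2
    have c : (K (w, σ)).1 ∈ (Q.ch 0).source := (hw.1.2.2 σ hσ).1
    exact a (((hMUL Q b m (s (K (w, σ)).2) (H.good (KV w hw.1.1 σ hσ)).1).1 _ c).1.2 e)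
  obtain ⟨f, hf⟩ := t_HL _ _ _ _ (mpr (Hf Q s) (d - 2)) (mpr (Hf Q s) (d - 2)) (N \ Fam Q s) _ K id
    cov (continuous_mpr _ _) hK.continuousOn
    (fun w hw σ hσ => ⟨⟨hw.1.2.2 σ hσ, KV w hw.1.1 σ hσ⟩, KB w hw σ hσ⟩)
    (Car.refl.congr fun w _ => K0 w)
  obtain ⟨g, hg⟩ := hMOS _ _ (Hf Q s) (Hc Q (s t₀)) (d - 2) Prod.fst (fun _ => 1) {w | w.2 = t₀}
    continuous_fst.continuousOn continuousOn_const fun y hy => ⟨one_ne_zero, by
      rw [one_pow, one_mul, Hf, show y.2 = t₀ from hy]⟩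
  refine ⟨N₀, φ₀, N, φ₀ ∘ g ∘ f, o₀, src₀, car₀, oN, fun w hw => ⟨hw.1, ?_⟩, fun w hw => hw.2.1,
    fun w hw hr => ⟨hw, hS hr, fun σ _ => ⟨mu_src Q (s (K (w, σ)).2) ?_, trivial⟩⟩,
    fun w hw hr => H.mu_r ht hw.1 ▸ mu0 _ hw.2.1 hr, ?_⟩
  · rw [← K0 w]; exact hw.2.2 0 (left_mem_Icc.2 zero_le_one)
  · have := hC.cr _ hr
    rw [H.mu_r ht hw, ← H.tp.mu (w, w.2 + σ • (t₀ - w.2))] at this
    exact this
  · refine (car₀.comp (hg.comp hf fun w hw => ?_) fun w hw => ?_).congr fun w _ => ?_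
    · show (K (w, 1)).2 = t₀
      rw [K1, H.lev (w, t₀) hw.1.1 ht]
    · show (K (w, 1)).1 ∈ _
      rw [K1]
      exact ⟨hw.1.2.1, fun e => hw.2 ((H.mem_r ht hw.1.1).1 e)⟩
    · show _ = (K (w, 1)).1
      rw [K1]; rfl

end Pool.Agent.P.MP_ab0431_ag.UB.V2

namespace Pool.Agent.P.MP_ab0431_ag.UB.V2

open Polynomial Set Filter Topology
open scoped Manifold ContDiff

theorem vec_sm02 (u : C2) : (![u 0, u 1] : C2) = u := by
  funext i; fin_cases i <;> rfl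

theorem an_sm02 (q : ℂ × ℂ × ℂ) :
    AnalyticAt ℂ (fun q : ℂ × ℂ × ℂ => ((![q.2.1, q.1] : C2), q.2.2)) q := by
  refine AnalyticAt.prod (analyticAt_pi_iff.2 fun i => ?_) (analyticAt_snd.comp analyticAt_snd)
  fin_cases i
  · exact analyticAt_fst.comp analyticAt_snd
  · exact analyticAt_fst

theorem coord_sm02 {D : C2 × ℂ → ℂ} {p : C2 × ℂ} (hD : AnalyticAt ℂ D p)
    (hd : fderiv ℂ D p (Pi.single 1 1, 0) ≠ 0) :
    ∃ Ψ : OpenPartialHomeomorph (C2 × ℂ) (C2 × ℂ), p ∈ Ψ.source ∧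
      DifferentiableOn ℂ Ψ Ψ.source ∧ DifferentiableOn ℂ Ψ.symm Ψ.target ∧
      ∀ q ∈ Ψ.source, Ψ q = (![q.1 0 - p.1 0, D q], q.2) := by
  have e : ((![p.1 0, p.1 1] : C2), p.2) = p := by rw [vec_sm02]
  have a : AnalyticAt ℂ (fun q : ℂ × ℂ × ℂ => D ((![q.2.1, q.1] : C2), q.2.2))
      (p.1 1, p.1 0, p.2) :=
    AnalyticAt.comp (g := D) (by rw [← e] at hD; exact hD) (an_sm02 _)
  have a0 : AnalyticAt ℂ (fun q : ℂ × ℂ => q.1 - p.1 0) (p.1 0, p.2) :=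
    analyticAt_fst.sub analyticAt_const
  have d0 : dz (fun q : ℂ × ℂ => q.1 - p.1 0) (p.1 0, p.2) = 1 :=
    (hasDerivAt_dz a0.differentiableAt).unique ((hasDerivAt_id _).sub_const _)
  have d1 : dz (fun q : ℂ × ℂ × ℂ => D ((![q.2.1, q.1] : C2), q.2.2)) (p.1 1, p.1 0, p.2) =
      fderiv ℂ D p (Pi.single 1 1, 0) := by
    refine (hasDerivAt_dz a.differentiableAt).unique ?_
    have h1 : HasDerivAt (fun z : ℂ => ((![p.1 0, z] : C2), p.2))
        ((Pi.single 1 1 : C2), (0 : ℂ)) (p.1 1) := by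
      refine HasDerivAt.prodMk (hasDerivAt_pi.2 fun i => ?_) (hasDerivAt_const _ _)
      fin_cases i
      · simpa using hasDerivAt_const (p.1 1) (p.1 0)
      · simpa using hasDerivAt_id' (p.1 1)
    have h2 : HasFDerivAt D (fderiv ℂ D p) ((![p.1 0, p.1 1] : C2), p.2) := by
      rw [e]; exact hD.differentiableAt.hasFDerivAt
    exact h2.comp_hasDerivAt (p.1 1) h1
  obtain ⟨Ψ, h1, -, h2, h3, h4⟩ := t_COORD _ _ p univ a0 a (by rw [d0]; exact one_ne_zero)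
    (by rw [d1]; exact hd) univ_mem
  refine ⟨Ψ, h1, h2, h3, fun q hq => ?_⟩
  rw [h4 q hq]
  simp only [vec_sm02]

theorem core_sm02 {D D' : C2 × ℂ → ℂ} {p p' : C2 × ℂ} (hD : AnalyticAt ℂ D p)
    (hD' : AnalyticAt ℂ D' p') (ht : p'.2 = p.2)
    (h : (D p ≠ 0 ∧ D' p' ≠ 0) ∨ (D p = 0 ∧ D' p' = 0 ∧ fderiv ℂ D p (Pi.single 1 1, 0) ≠ 0 ∧
      fderiv ℂ D' p' (Pi.single 1 1, 0) ≠ 0)) :
    ∃ (Ψ : OpenPartialHomeomorph (C2 × ℂ) (C2 × ℂ)) (u : C2 × ℂ → ℂ), p ∈ Ψ.source ∧ Ψ p = p' ∧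
      DifferentiableOn ℂ Ψ Ψ.source ∧ DifferentiableOn ℂ Ψ.symm Ψ.target ∧
      (∀ q ∈ Ψ.source, (Ψ q).2 = q.2) ∧
      ∀ᶠ q in 𝓝 p, ContinuousAt u q ∧ u q ≠ 0 ∧ D' (Ψ q) = u q ^ 2 * D q := by
  rcases h with ⟨h1, h2⟩ | ⟨h1, h2, h3, h4⟩
  · have e : p + (p' - p) = p' := add_sub_cancel _ _
    have a1 : AnalyticAt ℂ (fun q : C2 × ℂ => D' (q + (p' - p))) p :=
      AnalyticAt.comp (g := D') (by rw [e]; exact hD') (analyticAt_id.add analyticAt_const)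
    have a2 : AnalyticAt ℂ (fun q : C2 × ℂ => D' (q + (p' - p)) / D q) p := a1.div hD h1
    obtain ⟨c, c1, c2, c3⟩ := t_ROOTK _ _ p 2 a2 (by rw [e]; exact div_ne_zero h2 h1) two_ne_zero
    refine ⟨(Homeomorph.addRight (p' - p)).toOpenPartialHomeomorph, c, mem_univ _, e,
      (differentiable_id.add_const _).differentiableOn,
      (differentiable_id.add_const _).differentiableOn, fun q _ => ?_, ?_⟩
    · change q.2 + (p'.2 - p.2) = q.2
      rw [ht, sub_self, add_zero]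
    · filter_upwards [c1.eventually_analyticAt, c1.continuousAt.eventually_ne c2, c3,
        hD.continuousAt.eventually_ne h1] with q b1 b2 b3 b4
      refine ⟨b1.continuousAt, b2, ?_⟩
      rw [b3, div_mul_cancel₀ _ b4]
      rfl
  · obtain ⟨Ψ, a1, a2, a3, a4⟩ := coord_sm02 hD h3
    obtain ⟨Ψ', b1, b2, b3, b4⟩ := coord_sm02 hD' h4
    have e : Ψ p = Ψ' p' := by rw [a4 p a1, b4 p' b1, h1, h2, ht, sub_self, sub_self]
    have m : p ∈ (Ψ.trans Ψ'.symm).source := ⟨a1, by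
      change Ψ p ∈ Ψ'.target
      rw [e]; exact Ψ'.map_source b1⟩
    have k : ∀ q ∈ (Ψ.trans Ψ'.symm).source, ((Ψ.trans Ψ'.symm) q).2 = q.2 ∧
        D' ((Ψ.trans Ψ'.symm) q) = D q := fun q hq => by
      have r1 : Ψ q ∈ Ψ'.target := hq.2
      have r2 := Ψ'.right_inv r1
      rw [b4 _ (Ψ'.map_target r1)] at r2
      have r3 := r2.trans (a4 q hq.1)
      have r4 := congrArg Prod.snd r3
      have r5 := congrFun (congrArg Prod.fst r3) 1
      exact ⟨r4, r5⟩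
    refine ⟨Ψ.trans Ψ'.symm, fun _ => 1, m, ?_,
      b3.comp (a2.mono fun _ hx => hx.1) fun _ hx => hx.2,
      a3.comp (b2.mono fun _ hx => hx.1) fun _ hx => hx.2, fun q hq => (k q hq).1, ?_⟩
    · change Ψ'.symm (Ψ p) = p'
      rw [e, Ψ'.left_inv b1]
    · filter_upwards [(Ψ.trans Ψ'.symm).open_source.mem_nhds m] with q hq
      exact ⟨continuousAt_const, one_ne_zero, by rw [(k q hq).2, one_pow, one_mul]⟩

theorem p_SM0 (hMUL : S_MUL) (hHCA : S_HCA) (hHFA : S_HFA) :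
    S_SM0 := by
  intro Q b m nn V s c w y N N₀ hS hc hw w0 y0 hμ h1 hN hN₀
  obtain ⟨f1, f2⟩ := (hHFA Q b m nn 0 V s hS).1 (chF Q w) hw
  obtain ⟨g1, g2⟩ := (hHCA Q b m c).1 (Q.ch 0 y)
  obtain ⟨m1, -, m2⟩ := (hMUL Q b m (s w.2) (hS.good _ hw).1.1).1 w.1 w0
  obtain ⟨n1, -, n2⟩ := (hMUL Q b m c hc.1).1 y y0
  have g3 : AnalyticAt ℂ (fun q : C2 × ℂ => Dc c q.1) (Q.ch 0 y, w.2) :=
    AnalyticAt.comp (g := Dc c) g1 analyticAt_fst
  have g4 : fderiv ℂ (fun q : C2 × ℂ => Dc c q.1) (Q.ch 0 y, w.2) (Pi.single 1 1, 0) =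
      (toP c).derivative.evalEval (Q.ch 0 y 0) (Q.ch 0 y 1) := by
    have : HasFDerivAt (fun q : C2 × ℂ => Dc c q.1)
        ((fderiv ℂ (Dc c) (Q.ch 0 y)).comp (ContinuousLinearMap.fst ℂ C2 ℂ)) (Q.ch 0 y, w.2) :=
      HasFDerivAt.comp (g := Dc c) _ g1.differentiableAt.hasFDerivAt hasFDerivAt_fst
    rw [this.fderiv, ← g2]
    rfl
  have hcase : (Df s (chF Q w) ≠ 0 ∧ Dc c (Q.ch 0 y) ≠ 0) ∨ (Df s (chF Q w) = 0 ∧
      Dc c (Q.ch 0 y) = 0 ∧ fderiv ℂ (Df s) (chF Q w) (Pi.single 1 1, 0) ≠ 0 ∧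
      fderiv ℂ (fun q : C2 × ℂ => Dc c q.1) (Q.ch 0 y, w.2) (Pi.single 1 1, 0) ≠ 0) := by
    have p1 := mu_pos Q (s w.2) w.1
    have p2 := mu_pos Q c y
    change mu Q c y = mu Q (s w.2) w.1 at hμ
    change mu Q (s w.2) w.1 ≤ 1 at h1
    by_cases h0 : 0 < mu Q (s w.2) w.1
    · have z1 := m1.1 (p1.1 h0)
      have z2 := n1.1 (p2.1 (hμ ▸ h0))
      refine .inr ⟨z1, z2, ?_, ?_⟩
      · rw [f2]
        exact fun e => absurd (m2.2 ⟨z1, e⟩) (by omega)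
      · rw [g4]
        exact fun e => absurd (n2.2 ⟨z2, e⟩) (by omega)
    · exact .inl ⟨fun e => h0 (p1.2 (m1.2 e)), fun e => h0 (hμ ▸ p2.2 (n1.2 e))⟩
  obtain ⟨Ψ, u, a1, a2, a3, a4, a5, a6⟩ := core_sm02 (p' := (Q.ch 0 y, w.2)) f1 g3 rfl hcase
  have bΨ : Bi (C2 × ℂ) Ψ := ⟨a3.mdifferentiableOn, a4.mdifferentiableOn⟩
  have bc := TBOXa.bi (Q.ch_mem 0)
  have tg : ∀ x : C2, x ∈ (Q.ch 0).target := fun x => Q.ch_tgt 0 ▸ mem_univ _
  have ws : w ∈ (chF Q).source := ⟨w0, trivial⟩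
  have mΛ : w ∈ (((chF Q).trans Ψ).trans (chF Q).symm).source := ⟨⟨ws, a1⟩, tg _, trivial⟩
  have vΛ : ((((chF Q).trans Ψ).trans (chF Q).symm) w).1 = y := by
    change (Q.ch 0).symm (Ψ (chF Q w)).1 = y
    rw [a2]
    exact (Q.ch 0).left_inv y0
  have ev : ∀ᶠ w' in 𝓝 w, w' ∈ N ∧ ((((chF Q).trans Ψ).trans (chF Q).symm) w').1 ∈ N₀ ∧
      ContinuousAt u (chF Q w') ∧ u (chF Q w') ≠ 0 ∧
        Dc c (Ψ (chF Q w')).1 = u (chF Q w') ^ 2 * Df s (chF Q w') := by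
    refine Eventually.and hN (Eventually.and ?_ (((chF Q).continuousAt ws).eventually a6))
    exact (continuousAt_fst.comp (OpenPartialHomeomorph.continuousAt _ mΛ)).eventually
      (p := fun x => x ∈ N₀) (by rw [Function.comp_apply, vΛ]; exact hN₀)
  obtain ⟨W, hW, oW, mW⟩ := eventually_nhds_iff.1 ev
  refine ⟨(((chF Q).trans Ψ).trans (chF Q).symm).restrOpen W oW, fun w' => u (chF Q w'),
    ((bc.trans bΨ).trans bc.symm).restr oW, fun w' hw' => a5 _ hw'.1.1.2, ⟨mΛ, mW⟩,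
    fun w' hw' => (hW w' hw'.2).1, fun v hv => ?_, fun w' hw' => ?_, fun w' hw' => ?_⟩
  · have := (hW _ hv.2).2.1
    rw [OpenPartialHomeomorph.right_inv _ hv.1] at this
    exact this
  · exact (ContinuousAt.comp (hW w' hw'.2).2.2.1
      ((chF Q).continuousAt hw'.1.1.1)).continuousWithinAt
  · refine ⟨(hW w' hw'.2).2.2.2.1, ?_⟩
    rw [Hf_eq, ← (hW w' hw'.2).2.2.2.2]
    change Dc c (Q.ch 0 ((Q.ch 0).symm (Ψ (chF Q w')).1)) = _
    rw [(Q.ch 0).right_inv (tg _)]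

end Pool.Agent.P.MP_ab0431_ag.UB.V2
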