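import Pool.Agent.P.MP_ab0431_ag.UB2.IfaceD
import Pool.Agent.P.MP_ab0431_ag.UB2.IfaceD2

/-! Steps SM STEP PROP CM0 TRSN ZCON ASMG SLV CT1 CT2 COUNT. -/

set_option autoImplicit false
set_option linter.unusedSectionVars false
set_option linter.unusedVariables false

namespace Pool.Agent.P.MP_ab0431_ag.UB.V2

open Polynomial Set Filter Topology
open scoped Manifold ContDiff

theorem p_SM (hSM0 : S_SM0) (hMOS : S_MOS) (hMOC : S_MOC) (hMUL : S_MUL) (hHFA : S_HFA) :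
    S_SM := by
  intro Q b m nn n V s G t₀ F S N₀ φ₀ N φ H ht hS hLH hN w hw
  have hΩ : IsOpen (Omg V (rr G t₀) S) :=
    (H.str.isOpen.preimage continuous_snd).inter (hS.isOpen_compl.preimage (H.r_cont t₀))
  obtain ⟨Λ, u, hb, hf, hwΛ, hs, hT, hu, hH⟩ := hSM0 Q b m nn V s (s t₀) w (rr G t₀ w)
    (N ∩ Omg V (rr G t₀) S) (N₀ \ S) H.str (H.good ht) hw.1.1 (hN.sub hw.2).2.1
    (hN.src₀ (hN.maps hw.2)) (H.mu_r ht hw.1.1) (hN.mu1 w hw.2 hw.1.2)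
    ((hN.o.inter hΩ).mem_nhds ⟨hw.2, hw.1⟩) ((hN.o₀.sdiff hS).mem_nhds ⟨hN.maps hw.2, hw.1.2⟩)
  have hB : ∀ y ∈ N, (y ∈ Fam Q s ↔ Hf Q s y = 0) := fun y hy =>
    ((hMUL Q b m (s y.2) (H.good (hN.sub hy).1).1).1 y.1 (hN.sub hy).2.1).1
  have hbb : ∀ y ∈ Λ.source, (y ∈ Fam Q s ↔ Λ y ∈ Prod.fst ⁻¹' Bc Q (s t₀)) := fun y hy => by
    rw [hB y (hs hy).1, mem_preimage, ((hMUL Q b m (s t₀) (H.good ht).1).1 _
      (hN.src₀ (hT (Λ.map_source hy)).1)).1, (hH y hy).2, mul_eq_zero,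
      or_iff_right (pow_ne_zero 2 (hH y hy).1)]
  obtain ⟨g, hg⟩ := hMOS _ _ (Hf Q s) (Hc Q (s t₀)) n (Prod.fst ∘ Λ) u (Λ.source \ Fam Q s)
    (continuous_fst.comp_continuousOn (Λ.continuousOn.mono sdiff_subset)) (hu.mono sdiff_subset)
    fun y hy => hH y hy.1
  have c₂ : Car (mpr (Hf Q s) n) F.π (Prod.fst ∘ Λ) (Λ.source \ Fam Q s) (φ₀ ∘ g) :=
    hN.car₀.comp hg fun y hy => ⟨(hT (Λ.map_source hy.1)).1, fun h => hy.2 ((hbb y hy.1).2 h)⟩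
  have c : Car F.prod.π F.π Prod.fst (Λ.target \ Prod.fst ⁻¹' Bc Q (s t₀)) Prod.fst :=
    ⟨continuousOn_fst, fun _ _ => rfl, fun _ _ _ h h' => Prod.ext h' (Prod.ext_iff.1 h).2,
      fun w _ z hz => ⟨(z, w.2), Prod.ext hz rfl, rfl⟩⟩
  have hm : MapsTo Λ.symm (Λ.target \ Prod.fst ⁻¹' Bc Q (s t₀)) (Λ.source \ Fam Q s) :=
    fun y hy => ⟨Λ.map_target hy.1, fun h => hy.2 (by
      rwa [hbb _ (Λ.map_target hy.1), Λ.right_inv hy.1] at h)⟩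
  have hc : ContinuousOn (Hf Q s) N :=
    (hHFA Q b m nn 0 V s H.str).2.1.continuousOn.mono fun y hy => ⟨(hN.sub hy).2, (hN.sub hy).1⟩
  obtain ⟨g', hg', -⟩ := t_DIVC _ _ _ _ _ _ F.prod.π (mpr (Hf Q s) n) F.π Λ.symm (Prod.fst ∘ Λ)
    _ _ Prod.fst (φ₀ ∘ g) F.prod.cont (Λ.continuousOn_symm.mono sdiff_subset) hm
    (fun z hz => (hMOC _ (Hf Q s) n N hN.o hc).2.2.1 z (hs hz.1).1
      (Or.inl fun h => hz.2 ((hB _ (hs hz.1).1).2 h)))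
    (fun y hy x hx => hLH x fun h => hy.2 ((hbb y hy.1).2 (by rwa [hx] at h)))
    (c.congr fun y hy => congrArg Prod.fst (Λ.right_inv hy.1)) c₂
    ⟨fun _ => (mpr_surj (Hf Q s) n w).choose⟩
  exact ⟨Λ, φ ∘ g', ⟨hf, fun y hy => (hT hy).2⟩,
    ⟨hb, hbb, hN.car.comp hg' fun y hy => ⟨(hs (hm hy).1).1, (hm hy).2⟩⟩, hwΛ,
    fun y hy => (hs hy).2⟩

end Pool.Agent.P.MP_ab0431_ag.UB.V2

namespace Pool.Agent.P.MP_ab0431_ag.UB.V2

open Polynomial Set Filter Topology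
open scoped Manifold ContDiff

theorem p_STEP :
    S_STEP := by
  intro M X Y _ _ _ _ F A B q W₀ r μ φ Ψ V D τ hq hr hW hM hΨ hV hD hc hτ hVD
  obtain ⟨ν, n1, n2, n3, n4, n5, -⟩ := t_SLC M Ψ τ hΨ.bi hΨ.fs
  obtain ⟨A', hA⟩ := hΨ.bb
  have hD' : IsOpen (Prod.snd ⁻¹' D : Set (M × ℂ)) := hD.preimage continuous_snd
  obtain ⟨Λ, hb, hs, ht, e1, e2⟩ : ∃ Λ : OpenPartialHomeomorph (M × ℂ) (M × ℂ), Bi (C2 × ℂ) Λ ∧
      (∀ w, w ∈ Λ.source ↔ w ∈ Ψ.source ∧ (Ψ w).1 ∈ V ∧ w.2 ∈ D ∧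
        (Ψ.symm ((Ψ w).1, τ)).1 ∈ μ.source) ∧
      (∀ w, w ∈ Λ.target ↔ w.1 ∈ μ.target ∧ (μ.symm w.1, τ) ∈ Ψ.source ∧
        (Ψ (μ.symm w.1, τ)).1 ∈ V ∧ w.2 ∈ D) ∧
      (∀ w, Λ w = (μ (Ψ.symm ((Ψ w).1, τ)).1, (Ψ w).2)) ∧
      ∀ w, Λ.symm w = Ψ.symm ((Ψ (μ.symm w.1, τ)).1, w.2) := by
    refine ⟨(Ψ.trans (((ν.symm.restrOpen V hV).trans μ).prod
      (OpenPartialHomeomorph.refl ℂ))).restrOpen _ hD',
      (hΨ.bi.trans ((n1.symm.restr hV).trans hM.bi).prod).restr hD', fun w => ?_, fun w => ?_,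
      fun w => by rw [← n5]; rfl, fun w => by rw [← n4]; rfl⟩
    · rw [← n5]
      exact ⟨fun h => ⟨h.1.1, h.1.2.1.1.2, h.2, h.1.2.1.2⟩, fun h => ⟨⟨h.1, ⟨⟨by
        change _ ∈ ν.target; rw [n3]; exact hVD ⟨h.2.1, hτ⟩, h.2.1⟩, h.2.2.2⟩, trivial⟩, h.2.2.1⟩⟩
    · rw [← n4]
      refine ⟨fun h => ⟨h.1.1.1.1, ?_, h.1.1.1.2.2, ?_⟩, fun h => ?_⟩
      · have : μ.symm w.1 ∈ ν.source := h.1.1.1.2.1
        rwa [n2] at this
      · exact mem_of_eq_of_mem (hΨ.fs.symm _ h.1.2).symm h.2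
      · have h1 : (ν (μ.symm w.1), w.2) ∈ Ψ.target := hVD ⟨h.2.2.1, h.2.2.2⟩
        have h2 := mem_of_eq_of_mem (hΨ.fs.symm _ h1) h.2.2.2
        refine ⟨⟨⟨⟨h.1, ?_, h.2.2.1⟩, trivial⟩, h1⟩, h2⟩
        change _ ∈ ν.source; rw [n2]; exact h.2.1
  have hbb : ∀ w ∈ Λ.source, (w ∈ B ↔ Λ w ∈ Prod.fst ⁻¹' A) := fun w hw => by
    obtain ⟨h1, h2, -, h4⟩ := (hs w).1 hw
    have h5 : ((Ψ w).1, τ) ∈ Ψ.target := hVD ⟨h2, hτ⟩
    have h6 : ((Ψ.symm ((Ψ w).1, τ)).1, τ) = Ψ.symm ((Ψ w).1, τ) :=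
      Prod.ext rfl (hΨ.fs.symm _ h5).symm
    rw [e1, mem_preimage, ← hM.bb _ h4, mem_ofPred, h6, hA _ (Ψ.map_target h5), Ψ.right_inv h5,
      hA w h1]
  have hm : ∀ w ∈ Λ.target, ∀ s ∈ Icc (0 : ℝ) 1, (w.1, τ + s * (w.2 - τ)) ∈ Λ.target :=
    fun w hw s h => by
      rw [ht] at hw ⊢
      exact ⟨hw.1, hw.2.1, hw.2.2.1, hc.add_smul_sub_mem hτ hw.2.2.2 h⟩
  have c : Car F.prod.π F.π Prod.fst (Λ.target \ Prod.fst ⁻¹' A) Prod.fst :=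
    ⟨continuousOn_fst, fun _ _ => rfl, fun _ _ _ h h' => Prod.ext h' (Prod.ext_iff.1 h).2,
      fun w _ z hz => ⟨(z, w.2), Prod.ext hz rfl, rfl⟩⟩
  obtain ⟨φ', h⟩ := t_HL _ _ X Y F.prod.π q (Λ.target \ Prod.fst ⁻¹' A) W₀
    (fun x => r (Λ.symm (x.1.1, τ + x.2 * (x.1.2 - τ)))) _ hq F.prod.cont
    (hr.comp_continuousOn (Λ.continuousOn_symm.comp (by fun_prop) fun x hx => hm _ hx.1.1 _ hx.2))
    (fun w hw s h => hW _ ((hs _).1 (Λ.map_target (hm w hw.1 s h))).2.2.1 fun hB => hw.2 (by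
      rwa [hbb _ (Λ.map_target (hm w hw.1 s h)), Λ.right_inv (hm w hw.1 s h)] at hB))
    ((hM.car.comp c fun w hw => ⟨((ht w).1 hw.1).1, hw.2⟩).congr fun w hw => by
      have h1 := ((ht w).1 hw.1).2.1
      have h2 : ((Ψ (μ.symm w.1, τ)).1, τ) = Ψ (μ.symm w.1, τ) :=
        Prod.ext rfl (hΨ.fs _ h1).symm
      simp only [e2, Complex.ofReal_zero, zero_mul, add_zero, h2, Ψ.left_inv h1]
      rfl)
  exact ⟨Λ, φ', ⟨fun w hw => by rw [e1]; exact hΨ.fs w ((hs w).1 hw).1,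
    fun w hw => ((ht w).1 hw).1⟩, ⟨hb, hbb, h.congr fun w _ => by simp⟩, hs⟩

end Pool.Agent.P.MP_ab0431_ag.UB.V2

namespace Pool.Agent.P.MP_ab0431_ag.UB.V2

open Polynomial Set Filter Topology
open scoped Manifold ContDiff

theorem loc_prop2 {M : Type} [TopologicalSpace M] [ChartedSpace C2 M] [CompactSpace M]
    {B Ω N : Set (M × ℂ)} {U : Set ℂ} (hU : IsOpen U) (hΩ : IsOpen Ω) (hN : IsOpen N)
    (hNΩ : ∀ w : M × ℂ, w.2 ∈ U → w ∉ N → w ∈ Ω)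
    (hB : ∀ w ∈ Ω, ∃ Ψ, Box B Ψ ∧ w ∈ Ψ.source) {t₁ : ℂ} (h : t₁ ∈ U) :
    ∃ ε > 0, Metric.ball t₁ ε ⊆ U ∧ ∀ t ∈ Metric.ball t₁ ε, ∀ y, (y, t) ∈ N ∨ ∃ Ψ V, Box B Ψ ∧
      Ψ.source ⊆ Ω ∧ (y, t) ∈ Ψ.source ∧ IsOpen V ∧ (Ψ (y, t)).1 ∈ V ∧
      V ×ˢ Metric.ball t₁ ε ⊆ Ψ.target := by
  have small : ∀ δ : ℝ, 0 < δ → ∀ᶠ x : ℂ × ℝ in 𝓝 (t₁, 0),
      Metric.ball t₁ x.2 ⊆ Metric.ball t₁ δ := fun δ hδ =>
    (continuous_snd.continuousAt.eventually (gt_mem_nhds hδ)).mono fun x hx =>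
      Metric.ball_subset_ball hx.le
  have a := isCompact_univ.eventually_forall_of_forall_eventually (x₀ := ((t₁, 0) : ℂ × ℝ))
    (P := fun x (y : M) => (y, x.1) ∈ N ∨ ∃ Ψ V, Box B Ψ ∧ Ψ.source ⊆ Ω ∧ (y, x.1) ∈ Ψ.source ∧
      IsOpen V ∧ (Ψ (y, x.1)).1 ∈ V ∧ V ×ˢ Metric.ball t₁ x.2 ⊆ Ψ.target) fun y _ => by
    have c : ContinuousAt (fun z : (ℂ × ℝ) × M => (z.2, z.1.1)) ((t₁, 0), y) := by fun_prop
    by_cases hyN : (y, t₁) ∈ N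
    · filter_upwards [c.eventually (hN.mem_nhds hyN)] with z h1
      exact Or.inl h1
    have hyΩ := hNΩ (y, t₁) h hyN
    obtain ⟨Ψ₀, b₀, hy₀⟩ := hB (y, t₁) hyΩ
    obtain ⟨Ψ, b, hs, hy⟩ : ∃ Ψ, Box B Ψ ∧ Ψ.source ⊆ Ω ∧ (y, t₁) ∈ Ψ.source := by
      obtain ⟨A, hA⟩ := b₀.bb
      exact ⟨Ψ₀.restrOpen Ω hΩ, ⟨b₀.bi.restr hΩ, fun w hw => b₀.fs w hw.1,
        A, fun w hw => hA w hw.1⟩, fun w hw => hw.2, hy₀, hyΩ⟩
    obtain ⟨V, D, oV, oD, mV, mD, s⟩ := isOpen_prod_iff.1 Ψ.open_target _ _ (Ψ.map_source hy)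
    obtain ⟨δ, hδ, hD⟩ := Metric.isOpen_iff.1 oD t₁ (mem_of_eq_of_mem (b.fs _ hy).symm mD)
    filter_upwards [c.eventually (Ψ.open_source.mem_nhds hy),
      (continuousAt_fst.comp ((Ψ.continuousAt hy).comp_of_eq c rfl)).eventually (oV.mem_nhds mV),
      continuousAt_fst.eventually (small δ hδ)] with z h1 h2 h3
    exact Or.inr ⟨Ψ, V, b, hs, h1, oV, h2, (prod_mono Subset.rfl (h3.trans hD)).trans s⟩
  obtain ⟨δ, hδ, hD⟩ := Metric.isOpen_iff.1 hU _ h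
  obtain ⟨η, hη, c⟩ := Metric.eventually_nhds_iff.1 (a.and (small δ hδ))
  have d : ∀ t ∈ Metric.ball t₁ (η / 2), dist (t, η / 2) (t₁, 0) < η := fun t ht => by
    rw [Prod.dist_eq, Real.dist_eq, sub_zero, abs_of_pos (half_pos hη)]
    exact max_lt (lt_trans ht (half_lt_self hη)) (half_lt_self hη)
  exact ⟨η / 2, half_pos hη, (c (d t₁ (Metric.mem_ball_self (half_pos hη)))).2.trans hD,
    fun t ht y => (c (d t ht)).1 y trivial⟩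

theorem p_PROP (hSTEP : S_STEP) :
    S_PROP := by
  intro M _ _ _ F A O B Ω N r U t₀ hc hr hrA hU hU' hO hΩ hN hΩU hNΩ hB hM h₀ hB₀ hr₀ hO₀
  let P : ℂ → Prop := fun t => ∀ y, (y, t) ∈ Ω → ∃ μ φ,
    Md F A {y | (y, t) ∈ B} F.π (fun y => r (y, t)) μ φ ∧ y ∈ μ.source ∧ μ.target ⊆ O
  let R : ℂ → Prop := fun t => ∀ y, (y, t) ∈ Ω → ∃ Λ φ, Rf O Λ ∧
    Md F.prod (Prod.fst ⁻¹' A) B F.π r Λ φ ∧ (y, t) ∈ Λ.source ∧ Λ.source ⊆ Ω
  have RP : ∀ t, R t → P t := fun t h y hy => by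
    obtain ⟨Λ, φ, a, b, c, -⟩ := h y hy
    obtain ⟨μ, -, d, d', -, -, e⟩ := t_SLC M Λ t b.bi a.1
    refine ⟨μ, _, e F.Z M F A B F.π r φ b, d ▸ c, fun z hz => ?_⟩
    rw [d'] at hz
    exact a.2 hz
  have step : ∀ t₁ ∈ U, ∃ ε > 0, ∀ τ ∈ Metric.ball t₁ ε, ∀ t ∈ Metric.ball t₁ ε, P τ → R t :=
    fun t₁ h₁ => by
      obtain ⟨ε, hε, hs, h⟩ := loc_prop2 hU hΩ hN hNΩ hB h₁
      refine ⟨ε, hε, fun τ hτ t ht hP y hy => ?_⟩
      rcases h t ht y with hn | ⟨Ψ, V, b, h0, h1, h2, h3, h4⟩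
      · exact hM (y, t) ⟨hy, hn⟩
      have k1 : ((Ψ (y, t)).1, τ) ∈ Ψ.target := h4 ⟨h3, hτ⟩
      have k2 : (Ψ.symm ((Ψ (y, t)).1, τ)).2 = τ := b.fs.symm _ k1
      have k3 : ((Ψ.symm ((Ψ (y, t)).1, τ)).1, τ) ∈ Ω := by
        have k4 := h0 (Ψ.map_target k1)
        have k5 : ((Ψ.symm ((Ψ (y, t)).1, τ)).1, τ) = Ψ.symm ((Ψ (y, t)).1, τ) :=
          Prod.ext rfl k2.symm
        rw [k5]
        exact k4
      obtain ⟨μ, φ, m, hm, hmO⟩ := hP (Ψ.symm ((Ψ (y, t)).1, τ)).1 k3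
      obtain ⟨Λ, φ', a, c, d⟩ := hSTEP M F.Z M F A B F.π Aᶜ r μ φ Ψ V (Metric.ball t₁ ε) τ hc hr
        (fun w hw => hrA w (hs hw)) m b h2 Metric.isOpen_ball (convex_ball _ _) hτ h4
      exact ⟨Λ, φ', ⟨a.1, fun w hw => hmO (a.2 hw)⟩, c, (d _).2 ⟨h1, h3, ht, hm⟩,
        fun w hw => h0 ((d w).1 hw).1⟩
  have P0 : P t₀ := fun y hy => ⟨(OpenPartialHomeomorph.refl M).restrOpen O hO, id,
    ⟨Bi.refl.restr hO, fun w _ => hB₀ w, Car.refl.congr fun w _ => hr₀ w⟩,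
    ⟨trivial, hO₀ y hy⟩, fun z hz => hz.2⟩
  intro w hw
  have hwU : w.2 ∈ U := hΩU hw
  have Pw : P w.2 := hU'.induction₂' (P := fun x y => P x → P y) (fun x hx => by
    obtain ⟨ε, hε, h⟩ := step x hx
    filter_upwards [mem_nhdsWithin_of_mem_nhds (Metric.ball_mem_nhds x hε)] with y hy
    exact ⟨fun a => RP _ (h x (Metric.mem_ball_self hε) y hy a),
      fun a => RP _ (h y hy x (Metric.mem_ball_self hε) a)⟩)
    (fun _ _ _ _ _ _ a b c => b (a c)) h₀ hwU P0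
  obtain ⟨ε, hε, h⟩ := step w.2 hwU
  exact h _ (Metric.mem_ball_self hε) _ (Metric.mem_ball_self hε) Pw w.1 hw

end Pool.Agent.P.MP_ab0431_ag.UB.V2

namespace Pool.Agent.P.MP_ab0431_ag.UB.V2

open Polynomial Set Filter Topology
open scoped Manifold ContDiff

theorem p_CM0 (hWM : S_WM) (hSM : S_SM) (hPROP : S_PROP) (hTBOX : S_TBOX) (hCVB : S_CVB) (hMUL : S_MUL) :
    S_CM0 := by
  intro Q X b m d nn V s G t₀ F h π S H ht C
  obtain ⟨N₀, φ₀, N, φ, hN⟩ := hWM Q X b m d nn V s G t₀ F h π S H ht C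
  obtain ⟨-, -, -, -, c1, c2, -⟩ := hCVB Q X b m d _ F h π S (H.good ht) C
  have hS : IsClosed S := C.finS.isClosed
  have hΩ : IsOpen (Omg V (rr G t₀) S) :=
    (H.str.isOpen.preimage continuous_snd).inter (hS.isOpen_compl.preimage (H.r_cont t₀))
  refine ⟨⟨N₀, φ₀, N, φ, hN⟩, hΩ, fun t htV => ?_, ?_⟩
  · refine ((hMUL Q b m (s t) (H.good htV).1).2 (H.good htV)).subset fun y hy => ?_
    have h1 := C.cr _ (not_not.1 fun e => hy ⟨htV, e⟩)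
    rwa [H.mu_r ht (w := (y, t)) htV] at h1
  · refine hPROP Q.Y (cvr X h) (Bc Q (s t₀)) Sᶜ (Fam Q s) _ N (rr G t₀) V t₀ c1 (H.r_cont t₀)
      (fun w hw hB e => hB ((H.mem_r ht hw).1 e)) H.str.isOpen H.cvx.isPreconnected
      hS.isOpen_compl hΩ hN.o (fun w hw => hw.1) (fun w hw e => ⟨hw, fun e' => e (hN.sig w hw e')⟩)
      (fun w hw => hTBOX Q b m nn 0 V s H.str w hw.1 ?_)
      (hSM Q b m nn (d - 2) V s G t₀ (cvr X h) S N₀ φ₀ N φ H ht hS c2 hN) ht (fun y => Iff.rfl)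
      H.r_id fun y hy => H.r_id (t₀ := t₀) y ▸ hy.2
    rw [← H.mu_r ht hw.1]
    exact not_lt.1 fun e => hw.2 (C.t3 _ e)

end Pool.Agent.P.MP_ab0431_ag.UB.V2

namespace Pool.Agent.P.MP_ab0431_ag.UB.V2

open Polynomial Set Filter Topology
open scoped Manifold ContDiff

theorem p_TRSN :
    S_TRSN := by
  intro E M X Y _ _ _ _ _ _ _ _ F A O B q r Λ Λ' φ φ' hO G0 zl t t' lh m m'
  set k := Λ.symm.trans Λ'
  have a : ∀ w ∈ k.source, (k w ∈ A ↔ w ∈ A) := fun w hw =>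
    (m'.bb _ hw.2).symm.trans ((m.bb _ (Λ.map_target hw.1)).trans (by rw [Λ.right_inv hw.1]))
  obtain ⟨g, c, e⟩ := t_DIVC _ _ _ _ _ _ F.π F.π q k (r ∘ Λ'.symm) (k.source \ A) (Λ'.target \ A)
    φ φ' F.cont (k.continuousOn.mono sdiff_subset)
    (fun w hw => ⟨Λ'.map_source hw.1.2, fun h => hw.2 ((a w hw.1).1 h)⟩)
    (fun z hz => (G0.loc z (t' hz.1) hz.2).lh)
    (fun w hw => lh _ ⟨Λ'.map_target hw.1, fun h => hw.2
      (Λ'.right_inv hw.1 ▸ (m'.bb _ (Λ'.map_target hw.1)).1 h)⟩)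
    ((m.car.mono fun w hw => ⟨hw.1.1, hw.2⟩).congr fun w hw => congrArg r (Λ'.left_inv hw.1.2))
    m'.car ⟨id⟩
  have o := k.open_source.preimage F.cont
  obtain ⟨g', h1, h2, h3⟩ := t_XT1 E E F.Z M F A O (F.π ⁻¹' k.source) (F.π ⁻¹' A) (k ∘ F.π) g
    hO G0 o (zl.pull o F.hol.mdifferentiableOn (mapsTo_univ _ _))
    (fun z hz => o.inter_closure ⟨hz, G0.thin z (t hz.1)⟩)
    ((m.bi.symm.trans m'.bi).hol.comp F.hol.mdifferentiableOn fun _ h => h)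
    (fun z hz => t' (Λ'.map_source hz.2))
    (fun z hz h => hz.2 ((a _ hz.1).1 h)) c.cont c.comm
  exact ⟨g', h1, fun z hz => ⟨h3 z hz, fun h => h2 ⟨hz, h⟩ ▸ e z ⟨hz, h⟩⟩⟩

end Pool.Agent.P.MP_ab0431_ag.UB.V2

namespace Pool.Agent.P.MP_ab0431_ag.UB.V2

open Polynomial Set Filter Topology
open scoped Manifold ContDiff

section
variable {E M X Y : Type} [NormedAddCommGroup E] [NormedSpace ℂ E] [TopologicalSpace M]
  [ChartedSpace E M] [T2Space M] [TopologicalSpace X] {F : Cv E M} {A B U : Set M} {q : X → Y}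
  {r : M → Y} {Λ Λ' : OpenPartialHomeomorph M M} {φ φ' : F.Z → X} {m m' : F.Z}

open ZCONa

theorem nb_zcon2 (h : F.G0 A U) {O : Set M} (ho : IsOpen O) (hU : O ⊆ U) (hm : F.π m ∈ O) :
    (𝓝[F.π ⁻¹' (O \ A)] m).NeBot :=
  mem_closure_iff_nhdsWithin_neBot.1
    ((ho.preimage F.cont).inter_closure ⟨hm, h.thin m (hU hm)⟩)

theorem fl_inj_zcon2 (h : F.G0 A U) (hU : Λ.target ⊆ U) (d : Md F A B q r Λ φ)
    (hm : F.π m ∈ Λ.target) (e : fl F A Λ φ m ≤ fl F A Λ φ m') : m = m' := by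
  have := nb_zcon2 h Λ.open_target hU hm
  have h1 := (map_le_map_iff_of_injOn self_mem_nhdsWithin self_mem_nhdsWithin fun x hx y hy e =>
    d.car.inj y x hy (Λ.symm.injOn hx.1 hy.1 (congrArg Prod.fst e)) (congrArg Prod.snd e)).1 e
  exact eq_of_nhds_neBot (this.mono (le_inf nhdsWithin_le_nhds (h1.trans nhdsWithin_le_nhds)))

theorem fl_eq_zcon2 (h : F.G0 A U) (hU : Λ.target ⊆ U) (hm : F.π m ∈ Λ.target)
    (hm' : F.π m' ∈ Λ'.target) (e : fl F A Λ φ m = fl F A Λ' φ' m') :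
    Λ.symm (F.π m) = Λ'.symm (F.π m') := by
  have := nb_zcon2 h Λ.open_target hU hm
  have : (fl F A Λ φ m).NeBot := map_neBot
  exact tendsto_nhds_unique (fl_fst hm) (e ▸ fl_fst hm')

theorem fl_tr_zcon2 {g g' : F.Z → F.Z} (h : F.G0 A U) (hU : Λ.target ⊆ U)
    (d : Md F A B q r Λ φ)
    (d' : Md F A B q r Λ' φ') (t : Tr F A Λ Λ' φ φ' g) (t' : Tr F A Λ' Λ φ' φ g')
    (hm : F.π m ∈ (Λ.symm.trans Λ').source) : fl F A Λ' φ' (g m) = fl F A Λ φ m := by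
  have h1 := fl_le d d' t hm
  have h2 : F.π (g m) ∈ (Λ'.symm.trans Λ).source := by
    rw [(t.2 m hm).1]
    refine ⟨Λ'.map_source hm.2, ?_⟩
    exact mem_preimage.2 (mem_of_eq_of_mem (Λ'.left_inv hm.2) (Λ.map_target hm.1))
  have h3 := fl_le d' d t' h2
  rw [← fl_inj_zcon2 h hU d hm.1 (h1.trans h3)] at h3
  exact h3.antisymm h1

end

open ZCONa in
theorem p_ZCON (hTRSN : S_TRSN) :
    S_ZCON := by
  classical
  intro E M X Y _ _ _ _ _ _ _ _ F A U B Ω q r R hU h hZ hR hs ⟨w₀, hw₀⟩ hq H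
  have : CompleteSpace E := FiniteDimensional.complete ℂ E
  let α := {a : OpenPartialHomeomorph M M × (F.Z → X) //
    R a.1 ∧ Md F A B q r a.1 a.2 ∧ a.1.source ⊆ Ω}
  let O : α → Set F.Z := fun a => F.π ⁻¹' a.1.1.target
  have oO : ∀ a, IsOpen (O a) := fun a => a.1.1.open_target.preimage F.cont
  have tr : ∀ a b : α, ∃ g, Tr F A a.1.1 b.1.1 a.1.2 b.1.2 g := fun a b =>
    hTRSN E M X Y F A U B q r _ _ _ _ hU h hZ (hR _ a.2.1) (hR _ b.2.1)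
      (fun w hw => hq w ⟨b.2.2.2 hw.1, hw.2⟩) a.2.2.1 b.2.2.1
  choose g hg using tr
  let Z := {Φ : Filter (M × X) // ∃ a : α, ∃ m ∈ O a, fl F A a.1.1 a.1.2 m = Φ}
  obtain ⟨z₀⟩ : Nonempty Z := by
    obtain ⟨Λ, φ, a, b, c, d⟩ := H w₀ hw₀
    obtain ⟨m, hm⟩ := hs (hR _ a (Λ.map_source c))
    exact ⟨⟨_, ⟨(Λ, φ), a, b, d⟩, m, by
      show F.π m ∈ Λ.target
      rw [hm]; exact Λ.map_source c, rfl⟩⟩
  let ι : α → F.Z → Z := fun a m => if hm : m ∈ O a then ⟨_, a, m, hm, rfl⟩ else z₀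
  have hι : ∀ a, ∀ m ∈ O a, (ι a m).1 = fl F A a.1.1 a.1.2 m := fun a m hm => by
    simp only [ι, dif_pos hm]
  have inj : ∀ a, InjOn (ι a) (O a) := fun a m hm m' hm' e =>
    fl_inj_zcon2 h (hR _ a.2.1) a.2.2.1 hm (by rw [← hι a m hm, e, hι a m' hm'])
  have cov : ∀ z, ∃ a, ∃ m ∈ O a, ι a m = z := fun ⟨_, a, m, hm, e⟩ =>
    ⟨a, m, hm, Subtype.ext ((hι a m hm).trans e)⟩
  have base : ∀ a b, ∀ m ∈ O a, ∀ m' ∈ O b, ι a m = ι b m' →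
      a.1.1.symm (F.π m) = b.1.1.symm (F.π m') := fun a b m hm m' hm' e =>
    fl_eq_zcon2 h (hR _ a.2.1) hm hm' (by rw [← hι a m hm, e, hι b m' hm'])
  have trn : ∀ a b m, F.π m ∈ (a.1.1.symm.trans b.1.1).source →
      g a b m ∈ O b ∧ ι b (g a b m) = ι a m := fun a b m hm => by
    have h1 : g a b m ∈ O b := by
      show F.π _ ∈ b.1.1.target
      rw [((hg a b).2 m hm).1]; exact b.1.1.map_source hm.2
    exact ⟨h1, Subtype.ext (by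
      rw [hι _ _ h1, hι a m hm.1, 
        fl_tr_zcon2 h (hR _ a.2.1) a.2.2.1 b.2.2.1 (hg a b) (hg b a) hm])⟩
  have src : ∀ a b, ∀ m ∈ O a, ∀ m' ∈ O b, ι a m = ι b m' →
      F.π m ∈ (a.1.1.symm.trans b.1.1).source := fun a b m hm m' hm' e => ⟨hm, by
    show a.1.1.symm _ ∈ b.1.1.source
    rw [base a b m hm m' hm' e]; exact b.1.1.map_target hm'⟩
  obtain ⟨top, cs, mfd, he⟩ := t_GLUE0 E F.Z Z α O ι oO inj cov fun a b m hm ⟨m', hm', e⟩ => by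
    have ho := (a.1.1.symm.trans b.1.1).open_source.preimage F.cont
    refine ⟨g a b, ?_⟩
    filter_upwards [ho.mem_nhds (src a b m hm m' hm' e.symm)] with y hy
    exact ⟨(hg a b).1.mdifferentiableAt (ho.mem_nhds hy), trn a b y hy⟩
  choose e e1 e2 e3 using he
  choose ia im i1 i2 using cov
  let P : Z → M := fun z => (ia z).1.1.symm (F.π (im z))
  let κ : Z → X := fun z => (ia z).1.2 (im z)
  have hP : ∀ a, ∀ m ∈ O a, P (e a m) = a.1.1.symm (F.π m) := fun a m hm =>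
    base _ _ _ (i1 _) m hm ((i2 _).trans (e2 a hm))
  have hκ : ∀ a, ∀ m ∈ O a, F.π m ∉ A → κ (e a m) = a.1.2 m := fun a m hm hA => by
    have h1 := (e2 a hm).symm.trans (i2 (e a m)).symm
    have h2 := src _ _ m hm _ (i1 _) h1
    have h3 := trn _ _ m h2
    rw [← ((hg _ _).2 m h2).2 hA, inj _ h3.1 (i1 _) (h3.2.trans h1)]
  have tg : ∀ a, (e a).target = P ⁻¹' a.1.1.source := fun a => by
    refine Subset.antisymm (fun z hz => ?_) fun z hz => ?_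
    · have h1 : (e a).symm z ∈ O a := e1 a ▸ (e a).map_target hz
      rw [mem_preimage, ← (e a).right_inv hz, hP a _ h1]
      exact a.1.1.map_target h1
    · have h1 := trn (ia z) a (im z) ⟨i1 z, hz⟩
      rw [← i2 z, ← h1.2, ← e2 a h1.1]
      exact (e a).map_source (e1 a ▸ h1.1)
  have mem : ∀ z, z ∈ (e (ia z)).target := fun z => by
    rw [tg]; exact (ia z).1.1.map_target (i1 z)
  have hol : MDifferentiable 𝓘(ℂ, E) 𝓘(ℂ, E) P := fun z => by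
    have ht := (e (ia z)).open_target.mem_nhds (mem z)
    have h1 : ∀ y ∈ (e (ia z)).target, (e (ia z)).symm y ∈ O (ia z) := fun y hy =>
      e1 (ia z) ▸ (e (ia z)).map_target hy
    refine ((((ia z).2.2.1.bi.inv.comp (F.hol.comp_mdifferentiableOn (e3 (ia z)).inv) h1).congr
      fun y hy => ?_).mdifferentiableAt ht)
    rw [← (e (ia z)).right_inv hy, hP _ _ (h1 y hy), (e (ia z)).right_inv hy]
    rfl
  have t2 : T2Space Z := ⟨fun z z' ne => by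
    by_cases hp : P z = P z'
    · have h1 : z' ∈ (e (ia z)).target := by
        rw [tg, mem_preimage, ← hp]; exact (ia z).1.1.map_target (i1 z)
      obtain ⟨u, v, hu, hv, a, b, c⟩ := t2_separation
        fun h2 => ne ((e (ia z)).symm.injOn (mem z) h1 h2)
      exact ⟨_, _, (e (ia z)).isOpen_inter_preimage_symm hu,
        (e (ia z)).isOpen_inter_preimage_symm hv, ⟨mem z, a⟩, ⟨h1, b⟩,
        disjoint_left.2 fun y h3 h4 => disjoint_left.1 c h3.2 h4.2⟩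
    · exact separated_by_continuous hol.continuous hp⟩
  refine ⟨Cv.mk Z mfd t2 P hol, κ, ⟨fun z => (ia z).2.2.2 ((ia z).1.1.map_target (i1 z)),
    fun w hw => ?_⟩, ⟨z₀⟩⟩
  obtain ⟨Λ, φ, a, b, c, d⟩ := H w hw
  let x : α := ⟨(Λ, φ), a, b, d⟩
  exact ⟨Λ, φ, e x, a, b, c, e3 x, e1 x, tg x, fun m hm => hP x m (e1 x ▸ hm),
    fun m hm => hκ x m (e1 x ▸ hm)⟩

end Pool.Agent.P.MP_ab0431_ag.UB.V2

namespace Pool.Agent.P.MP_ab0431_ag.UB.V2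

open Polynomial Set Filter Topology
open scoped Manifold ContDiff

theorem p_ASMG :
    S_ASMG := by
  classical
  rintro E M X Y _ _ _ _ _ _ _ F A O B Ω q r R G κ hF hR ⟨hΩ, h⟩
  have := FiniteDimensional.proper ℂ E
  have := ChartedSpace.locallyCompactSpace E M
  have dat : ∀ w ∈ Ω, ∃ (Λ : OpenPartialHomeomorph M M) (φ : F.Z → X)
      (e : OpenPartialHomeomorph F.Z G.Z), Λ.target ⊆ O ∧ Md F A B q r Λ φ ∧ w ∈ Λ.source ∧
      e.source = F.π ⁻¹' Λ.target ∧ e.target = G.π ⁻¹' Λ.source ∧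
      (∀ m ∈ e.source, G.π (e m) = Λ.symm (F.π m)) ∧
      (∀ z ∈ e.target, F.π (e.symm z) = Λ (G.π z)) ∧
      (∀ C ⊆ Λ.source, G.π ⁻¹' C = e '' (F.π ⁻¹' (Λ '' C)) ∧ F.π ⁻¹' (Λ '' C) ⊆ e.source) ∧
      (∀ m ∈ e.source, F.Loc m → G.Loc (e m)) ∧ (∀ m ∈ e.source, F.π m ∉ A → κ (e m) = φ m) ∧
      ∀ z ∈ e.target, G.π z ∉ B → F.π (e.symm z) ∈ Λ.target \ A ∧ κ z = φ (e.symm z) := by
    intro w hw
    obtain ⟨Λ, φ, e, hR', hM, hw', hb, hs, ht, he, hκ⟩ := h w hw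
    have k : ∀ z ∈ e.target, F.π (e.symm z) = Λ (G.π z) := fun z hz => by
      have h1 := he _ (e.map_target hz)
      rw [e.right_inv hz] at h1
      rw [h1, Λ.right_inv (hs.subset (e.map_target hz))]
    refine ⟨Λ, φ, e, hR Λ hR', hM, hw', hs, ht, he, k, fun C hC => ?_, ?_, hκ, fun z hz hB => ?_⟩
    · have h2 : F.π ⁻¹' (Λ '' C) ⊆ e.source := by
        rintro m ⟨c, hc, h1⟩
        rw [hs, mem_preimage, ← h1]
        exact Λ.map_source (hC hc)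
      refine ⟨Subset.antisymm (fun z hz => ?_) ?_, h2⟩
      · have h1 : z ∈ e.target := ht.superset (hC hz)
        exact ⟨e.symm z, ⟨_, hz, (k z h1).symm⟩, e.right_inv h1⟩
      · rintro _ ⟨m, ⟨c, hc, h1⟩, rfl⟩
        rw [mem_preimage, he m (h2 ⟨c, hc, h1⟩), ← h1, Λ.left_inv (hC hc)]
        exact hc
    · rintro m hm ⟨e0, h0, h1, h2⟩
      refine ⟨e.symm.trans (e0.trans Λ.symm), ⟨e.map_source hm, ?_⟩, fun z hz => ?_, ?_⟩
      · change e.symm (e m) ∈ (e0.trans Λ.symm).source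
        rw [e.left_inv hm]
        exact ⟨h0, show e0 m ∈ Λ.target from h1 h0 ▸ hs.subset hm⟩
      · change Λ.symm (e0 (e.symm z)) = _
        rw [h1 (show e.symm z ∈ e0.source from hz.2.1), ← he _ (e.map_target hz.1),
          e.right_inv hz.1]
      · exact hb.hol.comp ((h2.comp (hM.bi.hol.mono fun _ hx => hx.1)
          fun _ hx => hx.2).mono fun _ hx => hx.1) fun _ hx => hx.2
    · have h1 : F.π (e.symm z) ∉ A := by rw [k z hz, ← hM.bb _ (ht.subset hz)]; exact hB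
      exact ⟨⟨hs.subset (e.map_target hz), h1⟩, by rw [← hκ _ (e.map_target hz) h1, e.right_inv hz]⟩
  refine ⟨⟨fun K hK hc => ?_, fun w hw => ?_, fun z hz hB => ?_, fun z hz => ?_⟩,
    ⟨fun z hz => ?_, fun z hz => ?_, fun z z' hz h1 h2 => ?_, fun w hw x hx => ?_⟩,
    fun d hd => ⟨fun w hw hB => ?_, fun w hw => ?_⟩⟩
  · obtain ⟨C, hC, hs⟩ : ∃ C, IsCompact C ∧ G.π ⁻¹' K ⊆ C := by
      refine hc.induction_on (p := fun S => ∃ C, IsCompact C ∧ G.π ⁻¹' S ⊆ C)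
        ⟨∅, isCompact_empty, subset_rfl⟩
        (fun _ _ hs ⟨C, h1, h2⟩ => ⟨C, h1, (preimage_mono hs).trans h2⟩)
        (fun _ _ ⟨C, h1, h2⟩ ⟨C', h3, h4⟩ => ⟨_, h1.union h3, union_subset_union h2 h4⟩)
        fun w hw => ?_
      obtain ⟨Λ, φ, e, hO, -, hw', -, -, -, -, hf, -⟩ := dat w (hK hw)
      obtain ⟨C, h1, h2, h3⟩ := exists_compact_subset Λ.open_source hw'
      exact ⟨C, mem_nhdsWithin_of_mem_nhds (mem_interior_iff_mem_nhds.1 h2), _,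
        (hF.prop _ (((Λ.mapsTo.mono_left h3).image_subset).trans hO) (h1.image_of_continuousOn (Λ.continuousOn.mono h3))).image_of_continuousOn
          (e.continuousOn.mono (hf C h3).2), (hf C h3).1.subset⟩
    exact hC.of_isClosed_subset (hc.isClosed.preimage G.cont) hs
  · obtain ⟨Λ, φ, e, hO, -, hw', -, -, -, -, hf, -⟩ := dat w hw
    rw [(hf {w} (singleton_subset_iff.2 hw')).1, image_singleton]
    exact (hF.fin _ (hO (Λ.map_source hw'))).image _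
  · obtain ⟨Λ, φ, e, hO, -, hw', -, ht, -, -, -, hl, -, hk⟩ := dat _ hz
    have h1 : z ∈ e.target := ht.superset hw'
    rw [← e.right_inv h1]
    exact hl _ (e.map_target h1) (hF.loc _ (hO (hk z h1 hB).1.1) (hk z h1 hB).1.2)
  · obtain ⟨Λ, φ, e, hO, hM, hw', hs, ht, he, -⟩ := dat _ hz
    have h1 : z ∈ e.target := ht.superset hw'
    have h2 := e.map_target h1
    rw [← e.right_inv h1]
    refine (e.continuousAt h2).continuousWithinAt.mem_closure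
      (e.open_source.inter_closure ⟨h2, hF.thin _ (hO (hs.subset h2))⟩) fun m hm hB => hm.2 ?_
    rw [he m hm.1, hM.bb _ (Λ.map_target (hs.subset hm.1)), Λ.right_inv (hs.subset hm.1)] at hB
    exact hB
  · obtain ⟨Λ, φ, e, hO, hM, hw', -, ht, -, -, -, -, -, hk⟩ := dat _ hz.1
    have h1 : z ∈ e.target := ht.superset hw'
    rw [← continuousWithinAt_inter (e.open_target.mem_nhds h1)]
    exact ((hM.car.cont.comp (e.continuousOn_symm.mono inter_subset_right)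
      fun y hy => (hk y hy.2 hy.1.2).1).congr fun y hy => (hk y hy.2 hy.1.2).2) z ⟨hz, h1⟩
  · obtain ⟨Λ, φ, e, hO, hM, hw', -, ht, -, k, -, -, -, hk⟩ := dat _ hz.1
    have h1 : z ∈ e.target := ht.superset hw'
    rw [(hk z h1 hz.2).2, hM.car.comm _ (hk z h1 hz.2).1, k z h1, Function.comp_apply,
      Λ.left_inv hw']
  · obtain ⟨Λ, φ, e, hO, hM, hw', -, ht, -, k, -, -, -, hk⟩ := dat _ hz.1
    have h3 : z ∈ e.target := ht.superset hw'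
    have h4 : z' ∈ e.target := ht.superset (by rw [mem_preimage, h1]; exact hw')
    rw [(hk z h3 hz.2).2, (hk z' h4 (h1 ▸ hz.2)).2] at h2
    exact e.symm.injOn h4 h3 (hM.car.inj _ _ (hk z h3 hz.2).1 (by rw [k z h3, k z' h4, h1]) h2)
  · obtain ⟨Λ, φ, e, hO, hM, hw', hs, -, he, -, -, -, hκ, -⟩ := dat _ hw.1
    have h1 : Λ w ∈ Λ.target \ A := ⟨Λ.map_source hw', fun h => hw.2 ((hM.bb w hw').2 h)⟩
    obtain ⟨m, h2, rfl⟩ := hM.car.surj _ h1 x (by rw [hx, Function.comp_apply, Λ.left_inv hw'])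
    have h3 : m ∈ e.source := hs.superset (by rw [mem_preimage, h2]; exact h1.1)
    exact ⟨e m, by rw [he m h3, h2, Λ.left_inv hw'], hκ m h3 (h2 ▸ h1.2)⟩
  · obtain ⟨Λ, φ, e, hO, hM, hw', -, -, -, -, hf, -⟩ := dat w hw
    obtain ⟨h1, h2⟩ := hf {w} (singleton_subset_iff.2 hw')
    rw [h1, (e.injOn.mono h2).ncard_image, image_singleton]
    exact hd.card _ (hO (Λ.map_source hw')) fun h => hB ((hM.bb w hw').2 h)
  · obtain ⟨Λ, φ, e, hO, -, hw', hs, -, he, -, -, hl, -⟩ := dat w hw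
    filter_upwards [(Λ.continuousAt hw').eventually (hd.fold _ (hO (Λ.map_source hw'))),
      Λ.open_source.mem_nhds hw'] with y h1 h2 _ hy
    obtain ⟨S, h3, h4⟩ := h1 rfl fun h => hy (Λ.injOn h2 hw' h)
    have h5 : ∀ m ∈ S, m ∈ e.source := fun m hm =>
      hs.superset (by rw [mem_preimage, (h4 m hm).1]; exact Λ.map_source h2)
    refine ⟨S.image e, by rwa [Finset.card_image_of_injOn (e.injOn.mono h5)], fun z hz => ?_⟩
    obtain ⟨m, hm, rfl⟩ := Finset.mem_image.1 hz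
    exact ⟨by rw [he m (h5 m hm), (h4 m hm).1, Λ.left_inv h2], hl m (h5 m hm) (h4 m hm).2⟩

end Pool.Agent.P.MP_ab0431_ag.UB.V2

namespace Pool.Agent.P.MP_ab0431_ag.UB.V2

open Polynomial Set Filter Topology
open scoped Manifold ContDiff

theorem cnt_slv2 {T : Type} [TopologicalSpace T] [SecondCountableTopology T] {A : Set T}
    (h : ∀ q ∈ A, ∀ᶠ q' in 𝓝 q, q' ∈ A → q' = q) : A.Countable := by
  obtain ⟨s, -, h2, h3⟩ := TopologicalSpace.countable_cover_nhdsWithin (s := A)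
    (f := fun q => {q}) fun q hq => by
      rw [mem_nhdsWithin_iff_eventually]
      exact (h q hq).mono fun _ a c => a c
  exact h2.mono fun q hq => by
    obtain ⟨x, hx, e⟩ := mem_iUnion₂.1 (h3 hq)
    rwa [mem_singleton_iff.1 e]

theorem p_SLV (hCM0 : S_CM0) (hZCON : S_ZCON) (hASMG : S_ASMG) (hCVB : S_CVB) :
    S_SLV := by
  intro Q X b m d nn V s G t₀ τ F h π S H h0 hτ C
  obtain ⟨-, hO, hfin, md⟩ := hCM0 Q X b m d nn V s G t₀ F h π S H h0 C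
  obtain ⟨sb, -, -, rg, -, lh, -⟩ := hCVB Q X b m d (s t₀) F h π S (H.good h0) C
  let Ω : Set Q.Y := {y | (y, τ) ∈ Omg V (rr G t₀) S}
  have o : IsOpen Ω := hO.preimage (continuous_id.prodMk continuous_const)
  have nb : ∀ y ∉ Bc Q (s τ), rr G t₀ (y, τ) ∉ Bc Q (s t₀) := fun y hy e =>
    hy ((H.mem_r (w := (y, τ)) h0 hτ).1 e)
  have sub : ∀ y ∉ Bc Q (s τ), y ∈ Ω := fun y hy => ⟨hτ, fun e => nb y hy (sb e)⟩
  obtain ⟨x, z, hx⟩ := (t_BCF Q b m _ (H.good hτ).1).2.2.2.2.2.2.2.2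
  obtain ⟨E, κ, hE, ne⟩ := hZCON C2 Q.Y _ _ (cvr X h) (Bc Q (s t₀)) Sᶜ (Bc Q (s τ)) Ω F
    (fun y => rr G t₀ (y, τ)) (fun μ => μ.target ⊆ Sᶜ) C.finS.isClosed.isOpen_compl C.g0
    (t_ZLB Q b m _ (H.good h0).1) (fun _ a => a) rg ⟨_, sub _ hx⟩
    (fun y hy x hx => lh x (by rw [hx]; exact nb y hy.2)) fun y hy => by
      obtain ⟨Λ, φ, ⟨a, a'⟩, c, e, e'⟩ := md (y, τ) hy
      obtain ⟨μ, -, m1, m2, -, -, m3⟩ := t_SLC Q.Y Λ τ c.bi a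
      refine ⟨μ, _, ?_, m3 _ _ (cvr X h) _ _ _ _ φ c, by rw [m1]; exact e, ?_⟩
      · rw [m2]; exact fun _ k => a' k
      · rw [m1]; exact fun _ k => e' k
  obtain ⟨g0, ca, g1⟩ := hASMG C2 Q.Y _ _ (cvr X h) _ Sᶜ _ Ω _ _ _ E κ C.g0 (fun _ a => a) hE
  have g1 := g1 d C.g1
  refine ⟨E, κ, ne, (t_COVG C2 Q.Y E _ _ o g0).mono fun y hy => ⟨sub y hy, hy⟩,
    fun z hz => (g0.loc z (sub _ hz) hz).lh, fun q hq => ?_, ?_,
    ca.mono fun y hy => ⟨sub y hy, hy⟩⟩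
  · rw [← g1.card q (sub q hq) hq, (g0.fin q (sub q hq)).cast_ncard_eq]
  · refine ((hfin τ hτ).countable.union (cnt_slv2 (A := {q ∈ Ω | ¬E.Fold d q})
      fun q hq => (g1.fold q hq.1).mono fun q' a c => by_contra fun e => c.2 (a rfl e))).mono
      fun q hq => ?_
    by_cases k : q ∈ Ω
    · exact .inr ⟨k, hq⟩
    · exact .inl k

end Pool.Agent.P.MP_ab0431_ag.UB.V2

namespace Pool.Agent.P.MP_ab0431_ag.UB.V2

open Polynomial Set Filter Topology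
open scoped Manifold ContDiff

theorem p_CT1 :
    S_CT1 := by
  classical
  intro Q b m d n c F X₀ hW hd hn h0
  obtain ⟨-, -, -, hB, -, -, hemb⟩ := t_BCH Q b m c hW
  have hfin : ((X₀ : Set ℂ) ∪ Prod.fst '' (Q.af ⁻¹' ⋃ i, {q | ¬(F i).Fold d q})).Countable :=
    X₀.finite_toSet.countable.union (((countable_iUnion fun i => (h0 i).2.2).preimage
      hemb.injective).image _)
  obtain ⟨x₀, hx₀⟩ : ∃ x₀, x₀ ∉
      (X₀ : Set ℂ) ∪ Prod.fst '' (Q.af ⁻¹' ⋃ i, {q | ¬(F i).Fold d q}) := by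
    by_contra h
    push Not at h
    exact not_countable_complex (hfin.mono fun x _ => h x)
  have hψ : IsEmbedding fun z : ℂ => Q.af (x₀, z) :=
    hemb.isEmbedding.comp (isEmbedding_prodMkRight x₀)
  have hm := (toP_monic c).map (evalRingHom x₀)
  set Z := ((toP c).map (evalRingHom x₀)).roots.toFinset with hZ
  have hZm : ∀ z, z ∈ Z ↔ (toP c).evalEval x₀ z = 0 := fun z => by
    rw [hZ, Multiset.mem_toFinset, mem_roots hm.ne_zero, IsRoot.def, map_evalRingHom_eval]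
  have hZc : Z.card ≤ b := (Multiset.toFinset_card_le _).trans <| (card_roots' _).trans <| by
    rw [(toP_monic c).natDegree_map, toP_natDegree]
  have hcard : ∀ i, ∀ x ∉ Z, (pb (F i).π hψ ⁻¹' {x}).encard = d := fun i x hx => by
    rw [← Subtype.val_injective.encard_image,
      ← (h0 i).2.1 (Q.af (x₀, x)) fun h => hx ((hZm x).2 ((hB _).1 h))]
    congr 1
    ext e
    constructor
    · rintro ⟨e, he, rfl⟩
      exact (pb_eq _ hψ e x).1 he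
    · exact fun he => ⟨⟨e, x, Eq.symm he⟩, (pb_eq _ hψ _ x).2 he, rfl⟩
  obtain ⟨i, j, hij, -, h⟩ := t_SL3 Z d n (fun i => (F i).π ⁻¹' range fun z : ℂ => Q.af (x₀, z))
    (fun i => pb (F i).π hψ) ((Nat.pow_le_pow_right (Nat.succ_pos _) hZc).trans_lt hn)
    (fun i => ((t_PULL _ _ _ _ (F i).π (F i).π _ hψ univ).1 _
      (h0 i).1).mono fun z hz h => hz ((hZm z).2 ((hB _).1 h))) hcard
    fun i z _ => (t_FOLD Q (F i) d).2 _ hψ z (by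
      by_contra h
      exact hx₀ (Or.inr ⟨(x₀, z), mem_iUnion.2 ⟨i, h⟩, rfl⟩))
  obtain ⟨z, hz⟩ := Z.finite_toSet.exists_notMem
  obtain ⟨e, -⟩ : (pb (F i).π hψ ⁻¹' {z}).Nonempty := by
    rw [← encard_pos, hcard i z hz]; exact_mod_cast hd
  obtain ⟨f₀, hf₀⟩ := h ⟨fun _ => e⟩
  obtain ⟨f, hf, -⟩ := (t_PULL _ _ _ _ (F j).π (F i).π _ hψ _).2.1 f₀ hf₀ ⟨fun _ => e⟩
  refine ⟨x₀, fun h => hx₀ (Or.inl h), i, j, hij, f, hf.mono ?_⟩
  rintro _ ⟨⟨x, w⟩, ⟨hx, hw⟩, rfl⟩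
  obtain rfl : x = x₀ := hx
  exact ⟨w, fun h' => hw ((hZm w).1 h'), rfl⟩

end Pool.Agent.P.MP_ab0431_ag.UB.V2

namespace Pool.Agent.P.MP_ab0431_ag.UB.V2

open Polynomial Set Filter Topology
open scoped Manifold ContDiff

theorem p_CT2 :
    S_CT2 := by
  intro Q b m c F F' X₀ x₀ f hW hsep hx₀ hc hc' hfib hf
  obtain ⟨-, -, haf, hB, hinf, hcl, hemb⟩ := t_BCH Q b m c hW
  have : LocallyPathConnectedSpace Q.Y := ChartedSpace.locallyPathConnectedSpace C2 Q.Y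
  obtain ⟨N, hNo, hNi, hNB, hNs, -⟩ := (t_NBH Q (fun _ => 1) (Bc Q c)ᶜ hcl.isOpen_compl
    (differentiable_const _) (fun _ _ _ => Iff.rfl)
    ⟨fun _ => 1, fun _ => one_ne_zero, one_ne_zero⟩).2 _ hinf
  have hR : ∀ M : ℝ, ∃ R : ℝ, ∀ x z : ℂ, ‖x‖ ≤ M → R ≤ ‖z‖ → (x, z) ∈ Q.af ⁻¹' N := fun M => by
    obtain ⟨R, hR⟩ := t_NINF Q N M (hNo.mem_nhds hNi)
    exact ⟨R, fun x z hx hz => by rw [mem_preimage, haf]; exact hR x z hx hz⟩
  obtain ⟨R, hR₀⟩ := hR ‖x₀‖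
  have hz₀ : ∀ z, ‖(R : ℂ)‖ ≤ ‖z‖ → (x₀, z) ∈ Q.af ⁻¹' N := fun z hz =>
    hR₀ x₀ z le_rfl (((le_abs_self R).trans_eq (Complex.norm_real R).symm).trans hz)
  have hy₀ : Q.af (x₀, R) ∈ N := hz₀ R le_rfl
  have hNF : Q.af ⁻¹' N ⊆ {q | (toP c).evalEval q.1 q.2 ≠ 0} := fun q hq h => hNB hq ((hB q).2 h)
  have hNU : N ⊆ (Bc Q c)ᶜ := fun y hy => hNB hy
  have hmem : ∀ e, F.π e = Q.af (x₀, R) →
      F.π e ∈ Q.af '' {q | q.1 = x₀ ∧ (toP c).evalEval q.1 q.2 ≠ 0} := fun e he =>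
    ⟨(x₀, R), ⟨rfl, hNF hy₀⟩, he.symm⟩
  obtain ⟨s, hs, hs0⟩ := t_SECS F.Z Q.Y (F.π ⁻¹' {Q.af (x₀, R)}) F.π N _ Subtype.val
    (hc.mono hNU) hNo hNs hy₀ (fun l => l.2) Subtype.val_injective fun e he => ⟨⟨e, he⟩, rfl⟩
  obtain ⟨s', hs', hs0'⟩ := t_SECS F'.Z Q.Y (F.π ⁻¹' {Q.af (x₀, R)}) F'.π N _ (fun l => f l)
    (hc'.mono hNU) hNo hNs hy₀ (fun l => (hf.2.1 _ (hmem _ l.2)).trans l.2)
    (fun l l' h => Subtype.ext (hf.2.2.injOn (hmem _ l.2) (hmem _ l'.2) h)) fun e' he' => by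
      obtain ⟨e, he, rfl⟩ := hf.2.2.surjOn (a := e') ⟨(x₀, R), ⟨rfl, hNF hy₀⟩, he'.symm⟩
      exact ⟨⟨e, (hf.2.1 e he).symm.trans he'⟩, rfl⟩
  obtain ⟨g, hg, hgs⟩ := t_TSEC _ _ _ _ F.π F'.π N s s' (hc.mono hNU) hs hs' ⟨f⟩
  obtain ⟨e', he'⟩ : (F'.π ⁻¹' {Q.af (x₀, R)}).Nonempty := hfib _ (hNB hy₀)
  have hne : Nonempty (F.π ⁻¹' range Q.af → F'.π ⁻¹' range Q.af) :=
    ⟨fun _ => ⟨e', (x₀, R), Eq.symm he'⟩⟩
  obtain ⟨f₀, hf₀, hff⟩ := (t_PULL _ _ _ _ F.π F'.π _ hemb.isEmbedding _).2.2 f hf hne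
  obtain ⟨g₀, hg₀, hgg⟩ := (t_PULL _ _ _ _ F.π F'.π _ hemb.isEmbedding (Q.af ⁻¹' N)).2.2 g
    (hg.mono (image_preimage_subset _ _)) hne
  have hsub : {q : ℂ × ℂ | (toP c).evalEval q.1 q.2 ≠ 0} ⊆ Q.af ⁻¹' (Bc Q c)ᶜ :=
    fun q hq h => hq ((hB q).1 h)
  obtain ⟨f₁, hf₁⟩ := t_VL _ _ (pb F.π hemb.isEmbedding) (pb F'.π hemb.isEmbedding) (toP c) X₀
    (Q.af ⁻¹' N) x₀ R f₀ g₀ (toP_monic c) hsep hx₀
    (((t_PULL _ _ _ _ F.π F.π _ hemb.isEmbedding univ).1 _ hc).mono hsub)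
    (((t_PULL _ _ _ _ F'.π F'.π _ hemb.isEmbedding univ).1 _ hc').mono hsub) hNF hR hz₀ hg₀ hf₀
    fun e he => Subtype.ext (by
      have h := hgs ⟨e, (pb_eq _ _ e _).1 he⟩ _ hy₀
      rw [hs0, hs0'] at h
      rw [← hff e (by rw [he]; exact ⟨rfl, hNF hy₀⟩), ← hgg e (by rw [he]; exact hy₀)]
      exact h.symm)
  obtain ⟨G, hG, -⟩ := (t_PULL _ _ _ _ F.π F'.π _ hemb.isEmbedding _).2.1 f₁ hf₁ ⟨f⟩
  exact ⟨G, hG⟩

end Pool.Agent.P.MP_ab0431_ag.UB.V2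

namespace Pool.Agent.P.MP_ab0431_ag.UB.V2

open Polynomial Set Filter Topology
open scoped Manifold ContDiff

theorem p_COUNT (hCT1 : S_CT1) (hCT2 : S_CT2) :
    S_COUNT := by
  classical
  intro Q b m d n c F hG hd hn h0
  obtain ⟨hBv, hhom, haf, hB, hinf, hcl, hemb⟩ := t_BCH Q b m c hG.1
  have hΔ : Δ b (toP c) ≠ 0 := fun h => hG.2 (by rw [h, coeff_zero])
  set X₀ := (Δ b (toP c)).roots.toFinset with hX
  have hsep : ∀ x ∉ X₀, ((toP c).map (evalRingHom x)).Separable := fun x hx =>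
    (t_DSEP ℂ b _ ((toP_monic c).map _) (by rw [(toP_monic c).natDegree_map, toP_natDegree])).1
      (by
        rw [Δ_map]
        exact fun h => hx (Multiset.mem_toFinset.2 ((mem_roots hΔ).2 h)))
  obtain ⟨x₀, hx₀, i, j, hij, f, hf⟩ := hCT1 Q b m d n c F X₀ hG.1 hd hn h0
  obtain ⟨g, hg⟩ := hCT2 Q b m c (F j) (F i) X₀ x₀ f hG.1 hsep hx₀ (h0 j).1 (h0 i).1
    (fun q hq => encard_ne_zero.1 (by rw [(h0 i).2.1 q hq]; exact_mod_cast hd.ne')) hf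
  have : LocallyPathConnectedSpace Q.Y := ChartedSpace.locallyPathConnectedSpace C2 Q.Y
  let G : (Fin 3 → ℂ) → ℂ := fun v => v 0 * ∏ ξ ∈ X₀, (v 1 - ξ * v 0)
  have hG0 : ∀ v, G v ≠ 0 ↔ v 0 ≠ 0 ∧ v 1 / v 0 ∉ X₀ := fun v => by
    simp only [G, mul_ne_zero_iff, Finset.prod_ne_zero_iff]
    refine and_congr_right fun h => ⟨fun h' hm => h' _ hm (by field_simp; ring),
      fun h' ξ hξ h'' => h' ?_⟩
    rwa [sub_eq_zero.1 h'', mul_div_cancel_right₀ _ h]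
  obtain ⟨x₁, hx₁⟩ := (insert 0 X₀).finite_toSet.exists_notMem
  obtain ⟨hd', hN⟩ := t_NBH Q G (Bc Q c)ᶜ hcl.isOpen_compl
    ((differentiable_apply 0).mul ((contDiff_prod (n := 1) (t := X₀)
      (f := fun ξ (v : Fin 3 → ℂ) => v 1 - ξ * v 0) fun ξ _ => by fun_prop).differentiable
      one_ne_zero))
    (fun t v ht => by
      rw [← not_iff_not, ← Ne, ← Ne, hG0, hG0]
      simp only [Pi.smul_apply, smul_eq_mul, mul_div_mul_left _ _ ht, ht, ne_eq, mul_eq_zero,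
        false_or])
    ⟨![1, x₁, 1], fun l => by
      have : x₁ ≠ 0 := fun h => hx₁ (by simp [h])
      fin_cases l <;> simp [this], (hG0 _).2 ⟨by simp, fun h => hx₁ (by simp at h; simp [h])⟩⟩
  obtain ⟨g', hg', -⟩ := t_EXT _ _ _ (F j).π (F i).π (Bc Q c)ᶜ _ g
    (h0 j).1 (h0 i).1 (sep_subset _ _) hd' hN
    (hg.mono (by
      rintro y ⟨hy, v, hv, rfl, hv'⟩
      obtain ⟨h, h'⟩ := (hG0 v).1 hv'
      have he : Q.af (v 1 / v 0, v 2 / v 0) = Q.pp v := by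
        rw [haf]
        refine (Q.eq_iff _ _ (fun h => by simpa using congrFun h 0) hv).2 ⟨v 0, ?_⟩
        funext l
        fin_cases l <;> simp <;> field_simp
      exact ⟨(v 1 / v 0, v 2 / v 0), ⟨h', fun h'' => hy (he ▸ (hB _).2 h'')⟩, he⟩))
  exact ⟨i, j, hij, g', hg'⟩

end Pool.Agent.P.MP_ab0431_ag.UB.V2
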