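import Pool.Agent.P.MP_ab0431_ag.UB2.IfaceD
import Pool.Agent.P.MP_ab0431_ag.UB2.IfaceD2
import Pool.Agent.P.MP_ab0431_ag.UB2.IfaceT

/-! Steps RETR CHW0 CHW FIB SMZ UBW1 UBW2 FIBW FAMW DMAIN. -/

set_option autoImplicit false
set_option linter.unusedSectionVars false
set_option linter.unusedVariables false

namespace Pool.Agent.P.MP_ab0431_ag.UB.V2

open Polynomial Set Filter Topology
open scoped Manifold ContDiff

/-- Reassembling a point from its coordinates. -/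
noncomputable def io_retr2 (q : ℂ × ℂ × ℂ × ℂ) : C2 × ℂ :=
  (q.2.1 • (Pi.single 0 1 : C2) + q.1 • (Pi.single 1 1 : C2), q.2.2.1)

theorem an_retr2 (q : ℂ × ℂ × ℂ × ℂ) : AnalyticAt ℂ io_retr2 q := by
  unfold io_retr2
  apply ContDiffAt.analyticAt
  fun_prop

theorem eta_retr2 (p : C2 × ℂ) (η : ℂ) : io_retr2 (p.1 1, p.1 0, p.2, η) = p := by
  unfold io_retr2
  refine Prod.ext ?_ rfl
  funext i
  fin_cases i <;> simp

theorem der_retr2 (z x t η : ℂ) :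
    HasDerivAt (fun w => io_retr2 (w, x, t, η)) ((Pi.single 1 1 : C2), (0 : ℂ)) z := by
  unfold io_retr2
  refine HasDerivAt.prodMk ?_ (hasDerivAt_const _ _)
  simpa using ((hasDerivAt_id z).smul_const (Pi.single 1 1 : C2)).const_add
    (x • (Pi.single 0 1 : C2))

theorem p_RETR :
    S_RETR := by
  intro D p₀ hD h0 hd
  have hD' : AnalyticAt ℂ D (io_retr2 (p₀.1 1, p₀.1 0, p₀.2, 0)) := by rwa [eta_retr2]
  have ha : AnalyticAt ℂ (fun q : ℂ × ℂ × ℂ × ℂ => D (io_retr2 q) - q.2.2.2 ^ 2)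
      (p₀.1 1, p₀.1 0, p₀.2, 0) :=
    (hD'.comp (an_retr2 _)).sub (by apply ContDiffAt.analyticAt; fun_prop)
  have hz : dz (fun q : ℂ × ℂ × ℂ × ℂ => D (io_retr2 q) - q.2.2.2 ^ 2)
      (p₀.1 1, p₀.1 0, p₀.2, 0) ≠ 0 := by
    have h1 := hasDerivAt_dz ha.differentiableAt
    have h2 := (hD'.differentiableAt.hasFDerivAt.comp_hasDerivAt (p₀.1 1)
      (der_retr2 (p₀.1 1) (p₀.1 0) p₀.2 0)).sub_const ((0 : ℂ) ^ 2)
    rw [h1.unique h2, eta_retr2]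
    exact hd
  obtain ⟨ξ, hξ, hξ0, h1, h2⟩ := t_IFT1 (ℂ × ℂ × ℂ) _ (p₀.1 1) (p₀.1 0, p₀.2, 0) ha
    (by simp [eta_retr2, h0]) hz
  have hπ : AnalyticAt ℂ (fun x : (C2 × ℂ) × ℂ => (x.1.1 0, x.1.2, x.2)) (p₀, 0) := by
    apply ContDiffAt.analyticAt
    fun_prop
  have hπ' : ContinuousAt (fun x : (C2 × ℂ) × ℂ => (x.1.1 1, x.1.1 0, x.1.2, x.2)) (p₀, 0) := by
    fun_prop
  refine ⟨fun x => io_retr2 (ξ (x.1.1 0, x.1.2, x.2), x.1.1 0, x.1.2, x.2), ?_, ?_, ?_⟩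
  · exact (an_retr2 _).comp ((AnalyticAt.comp_of_eq hξ hπ rfl).prod hπ)
  · simp only [hξ0, eta_retr2]
  · filter_upwards [hπ.continuousAt.eventually h1, hπ'.eventually h2] with x hx hx'
    refine ⟨sub_eq_zero.1 hx, fun h => ?_⟩
    have h3 : x.1.1 1 = ξ (x.1.1 0, x.1.2, x.2) := hx' (by simp [eta_retr2, h])
    rw [← h3, eta_retr2]

end Pool.Agent.P.MP_ab0431_ag.UB.V2

namespace Pool.Agent.P.MP_ab0431_ag.UB.V2

open Polynomial Set Filter Topology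
open scoped Manifold ContDiff

theorem bi_chw02 (Q : PM) : Bi (C2 × ℂ) (chF Q) := TBOXa.bi (Q.ch_mem 0)

theorem fam_chw02 (hMUL : S_MUL) {Q : PM} {b m nn : ℕ} {V : Set ℂ} {s : ℂ → Co b m → ℂ}
    (hS : Strip nn 0 V s) {w : Q.Y × ℂ} (h : w ∈ Prod.snd ⁻¹' V ∩ (chF Q).source) :
    w ∈ Fam Q s ↔ Df s (chF Q w) = 0 :=
  ((hMUL Q b m (s w.2) (hS.good _ h.1).1.1).1 w.1 h.2.1).1

theorem key_chw02 (hHFA : S_HFA) (hMUL : S_MUL) {Q : PM} {b m nn n : ℕ} {V : Set ℂ}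
    {s : ℂ → Co b m → ℂ} {Ω N : Set (Q.Y × ℂ)} {G : Cv (C2 × ℂ) (Q.Y × ℂ)}
    {e : OpenPartialHomeomorph G.Z (Mo (Hf Q s) n)} (hS : Strip nn 0 V s)
    (hC : Cme Q s V n Ω N G e) {z : G.Z} (hz : z ∈ e.source) {j : G.Z → (C2 × ℂ) × ℂ}
    (hj : ContinuousAt j z) {O : Set ((C2 × ℂ) × ℂ)} (hO : IsOpen O) (hzO : j z ∈ O)
    (ρ : (C2 × ℂ) × ℂ → C2 × ℂ) (η : (C2 × ℂ) × ℂ → ℂ) (i : Fin (n + 1))
    (hρ : DifferentiableOn ℂ ρ O) (hη : ContinuousOn η O)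
    (ht : ∀ x ∈ O, ρ x ∈ (chF Q).target ∧ (chF Q).symm (ρ x) ∈ N ∩ Ω)
    (hm : ∀ x ∈ O, i = 0 ∧ η x ^ 2 = Df s (ρ x) ∨ i ≠ 0 ∧ η x = 0)
    (hd : O ⊆ closure (O \ {x | Df s (ρ x) = 0}))
    (hev : ∀ᶠ y in 𝓝 z, ρ (j y) = chF Q (G.π y) ∧ η (j y) = (e y).1.2.1 ∧ (e y).1.2.2 = i) :
    ∃ L : (C2 × ℂ) × ℂ → G.Z, MDifferentiableAt 𝓘(ℂ, (C2 × ℂ) × ℂ) 𝓘(ℂ, C2 × ℂ) L (j z) ∧
      ∀ᶠ y in 𝓝 z, L (j y) = y := by
  classical
  let h : (C2 × ℂ) × ℂ → Q.Y × ℂ := fun x => (chF Q).symm (ρ x)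
  have hh : MDifferentiableOn 𝓘(ℂ, (C2 × ℂ) × ℂ) 𝓘(ℂ, C2 × ℂ) h O :=
    (bi_chw02 Q).inv.comp hρ.mdifferentiableOn fun x hx => (ht x hx).1
  have hH : ∀ x ∈ O, Hf Q s (h x) = Df s (ρ x) := fun x hx => by
    rw [Hf_eq, (chF Q).right_inv (ht x hx).1]
  let σ : (C2 × ℂ) × ℂ → Mo (Hf Q s) n := fun x =>
    if hx : x ∈ O then ⟨(h x, η x, i), by have := hm x hx; rwa [← hH x hx] at this⟩
    else e z
  have hσ : ∀ x ∈ O, (σ x).1 = (h x, η x, i) := fun x hx => by simp only [σ, dif_pos hx]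
  have hσp : ∀ x ∈ O, mpr (Hf Q s) n (σ x) = h x := fun x hx => congrArg Prod.fst (hσ x hx)
  have hσc : ContinuousOn σ O := by
    rw [Topology.IsInducing.subtypeVal.continuousOn_iff]
    exact (hh.continuousOn.prodMk (hη.prodMk continuousOn_const)).congr hσ
  have hσt : ∀ x ∈ O, σ x ∈ e.target := fun x hx => by
    rw [hC.tgt, mem_preimage, hσp x hx]; exact (ht x hx).2
  have hf : ContinuousOn (e.symm ∘ σ) O := e.continuousOn_symm.comp hσc hσt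
  have hfp : ∀ x ∈ O, G.π ((e.symm ∘ σ) x) = h x := fun x hx => by
    rw [Function.comp_apply, ← hC.comm _ (e.map_target (hσt x hx)), e.right_inv (hσt x hx),
      hσp x hx]
  have hV : ∀ x ∈ O, (ρ x).2 ∈ V := fun x hx => (hC.sub (ht x hx).2.1).1
  have hZ : ZL ((C2 × ℂ) × ℂ) {x | Df s (ρ x) = 0} O := fun x hx =>
    ⟨O, fun x => Df s (ρ x), hO, hx, DifferentiableOn.mdifferentiableOn (fun y hy =>
      ((hHFA Q b m nn 0 V s hS).1 _ (hV y hy)).1.differentiableAt.comp_differentiableWithinAt y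
        (hρ y hy)), fun _ _ => Iff.rfl⟩
  obtain ⟨L, a1, a2, -⟩ := t_XT1 ((C2 × ℂ) × ℂ) (C2 × ℂ) ((C2 × ℂ) × ℂ) (Q.Y × ℂ) G (Fam Q s) Ω O
    {x | Df s (ρ x) = 0} h (e.symm ∘ σ) hC.oΩ hC.g0 hO hZ hd hh (fun x hx => (ht x hx).2.2)
    (fun x hx c => hx.2 (by
      have := (fam_chw02 hMUL hS (hC.sub (ht x hx.1).2.1)).1 c
      rwa [(chF Q).right_inv (ht x hx.1).1] at this))
    (hf.mono sdiff_subset) fun x hx => hfp x hx.1
  have a3 : EqOn L (e.symm ∘ σ) O := a2.of_subset_closure a1.continuousOn hf sdiff_subset hd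
  refine ⟨L, a1.mdifferentiableAt (hO.mem_nhds hzO), ?_⟩
  filter_upwards [hev, hj.eventually (hO.mem_nhds hzO), e.open_source.mem_nhds hz] with y c1 c2 c3
  have c4 : G.π y ∈ N := by rw [hC.src] at c3; exact c3
  have c5 : σ (j y) = e y := by
    refine Subtype.ext ((hσ _ c2).trans (Prod.ext ?_ (Prod.ext c1.2.1 c1.2.2.symm)))
    change (chF Q).symm (ρ (j y)) = mpr (Hf Q s) n (e y)
    rw [c1.1, (chF Q).left_inv (hC.sub c4).2, hC.comm y c3]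
  rw [a3 c2, Function.comp_apply, c5, e.left_inv c3]

theorem p_CHW0 (hCHW1 : S_CHW1) (hRETR : S_RETR) (hHFA : S_HFA) (hHCA : S_HCA) (hMUL : S_MUL) :
    S_CHW0 := by
  intro Q b m nn n V s Ω N G e hS hC z hz
  have hj := hCHW1 Q b m nn n V s Ω N G e hS hC z hz
  refine ⟨hj, ?_⟩
  suffices ∃ L : (C2 × ℂ) × ℂ → G.Z, MDifferentiableAt 𝓘(ℂ, (C2 × ℂ) × ℂ) 𝓘(ℂ, C2 × ℂ) L
      (chF Q (G.π z), (e z).1.2.1) ∧ ∀ᶠ y in 𝓝 z, L (chF Q (G.π y), (e y).1.2.1) = y by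
    obtain ⟨L, a1, a2⟩ := this
    exact inj_of_left hj a1 a2
  have hN : G.π z ∈ N := by rw [hC.src] at hz; exact hz
  have hs : G.π z ∈ (chF Q).source := (hC.sub hN).2
  have hsrc : ∀ᶠ y in 𝓝 z, y ∈ e.source := e.open_source.mem_nhds hz
  have hi : ∀ᶠ y in 𝓝 z, (e y).1.2.2 = (e z).1.2.2 :=
    ((continuous_subtype_val.snd.snd.continuousAt).comp (e.continuousAt hz)).eventually
      ((isOpen_discrete {(e z).1.2.2}).mem_nhds rfl)
  have hW : IsOpen ((chF Q).target ∩ (chF Q).symm ⁻¹' (N ∩ Ω)) :=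
    (chF Q).continuousOn_symm.isOpen_inter_preimage (chF Q).open_target (hC.oN.inter hC.oΩ)
  have hzW : chF Q (G.π z) ∈ (chF Q).target ∩ (chF Q).symm ⁻¹' (N ∩ Ω) :=
    ⟨(chF Q).map_source hs, by rw [mem_preimage, (chF Q).left_inv hs]; exact ⟨hN, hC.mem z⟩⟩
  by_cases hF : G.π z ∈ Fam Q s
  swap
  · obtain ⟨e₀, a1, a2, a3⟩ := hC.g0.loc z (hC.mem z) hF
    refine ⟨fun x => e₀.symm ((chF Q).symm x.1), ?_, ?_⟩
    · have b1 : MDifferentiableAt 𝓘(ℂ, (C2 × ℂ) × ℂ) 𝓘(ℂ, C2 × ℂ) (fun x => (chF Q).symm x.1)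
          (chF Q (G.π z), (e z).1.2.1) :=
        ((bi_chw02 Q).inv.mdifferentiableAt ((chF Q).open_target.mem_nhds hzW.1)).comp _
          (f := Prod.fst) differentiableAt_fst.mdifferentiableAt
      refine MDifferentiableAt.comp _ (a3.mdifferentiableAt (e₀.open_target.mem_nhds ?_)) b1
      change (chF Q).symm (chF Q (G.π z)) ∈ _
      rw [(chF Q).left_inv hs, ← a2 a1]
      exact e₀.map_source a1
    · filter_upwards [hsrc, e₀.open_source.mem_nhds a1] with y c1 c2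
      have c4 : G.π y ∈ N := by rw [hC.src] at c1; exact c1
      rw [(chF Q).left_inv (hC.sub c4).2, ← a2 c2, e₀.left_inv c2]
  have hD : Df s (chF Q (G.π z)) = 0 := (fam_chw02 hMUL hS (hC.sub hN)).1 hF
  by_cases h0 : (e z).1.2.2 = 0
  · have hη : (e z).1.2.1 = 0 := by
      rcases (e z).2 with c | c
      · have c2 : (e z).1.2.1 ^ 2 = Hf Q s (mpr (Hf Q s) n (e z)) := c.2
        rw [hC.comm z hz, Hf_eq, hD] at c2
        exact pow_eq_zero_iff two_ne_zero |>.1 c2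
      · exact c.2
    have hA := (hHFA Q b m nn 0 V s hS).1 (chF Q (G.π z)) (hC.sub hN).1
    have hM := ((hMUL Q b m (s (G.π z).2) (hS.good _ (hC.sub hN).1).1.1).1 _ hs.1).2.2
    have hne : fderiv ℂ (Df s) (chF Q (G.π z)) (Pi.single 1 1, 0) ≠ 0 := fun c =>
      (hC.mu1 _ ⟨hN, hC.mem z⟩).not_gt (hM.2 ⟨hD, hA.2.symm.trans c⟩)
    obtain ⟨ρ, r1, r2, r3⟩ := hRETR (Df s) _ hA.1 hD hne
    have r4 : ∀ᶠ x in 𝓝 (chF Q (G.π z), (0 : ℂ)),
        ρ x ∈ (chF Q).target ∩ (chF Q).symm ⁻¹' (N ∩ Ω) :=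
      r1.continuousAt.eventually (hW.mem_nhds (by rw [r2]; exact hzW))
    obtain ⟨O, o1, o2, o3⟩ := eventually_nhds_iff.1 (r1.eventually_analyticAt.and (r3.and r4))
    have o4 : (chF Q (G.π z), (e z).1.2.1) ∈ O := by rw [hη]; exact o3
    refine key_chw02 hHFA hMUL hS hC hz hj.continuousAt o2 o4 ρ Prod.snd 0
      (fun x hx => (o1 x hx).1.differentiableAt.differentiableWithinAt)
      continuous_snd.continuousOn (fun x hx => (o1 x hx).2.2)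
      (fun x hx => .inl ⟨rfl, (o1 x hx).2.1.1.symm⟩) (fun x hx => ?_) ?_
    · have t1 : Tendsto (fun u : ℂ => (x.1, u)) (𝓝 x.2) (𝓝 x) :=
        (continuous_const.prodMk continuous_id).tendsto x.2
      refine mem_closure_iff_frequently.2 (t1.frequently ?_)
      refine ((mem_closure_iff_frequently.1 (dense_compl_singleton (0 : ℂ) x.2)).and_eventually
        (t1.eventually (o2.mem_nhds hx))).mono fun u hu => ⟨hu.2, fun c => hu.1 ?_⟩
      have c2 : u ^ 2 = 0 := (o1 _ hu.2).2.1.1.symm.trans c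
      exact pow_eq_zero_iff two_ne_zero |>.1 c2
    · filter_upwards [hsrc, hi, hj.continuousAt.eventually (o2.mem_nhds o4)] with y c1 c2 c3
      refine ⟨(o1 _ c3).2.1.2 ?_, rfl, c2.trans h0⟩
      rcases (e y).2 with c | c
      · have c4 : (e y).1.2.1 ^ 2 = Hf Q s (mpr (Hf Q s) n (e y)) := c.2
        rw [hC.comm y c1, Hf_eq] at c4
        exact c4
      · exact (c.1 (c2.trans h0)).elim
  · refine key_chw02 hHFA hMUL hS hC hz hj.continuousAt (hW.preimage continuous_fst) hzW Prod.fst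
      (fun _ => 0) (e z).1.2.2 differentiableOn_fst continuousOn_const (fun x hx => hx)
      (fun x hx => .inr ⟨h0, rfl⟩) (fun x hx => ?_) ?_
    · have t1 : Tendsto (fun u : C2 => ((u, x.1.2), x.2)) (𝓝 x.1.1) (𝓝 x) :=
        ((continuous_id.prodMk continuous_const).prodMk continuous_const).tendsto x.1.1
      have hV : x.1.2 ∈ V := (hC.sub hx.2.1).1
      refine mem_closure_iff_frequently.2 (t1.frequently ?_)
      exact ((((hHCA Q b m (s x.1.2)).2.2 (hS.good _ hV).1 x.1.1).1).and_eventually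
        (t1.eventually ((hW.preimage continuous_fst).mem_nhds hx))).mono fun u hu => ⟨hu.2, hu.1⟩
    · filter_upwards [hi] with y c2
      refine ⟨rfl, ?_, c2⟩
      rcases (e y).2 with c | c
      · exact (h0 (c2.symm.trans c.1)).elim
      · exact c.2.symm

end Pool.Agent.P.MP_ab0431_ag.UB.V2

namespace Pool.Agent.P.MP_ab0431_ag.UB.V2

open Polynomial Set Filter Topology
open scoped Manifold ContDiff

theorem p_CHW (hCHW0 : S_CHW0) (hMOCH : S_MOCH) (hHFA : S_HFA) :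
    S_CHW := by
  intro Q b m nn n V s Ω N G e W _ κ p ψ hS hC hP w hw
  have hwN : p w ∈ N := by
    rcases hP.mem w with h | h
    · exact absurd (by rw [hP.rng]; exact h) hw
    · exact h
  have hws : w ∈ ψ.source := by rw [hP.src]; exact hwN
  obtain ⟨χ, hsrc, -, hχ⟩ := hMOCH (Q.Y × ℂ) (C2 × ℂ) (chF Q) (Df s)
    (if (ψ w).1.2.2 = 0 then Df s else 0) (Hf Q s) n (ψ w).1.2.2 (Hf_eq Q s) rfl
  have hval : ∀ w' ∈ (ψ.trans χ).source,
      p w' ∈ N ∧ ((ψ.trans χ) w').1 = (chF Q (p w'), (ψ w').1.2.1) := by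
    intro w' hw'
    rw [OpenPartialHomeomorph.trans_source] at hw'
    refine ⟨by have := hw'.1; rw [hP.src] at this; exact this, ?_⟩
    rw [← hP.qψ w' hw'.1]
    exact hχ _ hw'.2
  refine ⟨_, ψ.trans χ, ⟨?_, ?_⟩, ?_, ?_⟩
  · intro v hv
    obtain ⟨h1, h2⟩ := hval _ ((ψ.trans χ).map_target hv)
    rw [(ψ.trans χ).right_inv hv] at h2
    split_ifs
    · refine ((hHFA Q b m nn 0 V s hS).1 _ ?_).1
      rw [h2]
      exact (hC.sub h1).1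
    · exact analyticAt_const
  · intro z hz
    have hze : ∀ y ∈ κ ⁻¹' (ψ.trans χ).source, y ∈ e.source := by
      intro y hy
      rw [hC.src, mem_preimage, ← hP.pκ]
      exact (hval _ hy).1
    have hev : (fun x => ((ψ.trans χ) (κ x)).1) =ᶠ[𝓝 z]
        fun x => (chF Q (G.π x), (e x).1.2.1) := by
      filter_upwards [((ψ.trans χ).open_source.preimage hP.emb.continuous).mem_nhds hz] with y hy
      rw [(hval _ hy).2, hP.pκ, hP.ψκ y (hze y hy)]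
    obtain ⟨h1, h2⟩ := hCHW0 Q b m nn n V s Ω N G e hS hC z (hze z hz)
    refine ⟨h1.congr_of_eventuallyEq hev, ?_⟩
    rw [hev.mfderiv_eq]
    exact h2
  · rw [OpenPartialHomeomorph.trans_source]
    refine ⟨hws, ?_⟩
    rw [mem_preimage, hsrc]
    refine ⟨?_, rfl⟩
    rw [hP.qψ w hws]
    exact (hC.sub hwN).2
  · intro w' hw'
    rw [(hval w' hw').2]
    rfl

end Pool.Agent.P.MP_ab0431_ag.UB.V2

namespace Pool.Agent.P.MP_ab0431_ag.UB.V2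

open Polynomial Set Filter Topology
open scoped Manifold ContDiff

theorem ext_fib2 {M N : Type} [TopologicalSpace M] [TopologicalSpace N] [T2Space N] {f g : M → N}
    {O S : Set M} (ho : IsOpen O) (hd : ∀ z ∈ O, z ∈ closure Sᶜ) (hf : ContinuousOn f O)
    (hg : ContinuousOn g O) (e : EqOn f g (O \ S)) : EqOn f g O :=
  e.of_subset_closure hf hg sdiff_subset fun z hz => ho.inter_closure ⟨hz, hd z hz⟩

theorem p_FIB (hASMG : S_ASMG) (hPRODG : S_PRODG) :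
    S_FIB := by
  intro M _ _ _ F F' A O O' B Ω r t G κ ψ hΩ hO hO' ⟨x₀⟩ ⟨z₁⟩ h0 hAO zl h0' hBO zl' hOΩ hr as hψ
  obtain ⟨g0, cκ, -⟩ := hASMG _ _ _ _ _ _ _ _ _ _ _ _ G κ (hPRODG M F A O h0)
    (fun _ h => h.2) as
  have lh : ∀ w, w ∈ Ω → w ∉ B → ∀ x, F.π x = r w → LH F.π x := fun w hw hB x hx =>
    have a : F.π x ∉ A := by rw [hx]; exact hr w hw hB
    (h0.loc x (hAO a) a).lh
  have o1 : IsOpen (F'.π ⁻¹' O') := hO'.preimage F'.cont
  obtain ⟨j₀, cj, ej⟩ := t_DIVC _ _ _ _ _ _ F'.π G.π F.π (fun y => (y, t)) r {y | (y, t) ∉ B}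
    (Ω \ B) ψ κ F'.cont (by fun_prop) (fun y hy => ⟨hOΩ y (hBO hy), hy⟩)
    (fun z hz => (g0.loc z hz.1 hz.2).lh) (fun w hw => lh w hw.1 hw.2) hψ cκ ⟨fun _ => z₁⟩
  obtain ⟨j, j1, j2, jp⟩ := t_XT1 C2 (C2 × ℂ) F'.Z (M × ℂ) G B _ (F'.π ⁻¹' O')
    (F'.π ⁻¹' {y | (y, t) ∈ B}) (fun x => (F'.π x, t)) j₀ hΩ g0
    o1 (zl'.pull o1 F'.hol.mdifferentiableOn (mapsTo_univ _ _))
    (fun z hz => o1.inter_closure ⟨hz, h0'.thin z hz⟩)
    (md_pair F'.hol.mdifferentiableOn mdifferentiableOn_const) (fun _ hx => hOΩ _ hx)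
    (fun _ hz => hz.2) (cj.cont.mono fun _ hz => hz.2) fun z hz => cj.comm z hz.2
  have jm : ∀ x, F'.π x ∈ O' → MDifferentiableAt 𝓘(ℂ, C2) 𝓘(ℂ, C2 × ℂ) j x := fun x hx =>
    j1.mdifferentiableAt (o1.mem_nhds hx)
  have je : ∀ x, (F'.π x, t) ∉ B → j x = j₀ x := fun x hx => j2 ⟨hBO hx, hx⟩
  have jk : ∀ x, (F'.π x, t) ∉ B → κ (j x) = ψ x := fun x hx => by
    rw [je x hx, ej x hx]
  have key : ∀ y ∈ O', ∃ (N : Set (M × ℂ)) (L : G.Z → F'.Z), IsOpen N ∧ (y, t) ∈ N ∧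
      ∀ x, F'.π x ∈ O' → (F'.π x, t) ∈ N →
        MDifferentiableAt 𝓘(ℂ, C2 × ℂ) 𝓘(ℂ, C2) L (j x) ∧ L (j x) = x := fun y hy' => by
    obtain ⟨Λ, φ, e, ⟨fs, tg⟩, md, hy, bi, e1, e2, e3, e4⟩ := as.2 (y, t) (hOΩ y hy')
    obtain ⟨μ, -, m1, m2, m3, m4, m5⟩ := t_SLC M Λ t md.bi fs
    have ms := m5 _ _ F A B F.π r φ md
    have tO : μ.target ⊆ O := fun y hy => tg (show (y, t) ∈ Λ.target by rwa [m2] at hy)
    have nB : ∀ y ∈ μ.target \ A, (μ.symm y, t) ∉ B := fun y hy a =>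
      hy.2 (μ.right_inv hy.1 ▸ (ms.bb _ (μ.map_target hy.1)).1 a)
    obtain ⟨k₀, ck, ek⟩ := t_DIVC _ _ _ _ _ _ F.π F'.π F.π μ.symm (fun y => r (y, t))
      (μ.target \ A) {y | (y, t) ∉ B} (fun x => φ (x, t)) ψ F.cont
      (μ.continuousOn_symm.mono sdiff_subset) nB (fun z hz => (h0'.loc z (hBO hz) hz).lh)
      (fun w hw => lh (w, t) (hOΩ w (hBO hw)) hw) ms.car hψ ⟨fun _ => x₀⟩
    have oO : IsOpen (F.π ⁻¹' (μ.target ∩ μ.symm ⁻¹' O')) :=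
      (μ.symm.isOpen_inter_preimage hO').preimage F.cont
    have th : ∀ z ∈ F.π ⁻¹' (μ.target ∩ μ.symm ⁻¹' O'), z ∈ closure (F.π ⁻¹' A)ᶜ :=
      fun z hz => h0.thin z (tO hz.1)
    obtain ⟨k, k1, k2, k3⟩ := t_XT1 C2 C2 F.Z M F' _ O' (F.π ⁻¹' (μ.target ∩ μ.symm ⁻¹' O'))
      (F.π ⁻¹' A) (μ.symm ∘ F.π) k₀ hO' h0' oO
      (zl.pull oO F.hol.mdifferentiableOn (mapsTo_univ _ _))
      (fun z hz => oO.inter_closure ⟨hz, th z hz⟩)
      (ms.bi.inv.comp F.hol.mdifferentiableOn fun _ hx => hx.1) (fun _ hx => hx.2)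
      (fun z hz => nB _ ⟨hz.1.1, hz.2⟩) (ck.cont.mono fun _ hz => ⟨hz.1.1, hz.2⟩)
      fun z hz => ck.comm z ⟨hz.1.1, hz.2⟩
    have kO : ∀ x ∈ F.π ⁻¹' (μ.target ∩ μ.symm ⁻¹' O'), F'.π (k x) ∈ O' := fun x hx => by
      rw [k3 x hx]; exact hx.2
    have sr : ∀ x ∈ F.π ⁻¹' μ.target, (x, t) ∈ e.source := fun x hx => by
      rw [e1]; rw [m2] at hx; exact hx
    have pe : ∀ x ∈ F.π ⁻¹' μ.target, G.π (e (x, t)) = (μ.symm (F.π x), t) := fun x hx => by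
      rw [e3 _ (sr x hx), m4]
      exact Prod.ext rfl (fs.symm _ (by rw [m2] at hx; exact hx))
    have E1 : EqOn (fun x => j (k x)) (fun x => e (x, t))
        (F.π ⁻¹' (μ.target ∩ μ.symm ⁻¹' O')) :=
      ext_fib2 oO th (j1.continuousOn.comp k1.continuousOn kO)
        (e.continuousOn.comp (by fun_prop) fun x hx => sr x hx.1) fun x hx => by
          have h1 : (F'.π (k x), t) ∉ B := by rw [k3 x hx.1]; exact nB _ ⟨hx.1.1, hx.2⟩
          refine cκ.inj _ _ (by rw [pe x hx.1.1]; exact ⟨hOΩ _ hx.1.2, nB _ ⟨hx.1.1, hx.2⟩⟩)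
            (by rw [jp _ (kO x hx.1), k3 x hx.1, pe x hx.1.1]; rfl) ?_
          rw [jk _ h1, k2 hx, ek x ⟨hx.1.1, hx.2⟩]
          exact (e4 _ (sr x hx.1.1) hx.2).symm
    have bk : ∀ z, G.π z ∈ Λ.source → (G.π z).2 = t → (G.π z).1 ∈ O' → z ∈ e.target ∧
        (e.symm z).1 ∈ F.π ⁻¹' (μ.target ∩ μ.symm ⁻¹' O') ∧ e ((e.symm z).1, t) = z :=
      fun z hz hz' hz'' => by
      have h1 : z ∈ e.target := e2 ▸ hz
      have h2 := e.map_target h1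
      have h3 := e3 _ h2
      rw [e.right_inv h1] at h3
      rw [e1] at h2
      have h4 : (e.symm z).2 = t := by rw [← hz', h3]; exact (fs.symm _ h2).symm
      have h5 : (e.symm z).1 ∈ F.π ⁻¹' μ.target := by rw [m2, ← h4]; exact h2
      have h6 : e ((e.symm z).1, t) = z := by rw [← h4]; exact e.right_inv h1
      refine ⟨h1, ⟨h5, ?_⟩, h6⟩
      have h7 := pe _ h5
      rw [h6] at h7
      rw [h7] at hz''
      exact hz''
    have oN : IsOpen (F'.π ⁻¹' O' ∩ {x | (F'.π x, t) ∈ Λ.source}) :=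
      o1.inter (Λ.open_source.preimage (F'.cont.prodMk continuous_const))
    have b2 : ∀ x, F'.π x ∈ O' → (F'.π x, t) ∈ Λ.source → _ := fun x hx' hx =>
      bk (j x) (jp x hx' ▸ hx) (by rw [jp x hx']) (by rw [jp x hx']; exact hx')
    have dL : ∀ x, F'.π x ∈ O' → (F'.π x, t) ∈ Λ.source →
        MDifferentiableAt 𝓘(ℂ, C2 × ℂ) 𝓘(ℂ, C2) (fun z => k (e.symm z).1) (j x) := fun x hx' hx =>
      (k1.mdifferentiableAt (oO.mem_nhds (b2 x hx' hx).2.1)).comp (j x) ((md_fst _).comp (j x)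
        (bi.inv.mdifferentiableAt (e.open_target.mem_nhds (b2 x hx' hx).1)))
    refine ⟨Λ.source, fun z => k (e.symm z).1, Λ.open_source, hy, fun x hx' hx =>
      ⟨dL x hx' hx, ?_⟩⟩
    refine ext_fib2 (f := fun x => k (e.symm (j x)).1) (g := id)
      (S := F'.π ⁻¹' {y | (y, t) ∈ B}) oN (fun z hz => h0'.thin z hz.1) (fun x hx =>
      ((dL x hx.1 hx.2).continuousAt.comp (jm x hx.1).continuousAt).continuousWithinAt)
      continuousOn_id (fun x hx => ?_) ⟨hx', hx⟩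
    have h0 := b2 x hx.1.1 hx.1.2
    have h1 := (E1 h0.2.1).trans h0.2.2
    have h2 : F'.π (k (e.symm (j x)).1) = F'.π x :=
      congrArg Prod.fst ((jp _ (kO _ h0.2.1)).symm.trans ((congrArg G.π h1).trans (jp x hx.1.1)))
    refine hψ.inj x _ hx.2 h2 ?_
    rw [← jk x hx.2, ← jk _ (h2 ▸ hx.2)]
    exact congrArg κ h1
  refine ⟨j, fun x hx => ⟨jm x hx, ?_⟩, jp, cj.cont.congr fun x hx => je x hx,
    fun z hz => jp z (hBO hz), fun z z' hz e h => cj.inj z z' hz e ?_, fun w hw z' hz' => ?_⟩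
  · obtain ⟨N, L, o, a, c⟩ := key (F'.π x) hx
    refine inj_of_left (jm x hx) (c x hx a).1 ?_
    filter_upwards [(o.preimage (F'.cont.prodMk continuous_const)).mem_nhds a,
      o1.mem_nhds hx] with y hy hy'
    exact (c y hy' hy).2
  · rwa [← je z hz, ← je z' (by rw [e]; exact hz)]
  · obtain ⟨z, a, c⟩ := cj.surj w hw z' hz'
    exact ⟨z, a, by rw [je z (by rw [a]; exact hw), c]⟩

end Pool.Agent.P.MP_ab0431_ag.UB.V2

namespace Pool.Agent.P.MP_ab0431_ag.UB.V2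

open Polynomial Set Filter Topology
open scoped Manifold ContDiff

theorem p_SMZ (hHCA : S_HCA) :
    S_SMZ := by
  intro b m c a hc ha h
  obtain ⟨Q⟩ := t_PMEX
  obtain ⟨h1, -, h2⟩ := hHCA Q b m c
  let φ : ℂ × ℂ → C2 := fun q => ![q.2, q.1]
  have e : φ (a 1, a 0) = a := by ext i; fin_cases i <;> rfl
  have hφ : AnalyticAt ℂ φ (a 1, a 0) := analyticAt_pi_iff.2 fun i => by
    fin_cases i
    exacts [analyticAt_snd, analyticAt_fst]
  have h3 : ∀ᶠ u in 𝓝 a, Dc c u = 0 → u = a := by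
    filter_upwards [h, eventually_nhdsWithin_iff.1 (h2 hc a).2] with u h4 h5 h6
    by_contra h7
    exact h4 ⟨h6, fun h8 => h5 h7 h6 (by rw [h8]; rfl)⟩
  have h4 := (e ▸ hφ.continuousAt.tendsto : Tendsto φ _ (𝓝 a)).eventually h3
  rw [nhds_prod_eq, eventually_prod_iff] at h4
  obtain ⟨N, hN, M, hM, h4⟩ := h4
  have h5 : ∀ᶠ x in 𝓝[≠] (a 1), (Dc c ∘ φ) (x, a 0) ≠ 0 := by
    have hf := ((toP_monic c).map (evalRingHom (a 0))).ne_zero
    have := ((finite_setOfPred_isRoot hf).subset (sdiff_subset (t := {a 1}))).isClosed.isOpen_compl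
    filter_upwards [nhdsWithin_le_nhds (this.mem_nhds (fun h => h.2 rfl)), self_mem_nhdsWithin]
      with x hx hx' h0
    exact hx ⟨(map_evalRingHom_eval (a 0) x (toP c)).trans h0, hx'⟩
  have h6 := t_MINM ℂ (Dc c ∘ φ) (a 1) (a 0) ((h1 _).1.comp hφ) ((congrArg (Dc c) e).trans ha)
    h5 _ hN
  obtain ⟨p, ⟨⟨x, hx, h7⟩, hp⟩, hp'⟩ :=
    (((h6.and hM).filter_mono (nhdsWithin_le_nhds (s := {a 0}ᶜ))).and self_mem_nhdsWithin).exists
  exact hp' (congrFun (h4 hx hp h7) 0)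

end Pool.Agent.P.MP_ab0431_ag.UB.V2

namespace Pool.Agent.P.MP_ab0431_ag.UB.V2

open Polynomial Set Filter Topology
open scoped Manifold ContDiff

/-- the level `t` of the model of a family -/
def lev_ubw12 {Y : Type} (H : Y × ℂ → ℂ) (n : ℕ) (t : ℂ) (v : Mo (fun y => H (y, t)) n) : Mo H n :=
  ⟨((v.1.1, t), v.1.2), v.2⟩

theorem cont_lev_ubw12 {Y : Type} [TopologicalSpace Y] (H : Y × ℂ → ℂ) (n : ℕ) (t : ℂ) :
    Continuous (lev_ubw12 H n t) := by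
  refine Continuous.subtype_mk ?_ _
  fun_prop

theorem ind_lev_ubw12 {Y : Type} [TopologicalSpace Y] (H : Y × ℂ → ℂ) (n : ℕ) (t : ℂ) :
    IsInducing (lev_ubw12 H n t) := by
  have h1 : IsInducing (fun u : Y × ℂ × Fin (n + 1) => (((u.1, t), u.2) : (Y × ℂ) × ℂ × Fin (n + 1))) :=
    IsInducing.of_comp (g := fun u : (Y × ℂ) × ℂ × Fin (n + 1) => (u.1.1, u.2)) (by fun_prop)
      (by fun_prop) IsInducing.id
  exact IsInducing.of_comp (g := Subtype.val) (cont_lev_ubw12 H n t) continuous_subtype_val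
    (h1.comp IsInducing.subtypeVal)

theorem surj_lev_ubw12 {Y : Type} (H : Y × ℂ → ℂ) (n : ℕ) (t : ℂ) (u : Mo H n)
    (h : (mpr H n u).2 = t) : ∃ v, lev_ubw12 H n t v = u := by
  obtain ⟨⟨⟨y, τ⟩, η⟩, hu⟩ := u
  simp only [mpr] at h
  subst h
  exact ⟨⟨(y, η), hu⟩, rfl⟩

theorem p_UBW1 (hMOU : S_MOU) (hUBT : S_UBT) (hSMZ : S_SMZ) (hHCA : S_HCA) (hMUL : S_MUL) :
    S_UBW1 := by
  intro Q b m nn n V s N W _ p ψ w hS hN hsrc hp hw
  have hws : w ∈ ψ.source := by rw [hsrc]; exact hw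
  obtain ⟨hV, hch⟩ := hN hw
  obtain ⟨t, ht⟩ : ∃ t, (p w).2 = t := ⟨_, rfl⟩
  have hVt : t ∈ V := ht ▸ hV
  have hG : Good (s t) := (hS.good t hVt).1
  obtain ⟨z, hz⟩ := surj_lev_ubw12 (Hf Q s) n t (ψ w) (by rw [hp w hws, ht])
  have hz1 : mpr (Hc Q (s t)) n z = (p w).1 := by
    rw [← hp w hws, ← hz]; rfl
  have hsz : mpr (Hc Q (s t)) n z ∈ (Q.ch 0).source := by
    rw [hz1]; exact hch.1
  obtain ⟨a1, -, a3⟩ := hHCA Q b m (s t)
  have hU : UbAt (mpr (Hc Q (s t)) n) (Bc Q (s t)) z := by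
    refine hMOU Q.Y C2 (Q.ch 0) (Dc (s t)) (Hc Q (s t)) n (Bc Q (s t)) z (fun _ => rfl) hsz
      (a1 _).1 ?_ (a3 hG _).1 (hSMZ b m (s t) _ hG)
    filter_upwards [(Q.ch 0).open_source.mem_nhds hsz] with y hy
    exact ((hMUL Q b m (s t) hG.1).1 y hy).1
  have hc := cont_lev_ubw12 (Hf Q s) n t
  have hzt : lev_ubw12 (Hf Q s) n t z ∈ ψ.target := hz ▸ ψ.map_source hws
  have hwz : ψ.symm (lev_ubw12 (Hf Q s) n t z) = w := by rw [hz, ψ.left_inv hws]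
  have key := hUBT (Mo (Hc Q (s t)) n) W Q.Y (Q.Y × ℂ) (mpr (Hc Q (s t)) n) p (Bc Q (s t))
    {y | y.2 = t → y ∈ Fam Q s} (fun v => ψ.symm (lev_ubw12 (Hf Q s) n t v)) z ?_ ?_ hU
  · rw [ht]
    simpa only [hwz] using key
  · filter_upwards [(ψ.open_target.preimage hc).mem_nhds hzt] with v hv
    refine ⟨(ψ.continuousAt_symm hv).comp hc.continuousAt, ?_⟩
    have e : p (ψ.symm (lev_ubw12 (Hf Q s) n t v)) = (mpr (Hc Q (s t)) n v, t) := by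
      rw [← hp _ (ψ.map_target hv), ψ.right_inv hv]; rfl
    rw [e]
    exact ⟨fun h _ => h, fun h => h rfl⟩
  · intro N1 hN1
    obtain ⟨O, hO, hON⟩ := mem_comap.1
      (((ind_lev_ubw12 (Hf Q s) n t).nhds_eq_comap z).ge hN1)
    rw [hz] at hO
    simp only [hwz]
    filter_upwards [ψ.open_source.mem_nhds hws, (ψ.continuousAt hws).preimage_mem_nhds hO]
      with w' h1 h2
    by_cases h3 : (p w').2 = t
    · obtain ⟨v, hv⟩ := surj_lev_ubw12 (Hf Q s) n t (ψ w') (by rw [hp w' h1, h3])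
      refine Or.inl ⟨v, hON ?_, ?_⟩
      · show lev_ubw12 (Hf Q s) n t v ∈ O
        rw [hv]; exact h2
      · show ψ.symm (lev_ubw12 (Hf Q s) n t v) = w'
        rw [hv, ψ.left_inv h1]
    · exact Or.inr fun h => absurd h h3

end Pool.Agent.P.MP_ab0431_ag.UB.V2

namespace Pool.Agent.P.MP_ab0431_ag.UB.V2

open Polynomial Set Filter Topology
open scoped Manifold ContDiff

theorem p_UBW2 (hUBX : S_UBX) (hUBT : S_UBT) :
    S_UBW2 := by
  intro M X Y _ _ _ F A O B Ω q r G κ₀ W _ κ p z hO hG hZ hA hκ hp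
  obtain ⟨Λ, φ, e, ⟨hFs, hO'⟩, hMd, hw, -, hes, het, hπ, -⟩ := hA.2 (G.π z) (hA.1 z)
  have hz : z ∈ e.target := by rw [het]; exact hw
  have ht : ∀ m ∈ e.source, F.prod.π m ∈ Λ.target := fun m hm => by rw [hes] at hm; exact hm
  have hl : ∀ m ∈ e.source, (p (κ (e m))).2 = m.2 := fun m hm => by
    rw [hp, hπ m hm]; exact hFs.symm _ (ht m hm)
  obtain ⟨⟨x, t⟩, hm, rfl⟩ : ∃ m ∈ e.source, e m = z := ⟨_, e.map_target hz, e.right_inv hz⟩
  have h2 : (G.π (e (x, t))).2 = t := by rw [← hp]; exact hl _ hm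
  rw [h2]
  have hx : F.π x ∈ O := hO' (ht _ hm)
  have hc : Continuous fun y : F.Z => ((y, t) : F.Z × ℂ) := continuous_id.prodMk continuous_const
  refine hUBT F.Z W M (M × ℂ) F.π p A _ (fun y => κ (e (y, t))) x ?_ ?_
    (hUBX C2 M F A O hO (fun y _ => hZ y trivial) hG.thin x hx)
  · have h3 : ∀ᶠ y in 𝓝 x, ((y, t) : F.Z × ℂ) ∈ e.source :=
      hc.continuousAt.eventually (e.open_source.mem_nhds hm)
    filter_upwards [h3] with y hy
    refine ⟨hκ.continuous.continuousAt.comp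
      (ContinuousAt.comp (f := fun y : F.Z => ((y, t) : F.Z × ℂ)) (e.continuousAt hy)
        hc.continuousAt), ?_⟩
    have h4 := hMd.bb _ (Λ.map_target (ht _ hy))
    rw [Λ.right_inv (ht _ hy), ← hπ _ hy, ← hp] at h4
    exact ⟨fun a _ => h4.2 a, fun a => h4.1 (a (hl _ hy))⟩
  · intro N hN
    have h3 : (N ×ˢ (univ : Set ℂ) : Set (F.Z × ℂ)) ∈ 𝓝 (x, t) := prod_mem_nhds hN univ_mem
    have h4 := hκ.isOpenMap.image_mem_nhds
      (e.image_mem_nhds hm (inter_mem h3 (e.open_source.mem_nhds hm)))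
    refine mem_of_superset h4 ?_
    rintro _ ⟨_, ⟨⟨y, u⟩, ⟨hy, hs⟩, rfl⟩, rfl⟩
    by_cases hu : u = t
    · subst hu
      exact Or.inl ⟨y, hy.1, rfl⟩
    · exact Or.inr fun a => absurd ((hl _ hs).symm.trans a) hu

end Pool.Agent.P.MP_ab0431_ag.UB.V2

namespace Pool.Agent.P.MP_ab0431_ag.UB.V2

open Polynomial Set Filter Topology
open scoped Manifold ContDiff

theorem p_FIBW (hFIB : S_FIB) (hXTH : S_XTH) (hUBW1 : S_UBW1) (hUBW2 : S_UBW2) (hCPP : S_CPP) (hMOC : S_MOC) (hCVB : S_CVB) (hHFA : S_HFA) :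
    S_FIBW := by
  intro Q b m nn n d V s F A O r Ω N G κ₀ e W _ κ p ψ t X F' h π S f hS hO g0 hAO hZ hr hG asm cme
    cpl ht cov car
  have good : Good (s t) := (hS.good t ht).1
  obtain ⟨c1, c2, -, -, -, -, c7, c8, c9⟩ := hCVB Q X b m d (s t) F' h π S good cov
  have hO' : IsOpen {y | y ∉ S ∧ (y, t) ∈ Ω} :=
    cov.finS.isClosed.isOpen_compl.inter (cme.oΩ.preimage (Continuous.prodMk_left t))
  have hBO : ∀ y, y ∉ Bc Q (s t) → y ∉ S ∧ (y, t) ∈ Ω := fun y hy =>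
    ⟨fun hs => hy (c1 hs), cme.nB (y, t) ht hy⟩
  obtain ⟨j0, a1, a2, a3⟩ := hFIB Q.Y F (cvr X h) A O {y | y ∉ S ∧ (y, t) ∈ Ω} (Fam Q s) Ω r t G
    κ₀ f cme.oΩ hO hO' c2 hG g0 hAO hZ (cov.g0.mono fun y hy => hy.1) hBO
    (t_ZLB Q b m (s t) good.1) (fun y hy => hy.2) hr asm car
  let f0 : X.B → W := Function.extend X.ι (κ ∘ j0) fun _ => κ hG.some
  have hf0 : ∀ x, f0 (X.ι x) = κ (j0 x) := fun x => X.emb.injective.extend_apply _ _ x
  have hrg : ∀ z : X.B, π z ∉ Bc Q (s t) → ∃ x, X.ι x = z := fun z hz => by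
    by_contra hn
    exact hz (c1 (cov.pun z hn))
  have hκ : ∀ w, p w ∈ Ω → ∃ u, κ u = w := fun w hw => (cpl.rng ▸ hw : w ∈ range κ)
  have car0 : Car π p (fun y => (y, t)) (Bc Q (s t))ᶜ f0 := by
    refine ⟨fun z hz => ?_, fun z hz => ?_, fun z z' hz h1 h2 => ?_, fun w hw z' h1 => ?_⟩
    · obtain ⟨x, rfl⟩ := hrg z hz
      refine (X.emb.continuousAt_iff.1 ?_).continuousWithinAt
      rw [show f0 ∘ X.ι = κ ∘ j0 from funext hf0]
      exact cpl.emb.continuous.continuousAt.comp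
        (a1 x (hBO _ (cov.eq x ▸ hz : F' x ∉ Bc Q (s t)))).1.continuousAt
    · obtain ⟨x, rfl⟩ := hrg z hz
      rw [hf0, cpl.pκ, cov.eq]
      exact a3.comm x (cov.eq x ▸ hz : F' x ∉ Bc Q (s t))
    · obtain ⟨x, rfl⟩ := hrg z hz
      obtain ⟨x', rfl⟩ := hrg z' (h1 ▸ hz)
      rw [hf0, hf0] at h2
      rw [cov.eq, cov.eq] at h1
      rw [a3.inj x x' (cov.eq x ▸ hz : F' x ∉ Bc Q (s t)) h1 (cpl.emb.injective h2)]
    · obtain ⟨u, rfl⟩ := hκ z' (h1 ▸ (hBO w hw).2)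
      obtain ⟨x, e1, e2⟩ := a3.surj w hw u ((cpl.pκ u).symm.trans h1)
      exact ⟨X.ι x, (cov.eq x).trans e1, by rw [hf0, e2]⟩
  obtain ⟨pf, lh⟩ := hCPP G.Z (Mo (Hf Q s) n) W (Q.Y × ℂ) G.π (mpr (Hf Q s) n) Ω N e κ p ψ cme.oΩ
    cme.oN cpl (pf_of_g0 cme.g0) (hMOC _ (Hf Q s) n N cme.oN
      ((hHFA Q b m nn 0 V s hS).2.1.continuousOn.mono fun w hw =>
        ⟨(cme.sub hw).2, (cme.sub hw).1⟩)).1
  have hW : ∀ w : Q.Y × ℂ, w.2 = t ∧ w ∉ Fam Q s → w.1 ∉ Bc Q (s t) := by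
    rintro w ⟨h1, h2⟩
    rw [← h1]
    exact h2
  obtain ⟨f', b1, b2⟩ := t_DIVC W (Q.Y × ℂ) X.B Q.Y W (Q.Y × ℂ) p π p Prod.fst (fun y => (y, t))
    {w | w.2 = t ∧ w ∉ Fam Q s} (Bc Q (s t))ᶜ id f0 cpl.cont continuousOn_fst hW c8
    (fun w hw x hx => by
      obtain ⟨u, rfl⟩ := hκ x (hx ▸ (hBO w hw).2)
      refine lh u (cme.g0.loc u (cme.mem u) ?_).lh
      rw [← cpl.pκ, hx]
      exact hw)
    ⟨continuousOn_id, fun z hz => Prod.ext rfl hz.1, fun _ _ _ _ hh => hh,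
      fun w hw z' hz => ⟨z', hz.trans (Prod.ext rfl hw.1.symm), rfl⟩⟩ car0
    ⟨fun _ => X.ι c2.some⟩
  have := cpl.t2
  obtain ⟨g, g', g1, -, g3, g4, g5⟩ := hXTH X.B W Q.Y (Q.Y × ℂ) π p univ (Ω ∪ N) univ
    (π ⁻¹' (Bc Q (s t))ᶜ) {w | (p w).2 = t} (p ⁻¹' {y | y.2 = t → y ∈ Fam Q s}ᶜ)
    (fun z => (π z, t)) (fun w => (p w).1) f0 f' isOpen_univ (cme.oΩ.union cme.oN) c7 pf
    (subset_univ _) (fun w hw => (Classical.not_imp.1 hw).1)
    (cov.cont.prodMk continuous_const).continuousOn cpl.cont.fst.continuousOn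
    (fun z _ => or_iff_not_imp_right.2 (cme.cov (π z, t) ht)) (mapsTo_univ _ _) car0.cont
    (b1.cont.mono fun w hw => Classical.not_imp.1 hw)
    (fun z hz => by
      have e1 := car0.comm z hz
      have e2 : (p (f0 z)).2 = t ∧ p (f0 z) ∉ Fam Q s := by
        rw [e1]
        exact ⟨rfl, hz⟩
      exact ⟨e1, Classical.not_imp.2 e2, car0.inj z _ hz
        ((b1.comm _ e2).trans (congrArg Prod.fst e1)) (b2 _ e2)⟩)
    (fun w hw => by
      have e2 := Classical.not_imp.1 hw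
      have e1 := b1.comm w e2
      refine ⟨e1, ?_, b2 w e2⟩
      change π (f' w) ∉ Bc Q (s t)
      rw [e1]
      exact hW _ e2)
    (fun z _ => ⟨(cov.ub z).ub, fun z' hz => congrArg Prod.snd hz⟩)
    (fun w hw => ⟨by
      have hw' : (p w).2 = t := hw
      rcases cpl.mem w with h1 | h1
      · obtain ⟨u, rfl⟩ := hκ w h1
        have := hUBW2 Q.Y F.Z Q.Y F A O (Fam Q s) Ω F.π r G κ₀ W κ p u hO g0 hZ asm cpl.emb cpl.pκ
        rw [← cpl.pκ, hw'] at this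
        exact this.ub
      · have := hUBW1 Q b m nn n V s N W p ψ w hS cme.sub cpl.src cpl.qψ h1
        rw [hw'] at this
        exact this.ub, fun _ _ => trivial⟩)
  have oF : IsOpen (F' ⁻¹' {y | y ∉ S ∧ (y, t) ∈ Ω}) := hO'.preimage h.continuous
  refine ⟨t, g, j0, (F' ⁻¹' {y | y ∉ S ∧ (y, t) ∈ Ω})ᶜ, continuousOn_univ.1 g1,
    Function.LeftInverse.injective fun z => (g4 z trivial).2.2, ?_, ?_, ?_, ?_⟩
  · ext w
    constructor
    · rintro ⟨z, rfl⟩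
      exact (g4 z trivial).2.1
    · exact fun hw => ⟨g' w, (g5 w hw).2.2⟩
  · refine ((cov.finS.union (cme.fin t ht)).preimage' fun y _ => c9 y).subset fun x hx => ?_
    by_contra hn
    exact hx ⟨fun hh => hn (Or.inl hh), not_not.1 fun hh => hn (Or.inr hh)⟩
  · have key : EqOn (g ∘ X.ι) (κ ∘ j0) (F' ⁻¹' {y | y ∉ S ∧ (y, t) ∈ Ω}) := by
      refine EqOn.of_subset_closure
        (s := F' ⁻¹' {y | y ∉ S ∧ (y, t) ∈ Ω} ∩ F' ⁻¹' (Bc Q (s t))ᶜ) (fun x hx => ?_)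
        ((continuousOn_univ.1 g1).comp X.emb.continuous).continuousOn
        (fun x hx => (cpl.emb.continuous.continuousAt.comp
          (a1 x hx).1.continuousAt).continuousWithinAt) inter_subset_left
        fun x hx => oF.inter_closure ⟨hx, cov.g0.thin x hx.1⟩
      exact (g3 (show π (X.ι x) ∉ Bc Q (s t) from cov.eq x ▸ hx.2)).trans (hf0 x)
    exact fun x hx => key (not_not.1 hx)
  · rw [compl_compl]
    exact a1

end Pool.Agent.P.MP_ab0431_ag.UB.V2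

namespace Pool.Agent.P.MP_ab0431_ag.UB.V2

open Polynomial Set Filter Topology
open scoped Manifold ContDiff

theorem p_FAMW (hCM : S_CM) (hGL2 : S_GL2) (hCPP : S_CPP) (hCHW : S_CHW) (hFIBW : S_FIBW) (hMOC : S_MOC) (hHFA : S_HFA) (hCVB : S_CVB) :
    S_FAMW := by
  intro Q X X' b m d nn V s G t₀ t₁ F F' h h' π π' S S' f H v0 v1 c0 c1 hf
  obtain ⟨N, G₃, κ₀, e, ne, hA, hE⟩ := hCM Q X b m d nn V s G t₀ F h π S H v0 c0
  obtain ⟨W, tW, κ, p, ψ, hC⟩ := hGL2 G₃.Z (Mo (Hf Q s) (d - 2)) (Q.Y × ℂ) G₃.π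
    (mpr (Hf Q s) (d - 2)) _ N e G₃.cont (continuous_mpr _ _) hE.oΩ hE.oN hE.mem hE.src hE.tgt
    hE.comm
  have pfE : Pf (mpr (Hf Q s) (d - 2)) N := (hMOC _ (Hf Q s) (d - 2) N hE.oN
    ((hHFA Q b m nn 0 V s H.str).2.1.continuousOn.mono fun w hw =>
      ⟨(hE.sub hw).2, (hE.sub hw).1⟩)).1
  have pf := (hCPP _ _ W _ _ _ _ N e κ p ψ hE.oΩ hE.oN hC (pf_of_g0 hE.g0) pfE).1
  have cv : ∀ w : Q.Y × ℂ, w.2 ∈ V → w ∈ Omg V (rr G t₀) S ∪ N := fun w hw => by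
    by_cases e : w ∈ N
    exacts [.inr e, .inl (hE.cov w hw e)]
  have eq : (fun w => (p w).2) ∘ κ = fun z => (G₃.π z).2 := funext fun z => congrArg Prod.snd (hC.pκ z)
  have fib : ∀ (t : ℂ) (Y : DSurf) (F₁ : Y.X → Q.Y) (h₁ : MDifferentiable 𝓘(ℂ, C2) 𝓘(ℂ, C2) F₁)
      (π₁ : Y.B → Q.Y) (S₁ : Set Q.Y) (f₁ : Y.X → X.X), t ∈ V → Cov Q Y (s t) d h₁ π₁ S₁ →
      Car F₁ F (fun y => rr G t₀ (y, t)) (Bc Q (s t))ᶜ f₁ → DFibre Y κ fun w => (p w).2 :=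
    fun t Y F₁ h₁ π₁ S₁ f₁ a c k =>
      hFIBW Q b m nn (d - 2) d V s (cvr X h) (Bc Q (s t₀)) Sᶜ (rr G t₀) _ N G₃ κ₀ e W κ p ψ t Y F₁
        h₁ π₁ S₁ f₁ H.str c0.finS.isClosed.isOpen_compl c0.g0
        (compl_subset_compl.2 (hCVB Q X b m d _ F h π S (H.good v0) c0).1)
        (t_ZLB Q b m _ (H.good v0).1) (fun w hw hB e => hB ((H.mem_r v0 hw.1).1 e)) ne hA hE hC a c k
  have mV : ∀ w, (p w).2 ∈ V := fun w => (hC.mem w).elim (fun a => hE.ΩV a) fun a => (hE.sub a).1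
  refine ⟨G₃.Z, G₃.top, G₃.cs, W, tW, κ, V, fun w => (p w).2, hC.t2, G₃.mfd, hC.emb, H.str.isOpen,
    ⟨⟨_, v0⟩, H.cvx.isPreconnected⟩, mV, hC.cont.snd, fun K hK hc => ?_, ?_, fun t => ?_,
    hCHW Q b m nn (d - 2) V s _ N G₃ e W κ p ψ H.str hE hC,
    fib t₀ X F h π S id v0 c0 (Car.refl.congr fun y _ => H.r_id y), fib t₁ X' F' h' π' S' f v1 c1 hf⟩
  · have := pf.prop (univ ×ˢ K) (fun w hw => cv w (hK hw.2)) (isCompact_univ.prod hc)
    rwa [univ_prod] at this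
  · rw [eq]
    exact ⟨md_snd.comp G₃.hol, t_SUBM Q.Y _ _ _ _ _ _ _ _ G₃ κ₀ (asm_mono hA fun _ a => a.1)⟩
  · by_cases ht : t ∈ V
    · refine ((hE.fin t ht).biUnion fun y _ => pf.fin (y, t) (cv _ ht)).subset fun w hw => ?_
      have e1 : (p w).2 = t := hw.1
      have e2 : p w = ((p w).1, t) := Prod.ext rfl e1
      refine mem_biUnion (x := (p w).1) (fun a => hw.2 ?_) e2
      rw [hC.rng, mem_preimage, e2]
      exact a
    · refine finite_empty.subset fun w hw => ht ?_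
      have e1 : (p w).2 = t := hw.1
      exact e1 ▸ mV w

end Pool.Agent.P.MP_ab0431_ag.UB.V2

namespace Pool.Agent.P.MP_ab0431_ag.UB.V2

open Polynomial Set Filter Topology

theorem p_DMAIN (hTBG : S_TBG) (hSLV : S_SLV) (hCOUNT : S_COUNT) (hFAMW : S_FAMW) (hCVB : S_CVB) :
    S_DMAIN := by
  intro Q b m d nn N U s X hS hN hX
  choose F h π S hC using hX
  obtain ⟨V, G, hT, hV⟩ := hTBG Q b m nn N U s hS
  have gd : ∀ j : Fin (N + 1), Good (s j) := fun j => (hT.str.good _ (hV j)).1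
  have cv := fun j => hCVB Q (X j) b m d (s j) (F j) (h j) (π j) (S j) (gd j) (hC j)
  choose E κ e0 e1 e2 e3 e4 e5 using fun j => hSLV Q (X j) b m d nn V s G j (0 : Fin (N + 1))
    (F j) (h j) (π j) (S j) hT (hV j) (hV 0) (hC j)
  obtain ⟨i, j, ij, f, hf⟩ := hCOUNT Q b m d (N + 1) (s (0 : Fin (N + 1))) E (gd 0)
    (cv 0).2.2.1 (Nat.lt_succ_of_le hN) fun j => ⟨e1 j, e3 j, e4 j⟩
  obtain ⟨ψ, hψ⟩ := t_BACK Q.Y _ _ _ _ (Fam Q s) V G i j (0 : Fin (N + 1)) (F i) (F j) (E i).π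
    (E j).π (κ i) (κ j) f hT.cvx (hV i) (hV j) (hV 0) hT.tp.cont hT.tp.id hT.nB hT.lev
    (h j).continuous (cv i).2.2.2.2.1 (cv j).2.2.2.2.1 (e2 j) (e5 i) (e5 j) hf
    (let ⟨e⟩ := e0 j; ⟨fun _ => e⟩)
  exact ⟨i, j, ij.ne, hFAMW Q (X i) (X j) b m d nn V s G i j (F i) (F j) (h i) (h j) (π i) (π j)
    (S i) (S j) ψ hT (hV i) (hV j) (hC i) (hC j) hψ⟩

end Pool.Agent.P.MP_ab0431_ag.UB.V2
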