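import Pool.Agent.P.MP_ab0431_ag.UB2.IfaceT

/-! Steps MAIN. -/

set_option autoImplicit false
set_option linter.unusedSectionVars false
set_option linter.unusedVariables false

namespace Pool.Agent.P.MP_ab0431_ag.UB.V2

open Polynomial Set Filter Topology

theorem nr_main2 {b m : ℕ} {c : Co b m → ℂ} (h : Good c) : nr c ≤ b ^ 2 := by
  have h1 := (t_TOP ℂ b 1 (toP c) (toP_monic c) (toP_natDegree c) h.1).1
  calc nr c ≤ (Δ b (toP c)).roots.card := Multiset.toFinset_card_le _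
    _ ≤ (Δ b (toP c)).natDegree := card_roots' _
    _ ≤ 1 * (b * (b - 1)) := natDegree_le_iff_coeff_eq_zero.2 h1
    _ ≤ b ^ 2 := by rw [one_mul, sq]; exact Nat.mul_le_mul_left _ (Nat.sub_le _ _)

theorem p_MAIN (hAMAIN : S_AMAIN) (hBMAIN : S_BMAIN) (hCMAIN : S_CMAIN) (hDMAIN : S_DMAIN) :
    S_MAIN := by
  classical
  intro m hm
  obtain ⟨Q⟩ := t_PMEX
  obtain ⟨C, hC⟩ := hAMAIN Q m hm
  obtain ⟨C', hC'⟩ := t_ARITH C
  refine ⟨C', fun y n X hn hX => ?_⟩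
  let S : Finset (ℕ × ℕ × ℕ × ℕ) := Finset.range (C * y + 1) ×ˢ Finset.range (C * y + 1) ×ˢ
    Finset.range (C * y + 1) ×ˢ Finset.range ((C * y) ^ 2 + 1)
  have hS : S.card = (C * y + 1) ^ 3 * ((C * y) ^ 2 + 1) := by
    simp only [S, Finset.card_product, Finset.card_range]; ring
  have h1 : ∀ i, ∃ a ∈ S, ∃ c : Co a.1 6 → ℂ, c ∈ Y0 a.1 a.2.1 6 ∧ (Good c ∧ nr c = a.2.2.2) ∧
      IsCov Q (X i) c a.2.2.1 := fun i => by
    obtain ⟨b, w, d, c, hb, hw, hd, h1, h2, h3⟩ := hC y (X i) (hX i).1 (hX i).2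
    refine ⟨(b, w, d, nr c), ?_, c, h1, ⟨h2, rfl⟩, h3⟩
    have := (nr_main2 h2).trans (Nat.pow_le_pow_left hb 2)
    simp only [S, Finset.mem_product, Finset.mem_range]
    omega
  choose κ hκ hc using h1
  obtain ⟨⟨b, w, d, nn⟩, ha, hM⟩ := pig_main S κ hκ hn
  simp only [S, Finset.mem_product, Finset.mem_range] at ha
  obtain ⟨I, k, hk, hI, hY⟩ := hBMAIN b w 6
  have h2 := (hC' y b w d k (by omega) (by omega) (by omega) hk).trans_lt hM
  rw [hS] at h2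
  have h3 := Nat.lt_of_mul_lt_mul_left h2
  have h4 : ∀ i : {i // κ i = (b, w, d, nn)}, ∃ c : Co b 6 → ℂ, c ∈ Y0 b w 6 ∧
      (Good c ∧ nr c = nn) ∧ IsCov Q (X i.1) c d := fun i => by
    have := hc i.1
    rw [i.2] at this
    exact this
  choose c hc1 hc2 hc3 using h4
  obtain ⟨f, U, s, hf, hs, hsf⟩ := hCMAIN b 6 k (Gam b w 6) nn ((d ^ 2 + 1) ^ b) I _ c hI
    (fun i => hY _ (hc1 i)) hc2 (by rw [Fintype.card_subtype]; exact h3)
  obtain ⟨i, j, hij, h⟩ := hDMAIN Q b 6 d nn _ U s (fun j => X (f j).1) hs le_rfl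
    fun j => by rw [hsf]; exact hc3 _
  exact ⟨_, _, fun e => hij (hf (Subtype.ext e)), h⟩

end Pool.Agent.P.MP_ab0431_ag.UB.V2
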