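import Pool.Agent.P.MP_ab0431_ag.UB2.MA3_1
import Pool.Agent.P.MP_ab0431_ag.UB2.MA3_2
import Pool.Agent.P.MP_ab0431_ag.UB2.MA_1
import Pool.Agent.P.MP_ab0431_ag.UB2.MA_2
import Pool.Agent.P.MP_ab0431_ag.UB2.MA_3
import Pool.Agent.P.MP_ab0431_ag.UB2.MA_4
import Pool.Agent.P.MP_ab0431_ag.UB2.MA2_1
import Pool.Agent.P.MP_ab0431_ag.UB2.MD_1
import Pool.Agent.P.MP_ab0431_ag.UB2.MD_2
import Pool.Agent.P.MP_ab0431_ag.UB2.MD_3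
import Pool.Agent.P.MP_ab0431_ag.UB2.MD_4
import Pool.Agent.P.MP_ab0431_ag.UB2.MD2_1
import Pool.Agent.P.MP_ab0431_ag.UB2.MD2_2
import Pool.Agent.P.MP_ab0431_ag.UB2.MB_1
import Pool.Agent.P.MP_ab0431_ag.UB2.MB_2
import Pool.Agent.P.MP_ab0431_ag.UB2.MT_1

/-! Assembly of the steps. -/

namespace Pool.Agent.P.MP_ab0431_ag.UB.V2

theorem t_CH : S_CH := p_CH
theorem t_DA : S_DA := p_DA
theorem t_JET1 : S_JET1 := p_JET1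
theorem t_JET2 : S_JET2 := p_JET2 t_DA t_JET1
theorem t_GENE0 : S_GENE0 := p_GENE0
theorem t_GENE : S_GENE := p_GENE t_GENE0
theorem t_GMIX : S_GMIX := p_GMIX
theorem t_GOPN : S_GOPN := p_GOPN
theorem t_GENE2 : S_GENE2 := p_GENE2 t_GENE t_GMIX t_GOPN
theorem t_PT1 : S_PT1 := p_PT1
theorem t_PT2 : S_PT2 := p_PT2 t_PT1
theorem t_JFORM : S_JFORM := p_JFORM
theorem t_RM0 : S_RM0 := p_RM0 t_PT1 t_PT2 t_JFORM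
theorem t_AM0 : S_AM0 := p_AM0
theorem t_AM1 : S_AM1 := p_AM1
theorem t_PUA : S_PUA := p_PUA
theorem t_OM0 : S_OM0 := p_OM0
theorem t_OM1 : S_OM1 := p_OM1 t_OM0
theorem t_OM2 : S_OM2 := p_OM2 t_OM1
theorem t_GRAT : S_GRAT := p_GRAT t_OM1 t_OM2
theorem t_PUB : S_PUB := p_PUB t_GRAT
theorem t_OM3 : S_OM3 := p_OM3
theorem t_PUD0 : S_PUD0 := p_PUD0
theorem t_PUC : S_PUC := p_PUC t_OM1 t_OM2 t_OM3 t_PUD0
theorem t_PUN : S_PUN := p_PUN t_AM0 t_AM1 t_PUA t_PUB t_PUC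
theorem t_ZACC : S_ZACC := p_ZACC
theorem t_RM1 : S_RM1 := p_RM1 t_RM0 t_PUN t_ZACC t_PT1
theorem t_SEPF : S_SEPF := p_SEPF
theorem t_BEZ : S_BEZ := p_BEZ t_SEPF
theorem t_RFIN : S_RFIN := p_RFIN
theorem t_RCF : S_RCF := p_RCF t_BEZ t_RFIN t_PT1 t_JFORM
theorem t_RM2 : S_RM2 := p_RM2 t_PUB
theorem t_RM4 : S_RM4 := p_RM4 t_RM2
theorem t_PT3 : S_PT3 := p_PT3 t_PT1
theorem t_RM3 : S_RM3 := p_RM3 t_RM2 t_RM4 t_PT3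
theorem t_APROP : S_APROP := p_APROP t_RFIN
theorem t_ASH1 : S_ASH1 := p_ASH1 t_APROP t_RFIN
theorem t_AGRO : S_AGRO := p_AGRO
theorem t_ACH0 : S_ACH0 := p_ACH0 t_ASH1 t_AGRO
theorem t_ACHR : S_ACHR := p_ACHR t_ACH0
theorem t_ALIM : S_ALIM := p_ALIM t_ASH1 t_APROP t_RFIN
theorem t_AALG1 : S_AALG1 := p_AALG1 t_ACHR t_ALIM t_ASH1
theorem t_AREP : S_AREP := p_AREP t_ASH1 t_RFIN
theorem t_EUL : S_EUL := p_EUL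
theorem t_ANS1 : S_ANS1 := p_ANS1 t_RFIN
theorem t_ANS0 : S_ANS0 := p_ANS0 t_EUL t_ANS1 t_ASH1 t_RFIN
theorem t_ALOW : S_ALOW := p_ALOW t_ALIM t_RFIN
theorem t_PINT : S_PINT := p_PINT
theorem t_APIN : S_APIN := p_APIN t_PINT t_ASH1
theorem t_ANS2 : S_ANS2 := p_ANS2 t_ANS0 t_ALOW t_ACHR t_APIN
theorem t_ANSP : S_ANSP := p_ANSP t_ANS0 t_ANS1 t_ANS2 t_ACH0 t_ASH1 t_RFIN
theorem t_AALG2 : S_AALG2 := p_AALG2 t_AREP t_ANSP t_ASH1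
theorem t_PIH : S_PIH := p_PIH t_PT1
theorem t_PIC : S_PIC := p_PIC t_PT1 t_PIH t_PUB
theorem t_FIBQ : S_FIBQ := p_FIBQ t_PIC
theorem t_PUF0 : S_PUF0 := p_PUF0 t_PIC t_FIBQ
theorem t_HART : S_HART := p_HART
theorem t_DIV1 : S_DIV1 := p_DIV1
theorem t_DIV2 : S_DIV2 := p_DIV2 t_HART t_DIV1
theorem t_HCA : S_HCA := p_HCA
theorem t_PUF : S_PUF := p_PUF t_PUF0 t_DIV2 t_HCA
theorem t_NEG : S_NEG := p_NEG t_RM2 t_PUN t_PUF t_JFORM t_HCA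
theorem t_PT4 : S_PT4 := p_PT4 t_PT1 t_PIH
theorem t_FINB : S_FINB := p_FINB t_PIC t_PT4 t_PUN
theorem t_THIN : S_THIN := p_THIN t_PT1 t_PIH t_JFORM
theorem t_COVB : S_COVB := p_COVB t_PIC t_RFIN
theorem t_COV0 : S_COV0 := p_COV0 t_PIC t_FINB t_THIN t_COVB t_PIH
theorem t_CARD : S_CARD := p_CARD
theorem t_COV1 : S_COV1 := p_COV1 t_COV0 t_CARD t_COVB t_PT1 t_PT4 t_PIH t_FINB
theorem t_UBX : S_UBX := p_UBX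
theorem t_UNIB : S_UNIB := p_UNIB
theorem t_UBT : S_UBT := p_UBT
theorem t_MUL : S_MUL := p_MUL
theorem t_COVU : S_COVU := p_COVU t_UBX t_UNIB t_UBT t_PUF t_PUN t_ZACC t_THIN t_PIH t_MUL
theorem t_COVC : S_COVC := p_COVC t_PUF t_PUN t_MUL t_HCA
theorem t_TB0 : S_TB0 := p_TB0
theorem t_MOS : S_MOS := p_MOS
theorem t_COVN : S_COVN := p_COVN t_TB0 t_MOS t_PUF t_PUN t_FIBQ t_PIH t_PIC t_FINB
theorem t_MOC : S_MOC := p_MOC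
theorem t_COVM : S_COVM := p_COVM t_COVN t_COVB t_MOC t_MUL
theorem t_COV : S_COV := p_COV t_PIH t_PIC t_FINB t_COV0 t_COV1 t_COVU t_COVC t_COVM t_CARD t_COVB
theorem t_DEGB : S_DEGB := p_DEGB t_BEZ t_PT1 t_PT4
theorem t_AMAIN : S_AMAIN := p_AMAIN t_CH t_JET2 t_GENE2 t_RM1 t_RCF t_RM3 t_AALG1 t_AALG2 t_NEG t_COV t_COVB t_DEGB
theorem t_MON1 : S_MON1 := p_MON1
theorem t_MON2 : S_MON2 := p_MON2
theorem t_NOD2 : S_NOD2 := p_NOD2 t_MON1 t_MON2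
theorem t_MAXG : S_MAXG := p_MAXG
theorem t_MAXB : S_MAXB := p_MAXB t_MAXG
theorem t_NOD : S_NOD := p_NOD t_NOD2 t_MAXB
theorem t_NOPEN : S_NOPEN := p_NOPEN
theorem t_SMAX : S_SMAX := p_SMAX
theorem t_KMA : S_KMA := p_KMA t_SMAX
theorem t_KM1 : S_KM1 := p_KM1 t_KMA
theorem t_KM2 : S_KM2 := p_KM2 t_KMA
theorem t_INC : S_INC := p_INC t_NOD t_NOPEN t_KMA t_KM1 t_KM2 t_MAXB
theorem t_SL4 : S_SL4 := p_SL4
theorem t_HINC : S_HINC := p_HINC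
theorem t_HTI : S_HTI := p_HTI t_HINC
theorem t_HURO : S_HURO := p_HURO t_SL4 t_HTI t_MAXB
theorem t_AUT : S_AUT := p_AUT
theorem t_HTRD : S_HTRD := p_HTRD t_HURO t_AUT t_MAXB
theorem t_BMAIN : S_BMAIN := p_BMAIN t_INC t_HTRD
theorem t_CEQS : S_CEQS := p_CEQS
theorem t_COPEN : S_COPEN := p_COPEN
theorem t_CMAIN : S_CMAIN := p_CMAIN t_CEQS t_COPEN
theorem t_TRN3 : S_TRN3 := p_TRN3
theorem t_TRANS : S_TRANS := p_TRANS t_TRN3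
theorem t_PU1 : S_PU1 := p_PU1
theorem t_PERM : S_PERM := p_PERM
theorem t_PU2 : S_PU2 := p_PU2 t_PU1 t_PERM
theorem t_PUISP : S_PUISP := p_PUISP t_PU2
theorem t_LIP : S_LIP := p_LIP
theorem t_MCS : S_MCS := p_MCS
theorem t_QUO : S_QUO := p_QUO
theorem t_LFM0 : S_LFM0 := p_LFM0 t_PUISP t_PERM t_LIP t_MCS t_QUO
theorem t_TRX : S_TRX := p_TRX
theorem t_LFM : S_LFM := p_LFM t_LFM0 t_TRX t_MUL
theorem t_TRA : S_TRA := p_TRA t_TRX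
theorem t_TBOX : S_TBOX := p_TBOX t_TRA t_MUL
theorem t_CRC : S_CRC := p_CRC t_MUL
theorem t_LFB : S_LFB := p_LFB t_TBOX t_CRC
theorem t_TBG : S_TBG := p_TBG t_TRANS t_LFM t_LFB
theorem t_CVB : S_CVB := p_CVB
theorem t_CVM : S_CVM := p_CVM t_CVB t_MUL
theorem t_HFA : S_HFA := p_HFA
theorem t_WM : S_WM := p_WM t_CVM t_MOS t_MOC t_MUL t_HFA
theorem t_SM0 : S_SM0 := p_SM0 t_MUL t_HCA t_HFA
theorem t_SM : S_SM := p_SM t_SM0 t_MOS t_MOC t_MUL t_HFA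
theorem t_STEP : S_STEP := p_STEP
theorem t_PROP : S_PROP := p_PROP t_STEP
theorem t_CM0 : S_CM0 := p_CM0 t_WM t_SM t_PROP t_TBOX t_CVB t_MUL
theorem t_TRSN : S_TRSN := p_TRSN
theorem t_ZCON : S_ZCON := p_ZCON t_TRSN
theorem t_ASMG : S_ASMG := p_ASMG
theorem t_SLV : S_SLV := p_SLV t_CM0 t_ZCON t_ASMG t_CVB
theorem t_CT1 : S_CT1 := p_CT1
theorem t_CT2 : S_CT2 := p_CT2
theorem t_COUNT : S_COUNT := p_COUNT t_CT1 t_CT2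
theorem t_XTH1 : S_XTH1 := p_XTH1
theorem t_XTH : S_XTH := p_XTH t_XTH1
theorem t_MOCH : S_MOCH := p_MOCH
theorem t_MOU : S_MOU := p_MOU t_UNIB t_UBT t_MOCH t_MOC
theorem t_CM2 : S_CM2 := p_CM2 t_XTH t_UBX t_MOU t_MOC t_HFA t_HCA t_MUL
theorem t_PRODG : S_PRODG := p_PRODG
theorem t_CM : S_CM := p_CM t_CM0 t_CM2 t_ZCON t_ASMG t_PRODG t_CVB
theorem t_GL2 : S_GL2 := p_GL2
theorem t_CPP : S_CPP := p_CPP
theorem t_CHW1 : S_CHW1 := p_CHW1 t_HFA t_MUL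
theorem t_RETR : S_RETR := p_RETR
theorem t_CHW0 : S_CHW0 := p_CHW0 t_CHW1 t_RETR t_HFA t_HCA t_MUL
theorem t_CHW : S_CHW := p_CHW t_CHW0 t_MOCH t_HFA
theorem t_FIB : S_FIB := p_FIB t_ASMG t_PRODG
theorem t_SMZ : S_SMZ := p_SMZ t_HCA
theorem t_UBW1 : S_UBW1 := p_UBW1 t_MOU t_UBT t_SMZ t_HCA t_MUL
theorem t_UBW2 : S_UBW2 := p_UBW2 t_UBX t_UBT
theorem t_FIBW : S_FIBW := p_FIBW t_FIB t_XTH t_UBW1 t_UBW2 t_CPP t_MOC t_CVB t_HFA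
theorem t_FAMW : S_FAMW := p_FAMW t_CM t_GL2 t_CPP t_CHW t_FIBW t_MOC t_HFA t_CVB
theorem t_DMAIN : S_DMAIN := p_DMAIN t_TBG t_SLV t_COUNT t_FAMW t_CVB
theorem t_MAIN : S_MAIN := p_MAIN t_AMAIN t_BMAIN t_CMAIN t_DMAIN

end Pool.Agent.P.MP_ab0431_ag.UB.V2
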