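import Pool.Agent.P.MP_ab0431_ag.UB.Defs

/-!
Definitions for surfaces with isolated double points and their families.
-/

namespace Pool.Agent.P.MP_ab0431_ag

open Set Filter Topology
open scoped Manifold ContDiff

section

variable (E F : Type) [NormedAddCommGroup E] [NormedSpace ℂ E] [NormedAddCommGroup F]
  [NormedSpace ℂ F] {M N : Type} [TopologicalSpace M] [ChartedSpace E M] [TopologicalSpace N]
  [ChartedSpace F N]

/-- `f` is a holomorphic immersion at the points of `s`. -/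
def HolImmOn (f : M → N) (s : Set M) : Prop :=
  ∀ x ∈ s, MDifferentiableAt 𝓘(ℂ, E) 𝓘(ℂ, F) f x ∧
    Function.Injective (mfderiv 𝓘(ℂ, E) 𝓘(ℂ, F) f x)

end

/-- The hypersurface `η ^ 2 = D u`. -/
abbrev Dbl {E : Type} (D : E → ℂ) : Type := {v : E × ℂ // v.2 ^ 2 = D v.1}

/-- `ψ` identifies an open subset of `B` with an open subset of the hypersurface `η ^ 2 = D u`,
over which `D` is holomorphic, and it is a holomorphic immersion on the manifold part `ι`. -/
def DChart (E : Type) [NormedAddCommGroup E] [NormedSpace ℂ E] {M B : Type} [TopologicalSpace M]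
    [ChartedSpace E M] [TopologicalSpace B] (ι : M → B) (D : E → ℂ)
    (ψ : OpenPartialHomeomorph B (Dbl D)) : Prop :=
  (∀ v ∈ ψ.target, AnalyticAt ℂ D v.1.1) ∧
    HolImmOn E (E × ℂ) (fun x => (ψ (ι x)).1) (ι ⁻¹' ψ.source)

/-- A compact connected space `B` that is a complex surface `X` off finitely many points `q`, each
of which is the origin of a hypersurface `η ^ 2 = D q u` with an isolated singularity. -/
structure DSurf where
  X : Type
  [top : TopologicalSpace X]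
  [cs : ChartedSpace C2 X]
  mfd : IsManifold 𝓘(ℂ, C2) ω X
  B : Type
  [topB : TopologicalSpace B]
  t2B : T2Space B
  cptB : CompactSpace B
  conn : ConnectedSpace B
  ι : X → B
  emb : IsOpenEmbedding ι
  fin : (range ι)ᶜ.Finite
  D : B → C2 → ℂ
  ψ : ∀ q, OpenPartialHomeomorph B (Dbl (D q))
  dp : ∀ q ∉ range ι, DChart C2 ι (D q) (ψ q) ∧ q ∈ (ψ q).source ∧ (ψ q q).1 = 0 ∧
    fderiv ℂ (D q) 0 = 0 ∧ ∀ᶠ u in 𝓝[≠] 0, D q u = 0 → fderiv ℂ (D q) u ≠ 0

attribute [instance] DSurf.top DSurf.cs DSurf.topB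

/-- The coordinates `(u, η)` of a smooth point in the chart at `q`. -/
noncomputable def DSurf.co (X : DSurf) (q : X.B) (x : X.X) : C2 × ℂ := (X.ψ q (X.ι x)).1

/-- Near `q` the section `σ` of `K ^ m` is `g (u, η)` times the `m`-th power of
`du₁ ∧ du₂ / η`, with `g` holomorphic near the origin. -/
def DSurf.Germ (X : DSurf) (q : X.B) (m : ℕ) (σ : OpenPartialHomeomorph X.X C2 → C2 → ℂ)
    (g : C2 × ℂ → ℂ) : Prop :=
  AnalyticAt ℂ g 0 ∧ ∀ᶠ x in comap X.ι (𝓝 q), ∀ e ∈ atlas C2 X.X, x ∈ e.source →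
    σ e (e x) * (X.co q x).2 ^ m =
      g (X.co q x) * (fderiv ℂ (fun y => (X.co q (e.symm y)).1) (e x)).det ^ m

/-- The `m`-th power of the dualising sheaf is very ample: finitely many sections of it have no
common zero, separate the points of `B`, and separate tangent vectors, at the double points the
vectors of the ambient space. -/
def DAmple (X : DSurf) (m : ℕ) : Prop :=
  ∃ (N : ℕ) (σ : Fin N → OpenPartialHomeomorph X.X C2 → C2 → ℂ) (val : X.B → Fin N → ℂ),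
    (∀ i, IsForm X.X m (σ i)) ∧ (∀ p, val p ≠ 0) ∧
    (∀ (p p' : X.B) (c : ℂ), val p = c • val p' → p = p') ∧
    (∀ e ∈ atlas C2 X.X, ∀ x ∈ e.source,
      (∃ c : ℂ, c ≠ 0 ∧ ∀ i, σ i e (e x) = c * val (X.ι x) i) ∧
      ∀ (v : C2) (c : ℂ), (∀ i, fderiv ℂ (σ i e) (e x) v = c * σ i e (e x)) → v = 0) ∧
    ∀ q ∉ range X.ι, ∃ g : Fin N → C2 × ℂ → ℂ, (∀ i, X.Germ q m (σ i) (g i) ∧ g i 0 = val q i) ∧
      ∀ (v : C2 × ℂ) (c : ℂ), (∀ i, fderiv ℂ (g i) 0 v = c * g i 0) → v = 0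

/-- `X` is mapped homeomorphically onto a fibre of `p : W → ℂ`, by a map that off a finite set is
a holomorphic immersion into the manifold part `κ` of `W`. -/
def DFibre (X : DSurf) {Z W : Type} [TopologicalSpace Z] [ChartedSpace (C2 × ℂ) Z]
    [TopologicalSpace W] (κ : Z → W) (p : W → ℂ) : Prop :=
  ∃ (t : ℂ) (j : X.B → W) (j₀ : X.X → Z) (S : Set X.X), Continuous j ∧ Function.Injective j ∧
    range j = p ⁻¹' {t} ∧ S.Finite ∧ (∀ x ∉ S, j (X.ι x) = κ (j₀ x)) ∧
    HolImmOn C2 (C2 × ℂ) j₀ Sᶜ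

/-- `X` and `Y` are fibres of one proper map `p` from a Hausdorff space `W` to a connected open
subset `U` of `ℂ`. Off a closed set with finite fibres `W` is a complex threefold `Z` on which `p`
is a holomorphic submersion; near the other points `W` is a hypersurface `η ^ 2 = D (u, t)` and
`p` is the coordinate `t`. -/
def DFamily (X Y : DSurf) : Prop :=
  ∃ (Z : Type) (_ : TopologicalSpace Z) (_ : ChartedSpace (C2 × ℂ) Z) (W : Type)
    (_ : TopologicalSpace W) (κ : Z → W) (U : Set ℂ) (p : W → ℂ),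
    T2Space W ∧ IsManifold 𝓘(ℂ, C2 × ℂ) ω Z ∧ IsOpenEmbedding κ ∧ IsOpen U ∧ IsConnected U ∧
    (∀ w, p w ∈ U) ∧ Continuous p ∧ (∀ K ⊆ U, IsCompact K → IsCompact (p ⁻¹' K)) ∧
    HolSubm (C2 × ℂ) ℂ (p ∘ κ) ∧ (∀ t, (p ⁻¹' {t} \ range κ).Finite) ∧
    (∀ w ∉ range κ, ∃ (D : C2 × ℂ → ℂ) (ψ : OpenPartialHomeomorph W (Dbl D)),
      DChart (C2 × ℂ) κ D ψ ∧ w ∈ ψ.source ∧ ∀ w' ∈ ψ.source, p w' = (ψ w').1.1.2) ∧
    DFibre X κ p ∧ DFibre Y κ p

end Pool.Agent.P.MP_ab0431_ag
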