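import Pool.Agent.P.MP_ab0431_ag.UB.Main
import Pool.Agent.P.MP_ab0431_ag.UB2.Defs

/-! Plane curves with arbitrary vertical multiplicities, the double cover model, the model of a
ramification curve with singular points. -/

set_option autoImplicit false
set_option linter.unusedSectionVars false

namespace Pool.Agent.P.MP_ab0431_ag

attribute [instance] DSurf.mfd DSurf.t2B DSurf.cptB DSurf.conn

instance DSurf.t2 (X : DSurf) : T2Space X.X := X.emb.isEmbedding.t2Space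

namespace UB.V2

open Polynomial Set Filter Topology
open scoped Manifold ContDiff

/-- A plane curve of degree `b`, transversal to the line at infinity. -/
def Good {b m : ℕ} (c : Co b m → ℂ) : Prop :=
  WD b 1 (toP c) ∧ (Δ b (toP c)).coeff (b * (b - 1)) ≠ 0

/-- The coefficient vectors that come from a normal cover with small weights. -/
def Y0 (b w m : ℕ) : Set (Co b m → ℂ) :=
  {c | ∃ D : Dat ℂ b, D.w = w ∧ D.toStr.Max ∧ (∀ i, D.a i + 1 ≤ m) ∧ c ∈ D.Tset m}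

/-- A holomorphic family of good curves with `n` critical abscissae over a neighbourhood of the
segment from `0` to `N`. -/
structure Strip {b m : ℕ} (n N : ℕ) (U : Set ℂ) (s : ℂ → Co b m → ℂ) : Prop where
  isOpen : IsOpen U
  seg : ∀ x : ℝ, 0 ≤ x → x ≤ N → (x : ℂ) ∈ U
  hol : DifferentiableOn ℂ s U
  good : ∀ u ∈ U, Good (s u) ∧ nr (s u) = n

section
variable (Q : PM) {b m : ℕ}

/-- The equation of the curve in affine coordinates. -/
noncomputable def Dc (c : Co b m → ℂ) (u : C2) : ℂ := (toP c).evalEval (u 0) (u 1)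

/-- The equation of the family in affine coordinates. -/
noncomputable def Df (s : ℂ → Co b m → ℂ) (u : C2 × ℂ) : ℂ := Dc (s u.2) u.1

/-- The affine equation as a function on the plane. -/
noncomputable def Hc (c : Co b m → ℂ) (y : Q.Y) : ℂ := Dc c (Q.ch 0 y)

/-- The affine equation of the family. -/
noncomputable def Hf (s : ℂ → Co b m → ℂ) (w : Q.Y × ℂ) : ℂ := Hc Q (s w.2) w.1

open Classical in
/-- The multiplicity of the intersection of the curve with the vertical line. -/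
noncomputable def mu (c : Co b m → ℂ) (y : Q.Y) : ℕ :=
  if y ∈ Bc Q c then (if y ∈ (Q.ch 0).source then
    max 1 (rootMultiplicity (Q.ch 0 y 1) ((toP c).map (evalRingHom (Q.ch 0 y 0)))) else 1) else 0

/-- The multiplicity in a family. -/
noncomputable def muF (s : ℂ → Co b m → ℂ) (w : Q.Y × ℂ) : ℕ := mu Q (s w.2) w.1

theorem mu_pos (c : Co b m → ℂ) (y : Q.Y) : 0 < mu Q c y ↔ y ∈ Bc Q c := by
  unfold mu; split_ifs with h1 h2 <;> simp [h1]

theorem mu_src (c : Co b m → ℂ) {y : Q.Y} (h : 1 < mu Q c y) : y ∈ (Q.ch 0).source := by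
  unfold mu at h; split_ifs at h with h1 h2 <;> first | assumption | omega

theorem muF_pos (s : ℂ → Co b m → ℂ) (w : Q.Y × ℂ) : 0 < muF Q s w ↔ w ∈ Fam Q s :=
  mu_pos Q _ _

/-- The affine chart of the total space. -/
noncomputable def chF : OpenPartialHomeomorph (Q.Y × ℂ) (C2 × ℂ) :=
  (Q.ch 0).prod (OpenPartialHomeomorph.refl ℂ)

theorem Hf_eq (s : ℂ → Co b m → ℂ) (w : Q.Y × ℂ) : Hf Q s w = Df s (chF Q w) := rfl

end

/-- The double cover `η ^ 2 = H` together with `n` trivial sheets. -/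
abbrev Mo {T : Type} (H : T → ℂ) (n : ℕ) : Type :=
  {v : T × ℂ × Fin (n + 1) // v.2.2 = 0 ∧ v.2.1 ^ 2 = H v.1 ∨ v.2.2 ≠ 0 ∧ v.2.1 = 0}

/-- The projection of the model. -/
def mpr {T : Type} (H : T → ℂ) (n : ℕ) (v : Mo H n) : T := v.1.1

theorem continuous_mpr {T : Type} [TopologicalSpace T] (H : T → ℂ) (n : ℕ) :
    Continuous (mpr H n) := continuous_fst.comp continuous_subtype_val

theorem mpr_surj {T : Type} (H : T → ℂ) (n : ℕ) : Function.Surjective (mpr H n) := fun y =>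
  let ⟨η, h⟩ := IsAlgClosed.exists_pow_nat_eq (H y) two_pos
  ⟨⟨(y, η, 0), .inl ⟨rfl, h⟩⟩, rfl⟩

/-- Near `z` the part off `B` is dense and does not split. -/
def UbAt {E T : Type} [TopologicalSpace E] (p : E → T) (B : Set T) (z : E) : Prop :=
  z ∈ closure (p ⁻¹' Bᶜ) ∧ ∀ N ∈ 𝓝 z, ∃ N' ∈ 𝓝 z, N' ⊆ N ∧ IsPreconnected (N' \ p ⁻¹' B)

/-- The manifold part of a surface with a holomorphic map to the plane. -/
abbrev cvr {Q : PM} (X : DSurf) {F : X.X → Q.Y} (h : MDifferentiable 𝓘(ℂ, C2) 𝓘(ℂ, C2) F) :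
    Cv C2 Q.Y := Cv.mk X.X X.mfd X.t2 F h

/-- `π` presents `X` as a cover of degree `d` of the plane branched along the curve `c`; over the
finite set `S` it is a double cover together with trivial sheets. -/
structure Cov (Q : PM) (X : DSurf) {b m : ℕ} (c : Co b m → ℂ) (d : ℕ) {F : X.X → Q.Y}
    (h : MDifferentiable 𝓘(ℂ, C2) 𝓘(ℂ, C2) F) (π : X.B → Q.Y) (S : Set Q.Y) : Prop where
  eq : ∀ x, π (X.ι x) = F x
  cont : Continuous π
  fin : ∀ y, (π ⁻¹' {y}).Finite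
  ub : ∀ z, UbAt π (Bc Q c) z
  finS : S.Finite
  g0 : (cvr X h).G0 (Bc Q c) Sᶜ
  g1 : (cvr X h).G1 (Bc Q c) d (fun _ => 0) Sᶜ
  pun : ∀ q ∉ range X.ι, π q ∈ S
  cr : ∀ y ∈ S, 1 < mu Q c y
  t3 : ∀ y, 2 < mu Q c y → y ∈ S
  mdl : ∀ y ∈ S, ∃ N φ, IsOpen N ∧ y ∈ N ∧ Car (mpr (Hc Q c) (d - 2)) F id (N \ Bc Q c) φ

/-- The surface is a cover of the plane branched along `c`. -/
def IsCov (Q : PM) (X : DSurf) {b m : ℕ} (c : Co b m → ℂ) (d : ℕ) : Prop :=
  ∃ (F : X.X → Q.Y) (h : MDifferentiable 𝓘(ℂ, C2) 𝓘(ℂ, C2) F) (π : X.B → Q.Y) (S : Set Q.Y),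
    Cov Q X c d h π S

/-- The analytic inverse function theorem. -/
theorem ift_an {E : Type} [NormedAddCommGroup E] [NormedSpace ℂ E] [FiniteDimensional ℂ E]
    {G : E → E} {ζ : E} (hG : AnalyticAt ℂ G ζ) (hi : Function.Injective (fderiv ℂ G ζ)) :
    ∃ g : OpenPartialHomeomorph E E, (g : E → E) = G ∧ ζ ∈ g.source ∧
      AnalyticAt ℂ g.symm (G ζ) := by
  have : CompleteSpace E := FiniteDimensional.complete ℂ E
  let L : E ≃L[ℂ] E := (LinearEquiv.ofInjectiveEndo (fderiv ℂ G ζ : E →ₗ[ℂ] E)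
    hi).toContinuousLinearEquiv
  have h1 : HasFDerivAt G (L : E →L[ℂ] E) ζ := by
    have : (L : E →L[ℂ] E) = fderiv ℂ G ζ := ContinuousLinearMap.ext fun _ => rfl
    rw [this]; exact hG.differentiableAt.hasFDerivAt
  have h2 : ContDiffAt ℂ ω G ζ := hG.contDiffAt
  exact ⟨h2.toOpenPartialHomeomorph G h1 (by simp), rfl,
    h2.mem_toOpenPartialHomeomorph_source h1 _, (h2.to_localInverse h1 (by simp)).analyticAt⟩

/-- A map with a holomorphic local left inverse is an immersion. -/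
theorem inj_of_left {E E' M M' : Type} [NormedAddCommGroup E] [NormedSpace ℂ E]
    [NormedAddCommGroup E'] [NormedSpace ℂ E'] [TopologicalSpace M] [ChartedSpace E M]
    [TopologicalSpace M'] [ChartedSpace E' M'] {k : M → M'} {L : M' → M} {z : M}
    (hk : MDifferentiableAt 𝓘(ℂ, E) 𝓘(ℂ, E') k z)
    (hL : MDifferentiableAt 𝓘(ℂ, E') 𝓘(ℂ, E) L (k z)) (h : ∀ᶠ y in 𝓝 z, L (k y) = y) :
    Function.Injective (mfderiv 𝓘(ℂ, E) 𝓘(ℂ, E') k z) := by
  have h1 : L ∘ k =ᶠ[𝓝 z] id := h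
  have h2 := mfderiv_comp z hL hk
  rw [h1.mfderiv_eq, mfderiv_id] at h2
  refine Function.LeftInverse.injective (g := mfderiv 𝓘(ℂ, E') 𝓘(ℂ, E) L (k z)) fun v => ?_
  exact (congrArg (fun T => T v) h2).symm

/-- A compact curve with a function `x` that has the local forms `x₀ + u`, `x₀ + u ^ 2` and,
at the points at infinity, `1 / u`; at the points of `bad` there is no chart. -/
structure RS where
  R : Type
  [top : TopologicalSpace R]
  cpt : CompactSpace R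
  t2 : T2Space R
  inf : Set R
  bad : Set R
  xx : R → ℂ
  ν : R → ℕ
  ψ : R → OpenPartialHomeomorph R ℂ
  mem : ∀ r ∉ bad, r ∈ (ψ r).source
  zero : ∀ r ∉ bad, ψ r r = 0
  ν12 : ∀ r, ν r = 1 ∨ ν r = 2
  aff : ∀ r ∉ inf, ∀ r' ∈ (ψ r).source, r' ∉ inf ∧ xx r' = xx r + ψ r r' ^ ν r
  atinf : ∀ r ∈ inf, ν r = 1 ∧ ∀ r' ∈ (ψ r).source, r' ≠ r → r' ∉ inf ∧ xx r' * ψ r r' = 1
  bν : ∀ r ∈ bad, ν r = 2
  bo : ∀ r, ∀ r' ∈ (ψ r).source, r' ∉ bad
  bx : ∀ r ∈ bad, ContinuousAt xx r ∧ (∀ᶠ r' in 𝓝 r, r' ∉ inf) ∧ (𝓝[≠] r).NeBot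

attribute [instance] RS.top RS.cpt RS.t2

namespace RS

variable (S : RS)

/-- The fibre of `x`. -/
def fb (x : ℂ) : Set S.R := {r | r ∉ S.inf ∧ S.xx r = x}

/-- A function in the local parameter at `r`. -/
noncomputable def lc (f : S.R → ℂ) (r : S.R) : ℂ → ℂ := f ∘ (S.ψ r).symm

/-- The critical values. -/
def cv : Set ℂ := S.xx '' {r | S.ν r = 2}

/-- Finitely many critical points, finite fibres. -/
def Fn : Prop := {r | S.ν r = 2}.Finite ∧ ∀ x, (S.fb x).Finite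

/-- Holomorphic at the finite points with a chart, with poles of order at most `n` at infinity
and leading coefficients `τ`. -/
def Cl0 (n : ℕ) (f τ : S.R → ℂ) : Prop :=
  (∀ r ∉ S.inf, r ∉ S.bad → AnalyticAt ℂ (S.lc f r) 0) ∧ ∀ r ∈ S.inf, ∃ g : ℂ → ℂ,
    AnalyticAt ℂ g 0 ∧ g 0 = τ r ∧ ∀ᶠ u in 𝓝[≠] 0, S.lc f r u * u ^ n = g u

/-- The same, and continuous at the points without a chart. -/
def Cl (n : ℕ) (f τ : S.R → ℂ) : Prop := S.Cl0 n f τ ∧ ∀ r ∈ S.bad, ContinuousAt f r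

/-- Every finite point with a chart is separated from the rest of its fibre by a function. -/
def Sep : Prop := ∀ r ∉ S.inf, r ∉ S.bad → ∃ g τ', S.Cl 1 g τ' ∧
  (∀ r' ∈ S.fb (S.xx r), g r' = g r → r' = r) ∧ (S.ν r = 2 → deriv (S.lc g r) 0 ≠ 0)

/-- The genericity properties of the ramification curve and of the function `z`. -/
structure Gen (z τ : S.R → ℂ) : Prop where
  fn : S.Fn
  cl : S.Cl 1 z τ
  inj : InjOn τ S.inf
  pair : ∀ x, ∀ r ∈ S.fb x \ S.bad, ∀ r' ∈ S.fb x \ S.bad, S.ν r = 2 → z r = z r' → r = r'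
  triple : ∀ x, ∀ r ∈ S.fb x \ S.bad, ∀ r' ∈ S.fb x \ S.bad, ∀ r'' ∈ S.fb x \ S.bad,
    z r = z r' → z r = z r'' → r = r' ∨ r = r'' ∨ r' = r''
  sep : S.Sep

/-- A function with a small pole at infinity that vanishes enough at the critical points. -/
def Neg (z : S.R → ℂ) (F : ℂ[X][X]) : Prop :=
  ∃ (M n : ℕ) (φ τ' : S.R → ℂ), n < 6 * M ∧ S.Cl0 n φ τ' ∧
    (∀ r ∉ S.inf, S.ν r = 1 → φ r ≠ 0) ∧
    (∀ r ∉ S.bad, S.ν r = 2 → S.lc φ r =O[𝓝 0] fun u => u ^ M) ∧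
    ∀ r ∈ S.bad, φ =O[𝓝[≠] r] fun r' => F.derivative.evalEval (S.xx r') (z r') ^ M

/-- The curve `c` is the image of the ramification curve. -/
structure Img (z τ : S.R → ℂ) (c : Co S.inf.ncard 6 → ℂ) : Prop where
  good : Good c
  aff : ∀ x ∉ S.cv, (toP c).map (evalRingHom x) = ∏ᶠ r ∈ S.fb x, (X - C (z r))
  root : ∀ x t, (toP c).evalEval x t = 0 ↔ ∃ r ∈ S.fb x, z r = t
  tri : ∀ x t, 2 < rootMultiplicity t ((toP c).map (evalRingHom x)) →
    ∃ r ∈ S.bad, S.xx r = x ∧ z r = t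
  top : UB.top S.inf.ncard 1 (toP c) = ∏ᶠ r ∈ S.inf, (X - C (τ r))

variable {S} {r : S.R}

theorem inf_good (h : r ∈ S.inf) : r ∉ S.bad := fun e => by
  have := (S.atinf r h).1
  have := S.bν r e
  omega

theorem bad_fin (h : r ∈ S.bad) : r ∉ S.inf := fun e => inf_good e h

theorem tgt (h : r ∉ S.bad) : (0 : ℂ) ∈ (S.ψ r).target :=
  S.zero r h ▸ (S.ψ r).map_source (S.mem r h)

theorem tgt_ev (h : r ∉ S.bad) : ∀ᶠ u in 𝓝 (0 : ℂ), u ∈ (S.ψ r).target :=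
  (S.ψ r).open_target.mem_nhds (tgt h)

theorem symm_zero (h : r ∉ S.bad) : (S.ψ r).symm 0 = r := by
  rw [← S.zero r h, (S.ψ r).left_inv (S.mem r h)]

theorem lc_zero (h : r ∉ S.bad) (f : S.R → ℂ) : S.lc f r 0 = f r := congrArg f (symm_zero h)

theorem tendsto_symm (h : r ∉ S.bad) : Tendsto (S.ψ r).symm (𝓝 0) (𝓝 r) := by
  simpa only [ContinuousAt, symm_zero h] using (S.ψ r).continuousAt_symm (tgt h)

theorem tendsto_ψ (h : r ∉ S.bad) : Tendsto (S.ψ r) (𝓝 r) (𝓝 0) := by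
  simpa only [ContinuousAt, S.zero r h] using (S.ψ r).continuousAt (S.mem r h)

theorem src_ev (h : r ∉ S.bad) : ∀ᶠ r' in 𝓝 r, r' ∈ (S.ψ r).source :=
  (S.ψ r).open_source.mem_nhds (S.mem r h)

theorem tendsto_ψ_ne (h : r ∉ S.bad) : Tendsto (S.ψ r) (𝓝[≠] r) (𝓝[≠] 0) :=
  tendsto_nhdsWithin_iff.2 ⟨(tendsto_ψ h).mono_left nhdsWithin_le_nhds, by
    filter_upwards [nhdsWithin_le_nhds (src_ev h), self_mem_nhdsWithin] with r' a c e
    exact c ((S.ψ r).injOn a (S.mem r h) (e.trans (S.zero r h).symm))⟩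

theorem tendsto_symm_ne (h : r ∉ S.bad) : Tendsto (S.ψ r).symm (𝓝[≠] 0) (𝓝[≠] r) :=
  tendsto_nhdsWithin_iff.2 ⟨(tendsto_symm h).mono_left nhdsWithin_le_nhds, by
    filter_upwards [nhdsWithin_le_nhds (tgt_ev h), self_mem_nhdsWithin] with u a c e
    exact c ((S.ψ r).symm.injOn a (tgt h) (e.trans (symm_zero h).symm))⟩

theorem lc_ψ (h : r ∉ S.bad) (f : S.R → ℂ) : ∀ᶠ r' in 𝓝 r, S.lc f r (S.ψ r r') = f r' :=
  (src_ev h).mono fun _ a => congrArg f ((S.ψ r).left_inv a)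

theorem contAt_of_lc (h : r ∉ S.bad) {f : S.R → ℂ} (a : ContinuousAt (S.lc f r) 0) :
    ContinuousAt f r := by
  rw [ContinuousAt, ← lc_zero h f]
  exact (a.tendsto.comp (tendsto_ψ h)).congr' (lc_ψ h f)

theorem Cl.contAt {n : ℕ} {f τ : S.R → ℂ} (c : S.Cl n f τ) (h : r ∉ S.inf) : ContinuousAt f r := by
  by_cases e : r ∈ S.bad
  exacts [c.2 r e, contAt_of_lc e (c.1.1 r h e).continuousAt]

theorem bigO_of_lc (h : r ∉ S.bad) {f : S.R → ℂ} (a : S.lc f r =O[𝓝[≠] 0] fun _ => (1 : ℝ)) :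
    f =O[𝓝[≠] r] fun _ => (1 : ℝ) :=
  (a.comp_tendsto (tendsto_ψ_ne h)).congr' (nhdsWithin_le_nhds (lc_ψ h f)) EventuallyEq.rfl

theorem neBot (r : S.R) : (𝓝[≠] r).NeBot := by
  by_cases e : r ∈ S.bad
  exacts [(S.bx r e).2.2, (tendsto_symm_ne e).neBot]

theorem ν_ne (r : S.R) : S.ν r ≠ 0 := by rcases S.ν12 r with n | n <;> simp [n]

theorem aff_ev (h : r ∉ S.inf) (h' : r ∉ S.bad) :
    ∀ᶠ u in 𝓝 (0 : ℂ), (S.ψ r).symm u ∈ S.fb (S.xx r + u ^ S.ν r) :=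
  (tgt_ev h').mono fun u hu => by
    have := S.aff r h _ ((S.ψ r).map_target hu)
    rw [(S.ψ r).right_inv hu] at this
    exact this

theorem inf_ev (h : r ∈ S.inf) : ∀ᶠ u in 𝓝[≠] (0 : ℂ), (S.ψ r).symm u ∈ S.fb u⁻¹ := by
  filter_upwards [nhdsWithin_le_nhds (tgt_ev (inf_good h)), self_mem_nhdsWithin] with u hu u0
  have := (S.atinf r h).2 _ ((S.ψ r).map_target hu) fun e =>
    u0 (by rw [← (S.ψ r).right_inv hu, e]; exact S.zero r (inf_good h))
  rw [(S.ψ r).right_inv hu] at this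
  exact ⟨this.1, eq_inv_of_mul_eq_one_left this.2⟩

theorem ν_one {x : ℂ} (hx : x ∉ S.cv) (h : r ∈ S.fb x) : S.ν r = 1 :=
  (S.ν12 r).resolve_right fun e => hx ⟨r, e, h.2⟩

theorem good_of_cv {x : ℂ} (hx : x ∉ S.cv) (h : r ∈ S.fb x) : r ∉ S.bad := fun e =>
  hx ⟨r, S.bν r e, h.2⟩

variable (S)

/-- The points of the fibres of `D` off a finite set are the points of the curve. -/
structure Rep (D : Dat ℂ S.inf.ncard) (Z : Set ℂ) (E : S.R → Fin S.inf.ncard → ℂ) : Prop where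
  fn : S.Fn
  fin : Z.Finite
  cv : S.cv ⊆ Z
  pt : ∀ x ∉ Z, ∀ r ∈ S.fb x, (D.fib x).IsPt (E r) ∧ AnalyticAt ℂ (fun u => E ((S.ψ r).symm u)) 0
  det : ∀ x ∉ Z, ∀ e, En e (S.fb x) → (Matrix.of fun j => E (e j)).det ≠ 0

/-- The value of an element of the algebra at a point of the curve. -/
noncomputable def val {b : ℕ} (E : S.R → Fin b → ℂ) (o : Fin b → ℂ[X]) (r : S.R) : ℂ :=
  ∑ i, (o i).eval (S.xx r) * E r i

variable {S} in
theorem val_eq {b : ℕ} {D : Dat ℂ b} {E : S.R → Fin b → ℂ} {x : ℂ} {r : S.R} (hr : r ∈ S.fb x)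
    (h : (D.fib x).IsPt (E r)) (o : D.A) :
    S.val E o r = h.hom (D.toStr.mapA (evalRingHom x) o) := by
  rw [val, hr.2]; rfl

variable {S} in
theorem val_root {b : ℕ} {D : Dat ℂ b} {E : S.R → Fin b → ℂ} {x : ℂ} {r : S.R} (hr : r ∈ S.fb x)
    (h : (D.fib x).IsPt (E r)) (o : D.A) :
    ((D.ch o).map (evalRingHom x)).IsRoot (S.val E o r) := by
  rw [val_eq hr h, ← Str.ch_map, IsRoot, ← coe_aeval_eq_eval, aeval_algHom_apply, Str.aeval_ch,
    map_zero]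

end RS

end UB.V2

end Pool.Agent.P.MP_ab0431_ag
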