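import Pool.Agent.P.MP_ab0431_ag.UB2.Base

/-! Pluricanonical forms on a surface with double points, generic triples of forms and the local
structure at the double points. -/

set_option autoImplicit false
set_option linter.unusedSectionVars false

namespace Pool.Agent.P.MP_ab0431_ag.UB.V2

open Polynomial Set Filter Topology Asymptotics
open scoped Manifold ContDiff

/-- Families of functions in the charts. -/
abbrev Sec (X : DSurf) : Type := OpenPartialHomeomorph X.X C2 → C2 → ℂ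

section
variable {X : DSurf} {m n : ℕ} {s t : Sec X}

theorem isForm_one : IsForm X.X 0 (1 : Sec X) :=
  ⟨fun _ _ => differentiableOn_const 1, fun _ _ _ _ _ _ => by simp⟩

theorem isForm_zero : IsForm X.X m (0 : Sec X) :=
  ⟨fun _ _ => differentiableOn_const 0, fun _ _ _ _ _ _ => by simp⟩

theorem isForm_mul (hs : IsForm X.X m s) (ht : IsForm X.X n t) : IsForm X.X (m + n) (s * t) :=
  ⟨fun e he => (hs.1 e he).mul (ht.1 e he), fun e he e' he' x hx => by
    simp only [Pi.mul_apply]; rw [hs.2 e he e' he' x hx, ht.2 e he e' he' x hx]; ring⟩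

theorem isForm_add (hs : IsForm X.X m s) (ht : IsForm X.X m t) : IsForm X.X m (s + t) :=
  ⟨fun e he => (hs.1 e he).add (ht.1 e he), fun e he e' he' x hx => by
    simp only [Pi.add_apply]; rw [hs.2 e he e' he' x hx, ht.2 e he e' he' x hx]; ring⟩

theorem isForm_smul (c : ℂ) (hs : IsForm X.X m s) : IsForm X.X m (c • s) :=
  ⟨fun e he => (hs.1 e he).const_smul c, fun e he e' he' x hx => by
    simp only [Pi.smul_apply, smul_eq_mul]; rw [hs.2 e he e' he' x hx]; ring⟩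

theorem isForm_sub (hs : IsForm X.X m s) (ht : IsForm X.X m t) : IsForm X.X m (s - t) := by
  simpa [sub_eq_add_neg] using isForm_add hs (isForm_smul (-1) ht)

theorem isForm_pow (hs : IsForm X.X m s) (k : ℕ) : IsForm X.X (k * m) (s ^ k) := by
  induction k with
  | zero => simpa using isForm_one
  | succ k ih => rw [pow_succ, Nat.succ_mul]; exact isForm_mul ih hs

theorem isForm_sum {ι : Type} (S : Finset ι) {f : ι → Sec X} (h : ∀ i ∈ S, IsForm X.X m (f i)) :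
    IsForm X.X m (∑ i ∈ S, f i) :=
  Finset.sum_induction f (IsForm X.X m) (fun _ _ => isForm_add) isForm_zero h

theorem isForm_prod {ι : Type} (S : Finset ι) {f : ι → Sec X} (h : ∀ i ∈ S, IsForm X.X m (f i)) :
    IsForm X.X (S.card * m) (∏ i ∈ S, f i) := by
  classical
  induction S using Finset.induction_on with
  | empty => simpa using isForm_one
  | insert a S ha ih =>
    rw [Finset.prod_insert ha, Finset.card_insert_of_notMem ha, Nat.succ_mul, add_comm]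
    exact isForm_mul (h a (Finset.mem_insert_self _ _))
      (ih fun i hi => h i (Finset.mem_insert_of_mem hi))

theorem isForm_analyticAt (hs : IsForm X.X m s) {e : OpenPartialHomeomorph X.X C2}
    (he : e ∈ atlas C2 X.X) {ζ : C2} (hζ : ζ ∈ e.target) : AnalyticAt ℂ (s e) ζ :=
  MP_f17f76_ag.E.analyticOnNhd_of_diffOn e.open_target (hs.1 e he) ζ hζ

/-- Changes of charts are analytic. -/
theorem trans_analyticAt {e e' : OpenPartialHomeomorph X.X C2} (he : e ∈ atlas C2 X.X)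
    (he' : e' ∈ atlas C2 X.X) {x : X.X} (hx : x ∈ e.source) (hx' : x ∈ e'.source) :
    AnalyticAt ℂ (e' ∘ e.symm) (e x) := by
  have h := (contDiffGroupoid ω 𝓘(ℂ, C2)).compatible he he'
  rw [contDiffGroupoid, mem_groupoid_of_pregroupoid] at h
  have h1 : ContDiffOn ℂ ω (e.symm ≫ₕ e') (e.symm ≫ₕ e').source := by
    simpa [contDiffPregroupoid] using h.1
  exact (h1.contDiffAt ((e.symm ≫ₕ e').open_source.mem_nhds (by simp [hx, hx']))).analyticAt

theorem trans_det_ne {e e' : OpenPartialHomeomorph X.X C2} (he : e ∈ atlas C2 X.X)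
    (he' : e' ∈ atlas C2 X.X) {x : X.X} (hx : x ∈ e.source) (hx' : x ∈ e'.source) :
    (fderiv ℂ (e' ∘ e.symm) (e x)).det ≠ 0 := by
  have h1 := (trans_analyticAt he he' hx hx').differentiableAt
  have h2 := (trans_analyticAt he' he hx' hx).differentiableAt
  have h3 : (e' ∘ e.symm) (e x) = e' x := by simp [hx]
  have h4 : (e ∘ e'.symm) ∘ (e' ∘ e.symm) =ᶠ[𝓝 (e x)] id := by
    filter_upwards [(e.symm ≫ₕ e').open_source.mem_nhds (show e x ∈ _ by simp [hx, hx'])] with y hy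
    simp only [OpenPartialHomeomorph.trans_source, OpenPartialHomeomorph.symm_source,
      mem_inter_iff, mem_preimage] at hy
    simp [e'.left_inv hy.2, e.right_inv hy.1]
  have h5 := fderiv_comp (e x) (h3 ▸ h2) h1
  rw [h4.fderiv_eq, fderiv_id] at h5
  intro h0
  have := congrArg ContinuousLinearMap.det h5
  have h6 : ∀ A B : C2 →L[ℂ] C2, (A.comp B).det = A.det * B.det := fun A B =>
    LinearMap.det_comp (A : C2 →ₗ[ℂ] C2) (B : C2 →ₗ[ℂ] C2)
  rw [h6, h0, mul_zero] at this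
  exact one_ne_zero (LinearMap.det_id.symm.trans this)

/-- The values of forms in two charts differ by a power of one unit. -/
theorem exists_unit {e e' : OpenPartialHomeomorph X.X C2} (he : e ∈ atlas C2 X.X)
    (he' : e' ∈ atlas C2 X.X) {x : X.X} (hx : x ∈ e.source) (hx' : x ∈ e'.source) :
    ∃ u : ℂ, u ≠ 0 ∧ ∀ (n : ℕ) (s : Sec X), IsForm X.X n s → s e (e x) = s e' (e' x) * u ^ n :=
  ⟨_, trans_det_ne he he' hx hx', fun _ _ hs => hs.2 e he e' he' x ⟨hx, hx'⟩⟩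

end

/-- A choice of a chart at each point, among countably many charts. -/
structure Ch (X : DSurf) where
  e : X.X → OpenPartialHomeomorph X.X C2
  mem : ∀ p, e p ∈ atlas C2 X.X
  src : ∀ p, p ∈ (e p).source
  cnt : (range e).Countable

/-- The coordinates of a point in its chart. -/
noncomputable def Ch.pt {X : DSurf} (h : Ch X) (p : X.X) : C2 := h.e p p

/-- The value of a form at a point, in the chart of the point. -/
noncomputable def Ch.vl {X : DSurf} (h : Ch X) (s : Sec X) (p : X.X) : ℂ := s (h.e p) (h.e p p)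

/-- The form that vanishes on the ramification curve. -/
noncomputable def J1 {X : DSurf} (M : ℕ) (s : Fin 3 → Sec X) : Sec X :=
  fun e => wjf M M M (s 0 e) (s 1 e) (s 2 e)

/-- The form that cuts out the critical points on the ramification curve. -/
noncomputable def J2 {X : DSurf} (M : ℕ) (s : Fin 3 → Sec X) : Sec X :=
  fun e => wjf (3 * M + 1) M M (J1 M s e) (s 0 e) (s 1 e)

theorem J1_swap {X : DSurf} (M : ℕ) (s : Fin 3 → Sec X) :
    J1 M ![s 1, s 0, s 2] = -J1 M s := by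
  funext e ζ
  change wjf M M M (s 1 e) (s 0 e) (s 2 e) ζ = -wjf M M M (s 0 e) (s 1 e) (s 2 e) ζ
  unfold wjf; rw [jac_swap (s 1 e) (s 0 e)]; ring

theorem J2_swap {X : DSurf} (M : ℕ) (s : Fin 3 → Sec X) :
    J2 M ![s 1, s 0, s 2] = J2 M s := by
  funext e ζ
  change wjf _ M M (J1 M ![s 1, s 0, s 2] e) (s 1 e) (s 0 e) ζ = wjf _ M M _ _ _ ζ
  rw [J1_swap]
  change wjf _ M M (-(J1 M s e)) (s 1 e) (s 0 e) ζ = _
  unfold wjf; rw [jac_swap (s 1 e) (s 0 e), jac_neg, jac_neg, Pi.neg_apply]; ring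

/-- The event at a point of the surface. -/
def Ch.Evt {X : DSurf} (h : Ch X) (s : Fin 3 → Sec X) (t : Ty) (p : X.X) (c γ : ℂ) : Prop :=
  UB.Evt t (fun i => s i (h.e p)) (h.pt p) c γ

/-- None of the events occurs. -/
structure Nice {X : DSurf} (h : Ch X) (s : Fin 3 → Sec X) : Prop where
  n1 : ∀ p, ¬h.Evt s tN1 p 0 0
  n2 : ∀ p, ¬h.Evt s tN2 p 0 0
  sg : ∀ p c γ, ¬h.Evt s tS p c γ
  zz : ∀ p c γ, ¬h.Evt s tZ p c γ
  t1 : ∀ p c, ¬h.Evt s tT1 p c 0
  t2 : ∀ p c γ, ¬h.Evt s tT2 p c γ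
  b4 : ∀ p c γ, ¬h.Evt s tB4 p c γ
  two : ∀ t t' p p' c γ γ', t = tA ∨ t = tB → t' = tA ∨ t' = tB → p ≠ p' →
    h.Evt s t p c γ → ¬h.Evt s t' p' c γ'
  pair : ∀ t p p' c γ, t = tA ∨ t = tB → p ≠ p' → h.Evt s t p c γ → ¬h.Evt s tR p' c γ
  tri : ∀ p p' p'' c γ, p ≠ p' → p ≠ p'' → p' ≠ p'' → h.Evt s tR p c γ → h.Evt s tR p' c γ →
    ¬h.Evt s tR p'' c γ
  inf1 : ∀ t p γ, t = tA ∨ t = tB → ¬h.Evt s t p 0 γ
  inf2 : ∀ p p' γ, p ≠ p' → h.Evt s tR p 0 γ → ¬h.Evt s tR p' 0 γ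

/-- A generic triple of forms of degree `M`. -/
structure Tri {X : DSurf} (M : ℕ) (h : Ch X) (s : Fin 3 → Sec X) : Prop where
  pos : 2 < M
  form : ∀ i, IsForm X.X M (s i)
  nice : Nice h s
  nice' : Nice h ![s 1, s 0, s 2]

theorem Tri.swap {X : DSurf} {M : ℕ} {h : Ch X} {s : Fin 3 → Sec X} (H : Tri M h s) :
    Tri M h ![s 1, s 0, s 2] :=
  ⟨H.pos, fun i => by fin_cases i <;> exact H.form _, H.nice', by
    have : ![s 0, s 1, s 2] = s := by funext i; fin_cases i <;> rfl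
    exact (this ▸ H.nice : Nice h ![s 0, s 1, s 2])⟩

/-- The span of `τ` realises all jets of order four at three points. -/
def JetS {X : DSurf} {ι : Type} [Fintype ι] (τ : ι → Sec X) : Prop :=
  ∀ (r : ℕ) (p : Fin r → X.X) (e : Fin r → OpenPartialHomeomorph X.X C2) (T : Fin r → C2 → ℂ),
    r ≤ 3 → Function.Injective p → (∀ j, e j ∈ atlas C2 X.X ∧ p j ∈ (e j).source) →
    (∀ j, AnalyticAt ℂ (T j) (e j (p j))) → ∃ a : ι → ℂ, ∀ j,
      (fun ζ => (∑ i, a i • τ i) (e j) ζ - T j ζ) =O[𝓝 (e j (p j))] fun ζ => ‖ζ - e j (p j)‖ ^ 5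

/-- The map to the plane. -/
noncomputable def prj {X : DSurf} (Q : PM) (h : Ch X) (s : Fin 3 → Sec X) (p : X.X) : Q.Y :=
  Q.pp fun i => h.vl (s i) p

/-- The ambient space of the double points. -/
abbrev C3 : Type := C2 × ℂ

/-- Families of ambient germs at the double points. -/
abbrev Gm (X : DSurf) : Type := X.B → C3 → ℂ

/-- A form together with its germs at the double points. -/
def Gr {X : DSurf} (n : ℕ) (t : Sec X) (G : Gm X) : Prop :=
  IsForm X.X n t ∧ ∀ q ∉ range X.ι, X.Germ q n t (G q)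

section
variable {X : DSurf} {m n : ℕ} {s t : Sec X} {G H : Gm X}

theorem gr_one : Gr 0 (1 : Sec X) 1 :=
  ⟨isForm_one, fun _ _ => ⟨analyticAt_const, .of_forall fun _ _ _ _ => by simp⟩⟩

theorem gr_zero : Gr m (0 : Sec X) 0 :=
  ⟨isForm_zero, fun _ _ => ⟨analyticAt_const, .of_forall fun _ _ _ _ => by simp⟩⟩

theorem Gr.mul (hs : Gr m s G) (ht : Gr n t H) : Gr (m + n) (s * t) (G * H) :=
  ⟨isForm_mul hs.1 ht.1, fun q hq => ⟨(hs.2 q hq).1.mul (ht.2 q hq).1, by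
    filter_upwards [(hs.2 q hq).2, (ht.2 q hq).2] with x a b e he hx
    have a := a e he hx
    have b := b e he hx
    simp only [Pi.mul_apply, pow_add]
    rw [mul_mul_mul_comm, a, b]; ring⟩⟩

theorem Gr.add (hs : Gr m s G) (ht : Gr m t H) : Gr m (s + t) (G + H) :=
  ⟨isForm_add hs.1 ht.1, fun q hq => ⟨(hs.2 q hq).1.add (ht.2 q hq).1, by
    filter_upwards [(hs.2 q hq).2, (ht.2 q hq).2] with x a b e he hx
    simp only [Pi.add_apply]
    rw [add_mul, a e he hx, b e he hx, add_mul]⟩⟩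

theorem Gr.smul (c : ℂ) (hs : Gr m s G) : Gr m (c • s) (c • G) :=
  ⟨isForm_smul c hs.1, fun q hq => ⟨(hs.2 q hq).1.const_smul (c := c), by
    filter_upwards [(hs.2 q hq).2] with x a e he hx
    simp only [Pi.smul_apply, smul_eq_mul]
    rw [mul_assoc, a e he hx, mul_assoc]⟩⟩

theorem Gr.pow (hs : Gr m s G) (k : ℕ) : Gr (k * m) (s ^ k) (G ^ k) := by
  induction k with
  | zero => simpa using gr_one
  | succ k ih => rw [pow_succ, pow_succ, Nat.succ_mul]; exact ih.mul hs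

theorem gr_sum {ι : Type} (S : Finset ι) {f : ι → Sec X} {g : ι → Gm X}
    (h : ∀ i ∈ S, Gr m (f i) (g i)) : Gr m (∑ i ∈ S, f i) (∑ i ∈ S, g i) := by
  classical
  induction S using Finset.induction_on with
  | empty => simpa using gr_zero
  | insert a S ha ih =>
    rw [Finset.sum_insert ha, Finset.sum_insert ha]
    exact (h a (Finset.mem_insert_self _ _)).add (ih fun i hi => h i (Finset.mem_insert_of_mem hi))

theorem gr_prod {ι : Type} (S : Finset ι) {f : ι → Sec X} {g : ι → Gm X}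
    (h : ∀ i ∈ S, Gr m (f i) (g i)) : Gr (S.card * m) (∏ i ∈ S, f i) (∏ i ∈ S, g i) := by
  classical
  induction S using Finset.induction_on with
  | empty => simpa using gr_one
  | insert a S ha ih =>
    rw [Finset.prod_insert ha, Finset.prod_insert ha, Finset.card_insert_of_notMem ha,
      Nat.succ_mul, add_comm]
    exact (h a (Finset.mem_insert_self _ _)).mul (ih fun i hi => h i (Finset.mem_insert_of_mem hi))

/-- The double points are isolated. -/
theorem ev_smooth (q : X.B) : ∀ᶠ b in 𝓝 q, b ≠ q → b ∈ range X.ι := by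
  filter_upwards [(X.fin.subset (sdiff_subset (t := {q}))).isClosed.isOpen_compl.mem_nhds
    fun h => h.2 rfl] with b hb n
  by_contra h
  exact hb ⟨h, n⟩

/-- A property of the smooth points near a double point, as a property of points of `B`. -/
theorem ev_of_comap {q : X.B} {P : X.B → Prop} (h0 : P q)
    (h : ∀ᶠ x in comap X.ι (𝓝 q), P (X.ι x)) : ∀ᶠ b in 𝓝 q, P b := by
  filter_upwards [eventually_comap.1 h, ev_smooth q] with b a c
  by_cases e : b = q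
  · exact e ▸ h0
  · obtain ⟨x, rfl⟩ := c e
    exact a x rfl

end

/-- The immersion and separation conditions for given forms. -/
def VA {X : DSurf} {N : ℕ} (σ : Fin N → Sec X) : Prop :=
  ∀ e ∈ atlas C2 X.X, ∀ x ∈ e.source, (∃ i, σ i e (e x) ≠ 0) ∧
    (∀ (v : C2) (c : ℂ), (∀ i, fderiv ℂ (σ i e) (e x) v = c * σ i e (e x)) → v = 0) ∧
    ∀ e' ∈ atlas C2 X.X, ∀ y ∈ e'.source, ∀ c : ℂ, (∀ i, σ i e (e x) = c * σ i e' (e' y)) → x = y

/-- A system of forms with enough jets, also at the double points. -/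
structure Sys {X : DSurf} (M : ℕ) {ι : Type} [Fintype ι] (τ : ι → Sec X) (Γ : ι → Gm X) :
    Prop where
  gr : ∀ l, Gr M (τ l) (Γ l)
  jet : JetS τ
  pq : ∀ q ∉ range X.ι, ∀ e ∈ atlas C2 X.X, ∀ p ∈ e.source, ∃ a : ι → ℂ,
    ((∑ l, a l • τ l) e =O[𝓝 (e p)] fun ζ => ‖ζ - e p‖ ^ 5) ∧ (∑ l, a l • Γ l) q 0 = 1
  qq : ∀ q ∉ range X.ι, ∀ q' ∉ range X.ι, q ≠ q' → ∃ a : ι → ℂ,
    (∑ l, a l • Γ l) q 0 = 1 ∧ (∑ l, a l • Γ l) q' 0 = 0
  q1 : ∀ q ∉ range X.ι, ∀ (c : ℂ) (L : C3 →L[ℂ] ℂ), ∃ a : ι → ℂ,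
    (∑ l, a l • Γ l) q 0 = c ∧ fderiv ℂ ((∑ l, a l • Γ l) q) 0 = L

/-- The basis vectors of the ambient space. -/
def e3 : Fin 3 → C3 := ![(Pi.single 0 1, 0), (Pi.single 1 1, 0), (0, 1)]

/-- The cross product of two linear forms. -/
noncomputable def crs (α β : C3 →L[ℂ] ℂ) : C3 :=
  (![α (e3 1) * β (e3 2) - α (e3 2) * β (e3 1), α (e3 2) * β (e3 0) - α (e3 0) * β (e3 2)],
    α (e3 0) * β (e3 1) - α (e3 1) * β (e3 0))

theorem clm_e3 (γ : C3 →L[ℂ] ℂ) (v : C3) :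
    γ v = v.1 0 * γ (e3 0) + v.1 1 * γ (e3 1) + v.2 * γ (e3 2) := by
  have : v = v.1 0 • e3 0 + v.1 1 • e3 1 + v.2 • e3 2 := by
    ext i
    · fin_cases i <;> simp [e3]
    · simp [e3]
  conv_lhs => rw [this]
  simp only [map_add, map_smul, smul_eq_mul]

theorem clm_crs (α β γ : C3 →L[ℂ] ℂ) : γ (crs α β) =
    (α (e3 1) * β (e3 2) - α (e3 2) * β (e3 1)) * γ (e3 0) +
      (α (e3 2) * β (e3 0) - α (e3 0) * β (e3 2)) * γ (e3 1) +
      (α (e3 0) * β (e3 1) - α (e3 1) * β (e3 0)) * γ (e3 2) := clm_e3 γ _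

/-- The equation of the hypersurface. -/
def Hd (D : C2 → ℂ) (v : C3) : ℂ := v.2 ^ 2 - D v.1

/-- The quadratic form of the tangent cone. -/
noncomputable def hes (D : C2 → ℂ) (v : C3) : ℂ := fderiv ℂ (fderiv ℂ (Hd D)) 0 v v

/-- A multiple of the differential of `g / f` at the origin. -/
noncomputable def lin (f g : C3 → ℂ) : C3 →L[ℂ] ℂ := f 0 • fderiv ℂ g 0 - g 0 • fderiv ℂ f 0

/-- The open conditions at the double points. -/
structure Opn {X : DSurf} (G : Fin 3 → Gm X) : Prop where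
  g0 : ∀ q ∉ range X.ι, G 0 q 0 ≠ 0
  cone : ∀ q ∉ range X.ι, hes (X.D q) (crs (lin (G 0 q) (G 1 q)) (lin (G 0 q) (G 2 q))) ≠ 0
  xx : ∀ q ∉ range X.ι, ∀ q' ∉ range X.ι, G 1 q 0 * G 0 q' 0 = G 1 q' 0 * G 0 q 0 → q = q'

/-- A triple of forms that is generic also at the double points. -/
structure Tri2 {X : DSurf} (M : ℕ) (h : Ch X) (s : Fin 3 → Sec X) (G : Fin 3 → Gm X) : Prop where
  tri : Tri M h s
  gr : ∀ i, Gr M (s i) (G i)
  opn : Opn G
  mix : ∀ q ∉ range X.ι, ∀ p, ¬h.Evt s tR p (G 1 q 0 / G 0 q 0) (G 2 q 0 / G 0 q 0)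

section
variable {X : DSurf} (h : Ch X)

/-- The value of a form at a point of `B`. -/
noncomputable def Ch.vb (t : Sec X) (G : Gm X) : X.B → ℂ :=
  Function.extend X.ι (h.vl t) fun q => G q 0

theorem Ch.vb_ι (t : Sec X) (G : Gm X) (p : X.X) : h.vb t G (X.ι p) = h.vl t p :=
  X.emb.injective.extend_apply _ _ p

theorem Ch.vb_q (t : Sec X) (G : Gm X) {q : X.B} (hq : q ∉ range X.ι) : h.vb t G q = G q 0 :=
  Function.extend_apply' _ _ q hq

variable (s : Fin 3 → Sec X) (G : Fin 3 → Gm X)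

/-- Homogeneous coordinates. -/
noncomputable def Ch.vv (b : X.B) (i : Fin 3) : ℂ := h.vb (s i) (G i) b

/-- Affine coordinates. -/
noncomputable def Ch.af (b : X.B) : C2 :=
  ![h.vv s G b 1 / h.vv s G b 0, h.vv s G b 2 / h.vv s G b 0]

/-- The map from `B` to the plane. -/
noncomputable def prB (Q : PM) (b : X.B) : Q.Y := Q.pp (h.vv s G b)

theorem Ch.vv_ι (p : X.X) (i : Fin 3) : h.vv s G (X.ι p) i = h.vl (s i) p := h.vb_ι _ _ p

theorem Ch.vv_q {q : X.B} (hq : q ∉ range X.ι) (i : Fin 3) : h.vv s G q i = G i q 0 :=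
  h.vb_q _ _ hq

theorem prB_ι (Q : PM) (p : X.X) : prB h s G Q (X.ι p) = prj Q h s p :=
  congrArg Q.pp (funext (h.vv_ι s G p))

theorem prB_aff (Q : PM) {b : X.B} (hb : h.vv s G b 0 ≠ 0) :
    prB h s G Q b ∈ (Q.ch 0).source ∧ Q.ch 0 (prB h s G Q b) = h.af s G b :=
  ⟨(Q.ch_src 0 _ fun e => hb (congrFun e 0)).2 hb,
    (Q.ch_app 0 _ hb).trans (by funext j; fin_cases j <;> rfl)⟩

end

/-- `μ` compares the area form of an immersion `j` into the hypersurface `H = 0` with the residue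
form. -/
structure Vol (H : C3 → ℂ) (j : C2 → C3) (ζ : C2) (μ : C2 → ℂ) : Prop where
  an : AnalyticAt ℂ μ ζ
  ne : μ ζ ≠ 0
  eq : ∀ᶠ y in 𝓝 ζ, ∀ α β : C3 →L[ℂ] ℂ,
    α (fderiv ℂ j y (Pi.single 0 1)) * β (fderiv ℂ j y (Pi.single 1 1)) -
      α (fderiv ℂ j y (Pi.single 1 1)) * β (fderiv ℂ j y (Pi.single 0 1)) =
      μ y * fderiv ℂ H (j y) (crs α β)

/-- The coordinates `x, z, w` in which the hypersurface is `w ^ 2 = D' (x, z)`. -/
structure Am0 (D : C2 → ℂ) (x z w : C3 → ℂ) (D' : C2 → ℂ) : Prop where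
  xan : AnalyticAt ℂ x 0
  zan : AnalyticAt ℂ z 0
  wan : AnalyticAt ℂ w 0
  w0 : w 0 = 0
  an : AnalyticAt ℂ D' ![x 0, z 0]
  eq : ∀ᶠ v in 𝓝 0, Hd D v = w v ^ 2 - D' ![x v, z v]
  kap : fderiv ℂ w 0 (crs (fderiv ℂ x 0) (fderiv ℂ z 0)) ≠ 0

/-- An isolated singular point of a reduced curve. -/
structure Iso (D : C2 → ℂ) (a : C2) : Prop where
  an : AnalyticAt ℂ D a
  zero : D a = 0
  d0 : fderiv ℂ D a = 0
  iso : ∀ᶠ p in 𝓝[≠] a, D p = 0 → fderiv ℂ D p ≠ 0

theorem iso_q (X : DSurf) {q : X.B} (hq : q ∉ range X.ι) : Iso (X.D q) 0 := by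
  obtain ⟨h1, h2, h3, h4, h5⟩ := X.dp q hq
  have a := h1.1 _ ((X.ψ q).map_source h2)
  have b := (X.ψ q q).2
  rw [h3] at a b
  exact ⟨a, by simpa using b.symm, h4, h5⟩

theorem tendsto_ψ (X : DSurf) {q : X.B} (hq : q ∉ range X.ι) :
    Tendsto (fun b => (X.ψ q b).1) (𝓝 q) (𝓝 0) := by
  obtain ⟨-, h2, h3, -⟩ := X.dp q hq
  rw [← h3]
  exact (continuous_subtype_val.tendsto _).comp ((X.ψ q).continuousAt h2)

theorem tendsto_co (X : DSurf) {q : X.B} (hq : q ∉ range X.ι) :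
    Tendsto (X.co q) (comap X.ι (𝓝 q)) (𝓝 0) := (tendsto_ψ X hq).comp tendsto_comap

/-- Near the double point `q` the projection to the plane is the double cover `w ^ 2 = D'`. -/
structure Pn {X : DSurf} (M : ℕ) (h : Ch X) (s : Fin 3 → Sec X) (G : Fin 3 → Gm X) (q : X.B)
    (D' : C2 → ℂ) (χ : OpenPartialHomeomorph X.B (Dbl D')) : Prop where
  mem : q ∈ χ.source
  base : ∀ b ∈ χ.source, h.vv s G b 0 ≠ 0 ∧ (χ b).1.1 = h.af s G b
  zero : (χ q).1.2 = 0
  iso : Iso D' (h.af s G q)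
  sm : ∀ b ∈ χ.source, b ≠ q → b ∈ range X.ι
  ram : ∀ p, X.ι p ∈ χ.source → (h.vl (J1 M s) p = 0 ↔ (χ (X.ι p)).1.2 = 0)
  bd : ∃ C : ℝ, ∀ p, X.ι p ∈ χ.source → h.vl (J1 M s) p = 0 →
    ‖h.vl (J2 M s) p ^ M / h.vl (s 0) p ^ (5 * M + 2)‖ ≤ C * ‖pd 1 D' (h.af s G (X.ι p))‖ ^ M

/-- `S` is a model of the ramification curve. -/
structure Mdl {X : DSurf} (M : ℕ) (h : Ch X) (s : Fin 3 → Sec X) (G : Fin 3 → Gm X) (S : RS)
    (i : S.R → X.B) : Prop where
  inj : Function.Injective i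
  cont : Continuous i
  bad : ∀ r, r ∈ S.bad ↔ i r ∉ range X.ι
  rng : ∀ b, b ∈ range i ↔ ∀ p, X.ι p = b → h.vl (J1 M s) p = 0
  inf : ∀ r, r ∈ S.inf ↔ h.vv s G (i r) 0 = 0
  inf1 : ∀ r ∈ S.inf, h.vv s G (i r) 1 ≠ 0
  xx : ∀ r ∉ S.inf, S.xx r = h.vv s G (i r) 1 / h.vv s G (i r) 0
  nu : ∀ r p, X.ι p = i r → (S.ν r = 2 ↔ h.vl (J2 M s) p = 0)
  par : ∀ r p, X.ι p = i r → ∃ ψ : ℂ → C2, AnalyticAt ℂ ψ 0 ∧ ψ 0 = h.pt p ∧ deriv ψ 0 ≠ 0 ∧
    ∀ᶠ u in 𝓝 0, ψ u ∈ (h.e p).target ∧ i ((S.ψ r).symm u) = X.ι ((h.e p).symm (ψ u))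

/-- The function `s 2 / s k` on the ramification curve. -/
noncomputable def Ch.rt {X : DSurf} (h : Ch X) (s : Fin 3 → Sec X) (G : Fin 3 → Gm X) {R : Type}
    (i : R → X.B) (k : Fin 3) (r : R) : ℂ := h.vv s G (i r) 2 / h.vv s G (i r) k

/-- The triple, the ramification curve and the branch curve. -/
structure All {X : DSurf} (M : ℕ) (h : Ch X) (s : Fin 3 → Sec X) (G : Fin 3 → Gm X) (S : RS)
    (i : S.R → X.B) (c : Co S.inf.ncard 6 → ℂ) : Prop where
  tri : Tri2 M h s G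
  mdl : Mdl M h s G S i
  fn : S.Fn
  img : S.Img (h.rt s G i 0) (h.rt s G i 1) c

end Pool.Agent.P.MP_ab0431_ag.UB.V2
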