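import Pool.Agent.P.MP_ab0431_ag.UB2.IfaceA
import Pool.Agent.P.MP_ab0431_ag.UB2.IfaceA2
import Pool.Agent.P.MP_ab0431_ag.UB2.IfaceD

/-! Statements on the ramification curve and on the projection as a cover of the plane. -/

set_option autoImplicit false
set_option linter.unusedSectionVars false

namespace Pool.Agent.P.MP_ab0431_ag.UB.V2

open Polynomial Set Filter Topology Asymptotics MeasureTheory
open scoped Manifold ContDiff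

/-! ### The ramification curve -/

-- deps: RM0 PUN ZACC PT1
def S_RM1 : Prop := ∀ (X : DSurf) (M : ℕ) (h : Ch X) (s : Fin 3 → Sec X) (G : Fin 3 → Gm X),
  Tri2 M h s G → ∃ (S : RS) (i : S.R → X.B), Mdl M h s G S i

-- deps: PUB
def S_RM2 : Prop := ∀ (X : DSurf) (M : ℕ) (h : Ch X) (s : Fin 3 → Sec X) (G : Fin 3 → Gm X)
  (S : RS) (i : S.R → X.B) (n : ℕ) (t : Sec X) (H : Gm X), Tri2 M h s G → Mdl M h s G S i →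
  IsForm X.X (n * M) t →
  S.Cl0 n (fun r => h.vb t H (i r) / h.vv s G (i r) 0 ^ n)
    (fun r => h.vb t H (i r) / h.vv s G (i r) 1 ^ n) ∧
  (Gr (n * M) t H → S.Cl n (fun r => h.vb t H (i r) / h.vv s G (i r) 0 ^ n)
    fun r => h.vb t H (i r) / h.vv s G (i r) 1 ^ n) ∧
  ∀ r p (ψ : ℂ → C2),
    (∀ᶠ u in 𝓝 0, ψ u ∈ (h.e p).target ∧ i ((S.ψ r).symm u) = X.ι ((h.e p).symm (ψ u))) →
    ∀ᶠ u in 𝓝 0, S.lc (fun r => h.vb t H (i r) / h.vv s G (i r) 0 ^ n) r u =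
      t (h.e p) (ψ u) / s 0 (h.e p) (ψ u) ^ n

-- deps: BEZ RFIN PT1 JFORM
def S_RCF : Prop := ∀ (X : DSurf) (M : ℕ) (h : Ch X) (s : Fin 3 → Sec X) (G : Fin 3 → Gm X)
  (S : RS) (i : S.R → X.B) (m y : ℕ), 0 < m → VeryAmple X.X m → KsqLe X.X y → Tri2 M h s G →
  Mdl M h s G S i → S.Fn ∧ S.inf.ncard ≤ 8 * m ^ 2 * (3 * M + 1) * M * y

-- deps: RM2
def S_RM4 : Prop := ∀ (X : DSurf) (M : ℕ) (h : Ch X) (s : Fin 3 → Sec X) (G : Fin 3 → Gm X)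
  (S : RS) (i : S.R → X.B) (ι : Type) [Fintype ι] (τ : ι → Sec X) (Γ : ι → Gm X), Tri2 M h s G →
  Mdl M h s G S i → Sys M τ Γ → S.Fn → S.Sep

-- deps: RM2 RM4 PT3
def S_RM3 : Prop := ∀ (X : DSurf) (M : ℕ) (h : Ch X) (s : Fin 3 → Sec X) (G : Fin 3 → Gm X)
  (S : RS) (i : S.R → X.B) (ι : Type) [Fintype ι] (τ : ι → Sec X) (Γ : ι → Gm X), Tri2 M h s G →
  Mdl M h s G S i → Sys M τ Γ → S.Fn → S.Gen (h.rt s G i 0) (h.rt s G i 1)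

/-! ### The projection -/

-- deps: PT1 PIH PUB
def S_PIC : Prop := ∀ (Q : PM) (X : DSurf) (M : ℕ) (h : Ch X) (s : Fin 3 → Sec X)
  (G : Fin 3 → Gm X), Tri2 M h s G → (∀ b, h.vv s G b ≠ 0) ∧ Continuous (prB h s G Q)

-- deps: PIC
def S_FIBQ : Prop := ∀ (Q : PM) (X : DSurf) (M : ℕ) (h : Ch X) (s : Fin 3 → Sec X)
  (G : Fin 3 → Gm X) (q : X.B), Tri2 M h s G → q ∉ range X.ι →
  ∀ b, prB h s G Q b = prB h s G Q q → b = q ∨ ∃ p, X.ι p = b ∧ h.vl (J1 M s) p ≠ 0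

-- deps: PIC PT4 PUN
def S_FINB : Prop := ∀ (Q : PM) (X : DSurf) (M : ℕ) (h : Ch X) (s : Fin 3 → Sec X)
  (G : Fin 3 → Gm X), Tri2 M h s G → ∀ y, (prB h s G Q ⁻¹' {y}).Finite

-- deps: PIC RFIN
def S_COVB : Prop := ∀ (Q : PM) (X : DSurf) (M : ℕ) (h : Ch X) (s : Fin 3 → Sec X)
  (G : Fin 3 → Gm X) (S : RS) (i : S.R → X.B) (c : Co S.inf.ncard 6 → ℂ),
  All M h s G S i c → (∀ r, prB h s G Q (i r) ∈ Bc Q c) ∧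
    ∀ b, prB h s G Q b ∉ Bc Q c → ∃ p, X.ι p = b ∧ h.vl (J1 M s) p ≠ 0

-- deps: PIC FIBQ
def S_PUF0 : Prop := ∀ (_ : PM) (X : DSurf) (M : ℕ) (h : Ch X) (s : Fin 3 → Sec X)
  (G : Fin 3 → Gm X) (S : RS) (i : S.R → X.B) (c : Co S.inf.ncard 6 → ℂ)
  (q : X.B) (D' : C2 → ℂ) (χ : OpenPartialHomeomorph X.B (Dbl D')), All M h s G S i c →
  q ∉ range X.ι → Pn M h s G q D' χ →
  ∀ᶠ p in 𝓝 (h.af s G q), (Dc c p = 0 ↔ D' p = 0)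

-- deps: PUF0 DIV2 HCA
def S_PUF : Prop := ∀ (_ : PM) (X : DSurf) (M : ℕ) (h : Ch X) (s : Fin 3 → Sec X)
  (G : Fin 3 → Gm X) (S : RS) (i : S.R → X.B) (c : Co S.inf.ncard 6 → ℂ)
  (q : X.B) (D' : C2 → ℂ) (χ : OpenPartialHomeomorph X.B (Dbl D')), All M h s G S i c →
  q ∉ range X.ι → Pn M h s G q D' χ → ∃ u : C2 → ℂ, AnalyticAt ℂ u (h.af s G q) ∧
    u (h.af s G q) ≠ 0 ∧ ∀ᶠ p in 𝓝 (h.af s G q), Dc c p = u p * D' p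

-- deps: RM2 PUN PUF JFORM HCA
def S_NEG : Prop := ∀ (_ : PM) (X : DSurf) (M : ℕ) (h : Ch X) (s : Fin 3 → Sec X)
  (G : Fin 3 → Gm X) (S : RS) (i : S.R → X.B) (c : Co S.inf.ncard 6 → ℂ),
  All M h s G S i c → S.Neg (h.rt s G i 0) (toP c)

-- deps: PIC FINB THIN COVB PIH
def S_COV0 : Prop := ∀ (Q : PM) (X : DSurf) (M : ℕ) (h : Ch X) (s : Fin 3 → Sec X)
  (G : Fin 3 → Gm X) (S : RS) (i : S.R → X.B) (c : Co S.inf.ncard 6 → ℂ)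
  (hπ : MDifferentiable 𝓘(ℂ, C2) 𝓘(ℂ, C2) (prj Q h s)), All M h s G S i c →
  (cvr X hπ).G0 (Bc Q c) (prB h s G Q '' (range X.ι)ᶜ)ᶜ

-- deps: COV0 CARD COVB PT1 PT4 PIH FINB
def S_COV1 : Prop := ∀ (Q : PM) (X : DSurf) (M : ℕ) (h : Ch X) (s : Fin 3 → Sec X)
  (G : Fin 3 → Gm X) (S : RS) (i : S.R → X.B) (c : Co S.inf.ncard 6 → ℂ)
  (hπ : MDifferentiable 𝓘(ℂ, C2) 𝓘(ℂ, C2) (prj Q h s)) (d : ℕ), All M h s G S i c →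
  (∀ y ∉ Bc Q c, (prj Q h s ⁻¹' {y}).ncard = d) →
  (cvr X hπ).G1 (Bc Q c) d (fun _ => 0) (prB h s G Q '' (range X.ι)ᶜ)ᶜ

-- deps: UBX UNIB UBT PUF PUN ZACC THIN PIH MUL
def S_COVU : Prop := ∀ (Q : PM) (X : DSurf) (M : ℕ) (h : Ch X) (s : Fin 3 → Sec X)
  (G : Fin 3 → Gm X) (S : RS) (i : S.R → X.B) (c : Co S.inf.ncard 6 → ℂ),
  All M h s G S i c → ∀ z, UbAt (prB h s G Q) (Bc Q c) z

-- deps: PUF PUN MUL HCA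
def S_COVC : Prop := ∀ (Q : PM) (X : DSurf) (M : ℕ) (h : Ch X) (s : Fin 3 → Sec X)
  (G : Fin 3 → Gm X) (S : RS) (i : S.R → X.B) (c : Co S.inf.ncard 6 → ℂ),
  All M h s G S i c → (∀ q ∉ range X.ι, 1 < mu Q c (prB h s G Q q)) ∧
    ∀ y, 2 < mu Q c y → y ∈ prB h s G Q '' (range X.ι)ᶜ

-- deps: TB0 MOS PUF PUN FIBQ PIH PIC FINB
def S_COVN : Prop := ∀ (Q : PM) (X : DSurf) (M : ℕ) (h : Ch X) (s : Fin 3 → Sec X)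
  (G : Fin 3 → Gm X) (S : RS) (i : S.R → X.B) (c : Co S.inf.ncard 6 → ℂ)
  (q : X.B), All M h s G S i c → q ∉ range X.ι → ∃ k N φ, IsOpen N ∧ prB h s G Q q ∈ N ∧
    N ⊆ (Q.ch 0).source ∧ Car (mpr (Hc Q c) k) (prB h s G Q) id N φ

-- deps: COVN COVB MOC MUL
def S_COVM : Prop := ∀ (Q : PM) (X : DSurf) (M : ℕ) (h : Ch X) (s : Fin 3 → Sec X)
  (G : Fin 3 → Gm X) (S : RS) (i : S.R → X.B) (c : Co S.inf.ncard 6 → ℂ)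
  (d : ℕ) (q : X.B), All M h s G S i c → (∀ y ∉ Bc Q c, (prj Q h s ⁻¹' {y}).ncard = d) →
  q ∉ range X.ι → ∃ N φ, IsOpen N ∧ prB h s G Q q ∈ N ∧
    Car (mpr (Hc Q c) (d - 2)) (prj Q h s) id (N \ Bc Q c) φ

-- deps: PIH PIC FINB COV0 COV1 COVU COVC COVM CARD COVB
def S_COV : Prop := ∀ (Q : PM) (X : DSurf) (M : ℕ) (h : Ch X) (s : Fin 3 → Sec X)
  (G : Fin 3 → Gm X) (S : RS) (i : S.R → X.B) (c : Co S.inf.ncard 6 → ℂ),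
  All M h s G S i c → ∃ d, (∀ y ∉ Bc Q c, (prj Q h s ⁻¹' {y}).ncard = d) ∧ IsCov Q X c d

-- redeps: AMAIN CH JET2 GENE2 RM1 RCF RM3 AALG1 AALG2 NEG COV COVB DEGB

end Pool.Agent.P.MP_ab0431_ag.UB.V2
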