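import Pool.Agent.P.MP_ab0431_ag.UB2.IfaceT

/-! Statements on normal covers of the line with arbitrary branching. -/

set_option autoImplicit false
set_option linter.unusedSectionVars false

namespace Pool.Agent.P.MP_ab0431_ag.UB.V2

open Polynomial Set Filter Topology

section
variable {R : Type} [CommRing R] {b m n : ℕ}

/-- The product of the quantities that must not vanish. -/
noncomputable def nV (c : Co b m → R) (x z : Fin n → R) : R :=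
  (Matrix.vandermonde x).det * (Δ b (toP c)).coeff (m * (b * (b - 1))) *
    ∏ i, Δ (b - 1) (nq (toP c) (x i) (z i))

/-- No singular point lies over a root of the discriminant with the nodes removed. -/
def SmA (c : Co b m → R) (x : Fin n → R) : Prop :=
  ∀ a z, Sing (toP c) a z → (nP c x).eval a ≠ 0

end

-- deps:
def S_MON2 : Prop := ∀ (K : Type) [Field K] (b : ℕ) (D : Str K[X] b) (a : K)
  (f : (D.map (evalRingHom a)).A →ₐ[K] K), D.Max →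
  ∃ t ∈ RingHom.ker f, RingHom.ker f ≤ Ideal.span {t} ⊔ RingHom.ker f ^ 2

-- deps:
def S_MON1 : Prop := ∀ (K : Type) [Field K] [IsAlgClosed K] (b : ℕ) (B : Str K b),
  (∀ f : B.A →ₐ[K] K, ∃ t ∈ RingHom.ker f, RingHom.ker f ≤ Ideal.span {t} ⊔ RingHom.ker f ^ 2) →
  ∃ s, (B.N s).det ≠ 0

-- deps:
def S_SMAX : Prop := ∀ (K : Type) [Field K] [IsAlgClosed K] (b : ℕ) (D : Str K[X] b) (s : D.A)
  (a : K), (D.N s).det.eval a = 0 → ∃ z, Sing (D.ch s) a z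

-- deps:
def S_MAXG : Prop := ∀ (K : Type) [Field K] [IsAlgClosed K] (b : ℕ) (D : Str K[X] b),
  (∀ (a : K) (o : D.A), (∀ j, (X - C a) ^ (b - j) ∣ (D.ch o).coeff j) → ∀ i, X - C a ∣ o i) →
  D.Max

-- deps: MAXG
def S_MAXB : Prop := ∀ (k K : Type) [Field k] [IsAlgClosed k] [Field K] [IsAlgClosed K]
  (φ : k →+* K) (b : ℕ) (D : Dat k b), D.toStr.Max → (D.map φ).toStr.Max

-- deps:
def S_NOPEN : Prop := ∀ (R K : Type) [CommRing R] [Field K] [IsAlgClosed K] (φ ψ : R →+* K)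
  (b m n : ℕ) (c : Co b m → R) (x : Fin n → R), (∀ r, φ r = 0 → ψ r = 0) →
  WD b m (toP (φ ∘ c)) → (Δ b (toP (ψ ∘ c))).coeff (m * (b * (b - 1))) ≠ 0 →
  2 * n ≤ m * (b * (b - 1)) → SmA (ψ ∘ c) (ψ ∘ x) → SmA (φ ∘ c) (φ ∘ x)

-- deps: SMAX
def S_KMA : Prop := ∀ (K : Type) [Field K] [IsAlgClosed K] (b m n w : ℕ) (D : Dat K b) (s : D.A)
  (x z : Fin n → K), D.toStr.Max → D.Deg m s → w + 2 * n = m * (b * (b - 1)) →
  NodE (co b m (D.ch s)) x z → nV (co b m (D.ch s)) x z ≠ 0 → SmA (co b m (D.ch s)) x →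
  D.w = w ∧ ∃ u : K, u ≠ 0 ∧ (D.toStr.N s).det = C u * nH x

-- deps: KMA
def S_KM1 : Prop := ∀ (K : Type) [Field K] [IsAlgClosed K] (b m n w : ℕ) (D : Dat K b) (s : D.A)
  (x z : Fin n → K), D.toStr.Max → D.Deg m s → w + 2 * n = m * (b * (b - 1)) →
  NodE (co b m (D.ch s)) x z → nV (co b m (D.ch s)) x z ≠ 0 → SmA (co b m (D.ch s)) x →
  Fintype.card (J D.a m) ≤
    Module.finrank K (LinearMap.ker (KMat (co b m (D.ch s)) x z).mulVecLin)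

-- deps: KMA
def S_KM2 : Prop := ∀ (K : Type) [Field K] [IsAlgClosed K] (b m n w : ℕ) (D : Dat K b) (s : D.A)
  (x z : Fin n → K), D.toStr.Max → D.Deg m s → w + 2 * n = m * (b * (b - 1)) →
  NodE (co b m (D.ch s)) x z → nV (co b m (D.ch s)) x z ≠ 0 → SmA (co b m (D.ch s)) x →
  Module.finrank K (LinearMap.ker (KMat (co b m (D.ch s)) x z).mulVecLin) ≤
    Fintype.card (J D.a m)

-- deps: MON1 MON2
def S_NOD2 : Prop := ∀ (k K : Type) [Field k] [IsAlgClosed k] [Field K] [Algebra k K] (b m : ℕ)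
  (D : Dat k b) (l : J D.a m → K) (x : k), D.toStr.Max → (∀ i, D.a i ≤ m) →
  AlgebraicIndependent k l → ((D.map (algebraMap k K)).toStr.N
    ((D.map (algebraMap k K)).el m l)).det.eval (algebraMap k K x) ≠ 0

-- deps: NOD2 MAXB
def S_NOD : Prop := ∀ (k K : Type) [Field k] [IsAlgClosed k] [Field K] [IsAlgClosed K]
  [Algebra k K] (b m : ℕ) (D : Dat k b) (l : J D.a m → K) (c : Co b m → K), D.toStr.Max →
  (∀ i, D.a i + 1 ≤ m) → AlgebraicIndependent k l →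
  c = co b m ((D.map (algebraMap k K)).ch ((D.map (algebraMap k K)).el m l)) →
  ∃ (n : ℕ) (x z : Fin n → K), D.w + 2 * n = m * (b * (b - 1)) ∧ NodE c x z ∧ nV c x z ≠ 0 ∧
    SmA c x

-- deps: NOD NOPEN KMA KM1 KM2 MAXB
def S_INC : Prop := ∀ (b m : ℕ) (D₀ : Dat ℂ b), D₀.toStr.Max → (∀ i, D₀.a i + 1 ≤ m) →
  ∃ (D : Dat Om b) (c : Co b m → Om), D.w = D₀.w ∧ D.toStr.Max ∧ (∀ i, D.a i ≤ m + 1) ∧
    c ∈ D.Tset m ∧ D₀.w + (b * (m + 1) - D₀.w / 2) ≤ dm (MvPolynomial.vanishingIdeal ℂ {c}) ∧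
    ∀ c₀ ∈ D₀.Tset m, c₀ ∈ MvPolynomial.zeroLocus ℂ (MvPolynomial.vanishingIdeal ℂ {c})

-- deps:
def S_SL4 : Prop := ∀ (Z : Finset ℂ) (d n : ℕ) (E : Fin n → Type) [∀ i, TopologicalSpace (E i)]
  (p : ∀ i, E i → ℂ), d.factorial ^ Z.card < n → (∀ i, IsCoveringMapOn (p i) (Z : Set ℂ)ᶜ) →
  (∀ i, ∀ x ∉ Z, (p i ⁻¹' {x}).encard = d) →
  ∃ i j, i ≠ j ∧ ∃ f, TI (p i) (p j) (Z : Set ℂ)ᶜ f

-- deps:
def S_HINC : Prop := ∀ (b m : ℕ) (D D' : Dat ℂ b) (Z : Set ℂ)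
  (F : ℂ → (Fin b → ℂ) → Fin b → ℂ), D.toStr.Max → Z.Finite →
  (∀ x₀ ∉ Z, ∃ χ χ' : Fin b → ℂ → Fin b → ℂ, D.Sec x₀ χ ∧ D'.Sec x₀ χ' ∧
    ∀ᶠ x in 𝓝 x₀, ∀ j, F x (χ j x) = χ' j x) → D'.Tset m ⊆ D.Tset m

-- deps: HINC
def S_HTI : Prop := ∀ (b m : ℕ) (D D' : Dat ℂ b) (Z : Set ℂ) (f : D.E → D'.E), D.toStr.Max →
  D'.toStr.Max → Z.Finite → (∀ x ∉ Z, D.P.eval x ≠ 0 ∧ D'.P.eval x ≠ 0) →
  TI D.pr D'.pr Zᶜ f → D.Tset m = D'.Tset m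

-- deps: SL4 HTI MAXB
def S_HURO : Prop := ∀ (b m : ℕ) (P : Om[X]),
  {T | ∃ D : Dat Om b, D.P = P ∧ D.toStr.Max ∧ T = D.Tset m}.Finite

-- deps:
def S_AUT : Prop := ∀ (k K ι : Type) [Field k] [Field K] [IsAlgClosed K] [Algebra k K]
  (u : ι → K) (a : ι → k), AlgebraicIndependent k u →
  ∃ σ : K →ₐ[k] K, ∀ i, σ (u i) = u i + algebraMap k K (a i)

-- deps: HURO AUT MAXB
def S_HTRD : Prop := ∀ (k : Type) [Field k] [IsAlgClosed k] [Algebra k Om] (b m n : ℕ)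
  (D : Dat Om b) (P : k[X]) (c : Co b m → Om) (f : Fin n → Co b m),
  D.P = P.map (algebraMap k Om) → D.toStr.Max → c ∈ D.Tset m →
  Fintype.card (J D.a m) < n → ¬AlgebraicIndependent k (c ∘ f)

-- deps:
def S_CEQS : Prop := ∀ b m nn : ℕ, nn ≤ b * (b - 1) → ∃ E : Set (Cc.MP (Co b m)),
  (∀ f ∈ E, f.totalDegree ≤ 64 * (b + 1) ^ 4) ∧
  (∀ c, Good c → nr c = nn → ∀ f ∈ E, Cc.ev c f = 0) ∧
  ∀ c, (∀ f ∈ E, Cc.ev c f = 0) → WD b 1 (toP c) ∧ (Δ b (toP c) ≠ 0 → nr c ≤ nn)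

-- deps:
def S_COPEN : Prop := ∀ (b m : ℕ) (c₀ : Co b m → ℂ), Good c₀ → ∃ h : Cc.MP (Co b m),
  Cc.ev c₀ h ≠ 0 ∧
  ∀ c, WD b 1 (toP c) → Cc.ev c h ≠ 0 → Good c ∧ nr c₀ ≤ nr c

-- redeps: BMAIN INC HTRD
-- redeps: CMAIN CEQS COPEN

end Pool.Agent.P.MP_ab0431_ag.UB.V2
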