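import Pool.Agent.P.MP_ab0431_ag.UB2.IfaceA3
import Pool.Agent.P.MP_ab0431_ag.UB2.IfaceA
import Pool.Agent.P.MP_ab0431_ag.UB2.IfaceA2

/-! Steps RM1 RCF RM2 RM4 RM3 PIC FIBQ PUF0. -/

set_option autoImplicit false
set_option linter.unusedSectionVars false
set_option linter.unusedVariables false

namespace Pool.Agent.P.MP_ab0431_ag.UB.V2

open Polynomial Set Filter Topology Asymptotics MeasureTheory
open scoped Manifold ContDiff

theorem empty_rm12 {R : Type} [TopologicalSpace R] (r : R) :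
    ∃ φ : OpenPartialHomeomorph R ℂ, φ.source = ∅ :=
  ⟨{ toFun := fun _ => 0
     invFun := fun _ => r
     source := ∅
     target := ∅
     map_source' := fun _ h => h.elim
     map_target' := fun _ h => h.elim
     left_inv' := fun _ h => h.elim
     right_inv' := fun _ h => h.elim
     open_source := isOpen_empty
     open_target := isOpen_empty
     continuousOn_toFun := continuousOn_empty _
     continuousOn_invFun := continuousOn_empty _ }, rfl⟩

theorem bx_rm12 (hZACC : S_ZACC) {X : DSurf} {M : ℕ} {h : Ch X} {s : Fin 3 → Sec X}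
    {G : Fin 3 → Gm X} {q : X.B} {D' : C2 → ℂ} {χ : OpenPartialHomeomorph X.B (Dbl D')}
    (P : Pn M h s G q D' χ) :
    ContinuousAt (fun b => h.vv s G b 1 / h.vv s G b 0) q ∧ (∀ᶠ b in 𝓝 q, h.vv s G b 0 ≠ 0) ∧
      ∃ᶠ b in 𝓝 q, b ≠ q ∧ ∀ p, X.ι p = b → h.vl (J1 M s) p = 0 := by
  have hs : ∀ᶠ b in 𝓝 q, b ∈ χ.source := χ.open_source.mem_nhds P.mem
  refine ⟨?_, hs.mono fun b hb => (P.base b hb).1, ?_⟩
  · have c : ContinuousAt (fun b => (χ b).1.1 0) q :=
      ((continuous_apply 0).comp (continuous_fst.comp continuous_subtype_val)).continuousAt.comp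
        (χ.continuousAt P.mem)
    refine c.congr (hs.mono fun b hb => ?_)
    change (χ b).1.1 0 = _
    rw [(P.base b hb).2]; rfl
  · intro hev
    have h1 : ∀ᶠ v in 𝓝 (χ q), v ∈ χ.target ∧
        ¬(χ.symm v ≠ q ∧ ∀ p, X.ι p = χ.symm v → h.vl (J1 M s) p = 0) := by
      refine Eventually.and (χ.open_target.mem_nhds (χ.map_source P.mem)) ?_
      have t := χ.continuousAt_symm (χ.map_source P.mem)
      rw [ContinuousAt, χ.left_inv P.mem] at t
      exact t.eventually hev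
    rw [show 𝓝 (χ q) = comap Subtype.val (𝓝 (χ q).1) from nhds_induced _ _,
      eventually_comap] at h1
    have e : (χ q).1 = (h.af s G q, 0) := Prod.ext (P.base q P.mem).2 P.zero
    have t : Tendsto (fun p : C2 => (p, (0 : ℂ))) (𝓝[≠] (h.af s G q)) (𝓝 (χ q).1) := by
      rw [e]
      exact tendsto_nhdsWithin_of_tendsto_nhds (Continuous.tendsto' (by fun_prop) _ _ rfl)
    obtain ⟨p, ⟨p0, p1⟩, p2⟩ := (((hZACC D' _ P.iso.an P.iso.zero).and_eventually
      (t.eventually h1)).and_eventually self_mem_nhdsWithin).exists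
    obtain ⟨a, b⟩ := p1 ⟨(p, 0), by simp [p0]⟩ rfl
    refine b ⟨fun e' => p2 ?_, fun p' e' => ?_⟩
    · have := χ.right_inv a
      rw [e'] at this
      have := congrArg (fun v : Dbl D' => v.1.1) this
      rw [e] at this
      exact this.symm
    · refine (P.ram p' (e' ▸ χ.map_target a)).2 ?_
      rw [e', χ.right_inv a]

theorem p_RM1 (hRM0 : S_RM0) (hPUN : S_PUN) (hZACC : S_ZACC) (hPT1 : S_PT1) :
    S_RM1 := by
  classical
  intro X M h s G H
  obtain ⟨hc, h0⟩ := hRM0 X M h s H.tri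
  let R : Type := {b : X.B // ∀ p, X.ι p = b → h.vl (J1 M s) p = 0}
  have hR : IsClosed {b : X.B | ∀ p, X.ι p = b → h.vl (J1 M s) p = 0} := by
    have := (X.emb.isOpenMap _ hc.isOpen_compl).isClosed_compl
    convert this using 1
    ext b
    simp only [mem_ofPred_eq, mem_compl_iff, mem_image, not_exists, not_and]
    exact ⟨fun a p n e => n (a p e), fun a p e => by_contra fun n => a p n e⟩
  let k : {p // h.vl (J1 M s) p = 0} → R := fun p =>
    ⟨X.ι p.1, fun p' e => by rw [X.emb.injective e]; exact p.2⟩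
  have hk : IsOpenEmbedding k := by
    refine ⟨IsEmbedding.of_comp ((X.emb.continuous.comp continuous_subtype_val).subtype_mk _)
      continuous_subtype_val (X.emb.isEmbedding.comp IsEmbedding.subtypeVal), ?_⟩
    convert X.emb.isOpen_range.preimage (continuous_subtype_val : Continuous (Subtype.val : R → _))
      using 1
    ext r
    exact ⟨fun ⟨p, e⟩ => ⟨p.1, congrArg Subtype.val e⟩,
      fun ⟨p, e⟩ => ⟨⟨p, r.2 p e⟩, Subtype.ext e⟩⟩
  let ν : R → ℕ := fun r => if ∀ p, X.ι p = r.1 → h.vl (J2 M s) p = 0 then 2 else 1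
  have hν : ∀ r : R, ∀ p, X.ι p = r.1 →
      ν r = 1 ∧ h.vl (J2 M s) p ≠ 0 ∨ ν r = 2 ∧ h.vl (J2 M s) p = 0 := fun r p e => by
    by_cases a : h.vl (J2 M s) p = 0
    · exact .inr ⟨if_pos fun p' e' => by rw [X.emb.injective (e'.trans e.symm)]; exact a, a⟩
    · exact .inl ⟨if_neg fun b => a (b p e), a⟩
  have hb : ∀ r : R, r.1 ∉ range X.ι → h.vv s G r.1 0 ≠ 0 := fun r hr => by
    rw [h.vv_q s G hr]; exact H.opn.g0 _ hr
  have key : ∀ r : R, ∃ φ : OpenPartialHomeomorph R ℂ,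
      (r.1 ∈ range X.ι → r ∈ φ.source ∧ φ r = 0) ∧
      (h.vv s G r.1 0 ≠ 0 → ∀ r' ∈ φ.source, h.vv s G r'.1 0 ≠ 0 ∧
        h.vv s G r'.1 1 / h.vv s G r'.1 0 = h.vv s G r.1 1 / h.vv s G r.1 0 + φ r' ^ ν r) ∧
      (h.vv s G r.1 0 = 0 → ν r = 1 ∧ ∀ r' ∈ φ.source, r' ≠ r → h.vv s G r'.1 0 ≠ 0 ∧
        h.vv s G r'.1 1 / h.vv s G r'.1 0 * φ r' = 1) ∧
      (∀ r' ∈ φ.source, r'.1 ∈ range X.ι) ∧
      ∀ p, X.ι p = r.1 → ∃ ψ : ℂ → C2, AnalyticAt ℂ ψ 0 ∧ ψ 0 = h.pt p ∧ deriv ψ 0 ≠ 0 ∧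
        ∀ᶠ u in 𝓝 0, ψ u ∈ (h.e p).target ∧ (φ.symm u).1 = X.ι ((h.e p).symm (ψ u)) := fun r => by
    by_cases hr : r.1 ∈ range X.ι
    · obtain ⟨⟨p, hp0⟩, rfl⟩ : ∃ p, k p = r :=
        let ⟨p, e⟩ := hr; ⟨⟨p, r.2 p e⟩, Subtype.ext e⟩
      obtain ⟨φ, a1, a2, a3, a4, ψ, b1, b2, b3, b4⟩ := h0 ⟨p, hp0⟩ _ (hν (k ⟨p, hp0⟩) p rfl)
      refine ⟨φ.lift_openEmbedding hk, fun _ => ⟨⟨_, a1, rfl⟩, ?_⟩, ?_, ?_, ?_, ?_⟩
      · rw [φ.lift_openEmbedding_apply]; exact a2
      · rintro n _ ⟨p', hp, rfl⟩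
        rw [φ.lift_openEmbedding_apply]
        simp only [k, h.vv_ι] at n ⊢
        exact a3 n p' hp
      · intro n
        simp only [k, h.vv_ι] at n
        refine ⟨(a4 n).1, ?_⟩
        rintro _ ⟨p', hp, rfl⟩ m
        rw [φ.lift_openEmbedding_apply]
        simp only [k, h.vv_ι]
        exact (a4 n).2 p' hp fun e' => m (by rw [e'])
      · rintro _ ⟨p', -, rfl⟩
        exact ⟨_, rfl⟩
      · intro p' e'
        obtain rfl : p = p' := (X.emb.injective e').symm
        refine ⟨ψ, b1, b2, b3, b4.mono fun u hu => ⟨hu.2 ▸ (h.e p).map_source hu.1, ?_⟩⟩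
        change X.ι (φ.symm u).1 = _
        rw [← hu.2, (h.e p).left_inv hu.1]
    · obtain ⟨φ, a⟩ := empty_rm12 r
      refine ⟨φ, fun b => absurd b hr, fun _ r' b => ?_, fun b => absurd b (hb r hr),
        fun r' b => ?_, fun p e => absurd ⟨p, e⟩ hr⟩ <;> simp [a] at b
  choose φ k1 k2 k3 k4 k5 using key
  refine ⟨{ R := R
            cpt := isCompact_iff_compactSpace.1 hR.isCompact
            t2 := inferInstance
            inf := {r | h.vv s G r.1 0 = 0}
            bad := {r | r.1 ∉ range X.ι}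
            xx := fun r => h.vv s G r.1 1 / h.vv s G r.1 0
            ν := ν
            ψ := φ
            mem := fun r hr => (k1 r (not_not.1 hr)).1
            zero := fun r hr => (k1 r (not_not.1 hr)).2
            ν12 := fun r => by simp only [ν]; split_ifs <;> simp
            aff := k2
            atinf := k3
            bν := fun r hr => if_pos fun p e => absurd ⟨p, e⟩ hr
            bo := fun r r' a b => b (k4 r r' a)
            bx := fun r hr => ?_ }, Subtype.val, Subtype.val_injective, continuous_subtype_val,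
    fun _ => Iff.rfl,
    fun b => ⟨fun a => a.elim fun (r : R) e => e ▸ r.2, fun a => ⟨⟨b, a⟩, rfl⟩⟩, fun _ => Iff.rfl,
    fun r hr => ?_, fun _ _ => rfl, fun r p e => ?_, k5⟩
  · obtain ⟨D', χ, P⟩ := hPUN X M h s G r.1 H hr
    obtain ⟨a1, a2, a3⟩ := bx_rm12 hZACC P
    refine ⟨a1.comp continuous_subtype_val.continuousAt,
      continuous_subtype_val.continuousAt.eventually a2, ?_⟩
    refine frequently_true_iff_neBot _ |>.1 (frequently_nhdsWithin_iff.2 ?_)
    rw [show 𝓝 r = comap Subtype.val (𝓝 r.1) from nhds_induced _ _, frequently_comap]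
    exact a3.mono fun b c => ⟨⟨b, c.2⟩, rfl, trivial, fun e => c.1 (congrArg Subtype.val e)⟩
  · have hr' : h.vv s G r.1 0 = 0 := hr
    obtain ⟨p, e⟩ : r.1 ∈ range X.ι := by_contra fun n => hb r n hr'
    change h.vv s G r.1 1 ≠ 0
    rw [← e, h.vv_ι] at hr' ⊢
    exact (((hPT1 X M h s p H.tri).2 (r.2 p e)).1 hr').1
  · rcases hν r p e with a | a
    · exact iff_of_false (fun b => by have : ν r = 2 := b; omega) a.2
    · exact iff_of_true a.1 a.2

end Pool.Agent.P.MP_ab0431_ag.UB.V2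

namespace Pool.Agent.P.MP_ab0431_ag.UB.V2

open Polynomial Set Filter Topology Asymptotics MeasureTheory
open scoped Manifold ContDiff

theorem fin_rcf2 {α : Type} {P : Set α} {N : ℕ} (h : ∀ T : Finset α, ↑T ⊆ P → T.card ≤ N) :
    P.Finite ∧ P.ncard ≤ N := by
  have h1 : P.Finite := by
    by_contra h0
    obtain ⟨T, a, b⟩ := Set.Infinite.exists_subset_card_eq h0 (N + 1)
    have := h T a
    omega
  exact ⟨h1, by rw [ncard_eq_toFinset_card _ h1]; exact h _ h1.coe_toFinset.le⟩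

theorem p_RCF (hBEZ : S_BEZ) (hRFIN : S_RFIN) (hPT1 : S_PT1) (hJFORM : S_JFORM) :
    S_RCF := by
  intro X M h s G S i m y hm hv hk ht2 hS
  have ht := ht2.tri
  have := X.t2B
  obtain ⟨-, f2, -, f4, -⟩ := hRFIN S
  have j1 : IsForm X.X (3 * M + 1) (J1 M s) :=
    (show M + M + M + 1 = 3 * M + 1 by ring) ▸
      hJFORM X M M M _ _ _ (ht.form 0) (ht.form 1) (ht.form 2)
  have j2 : IsForm X.X (5 * M + 2) (J2 M s) :=
    (show 3 * M + 1 + M + M + 1 = 5 * M + 2 by ring) ▸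
      hJFORM X _ M M _ _ _ j1 (ht.form 0) (ht.form 1)
  have hι := X.emb.injective
  have hr : ∀ p, h.vl (J1 M s) p = 0 ↔ X.ι p ∈ range i := fun p => by
    rw [hS.rng]
    exact ⟨fun a p' e => hι e ▸ a, fun a => a p rfl⟩
  have key : ∀ (A : Set S.R) (β : ℕ) (v : Sec X), 0 < β → IsForm X.X β v → (∀ r ∈ A, r ∉ S.bad) →
      (∀ r ∈ A, ∀ p, X.ι p = i r → h.vl v p = 0) →
      (∀ r ∈ A, ∀ᶠ r' in 𝓝[≠] r, ∀ p, X.ι p = i r' → h.vl v p ≠ 0) →
      A.Finite ∧ A.ncard ≤ 8 * m ^ 2 * (3 * M + 1) * β * y := fun A β v hβ hf hb h0 h1 => by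
    obtain ⟨a1, a2⟩ := fin_rcf2 (P := X.ι ⁻¹' (i '' A)) fun T hT => by
      refine hBEZ X h m y _ β _ v T hm hv hk (Nat.succ_pos _) hβ j1 hf fun p hp => ?_
      obtain ⟨r, hr0, e⟩ := hT hp
      have h2 := (hr _).2 ⟨r, e⟩
      refine ⟨h2, h0 r hr0 p e.symm, ((hPT1 X M h s _ ht).2 h2).2, ?_⟩
      have h3 := h1 r hr0
      rw [eventually_nhdsWithin_iff, (hS.cont.isClosedEmbedding hS.inj).isInducing.nhds_eq_comap,
        eventually_comap, e] at h3
      rw [eventually_nhdsWithin_iff]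
      filter_upwards [X.emb.continuous.continuousAt.eventually h3] with q h4 h5 h6
      obtain ⟨r', e'⟩ := (hr q).1 h6.1
      exact h4 r' e' (fun e2 => h5 (hι (e'.symm.trans ((congrArg i e2).trans e)))) q e'.symm h6.2
    have e : X.ι '' (X.ι ⁻¹' (i '' A)) = i '' A := image_preimage_eq_of_subset <| by
      rintro _ ⟨r, hr0, rfl⟩
      exact not_not.1 fun hn => hb r hr0 ((hS.bad r).2 hn)
    refine ⟨(finite_image_iff hS.inj.injOn).1 (e ▸ a1.image _), ?_⟩
    rwa [← ncard_image_of_injective A hS.inj, ← e, ncard_image_of_injective _ hι]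
  have hM : 0 < M := by have := ht.pos; omega
  have hbad : S.bad.Finite :=
    (X.fin.preimage hS.inj.injOn).subset fun r hr => (hS.bad r).1 hr
  have hib : ∀ r ∈ S.inf, r ∉ S.bad := fun r a b => by
    have := (S.atinf r a).1
    have := S.bν r b
    omega
  have hx : ∀ x r p, X.ι p = i r → r ∉ S.inf → (h.vl (s 1 - x • s 0) p = 0 ↔ S.xx r = x) := by
    intro x r p e a
    have h0 : h.vl (s 0) p ≠ 0 := fun b => a ((hS.inf r).2 (by rw [← e, h.vv_ι, b]))
    rw [hS.xx r a, ← e, h.vv_ι, h.vv_ι, div_eq_iff h0, ← sub_eq_zero (a := h.vl (s 1) p)]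
    rfl
  refine ⟨⟨(hbad.union (key ({r | S.ν r = 2} \ S.bad) _ _ (Nat.succ_pos _) j2 (fun r a => a.2)
    (fun r a p e => (hS.nu r p e).1 a.1) fun r a => (f2 r a.2).mono fun r' b p e c => ?_).1).subset
    le_sup_sdiff, fun x => (hbad.union (key (S.fb x \ S.bad) _ _ hM
      (isForm_sub (ht.form 1) (isForm_smul x (ht.form 0))) (fun r a => a.2)
      (fun r a p e => (hx x r p e a.1.1).2 a.1.2) fun r a => ((f2 r a.2).and (f4 r a.2 x)).mono
        fun r' b p e c => b.2 ⟨b.1.1, (hx x r' p e b.1.1).1 c⟩).1).subset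
    le_sup_sdiff⟩, (key _ M _ hM (ht.form 0) hib (fun r a p e => ?_)
      fun r a => (f2 r (hib r a)).mono fun r' b p e c => b.1 ((hS.inf r').2 ?_)).2⟩
  · have := (hS.nu r' p e).2 c
    omega
  · rw [← h.vv_ι s G, e]
    exact (hS.inf r).1 a
  · rw [← e, h.vv_ι, c]

end Pool.Agent.P.MP_ab0431_ag.UB.V2

namespace Pool.Agent.P.MP_ab0431_ag.UB.V2

open Polynomial Set Filter Topology Asymptotics MeasureTheory
open scoped Manifold ContDiff

theorem ratio_rm22 {X : DSurf} {M n : ℕ} (h : Ch X) {s t : Sec X} (G H : Gm X)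
    (hs : IsForm X.X M s) (ht : IsForm X.X (n * M) t) {q : X.X} {y : C2}
    (hy : y ∈ (h.e q).target) :
    h.vb t H (X.ι ((h.e q).symm y)) / h.vb s G (X.ι ((h.e q).symm y)) ^ n =
      t (h.e q) y / s (h.e q) y ^ n := by
  obtain ⟨v, v0, hv⟩ := exists_unit (h.mem _) (h.mem q) (h.src _) ((h.e q).map_target hy)
  rw [h.vb_ι, h.vb_ι, Ch.vl, Ch.vl, hv _ _ hs, hv _ _ ht, mul_pow, ← pow_mul, mul_comm M,
    mul_div_mul_right _ _ (pow_ne_zero _ v0), (h.e q).right_inv hy]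

theorem p_RM2 (hPUB : S_PUB) :
    S_RM2 := by
  intro X M h s G S i n t H T D ht
  have p2 : ∀ r p (ψ : ℂ → C2),
      (∀ᶠ u in 𝓝 0, ψ u ∈ (h.e p).target ∧ i ((S.ψ r).symm u) = X.ι ((h.e p).symm (ψ u))) →
      ∀ᶠ u in 𝓝 0, S.lc (fun r => h.vb t H (i r) / h.vv s G (i r) 0 ^ n) r u =
        t (h.e p) (ψ u) / s 0 (h.e p) (ψ u) ^ n := fun r p ψ hψ =>
    hψ.mono fun u hu => by
      change h.vb t H (i ((S.ψ r).symm u)) / h.vb (s 0) (G 0) (i ((S.ψ r).symm u)) ^ n = _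
      rw [hu.2]
      exact ratio_rm22 h _ _ (T.tri.form 0) ht hu.1
  have an : ∀ p (ψ : ℂ → C2) (m : ℕ) (w : Sec X), AnalyticAt ℂ ψ 0 → ψ 0 = h.pt p →
      IsForm X.X m w → AnalyticAt ℂ (fun u => w (h.e p) (ψ u)) 0 := fun p ψ m w a b c =>
    (isForm_analyticAt c (h.mem _) (b ▸ (h.e _).map_source (h.src _))).comp a
  have gd : ∀ r ∉ S.bad, ∃ p, X.ι p = i r := fun r hr => by
    by_contra e
    exact hr ((D.bad r).2 e)
  have c0 : S.Cl0 n (fun r => h.vb t H (i r) / h.vv s G (i r) 0 ^ n)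
      (fun r => h.vb t H (i r) / h.vv s G (i r) 1 ^ n) := by
    refine ⟨fun r hr hb => ?_, fun r hr => ?_⟩
    · obtain ⟨p, hp⟩ := gd r hb
      obtain ⟨ψ, a1, a2, -, a3⟩ := D.par r p hp
      refine ((an p ψ _ _ a1 a2 ht).div ((an p ψ _ _ a1 a2 (T.tri.form 0)).pow n)
        (pow_ne_zero _ ?_)).congr (EventuallyEq.symm (p2 r p ψ a3))
      simp only [a2]
      intro e
      apply hr
      rw [D.inf, ← hp, h.vv_ι]
      exact e
    · obtain ⟨p, hp⟩ := gd r (RS.inf_good hr)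
      obtain ⟨ψ, a1, a2, -, a3⟩ := D.par r p hp
      have i1 := D.inf1 r hr
      rw [← hp, h.vv_ι] at i1
      refine ⟨fun u => t (h.e p) (ψ u) / s 1 (h.e p) (ψ u) ^ n,
        (an p ψ _ _ a1 a2 ht).div ((an p ψ _ _ a1 a2 (T.tri.form 1)).pow n)
          (pow_ne_zero _ (by rw [a2]; exact i1)), ?_, ?_⟩
      · simp only [a2]
        rw [← hp, h.vv_ι, h.vb_ι]
        rfl
      filter_upwards [self_mem_nhdsWithin, nhdsWithin_le_nhds (p2 r p ψ a3),
        nhdsWithin_le_nhds a3, RS.inf_ev hr] with u u0 b1 b2 b3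
      obtain ⟨c1, c2⟩ := b3
      have c3 := ratio_rm22 (n := 1) h (G 0) (G 1) (T.tri.form 0)
        ((one_mul M).symm ▸ T.tri.form 1) b2.1
      rw [pow_one, pow_one, ← b2.2] at c3
      rw [D.xx _ c1, Ch.vv, Ch.vv, c3] at c2
      rw [b1]
      generalize ψ u = y at c2 ⊢
      have u0' : u ≠ 0 := u0
      have e0 : s 0 (h.e p) y ≠ 0 := fun e => u0' (by simpa [e] using c2.symm)
      rw [← inv_inv u, ← c2, inv_div, div_pow, div_mul_div_cancel₀ (pow_ne_zero _ e0)]
  refine ⟨c0, fun g => ⟨c0, fun r hr => ?_⟩, p2⟩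
  exact ContinuousAt.comp (f := i) ((hPUB X M h s G (i r) T ((D.bad r).1 hr)).2 n t H g)
    D.cont.continuousAt

end Pool.Agent.P.MP_ab0431_ag.UB.V2

namespace Pool.Agent.P.MP_ab0431_ag.UB.V2

open Polynomial Set Filter Topology Asymptotics MeasureTheory
open scoped Manifold ContDiff

theorem vb_sum_rm42 {X : DSurf} (h : Ch X) {ι : Type} [Fintype ι] (τ : ι → Sec X)
    (Γ : ι → Gm X) (a : ι → ℂ) (b : X.B) :
    h.vb (∑ l, a l • τ l) (∑ l, a l • Γ l) b = ∑ l, a l * h.vb (τ l) (Γ l) b := by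
  by_cases hb : b ∈ range X.ι
  · obtain ⟨p, rfl⟩ := hb
    simp [Ch.vb_ι, Ch.vl, Finset.sum_apply]
  · simp [h.vb_q _ _ hb, Finset.sum_apply]

theorem p_RM4 (hRM2 : S_RM2) :
    S_RM4 := by
  intro X M h s G S i ι _ τ Γ T D hS hF r hr hb
  classical
  have hJ := hS.jet
  have fm : ∀ a : ι → ℂ, Gr (1 * M) (∑ l, a l • τ l) (∑ l, a l • Γ l) := fun a =>
    (one_mul M).symm ▸ gr_sum _ fun l _ => (hS.gr l).smul _
  have R := fun a => hRM2 X M h s G S i 1 _ (∑ l, a l • Γ l) T D (fm a).1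
  let g : (ι → ℂ) →ₗ[ℂ] S.R → ℂ :=
    { toFun := fun a r => h.vb (∑ l, a l • τ l) (∑ l, a l • Γ l) (i r) / h.vv s G (i r) 0 ^ 1
      map_add' := fun a b => funext fun r => by
        simp only [vb_sum_rm42, Pi.add_apply, add_mul, Finset.sum_add_distrib, add_div]
      map_smul' := fun c a => funext fun r => by
        simp only [vb_sum_rm42, Pi.smul_apply, smul_eq_mul, RingHom.id_apply, mul_assoc,
          ← Finset.mul_sum, mul_div_assoc] }
  have df : ∀ a, DifferentiableAt ℂ (S.lc (g a) r) 0 := fun a =>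
    ((R a).1.1 r hr hb).differentiableAt
  let P : Submodule ℂ (ι → ℂ) :=
    { carrier := {a | deriv (S.lc (g a) r) 0 = 0}
      zero_mem' := by simp [RS.lc]
      add_mem' := fun {a b} ha hb => by
        have := deriv_add (df a) (df b)
        rw [ha, hb, add_zero] at this
        rw [mem_ofPred_eq, map_add]
        exact this
      smul_mem' := fun c a ha => by
        have := deriv_const_smul c (df a)
        rw [ha, smul_zero] at this
        rw [mem_ofPred_eq, map_smul]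
        exact this }
  have n0 : ∀ r' ∉ S.inf, h.vv s G (i r') 0 ≠ 0 := fun r' hr' e => hr' ((D.inf r').2 e)
  obtain ⟨p, hp⟩ : i r ∈ range X.ι := by
    by_contra c
    exact hb ((D.bad r).2 c)
  have n1 : h.vl (s 0) p ≠ 0 := by
    rw [← h.vv_ι s G p 0, hp]
    exact n0 r hr
  have := (hF.2 (S.xx r)).to_subtype
  obtain ⟨a, ha⟩ := Submodule.exists_forall_notMem_of_forall_ne_top
    (fun r' : S.fb (S.xx r) => if r'.1 = r then P else
      ((LinearMap.proj r).comp g).eqLocus ((LinearMap.proj r'.1).comp g)) (by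
    intro r' e
    rw [Submodule.eq_top_iff'] at e
    split_ifs at e with c
    · obtain ⟨ψ, a1, a2, a3, a4⟩ := D.par r p hp
      obtain ⟨k, hk⟩ := Function.ne_iff.1 a3
      obtain ⟨a, ha⟩ := hJ 1 (fun _ => p) (fun _ => h.e p) (fun _ y => y k - h.pt p k)
        (by omega) (Function.injective_of_subsingleton _) (fun _ => ⟨h.mem _, h.src _⟩)
        fun _ => ((ContinuousLinearMap.proj (R := ℂ) (φ := fun _ : Fin 2 => ℂ) k).analyticAt
          _).sub analyticAt_const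
      have b0 := val_rm4 (ha 0)
      have b1 := ((ha 0).hasFDerivAt (by omega)).add
        ((hasFDerivAt_apply (𝕜 := ℂ) k (h.pt p)).sub_const (h.pt p k))
      have b2 := (b1.comp_hasDerivAt_of_eq 0 a1.differentiableAt.hasDerivAt a2.symm).div
        (((isForm_analyticAt (T.tri.form 0) (h.mem p) (a2 ▸ (h.e _).map_source (h.src _))).comp
          a1).differentiableAt.hasDerivAt) (by simp only [Function.comp, a2]; exact n1)
      have b3 : deriv (S.lc (g a) r) 0 = _ := (b2.congr_of_eventuallyEq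
        (((R a).2.2 r p ψ a4).mono fun u hu => hu.trans (by simp))).deriv
      rw [e a] at b3
      simp only [Function.comp, a2, Pi.add_apply, Ch.pt, sub_self, sub_zero] at b3 b0
      simp only [b0, zero_add, zero_mul, sub_zero] at b3
      exact div_ne_zero (mul_ne_zero hk n1) (pow_ne_zero _ n1) b3.symm
    · obtain ⟨a, b0, b1⟩ : ∃ a : ι → ℂ,
          h.vb (∑ l, a l • τ l) (∑ l, a l • Γ l) (i r) = 0 ∧
          h.vb (∑ l, a l • τ l) (∑ l, a l • Γ l) (i r') = 1 := by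
        by_cases hq : i r' ∈ range X.ι
        · obtain ⟨p', hp'⟩ := hq
          obtain ⟨a, ha⟩ := hJ 2 ![p, p'] ![h.e p, h.e p'] ![0, 1] (by omega)
            (by simpa using fun e : p = p' => c (D.inj (by rw [← hp, ← hp', e])))
            (fun j => by fin_cases j <;> exact ⟨h.mem _, h.src _⟩)
            fun j => by fin_cases j <;> exact analyticAt_const
          have b0 : h.vl (∑ l, a l • τ l) p - 0 = 0 := val_rm4 (ha 0)
          have b1 : h.vl (∑ l, a l • τ l) p' - 1 = 0 := val_rm4 (ha 1)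
          refine ⟨a, ?_, ?_⟩
          · rw [← hp, h.vb_ι]
            exact sub_eq_zero.1 b0
          · rw [← hp', h.vb_ι]
            exact sub_eq_zero.1 b1
        · obtain ⟨a, b0, b1⟩ := hS.pq _ hq (h.e p) (h.mem p) p (h.src p)
          refine ⟨a, ?_, ?_⟩
          · rw [← hp, h.vb_ι]
            exact val_rm4 b0
          · rw [h.vb_q _ _ hq]
            exact b1
      have b2 : h.vb _ _ (i r) / _ = h.vb _ _ (i r') / _ := e a
      rw [b0, b1, zero_div] at b2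
      exact div_ne_zero one_ne_zero (pow_ne_zero _ (n0 r' r'.2.1)) b2.symm)
  refine ⟨g a, _, (R a).2.1 (fm a), fun r' hr' e => ?_, fun _ => ?_⟩
  · by_contra c
    have := ha ⟨r', hr'⟩
    rw [if_neg c] at this
    exact this e.symm
  · have := ha ⟨r, hr, rfl⟩
    rwa [if_pos rfl] at this

end Pool.Agent.P.MP_ab0431_ag.UB.V2

namespace Pool.Agent.P.MP_ab0431_ag.UB.V2

open Polynomial Set Filter Topology Asymptotics MeasureTheory
open scoped Manifold ContDiff

theorem p_RM3 (hRM2 : S_RM2) (hRM4 : S_RM4) (hPT3 : S_PT3) :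
    S_RM3 := by
  intro X M h s G S i ι _ τ Γ H m hS fn
  have gd : ∀ r ∉ S.bad, ∃ p, X.ι p = i r ∧ h.vl (J1 M s) p = 0 ∧
      (∀ k, h.vv s G (i r) k = h.vl (s k) p) ∧ (r ∉ S.inf → h.vl (s 0) p ≠ 0 ∧
        S.xx r = h.vl (s 1) p / h.vl (s 0) p) := fun r hr => by
    obtain ⟨p, e⟩ : i r ∈ range X.ι := by_contra fun n => hr ((m.bad r).2 n)
    have v : ∀ k, h.vv s G (i r) k = h.vl (s k) p := fun k => e ▸ h.vv_ι s G p k
    exact ⟨p, e, (m.rng _).1 (mem_range_self r) p e, v, fun n =>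
      ⟨fun z => n ((m.inf r).2 ((v 0).trans z)), by rw [m.xx r n, v, v]⟩⟩
  have ne : ∀ {r r' p p'}, X.ι p = i r → X.ι p' = i r' → r ≠ r' → p ≠ p' := fun e e' n k =>
    n (m.inj (by rw [← e, ← e', k]))
  have P := fun p p' => hPT3 X M h s _ _ H.tri rfl rfl p p'
  refine ⟨fn, ?_, fun r hr r' hr' e => ?_, fun x r hr r' hr' h2 e => ?_,
    fun x r hr r' hr' r'' hr'' e e' => ?_, hRM4 X M h s G S i ι τ Γ H m hS fn⟩
  · have g : Gr (1 * M) (s 2) (G 2) := by rw [one_mul]; exact H.gr 2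
    have c := (hRM2 X M h s G S i 1 (s 2) (G 2) H m g.1).2.1 g
    simp only [pow_one] at c
    exact c
  · by_contra n
    obtain ⟨p, a, j, v, -⟩ := gd r (RS.inf_good hr)
    obtain ⟨p', a', j', v', -⟩ := gd r' (RS.inf_good hr')
    refine (P p p' (ne a a' n) j j').1 ((v 0).symm.trans ((m.inf r).1 hr))
      ((v' 0).symm.trans ((m.inf r').1 hr')) ?_
    simpa only [Ch.rt, v, v'] using e
  · by_contra n
    obtain ⟨p, a, j, v, w⟩ := gd r hr.2
    obtain ⟨p', a', j', v', w'⟩ := gd r' hr'.2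
    refine (((P p p' (ne a a' n) j j').2 (w hr.1.1).1 (w' hr'.1.1).1 ((w hr.1.1).2.symm.trans
      ((hr.1.2.trans hr'.1.2.symm).trans (w' hr'.1.1).2))).1 ((m.nu r p a).1 h2)).2 ?_
    simpa only [Ch.rt, v, v'] using e
  · by_contra n
    push Not at n
    obtain ⟨p, a, j, v, w⟩ := gd r hr.2
    obtain ⟨p', a', j', v', w'⟩ := gd r' hr'.2
    obtain ⟨p'', a'', j'', v'', w''⟩ := gd r'' hr''.2
    refine ((P p p' (ne a a' n.1) j j').2 (w hr.1.1).1 (w' hr'.1.1).1 ((w hr.1.1).2.symm.trans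
      ((hr.1.2.trans hr'.1.2.symm).trans (w' hr'.1.1).2))).2 p'' (ne a a'' n.2.1)
      (ne a' a'' n.2.2) j'' (w'' hr''.1.1).1 ((w hr.1.1).2.symm.trans
      ((hr.1.2.trans hr''.1.2.symm).trans (w'' hr''.1.1).2)) ?_ ?_
    · simpa only [Ch.rt, v, v'] using e
    · simpa only [Ch.rt, v, v''] using e'

end Pool.Agent.P.MP_ab0431_ag.UB.V2

namespace Pool.Agent.P.MP_ab0431_ag.UB.V2

open Polynomial Set Filter Topology Asymptotics MeasureTheory
open scoped Manifold ContDiff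

theorem p_PIC (hPT1 : S_PT1) (hPIH : S_PIH) (hPUB : S_PUB) :
    S_PIC := by
  intro Q X M h s G T
  refine ⟨fun b => ?_, continuous_iff_continuousAt.2 fun b => ?_⟩
  · by_cases hb : b ∈ range X.ι
    · obtain ⟨p, rfl⟩ := hb
      rw [show h.vv s G (X.ι p) = fun i => h.vl (s i) p from funext (h.vv_ι s G p)]
      exact (hPT1 X M h s p T.tri).1
    · intro e
      exact T.opn.g0 b hb ((h.vv_q s G hb 0).symm.trans (congrFun e 0))
  · by_cases hb : b ∈ range X.ι
    · obtain ⟨p, rfl⟩ := hb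
      obtain ⟨hπ, -⟩ := hPIH Q X M h s T.tri
      refine X.emb.continuousAt_iff.1 ?_
      rw [show prB h s G Q ∘ X.ι = prj Q h s from funext (prB_ι h s G Q)]
      exact hπ.continuous.continuousAt
    · obtain ⟨h1, h2⟩ := hPUB X M h s G b T hb
      have h3 : ∀ i, ContinuousAt (fun b => h.vv s G b i / h.vv s G b 0) b := fun i => by
        have := h2 1 (s i) (G i) (by rw [one_mul]; exact T.gr i)
        simpa only [pow_one, Ch.vv] using this
      have h4 : ContinuousAt (h.af s G) b := continuousAt_pi.2 fun j => by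
        fin_cases j
        · exact h3 1
        · exact h3 2
      have h5 : ContinuousAt (fun b => (Q.ch 0).symm (h.af s G b)) b :=
        ContinuousAt.comp (f := h.af s G)
          ((Q.ch 0).continuousAt_symm (by rw [Q.ch_tgt]; trivial)) h4
      refine h5.congr ?_
      filter_upwards [h1] with b' hb'
      obtain ⟨a, c⟩ := prB_aff h s G Q hb'.1
      rw [← c, (Q.ch 0).left_inv a]

end Pool.Agent.P.MP_ab0431_ag.UB.V2

namespace Pool.Agent.P.MP_ab0431_ag.UB.V2

open Polynomial Set Filter Topology Asymptotics MeasureTheory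
open scoped Manifold ContDiff

theorem evt_fibq2 {X : DSurf} {M : ℕ}
    {h : Ch X} {s : Fin 3 → Sec X} (H : Tri M h s) {p : X.X} (h0 : h.vl (s 0) p ≠ 0)
    (h1 : h.vl (J1 M s) p = 0) :
    h.Evt s tR p (h.vl (s 1) p / h.vl (s 0) p) (h.vl (s 2) p / h.vl (s 0) p) := by
  have hM : M ≠ 0 := by have := H.pos; omega
  set f : Fin 3 → C2 → ℂ := fun i => s i (h.e p) with hf
  have an : ∀ i, AnalyticAt ℂ (f i) (h.pt p) := fun i =>
    isForm_analyticAt (H.form i) (h.mem p) ((h.e p).map_source (h.src p))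
  have h0' : f 0 (h.pt p) ≠ 0 := h0
  obtain ⟨-, w2, -⟩ := t_WJ M f (h.pt p) hM an h0'
  have ax := (an 1).div (an 0) h0'
  have az := (an 2).div (an 0) h0'
  have h1' : wjf M M M (f 0) (f 1) (f 2) (h.pt p) = 0 := h1
  have hj : jac (f 1 / f 0) (f 2 / f 0) (h.pt p) = 0 := by
    have := w2.self_of_nhds
    rw [h1'] at this
    exact (mul_eq_zero.1 this.symm).resolve_left
      (mul_ne_zero (Nat.cast_ne_zero.2 hM) (pow_ne_zero _ h0'))
  exact t_LTU tR f _ _ _ an h0' (by decide) rfl ((t_LR _ _ _ ax az).1 hj)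

theorem p_FIBQ (hPIC : S_PIC) :
    S_FIBQ := by
  intro Q X M h s G q H hq b hb
  have hv := (hPIC Q X M h s G H).1
  obtain ⟨c, hc⟩ := (Q.eq_iff _ _ (hv b) (hv q)).1 hb
  have hc' : ∀ i, G i q 0 = c * h.vv s G b i := fun i => by
    rw [← h.vv_q s G hq i, hc]; rfl
  have g0 := H.opn.g0 q hq
  by_cases e : b ∈ range X.ι
  · obtain ⟨p, rfl⟩ := e
    refine .inr ⟨p, rfl, fun j => ?_⟩
    simp only [h.vv_ι] at hc'
    have c0 : c ≠ 0 := fun z => g0 (by rw [hc', z, zero_mul])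
    have s0 : h.vl (s 0) p ≠ 0 := fun z => g0 (by rw [hc', z, mul_zero])
    have := evt_fibq2 H.tri s0 j
    refine H.mix q hq p ?_
    rw [hc' 0, hc' 1, hc' 2, mul_div_mul_left _ _ c0, mul_div_mul_left _ _ c0]
    exact this
  · left
    simp only [h.vv_q s G e] at hc'
    refine H.opn.xx b e q hq ?_
    rw [hc' 0, hc' 1]; ring

end Pool.Agent.P.MP_ab0431_ag.UB.V2

namespace Pool.Agent.P.MP_ab0431_ag.UB.V2

open Polynomial Set Filter Topology Asymptotics MeasureTheory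
open scoped Manifold ContDiff

theorem p_PUF0 (hPIC : S_PIC) (hFIBQ : S_FIBQ) :
    S_PUF0 := by
  intro Q X M h s G S i c q D' χ H hq P
  have k1 : ∀ p : C2, Dc c p = 0 ↔ ∃ b ∈ range i, h.vv s G b 0 ≠ 0 ∧ h.af s G b = p := by
    intro p
    rw [Dc, H.img.root]
    constructor
    · rintro ⟨r, ⟨a1, a2⟩, a3⟩
      refine ⟨i r, mem_range_self r, fun e => a1 ((H.mdl.inf r).2 e), ?_⟩
      funext j
      fin_cases j
      exacts [(H.mdl.xx r a1).symm.trans a2, a3]
    · rintro ⟨_, ⟨r, rfl⟩, a1, rfl⟩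
      have a2 : r ∉ S.inf := fun e => a1 ((H.mdl.inf r).1 e)
      exact ⟨r, ⟨a2, H.mdl.xx r a2⟩, rfl⟩
  have k2 : ∀ b ∈ χ.source, (b ∈ range i ↔ (χ b).1.2 = 0) := by
    intro b hb
    rw [H.mdl.rng]
    by_cases e : b = q
    · subst e
      exact ⟨fun _ => P.zero, fun _ p hp => absurd ⟨p, hp⟩ hq⟩
    · obtain ⟨p, rfl⟩ := P.sm b hb e
      rw [← P.ram p hb]
      exact ⟨fun a => a p rfl, fun a p' e' => X.emb.injective e' ▸ a⟩
  have sy : ∀ b, h.vv s G b 0 ≠ 0 → (Q.ch 0).symm (h.af s G b) = prB h s G Q b := fun b hb => by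
    rw [← (prB_aff h s G Q hb).2, (Q.ch 0).left_inv (prB_aff h s G Q hb).1]
  have hK : IsCompact (prB h s G Q '' (range i \ χ.source)) :=
    ((isCompact_range H.mdl.cont).diff χ.open_source).image (hPIC Q X M h s G H.tri).2
  have hqK : prB h s G Q q ∉ prB h s G Q '' (range i \ χ.source) := by
    rintro ⟨b, ⟨a1, a2⟩, a3⟩
    rcases hFIBQ Q X M h s G q H.tri hq b a3 with rfl | ⟨p, e, n⟩
    · exact a2 P.mem
    · exact n ((H.mdl.rng b).1 a1 p e)
  have e1 : ∀ᶠ p in 𝓝 (h.af s G q),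
      (Q.ch 0).symm p ∈ (prB h s G Q '' (range i \ χ.source))ᶜ := by
    refine ((Q.ch 0).continuousAt_symm (by rw [Q.ch_tgt]; trivial)).eventually_mem ?_
    rw [sy q (P.base q P.mem).1]
    exact hK.isClosed.isOpen_compl.mem_nhds hqK
  obtain ⟨t, t1, t2⟩ := (mem_nhds_induced _ _ _).1 (χ.open_target.mem_nhds (χ.map_source P.mem))
  have e2 : ∀ᶠ p in 𝓝 (h.af s G q), ((p, 0) : C2 × ℂ) ∈ t := by
    refine (Continuous.prodMk_left 0).continuousAt.eventually_mem ?_
    rwa [← (P.base q P.mem).2, ← P.zero]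
  filter_upwards [e1, e2] with p a1 a2
  rw [k1]
  constructor
  · rintro ⟨b, b1, b2, rfl⟩
    have b3 : b ∈ χ.source := by
      by_contra n
      exact a1 ⟨b, ⟨b1, n⟩, (sy b b2).symm⟩
    have := (χ b).2
    rw [(k2 b b3).1 b1, (P.base b b3).2] at this
    simpa using this.symm
  · intro hp
    have v1 : (⟨(p, 0), by simp [hp]⟩ : Dbl D') ∈ χ.target := t2 a2
    have v2 := χ.map_target v1
    refine ⟨_, (k2 _ v2).2 (by rw [χ.right_inv v1]), (P.base _ v2).1, ?_⟩
    rw [← (P.base _ v2).2, χ.right_inv v1]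

end Pool.Agent.P.MP_ab0431_ag.UB.V2
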