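import Pool.Agent.P.MP_ab0431_ag.UB2.IfaceD
import Pool.Agent.P.MP_ab0431_ag.UB2.IfaceD2

/-! Steps XTH1 XTH MOCH MOU CM2 PRODG CM GL2 CPP CHW1. -/

set_option autoImplicit false
set_option linter.unusedSectionVars false
set_option linter.unusedVariables false

namespace Pool.Agent.P.MP_ab0431_ag.UB.V2

open Polynomial Set Filter Topology
open scoped Manifold ContDiff

theorem ball_xth12 {M E T : Type} [TopologicalSpace M] [TopologicalSpace E]
    [TopologicalSpace T] [T2Space T] [LocallyCompactSpace T] {p : E → T} {Ω : Set T} {D : Set M}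
    {h : M → T} {f : M → E} {z : M} (hΩ : IsOpen Ω) (hp : Pf p Ω)
    (hh : ContinuousWithinAt h D z) (hz : h z ∈ Ω) (hf : ContinuousOn f D)
    (hπ : ∀ y ∈ D, p (f y) = h y) (hU : Ub D z) (N : E → Set E) (hNo : ∀ w, IsOpen (N w))
    (hNm : ∀ w, w ∈ N w) (hdis : (p ⁻¹' {h z}).PairwiseDisjoint N) :
    ∃ w ∈ p ⁻¹' {h z}, ∀ᶠ y in 𝓝[D] z, f y ∈ N w := by
  obtain ⟨K, hK, hqK, hKΩ⟩ := exists_compact_subset hΩ hz
  have hcl : IsClosed (p '' (p ⁻¹' K \ ⋃ w ∈ p ⁻¹' {h z}, N w)) :=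
    (((hp.prop K hKΩ hK).diff (isOpen_biUnion fun w _ => hNo w)).image hp.cont).isClosed
  have hq : h z ∈ (p '' (p ⁻¹' K \ ⋃ w ∈ p ⁻¹' {h z}, N w))ᶜ := by
    rintro ⟨w, hw, e⟩
    exact hw.2 (mem_biUnion (show w ∈ p ⁻¹' {h z} from e) (hNm w))
  obtain ⟨O, hO, hOs⟩ := mem_nhdsWithin_iff_exists_mem_nhds_inter.1 (inter_mem
    (hh (mem_interior_iff_mem_nhds.1 hqK)) (hh (hcl.isOpen_compl.mem_nhds hq)))
  obtain ⟨N', hN', hs, hpc⟩ := hU.2 O hO
  have hin : ∀ y ∈ N' ∩ D, ∃ w ∈ p ⁻¹' {h z}, f y ∈ N w := fun y hy => by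
    by_contra hn
    obtain ⟨h2, h3⟩ := hOs ⟨hs hy.1, hy.2⟩
    have e := hπ y hy.2
    refine h3 ⟨f y, ⟨?_, fun hm => hn ?_⟩, e⟩
    · rw [mem_preimage, e]; exact h2
    · simpa only [mem_iUnion, exists_prop] using hm
  obtain ⟨y₀, hy₀⟩ := mem_closure_iff_nhds.1 hU.1 N' hN'
  obtain ⟨w, hw, hfw⟩ := hin y₀ hy₀
  have hsub : f '' (N' ∩ D) ⊆ N w := by
    refine IsPreconnected.subset_left_of_subset_union
      (v := ⋃ w' ∈ p ⁻¹' {h z} \ {w}, N w') (hNo w) (isOpen_biUnion fun w _ => hNo w) ?_ ?_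
      ⟨_, ⟨y₀, hy₀, rfl⟩, hfw⟩ (hpc.image f (hf.mono inter_subset_right))
    · exact disjoint_iUnion₂_right.2 fun w' hw' => hdis hw hw'.1 fun e => hw'.2 e.symm
    · rintro _ ⟨y, hy, rfl⟩
      obtain ⟨w', hw', hm⟩ := hin y hy
      by_cases e : w' = w
      · exact Or.inl (e ▸ hm)
      · exact Or.inr (mem_biUnion (show w' ∈ p ⁻¹' {h z} \ {w} from ⟨hw', e⟩) hm)
  refine ⟨w, hw, ?_⟩
  filter_upwards [nhdsWithin_le_nhds hN', self_mem_nhdsWithin] with y h1 h2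
  exact hsub ⟨y, ⟨h1, h2⟩, rfl⟩

theorem lim_xth12 {M E T : Type} [TopologicalSpace M] [TopologicalSpace E] [T2Space E]
    [TopologicalSpace T] [T2Space T] [LocallyCompactSpace T] {p : E → T} {Ω : Set T} {D : Set M}
    {h : M → T} {f : M → E} {z : M} (hΩ : IsOpen Ω) (hp : Pf p Ω)
    (hh : ContinuousWithinAt h D z) (hz : h z ∈ Ω) (hf : ContinuousOn f D)
    (hπ : ∀ y ∈ D, p (f y) = h y) (hU : Ub D z) :
    ∃ w, p w = h z ∧ Tendsto f (𝓝[D] z) (𝓝 w) := by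
  classical
  have hne := mem_closure_iff_nhdsWithin_neBot.1 hU.1
  obtain ⟨U, hUo, hdis⟩ := (hp.fin _ hz).t2_separation
  obtain ⟨w, hw, hev⟩ := ball_xth12 hΩ hp hh hz hf hπ hU U (fun w => (hUo w).2)
    (fun w => (hUo w).1) hdis
  refine ⟨w, hw, (nhds_basis_opens w).tendsto_right_iff.2 fun O hO => ?_⟩
  obtain ⟨w', hw', hev'⟩ := ball_xth12 hΩ hp hh hz hf hπ hU
    (fun v => U v ∩ (if v = w then O else univ))
    (fun v => (hUo v).2.inter (by split_ifs; exacts [hO.2, isOpen_univ]))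
    (fun v => ⟨(hUo v).1, by split_ifs with e; exacts [e ▸ hO.1, mem_univ _]⟩)
    (fun a ha b hb e => (hdis ha hb e).mono inter_subset_left inter_subset_left)
  have e : w' = w := by
    by_contra e
    obtain ⟨y, h1, h2⟩ := (hev.and hev').exists
    exact Set.disjoint_left.1 (hdis hw' hw e) h2.1 h1
  filter_upwards [hev'] with y hy
  have := hy.2
  rwa [if_pos e] at this

theorem reg_xth12 {E : Type} [TopologicalSpace E] [T2Space E] {x : E} {K V : Set E}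
    (hK : IsCompact K) (hx : K ∈ 𝓝 x) (hV : IsOpen V) (hxV : x ∈ V) :
    ∃ A ∈ 𝓝 x, IsClosed A ∧ A ⊆ V := by
  obtain ⟨U₁, U₂, h1, h2, h3, h4, h5⟩ := (hK.diff hV).separation_of_notMem
    (x := x) (fun h => h.2 hxV)
  refine ⟨K \ U₁, ?_, hK.isClosed.sdiff h1, fun y hy => ?_⟩
  · filter_upwards [hx, h2.mem_nhds h4] with y a b
    exact ⟨a, fun c => Set.disjoint_left.1 h5 c b⟩
  · by_contra hn
    exact hy.2 (h3 ⟨hy.1, hn⟩)

theorem p_XTH1 :
    S_XTH1 := by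
  intro M E T _ _ _ _ _ _ p Ω C D h f hΩ hp hDC hh hm hf hπ hU
  have hl := fun z (hz : z ∈ C) =>
    lim_xth12 hΩ hp ((hh z hz).mono hDC) (hm hz) hf hπ (hU z hz)
  have ht : ∀ z ∈ C, Tendsto f (𝓝[D] z) (𝓝 (extendFrom D f z)) := fun z hz =>
    let ⟨w, _, b⟩ := hl z hz
    tendsto_extendFrom ⟨w, b⟩
  have hg : ∀ z ∈ C, p (extendFrom D f z) = h z := fun z hz => by
    obtain ⟨w, a, b⟩ := hl z hz
    rw [extendFrom_eq (hU z hz).1 b, a]
  refine ⟨extendFrom D f, fun z hz => ?_, extendFrom_extends hf, hg⟩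
  refine (nhds_basis_opens _).tendsto_right_iff.2 fun V hV => ?_
  obtain ⟨K, hK, hqK, hKΩ⟩ := exists_compact_subset hΩ (hm hz)
  obtain ⟨A, hA, hAc, hAV⟩ := reg_xth12 (hp.prop K hKΩ hK)
    (hp.cont.continuousAt (x := extendFrom D f z)
      (by rw [hg z hz]; exact mem_interior_iff_mem_nhds.1 hqK)) hV.2 hV.1
  obtain ⟨O, ⟨hzO, hO⟩, hOs⟩ := (nhdsWithin_basis_open z D).tendsto_left_iff.1 (ht z hz) A hA
  filter_upwards [nhdsWithin_le_nhds (hO.mem_nhds hzO), self_mem_nhdsWithin] with y h1 h2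
  have := mem_closure_iff_nhdsWithin_neBot.1 (hU y h2).1
  refine hAV (hAc.mem_of_tendsto (ht y h2) ?_)
  filter_upwards [nhdsWithin_le_nhds (hO.mem_nhds h1), self_mem_nhdsWithin] with y' h3 h4
  exact hOs ⟨h3, h4⟩

end Pool.Agent.P.MP_ab0431_ag.UB.V2

namespace Pool.Agent.P.MP_ab0431_ag.UB.V2

open Polynomial Set Filter Topology
open scoped Manifold ContDiff

theorem p_XTH (hXTH1 : S_XTH1) :
    S_XTH := by
  intro E E' T T' _ _ _ _ _ _ _ _ _ _ p p' Ω Ω' C D C' D' h h' f f' oΩ oΩ' hp hp' dc dc' ch ch'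
    mh mh' cf cf' a a' u u'
  obtain ⟨g, g1, g2, g3⟩ := hXTH1 E E' T' p' Ω' C D h f oΩ' hp' dc ch mh cf (fun z hz => (a z hz).1)
    fun z hz => (u z hz).1
  obtain ⟨g', g1', g2', g3'⟩ := hXTH1 E' E T p Ω C' D' h' f' oΩ hp dc' ch' mh' cf'
    (fun z hz => (a' z hz).1) fun z hz => (u' z hz).1
  have m : MapsTo g C C' := fun z hz => (u z hz).2 _ (g3 z hz)
  have m' : MapsTo g' C' C := fun z hz => (u' z hz).2 _ (g3' z hz)
  have e : EqOn (g' ∘ g) id C := EqOn.of_subset_closure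
    (fun z hz => by rw [Function.comp_apply, g2 hz, g2' (a z hz).2.1]; exact (a z hz).2.2)
    (g1'.comp g1 m) continuousOn_id dc fun z hz => (u z hz).1.1
  have e' : EqOn (g ∘ g') id C' := EqOn.of_subset_closure
    (fun z hz => by rw [Function.comp_apply, g2' hz, g2 (a' z hz).2.1]; exact (a' z hz).2.2)
    (g1.comp g1' m') continuousOn_id dc' fun z hz => (u' z hz).1.1
  exact ⟨g, g', g1, g1', g2, fun z hz => ⟨g3 z hz, m hz, e hz⟩, fun z hz => ⟨g3' z hz, m' hz, e' hz⟩⟩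

end Pool.Agent.P.MP_ab0431_ag.UB.V2

namespace Pool.Agent.P.MP_ab0431_ag.UB.V2

open Polynomial Set Filter Topology
open scoped Manifold ContDiff

theorem p_MOCH :
    S_MOCH := by
  classical
  intro T E _ _ c D D' H n i hH hD
  have hf : ∃ f : Mo H n → Dbl D', ∀ v, v.1.2.2 = i → (f v).1 = (c v.1.1, v.1.2.1) := by
    have : ∀ v : Mo H n, ∃ w : Dbl D', v.1.2.2 = i → w.1 = (c v.1.1, v.1.2.1) := by
      intro v
      by_cases h : v.1.2.2 = i
      · refine ⟨⟨(c v.1.1, v.1.2.1), ?_⟩, fun _ => rfl⟩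
        rcases v.2 with ⟨a, b⟩ | ⟨a, b⟩
        · rw [hD, if_pos (h.symm.trans a), ← hH]; exact b
        · rw [hD, if_neg (h ▸ a)]; simp [b]
      · obtain ⟨η, e⟩ := IsAlgClosed.exists_pow_nat_eq (D' (c v.1.1)) two_pos
        exact ⟨⟨(c v.1.1, η), e⟩, fun a => absurd a h⟩
    choose f hf using this
    exact ⟨f, hf⟩
  have hg : ∃ g : Dbl D' → Mo H n, ∀ w, w.1.1 ∈ c.target →
      (g w).1 = (c.symm w.1.1, w.1.2, i) := by
    have : ∀ w : Dbl D', ∃ v : Mo H n, w.1.1 ∈ c.target → v.1 = (c.symm w.1.1, w.1.2, i) := by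
      intro w
      by_cases h : w.1.1 ∈ c.target
      · refine ⟨⟨(c.symm w.1.1, w.1.2, i), ?_⟩, fun _ => rfl⟩
        have e := w.2
        by_cases a : i = 0
        · refine .inl ⟨a, ?_⟩
          replace e := e.trans (congrFun (hD.trans (if_pos a)) _)
          change w.1.2 ^ 2 = H (c.symm w.1.1)
          rw [hH, c.right_inv h]; exact e
        · refine .inr ⟨a, ?_⟩
          replace e := e.trans (congrFun (hD.trans (if_neg a)) _)
          exact pow_eq_zero_iff two_ne_zero |>.1 e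
      · obtain ⟨v, -⟩ := mpr_surj H n (c.symm w.1.1)
        exact ⟨v, fun a => absurd a h⟩
    choose g hg using this
    exact ⟨g, hg⟩
  obtain ⟨f, hf⟩ := hf
  obtain ⟨g, hg⟩ := hg
  have c1 : Continuous fun v : Mo H n => v.1.1 := continuous_mpr H n
  have c2 : Continuous fun v : Mo H n => v.1.2.1 := by fun_prop
  have c3 : Continuous fun v : Mo H n => v.1.2.2 := by fun_prop
  have d1 : Continuous fun w : Dbl D' => w.1.1 := by fun_prop
  have d2 : Continuous fun w : Dbl D' => w.1.2 := by fun_prop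
  refine ⟨
    { toFun := f
      invFun := g
      source := {v | mpr H n v ∈ c.source ∧ v.1.2.2 = i}
      target := {v | v.1.1 ∈ c.target}
      map_source' := fun v hv => ?_
      map_target' := fun w hw => ?_
      left_inv' := fun v hv => ?_
      right_inv' := fun w hw => ?_
      open_source := (c.open_source.preimage c1).inter ((isOpen_discrete {i}).preimage c3)
      open_target := c.open_target.preimage d1
      continuousOn_toFun := ?_
      continuousOn_invFun := ?_ }, rfl, rfl, fun v hv => hf v hv.2⟩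
  · change (f v).1.1 ∈ c.target
    rw [hf v hv.2]; exact c.map_source hv.1
  · change (g w).1.1 ∈ c.source ∧ (g w).1.2.2 = i
    rw [hg w hw]; exact ⟨c.map_target hw, rfl⟩
  · have e := hf v hv.2
    have m : (f v).1.1 ∈ c.target := by rw [e]; exact c.map_source hv.1
    refine Subtype.ext ?_
    rw [hg _ m, e]
    exact Prod.ext (c.left_inv hv.1) (Prod.ext rfl hv.2.symm)
  · have e := hg w hw
    have m : (g w).1.2.2 = i := by rw [e]
    refine Subtype.ext ?_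
    rw [hf _ m, e]
    exact Prod.ext (c.right_inv hw) rfl
  · refine IsInducing.subtypeVal.continuousOn_iff.2 ?_
    refine ContinuousOn.congr (f := fun v : Mo H n => (c v.1.1, v.1.2.1)) ?_ fun v hv => hf v hv.2
    exact (c.continuousOn.comp c1.continuousOn fun v hv => hv.1).prodMk c2.continuousOn
  · refine IsInducing.subtypeVal.continuousOn_iff.2 ?_
    refine ContinuousOn.congr (f := fun w : Dbl D' => (c.symm w.1.1, w.1.2, i)) ?_
      fun w hw => hg w hw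
    exact (c.continuousOn_symm.comp d1.continuousOn fun w hw => hw).prodMk
      (d2.continuousOn.prodMk continuousOn_const)

end Pool.Agent.P.MP_ab0431_ag.UB.V2

namespace Pool.Agent.P.MP_ab0431_ag.UB.V2

open Polynomial Set Filter Topology
open scoped Manifold ContDiff

theorem tr_mou2 (hUBT : S_UBT) {E E' T T' : Type} [TopologicalSpace E] [TopologicalSpace E']
    {p : E → T} {p' : E' → T'} {B : Set T} {B' : Set T'} (χ : OpenPartialHomeomorph E' E) {v : E'}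
    (hv : v ∈ χ.source) (h : ∀ᶠ y in 𝓝 v, p (χ y) ∈ B ↔ p' y ∈ B') (hu : UbAt p B (χ v)) :
    UbAt p' B' v := by
  have ht := χ.map_source hv
  have h1 : ∀ᶠ y in 𝓝 (χ v), p (χ (χ.symm y)) ∈ B ↔ p' (χ.symm y) ∈ B' :=
    (χ.tendsto_symm hv).eventually h
  have := hUBT E E' T T' p p' B B' χ.symm (χ v) ?_
    (fun N hN => mem_of_superset (χ.symm.image_mem_nhds ht hN) subset_union_left) hu
  · rwa [χ.left_inv hv] at this
  · filter_upwards [h1, χ.open_target.mem_nhds ht] with y a b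
    exact ⟨χ.continuousAt_symm b, by rwa [χ.right_inv b] at a⟩

theorem base_mou2 {E : Type} [NormedAddCommGroup E] [NormedSpace ℂ E] {D : E → ℂ} {a : E}
    (h : AnalyticAt ℂ D a) (h0 : ∃ᶠ u in 𝓝 a, D u ≠ 0) : UbAt D {0} a := by
  refine ⟨mem_closure_iff_frequently.2 h0, fun N hN => ?_⟩
  obtain ⟨r, r0, hr⟩ := Metric.mem_nhds_iff.1 (inter_mem hN h.eventually_analyticAt)
  obtain ⟨u, u1, u2⟩ := (h0.and_eventually (Metric.ball_mem_nhds a r0)).exists
  exact ⟨_, Metric.ball_mem_nhds a r0, fun y hy => (hr hy).1,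
    (t_CONN E _ D Metric.isOpen_ball (convex_ball a r)
      (fun y hy => (hr hy).2.differentiableAt.differentiableWithinAt) ⟨u, u2, u1⟩).1⟩

theorem p_MOU (hUNIB : S_UNIB) (hUBT : S_UBT) (hMOCH : S_MOCH) (hMOC : S_MOC) :
    S_MOU := by
  intro T E _ _ _ _ c D H n B v hH hs ha hB h0 h1
  have hB' : ∀ᶠ y in 𝓝 v, mpr H n y ∈ B ↔ H (mpr H n y) = 0 :=
    (continuous_mpr H n).continuousAt.eventually hB
  by_cases hc : H (mpr H n v) ≠ 0 ∨ v.1.2.2 ≠ 0
  · obtain ⟨e, e1, e2⟩ := (hMOC T H n (c.source ∩ c ⁻¹' {u | AnalyticAt ℂ D u})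
      (c.isOpen_inter_preimage (isOpen_analyticAt ℂ D)) (fun y hy => by
        rw [show H = D ∘ c from funext hH]
        exact ((AnalyticAt.continuousAt hy.2).comp
          (c.continuousAt hy.1)).continuousWithinAt)).2.2.1 v ⟨hs, ha⟩ hc
    refine tr_mou2 hUBT (p := D) (B := {0}) (e.trans c) ⟨e1, by
      change e v ∈ c.source
      rwa [e2 e1]⟩ ?_ ?_
    · filter_upwards [hB', e.open_source.mem_nhds e1] with y a b
      change D (c (e y)) = 0 ↔ _
      rw [e2 b, ← hH, a]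
    · change UbAt D {0} (c (e v))
      rw [e2 e1]
      exact base_mou2 ha h0
  · rw [not_or, not_not, not_not] at hc
    obtain ⟨χ, c1, -, c3⟩ := hMOCH T E c D D H n 0 hH (if_pos rfl).symm
    have key : ∀ y : Mo H n, y.1.2.2 = 0 → (y.1.2.1 = 0 ↔ H (mpr H n y) = 0) := fun y hy => by
      have := (y.2.resolve_right fun e => e.1 hy).2
      change _ ↔ H y.1.1 = 0
      rw [← this, pow_eq_zero_iff two_ne_zero]
    have hv : v ∈ χ.source := c1 ▸ ⟨hs, hc.2⟩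
    refine tr_mou2 hUBT (p := fun v : Dbl D => v.1.2) (B := {0}) χ hv ?_
      (hUNIB E D (χ v) ?_ ?_ ?_)
    · filter_upwards [hB', χ.open_source.mem_nhds hv] with y a b
      change (χ y).1.2 = 0 ↔ _
      rw [c3 y b, a]
      exact key y (c1 ▸ b : y ∈ {v | mpr H n v ∈ c.source ∧ v.1.2.2 = 0}).2
    · rw [c3 v hv]; exact ha
    · rw [c3 v hv]; exact (key v hc.2).2 hc.1
    · rw [c3 v hv]; exact h1 (hH _ ▸ hc.1)

end Pool.Agent.P.MP_ab0431_ag.UB.V2

namespace Pool.Agent.P.MP_ab0431_ag.UB.V2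

open Polynomial Set Filter Topology
open scoped Manifold ContDiff

theorem p_CM2 (hXTH : S_XTH) (hUBX : S_UBX) (hMOU : S_MOU) (hMOC : S_MOC) (hHFA : S_HFA) (hHCA : S_HCA) (hMUL : S_MUL) :
    S_CM2 := by
  intro Q b m nn n V s Ω N G X Y _ _ q r κ φ hS oΩ oN sub mu1 mem ⟨z₀⟩ g0 cκ cφ lq
  have oO : IsOpen (N ∩ Ω) := oN.inter oΩ
  have gd : ∀ w ∈ N, Good (s w.2) := fun w hw => (hS.good _ (sub hw).1).1
  have mul := fun w (hw : w ∈ N) => (hMUL Q b m (s w.2) (gd w hw).1).1 w.1 (sub hw).2.1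
  have fam : ∀ w ∈ N, w ∈ Fam Q s ↔ Hf Q s w = 0 := fun w hw => (mul w hw).1
  obtain ⟨an, md, zl⟩ := hHFA Q b m nn 0 V s hS
  obtain ⟨pf, -, lh, -⟩ := hMOC _ (Hf Q s) n (N ∩ Ω) oO
    (md.continuousOn.mono fun w hw => ⟨(sub hw.1).2, (sub hw.1).1⟩)
  have c1 : Car G.π q r ((N ∩ Ω) \ Fam Q s) κ := cκ.mono fun w hw => ⟨hw.1.2, hw.2⟩
  have c2 : Car (mpr (Hf Q s) n) q r ((N ∩ Ω) \ Fam Q s) φ := cφ.mono fun w hw => ⟨hw.1.1, hw.2⟩
  have lq' : ∀ w ∈ (N ∩ Ω) \ Fam Q s, ∀ x, q x = r w → LH q x := fun w hw => lq w ⟨hw.1.2, hw.2⟩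
  obtain ⟨f, f1, f2⟩ := t_DIVC _ _ _ _ X Y G.π (mpr (Hf Q s) n) q id r _ _ κ φ G.cont
    continuousOn_id (mapsTo_id _)
    (fun v hv => lh v hv.1 (.inl fun e => hv.2 ((fam _ hv.1.1).2 e))) lq' c1 c2
    ⟨fun z => (mpr_surj (Hf Q s) n (G.π z)).choose⟩
  obtain ⟨f', f3, f4⟩ := t_DIVC _ _ _ _ X Y (mpr (Hf Q s) n) G.π q id r _ _ φ κ pf.cont
    continuousOn_id (mapsTo_id _) (fun z hz => (g0.loc z hz.1.2 hz.2).lh) lq' c2 c1
    ⟨fun _ => z₀⟩
  have oC : IsOpen (G.π ⁻¹' N) := oN.preimage G.cont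
  have oC' : IsOpen (mpr (Hf Q s) n ⁻¹' (N ∩ Ω)) := oO.preimage pf.cont
  obtain ⟨g, g', a1, a2, -, a3, a4⟩ := hXTH _ _ _ _ G.π (mpr (Hf Q s) n) (N ∩ Ω) (N ∩ Ω)
    (G.π ⁻¹' N) (G.π ⁻¹' N ∩ G.π ⁻¹' (Fam Q s)ᶜ) (mpr (Hf Q s) n ⁻¹' (N ∩ Ω))
    (mpr (Hf Q s) n ⁻¹' (N ∩ Ω) ∩ mpr (Hf Q s) n ⁻¹' (Fam Q s)ᶜ) G.π (mpr (Hf Q s) n) f f' oO oO
    ((pf_of_g0 g0).mono inter_subset_right) pf inter_subset_left inter_subset_left
    G.cont.continuousOn pf.cont.continuousOn (fun z hz => ⟨hz, mem z⟩) (fun _ hz => hz)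
    (f1.cont.mono fun z hz => ⟨⟨hz.1, mem z⟩, hz.2⟩) (f3.cont.mono fun z hz => ⟨hz.1, hz.2⟩)
    (fun z hz => by
      have h1 : G.π z ∈ (N ∩ Ω) \ Fam Q s := ⟨⟨hz.1, mem z⟩, hz.2⟩
      have h2 : mpr (Hf Q s) n (f z) = G.π z := f1.comm z h1
      have h3 : mpr (Hf Q s) n (f z) ∈ (N ∩ Ω) \ Fam Q s := h2 ▸ h1
      exact ⟨h2, h3, c1.inj _ _ h1 ((f3.comm _ h3).trans h2) ((f4 _ h3).trans (f2 z h1))⟩)
    (fun z hz => by
      have h1 : mpr (Hf Q s) n z ∈ (N ∩ Ω) \ Fam Q s := hz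
      have h2 : G.π (f' z) = mpr (Hf Q s) n z := f3.comm z h1
      have h3 : G.π (f' z) ∈ (N ∩ Ω) \ Fam Q s := h2 ▸ h1
      exact ⟨h2, ⟨h3.1.1, h3.2⟩,
        c2.inj _ _ h1 ((f1.comm _ h3).trans h2) ((f2 _ h3).trans (f4 z h1))⟩)
    (fun z hz => ⟨(hUBX _ _ G (Fam Q s) (N ∩ Ω) oO (fun w hw => zl w (sub hw.1).1)
      (fun z hz => g0.thin z hz.2) z ⟨hz, mem z⟩).ub.inter (oC.mem_nhds hz),
      fun z' e => by rw [mem_preimage, e]; exact ⟨hz, mem z⟩⟩)
    (fun v hv => ⟨(hMOU _ _ (chF Q) (Df s) (Hf Q s) n (Fam Q s) v (Hf_eq Q s) (sub hv.1).2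
      (an (chF Q _) (sub hv.1).1).1 (eventually_of_mem (oN.mem_nhds hv.1) fam)
      ((Continuous.prodMk_left (mpr (Hf Q s) n v).2).continuousAt.tendsto.frequently
        ((hHCA Q b m _).2.2 (gd _ hv.1) (Q.ch 0 (mpr (Hf Q s) n v).1)).1)
      fun e => (frequently_pure.2 ⟨e, fun e' => (mu1 _ hv).not_gt ((mul _ hv.1).2.2.2
        ⟨e, (an (chF Q _) (sub hv.1).1).2.symm.trans (by rw [e']; rfl)⟩)⟩).filter_mono
        (pure_le_nhds _)).ub.inter (oC'.mem_nhds hv),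
      fun z' e => by rw [mem_preimage, e]; exact hv.1⟩)
  exact ⟨{ toFun := g, invFun := g', source := _, target := _
           map_source' := fun z hz => (a3 z hz).2.1, map_target' := fun z hz => (a4 z hz).2.1
           left_inv' := fun z hz => (a3 z hz).2.2, right_inv' := fun z hz => (a4 z hz).2.2
           open_source := oC, open_target := oC', continuousOn_toFun := a1
           continuousOn_invFun := a2 }, rfl, rfl, fun z hz => (a3 z hz).1⟩

end Pool.Agent.P.MP_ab0431_ag.UB.V2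

namespace Pool.Agent.P.MP_ab0431_ag.UB.V2

open Polynomial Set Filter Topology
open scoped Manifold ContDiff

theorem p_PRODG :
    S_PRODG := by
  intro M _ _ _ F A O h
  refine ⟨fun K hO hK => ?_, fun q hq => ?_, fun z hz0 hz => ?_, fun z hz0 => ?_⟩
  · have h1 : IsCompact (F.π ⁻¹' (Prod.fst '' K)) :=
      h.prop _ (image_subset_iff.2 hO) (hK.image continuous_fst)
    have h2 : IsCompact ((F.π ⁻¹' (Prod.fst '' K)) ×ˢ (Prod.snd '' K)) :=
      h1.prod (hK.image continuous_snd)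
    refine IsCompact.of_isClosed_subset (s := (F.π ⁻¹' (Prod.fst '' K)) ×ˢ (Prod.snd '' K)) h2
      (hK.isClosed.preimage F.prod.cont) ?_
    intro z hz
    exact ⟨⟨_, hz, rfl⟩, ⟨_, hz, rfl⟩⟩
  · have h1 : ((F.π ⁻¹' {q.1}) ×ˢ ({q.2} : Set ℂ)).Finite :=
      (h.fin q.1 hq).prod (finite_singleton _)
    refine h1.subset ?_
    intro z hz
    have e : (F.π z.1, z.2) = q := hz
    exact ⟨congrArg Prod.fst e, congrArg Prod.snd e⟩
  · obtain ⟨e, h1, h2, h3⟩ := h.loc z.1 hz0 hz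
    refine ⟨e.prod (OpenPartialHomeomorph.refl ℂ), ⟨h1, mem_univ _⟩, fun y hy => ?_, ?_⟩
    · show (e y.1, y.2) = (F.π y.1, y.2)
      rw [h2 hy.1]
    · exact md_pair (h3.comp md_fst.mdifferentiableOn fun _ hx => hx.1) md_snd.mdifferentiableOn
  · have h1 : z ∈ closure ((F.π ⁻¹' Aᶜ) ×ˢ (univ : Set ℂ)) := by
      rw [closure_prod_eq]
      exact ⟨h.thin z.1 hz0, subset_closure (mem_univ _)⟩
    exact closure_mono (fun y hy => hy.1) h1

end Pool.Agent.P.MP_ab0431_ag.UB.V2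

namespace Pool.Agent.P.MP_ab0431_ag.UB.V2

open Polynomial Set Filter Topology
open scoped Manifold ContDiff

theorem p_CM (hCM0 : S_CM0) (hCM2 : S_CM2) (hZCON : S_ZCON) (hASMG : S_ASMG) (hPRODG : S_PRODG) (hCVB : S_CVB) :
    S_CM := by
  intro Q X b m d nn V s G t₀ F h π S H ht C
  obtain ⟨⟨N₀, φ₀, N, φ, nb⟩, oΩ, fin, md⟩ := hCM0 Q X b m d nn V s G t₀ F h π S H ht C
  have gd := H.good ht
  obtain ⟨sb, -, -, sj, -, lh, -⟩ := hCVB Q X b m d _ F h π S gd C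
  have p0 := hPRODG Q.Y (cvr X h) _ _ C.g0
  have nB : ∀ w : Q.Y × ℂ, w.2 ∈ V → w ∉ Fam Q s → w ∈ Omg V (rr G t₀) S := fun w hw hB =>
    ⟨hw, fun e => hB ((H.mem_r ht hw).1 (sb e))⟩
  have lh' : ∀ w ∈ Omg V (rr G t₀) S \ Fam Q s, ∀ x, F x = rr G t₀ w → LH F x :=
    fun w hw x hx => lh x (by rw [hx]; exact fun e => hw.2 ((H.mem_r ht hw.1.1).1 e))
  obtain ⟨x, z, hxz⟩ := (t_BCF Q b m _ gd.1).2.2.2.2.2.2.2.2
  obtain ⟨Z, κ, hZ, ne⟩ := hZCON (C2 × ℂ) (Q.Y × ℂ) _ _ (cvr X h).prod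
    (Prod.fst ⁻¹' Bc Q (s t₀)) (Prod.fst ⁻¹' Sᶜ) (Fam Q s) (Omg V (rr G t₀) S) F (rr G t₀)
    (Rf Sᶜ) (C.finS.isClosed.isOpen_compl.preimage continuous_fst) p0
    ((t_ZLB Q b m _ gd.1).pull isOpen_univ md_fst.mdifferentiableOn (mapsTo_univ _ _))
    (fun _ e => e.2)
    (fun w hw => by
      obtain ⟨x, hx⟩ := sj hw
      exact ⟨(x, w.2), Prod.ext hx rfl⟩)
    ⟨(_, t₀), nB _ ht hxz⟩ lh' md
  obtain ⟨g0, car, -⟩ := hASMG _ _ _ _ _ _ _ _ _ _ _ _ Z κ p0 (fun _ e => e.2) hZ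
  obtain ⟨e, e1, e2, e3⟩ := hCM2 Q b m nn (d - 2) V s _ N Z _ _ F (rr G t₀) κ φ H.str oΩ nb.o
    nb.sub (fun w hw => nb.mu1 w hw.1 hw.2.2) hZ.1 ne g0 car nb.car lh'
  exact ⟨N, Z, κ, e, ne, hZ, oΩ, nb.o, fun w hw => hw.1,
    fun w hw hN => ⟨hw, fun e => hN (nb.sig w hw e)⟩, nB, fin, nb.sub,
    fun w hw => nb.mu1 w hw.1 hw.2.2, hZ.1, g0, e1, e2, e3⟩

end Pool.Agent.P.MP_ab0431_ag.UB.V2

namespace Pool.Agent.P.MP_ab0431_ag.UB.V2

open Polynomial Set Filter Topology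
open scoped Manifold ContDiff

/-- The glued topology. -/
@[reducible] def top_gl22 {Z E W : Type} [TopologicalSpace Z] [TopologicalSpace E] (A : Set E)
    (hA : IsOpen A) (κ : Z → W) (ι : E → W) : TopologicalSpace W where
  IsOpen U := IsOpen (κ ⁻¹' U) ∧ IsOpen (A ∩ ι ⁻¹' U)
  isOpen_univ := ⟨by simp, by simpa using hA⟩
  isOpen_inter := by
    intro s t hs ht
    refine ⟨hs.1.inter ht.1, ?_⟩
    have e : A ∩ ι ⁻¹' (s ∩ t) = (A ∩ ι ⁻¹' s) ∩ (A ∩ ι ⁻¹' t) := by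
      ext v; simp only [mem_inter_iff, mem_preimage]; tauto
    rw [e]; exact hs.2.inter ht.2
  isOpen_sUnion := by
    intro s hs
    refine ⟨?_, ?_⟩
    · rw [preimage_sUnion]; exact isOpen_biUnion fun U hU => (hs U hU).1
    · rw [preimage_sUnion, inter_iUnion₂]; exact isOpen_biUnion fun U hU => (hs U hU).2

theorem core_gl22 {Z E T W : Type} [TopologicalSpace Z] [T2Space Z] [TopologicalSpace E]
    [T2Space E] [TopologicalSpace T] [T2Space T] [TopologicalSpace W] (pZ : Z → T) (pE : E → T)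
    (Ω N : Set T) (e : OpenPartialHomeomorph Z E) (hZ : Continuous pZ) (hE : Continuous pE)
    (hN : IsOpen N) (hΩZ : ∀ z, pZ z ∈ Ω) (hs : e.source = pZ ⁻¹' N)
    (ht : e.target = pE ⁻¹' (N ∩ Ω)) (hp : ∀ z ∈ e.source, pE (e z) = pZ z)
    (κ : Z → W) (ι : E → W) (f : W → E) (p : W → T) (k1 : Function.Injective κ)
    (k2 : ∀ w, (∃ z, w = κ z) ∨ ∃ v, pE v ∈ N ∧ pE v ∉ Ω ∧ w = ι v)
    (k3 : ∀ z, p (κ z) = pZ z) (k4 : ∀ v, pE v ∈ N → p (ι v) = pE v)
    (k5 : ∀ z, f (κ z) = e z) (k6 : ∀ v, pE v ∈ N → f (ι v) = v)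
    (k7 : ∀ z, pZ z ∈ N → κ z = ι (e z))
    (ho : ∀ U : Set W, IsOpen U ↔ IsOpen (κ ⁻¹' U) ∧ IsOpen (pE ⁻¹' N ∩ ι ⁻¹' U)) :
    ∃ ψ : OpenPartialHomeomorph W E, Cpl pZ pE Ω N e κ p ψ := by
  have hA : IsOpen (pE ⁻¹' N) := hN.preimage hE
  have src : ∀ z, pZ z ∈ N → z ∈ e.source := fun z h => by rw [hs]; exact h
  have cκ : Continuous κ := continuous_def.2 fun U hU => ((ho U).1 hU).1
  have cι : ContinuousOn ι (pE ⁻¹' N) := (continuousOn_open_iff hA).2 fun U hU => ((ho U).1 hU).2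
  have oκ : IsOpenMap κ := by
    intro U hU
    refine (ho _).2 ⟨by rwa [preimage_image_eq _ k1], ?_⟩
    have e1 : pE ⁻¹' N ∩ ι ⁻¹' (κ '' U) = e.target ∩ e.symm ⁻¹' U := by
      ext v
      constructor
      · rintro ⟨hv, z, hz, hzv⟩
        have h1 : pZ z = pE v := by rw [← k3, hzv, k4 v hv]
        have h2 : z ∈ e.source := src z (by rw [h1]; exact hv)
        have h3 : e z = v := by rw [← k5, hzv, k6 v hv]
        refine ⟨h3 ▸ e.map_source h2, ?_⟩
        rw [mem_preimage, ← h3, e.left_inv h2]; exact hz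
      · rintro ⟨hv, hz⟩
        have h1 : e.symm v ∈ pZ ⁻¹' N := hs ▸ e.map_target hv
        have h2 : v ∈ pE ⁻¹' (N ∩ Ω) := ht ▸ hv
        refine ⟨h2.1, e.symm v, hz, ?_⟩
        rw [k7 _ h1, e.right_inv hv]
    rw [e1]; exact e.isOpen_inter_preimage_symm hU
  have emb : IsOpenEmbedding κ := IsOpenEmbedding.of_continuous_injective_isOpenMap cκ k1 oκ
  have cp : Continuous p := by
    refine continuous_def.2 fun V hV => (ho _).2 ⟨?_, ?_⟩
    · have e1 : κ ⁻¹' (p ⁻¹' V) = pZ ⁻¹' V := by ext z; simp only [mem_preimage, k3]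
      rw [e1]; exact hV.preimage hZ
    · have e1 : pE ⁻¹' N ∩ ι ⁻¹' (p ⁻¹' V) = pE ⁻¹' N ∩ pE ⁻¹' V := by
        ext v
        simp only [mem_inter_iff, mem_preimage]
        exact and_congr_right fun h => by rw [k4 v h]
      rw [e1]; exact hA.inter (hV.preimage hE)
  have hB : IsOpen (p ⁻¹' N) := hN.preimage cp
  have of : ∀ O : Set E, IsOpen O → IsOpen (p ⁻¹' N ∩ f ⁻¹' O) := by
    intro O hO
    refine (ho _).2 ⟨?_, ?_⟩
    · have e1 : κ ⁻¹' (p ⁻¹' N ∩ f ⁻¹' O) = e.source ∩ e ⁻¹' O := by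
        ext z; simp only [mem_inter_iff, mem_preimage, k3, k5, hs]
      rw [e1]; exact e.isOpen_inter_preimage hO
    · have e1 : pE ⁻¹' N ∩ ι ⁻¹' (p ⁻¹' N ∩ f ⁻¹' O) = pE ⁻¹' N ∩ O := by
        ext v
        simp only [mem_inter_iff, mem_preimage]
        exact and_congr_right fun h => by rw [k4 v h, k6 v h]; exact and_iff_right h
      rw [e1]; exact hA.inter hO
  have q : ∀ w, p w ∈ N → pE (f w) = p w := by
    intro w hw
    rcases k2 w with ⟨z, rfl⟩ | ⟨v, hv, -, rfl⟩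
    · rw [k3] at hw ⊢; rw [k5, hp z (src z hw)]
    · rw [k6 v hv, k4 v hv]
  have li : ∀ w, p w ∈ N → ι (f w) = w := by
    intro w hw
    rcases k2 w with ⟨z, rfl⟩ | ⟨v, hv, -, rfl⟩
    · rw [k3] at hw; rw [k5, ← k7 z hw]
    · rw [k6 v hv]
  have rng : range κ = p ⁻¹' Ω := by
    ext w
    constructor
    · rintro ⟨z, rfl⟩
      rw [mem_preimage, k3]; exact hΩZ z
    · intro hw
      rcases k2 w with ⟨z, rfl⟩ | ⟨v, hv, hv', rfl⟩
      · exact ⟨z, rfl⟩
      · rw [mem_preimage, k4 v hv] at hw; exact absurd hw hv'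
  have mem : ∀ w, p w ∈ Ω ∪ N := by
    intro w
    rcases k2 w with ⟨z, rfl⟩ | ⟨v, hv, -, rfl⟩
    · rw [k3]; exact Or.inl (hΩZ z)
    · rw [k4 v hv]; exact Or.inr hv
  have t2 : T2Space W := by
    refine ⟨fun x y hxy => ?_⟩
    by_cases h : p x = p y
    · rcases mem x with hx | hx
      · obtain ⟨a, rfl⟩ : x ∈ range κ := by rw [rng]; exact hx
        obtain ⟨b, rfl⟩ : y ∈ range κ := by rw [rng, mem_preimage, ← h]; exact hx
        exact separated_by_isOpenEmbedding emb fun h' => hxy (by rw [h'])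
      · have hy : p y ∈ N := h ▸ hx
        have hf : f x ≠ f y := fun h' => hxy (by rw [← li x hx, h', li y hy])
        obtain ⟨u, v, hu, hv, hxu, hyv, huv⟩ := t2_separation hf
        exact ⟨_, _, of u hu, of v hv, ⟨hx, hxu⟩, ⟨hy, hyv⟩,
          (huv.preimage f).mono inter_subset_right inter_subset_right⟩
    · exact separated_by_continuous cp h
  refine ⟨{ toFun := f
            invFun := ι
            source := p ⁻¹' N
            target := pE ⁻¹' N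
            map_source' := fun w hw => by rw [mem_preimage, q w hw]; exact hw
            map_target' := fun v hv => by rw [mem_preimage, k4 v hv]; exact hv
            left_inv' := fun w hw => li w hw
            right_inv' := fun v hv => k6 v hv
            open_source := hB
            open_target := hA
            continuousOn_toFun := (continuousOn_open_iff hB).2 of
            continuousOn_invFun := cι }, ?_⟩
  exact ⟨t2, cp, emb, rng, mem, k3, rfl, rfl, q, fun z _ => k5 z⟩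

theorem p_GL2 :
    S_GL2 := by
  intro Z E T _ _ _ _ _ _ pZ pE Ω N e hZ hE _ hN hΩZ hs ht hp
  classical
  let W : Type := Z ⊕ {v : E // pE v ∈ N ∧ pE v ∉ Ω}
  let ι : E → W := fun v =>
    if h : pE v ∈ N ∧ pE v ∉ Ω then Sum.inr ⟨v, h⟩ else Sum.inl (e.symm v)
  let f : W → E := Sum.elim e Subtype.val
  let p : W → T := Sum.elim pZ fun v => pE v.1
  have tg : ∀ v, pE v ∈ N → ¬ (pE v ∈ N ∧ pE v ∉ Ω) → v ∈ e.target := by
    intro v h1 h2
    rw [ht]
    exact ⟨h1, by_contra fun h => h2 ⟨h1, h⟩⟩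
  obtain ⟨ψ, h⟩ := @core_gl22 Z E T W _ _ _ _ _ _
    (top_gl22 (pE ⁻¹' N) (hN.preimage hE) Sum.inl ι) pZ pE Ω N e hZ hE hN hΩZ hs ht hp
    Sum.inl ι f p Sum.inl_injective
    (by
      rintro (z | ⟨v, hv⟩)
      · exact Or.inl ⟨z, rfl⟩
      · exact Or.inr ⟨v, hv.1, hv.2, by simp only [ι]; rw [dif_pos hv]⟩)
    (fun _ => rfl)
    (by
      intro v hv
      by_cases h : pE v ∈ N ∧ pE v ∉ Ω
      · simp only [ι]; rw [dif_pos h]; rfl
      · simp only [ι]; rw [dif_neg h]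
        have h1 := hp _ (e.map_target (tg v hv h))
        rw [e.right_inv (tg v hv h)] at h1
        exact h1.symm)
    (fun _ => rfl)
    (by
      intro v hv
      by_cases h : pE v ∈ N ∧ pE v ∉ Ω
      · simp only [ι]; rw [dif_pos h]; rfl
      · simp only [ι]; rw [dif_neg h]
        exact e.right_inv (tg v hv h))
    (by
      intro z hz
      have h1 : z ∈ e.source := by rw [hs]; exact hz
      have h2 : ¬ (pE (e z) ∈ N ∧ pE (e z) ∉ Ω) := fun h => h.2 (by rw [hp z h1]; exact hΩZ z)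
      simp only [ι]; rw [dif_neg h2, e.left_inv h1])
    (fun _ => Iff.rfl)
  exact ⟨W, _, Sum.inl, p, ψ, h⟩

end Pool.Agent.P.MP_ab0431_ag.UB.V2

namespace Pool.Agent.P.MP_ab0431_ag.UB.V2

open Polynomial Set Filter Topology
open scoped Manifold ContDiff

theorem p_CPP :
    S_CPP := by
  intro Z E W T _ _ _ _ _ pZ pE Ω N e κ p ψ hΩ hN C hZ hE
  have h1 : ∀ K ⊆ Ω, p ⁻¹' K = κ '' (pZ ⁻¹' K) := by
    intro K hK
    ext w
    constructor
    · intro hw
      have : w ∈ range κ := by rw [C.rng]; exact hK hw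
      obtain ⟨z, rfl⟩ := this
      exact ⟨z, by rw [mem_preimage, ← C.pκ]; exact hw, rfl⟩
    · rintro ⟨z, hz, rfl⟩
      rw [mem_preimage, C.pκ]
      exact hz
  have h2 : ∀ K ⊆ N, p ⁻¹' K = ψ.symm '' (pE ⁻¹' K) := by
    intro K hK
    ext w
    constructor
    · intro hw
      have hs : w ∈ ψ.source := by rw [C.src]; exact hK hw
      exact ⟨ψ w, by rw [mem_preimage, C.qψ w hs]; exact hw, ψ.left_inv hs⟩
    · rintro ⟨x, hx, rfl⟩
      have ht : x ∈ ψ.target := by rw [C.tgt]; exact hK hx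
      rw [mem_preimage, ← C.qψ _ (ψ.map_target ht), ψ.right_inv ht]
      exact hx
  refine ⟨⟨C.cont, fun K hK hKc => ?_, fun q hq => ?_⟩, fun z hz => ?_⟩
  · obtain ⟨K1, K2, c1, c2, s1, s2, rfl⟩ := hKc.binary_compact_cover hΩ hN hK
    rw [preimage_union, h1 K1 s1, h2 K2 s2]
    refine ((hZ.prop K1 s1 c1).image C.emb.continuous).union
      ((hE.prop K2 s2 c2).image_of_continuousOn (ψ.continuousOn_symm.mono fun x hx => ?_))
    rw [C.tgt]
    exact s2 hx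
  · rcases hq with hq | hq
    · rw [h1 {q} (singleton_subset_iff.2 hq)]
      exact (hZ.fin q hq).image _
    · rw [h2 {q} (singleton_subset_iff.2 hq)]
      exact (hE.fin q hq).image _
  · obtain ⟨f, hf, hfe⟩ := hz
    have : Nonempty Z := ⟨z⟩
    refine ⟨(C.emb.toOpenPartialHomeomorph κ).symm.trans f, ⟨by simp, ?_⟩, ?_⟩
    · have : (C.emb.toOpenPartialHomeomorph κ).symm (κ z) = z :=
        C.emb.toOpenPartialHomeomorph_left_inv
      simpa [this] using hf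
    · rintro w ⟨hw1, hw2⟩
      have hw : w ∈ range κ := by simpa using hw1
      obtain ⟨y, rfl⟩ := hw
      have : (C.emb.toOpenPartialHomeomorph κ).symm (κ y) = y :=
        C.emb.toOpenPartialHomeomorph_left_inv
      have hy : y ∈ f.source := by simpa [this] using hw2
      rw [OpenPartialHomeomorph.trans_apply, this, hfe hy, C.pκ]

end Pool.Agent.P.MP_ab0431_ag.UB.V2

namespace Pool.Agent.P.MP_ab0431_ag.UB.V2

open Polynomial Set Filter Topology
open scoped Manifold ContDiff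

theorem sqrt_chw12 {E M : Type} [NormedAddCommGroup E] [NormedSpace ℂ E] [TopologicalSpace M]
    [ChartedSpace E M] {η H : M → ℂ} {z : M} (hc : ContinuousAt η z)
    (hH : MDifferentiableAt 𝓘(ℂ, E) 𝓘(ℂ, ℂ) H z) (h0 : H z ≠ 0)
    (h : ∀ᶠ y in 𝓝 z, η y ^ 2 = H y) : MDifferentiableAt 𝓘(ℂ, E) 𝓘(ℂ, ℂ) η z := by
  obtain ⟨c, ca, c0, hc2⟩ := t_ROOTK ℂ id (H z) 2 analyticAt_id h0 two_ne_zero
  have h1 : MDifferentiableAt 𝓘(ℂ, E) 𝓘(ℂ, ℂ) (c ∘ H) z :=
    ca.differentiableAt.mdifferentiableAt.comp z hH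
  have h2 : ∀ᶠ y in 𝓝 z, η y = c (H y) ∨ η y = - c (H y) := by
    filter_upwards [h, hH.continuousAt.eventually hc2] with y a b
    exact sq_eq_sq_iff_eq_or_eq_neg.1 (a.trans b.symm)
  rcases h2.self_of_nhds with e | e
  · have h3 : η z + (c ∘ H) z ≠ 0 := by
      change η z + c (H z) ≠ 0
      rw [e, ← two_mul]
      exact mul_ne_zero two_ne_zero c0
    refine h1.congr_of_eventuallyEq ?_
    filter_upwards [h2, (hc.add h1.continuousAt).eventually_ne h3] with y a b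
    exact a.resolve_right fun e' => b (by change η y + c (H y) = 0; rw [e', neg_add_cancel])
  · have h3 : η z - (c ∘ H) z ≠ 0 := by
      change η z - c (H z) ≠ 0
      rw [e, ← neg_add', ← two_mul]
      exact neg_ne_zero.2 (mul_ne_zero two_ne_zero c0)
    refine h1.neg.congr_of_eventuallyEq ?_
    filter_upwards [h2, (hc.sub h1.continuousAt).eventually_ne h3] with y a b
    exact a.resolve_left fun e' => b (by change η y - c (H y) = 0; rw [e', sub_self])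

theorem p_CHW1 (hHFA : S_HFA) (hMUL : S_MUL) :
    S_CHW1 := by
  intro Q b m nn n V s Ω N G e hS hC z hz
  obtain ⟨-, hH, hZ⟩ := hHFA Q b m nn 0 V s hS
  have hN : ∀ y ∈ e.source, G.π y ∈ Prod.snd ⁻¹' V ∩ (chF Q).source := fun y hy =>
    hC.sub (by rw [hC.src] at hy; exact hy)
  have hO : IsOpen ((chF Q).source ∩ Prod.snd ⁻¹' V) :=
    (chF Q).open_source.inter (hS.isOpen.preimage continuous_snd)
  have h1 : MDifferentiableAt 𝓘(ℂ, C2 × ℂ) 𝓘(ℂ, C2 × ℂ) (chF Q ∘ G.π) z :=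
    ((TBOXa.bi (Q.ch_mem 0)).hol.mdifferentiableAt
      ((chF Q).open_source.mem_nhds (hN z hz).2)).comp z (G.hol z)
  refine h1.prodMk_space ?_
  have ce : ∀ y ∈ e.source, ContinuousAt (fun y => (e y).1) y := fun y hy =>
    continuous_subtype_val.continuousAt.comp (e.continuousAt hy)
  have cη : ∀ y ∈ e.source, ContinuousAt (fun y => (e y).1.2.1) y := fun y hy =>
    (ce y hy).snd.fst
  have off : ∀ y ∈ e.source, y ∉ G.π ⁻¹' Fam Q s →
      MDifferentiableAt 𝓘(ℂ, C2 × ℂ) 𝓘(ℂ, ℂ) (fun y => (e y).1.2.1) y := by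
    intro y hy hB
    have hi : ∀ᶠ y' in 𝓝 y, (e y').1.2.2 = (e y).1.2.2 :=
      (ce y hy).snd.snd.eventually (p := fun i => i = (e y).1.2.2) (by
        rw [nhds_discrete]; exact eventually_pure.2 rfl)
    by_cases h0 : (e y).1.2.2 = 0
    · refine sqrt_chw12 (H := Hf Q s ∘ G.π) (cη y hy)
        ((hH.mdifferentiableAt (hO.mem_nhds ⟨(hN y hy).2, (hN y hy).1⟩)).comp y (G.hol y))
        (fun e0 => hB ?_) ?_
      · exact ((hMUL Q b m (s (G.π y).2) (hS.good _ (hN y hy).1).1.1).1 _ (hN y hy).2.1).1.2 e0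
      · filter_upwards [hi, e.open_source.mem_nhds hy] with y' a hy'
        rcases (e y').2 with h | h
        · rw [h.2, Function.comp_apply, ← hC.comm y' hy']; rfl
        · exact absurd (a.trans h0) h.1
    · refine (mdifferentiableAt_const (c := (0 : ℂ))).congr_of_eventuallyEq ?_
      filter_upwards [hi] with y' a
      rcases (e y').2 with h | h
      · exact absurd (a.symm.trans h.1) h0
      · exact h.2
  have hd : e.source ⊆ closure (e.source \ G.π ⁻¹' Fam Q s) := fun y hy =>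
    e.open_source.inter_closure ⟨hy, hC.g0.thin y (hC.mem y)⟩
  obtain ⟨f, hf⟩ := (t_XT0 (C2 × ℂ) ℂ G.Z e.source (G.π ⁻¹' Fam Q s) z e.open_source hz
    (hZ.pull e.open_source G.hol.mdifferentiableOn fun y hy => (hN y hy).1) hd).2
    (fun y => (e y).1.2.1) (‖(e z).1.2.1‖ + 1) (by
      filter_upwards [e.open_source.mem_nhds hz,
        (cη z hz).norm.eventually (gt_mem_nhds (lt_add_one _))] with y hy a hB
      exact ⟨off y hy hB, a.le⟩)
  refine hf.self_of_nhds.1.congr_of_eventuallyEq ?_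
  filter_upwards [hf.eventually_nhds, e.open_source.mem_nhds hz] with y a hy
  refine tendsto_nhds_unique_of_frequently_eq (cη y hy) a.self_of_nhds.1.continuousAt ?_
  exact ((mem_closure_iff_frequently.1 (hd hy)).and_eventually a).mono
    fun y' h => (h.2.2 h.1.2).symm

end Pool.Agent.P.MP_ab0431_ag.UB.V2
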